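import Pool.Agent.Lib_helper59.XT.Defs
import Pool.Agent.Lib_helper50.ZP.Fourth

/-!
# XT, part A: mean values of Dirichlet polynomials, the approximate functional equation, the critical line
-/

set_option autoImplicit false

/-! ### Block M1 -/

namespace Pool.Agent.XT

open Finset Complex MeasureTheory Pool.Agent.Var35 Pool.Agent.Var73 Pool.Agent.HC Pool.Agent.MF
  Pool.Agent.XS
open scoped ArithmeticFunction ArithmeticFunction.Moebius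

/-- the coefficients of the product -/
noncomputable def m1_c (N z : ℕ) (a b : ℕ → ℂ) (σ τ : ℝ) (k : ℕ) : ℂ :=
  ∑ d ∈ k.divisors.filter (fun d => d ≤ z ∧ k / d ≤ N),
    a (k / d) * ((((k / d : ℕ) : ℝ) ^ (-σ) : ℝ) : ℂ) * (b d * (((d : ℝ) ^ (-τ) : ℝ) : ℂ))

theorem m1_mul {q : ℕ} (χ : DirichletCharacter ℂ q) (N z : ℕ) (a b : ℕ → ℂ) (σ τ t : ℝ) :
    MB a N χ ((σ : ℂ) + t * I) * MB b z χ ((τ : ℂ) + t * I) =
      ∑ k ∈ Icc 1 (N * z), m1_c N z a b σ τ k * χ (k : ZMod q) * (k : ℂ) ^ (-(t * I) : ℂ) := by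
  classical
  unfold MB m1_c
  rw [Finset.sum_mul_sum, ← Finset.sum_product']
  have hmaps : ∀ x ∈ Icc 1 N ×ˢ Icc 1 z, x.1 * x.2 ∈ Icc 1 (N * z) := by
    intro x hx
    simp only [mem_product, mem_Icc] at hx ⊢
    exact ⟨Nat.mul_pos hx.1.1 hx.2.1, Nat.mul_le_mul hx.1.2 hx.2.2⟩
  rw [← Finset.sum_fiberwise_of_maps_to hmaps]
  refine Finset.sum_congr rfl fun m hm => ?_
  have hm0 : 0 < m := (mem_Icc.1 hm).1
  rw [Finset.sum_mul, Finset.sum_mul]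
  refine Finset.sum_bij' (fun x _ => x.2) (fun d _ => (m / d, d)) ?_ ?_ ?_ ?_ ?_
  · intro x hx
    simp only [mem_filter, mem_product, mem_Icc, Nat.mem_divisors] at hx ⊢
    obtain ⟨⟨⟨h1, h2⟩, h3, h4⟩, h5⟩ := hx
    have h6 : m / x.2 = x.1 := by
      rw [← h5]
      exact Nat.mul_div_cancel _ h3
    refine ⟨⟨⟨x.1, by rw [← h5]; ring⟩, hm0.ne'⟩, h4, ?_⟩
    rw [h6]
    exact h2
  · intro d hd
    simp only [mem_filter, mem_product, mem_Icc, Nat.mem_divisors] at hd ⊢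
    obtain ⟨⟨h1, _⟩, h3, h4⟩ := hd
    have hd0 : 0 < d := Nat.pos_of_dvd_of_pos h1 hm0
    refine ⟨⟨⟨Nat.div_pos (Nat.le_of_dvd hm0 h1) hd0, h4⟩, hd0, h3⟩, Nat.div_mul_cancel h1⟩
  · intro x hx
    simp only [mem_filter, mem_product, mem_Icc] at hx
    obtain ⟨⟨⟨h1, h2⟩, h3, h4⟩, h5⟩ := hx
    have h6 : m / x.2 = x.1 := by
      rw [← h5]
      exact Nat.mul_div_cancel _ h3
    ext
    · exact h6
    · rfl
  · intro d _
    rfl
  · intro x hx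
    simp only [mem_filter, mem_product, mem_Icc] at hx
    obtain ⟨⟨⟨h1, _⟩, h3, _⟩, h5⟩ := hx
    have h6 : m / x.2 = x.1 := by
      rw [← h5]
      exact Nat.mul_div_cancel _ h3
    rw [h6, kmx_cpow h1, kmx_cpow h3, ← h5]
    push_cast
    rw [map_mul, Complex.natCast_mul_natCast_cpow]
    ring

theorem m1_bound {N z : ℕ} {a b : ℕ → ℂ} (ha : ∀ n, ‖a n‖ ≤ 1) (hb : ∀ n, ‖b n‖ ≤ 1) {σ τ : ℝ}
    (hσ : 1 / 2 ≤ σ) (hτ : 1 / 2 ≤ τ) {k : ℕ} (hk : 1 ≤ k) :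
    ‖m1_c N z a b σ τ k‖ ≤ (k.divisors.card : ℝ) * (k : ℝ) ^ (-(1 / 2 : ℝ)) := by
  unfold m1_c
  have hk0 : 0 < k := hk
  have key : ∀ (n : ℕ) (c : ℝ), 1 ≤ n → 1 / 2 ≤ c →
      |(n : ℝ) ^ (-c)| ≤ (n : ℝ) ^ (-(1 / 2 : ℝ)) := by
    intro n c hn hc
    have hn' : (1 : ℝ) ≤ n := by exact_mod_cast hn
    rw [abs_of_nonneg (by positivity)]
    exact Real.rpow_le_rpow_of_exponent_le hn' (by linarith)
  refine (norm_sum_le _ _).trans ?_
  have h1 : ∀ d ∈ k.divisors.filter (fun d => d ≤ z ∧ k / d ≤ N),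
      ‖a (k / d) * ((((k / d : ℕ) : ℝ) ^ (-σ) : ℝ) : ℂ) * (b d * (((d : ℝ) ^ (-τ) : ℝ) : ℂ))‖ ≤
        (k : ℝ) ^ (-(1 / 2 : ℝ)) := by
    intro d hd
    have hdk : d ∣ k := (Nat.mem_divisors.1 (mem_filter.1 hd).1).1
    have hd0 : 0 < d := Nat.pos_of_dvd_of_pos hdk hk0
    have he0 : 1 ≤ k / d := Nat.div_pos (Nat.le_of_dvd hk0 hdk) hd0
    rw [norm_mul, norm_mul, norm_mul, Complex.norm_real, Complex.norm_real, Real.norm_eq_abs,
      Real.norm_eq_abs]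
    have e : (k : ℝ) ^ (-(1 / 2 : ℝ)) =
        1 * ((k / d : ℕ) : ℝ) ^ (-(1 / 2 : ℝ)) * (1 * (d : ℝ) ^ (-(1 / 2 : ℝ))) := by
      rw [one_mul, one_mul, ← Real.mul_rpow (Nat.cast_nonneg _) (Nat.cast_nonneg _),
        ← Nat.cast_mul, Nat.div_mul_cancel hdk]
    rw [e]
    gcongr
    · exact ha _
    · exact key _ _ he0 hσ
    · exact hb _
    · exact key _ _ hd0 hτ
  refine (Finset.sum_le_sum h1).trans ?_
  rw [Finset.sum_const, nsmul_eq_mul]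
  gcongr
  exact Finset.filter_subset _ _

/-- the numerical estimate -/
theorem m1_num {d : ℝ} (hd : 0 < d) {M : ℕ} (hM : 1 ≤ M) {B : ℝ} (hB : 0 ≤ B) :
    ∑ k ∈ Icc 1 M, ((k : ℝ) + 4 * B) * (((k : ℝ) ^ d) ^ 2 * ((k : ℝ) ^ (-(1 / 2 : ℝ))) ^ 2) ≤
      4 * (2 + 1 / d) * (M : ℝ) ^ (3 * d) * (B + M) := by
  have hM' : (1 : ℝ) ≤ M := by exact_mod_cast hM
  have hM0 : (0 : ℝ) < M := by linarith
  have h1 : ∀ k ∈ Icc 1 M, ((k : ℝ) + 4 * B) * (((k : ℝ) ^ d) ^ 2 *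
      ((k : ℝ) ^ (-(1 / 2 : ℝ))) ^ 2) ≤ (M : ℝ) ^ (2 * d) * (1 + 4 * B * (k : ℝ)⁻¹) := by
    intro k hk
    have hk' := mem_Icc.1 hk
    have hk1 : (1 : ℝ) ≤ k := by exact_mod_cast hk'.1
    have hk0 : (0 : ℝ) < k := by linarith
    have e1 : ((k : ℝ) ^ (-(1 / 2 : ℝ))) ^ 2 = (k : ℝ)⁻¹ := by
      rw [← Real.rpow_natCast, ← Real.rpow_mul hk0.le]
      norm_num
      exact Real.rpow_neg_one _
    have e2 : ((k : ℝ) ^ d) ^ 2 ≤ (M : ℝ) ^ (2 * d) := by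
      rw [← Real.rpow_natCast, ← Real.rpow_mul hk0.le]
      have : (k : ℝ) ≤ M := by exact_mod_cast hk'.2
      calc (k : ℝ) ^ (d * ((2 : ℕ) : ℝ)) = (k : ℝ) ^ (2 * d) := by
            congr 1
            push_cast
            ring
        _ ≤ _ := Real.rpow_le_rpow hk0.le this (by positivity)
    have e3 : ((k : ℝ) + 4 * B) * (((k : ℝ) ^ d) ^ 2 * (k : ℝ)⁻¹) =
        ((k : ℝ) ^ d) ^ 2 * (1 + 4 * B * (k : ℝ)⁻¹) := by
      field_simp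
    rw [e1, e3]
    gcongr
  refine (Finset.sum_le_sum h1).trans ?_
  rw [← Finset.mul_sum, Finset.sum_add_distrib, ← Finset.mul_sum]
  have h2 : ∑ k ∈ Icc 1 M, ((k : ℝ)⁻¹) ≤ 1 + Real.log M := by
    have h := harmonic_le_one_add_log M
    rw [harmonic_eq_sum_Icc] at h
    push_cast at h
    exact h
  have h3 : Real.log M ≤ (M : ℝ) ^ d / d := Real.log_le_rpow_div hM0.le hd
  have h4 : (1 : ℝ) ≤ (M : ℝ) ^ d := Real.one_le_rpow hM' hd.le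
  have h5 : 1 + Real.log M ≤ (2 + 1 / d) * (M : ℝ) ^ d := by
    have : (M : ℝ) ^ d / d = 1 / d * (M : ℝ) ^ d := by ring
    nlinarith
  have h6 : (M : ℝ) ^ (3 * d) = (M : ℝ) ^ (2 * d) * (M : ℝ) ^ d := by
    rw [← Real.rpow_add hM0]
    congr 1
    ring
  have h7 : 0 ≤ 1 / d := by positivity
  calc (M : ℝ) ^ (2 * d) * (∑ k ∈ Icc 1 M, (1 : ℝ) + 4 * B * ∑ k ∈ Icc 1 M, ((k : ℝ)⁻¹))
      ≤ (M : ℝ) ^ (2 * d) * (M * (4 * ((2 + 1 / d) * (M : ℝ) ^ d)) +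
          4 * B * ((2 + 1 / d) * (M : ℝ) ^ d)) := by
        refine mul_le_mul_of_nonneg_left ?_ (by positivity)
        refine add_le_add ?_ (mul_le_mul_of_nonneg_left (h2.trans h5) (by positivity))
        rw [Finset.sum_const, nsmul_eq_mul, mul_one, Nat.card_Icc, Nat.add_sub_cancel]
        have h8 : (1 : ℝ) ≤ 4 * ((2 + 1 / d) * (M : ℝ) ^ d) := by nlinarith
        nlinarith
    _ = 4 * (2 + 1 / d) * (M : ℝ) ^ (3 * d) * (B + M) := by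
        rw [h6]
        ring

/-- M1: product of two polynomials -/
theorem mvp_pr {ε : ℝ} (hε : 0 < ε) : ∃ C : ℝ, 1 ≤ C ∧ ∀ (R : ℕ) (T : ℝ), 1 ≤ R → 1 ≤ T →
    ∀ (N z : ℕ) (a b : ℕ → ℂ), 1 ≤ N → 1 ≤ z → (∀ n, ‖a n‖ ≤ 1) → (∀ n, ‖b n‖ ≤ 1) →
    ∀ σ τ : ℝ, 1 / 2 ≤ σ → 1 / 2 ≤ τ →
    SP R (fun _ χ => ∫ t in (-T)..T, ‖MB a N χ ((σ : ℂ) + t * I) * MB b z χ ((τ : ℂ) + t * I)‖ ^ 2) ≤
      C * ((N : ℝ) * z) ^ ε * ((R : ℝ) ^ 2 * T + N * z) := by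
  obtain ⟨C₁, hC₁, hls1⟩ := hls
  have hd : 0 < ε / 3 := by positivity
  obtain ⟨C₂, hC₂, hdb⟩ := Pool.Agent.FG61.divisor_bound hd
  have hC₁0 : 0 ≤ C₁ := by linarith
  refine ⟨max 1 (C₁ * (C₂ ^ 2 * (4 * (2 + 1 / (ε / 3))))), le_max_left _ _,
    fun R T hR hT N z a b hN hz ha hb σ τ hσ hτ => ?_⟩
  have hM1 : 1 ≤ N * z := Nat.mul_pos hN hz
  have hT0 : -T ≤ T := by linarith
  have hSP : SP R (fun _ χ => ∫ t in (-T)..T,
      ‖MB a N χ ((σ : ℂ) + t * I) * MB b z χ ((τ : ℂ) + t * I)‖ ^ 2) =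
      ∑ r ∈ Ico R (2 * R), ∑ χ ∈ Pr r, ∫ t in (-T)..T,
        ‖∑ n ∈ Icc 1 (N * z), m1_c N z a b σ τ n * χ (n : ZMod r) *
          (n : ℂ) ^ (-(t * I) : ℂ)‖ ^ 2 := by
    unfold SP
    refine Finset.sum_congr rfl fun r _ => Finset.sum_congr rfl fun χ _ => ?_
    refine intervalIntegral.integral_congr fun t _ => ?_
    simp only [m1_mul]
  rw [hSP]
  have hstep1 : ∑ r ∈ Ico R (2 * R), ∑ χ ∈ Pr r, ∫ t in (-T)..T,
        ‖∑ n ∈ Icc 1 (N * z), m1_c N z a b σ τ n * χ (n : ZMod r) *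
          (n : ℂ) ^ (-(t * I) : ℂ)‖ ^ 2 ≤
      ∑ r ∈ Icc 1 (2 * R), ∑ χ ∈ Pr r, ∫ t in (-T)..T,
        ‖∑ n ∈ Icc 1 (N * z), m1_c N z a b σ τ n * χ (n : ZMod r) *
          (n : ℂ) ^ (-(t * I) : ℂ)‖ ^ 2 := by
    refine Finset.sum_le_sum_of_subset_of_nonneg ?_ ?_
    · intro r hr
      have := mem_Ico.1 hr
      exact mem_Icc.2 ⟨by omega, by omega⟩
    · intro r _ _
      refine Finset.sum_nonneg fun χ _ => ?_
      refine intervalIntegral.integral_nonneg hT0 fun t _ => ?_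
      positivity
  refine hstep1.trans ?_
  refine (hls1 (2 * R) (by omega) T hT (Icc 1 (N * z)) (fun n hn => (mem_Icc.1 hn).1)
    (m1_c N z a b σ τ)).trans ?_
  have hterm : ∀ n ∈ Icc 1 (N * z), ((n : ℝ) + ((2 * R : ℕ) : ℝ) ^ 2 * T) *
      ‖m1_c N z a b σ τ n‖ ^ 2 ≤ C₂ ^ 2 * (((n : ℝ) + 4 * ((R : ℝ) ^ 2 * T)) *
        (((n : ℝ) ^ (ε / 3)) ^ 2 * ((n : ℝ) ^ (-(1 / 2 : ℝ))) ^ 2)) := by
    intro n hn
    have hn1 : 1 ≤ n := (mem_Icc.1 hn).1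
    have h1 := m1_bound (N := N) (z := z) ha hb hσ hτ hn1
    have h2 : ‖m1_c N z a b σ τ n‖ ≤ C₂ * (n : ℝ) ^ (ε / 3) * (n : ℝ) ^ (-(1 / 2 : ℝ)) :=
      h1.trans (mul_le_mul_of_nonneg_right (hdb n hn1) (by positivity))
    calc ((n : ℝ) + ((2 * R : ℕ) : ℝ) ^ 2 * T) * ‖m1_c N z a b σ τ n‖ ^ 2
        ≤ ((n : ℝ) + ((2 * R : ℕ) : ℝ) ^ 2 * T) *
          (C₂ * (n : ℝ) ^ (ε / 3) * (n : ℝ) ^ (-(1 / 2 : ℝ))) ^ 2 := by gcongr
      _ = _ := by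
          push_cast
          ring
  calc C₁ * ∑ n ∈ Icc 1 (N * z), ((n : ℝ) + ((2 * R : ℕ) : ℝ) ^ 2 * T) *
        ‖m1_c N z a b σ τ n‖ ^ 2
      ≤ C₁ * ∑ n ∈ Icc 1 (N * z), C₂ ^ 2 * (((n : ℝ) + 4 * ((R : ℝ) ^ 2 * T)) *
        (((n : ℝ) ^ (ε / 3)) ^ 2 * ((n : ℝ) ^ (-(1 / 2 : ℝ))) ^ 2)) :=
        mul_le_mul_of_nonneg_left (Finset.sum_le_sum hterm) hC₁0
    _ = C₁ * (C₂ ^ 2 * ∑ n ∈ Icc 1 (N * z), ((n : ℝ) + 4 * ((R : ℝ) ^ 2 * T)) *
        (((n : ℝ) ^ (ε / 3)) ^ 2 * ((n : ℝ) ^ (-(1 / 2 : ℝ))) ^ 2)) := by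
        rw [← Finset.mul_sum]
    _ ≤ C₁ * (C₂ ^ 2 * (4 * (2 + 1 / (ε / 3)) * ((N * z : ℕ) : ℝ) ^ (3 * (ε / 3)) *
          ((R : ℝ) ^ 2 * T + (N * z : ℕ)))) := by
        refine mul_le_mul_of_nonneg_left ?_ hC₁0
        refine mul_le_mul_of_nonneg_left ?_ (by positivity)
        exact m1_num hd hM1 (by positivity)
    _ = C₁ * (C₂ ^ 2 * (4 * (2 + 1 / (ε / 3)))) * ((N : ℝ) * z) ^ ε *
          ((R : ℝ) ^ 2 * T + N * z) := by
        rw [show 3 * (ε / 3) = ε by ring]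
        push_cast
        ring
    _ ≤ max 1 (C₁ * (C₂ ^ 2 * (4 * (2 + 1 / (ε / 3))))) * ((N : ℝ) * z) ^ ε *
          ((R : ℝ) ^ 2 * T + N * z) := by
        gcongr
        exact le_max_right _ _

theorem mvp : type_of% @mvp_pr := @mvp_pr

end Pool.Agent.XT

/-! ### Block M2 -/

namespace Pool.Agent.XT

open Finset Complex MeasureTheory Pool.Agent.Var35 Pool.Agent.Var73 Pool.Agent.HC Pool.Agent.MF
  Pool.Agent.XS
open scoped ArithmeticFunction ArithmeticFunction.Moebius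

/-- the coefficients of the product -/
noncomputable def m2_c (N z : ℕ) (a b : ℕ → ℂ) (σ τ : ℝ) (k : ℕ) : ℂ :=
  ∑ d ∈ k.divisors.filter (fun d => d ≤ z ∧ k / d ≤ N),
    a (k / d) * ((((k / d : ℕ) : ℝ) ^ (-σ) : ℝ) : ℂ) * (b d * (((d : ℝ) ^ (-τ) : ℝ) : ℂ))

theorem m2_cpow {n : ℕ} (hn : 1 ≤ n) (σ t : ℝ) : (n : ℂ) ^ (-((σ : ℂ) + t * I)) =
    (((n : ℝ) ^ (-σ) : ℝ) : ℂ) * (n : ℂ) ^ (-(t * I) : ℂ) := by
  have hn0 : (n : ℂ) ≠ 0 := by exact_mod_cast (by omega : n ≠ 0)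
  rw [show -((σ : ℂ) + t * I) = ((-σ : ℝ) : ℂ) + -(t * I) by push_cast; ring, cpow_add _ _ hn0,
    Complex.ofReal_cpow (Nat.cast_nonneg n)]
  push_cast
  rfl

theorem m2_mul {q : ℕ} (χ : DirichletCharacter ℂ q) (N z : ℕ) (a b : ℕ → ℂ) (σ τ t : ℝ) :
    MB a N χ ((σ : ℂ) + t * I) * MB b z χ ((τ : ℂ) + t * I) =
      ∑ k ∈ Icc 1 (N * z), m2_c N z a b σ τ k * χ (k : ZMod q) * (k : ℂ) ^ (-(t * I) : ℂ) := by
  classical
  unfold MB m2_c
  rw [Finset.sum_mul_sum, ← Finset.sum_product']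
  have hmaps : ∀ x ∈ Icc 1 N ×ˢ Icc 1 z, x.1 * x.2 ∈ Icc 1 (N * z) := by
    intro x hx
    simp only [mem_product, mem_Icc] at hx ⊢
    exact ⟨Nat.mul_pos hx.1.1 hx.2.1, Nat.mul_le_mul hx.1.2 hx.2.2⟩
  rw [← Finset.sum_fiberwise_of_maps_to hmaps]
  refine Finset.sum_congr rfl fun m hm => ?_
  have hm0 : 0 < m := (mem_Icc.1 hm).1
  rw [Finset.sum_mul, Finset.sum_mul]
  refine Finset.sum_bij' (fun x _ => x.2) (fun d _ => (m / d, d)) ?_ ?_ ?_ ?_ ?_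
  · intro x hx
    simp only [mem_filter, mem_product, mem_Icc, Nat.mem_divisors] at hx ⊢
    obtain ⟨⟨⟨h1, h2⟩, h3, h4⟩, h5⟩ := hx
    have h6 : m / x.2 = x.1 := by
      rw [← h5]
      exact Nat.mul_div_cancel _ h3
    refine ⟨⟨⟨x.1, by rw [← h5]; ring⟩, hm0.ne'⟩, h4, ?_⟩
    rw [h6]
    exact h2
  · intro d hd
    simp only [mem_filter, mem_product, mem_Icc, Nat.mem_divisors] at hd ⊢
    obtain ⟨⟨h1, _⟩, h3, h4⟩ := hd
    have hd0 : 0 < d := Nat.pos_of_dvd_of_pos h1 hm0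
    refine ⟨⟨⟨Nat.div_pos (Nat.le_of_dvd hm0 h1) hd0, h4⟩, hd0, h3⟩, Nat.div_mul_cancel h1⟩
  · intro x hx
    simp only [mem_filter, mem_product, mem_Icc] at hx
    obtain ⟨⟨⟨h1, h2⟩, h3, h4⟩, h5⟩ := hx
    have h6 : m / x.2 = x.1 := by
      rw [← h5]
      exact Nat.mul_div_cancel _ h3
    ext
    · exact h6
    · rfl
  · intro d _
    rfl
  · intro x hx
    simp only [mem_filter, mem_product, mem_Icc] at hx
    obtain ⟨⟨⟨h1, _⟩, h3, _⟩, h5⟩ := hx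
    have h6 : m / x.2 = x.1 := by
      rw [← h5]
      exact Nat.mul_div_cancel _ h3
    rw [h6, m2_cpow h1, m2_cpow h3, ← h5]
    push_cast
    rw [map_mul, Complex.natCast_mul_natCast_cpow]
    ring

/-- the coefficients cut off below -/
noncomputable def m2_a (N : ℕ) (a : ℕ → ℂ) (n : ℕ) : ℂ := if n ≤ N then 0 else a n

theorem m2_bound {N V z : ℕ} {a b : ℕ → ℂ} (ha : ∀ n, ‖a n‖ ≤ 1) (hb : ∀ n, ‖b n‖ ≤ 1)
    (hN : 1 ≤ N) {k : ℕ} (hk : 1 ≤ k) :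
    ‖m2_c V z (m2_a N a) b (3 / 2) (1 / 2) k‖ ≤ (k.divisors.card : ℝ) *
      ((k : ℝ) ^ (-(1 / 2 : ℝ)) * ((N : ℝ)⁻¹ * min 1 ((N : ℝ) * z / k))) := by
  unfold m2_c
  have hk0 : 0 < k := hk
  have hkr : (0 : ℝ) < k := by exact_mod_cast hk0
  have hNr : (0 : ℝ) < N := by exact_mod_cast hN
  have hR0 : 0 ≤ (k : ℝ) ^ (-(1 / 2 : ℝ)) * ((N : ℝ)⁻¹ * min 1 ((N : ℝ) * z / k)) := by
    positivity
  refine (norm_sum_le _ _).trans ?_
  have h1 : ∀ d ∈ k.divisors.filter (fun d => d ≤ z ∧ k / d ≤ V),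
      ‖m2_a N a (k / d) * ((((k / d : ℕ) : ℝ) ^ (-(3 / 2 : ℝ)) : ℝ) : ℂ) *
        (b d * (((d : ℝ) ^ (-(1 / 2 : ℝ)) : ℝ) : ℂ))‖ ≤
        (k : ℝ) ^ (-(1 / 2 : ℝ)) * ((N : ℝ)⁻¹ * min 1 ((N : ℝ) * z / k)) := by
    intro d hd
    have hdk : d ∣ k := (Nat.mem_divisors.1 (mem_filter.1 hd).1).1
    have hdz : d ≤ z := (mem_filter.1 hd).2.1
    have hd0 : 0 < d := Nat.pos_of_dvd_of_pos hdk hk0
    have he0 : 1 ≤ k / d := Nat.div_pos (Nat.le_of_dvd hk0 hdk) hd0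
    by_cases hle : k / d ≤ N
    · unfold m2_a
      rw [if_pos hle, zero_mul, zero_mul, norm_zero]
      exact hR0
    · have hgt : N < k / d := not_le.1 hle
      have her : (0 : ℝ) < ((k / d : ℕ) : ℝ) := by exact_mod_cast he0
      have hdr : (0 : ℝ) < (d : ℝ) := by exact_mod_cast hd0
      rw [norm_mul, norm_mul, norm_mul, Complex.norm_real, Complex.norm_real, Real.norm_eq_abs,
        Real.norm_eq_abs, abs_of_nonneg (Real.rpow_nonneg her.le _),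
        abs_of_nonneg (Real.rpow_nonneg hdr.le _)]
      have ha' : ‖m2_a N a (k / d)‖ ≤ 1 := by
        unfold m2_a
        rw [if_neg hle]
        exact ha _
      have e0 : ((k / d : ℕ) : ℝ) * (d : ℝ) = k := by
        rw [← Nat.cast_mul, Nat.div_mul_cancel hdk]
      have e : (k : ℝ) ^ (-(1 / 2 : ℝ)) =
          ((k / d : ℕ) : ℝ) ^ (-(1 / 2 : ℝ)) * (d : ℝ) ^ (-(1 / 2 : ℝ)) := by
        rw [← Real.mul_rpow her.le hdr.le, e0]
      have e1 : ((k / d : ℕ) : ℝ) ^ (-(3 / 2 : ℝ)) =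
          ((k / d : ℕ) : ℝ) ^ (-(1 / 2 : ℝ)) * (((k / d : ℕ) : ℝ))⁻¹ := by
        rw [← Real.rpow_neg_one, ← Real.rpow_add her]
        norm_num
      have e2 : (((k / d : ℕ) : ℝ))⁻¹ ≤ (N : ℝ)⁻¹ * min 1 ((N : ℝ) * z / k) := by
        rw [mul_min_of_nonneg _ _ (by positivity : (0 : ℝ) ≤ (N : ℝ)⁻¹)]
        refine le_min ?_ ?_
        · rw [mul_one]
          refine inv_anti₀ hNr ?_
          exact_mod_cast hgt.le
        · have e3 : (N : ℝ)⁻¹ * ((N : ℝ) * z / k) = z / k := by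
            field_simp
          rw [e3, ← e0]
          rw [div_eq_mul_inv, mul_inv]
          have h5 : (1 : ℝ) ≤ z * (d : ℝ)⁻¹ := by
            rw [← div_eq_mul_inv, le_div_iff₀ hdr, one_mul]
            exact_mod_cast hdz
          calc (((k / d : ℕ) : ℝ))⁻¹ = 1 * (((k / d : ℕ) : ℝ))⁻¹ := (one_mul _).symm
            _ ≤ (z * (d : ℝ)⁻¹) * (((k / d : ℕ) : ℝ))⁻¹ :=
                mul_le_mul_of_nonneg_right h5 (by positivity)
            _ = _ := by ring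
      have p1 : 0 ≤ ((k / d : ℕ) : ℝ) ^ (-(3 / 2 : ℝ)) := Real.rpow_nonneg her.le _
      have p2 : 0 ≤ (d : ℝ) ^ (-(1 / 2 : ℝ)) := Real.rpow_nonneg hdr.le _
      have p3 : 0 ≤ ((k / d : ℕ) : ℝ) ^ (-(1 / 2 : ℝ)) := Real.rpow_nonneg her.le _
      calc ‖m2_a N a (k / d)‖ * ((k / d : ℕ) : ℝ) ^ (-(3 / 2 : ℝ)) *
            (‖b d‖ * (d : ℝ) ^ (-(1 / 2 : ℝ)))
          ≤ 1 * ((k / d : ℕ) : ℝ) ^ (-(3 / 2 : ℝ)) * (1 * (d : ℝ) ^ (-(1 / 2 : ℝ))) := by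
            gcongr
            exact hb _
        _ = (((k / d : ℕ) : ℝ) ^ (-(1 / 2 : ℝ)) * (d : ℝ) ^ (-(1 / 2 : ℝ))) *
              (((k / d : ℕ) : ℝ))⁻¹ := by rw [e1]; ring
        _ ≤ (((k / d : ℕ) : ℝ) ^ (-(1 / 2 : ℝ)) * (d : ℝ) ^ (-(1 / 2 : ℝ))) *
              ((N : ℝ)⁻¹ * min 1 ((N : ℝ) * z / k)) :=
            mul_le_mul_of_nonneg_left e2 (by positivity)
        _ = _ := by rw [e]
  refine (Finset.sum_le_sum h1).trans ?_
  rw [Finset.sum_const, nsmul_eq_mul]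
  refine mul_le_mul_of_nonneg_right ?_ hR0
  exact_mod_cast Finset.card_le_card (Finset.filter_subset _ _)

/-- interpolation -/
theorem m2_min {x θ : ℝ} (hx : 0 < x) (h0 : 0 ≤ θ) (h2 : θ ≤ 2) : (min 1 x) ^ 2 ≤ x ^ θ := by
  rcases le_total 1 x with h | h
  · rw [min_eq_left h, one_pow]
    exact Real.one_le_rpow h h0
  · rw [min_eq_right h, ← Real.rpow_two]
    exact Real.rpow_le_rpow_of_exponent_ge hx h h2

/-- the numerical estimate -/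
theorem m2_num {d : ℝ} (hd : 0 < d) (hd1 : 3 * d ≤ 1) : ∃ K : ℝ, 0 ≤ K ∧ ∀ (M : ℕ) (B x : ℝ),
    0 ≤ B → 0 < x →
    ∑ k ∈ Icc 1 M, ((k : ℝ) + B) * (((k : ℝ) ^ d) ^ 2 * ((k : ℝ) ^ (-(1 / 2 : ℝ)) *
      min 1 (x / k)) ^ 2) ≤ K * (x ^ (3 * d) * (B + x)) := by
  have hs : Summable fun k : ℕ => (k : ℝ) ^ (-(1 + d)) := Real.summable_nat_rpow.2 (by linarith)
  refine ⟨∑' k : ℕ, (k : ℝ) ^ (-(1 + d)), tsum_nonneg fun k => by positivity,
    fun M B x hB hx => ?_⟩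
  have h1 : ∀ k ∈ Icc 1 M, ((k : ℝ) + B) * (((k : ℝ) ^ d) ^ 2 * ((k : ℝ) ^ (-(1 / 2 : ℝ)) *
      min 1 (x / k)) ^ 2) ≤ (k : ℝ) ^ (-(1 + d)) * (x ^ (3 * d) * (B + x)) := by
    intro k hk
    have hk1 : (1 : ℝ) ≤ k := by exact_mod_cast (mem_Icc.1 hk).1
    have hk0 : (0 : ℝ) < k := by linarith
    have hxk : 0 < x / k := by positivity
    have e1 : ((k : ℝ) ^ (-(1 / 2 : ℝ))) ^ 2 = (k : ℝ) ^ (-1 : ℝ) := by
      rw [← Real.rpow_natCast, ← Real.rpow_mul hk0.le]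
      norm_num
    have e2 : ((k : ℝ) ^ d) ^ 2 = (k : ℝ) ^ (2 * d) := by
      rw [← Real.rpow_natCast, ← Real.rpow_mul hk0.le]
      congr 1
      push_cast
      ring
    have f1 := m2_min hxk (by positivity : (0 : ℝ) ≤ 3 * d) (by linarith)
    have f2 := m2_min hxk (by positivity : (0 : ℝ) ≤ 1 + 3 * d) (by linarith)
    rw [Real.div_rpow hx.le hk0.le] at f1 f2
    rw [mul_pow, e1, e2]
    have g1 : (k : ℝ) * ((k : ℝ) ^ (2 * d) * ((k : ℝ) ^ (-1 : ℝ) * (min 1 (x / k)) ^ 2)) ≤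
        (k : ℝ) ^ (-(1 + d)) * (x ^ (3 * d) * x) := by
      calc (k : ℝ) * ((k : ℝ) ^ (2 * d) * ((k : ℝ) ^ (-1 : ℝ) * (min 1 (x / k)) ^ 2))
          ≤ (k : ℝ) * ((k : ℝ) ^ (2 * d) * ((k : ℝ) ^ (-1 : ℝ) *
            (x ^ (1 + 3 * d) / (k : ℝ) ^ (1 + 3 * d)))) := by gcongr
        _ = (k : ℝ) ^ (-(1 + d)) * (x ^ (3 * d) * x) := by
            rw [show (x : ℝ) ^ (1 + 3 * d) = x ^ (3 * d) * x by
              rw [add_comm, Real.rpow_add hx, Real.rpow_one]]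
            rw [div_eq_mul_inv, ← Real.rpow_neg hk0.le]
            have : (k : ℝ) * ((k : ℝ) ^ (2 * d) * ((k : ℝ) ^ (-1 : ℝ) *
                (x ^ (3 * d) * x * (k : ℝ) ^ (-(1 + 3 * d))))) =
                ((k : ℝ) ^ (1 : ℝ) * (k : ℝ) ^ (2 * d) * (k : ℝ) ^ (-1 : ℝ) *
                  (k : ℝ) ^ (-(1 + 3 * d))) * (x ^ (3 * d) * x) := by
              rw [Real.rpow_one]; ring
            rw [this, ← Real.rpow_add hk0, ← Real.rpow_add hk0, ← Real.rpow_add hk0]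
            congr 2
            ring
    have g2 : B * ((k : ℝ) ^ (2 * d) * ((k : ℝ) ^ (-1 : ℝ) * (min 1 (x / k)) ^ 2)) ≤
        (k : ℝ) ^ (-(1 + d)) * (x ^ (3 * d) * B) := by
      calc B * ((k : ℝ) ^ (2 * d) * ((k : ℝ) ^ (-1 : ℝ) * (min 1 (x / k)) ^ 2))
          ≤ B * ((k : ℝ) ^ (2 * d) * ((k : ℝ) ^ (-1 : ℝ) *
            (x ^ (3 * d) / (k : ℝ) ^ (3 * d)))) := by gcongr
        _ = (k : ℝ) ^ (-(1 + d)) * (x ^ (3 * d) * B) := by
            rw [div_eq_mul_inv, ← Real.rpow_neg hk0.le]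
            have : B * ((k : ℝ) ^ (2 * d) * ((k : ℝ) ^ (-1 : ℝ) *
                (x ^ (3 * d) * (k : ℝ) ^ (-(3 * d))))) =
                ((k : ℝ) ^ (2 * d) * (k : ℝ) ^ (-1 : ℝ) *
                  (k : ℝ) ^ (-(3 * d))) * (x ^ (3 * d) * B) := by
              ring
            rw [this, ← Real.rpow_add hk0, ← Real.rpow_add hk0]
            congr 2
            ring
    linarith
  refine (Finset.sum_le_sum h1).trans ?_
  rw [← Finset.sum_mul]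
  refine mul_le_mul_of_nonneg_right ?_ (by positivity)
  exact hs.sum_le_tsum (Icc 1 M) (fun k _ => by positivity)

/-- the terms of the series -/
theorem m2_term {N : ℕ} {a : ℕ → ℂ} (ha : ∀ n, ‖a n‖ ≤ 1) (hN : 1 ≤ N) {q : ℕ}
    (χ : DirichletCharacter ℂ q) (t : ℝ) (n : ℕ) :
    ‖m2_a N a n * χ (n : ZMod q) * (n : ℂ) ^ (-((3 / 2 : ℂ) + t * I))‖ ≤
      (n : ℝ) ^ (-(3 / 2 : ℝ)) := by
  by_cases h : n ≤ N
  · unfold m2_a
    rw [if_pos h, zero_mul, zero_mul, norm_zero]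
    positivity
  · have hn : 1 ≤ n := by omega
    have e : ‖(n : ℂ) ^ (-((3 / 2 : ℂ) + t * I))‖ = (n : ℝ) ^ (-(3 / 2 : ℝ)) := by
      rw [Complex.norm_natCast_cpow_of_pos (by omega)]
      congr 1
      simp
    rw [norm_mul, norm_mul, e]
    have h1 : ‖m2_a N a n‖ ≤ 1 := by
      unfold m2_a
      rw [if_neg h]
      exact ha n
    have h2 := DirichletCharacter.norm_le_one χ (n : ZMod q)
    have h3 : 0 ≤ (n : ℝ) ^ (-(3 / 2 : ℝ)) := by positivity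
    calc ‖m2_a N a n‖ * ‖χ (n : ZMod q)‖ * (n : ℝ) ^ (-(3 / 2 : ℝ))
        ≤ 1 * 1 * (n : ℝ) ^ (-(3 / 2 : ℝ)) := by gcongr
      _ = _ := by ring

theorem m2_summable : Summable fun n : ℕ => (n : ℝ) ^ (-(3 / 2 : ℝ)) :=
  Real.summable_nat_rpow.2 (by norm_num)

theorem m2_tendsto {N : ℕ} {a : ℕ → ℂ} (ha : ∀ n, ‖a n‖ ≤ 1) (hN : 1 ≤ N) {q : ℕ}
    (χ : DirichletCharacter ℂ q) (t : ℝ) :
    Filter.Tendsto (fun V : ℕ => MB (m2_a N a) V χ ((3 / 2 : ℂ) + t * I)) Filter.atTop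
      (nhds (TB a N χ ((3 / 2 : ℂ) + t * I))) := by
  have e0 : ∀ n : ℕ, (if n ≤ N then (0 : ℂ) else
      a n * χ (n : ZMod q) * (n : ℂ) ^ (-((3 / 2 : ℂ) + t * I))) =
      m2_a N a n * χ (n : ZMod q) * (n : ℂ) ^ (-((3 / 2 : ℂ) + t * I)) := by
    intro n
    unfold m2_a
    split_ifs <;> ring
  have hs : Summable fun n : ℕ => m2_a N a n * χ (n : ZMod q) *
      (n : ℂ) ^ (-((3 / 2 : ℂ) + t * I)) :=
    Summable.of_norm_bounded m2_summable fun n => m2_term ha hN χ t n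
  have h1 := hs.hasSum.tendsto_sum_nat
  have h2 := (Filter.tendsto_add_atTop_iff_nat 1).2 h1
  unfold TB
  simp_rw [e0]
  refine h2.congr fun V => ?_
  unfold MB
  rw [Finset.sum_range_succ']
  have h0 : m2_a N a 0 * χ ((0 : ℕ) : ZMod q) * ((0 : ℕ) : ℂ) ^ (-((3 / 2 : ℂ) + t * I)) = 0 := by
    unfold m2_a
    rw [if_pos (Nat.zero_le N), zero_mul, zero_mul]
  rw [h0, add_zero, Finset.range_eq_Ico, Finset.sum_Ico_add' (fun i : ℕ => m2_a N a i *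
    χ (i : ZMod q) * (i : ℂ) ^ (-((3 / 2 : ℂ) + t * I))) 0 V 1]
  apply Finset.sum_congr _ fun _ _ => rfl
  ext n
  simp only [Finset.mem_Ico, Finset.mem_Icc]
  omega

theorem m2_cont (a : ℕ → ℂ) (N : ℕ) {q : ℕ} (χ : DirichletCharacter ℂ q) (c : ℂ) :
    Continuous fun t : ℝ => MB a N χ (c + t * I) := by
  unfold MB
  refine continuous_finsetSum _ fun n hn => ?_
  have hn0 : (n : ℂ) ≠ 0 := by
    have := (Finset.mem_Icc.1 hn).1
    exact_mod_cast (by omega : n ≠ 0)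
  refine continuous_const.mul ?_
  exact Continuous.const_cpow (by fun_prop) (Or.inl hn0)

theorem mvp_tail_pr {ε : ℝ} (hε : 0 < ε) (hε1 : ε ≤ 1 / 4) : ∃ C : ℝ, 1 ≤ C ∧
    ∀ (R : ℕ) (T : ℝ), 1 ≤ R → 1 ≤ T →
    ∀ (N z : ℕ) (a b : ℕ → ℂ), 1 ≤ N → 1 ≤ z → (∀ n, ‖a n‖ ≤ 1) → (∀ n, ‖b n‖ ≤ 1) →
    SP R (fun _ χ => ∫ t in (-T)..T, ‖TB a N χ ((3 / 2 : ℂ) + t * I) *
      MB b z χ ((1 / 2 : ℂ) + t * I)‖ ^ 2) ≤
      C * ((N : ℝ) * z) ^ ε * ((R : ℝ) ^ 2 * T * (N : ℝ)⁻¹ ^ 2 + z * (N : ℝ)⁻¹) := by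
  obtain ⟨C₁, hC₁, hL⟩ := hls
  have hd : 0 < ε / 3 := by positivity
  obtain ⟨C₂, hC₂, hdb⟩ := Pool.Agent.FG61.divisor_bound hd
  obtain ⟨K, hK, hnum⟩ := m2_num hd (by linarith)
  have hC₁0 : 0 ≤ C₁ := by linarith
  refine ⟨max 1 (C₁ * C₂ ^ 2 * K * 4), le_max_left _ _,
    fun R T hR hT N z a b hN hz ha hb => ?_⟩
  have hNr : (0 : ℝ) < N := by exact_mod_cast hN
  have hzr : (0 : ℝ) < z := by exact_mod_cast hz
  have hT0 : -T ≤ T := by linarith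
  -- the limit
  have hlim : Filter.Tendsto (fun V : ℕ => SP R (fun _ χ => ∫ t in (-T)..T,
      ‖MB (m2_a N a) V χ ((3 / 2 : ℂ) + t * I) * MB b z χ ((1 / 2 : ℂ) + t * I)‖ ^ 2))
      Filter.atTop (nhds (SP R (fun _ χ => ∫ t in (-T)..T, ‖TB a N χ ((3 / 2 : ℂ) + t * I) *
        MB b z χ ((1 / 2 : ℂ) + t * I)‖ ^ 2))) := by
    unfold SP
    apply tendsto_finsetSum
    intro r _
    apply tendsto_finsetSum
    intro χ _
    apply intervalIntegral.tendsto_integral_filter_of_dominated_convergence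
      (fun t => ((∑' n : ℕ, (n : ℝ) ^ (-(3 / 2 : ℝ))) * ‖MB b z χ ((1 / 2 : ℂ) + t * I)‖) ^ 2)
    · refine Filter.Eventually.of_forall fun V => Continuous.aestronglyMeasurable ?_
      exact (continuous_norm.comp ((m2_cont _ _ χ _).mul (m2_cont _ _ χ _))).pow 2
    · refine Filter.Eventually.of_forall fun V => Filter.Eventually.of_forall fun t _ => ?_
      rw [Real.norm_of_nonneg (by positivity), norm_mul]
      refine pow_le_pow_left₀ (by positivity) (mul_le_mul_of_nonneg_right ?_ (norm_nonneg _)) 2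
      unfold MB
      refine (norm_sum_le _ _).trans ?_
      refine le_trans (Finset.sum_le_sum fun n _ => m2_term ha hN χ t n) ?_
      exact m2_summable.sum_le_tsum (Icc 1 V) (fun n _ => by positivity)
    · exact ((continuous_const.mul (continuous_norm.comp (m2_cont _ _ χ _))).pow 2).intervalIntegrable
        _ _
    · refine Filter.Eventually.of_forall fun t _ => ?_
      exact (((m2_tendsto ha hN χ t).mul tendsto_const_nhds).norm).pow 2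
  refine le_of_tendsto hlim (Filter.Eventually.of_forall fun V => ?_)
  have e32 : (3 / 2 : ℂ) = ((3 / 2 : ℝ) : ℂ) := by push_cast; rfl
  have e12 : (1 / 2 : ℂ) = ((1 / 2 : ℝ) : ℂ) := by push_cast; rfl
  have hSP : SP R (fun _ χ => ∫ t in (-T)..T,
      ‖MB (m2_a N a) V χ ((3 / 2 : ℂ) + t * I) * MB b z χ ((1 / 2 : ℂ) + t * I)‖ ^ 2) =
      ∑ r ∈ Ico R (2 * R), ∑ χ ∈ Pr r, ∫ t in (-T)..T,
        ‖∑ n ∈ Icc 1 (V * z), m2_c V z (m2_a N a) b (3 / 2) (1 / 2) n * χ (n : ZMod r) *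
          (n : ℂ) ^ (-(t * I) : ℂ)‖ ^ 2 := by
    unfold SP
    refine Finset.sum_congr rfl fun r _ => Finset.sum_congr rfl fun χ _ => ?_
    refine intervalIntegral.integral_congr fun t _ => ?_
    rw [e32, e12, m2_mul]
  rw [hSP]
  have hstep1 : ∑ r ∈ Ico R (2 * R), ∑ χ ∈ Pr r, ∫ t in (-T)..T,
        ‖∑ n ∈ Icc 1 (V * z), m2_c V z (m2_a N a) b (3 / 2) (1 / 2) n * χ (n : ZMod r) *
          (n : ℂ) ^ (-(t * I) : ℂ)‖ ^ 2 ≤
      ∑ r ∈ Icc 1 (2 * R), ∑ χ ∈ Pr r, ∫ t in (-T)..T,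
        ‖∑ n ∈ Icc 1 (V * z), m2_c V z (m2_a N a) b (3 / 2) (1 / 2) n * χ (n : ZMod r) *
          (n : ℂ) ^ (-(t * I) : ℂ)‖ ^ 2 := by
    refine Finset.sum_le_sum_of_subset_of_nonneg ?_ ?_
    · intro r hr
      have := mem_Ico.1 hr
      exact mem_Icc.2 ⟨by omega, by omega⟩
    · intro r _ _
      refine Finset.sum_nonneg fun χ _ => ?_
      refine intervalIntegral.integral_nonneg hT0 fun t _ => ?_
      positivity
  refine hstep1.trans ?_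
  refine (hL (2 * R) (by omega) T hT (Icc 1 (V * z)) (fun n hn => (mem_Icc.1 hn).1)
    (m2_c V z (m2_a N a) b (3 / 2) (1 / 2))).trans ?_
  set B : ℝ := 4 * ((R : ℝ) ^ 2 * T) with hB
  set x : ℝ := (N : ℝ) * z with hx
  have hx0 : 0 < x := by positivity
  have hB0 : 0 ≤ B := by positivity
  have hterm : ∀ n ∈ Icc 1 (V * z), ((n : ℝ) + ((2 * R : ℕ) : ℝ) ^ 2 * T) *
      ‖m2_c V z (m2_a N a) b (3 / 2) (1 / 2) n‖ ^ 2 ≤ C₂ ^ 2 * (N : ℝ)⁻¹ ^ 2 * (((n : ℝ) + B) *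
        (((n : ℝ) ^ (ε / 3)) ^ 2 * ((n : ℝ) ^ (-(1 / 2 : ℝ)) * min 1 (x / n)) ^ 2)) := by
    intro n hn
    have hn1 : 1 ≤ n := (mem_Icc.1 hn).1
    have h1 := m2_bound (V := V) (z := z) ha hb hN hn1
    have p0 : 0 ≤ (n : ℝ) ^ (-(1 / 2 : ℝ)) * ((N : ℝ)⁻¹ * min 1 ((N : ℝ) * z / n)) := by
      positivity
    have h2 : ‖m2_c V z (m2_a N a) b (3 / 2) (1 / 2) n‖ ≤ C₂ * (n : ℝ) ^ (ε / 3) *
        ((n : ℝ) ^ (-(1 / 2 : ℝ)) * ((N : ℝ)⁻¹ * min 1 (x / n))) :=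
      h1.trans (mul_le_mul_of_nonneg_right (hdb n hn1) p0)
    calc ((n : ℝ) + ((2 * R : ℕ) : ℝ) ^ 2 * T) *
          ‖m2_c V z (m2_a N a) b (3 / 2) (1 / 2) n‖ ^ 2
        ≤ ((n : ℝ) + ((2 * R : ℕ) : ℝ) ^ 2 * T) * (C₂ * (n : ℝ) ^ (ε / 3) *
          ((n : ℝ) ^ (-(1 / 2 : ℝ)) * ((N : ℝ)⁻¹ * min 1 (x / n)))) ^ 2 := by gcongr
      _ = _ := by
          rw [hB]
          push_cast
          ring
  calc C₁ * ∑ n ∈ Icc 1 (V * z), ((n : ℝ) + ((2 * R : ℕ) : ℝ) ^ 2 * T) *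
        ‖m2_c V z (m2_a N a) b (3 / 2) (1 / 2) n‖ ^ 2
      ≤ C₁ * ∑ n ∈ Icc 1 (V * z), C₂ ^ 2 * (N : ℝ)⁻¹ ^ 2 * (((n : ℝ) + B) *
        (((n : ℝ) ^ (ε / 3)) ^ 2 * ((n : ℝ) ^ (-(1 / 2 : ℝ)) * min 1 (x / n)) ^ 2)) :=
        mul_le_mul_of_nonneg_left (Finset.sum_le_sum hterm) hC₁0
    _ = C₁ * (C₂ ^ 2 * (N : ℝ)⁻¹ ^ 2 * ∑ n ∈ Icc 1 (V * z), ((n : ℝ) + B) *
        (((n : ℝ) ^ (ε / 3)) ^ 2 * ((n : ℝ) ^ (-(1 / 2 : ℝ)) * min 1 (x / n)) ^ 2)) := by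
        rw [← Finset.mul_sum]
    _ ≤ C₁ * (C₂ ^ 2 * (N : ℝ)⁻¹ ^ 2 * (K * (x ^ (3 * (ε / 3)) * (B + x)))) := by
        refine mul_le_mul_of_nonneg_left ?_ hC₁0
        refine mul_le_mul_of_nonneg_left ?_ (by positivity)
        exact hnum (V * z) B x hB0 hx0
    _ = (C₁ * C₂ ^ 2 * K) * x ^ ε * (4 * ((R : ℝ) ^ 2 * T * (N : ℝ)⁻¹ ^ 2) +
          z * (N : ℝ)⁻¹) := by
        rw [show 3 * (ε / 3) = ε by ring, hB]
        have : (N : ℝ)⁻¹ ^ 2 * x = z * (N : ℝ)⁻¹ := by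
          rw [hx]
          field_simp
        linear_combination (C₁ * C₂ ^ 2 * K) * x ^ ε * this
    _ ≤ (C₁ * C₂ ^ 2 * K) * x ^ ε * (4 * ((R : ℝ) ^ 2 * T * (N : ℝ)⁻¹ ^ 2) +
          4 * (z * (N : ℝ)⁻¹)) := by
        refine mul_le_mul_of_nonneg_left ?_ (by positivity)
        have : 0 ≤ z * (N : ℝ)⁻¹ := by positivity
        linarith
    _ = (C₁ * C₂ ^ 2 * K * 4) * x ^ ε * ((R : ℝ) ^ 2 * T * (N : ℝ)⁻¹ ^ 2 + z * (N : ℝ)⁻¹) := by
        ring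
    _ ≤ _ := by
        gcongr
        exact le_max_right _ _

theorem mvp_tail : type_of% @mvp_tail_pr := @mvp_tail_pr

end Pool.Agent.XT

/-! ### Block M3 -/

/-!
# Block M3 of XT (MP_5dd4bb_nt): mean values of one Dirichlet polynomial
-/

namespace Pool.Agent.XT

open Finset Complex MeasureTheory Pool.Agent.Var35 Pool.Agent.Var73 Pool.Agent.HC Pool.Agent.MF
  Pool.Agent.XS
open scoped ArithmeticFunction ArithmeticFunction.Moebius

theorem m3_harm (U : ℕ) : ∑ n ∈ Icc 1 U, (1 : ℝ) / n ≤ 1 + Real.log U := by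
  have h := harmonic_le_one_add_log U
  rw [harmonic_eq_sum_Icc] at h
  push_cast at h
  simpa [one_div] using h

theorem m3_term {y U n : ℕ} {d σ A B : ℝ} {z : ℂ} (hy : 1 ≤ y) (hyn : y ≤ n) (hnU : n ≤ U)
    (hA : 0 ≤ A) (hd : 0 ≤ d) (hσ : 1 / 2 ≤ σ) (hσ1 : σ ≤ 1) (hB : 0 ≤ B)
    (hz : ‖z‖ ≤ A * (n : ℝ) ^ d) :
    ((n : ℝ) + B) * ‖z * (n : ℂ) ^ (-(σ : ℂ))‖ ^ 2 ≤
      A ^ 2 * (U : ℝ) ^ (2 * d) * (B * (y : ℝ) ^ (1 - 2 * σ) + (U : ℝ) ^ (2 - 2 * σ)) *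
        (1 / n) := by
  have hn1 : 1 ≤ n := hy.trans hyn
  have hn0 : (0 : ℝ) < n := by exact_mod_cast hn1
  have hy0 : (0 : ℝ) < y := by exact_mod_cast hy
  have hyn' : (y : ℝ) ≤ n := by exact_mod_cast hyn
  have hnU' : (n : ℝ) ≤ U := by exact_mod_cast hnU
  have h1 : ‖(n : ℂ) ^ (-(σ : ℂ))‖ = (n : ℝ) ^ (-σ) := by
    rw [Complex.norm_natCast_cpow_of_pos (by omega)]
    simp
  have h2 : ((n : ℝ) ^ (-σ)) ^ 2 = (n : ℝ) ^ (-(2 * σ)) := by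
    rw [← Real.rpow_natCast, ← Real.rpow_mul hn0.le]
    congr 1
    push_cast
    ring
  have h3 : ‖z‖ ^ 2 ≤ A ^ 2 * (U : ℝ) ^ (2 * d) := by
    have h4 : ‖z‖ ^ 2 ≤ (A * (n : ℝ) ^ d) ^ 2 := pow_le_pow_left₀ (norm_nonneg _) hz 2
    refine h4.trans ?_
    rw [mul_pow]
    refine mul_le_mul_of_nonneg_left ?_ (sq_nonneg _)
    rw [← Real.rpow_natCast, ← Real.rpow_mul hn0.le]
    have h5 : (n : ℝ) ^ (d * ((2 : ℕ) : ℝ)) = (n : ℝ) ^ (2 * d) := by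
      congr 1
      push_cast
      ring
    rw [h5]
    exact Real.rpow_le_rpow hn0.le hnU' (by linarith)
  have h4 : ((n : ℝ) + B) * (n : ℝ) ^ (-(2 * σ)) ≤
      (B * (y : ℝ) ^ (1 - 2 * σ) + (U : ℝ) ^ (2 - 2 * σ)) * (1 / n) := by
    have h5 : (n : ℝ) * (n : ℝ) ^ (-(2 * σ)) = (n : ℝ) ^ (2 - 2 * σ) * (1 / n) := by
      rw [show (2 - 2 * σ : ℝ) = 1 + (1 + -(2 * σ)) by ring, Real.rpow_add hn0,
        Real.rpow_add hn0, Real.rpow_one]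
      field_simp
    have h6 : (n : ℝ) ^ (-(2 * σ)) = (n : ℝ) ^ (1 - 2 * σ) * (1 / n) := by
      rw [show (1 - 2 * σ : ℝ) = 1 + -(2 * σ) by ring, Real.rpow_add hn0, Real.rpow_one]
      field_simp
    have h7 : (n : ℝ) ^ (2 - 2 * σ) ≤ (U : ℝ) ^ (2 - 2 * σ) :=
      Real.rpow_le_rpow hn0.le hnU' (by linarith)
    have h8 : (n : ℝ) ^ (1 - 2 * σ) ≤ (y : ℝ) ^ (1 - 2 * σ) :=
      Real.rpow_le_rpow_of_nonpos hy0 hyn' (by linarith)
    rw [add_mul, h5, h6, add_mul, add_comm]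
    have h9 : (0 : ℝ) ≤ 1 / n := by positivity
    refine add_le_add ?_ (mul_le_mul_of_nonneg_right h7 h9)
    rw [← mul_assoc]
    exact mul_le_mul_of_nonneg_right (mul_le_mul_of_nonneg_left h8 hB) h9
  rw [norm_mul, mul_pow, h1, h2]
  calc ((n : ℝ) + B) * (‖z‖ ^ 2 * (n : ℝ) ^ (-(2 * σ)))
      = ‖z‖ ^ 2 * (((n : ℝ) + B) * (n : ℝ) ^ (-(2 * σ))) := by ring
    _ ≤ (A ^ 2 * (U : ℝ) ^ (2 * d)) *
        ((B * (y : ℝ) ^ (1 - 2 * σ) + (U : ℝ) ^ (2 - 2 * σ)) * (1 / n)) := by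
        refine mul_le_mul h3 h4 ?_ ?_
        · exact mul_nonneg (by positivity) (Real.rpow_nonneg hn0.le _)
        · exact mul_nonneg (sq_nonneg _) (Real.rpow_nonneg (by positivity) _)
    _ = _ := by ring

theorem mv_head_pr : ∃ C : ℝ, 1 ≤ C ∧ ∀ (R : ℕ) (T : ℝ), 1 ≤ R → 1 ≤ T →
    ∀ (y U : ℕ) (a : ℕ → ℂ) (A d σ : ℝ), 1 ≤ y → y ≤ U → 0 ≤ A → 0 ≤ d → 1 / 2 ≤ σ → σ ≤ 1 →
    (∀ n, 1 ≤ n → n < y → a n = 0) → (∀ n : ℕ, 1 ≤ n → ‖a n‖ ≤ A * (n : ℝ) ^ d) →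
    SP R (fun _ χ => ∫ t in (-T)..T, ‖MB a U χ ((σ : ℂ) + t * I)‖ ^ 2) ≤
      C * A ^ 2 * (U : ℝ) ^ (2 * d) * (1 + Real.log U) *
        ((R : ℝ) ^ 2 * T * (y : ℝ) ^ (1 - 2 * σ) + (U : ℝ) ^ (2 - 2 * σ)) := by
  obtain ⟨C, hC, hls'⟩ := hls
  refine ⟨4 * C, by linarith, ?_⟩
  intro R T hR hT y U a A d σ hy hyU hA hd hσ hσ1 ha0 ha
  have hT0 : 0 ≤ T := by linarith
  have h1 : ∀ (r : ℕ) (χ : DirichletCharacter ℂ r) (t : ℝ), MB a U χ ((σ : ℂ) + t * I) =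
      ∑ n ∈ Icc 1 U, (a n * (n : ℂ) ^ (-(σ : ℂ))) * χ (n : ZMod r) *
        (n : ℂ) ^ (-(t * I) : ℂ) := by
    intro r χ t
    unfold MB
    refine Finset.sum_congr rfl fun n hn => ?_
    have hn1 : 1 ≤ n := (Finset.mem_Icc.mp hn).1
    have hn0 : (n : ℂ) ≠ 0 := by
      have : n ≠ 0 := by omega
      exact_mod_cast this
    rw [neg_add, Complex.cpow_add _ _ hn0]
    ring
  have h2 := hls' (2 * R) (by omega) T hT (Icc 1 U) (fun n hn => (Finset.mem_Icc.mp hn).1)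
    (fun n => a n * (n : ℂ) ^ (-(σ : ℂ)))
  have h3 : SP R (fun _ χ => ∫ t in (-T)..T, ‖MB a U χ ((σ : ℂ) + t * I)‖ ^ 2) ≤
      ∑ r ∈ Icc 1 (2 * R), ∑ χ ∈ Pr r, ∫ t in (-T)..T,
        ‖∑ n ∈ Icc 1 U, (a n * (n : ℂ) ^ (-(σ : ℂ))) * χ (n : ZMod r) *
          (n : ℂ) ^ (-(t * I) : ℂ)‖ ^ 2 := by
    unfold SP
    simp only [h1]
    refine Finset.sum_le_sum_of_subset_of_nonneg ?_ ?_
    · intro r hr
      rw [Finset.mem_Ico] at hr
      rw [Finset.mem_Icc]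
      omega
    · intro r _ _
      refine Finset.sum_nonneg fun χ _ => ?_
      exact intervalIntegral.integral_nonneg (by linarith) fun t _ => sq_nonneg _
  refine h3.trans (h2.trans ?_)
  have h4 : ∑ n ∈ Icc 1 U, ((n : ℝ) + ((2 * R : ℕ) : ℝ) ^ 2 * T) *
      ‖a n * (n : ℂ) ^ (-(σ : ℂ))‖ ^ 2 ≤
      ∑ n ∈ Icc 1 U, A ^ 2 * (U : ℝ) ^ (2 * d) *
        (((2 * R : ℕ) : ℝ) ^ 2 * T * (y : ℝ) ^ (1 - 2 * σ) + (U : ℝ) ^ (2 - 2 * σ)) *
        (1 / n) := by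
    refine Finset.sum_le_sum fun n hn => ?_
    have hn' := Finset.mem_Icc.mp hn
    by_cases hny : n < y
    · rw [ha0 n hn'.1 hny, zero_mul, norm_zero]
      have : (0 : ℝ) ≤ A ^ 2 * (U : ℝ) ^ (2 * d) *
        (((2 * R : ℕ) : ℝ) ^ 2 * T * (y : ℝ) ^ (1 - 2 * σ) + (U : ℝ) ^ (2 - 2 * σ)) *
        (1 / n) := by positivity
      simpa using this
    · exact m3_term hy (not_lt.mp hny) hn'.2 hA hd hσ hσ1 (by positivity) (ha n hn'.1)
  rw [← Finset.mul_sum] at h4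
  have hP : 0 ≤ A ^ 2 * (U : ℝ) ^ (2 * d) *
      (((2 * R : ℕ) : ℝ) ^ 2 * T * (y : ℝ) ^ (1 - 2 * σ) + (U : ℝ) ^ (2 - 2 * σ)) := by
    positivity
  have h5 : A ^ 2 * (U : ℝ) ^ (2 * d) *
      (((2 * R : ℕ) : ℝ) ^ 2 * T * (y : ℝ) ^ (1 - 2 * σ) + (U : ℝ) ^ (2 - 2 * σ)) ≤
      4 * (A ^ 2 * (U : ℝ) ^ (2 * d) *
        ((R : ℝ) ^ 2 * T * (y : ℝ) ^ (1 - 2 * σ) + (U : ℝ) ^ (2 - 2 * σ))) := by
    have h6 : 0 ≤ A ^ 2 * (U : ℝ) ^ (2 * d) * (U : ℝ) ^ (2 - 2 * σ) := by positivity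
    push_cast
    nlinarith [h6]
  have hlog : 0 ≤ 1 + Real.log U := by
    have hU1 : (1 : ℝ) ≤ U := by exact_mod_cast hy.trans hyU
    have := Real.log_nonneg hU1
    linarith
  calc C * ∑ n ∈ Icc 1 U, ((n : ℝ) + ((2 * R : ℕ) : ℝ) ^ 2 * T) *
      ‖a n * (n : ℂ) ^ (-(σ : ℂ))‖ ^ 2
      ≤ C * (A ^ 2 * (U : ℝ) ^ (2 * d) *
        (((2 * R : ℕ) : ℝ) ^ 2 * T * (y : ℝ) ^ (1 - 2 * σ) + (U : ℝ) ^ (2 - 2 * σ)) *
        ∑ n ∈ Icc 1 U, (1 : ℝ) / n) := mul_le_mul_of_nonneg_left h4 (by linarith)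
    _ ≤ C * (4 * (A ^ 2 * (U : ℝ) ^ (2 * d) *
        ((R : ℝ) ^ 2 * T * (y : ℝ) ^ (1 - 2 * σ) + (U : ℝ) ^ (2 - 2 * σ))) *
        (1 + Real.log U)) := by
        refine mul_le_mul_of_nonneg_left ?_ (by linarith)
        refine mul_le_mul h5 (m3_harm U) (Finset.sum_nonneg fun n _ => by positivity)
          (hP.trans h5)
    _ = _ := by ring

theorem mv_head : type_of% @mv_head_pr := @mv_head_pr

end Pool.Agent.XT

/-! ### Block M4 -/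

namespace Pool.Agent.XT

open Finset Complex MeasureTheory Pool.Agent.Var35 Pool.Agent.Var73 Pool.Agent.HC Pool.Agent.MF
  Pool.Agent.XS
open scoped ArithmeticFunction ArithmeticFunction.Moebius

/-- the tail of a power series -/
theorem m4_tail (U V : ℕ) (hU : 1 ≤ U) (b : ℝ) (hb : 5 / 4 ≤ b) :
    ∑ n ∈ Ioc U V, (n : ℝ) ^ (-b) ≤ 4 * (U : ℝ) ^ (1 - b) := by
  have hU0 : (0 : ℝ) < U := by exact_mod_cast hU
  rcases le_or_gt V U with h | h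
  · rw [Finset.Ioc_eq_empty_of_le h, Finset.sum_empty]
    positivity
  · have h1 : ∑ n ∈ Ioc U V, (n : ℝ) ^ (-b) = ∑ i ∈ Finset.Ico U V, ((i + 1 : ℕ) : ℝ) ^ (-b) := by
      rw [Finset.sum_Ico_add' (fun i : ℕ => (i : ℝ) ^ (-b)) U V 1]
      apply Finset.sum_congr _ fun _ _ => rfl
      ext n
      simp only [Finset.mem_Ioc, Finset.mem_Ico]
      omega
    have h2 : AntitoneOn (fun x : ℝ => x ^ (-b)) (Set.Icc (U : ℝ) (V : ℝ)) := by
      intro x hx y hy hxy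
      exact Real.rpow_le_rpow_of_nonpos (hU0.trans_le hx.1) hxy (by linarith)
    have h3 := h2.sum_le_integral_Ico h.le
    rw [h1]
    refine h3.trans ?_
    have hUV : (U : ℝ) ≤ V := by exact_mod_cast h.le
    have hV0 : (0 : ℝ) < V := hU0.trans_le hUV
    rw [integral_rpow (Or.inr ⟨by linarith, by
      rw [Set.uIcc_of_le hUV]
      intro hx
      linarith [hx.1]⟩)]
    have h4 : (0 : ℝ) ≤ (V : ℝ) ^ (-b + 1) := Real.rpow_nonneg hV0.le _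
    have h5 : (0 : ℝ) ≤ (U : ℝ) ^ (-b + 1) := Real.rpow_nonneg hU0.le _
    have h6 : (1 : ℝ) - b = -b + 1 := by ring
    rw [h6, ← neg_div_neg_eq, div_le_iff₀ (by linarith)]
    nlinarith

theorem m4_term (a : ℕ → ℂ) {q : ℕ} (χ : DirichletCharacter ℂ q) (σ t : ℝ) (n : ℕ) (hn : 1 ≤ n) :
    a n * χ (n : ZMod q) * (n : ℂ) ^ (-((σ : ℂ) + t * I)) =
      (a n * (n : ℂ) ^ (-(σ : ℂ))) * χ (n : ZMod q) * (n : ℂ) ^ (-(t * I) : ℂ) := by
  have hn0 : (n : ℂ) ≠ 0 := by exact_mod_cast (by omega : n ≠ 0)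
  rw [show -((σ : ℂ) + t * I) = -(σ : ℂ) + -(t * I) by ring, cpow_add _ _ hn0]
  ring

theorem m4_norm (n : ℕ) (hn : 1 ≤ n) (σ : ℝ) : ‖(n : ℂ) ^ (-(σ : ℂ))‖ = (n : ℝ) ^ (-σ) := by
  have := Complex.norm_natCast_cpow_of_pos (n := n) (by omega) (-(σ : ℂ))
  rw [this]
  simp

theorem m4_norm_it (n : ℕ) (hn : 1 ≤ n) (t : ℝ) : ‖(n : ℂ) ^ (-(t * I) : ℂ)‖ = 1 := by
  rw [Complex.norm_natCast_cpow_of_pos (by omega)]
  simp

/-- the bound for the terms -/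
theorem m4_bd (a : ℕ → ℂ) (A d σ : ℝ) (hA : 0 ≤ A) (hd : d ≤ 1 / 8) (hσ : 5 / 4 ≤ σ)
    (ha : ∀ n : ℕ, 1 ≤ n → ‖a n‖ ≤ A * (n : ℝ) ^ d) (n : ℕ) (hn : 1 ≤ n) :
    ‖a n * (n : ℂ) ^ (-(σ : ℂ))‖ ≤ A * (n : ℝ) ^ (-(9 / 8) : ℝ) := by
  have hn0 : (0 : ℝ) < n := by exact_mod_cast hn
  have hn1 : (1 : ℝ) ≤ n := by exact_mod_cast hn
  rw [norm_mul, m4_norm n hn]
  calc ‖a n‖ * (n : ℝ) ^ (-σ) ≤ A * (n : ℝ) ^ d * (n : ℝ) ^ (-σ) :=
        mul_le_mul_of_nonneg_right (ha n hn) (Real.rpow_nonneg hn0.le _)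
    _ = A * (n : ℝ) ^ (d + -σ) := by rw [Real.rpow_add hn0]; ring
    _ ≤ A * (n : ℝ) ^ (-(9 / 8) : ℝ) := by
        apply mul_le_mul_of_nonneg_left _ hA
        exact Real.rpow_le_rpow_of_exponent_le hn1 (by linarith)

theorem m4_summable (A : ℝ) : Summable fun n : ℕ => A * (n : ℝ) ^ (-(9 / 8) : ℝ) :=
  (Real.summable_nat_rpow.2 (by norm_num)).mul_left A

/-- the partial sums -/
theorem m4_tendsto (a : ℕ → ℂ) (U : ℕ) {q : ℕ} (χ : DirichletCharacter ℂ q) (A d σ t : ℝ)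
    (hA : 0 ≤ A) (hd : d ≤ 1 / 8) (hσ : 5 / 4 ≤ σ)
    (ha : ∀ n : ℕ, 1 ≤ n → ‖a n‖ ≤ A * (n : ℝ) ^ d) :
    Filter.Tendsto (fun V : ℕ => ∑ n ∈ Ioc U V,
      (a n * (n : ℂ) ^ (-(σ : ℂ))) * χ (n : ZMod q) * (n : ℂ) ^ (-(t * I) : ℂ)) Filter.atTop
      (nhds (TB a U χ ((σ : ℂ) + t * I))) := by
  have hs : Summable fun n : ℕ => if n ≤ U then (0 : ℂ) else
      a n * χ (n : ZMod q) * (n : ℂ) ^ (-((σ : ℂ) + t * I)) := by
    apply Summable.of_norm_bounded (m4_summable A)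
    intro n
    split_ifs with h
    · rw [norm_zero]
      positivity
    · have hn : 1 ≤ n := by omega
      rw [m4_term a χ σ t n hn, norm_mul, norm_mul, m4_norm_it n hn, mul_one]
      calc ‖a n * (n : ℂ) ^ (-(σ : ℂ))‖ * ‖χ (n : ZMod q)‖
          ≤ ‖a n * (n : ℂ) ^ (-(σ : ℂ))‖ * 1 :=
            mul_le_mul_of_nonneg_left (DirichletCharacter.norm_le_one χ _) (norm_nonneg _)
        _ ≤ _ := by rw [mul_one]; exact m4_bd a A d σ hA hd hσ ha n hn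
  have h1 := hs.hasSum.tendsto_sum_nat
  have h2 := (Filter.tendsto_add_atTop_iff_nat 1).2 h1
  unfold TB
  refine h2.congr fun V => ?_
  have h3 : (Finset.range (V + 1)).filter (fun n => ¬ n ≤ U) = Ioc U V := by
    ext n
    simp only [Finset.mem_filter, Finset.mem_range, Finset.mem_Ioc]
    omega
  rw [← h3, Finset.sum_filter]
  apply Finset.sum_congr rfl
  intro n _
  by_cases h : n ≤ U
  · rw [if_pos h, if_neg (not_not.2 h)]
  · rw [if_neg h, if_pos h, m4_term a χ σ t n (by omega)]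

theorem m4_partial (a : ℕ → ℂ) (U V : ℕ) {q : ℕ} (χ : DirichletCharacter ℂ q) (A d σ t : ℝ)
    (hA : 0 ≤ A) (hd : d ≤ 1 / 8) (hσ : 5 / 4 ≤ σ)
    (ha : ∀ n : ℕ, 1 ≤ n → ‖a n‖ ≤ A * (n : ℝ) ^ d) :
    ‖∑ n ∈ Ioc U V, (a n * (n : ℂ) ^ (-(σ : ℂ))) * χ (n : ZMod q) * (n : ℂ) ^ (-(t * I) : ℂ)‖ ≤
      ∑' n : ℕ, A * (n : ℝ) ^ (-(9 / 8) : ℝ) := by
  refine (norm_sum_le _ _).trans ?_
  refine le_trans ?_ ((m4_summable A).sum_le_tsum (Ioc U V) (fun n _ => by positivity))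
  apply Finset.sum_le_sum
  intro n hn
  have hn1 : 1 ≤ n := by
    have := (Finset.mem_Ioc.1 hn).1
    omega
  rw [norm_mul, norm_mul, m4_norm_it n hn1, mul_one]
  calc ‖a n * (n : ℂ) ^ (-(σ : ℂ))‖ * ‖χ (n : ZMod q)‖
      ≤ ‖a n * (n : ℂ) ^ (-(σ : ℂ))‖ * 1 :=
        mul_le_mul_of_nonneg_left (DirichletCharacter.norm_le_one χ _) (norm_nonneg _)
    _ ≤ _ := by rw [mul_one]; exact m4_bd a A d σ hA hd hσ ha n hn1

theorem mv_tail_pr : ∃ C : ℝ, 1 ≤ C ∧ ∀ (R : ℕ) (T : ℝ), 1 ≤ R → 1 ≤ T →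
    ∀ (U : ℕ) (a : ℕ → ℂ) (A d σ : ℝ), 1 ≤ U → 0 ≤ A → 0 ≤ d → d ≤ 1 / 8 → 5 / 4 ≤ σ → σ ≤ 2 →
    (∀ n : ℕ, 1 ≤ n → ‖a n‖ ≤ A * (n : ℝ) ^ d) →
    SP R (fun _ χ => ∫ t in (-T)..T, ‖TB a U χ ((σ : ℂ) + t * I)‖ ^ 2) ≤
      C * A ^ 2 * (U : ℝ) ^ (2 * d) *
        ((R : ℝ) ^ 2 * T * (U : ℝ) ^ (1 - 2 * σ) + (U : ℝ) ^ (2 - 2 * σ)) := by
  obtain ⟨C, hC, hL⟩ := hls
  refine ⟨16 * C, by linarith, ?_⟩
  intro R T hR hT U a A d σ hU hA hd hd8 hσ hσ2 ha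
  have hU0 : (0 : ℝ) < U := by exact_mod_cast hU
  have hR0 : (0 : ℝ) < R := by exact_mod_cast hR
  -- the limit
  have hlim : Filter.Tendsto (fun V : ℕ => SP R (fun r χ => ∫ t in (-T)..T,
      ‖∑ n ∈ Ioc U V, (a n * (n : ℂ) ^ (-(σ : ℂ))) * χ (n : ZMod r) * (n : ℂ) ^ (-(t * I) : ℂ)‖ ^ 2))
      Filter.atTop (nhds (SP R (fun _ χ => ∫ t in (-T)..T, ‖TB a U χ ((σ : ℂ) + t * I)‖ ^ 2))) := by
    unfold SP
    apply tendsto_finsetSum
    intro r _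
    apply tendsto_finsetSum
    intro χ _
    apply intervalIntegral.tendsto_integral_filter_of_dominated_convergence
      (fun _ => (∑' n : ℕ, A * (n : ℝ) ^ (-(9 / 8) : ℝ)) ^ 2)
    · refine Filter.Eventually.of_forall fun V => Continuous.aestronglyMeasurable ?_
      refine (continuous_norm.comp (continuous_finsetSum _ fun n hn => ?_)).pow 2
      have hn0 : (n : ℂ) ≠ 0 := by
        have := (Finset.mem_Ioc.1 hn).1
        exact_mod_cast (by omega : n ≠ 0)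
      refine continuous_const.mul ?_
      exact Continuous.const_cpow (by fun_prop) (Or.inl hn0)
    · refine Filter.Eventually.of_forall fun V => Filter.Eventually.of_forall fun t _ => ?_
      rw [Real.norm_of_nonneg (by positivity)]
      exact pow_le_pow_left₀ (norm_nonneg _) (m4_partial a U V χ A d σ t hA hd8 hσ ha) 2
    · exact intervalIntegrable_const
    · refine Filter.Eventually.of_forall fun t _ => ?_
      exact ((m4_tendsto a U χ A d σ t hA hd8 hσ ha).norm).pow 2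
  refine le_of_tendsto hlim (Filter.Eventually.of_forall fun V => ?_)
  -- the large sieve
  have h1 := hL (2 * R) (by omega) T hT (Ioc U V) (fun n hn => by
    have := (Finset.mem_Ioc.1 hn).1
    omega) (fun n => a n * (n : ℂ) ^ (-(σ : ℂ)))
  have h2 : SP R (fun r χ => ∫ t in (-T)..T,
      ‖∑ n ∈ Ioc U V, (a n * (n : ℂ) ^ (-(σ : ℂ))) * χ (n : ZMod r) * (n : ℂ) ^ (-(t * I) : ℂ)‖ ^ 2) ≤
      ∑ r ∈ Icc 1 (2 * R), ∑ χ ∈ Pr r, ∫ t in (-T)..T,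
        ‖∑ n ∈ Ioc U V, (a n * (n : ℂ) ^ (-(σ : ℂ))) * χ (n : ZMod r) *
          (n : ℂ) ^ (-(t * I) : ℂ)‖ ^ 2 := by
    unfold SP
    apply Finset.sum_le_sum_of_subset_of_nonneg
    · intro r hr
      have := Finset.mem_Ico.1 hr
      exact Finset.mem_Icc.2 ⟨by omega, by omega⟩
    · intro r _ _
      exact Finset.sum_nonneg fun χ _ => intervalIntegral.integral_nonneg (by linarith)
        fun t _ => by positivity
  refine (h2.trans h1).trans ?_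
  -- the sum over `n`
  have h3 : ∀ n ∈ Ioc U V, ((n : ℝ) + ((2 * R : ℕ) : ℝ) ^ 2 * T) *
      ‖a n * (n : ℂ) ^ (-(σ : ℂ))‖ ^ 2 ≤ A ^ 2 * (n : ℝ) ^ (-(2 * σ - 2 * d - 1)) +
        4 * (R : ℝ) ^ 2 * T * A ^ 2 * (n : ℝ) ^ (-(2 * σ - 2 * d)) := by
    intro n hn
    have hn1 : 1 ≤ n := by
      have := (Finset.mem_Ioc.1 hn).1
      omega
    have hn0 : (0 : ℝ) < n := by exact_mod_cast hn1
    have e1 : ‖a n * (n : ℂ) ^ (-(σ : ℂ))‖ ≤ A * (n : ℝ) ^ (d - σ) := by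
      rw [norm_mul, m4_norm n hn1]
      calc ‖a n‖ * (n : ℝ) ^ (-σ) ≤ A * (n : ℝ) ^ d * (n : ℝ) ^ (-σ) :=
            mul_le_mul_of_nonneg_right (ha n hn1) (Real.rpow_nonneg hn0.le _)
        _ = A * (n : ℝ) ^ (d - σ) := by rw [sub_eq_add_neg, Real.rpow_add hn0]; ring
    have e2 : ‖a n * (n : ℂ) ^ (-(σ : ℂ))‖ ^ 2 ≤ A ^ 2 * (n : ℝ) ^ (-(2 * σ - 2 * d)) := by
      refine (pow_le_pow_left₀ (norm_nonneg _) e1 2).trans (le_of_eq ?_)
      rw [mul_pow, ← Real.rpow_natCast ((n : ℝ) ^ (d - σ)) 2, ← Real.rpow_mul hn0.le]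
      congr 2
      push_cast
      ring
    have e3 : (n : ℝ) * (n : ℝ) ^ (-(2 * σ - 2 * d)) = (n : ℝ) ^ (-(2 * σ - 2 * d - 1)) := by
      rw [show -(2 * σ - 2 * d - 1) = 1 + -(2 * σ - 2 * d) by ring, Real.rpow_add hn0,
        Real.rpow_one]
    calc ((n : ℝ) + ((2 * R : ℕ) : ℝ) ^ 2 * T) * ‖a n * (n : ℂ) ^ (-(σ : ℂ))‖ ^ 2
        ≤ ((n : ℝ) + ((2 * R : ℕ) : ℝ) ^ 2 * T) * (A ^ 2 * (n : ℝ) ^ (-(2 * σ - 2 * d))) :=
          mul_le_mul_of_nonneg_left e2 (by positivity)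
      _ = A ^ 2 * ((n : ℝ) * (n : ℝ) ^ (-(2 * σ - 2 * d))) +
          4 * (R : ℝ) ^ 2 * T * A ^ 2 * (n : ℝ) ^ (-(2 * σ - 2 * d)) := by push_cast; ring
      _ = _ := by rw [e3]
  have h4 : ∑ n ∈ Ioc U V, ((n : ℝ) + ((2 * R : ℕ) : ℝ) ^ 2 * T) *
      ‖a n * (n : ℂ) ^ (-(σ : ℂ))‖ ^ 2 ≤ A ^ 2 * (4 * (U : ℝ) ^ (1 - (2 * σ - 2 * d - 1))) +
        4 * (R : ℝ) ^ 2 * T * A ^ 2 * (4 * (U : ℝ) ^ (1 - (2 * σ - 2 * d))) := by
    refine (Finset.sum_le_sum h3).trans ?_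
    rw [Finset.sum_add_distrib, ← Finset.mul_sum, ← Finset.mul_sum]
    apply add_le_add
    · exact mul_le_mul_of_nonneg_left (m4_tail U V hU _ (by linarith)) (by positivity)
    · exact mul_le_mul_of_nonneg_left (m4_tail U V hU _ (by linarith)) (by positivity)
  have h5 : (U : ℝ) ^ (1 - (2 * σ - 2 * d - 1)) = (U : ℝ) ^ (2 * d) * (U : ℝ) ^ (2 - 2 * σ) := by
    rw [← Real.rpow_add hU0]; congr 1; ring
  have h6 : (U : ℝ) ^ (1 - (2 * σ - 2 * d)) = (U : ℝ) ^ (2 * d) * (U : ℝ) ^ (1 - 2 * σ) := by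
    rw [← Real.rpow_add hU0]; congr 1; ring
  rw [h5, h6] at h4
  have hC0 : 0 ≤ C := by linarith
  refine (mul_le_mul_of_nonneg_left h4 hC0).trans ?_
  have p1 : 0 ≤ C * A ^ 2 * (U : ℝ) ^ (2 * d) * (U : ℝ) ^ (2 - 2 * σ) := by positivity
  nlinarith [p1]

theorem mv_tail : type_of% @mv_tail_pr := @mv_tail_pr

end Pool.Agent.XT

/-! ### Block C0 -/

/-! XT, block C0: the approximate functional equation for primitive characters (helper16) -/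

namespace Pool.Agent.XT

open Finset Complex MeasureTheory Pool.Agent.Var35 Pool.Agent.Var73 Pool.Agent.HC Pool.Agent.MF
  Pool.Agent.XS
open scoped ArithmeticFunction ArithmeticFunction.Moebius

section

variable {r : ℕ} [NeZero r]

/-- the parity of a character -/
theorem c0_par (χ : DirichletCharacter ℂ r) : ∃ κ : ℕ, ZP.Par κ (fun j => χ j) := by
  rcases χ.even_or_odd with h | h
  · exact ⟨0, Or.inl ⟨rfl, h.to_fun⟩⟩
  · exact ⟨1, Or.inr ⟨rfl, h.to_fun⟩⟩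

/-- the transform of a primitive character -/
theorem c0_dft {χ : DirichletCharacter ℂ r} (hχ : χ.IsPrimitive) : ∃ K : ℂ, ‖K‖ ^ 2 = r ∧
    ∀ n : ℕ, starRingEnd ℂ (ZP.cf (ZMod.dft (fun j => χ j)) n) = K * ZP.cf (fun j => χ j) n := by
  refine ⟨starRingEnd ℂ (gaussSum χ (ZMod.stdAddChar (N := r))) * χ (-1), ?_, fun n => ?_⟩
  · rw [norm_mul, mul_pow, RCLike.norm_conj, gauss_norm_prim χ hχ]
    have h1 : ‖χ (-1)‖ = 1 := by
      have := χ.unit_norm_eq_one (-1)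
      simpa using this
    rw [h1]
    ring
  · unfold ZP.cf
    by_cases hn : n = 0
    · simp [hn]
    · rw [if_neg hn, if_neg hn]
      have h1 := hχ.fourierTransform_eq_inv_mul_gaussSum (n : ZMod r)
      have h2 : ZMod.dft (fun j => χ j) (n : ZMod r) =
          χ⁻¹ (-(n : ZMod r)) * gaussSum χ (ZMod.stdAddChar (N := r)) := by
        rw [← h1]
      rw [h2, map_mul]
      have h3 : starRingEnd ℂ (χ⁻¹ (-(n : ZMod r))) = χ (-(n : ZMod r)) := by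
        rw [← MulChar.star_apply' χ]
        exact star_star _
      rw [h3, ← neg_one_mul, map_mul]
      ring

/-- the polynomial part -/
theorem c0_head (χ : DirichletCharacter ℂ r) (N : ℕ) (σ u : ℝ) :
    ZP.Sm (ZP.headS (ZP.cf (fun j => χ j)) N σ) u = MB (fun _ => 1) N χ ((σ : ℂ) + (u : ℂ) * I) := by
  rw [ZP.Sm_head]
  unfold MB
  apply Finset.sum_congr rfl
  intro n hn
  have hn0 : n ≠ 0 := by
    have := (Finset.mem_Icc.1 hn).1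
    omega
  unfold ZP.cf
  rw [if_neg hn0, one_mul]

/-- the tail -/
theorem c0_tail (χ : DirichletCharacter ℂ r) (N : ℕ) (u : ℝ) :
    ZP.Sm (ZP.tailS (ZP.cf (fun j => χ j)) N) u =
      TB (fun _ => 1) N χ ((3 / 2 : ℂ) + (u : ℂ) * I) := by
  unfold ZP.Sm TB
  apply tsum_congr
  intro n
  unfold ZP.tailS ZP.cf
  by_cases hn : n ≤ N
  · rw [if_pos hn, if_pos hn, zero_mul]
  · have hn0 : n ≠ 0 := by omega
    rw [if_neg hn, if_neg hn, if_neg hn0, one_mul]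
    have h1 := ZP.cpow_eq_en hn0 (3 / 2) u
    have e : (3 / 2 : ℂ) + (u : ℂ) * I = ((3 / 2 : ℝ) : ℂ) + (u : ℂ) * I := by push_cast; ring
    rw [e, h1]
    have e2 : ((n : ℝ) ^ (-(3 / 2) : ℝ) : ℝ) = (n : ℝ) ^ (-(3 / 2 : ℝ)) := by norm_num
    rw [mul_assoc]

/-- the dual polynomial part -/
theorem c0_head_dual {χ : DirichletCharacter ℂ r} (hχ : χ.IsPrimitive) (N : ℕ) (σ u : ℝ) :
    ‖ZP.Sm (ZP.headS (ZP.cf (ZMod.dft (fun j => χ j))) N σ) (-u)‖ =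
      Real.sqrt r * ‖ZP.Sm (ZP.headS (ZP.cf (fun j => χ j)) N σ) u‖ := by
  obtain ⟨K, hK, hb⟩ := c0_dft hχ
  rw [ZP.norm_Sm_neg]
  have e : (fun n => starRingEnd ℂ (ZP.headS (ZP.cf (ZMod.dft (fun j => χ j))) N σ n)) =
      fun n => K * ZP.headS (ZP.cf (fun j => χ j)) N σ n := by
    funext n
    unfold ZP.headS
    split_ifs
    · rw [map_mul, hb, Complex.conj_ofReal]
      ring
    · simp
  rw [e]
  have e2 : ZP.Sm (fun n => K * ZP.headS (ZP.cf (fun j => χ j)) N σ n) u =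
      K * ZP.Sm (ZP.headS (ZP.cf (fun j => χ j)) N σ) u := by
    unfold ZP.Sm
    rw [← tsum_mul_left]
    apply tsum_congr
    intro n
    ring
  rw [e2, norm_mul]
  congr 1
  rw [← hK, Real.sqrt_sq (norm_nonneg _)]

/-- the dual tail -/
theorem c0_tail_dual {χ : DirichletCharacter ℂ r} (hχ : χ.IsPrimitive) (N : ℕ) (u : ℝ) :
    ‖ZP.Sm (ZP.tailS (ZP.cf (ZMod.dft (fun j => χ j))) N) (-u)‖ =
      Real.sqrt r * ‖ZP.Sm (ZP.tailS (ZP.cf (fun j => χ j)) N) u‖ := by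
  obtain ⟨K, hK, hb⟩ := c0_dft hχ
  rw [ZP.norm_Sm_neg]
  have e : (fun n => starRingEnd ℂ (ZP.tailS (ZP.cf (ZMod.dft (fun j => χ j))) N n)) =
      fun n => K * ZP.tailS (ZP.cf (fun j => χ j)) N n := by
    funext n
    unfold ZP.tailS
    split_ifs
    · simp
    · rw [map_mul, hb, Complex.conj_ofReal]
      ring
  rw [e]
  have e2 : ZP.Sm (fun n => K * ZP.tailS (ZP.cf (fun j => χ j)) N n) u =
      K * ZP.Sm (ZP.tailS (ZP.cf (fun j => χ j)) N) u := by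
    unfold ZP.Sm
    rw [← tsum_mul_left]
    apply tsum_congr
    intro n
    ring
  rw [e2, norm_mul]
  congr 1
  rw [← hK, Real.sqrt_sq (norm_nonneg _)]

/-- the factor of the functional equation -/
theorem c0_XL {κ : ℕ} (hκ : κ ≤ 1) {η : ℝ} (h0 : 0 ≤ η) (h1 : η ≤ 1) (t : ℝ) :
    ‖ZP.XL r κ (((1 / 2 - η : ℝ) : ℂ) + (t : ℂ) * I)‖ * Real.sqrt r ≤
      4 * ((r : ℝ) * (1 + |t|)) ^ η := by
  have hr : (0 : ℝ) < r := by exact_mod_cast Nat.pos_of_ne_zero (NeZero.ne r)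
  unfold ZP.XL
  rw [norm_mul, norm_mul, ZP.norm_qpow, norm_pow, Complex.norm_I, one_pow, one_mul]
  have h2 := ZP.Xk_convex hκ h0 h1 t
  have h4 : (-(((1 / 2 - η : ℝ) : ℂ) + (t : ℂ) * I)).re = η - 1 / 2 := by simp
  rw [h4]
  have h5 : (r : ℝ) ^ (η - 1 / 2) * Real.sqrt r = (r : ℝ) ^ η := by
    rw [Real.sqrt_eq_rpow, ← Real.rpow_add hr]
    congr 1
    ring
  calc (r : ℝ) ^ (η - 1 / 2) * ‖ZP.Xk κ (((1 / 2 - η : ℝ) : ℂ) + (t : ℂ) * I)‖ * Real.sqrt r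
      = ((r : ℝ) ^ (η - 1 / 2) * Real.sqrt r) *
        ‖ZP.Xk κ (((1 / 2 - η : ℝ) : ℂ) + (t : ℂ) * I)‖ := by ring
    _ ≤ (r : ℝ) ^ η * (4 * (1 + |t|) ^ η) := by
        rw [h5]
        exact mul_le_mul_of_nonneg_left h2 (by positivity)
    _ = _ := by
        rw [Real.mul_rpow hr.le (by positivity)]
        ring

end

/-- integrability against the weight -/
theorem c0_int {g : ℝ → ℝ} (hg : Continuous g) {K : ℝ} (hb : ∀ v, |g v| ≤ K * (1 + |v|) ^ 2) :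
    Integrable fun v => ZP.Gw 1 v * g v := by
  refine ((ZP.Gw_integrable 3).const_mul K).mono'
    ((ZP.Gw_continuous 1).mul hg).aestronglyMeasurable (Filter.Eventually.of_forall fun v => ?_)
  rw [norm_mul, Real.norm_of_nonneg (ZP.Gw_nonneg 1 v), Real.norm_eq_abs]
  calc ZP.Gw 1 v * |g v| ≤ ZP.Gw 1 v * (K * (1 + |v|) ^ 2) :=
        mul_le_mul_of_nonneg_left (hb v) (ZP.Gw_nonneg 1 v)
    _ = K * (ZP.Gw 1 v * (1 + |v|) ^ 2) := by ring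
    _ = K * ZP.Gw 3 v := by rw [ZP.Gw_mul]

/-- C0 -/
theorem afe_chi_pr {η : ℝ} (hη : 0 < η) (hη1 : η ≤ 1 / 4) : ∃ C : ℝ, 1 ≤ C ∧
    ∀ (r : ℕ) (χ : DirichletCharacter ℂ r), 1 ≤ r → χ ∈ Pr r →
    ∀ (U : ℝ) (N : ℕ) (t : ℝ), 1 ≤ U → 1 ≤ N →
    ‖GA.LF χ ((1 / 2 : ℂ) + t * I)‖ ^ 2 ≤ C * ∫ v : ℝ, ZP.Gw 1 v *
      ((U ^ (2 * η) + U ^ (-(2 * η)) * ((r : ℝ) * (1 + |t| + |v|)) ^ (2 * η)) *
          ‖MB (fun _ => 1) N χ (((1 / 2 + η : ℝ) : ℂ) + ((t + v : ℝ) : ℂ) * I)‖ ^ 2 +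
        (U ^ 2 + U⁻¹ ^ 2 * ((r : ℝ) * (1 + |t| + |v|)) ^ 2) *
          ‖TB (fun _ => 1) N χ ((3 / 2 : ℂ) + ((t + v : ℝ) : ℂ) * I)‖ ^ 2) := by
  have hW := ZP.Wt_pos 1
  set C0 : ℝ := (3 * Real.exp 1) ^ 2 * (ZP.Wt 1 * (64 / η ^ 2)) with hC0
  have hC0p : 0 ≤ C0 := by positivity
  refine ⟨1 + C0, by linarith, fun r χ hr hχ U N t hU _ => ?_⟩
  have hNZ : NeZero r := ⟨by omega⟩
  have hprim : χ.IsPrimitive := (mem_Pr χ).1 hχ
  obtain ⟨κ, hκ⟩ := c0_par χ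
  have hU0 : 0 < U := by linarith
  have hr0 : (0 : ℝ) < r := by exact_mod_cast hr
  have hr1 : (1 : ℝ) ≤ r := by exact_mod_cast hr
  -- the functions
  set h : ℝ → ℝ := fun v => ‖ZP.Sm (ZP.headS (ZP.cf (fun j => χ j)) N (1 / 2 + η)) (t + v)‖ with hh
  set τ : ℝ → ℝ := fun v => ‖ZP.Sm (ZP.tailS (ZP.cf (fun j => χ j)) N) (t + v)‖ with hτ
  set P : ℝ → ℝ := fun v => (r : ℝ) * (1 + |t| + |v|) with hP
  have hP1 : ∀ v, 1 ≤ P v := by
    intro v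
    have h1 : (1 : ℝ) ≤ 1 + |t| + |v| := by linarith [abs_nonneg t, abs_nonneg v]
    exact one_le_mul_of_one_le_of_one_le hr1 h1
  have hP0 : ∀ v, 0 < P v := fun v => by linarith [hP1 v]
  set R0 : ℝ := (r : ℝ) * (1 + |t|) with hR0
  have hR0p : 0 < R0 := by positivity
  have hPR : ∀ v, P v ≤ R0 * (1 + |v|) := by
    intro v
    have : 0 ≤ |t| * |v| := by positivity
    simp only [hP, hR0]
    calc (r : ℝ) * (1 + |t| + |v|) ≤ (r : ℝ) * ((1 + |t|) * (1 + |v|)) := by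
          gcongr
          nlinarith
      _ = _ := by ring
  have hPη : ∀ v, P v ^ η ≤ R0 * (1 + |v|) := by
    intro v
    calc P v ^ η ≤ P v ^ (1 : ℝ) :=
          Real.rpow_le_rpow_of_exponent_le (hP1 v) (by linarith)
      _ = P v := Real.rpow_one _
      _ ≤ _ := hPR v
  have hPc : Continuous P := by
    simp only [hP]
    fun_prop
  have hPηc : Continuous fun v => P v ^ η := hPc.rpow_const fun v => Or.inr hη.le
  have hPη0 : ∀ v, 0 ≤ P v ^ η := fun v => Real.rpow_nonneg (hP0 v).le _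
  have sh := ZP.headS_summable (ZP.cf (fun j => χ j)) N (1 / 2 + η)
  have st := ZP.tailS_summable (ZP.cf_summable (fun j => χ j)) N
  have hhc : Continuous h := ((ZP.Sm_continuous sh).comp (by fun_prop : Continuous fun v : ℝ => t + v)).norm
  have hτc : Continuous τ := ((ZP.Sm_continuous st).comp (by fun_prop : Continuous fun v : ℝ => t + v)).norm
  set Bh : ℝ := ∑' n, ‖ZP.headS (ZP.cf (fun j => χ j)) N (1 / 2 + η) n‖ with hBh
  set Bt : ℝ := ∑' n, ‖ZP.tailS (ZP.cf (fun j => χ j)) N n‖ with hBt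
  have hBh0 : 0 ≤ Bh := tsum_nonneg fun n => norm_nonneg _
  have hBt0 : 0 ≤ Bt := tsum_nonneg fun n => norm_nonneg _
  have hhB : ∀ v, h v ≤ Bh := fun v => ZP.norm_Sm_le sh (t + v)
  have hτB : ∀ v, τ v ≤ Bt := fun v => ZP.norm_Sm_le st (t + v)
  have hh0 : ∀ v, 0 ≤ h v := fun v => norm_nonneg _
  have hτ0 : ∀ v, 0 ≤ τ v := fun v => norm_nonneg _
  have hone : ∀ v : ℝ, 1 ≤ 1 + |v| := fun v => by linarith [abs_nonneg v]
  have hone2 : ∀ v : ℝ, 1 ≤ (1 + |v|) ^ 2 := fun v => one_le_pow₀ (hone v)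
  have hlin : ∀ v : ℝ, 1 + |v| ≤ (1 + |v|) ^ 2 := fun v => by nlinarith [hone v]
  -- integrability
  have i1 : Integrable fun v => ZP.Gw 1 v * h v := c0_int hhc (K := Bh) fun v => by
    rw [abs_of_nonneg (hh0 v)]
    calc h v ≤ Bh * 1 := by linarith [hhB v]
      _ ≤ _ := mul_le_mul_of_nonneg_left (hone2 v) hBh0
  have i2 : Integrable fun v => ZP.Gw 1 v * τ v := c0_int hτc (K := Bt) fun v => by
    rw [abs_of_nonneg (hτ0 v)]
    calc τ v ≤ Bt * 1 := by linarith [hτB v]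
      _ ≤ _ := mul_le_mul_of_nonneg_left (hone2 v) hBt0
  have i3 : Integrable fun v => ZP.Gw 1 v * (P v ^ η * h v) :=
    c0_int (hPηc.mul hhc) (K := R0 * Bh) fun v => by
      rw [abs_of_nonneg (mul_nonneg (hPη0 v) (hh0 v))]
      calc P v ^ η * h v ≤ (R0 * (1 + |v|)) * Bh :=
            mul_le_mul (hPη v) (hhB v) (hh0 v) (by positivity)
        _ = R0 * Bh * (1 + |v|) := by ring
        _ ≤ _ := mul_le_mul_of_nonneg_left (hlin v) (by positivity)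
  have i4 : Integrable fun v => ZP.Gw 1 v * (P v * τ v) :=
    c0_int (hPc.mul hτc) (K := R0 * Bt) fun v => by
      rw [abs_of_nonneg (mul_nonneg (hP0 v).le (hτ0 v))]
      calc P v * τ v ≤ (R0 * (1 + |v|)) * Bt :=
            mul_le_mul (hPR v) (hτB v) (hτ0 v) (by positivity)
        _ = R0 * Bt * (1 + |v|) := by ring
        _ ≤ _ := mul_le_mul_of_nonneg_left (hlin v) (by positivity)
  -- the dual integrals
  have htv : ∀ v : ℝ, (r : ℝ) * (1 + |t + v|) ≤ P v := by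
    intro v
    simp only [hP]
    have h3 := abs_add_le t v
    exact mul_le_mul_of_nonneg_left (by linarith) hr0.le
  have x3 : ∫ v, ZP.Gw 1 v * (‖ZP.XL r κ (((1 / 2 - η : ℝ) : ℂ) + ((t + v : ℝ) : ℂ) * I)‖ *
      ‖ZP.Sm (ZP.headS (ZP.cf (ZMod.dft (fun j => χ j))) N (1 / 2 + η)) (-(t + v))‖) ≤
      4 * ∫ v, ZP.Gw 1 v * (P v ^ η * h v) := by
    rw [← integral_const_mul]
    refine integral_mono_of_nonneg (Filter.Eventually.of_forall fun v =>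
      mul_nonneg (ZP.Gw_nonneg 1 v) (by positivity)) (i3.const_mul 4)
      (Filter.Eventually.of_forall fun v => ?_)
    simp only
    rw [c0_head_dual hprim]
    have e1 := c0_XL (r := r) hκ.le hη.le (by linarith : η ≤ 1) (t + v)
    have e2 : ((r : ℝ) * (1 + |t + v|)) ^ η ≤ P v ^ η :=
      Real.rpow_le_rpow (by positivity) (htv v) hη.le
    calc ZP.Gw 1 v * (‖ZP.XL r κ (((1 / 2 - η : ℝ) : ℂ) + ((t + v : ℝ) : ℂ) * I)‖ *
          (Real.sqrt r * h v))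
        = ZP.Gw 1 v * ((‖ZP.XL r κ (((1 / 2 - η : ℝ) : ℂ) + ((t + v : ℝ) : ℂ) * I)‖ *
          Real.sqrt r) * h v) := by ring
      _ ≤ ZP.Gw 1 v * ((4 * P v ^ η) * h v) := by
          refine mul_le_mul_of_nonneg_left ?_ (ZP.Gw_nonneg 1 v)
          refine mul_le_mul_of_nonneg_right ?_ (hh0 v)
          linarith
      _ = _ := by ring
  have x4 : ∫ v, ZP.Gw 1 v * (‖ZP.XL r κ (((-1 / 2 : ℝ) : ℂ) + ((t + v : ℝ) : ℂ) * I)‖ *
      ‖ZP.Sm (ZP.tailS (ZP.cf (ZMod.dft (fun j => χ j))) N) (-(t + v))‖) ≤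
      4 * ∫ v, ZP.Gw 1 v * (P v * τ v) := by
    rw [← integral_const_mul]
    refine integral_mono_of_nonneg (Filter.Eventually.of_forall fun v =>
      mul_nonneg (ZP.Gw_nonneg 1 v) (by positivity)) (i4.const_mul 4)
      (Filter.Eventually.of_forall fun v => ?_)
    simp only
    rw [c0_tail_dual hprim]
    have e1 := c0_XL (r := r) hκ.le zero_le_one le_rfl (t + v)
    have e0 : (1 / 2 - 1 : ℝ) = -1 / 2 := by norm_num
    rw [e0, Real.rpow_one] at e1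
    calc ZP.Gw 1 v * (‖ZP.XL r κ (((-1 / 2 : ℝ) : ℂ) + ((t + v : ℝ) : ℂ) * I)‖ *
          (Real.sqrt r * τ v))
        = ZP.Gw 1 v * ((‖ZP.XL r κ (((-1 / 2 : ℝ) : ℂ) + ((t + v : ℝ) : ℂ) * I)‖ *
          Real.sqrt r) * τ v) := by ring
      _ ≤ ZP.Gw 1 v * ((4 * P v) * τ v) := by
          refine mul_le_mul_of_nonneg_left ?_ (ZP.Gw_nonneg 1 v)
          refine mul_le_mul_of_nonneg_right ?_ (hτ0 v)
          linarith [htv v]
      _ = _ := by ring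
  -- the sum of the four integrals
  set a : ℝ := U ^ η with ha
  set b : ℝ := U ^ (-η) with hb
  have ha0 : 0 < a := Real.rpow_pos_of_pos hU0 _
  have hb0 : 0 < b := Real.rpow_pos_of_pos hU0 _
  have hUi : 0 < U⁻¹ := inv_pos.2 hU0
  set s : ℝ → ℝ := fun v => 1 / η * (a + 4 * (b * P v ^ η)) * h v + (U + 4 * (U⁻¹ * P v)) * τ v
    with hs
  have hs0 : ∀ v, 0 ≤ s v := by
    intro v
    have := hPη0 v
    have := (hP0 v).le
    have := hh0 v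
    have := hτ0 v
    simp only [hs]
    positivity
  have hsc : Continuous s := by
    simp only [hs]
    exact ((continuous_const.mul (continuous_const.add (continuous_const.mul
      (continuous_const.mul hPηc)))).mul hhc).add
      ((continuous_const.add (continuous_const.mul (continuous_const.mul hPc))).mul hτc)
  set Ks : ℝ := 1 / η * (a + 4 * (b * R0)) * Bh + (U + 4 * (U⁻¹ * R0)) * Bt with hKs
  have hKs0 : 0 ≤ Ks := by positivity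
  have hsK : ∀ v, s v ≤ Ks * (1 + |v|) := by
    intro v
    have e1 : a + 4 * (b * P v ^ η) ≤ (a + 4 * (b * R0)) * (1 + |v|) := by
      have k1 : b * P v ^ η ≤ b * (R0 * (1 + |v|)) := mul_le_mul_of_nonneg_left (hPη v) hb0.le
      have k2 : a * 1 ≤ a * (1 + |v|) := mul_le_mul_of_nonneg_left (hone v) ha0.le
      calc a + 4 * (b * P v ^ η) ≤ a * (1 + |v|) + 4 * (b * (R0 * (1 + |v|))) := by linarith
        _ = _ := by ring
    have e2 : U + 4 * (U⁻¹ * P v) ≤ (U + 4 * (U⁻¹ * R0)) * (1 + |v|) := by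
      have k1 : U⁻¹ * P v ≤ U⁻¹ * (R0 * (1 + |v|)) := mul_le_mul_of_nonneg_left (hPR v) hUi.le
      have k2 : U * 1 ≤ U * (1 + |v|) := mul_le_mul_of_nonneg_left (hone v) hU0.le
      calc U + 4 * (U⁻¹ * P v) ≤ U * (1 + |v|) + 4 * (U⁻¹ * (R0 * (1 + |v|))) := by linarith
        _ = _ := by ring
    have hp := hPη0 v
    have hp2 := (hP0 v).le
    have hv := hone v
    calc s v ≤ 1 / η * ((a + 4 * (b * R0)) * (1 + |v|)) * Bh +
          ((U + 4 * (U⁻¹ * R0)) * (1 + |v|)) * Bt := by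
          simp only [hs]
          refine add_le_add ?_ ?_
          · refine mul_le_mul (mul_le_mul_of_nonneg_left e1 (by positivity)) (hhB v) (hh0 v) ?_
            positivity
          · exact mul_le_mul e2 (hτB v) (hτ0 v) (by positivity)
      _ = _ := by rw [hKs]; ring
  have is1 : Integrable fun v => ZP.Gw 1 v * s v := c0_int hsc (K := Ks) fun v => by
    rw [abs_of_nonneg (hs0 v)]
    exact (hsK v).trans (mul_le_mul_of_nonneg_left (hlin v) hKs0)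
  have is2 : Integrable fun v => ZP.Gw 1 v * s v ^ 2 := c0_int (hsc.pow 2) (K := Ks ^ 2) fun v => by
    rw [abs_of_nonneg (by positivity)]
    calc s v ^ 2 ≤ (Ks * (1 + |v|)) ^ 2 := pow_le_pow_left₀ (hs0 v) (hsK v) 2
      _ = _ := by ring
  have hsum : a / η * (∫ v, ZP.Gw 1 v * h v) + U * (∫ v, ZP.Gw 1 v * τ v) +
      b / η * (4 * ∫ v, ZP.Gw 1 v * (P v ^ η * h v)) + U⁻¹ * (4 * ∫ v, ZP.Gw 1 v * (P v * τ v)) =
      ∫ v, ZP.Gw 1 v * s v := by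
    have e : ∀ v, ZP.Gw 1 v * s v = a / η * (ZP.Gw 1 v * h v) + U * (ZP.Gw 1 v * τ v) +
        (4 * (b / η)) * (ZP.Gw 1 v * (P v ^ η * h v)) + (4 * U⁻¹) * (ZP.Gw 1 v * (P v * τ v)) := by
      intro v
      simp only [hs]
      ring
    have j1 : Integrable fun v => a / η * (ZP.Gw 1 v * h v) := i1.const_mul _
    have j2 : Integrable fun v => U * (ZP.Gw 1 v * τ v) := i2.const_mul _
    have j3 : Integrable fun v => (4 * (b / η)) * (ZP.Gw 1 v * (P v ^ η * h v)) := i3.const_mul _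
    have j4 : Integrable fun v => (4 * U⁻¹) * (ZP.Gw 1 v * (P v * τ v)) := i4.const_mul _
    have j12 : Integrable fun v => a / η * (ZP.Gw 1 v * h v) + U * (ZP.Gw 1 v * τ v) := j1.add j2
    have j123 : Integrable fun v => a / η * (ZP.Gw 1 v * h v) + U * (ZP.Gw 1 v * τ v) +
        (4 * (b / η)) * (ZP.Gw 1 v * (P v ^ η * h v)) := j12.add j3
    simp_rw [e]
    rw [integral_add j123 j4, integral_add j12 j3, integral_add j1 j2, integral_const_mul,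
      integral_const_mul, integral_const_mul, integral_const_mul]
    ring
  -- the bound for `L`
  have hmain := ZP.afe (ZP.FE1 hκ) hU hη (by linarith) N t
  rw [ZP.Lp1_half, norm_mul, pow_one, pow_one] at hmain
  have hLF : GA.LF χ ((1 / 2 : ℂ) + t * I) = ZMod.LFunction (fun j => χ j) (1 / 2 + t * I) := by
    unfold GA.LF
    rw [dif_neg (NeZero.ne r)]
    rfl
  set p := ‖(-1 / 2 + t * I : ℂ)‖ with hp
  have hp0 : 0 < p := ZP.norm_pole_pos t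
  have hL : ‖GA.LF χ ((1 / 2 : ℂ) + t * I)‖ ≤ 3 * Real.exp 1 * ∫ v, ZP.Gw 1 v * s v := by
    rw [hLF]
    set L := ‖ZMod.LFunction (fun j => χ j) (1 / 2 + t * I)‖ with hLdef
    have hL0 : 0 ≤ L := norm_nonneg _
    have k1 : b / η * (∫ v, ZP.Gw 1 v *
        (‖ZP.XL r κ (((1 / 2 - η : ℝ) : ℂ) + ((t + v : ℝ) : ℂ) * I)‖ *
        ‖ZP.Sm (ZP.headS (ZP.cf (ZMod.dft (fun j => χ j))) N (1 / 2 + η)) (-(t + v))‖)) ≤
        b / η * (4 * ∫ v, ZP.Gw 1 v * (P v ^ η * h v)) :=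
      mul_le_mul_of_nonneg_left x3 (by positivity)
    have k2 : U⁻¹ * (∫ v, ZP.Gw 1 v * (‖ZP.XL r κ (((-1 / 2 : ℝ) : ℂ) + ((t + v : ℝ) : ℂ) * I)‖ *
      ‖ZP.Sm (ZP.tailS (ZP.cf (ZMod.dft (fun j => χ j))) N) (-(t + v))‖)) ≤
        U⁻¹ * (4 * ∫ v, ZP.Gw 1 v * (P v * τ v)) := mul_le_mul_of_nonneg_left x4 hUi.le
    have k3 : 2 * Real.pi * (p * L) ≤ p * (3 * Real.exp 1) * ∫ v, ZP.Gw 1 v * s v := by
      refine hmain.trans ?_
      rw [← hsum]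
      refine mul_le_mul_of_nonneg_left ?_ (by positivity)
      exact add_le_add (add_le_add le_rfl k1) k2
    have k4 : p * (2 * Real.pi * L) ≤ p * (3 * Real.exp 1 * ∫ v, ZP.Gw 1 v * s v) := by
      calc p * (2 * Real.pi * L) = 2 * Real.pi * (p * L) := by ring
        _ ≤ _ := k3
        _ = _ := by ring
    have k5 := le_of_mul_le_mul_left k4 hp0
    have k6 : L ≤ 2 * Real.pi * L := by
      have := Real.pi_gt_three
      nlinarith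
    exact k6.trans k5
  have hcs := ZP.cs_weight 1 is1 is2
  have hI0 : 0 ≤ ∫ v, ZP.Gw 1 v * s v :=
    integral_nonneg fun v => mul_nonneg (ZP.Gw_nonneg 1 v) (hs0 v)
  -- the target
  set g : ℝ → ℝ := fun v =>
    (U ^ (2 * η) + U ^ (-(2 * η)) * ((r : ℝ) * (1 + |t| + |v|)) ^ (2 * η)) *
          ‖MB (fun _ => 1) N χ (((1 / 2 + η : ℝ) : ℂ) + ((t + v : ℝ) : ℂ) * I)‖ ^ 2 +
        (U ^ 2 + U⁻¹ ^ 2 * ((r : ℝ) * (1 + |t| + |v|)) ^ 2) *
          ‖TB (fun _ => 1) N χ ((3 / 2 : ℂ) + ((t + v : ℝ) : ℂ) * I)‖ ^ 2 with hg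
  have hgeq : ∀ v, g v = (a ^ 2 + (b * P v ^ η) ^ 2) * h v ^ 2 +
      (U ^ 2 + (U⁻¹ * P v) ^ 2) * τ v ^ 2 := by
    intro v
    have e1 : U ^ (2 * η) = a ^ 2 := by
      rw [ha, ← Real.rpow_natCast, ← Real.rpow_mul hU0.le]
      congr 1
      push_cast
      ring
    have e2 : U ^ (-(2 * η)) = b ^ 2 := by
      rw [hb, ← Real.rpow_natCast, ← Real.rpow_mul hU0.le]
      congr 1
      push_cast
      ring
    have e3 : P v ^ (2 * η) = (P v ^ η) ^ 2 := by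
      rw [← Real.rpow_natCast, ← Real.rpow_mul (hP0 v).le]
      congr 1
      push_cast
      ring
    have e4 : ‖MB (fun _ => 1) N χ (((1 / 2 + η : ℝ) : ℂ) + ((t + v : ℝ) : ℂ) * I)‖ = h v := by
      simp only [hh]
      rw [c0_head]
    have e5 : ‖TB (fun _ => 1) N χ ((3 / 2 : ℂ) + ((t + v : ℝ) : ℂ) * I)‖ = τ v := by
      simp only [hτ]
      rw [c0_tail]
    have e6 : (r : ℝ) * (1 + |t| + |v|) = P v := rfl
    simp only [hg]
    rw [e4, e5, e6, e1, e2, e3]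
    ring
  have hsg : ∀ v, s v ^ 2 ≤ 64 / η ^ 2 * g v := by
    intro v
    rw [hgeq]
    simp only [hs]
    set x := b * P v ^ η with hx
    set y := U⁻¹ * P v with hy
    set H := h v
    set Q := τ v
    have hη2 : 64 ≤ 64 / η ^ 2 := by
      rw [le_div_iff₀ (by positivity)]
      nlinarith
    have k1 : (1 / η * (a + 4 * x) * H + (U + 4 * y) * Q) ^ 2 ≤
        2 * (1 / η * (a + 4 * x) * H) ^ 2 + 2 * ((U + 4 * y) * Q) ^ 2 := by
      nlinarith [sq_nonneg (1 / η * (a + 4 * x) * H - (U + 4 * y) * Q)]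
    have k2 : (a + 4 * x) ^ 2 ≤ 32 * (a ^ 2 + x ^ 2) := by
      nlinarith [sq_nonneg (4 * a - x), sq_nonneg a, sq_nonneg x, sq_nonneg (a - x)]
    have k3 : (U + 4 * y) ^ 2 ≤ 32 * (U ^ 2 + y ^ 2) := by
      nlinarith [sq_nonneg (4 * U - y), sq_nonneg U, sq_nonneg y, sq_nonneg (U - y)]
    have k4 : 2 * (1 / η * (a + 4 * x) * H) ^ 2 ≤ 64 / η ^ 2 * ((a ^ 2 + x ^ 2) * H ^ 2) := by
      calc 2 * (1 / η * (a + 4 * x) * H) ^ 2 = (2 / η ^ 2 * H ^ 2) * (a + 4 * x) ^ 2 := by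
            field_simp
        _ ≤ (2 / η ^ 2 * H ^ 2) * (32 * (a ^ 2 + x ^ 2)) :=
            mul_le_mul_of_nonneg_left k2 (by positivity)
        _ = _ := by ring
    have k5 : 2 * ((U + 4 * y) * Q) ^ 2 ≤ 64 / η ^ 2 * ((U ^ 2 + y ^ 2) * Q ^ 2) := by
      calc 2 * ((U + 4 * y) * Q) ^ 2 = (2 * Q ^ 2) * (U + 4 * y) ^ 2 := by ring
        _ ≤ (2 * Q ^ 2) * (32 * (U ^ 2 + y ^ 2)) := mul_le_mul_of_nonneg_left k3 (by positivity)
        _ = 64 * ((U ^ 2 + y ^ 2) * Q ^ 2) := by ring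
        _ ≤ _ := mul_le_mul_of_nonneg_right hη2 (by positivity)
    calc _ ≤ _ := k1
      _ ≤ _ := add_le_add k4 k5
      _ = _ := by ring
  have hg0 : ∀ v, 0 ≤ g v := by
    intro v
    rw [hgeq]
    positivity
  have hgc : Continuous g := by
    have : g = fun v => (a ^ 2 + (b * P v ^ η) ^ 2) * h v ^ 2 +
      (U ^ 2 + (U⁻¹ * P v) ^ 2) * τ v ^ 2 := funext hgeq
    rw [this]
    exact ((continuous_const.add ((continuous_const.mul hPηc).pow 2)).mul (hhc.pow 2)).add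
      ((continuous_const.add ((continuous_const.mul hPc).pow 2)).mul (hτc.pow 2))
  have ig : Integrable fun v => ZP.Gw 1 v * g v := c0_int hgc
    (K := (a ^ 2 + (b * R0) ^ 2) * Bh ^ 2 + (U ^ 2 + (U⁻¹ * R0) ^ 2) * Bt ^ 2) fun v => by
    rw [abs_of_nonneg (hg0 v), hgeq]
    have q1 : a ^ 2 + (b * P v ^ η) ^ 2 ≤ (a ^ 2 + (b * R0) ^ 2) * (1 + |v|) ^ 2 := by
      have z1 : (b * P v ^ η) ^ 2 ≤ (b * (R0 * (1 + |v|))) ^ 2 :=
        pow_le_pow_left₀ (mul_nonneg hb0.le (hPη0 v)) (mul_le_mul_of_nonneg_left (hPη v) hb0.le) 2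
      have z2 : a ^ 2 * 1 ≤ a ^ 2 * (1 + |v|) ^ 2 :=
        mul_le_mul_of_nonneg_left (hone2 v) (by positivity)
      calc a ^ 2 + (b * P v ^ η) ^ 2 ≤ a ^ 2 * (1 + |v|) ^ 2 + (b * (R0 * (1 + |v|))) ^ 2 := by
            linarith
        _ = _ := by ring
    have q2 : U ^ 2 + (U⁻¹ * P v) ^ 2 ≤ (U ^ 2 + (U⁻¹ * R0) ^ 2) * (1 + |v|) ^ 2 := by
      have z1 : (U⁻¹ * P v) ^ 2 ≤ (U⁻¹ * (R0 * (1 + |v|))) ^ 2 :=
        pow_le_pow_left₀ (mul_nonneg hUi.le (hP0 v).le) (mul_le_mul_of_nonneg_left (hPR v) hUi.le) 2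
      have z2 : U ^ 2 * 1 ≤ U ^ 2 * (1 + |v|) ^ 2 :=
        mul_le_mul_of_nonneg_left (hone2 v) (by positivity)
      calc U ^ 2 + (U⁻¹ * P v) ^ 2 ≤ U ^ 2 * (1 + |v|) ^ 2 + (U⁻¹ * (R0 * (1 + |v|))) ^ 2 := by
            linarith
        _ = _ := by ring
    have q3 : h v ^ 2 ≤ Bh ^ 2 := pow_le_pow_left₀ (hh0 v) (hhB v) 2
    have q4 : τ v ^ 2 ≤ Bt ^ 2 := pow_le_pow_left₀ (hτ0 v) (hτB v) 2
    calc _ ≤ ((a ^ 2 + (b * R0) ^ 2) * (1 + |v|) ^ 2) * Bh ^ 2 +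
          ((U ^ 2 + (U⁻¹ * R0) ^ 2) * (1 + |v|) ^ 2) * Bt ^ 2 :=
          add_le_add (mul_le_mul q1 q3 (by positivity) (by positivity))
            (mul_le_mul q2 q4 (by positivity) (by positivity))
      _ = _ := by ring
  have hIg0 : 0 ≤ ∫ v, ZP.Gw 1 v * g v :=
    integral_nonneg fun v => mul_nonneg (ZP.Gw_nonneg 1 v) (hg0 v)
  have hI2 : ∫ v, ZP.Gw 1 v * s v ^ 2 ≤ 64 / η ^ 2 * ∫ v, ZP.Gw 1 v * g v := by
    rw [← integral_const_mul]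
    refine integral_mono is2 (ig.const_mul _) fun v => ?_
    simp only
    calc ZP.Gw 1 v * s v ^ 2 ≤ ZP.Gw 1 v * (64 / η ^ 2 * g v) :=
          mul_le_mul_of_nonneg_left (hsg v) (ZP.Gw_nonneg 1 v)
      _ = _ := by ring
  show ‖GA.LF χ ((1 / 2 : ℂ) + t * I)‖ ^ 2 ≤ (1 + C0) * ∫ v, ZP.Gw 1 v * g v
  calc ‖GA.LF χ ((1 / 2 : ℂ) + t * I)‖ ^ 2 ≤ (3 * Real.exp 1 * ∫ v, ZP.Gw 1 v * s v) ^ 2 :=
        pow_le_pow_left₀ (norm_nonneg _) hL 2
    _ = (3 * Real.exp 1) ^ 2 * (∫ v, ZP.Gw 1 v * s v) ^ 2 := by ring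
    _ ≤ (3 * Real.exp 1) ^ 2 * (ZP.Wt 1 * (64 / η ^ 2 * ∫ v, ZP.Gw 1 v * g v)) := by
        refine mul_le_mul_of_nonneg_left ?_ (by positivity)
        exact hcs.trans (mul_le_mul_of_nonneg_left hI2 hW.le)
    _ = C0 * ∫ v, ZP.Gw 1 v * g v := by rw [hC0]; ring
    _ ≤ _ := by
        refine mul_le_mul_of_nonneg_right ?_ hIg0
        linarith

theorem afe_chi : type_of% @afe_chi_pr := @afe_chi_pr

end Pool.Agent.XT

/-! ### Block C1 -/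

/-! Block C1: the mean square of `L M` on the critical line. -/

namespace Pool.Agent.XT

open Finset Complex MeasureTheory Pool.Agent.Var35 Pool.Agent.Var73 Pool.Agent.HC Pool.Agent.MF
  Pool.Agent.XS
open scoped ArithmeticFunction ArithmeticFunction.Moebius

/-- the twist `n^(-iv)` -/
noncomputable def c1av (v : ℝ) (n : ℕ) : ℂ := (n : ℂ) ^ (-((v : ℂ) * I))

theorem c1_av_norm (v : ℝ) (n : ℕ) : ‖c1av v n‖ ≤ 1 := by
  unfold c1av
  rcases Nat.eq_zero_or_pos n with h | h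
  · subst h
    by_cases hv : -((v : ℂ) * I) = 0
    · rw [hv, Complex.cpow_zero, norm_one]
    · rw [Nat.cast_zero, Complex.zero_cpow hv, norm_zero]
      exact zero_le_one
  · rw [Complex.norm_natCast_cpow_of_pos h]
    simp

theorem c1_split (σ t v : ℝ) {n : ℕ} (hn : n ≠ 0) :
    (n : ℂ) ^ (-((σ : ℂ) + ((t + v : ℝ) : ℂ) * I)) = c1av v n * (n : ℂ) ^ (-((σ : ℂ) + t * I)) := by
  unfold c1av
  rw [← Complex.cpow_add _ _ (Nat.cast_ne_zero.2 hn)]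
  congr 1
  push_cast
  ring

theorem c1_MB (N : ℕ) {q : ℕ} (χ : DirichletCharacter ℂ q) (σ t v : ℝ) :
    MB (fun _ => 1) N χ ((σ : ℂ) + ((t + v : ℝ) : ℂ) * I) = MB (c1av v) N χ ((σ : ℂ) + t * I) := by
  unfold MB
  refine Finset.sum_congr rfl fun n hn => ?_
  have hn0 : n ≠ 0 := by
    have := (Finset.mem_Icc.1 hn).1
    omega
  rw [c1_split σ t v hn0]
  ring

theorem c1_TB (N : ℕ) {q : ℕ} (χ : DirichletCharacter ℂ q) (t v : ℝ) :
    TB (fun _ => 1) N χ ((3 / 2 : ℂ) + ((t + v : ℝ) : ℂ) * I) =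
      TB (c1av v) N χ ((3 / 2 : ℂ) + t * I) := by
  unfold TB
  refine tsum_congr fun n => ?_
  by_cases hn : n ≤ N
  · rw [if_pos hn, if_pos hn]
  · rw [if_neg hn, if_neg hn]
    have h := c1_split (3 / 2) t v (n := n) (by omega)
    have e : ((3 / 2 : ℝ) : ℂ) = (3 / 2 : ℂ) := by push_cast; ring
    rw [e] at h
    rw [h]
    ring

theorem c1_MB_cont (a : ℕ → ℂ) (N : ℕ) {q : ℕ} (χ : DirichletCharacter ℂ q) (σ : ℂ) :
    Continuous fun u : ℝ => MB a N χ (σ + u * I) := by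
  unfold MB
  refine continuous_finsetSum _ fun n hn => ?_
  have hn0 : (n : ℂ) ≠ 0 := by
    have := (Finset.mem_Icc.1 hn).1
    exact Nat.cast_ne_zero.2 (by omega)
  exact continuous_const.mul (Continuous.const_cpow (by fun_prop) (Or.inl hn0))

theorem c1_MB_bd (a : ℕ → ℂ) (ha : ∀ n, ‖a n‖ ≤ 1) (N : ℕ) {q : ℕ} (χ : DirichletCharacter ℂ q)
    {σ : ℂ} (hσ : 0 ≤ σ.re) (u : ℝ) : ‖MB a N χ (σ + u * I)‖ ≤ N := by
  unfold MB
  refine (norm_sum_le _ _).trans ?_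
  have : ∀ n ∈ Icc 1 N, ‖a n * χ (n : ZMod q) * (n : ℂ) ^ (-(σ + u * I))‖ ≤ 1 := by
    intro n hn
    have hn1 : 1 ≤ n := (Finset.mem_Icc.1 hn).1
    rw [norm_mul, norm_mul, Complex.norm_natCast_cpow_of_pos (by omega)]
    have h1 : (n : ℝ) ^ (-(σ + u * I)).re ≤ 1 := by
      refine Real.rpow_le_one_of_one_le_of_nonpos (by exact_mod_cast hn1) ?_
      simp
      exact hσ
    have h2 := χ.norm_le_one (n : ZMod q)
    have h3 : ‖a n‖ * ‖χ (n : ZMod q)‖ ≤ 1 := mul_le_one₀ (ha n) (norm_nonneg _) h2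
    exact mul_le_one₀ h3 (by positivity) h1
  refine (Finset.sum_le_card_nsmul _ _ _ this).trans ?_
  rw [Nat.card_Icc, nsmul_eq_mul, mul_one, Nat.add_sub_cancel]

theorem c1_sum : Summable fun n : ℕ => (n : ℝ) ^ (-(3 / 2) : ℝ) :=
  Real.summable_nat_rpow.2 (by norm_num)

theorem c1_TB_term (a : ℕ → ℂ) (ha : ∀ n, ‖a n‖ ≤ 1) (N : ℕ) {q : ℕ} (χ : DirichletCharacter ℂ q)
    (n : ℕ) (u : ℝ) :
    ‖(if n ≤ N then 0 else a n * χ (n : ZMod q) * (n : ℂ) ^ (-((3 / 2 : ℂ) + u * I)))‖ ≤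
      (n : ℝ) ^ (-(3 / 2) : ℝ) := by
  split_ifs with hn
  · rw [norm_zero]
    positivity
  · rw [norm_mul, norm_mul, Complex.norm_natCast_cpow_of_pos (by omega)]
    have h2 := χ.norm_le_one (n : ZMod q)
    have h3 : ‖a n‖ * ‖χ (n : ZMod q)‖ ≤ 1 := mul_le_one₀ (ha n) (norm_nonneg _) h2
    have h4 : (-((3 / 2 : ℂ) + u * I)).re = -(3 / 2) := by
      simp
    rw [h4]
    exact mul_le_of_le_one_left (by positivity) h3

theorem c1_TB_cont (N : ℕ) {q : ℕ} (χ : DirichletCharacter ℂ q) :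
    Continuous fun u : ℝ => TB (fun _ => 1) N χ ((3 / 2 : ℂ) + u * I) := by
  unfold TB
  have hbd := c1_TB_term (fun _ => 1) (fun _ => by simp) N χ
  refine continuous_tsum (u := fun n : ℕ => (n : ℝ) ^ (-(3 / 2) : ℝ)) (fun n => ?_) c1_sum hbd
  by_cases hn : n ≤ N
  · simp only [if_pos hn]
    exact continuous_const
  · simp only [if_neg hn]
    have hn0 : (n : ℂ) ≠ 0 := Nat.cast_ne_zero.2 (by omega)
    exact continuous_const.mul (Continuous.const_cpow (by fun_prop) (Or.inl hn0))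

theorem c1_TB_bd (N : ℕ) {q : ℕ} (χ : DirichletCharacter ℂ q) (u : ℝ) :
    ‖TB (fun _ => 1) N χ ((3 / 2 : ℂ) + u * I)‖ ≤ ∑' n : ℕ, (n : ℝ) ^ (-(3 / 2) : ℝ) := by
  unfold TB
  exact tsum_of_norm_bounded c1_sum.hasSum (fun n => c1_TB_term (fun _ => 1) (fun _ => by simp) N χ n u)

/-- the weight in `v` -/
noncomputable def c1W (v : ℝ) : ℝ := ZP.Gw 1 v * (1 + |v|) ^ 2

theorem c1W_nonneg (v : ℝ) : 0 ≤ c1W v := mul_nonneg (ZP.Gw_nonneg 1 v) (by positivity)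

theorem c1W_cont : Continuous c1W := by
  unfold c1W
  exact (ZP.Gw_continuous 1).mul (by fun_prop)

theorem c1W_int : Integrable c1W := by
  unfold c1W
  refine ZP.Gw_integrable_mul 1 (C := 2) (by fun_prop) fun v => ?_
  rw [abs_of_nonneg (by positivity)]
  have h := ZP.one_add_pow_le 2 v
  have h2 : (0 : ℝ) < Real.exp (2 * |v|) := Real.exp_pos _
  push_cast at h
  linarith

/-- the inner integral -/
noncomputable def c1J (α β : ℝ) (N z : ℕ) (b : ℕ → ℂ) (σ T : ℝ) {q : ℕ}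
    (χ : DirichletCharacter ℂ q) (v : ℝ) : ℝ :=
  ∫ t in (-T)..T, (α * ‖MB (c1av v) N χ ((σ : ℂ) + t * I) * MB b z χ ((1 / 2 : ℂ) + t * I)‖ ^ 2 +
    β * ‖TB (c1av v) N χ ((3 / 2 : ℂ) + t * I) * MB b z χ ((1 / 2 : ℂ) + t * I)‖ ^ 2)

theorem c1_one {α β : ℝ} (hα : 0 ≤ α) (hβ : 0 ≤ β) (N z : ℕ) (b : ℕ → ℂ) (hb : ∀ n, ‖b n‖ ≤ 1)
    {σ T : ℝ} (hσ : 0 ≤ σ) (hT : 0 ≤ T) {q : ℕ} (χ : DirichletCharacter ℂ q) {C₁ : ℝ}
    (hC : 0 ≤ C₁) (L : ℝ → ℂ)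
    (hL : ∀ t : ℝ, |t| ≤ T → ‖L t‖ ^ 2 ≤ C₁ * ∫ v : ℝ, c1W v *
      (α * ‖MB (fun _ => 1) N χ ((σ : ℂ) + ((t + v : ℝ) : ℂ) * I)‖ ^ 2 +
        β * ‖TB (fun _ => 1) N χ ((3 / 2 : ℂ) + ((t + v : ℝ) : ℂ) * I)‖ ^ 2)) :
    Integrable (fun v => c1W v * c1J α β N z b σ T χ v) ∧
    ∫ t in (-T)..T, ‖L t * MB b z χ ((1 / 2 : ℂ) + t * I)‖ ^ 2 ≤
      C₁ * ∫ v : ℝ, c1W v * c1J α β N z b σ T χ v := by
  set A : ℝ → ℝ := fun u => ‖MB (fun _ => 1) N χ ((σ : ℂ) + (u : ℂ) * I)‖ ^ 2 with hA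
  set B : ℝ → ℝ := fun u => ‖TB (fun _ => 1) N χ ((3 / 2 : ℂ) + (u : ℂ) * I)‖ ^ 2 with hB
  set P : ℝ → ℝ := fun u => ‖MB b z χ ((1 / 2 : ℂ) + (u : ℂ) * I)‖ ^ 2 with hP
  have hAc : Continuous A := (c1_MB_cont _ N χ (σ : ℂ)).norm.pow 2
  have hBc : Continuous B := (c1_TB_cont N χ).norm.pow 2
  have hPc : Continuous P := (c1_MB_cont b z χ (1 / 2 : ℂ)).norm.pow 2
  set K : ℝ := ∑' n : ℕ, (n : ℝ) ^ (-(3 / 2) : ℝ) with hK
  have hAb : ∀ u, A u ≤ (N : ℝ) ^ 2 := fun u =>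
    pow_le_pow_left₀ (norm_nonneg _) (c1_MB_bd _ (fun _ => by simp) N χ (by simpa using hσ) u) 2
  have hBb : ∀ u, B u ≤ K ^ 2 := fun u => pow_le_pow_left₀ (norm_nonneg _) (c1_TB_bd N χ u) 2
  have hPb : ∀ u, P u ≤ (z : ℝ) ^ 2 := fun u =>
    pow_le_pow_left₀ (norm_nonneg _) (c1_MB_bd b hb z χ (by norm_num) u) 2
  have hA0 : ∀ u, 0 ≤ A u := fun u => by positivity
  have hB0 : ∀ u, 0 ≤ B u := fun u => by positivity
  have hP0 : ∀ u, 0 ≤ P u := fun u => by positivity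
  -- the function of two variables
  set Φ : ℝ → ℝ → ℝ := fun t v => c1W v * ((α * A (t + v) + β * B (t + v)) * P t) with hΦ
  have hΦ0 : ∀ t v, 0 ≤ Φ t v := fun t v => by
    have h1 := c1W_nonneg v
    have h2 := hA0 (t + v)
    have h3 := hB0 (t + v)
    have h4 := hP0 t
    positivity
  have hΦc : Continuous (Function.uncurry Φ) := by
    have h1 : Continuous fun p : ℝ × ℝ => c1W p.2 := c1W_cont.comp continuous_snd
    have h2 : Continuous fun p : ℝ × ℝ => A (p.1 + p.2) := hAc.comp (continuous_fst.add continuous_snd)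
    have h3 : Continuous fun p : ℝ × ℝ => B (p.1 + p.2) := hBc.comp (continuous_fst.add continuous_snd)
    have h4 : Continuous fun p : ℝ × ℝ => P p.1 := hPc.comp continuous_fst
    exact h1.mul (((continuous_const.mul h2).add (continuous_const.mul h3)).mul h4)
  set M : ℝ := (α * (N : ℝ) ^ 2 + β * K ^ 2) * (z : ℝ) ^ 2 with hM
  have hΦb : ∀ t v, Φ t v ≤ M * c1W v := by
    intro t v
    have h1 : α * A (t + v) + β * B (t + v) ≤ α * (N : ℝ) ^ 2 + β * K ^ 2 :=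
      add_le_add (mul_le_mul_of_nonneg_left (hAb _) hα) (mul_le_mul_of_nonneg_left (hBb _) hβ)
    have h2 : (α * A (t + v) + β * B (t + v)) * P t ≤ M :=
      mul_le_mul h1 (hPb t) (hP0 t) (by positivity)
    calc Φ t v = c1W v * ((α * A (t + v) + β * B (t + v)) * P t) := rfl
      _ ≤ c1W v * M := mul_le_mul_of_nonneg_left h2 (c1W_nonneg v)
      _ = M * c1W v := mul_comm _ _
  set nu : Measure ℝ := volume.restrict (Set.Ioc (-T) T) with hnu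
  have hfin : IsFiniteMeasure nu := by
    rw [hnu]
    infer_instance
  have hint : Integrable (Function.uncurry Φ) (nu.prod volume) := by
    have h1 : Integrable (fun p : ℝ × ℝ => M * c1W p.2) (nu.prod volume) :=
      (integrable_const M : Integrable (fun _ : ℝ => M) nu).mul_prod c1W_int
    refine h1.mono' hΦc.aestronglyMeasurable (Filter.Eventually.of_forall fun p => ?_)
    have h2 : Function.uncurry Φ p = Φ p.1 p.2 := rfl
    rw [Real.norm_eq_abs, h2, abs_of_nonneg (hΦ0 p.1 p.2)]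
    exact hΦb p.1 p.2
  have hle : -T ≤ T := by linarith
  -- the inner integral
  have hJ : ∀ v, ∫ t, Φ t v ∂nu = c1W v * c1J α β N z b σ T χ v := by
    intro v
    unfold c1J
    rw [intervalIntegral.integral_of_le hle, ← integral_const_mul]
    refine integral_congr_ae (Filter.Eventually.of_forall fun t => ?_)
    simp only [hΦ, hA, hB, hP]
    rw [c1_MB, c1_TB, norm_mul, norm_mul]
    ring
  have hJi : Integrable (fun v => c1W v * c1J α β N z b σ T χ v) := by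
    have h1 := hint.integral_prod_right
    refine h1.congr (Filter.Eventually.of_forall fun v => ?_)
    exact hJ v
  refine ⟨hJi, ?_⟩
  have hswap : ∫ t, ∫ v, Φ t v ∂volume ∂nu = ∫ v, c1W v * c1J α β N z b σ T χ v := by
    rw [integral_integral_swap hint]
    exact integral_congr_ae (Filter.Eventually.of_forall fun v => hJ v)
  rw [intervalIntegral.integral_of_le hle, ← hswap, ← integral_const_mul]
  refine integral_mono_of_nonneg (Filter.Eventually.of_forall fun t => by positivity)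
    (hint.integral_prod_left.const_mul C₁) ?_
  refine (ae_restrict_iff' measurableSet_Ioc).2 (Filter.Eventually.of_forall fun t ht => ?_)
  have ht' : |t| ≤ T := abs_le.2 ⟨ht.1.le, ht.2⟩
  have h1 := hL t ht'
  show ‖L t * MB b z χ ((1 / 2 : ℂ) + t * I)‖ ^ 2 ≤ C₁ * ∫ v, Φ t v
  have h2 : ∫ v, Φ t v = (∫ v : ℝ, c1W v * (α * A (t + v) + β * B (t + v))) * P t := by
    rw [← integral_mul_const]
    refine integral_congr_ae (Filter.Eventually.of_forall fun v => ?_)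
    simp only [hΦ]
    ring
  rw [h2, norm_mul, mul_pow, ← mul_assoc]
  exact mul_le_mul_of_nonneg_right h1 (hP0 t)

/-- the coefficients in the approximate functional equation -/
theorem c1_coef {η U r t v : ℝ} (hη : 0 < η) (hη1 : η ≤ 1 / 4) (hU : 1 ≤ U)
    (hr0 : 0 ≤ r) (hr : r * (1 + |t| + |v|) ≤ 4 * U ^ 2 * (1 + |v|)) :
    U ^ (2 * η) + U ^ (-(2 * η)) * (r * (1 + |t| + |v|)) ^ (2 * η) ≤
        5 * U ^ (2 * η) * (1 + |v|) ∧
      U ^ 2 + U⁻¹ ^ 2 * (r * (1 + |t| + |v|)) ^ 2 ≤ 17 * U ^ 2 * (1 + |v|) ^ 2 := by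
  have hU0 : 0 < U := by linarith
  have hx0 : 0 ≤ r * (1 + |t| + |v|) := by positivity
  have hv1 : 1 ≤ 1 + |v| := by
    have := abs_nonneg v
    linarith
  constructor
  · have h1 : (r * (1 + |t| + |v|)) ^ (2 * η) ≤ (4 * U ^ 2 * (1 + |v|)) ^ (2 * η) :=
      Real.rpow_le_rpow hx0 hr (by linarith)
    have h2 : (4 * U ^ 2 * (1 + |v|)) ^ (2 * η) =
        (4 * (1 + |v|)) ^ (2 * η) * (U ^ (2 * η) * U ^ (2 * η)) := by
      rw [show 4 * U ^ 2 * (1 + |v|) = (4 * (1 + |v|)) * (U * U) by ring,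
        Real.mul_rpow (by positivity) (by positivity), Real.mul_rpow hU0.le hU0.le]
    have h3 : (4 * (1 + |v|)) ^ (2 * η) ≤ 4 * (1 + |v|) := by
      calc (4 * (1 + |v|)) ^ (2 * η) ≤ (4 * (1 + |v|)) ^ (1 : ℝ) :=
            Real.rpow_le_rpow_of_exponent_le (by linarith) (by linarith)
        _ = 4 * (1 + |v|) := Real.rpow_one _
    have h4 : U ^ (-(2 * η)) * (U ^ (2 * η) * U ^ (2 * η)) = U ^ (2 * η) := by
      rw [← mul_assoc, ← Real.rpow_add hU0]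
      simp
    have h5 : 0 < U ^ (2 * η) := Real.rpow_pos_of_pos hU0 _
    calc U ^ (2 * η) + U ^ (-(2 * η)) * (r * (1 + |t| + |v|)) ^ (2 * η) ≤
          U ^ (2 * η) + U ^ (-(2 * η)) * ((4 * (1 + |v|)) * (U ^ (2 * η) * U ^ (2 * η))) := by
          have h6 : (r * (1 + |t| + |v|)) ^ (2 * η) ≤
              (4 * (1 + |v|)) * (U ^ (2 * η) * U ^ (2 * η)) := by
            refine h1.trans ?_
            rw [h2]
            exact mul_le_mul_of_nonneg_right h3 (by positivity)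
          have h7 : 0 ≤ U ^ (-(2 * η)) := (Real.rpow_pos_of_pos hU0 _).le
          linarith [mul_le_mul_of_nonneg_left h6 h7]
      _ = U ^ (2 * η) * (1 + 4 * (1 + |v|)) := by
          rw [show U ^ (-(2 * η)) * ((4 * (1 + |v|)) * (U ^ (2 * η) * U ^ (2 * η))) =
            (4 * (1 + |v|)) * (U ^ (-(2 * η)) * (U ^ (2 * η) * U ^ (2 * η))) by ring, h4]
          ring
      _ ≤ 5 * U ^ (2 * η) * (1 + |v|) := by nlinarith
  · have h1 : (r * (1 + |t| + |v|)) ^ 2 ≤ (4 * U ^ 2 * (1 + |v|)) ^ 2 :=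
      pow_le_pow_left₀ hx0 hr 2
    have h2 : U⁻¹ ^ 2 * (4 * U ^ 2 * (1 + |v|)) ^ 2 = 16 * U ^ 2 * (1 + |v|) ^ 2 := by
      field_simp
      ring
    have h3 : U⁻¹ ^ 2 * (r * (1 + |t| + |v|)) ^ 2 ≤ 16 * U ^ 2 * (1 + |v|) ^ 2 := by
      rw [← h2]
      exact mul_le_mul_of_nonneg_left h1 (by positivity)
    have h4 : U ^ 2 ≤ U ^ 2 * (1 + |v|) ^ 2 := by
      have : (1 : ℝ) ≤ (1 + |v|) ^ 2 := one_le_pow₀ hv1
      nlinarith [sq_nonneg U]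
    linarith

/-- the final estimate -/
theorem c1_num {R T z U N η ε C₂ C₃ : ℝ} (hR1 : 1 ≤ R) (hT : 1 ≤ T) (hz1 : 1 ≤ z) (hU1 : 1 ≤ U)
    (hUsq : U ^ 2 = R * T) (hNU : U ≤ N) (hN2 : N ≤ 2 * U) (hη0 : 0 < η) (hη1 : η ≤ 1 / 4)
    (hηε : η ≤ ε / 2) (hC₂ : 1 ≤ C₂) (hC₃ : 1 ≤ C₃) :
    (5 * U ^ (2 * η)) * (C₂ * (N * z) ^ η * (R ^ 2 * T + N * z)) +
      (17 * U ^ 2) * (C₃ * (N * z) ^ η * (R ^ 2 * T * N⁻¹ ^ 2 + z * N⁻¹)) ≤
      (4 * (5 * C₂) + 2 * (17 * C₃)) * (R * T * z) ^ ε * (R ^ 2 * T + z * U) := by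
  have hRT : 1 ≤ R * T := one_le_mul_of_one_le_of_one_le hR1 hT
  have hU0 : 0 < U := by linarith
  have hN0 : 0 < N := by linarith
  set Y : ℝ := R * T * z with hY
  have hY1 : 1 ≤ Y := one_le_mul_of_one_le_of_one_le hRT hz1
  have hY0 : 0 < Y := by linarith
  have hURT : U ≤ R * T := by
    rw [← hUsq]
    nlinarith
  have hNz : (N * z) ^ η ≤ 2 * Y ^ η := by
    have h1 : N * z ≤ 2 * Y := by
      calc N * z ≤ (2 * (R * T)) * z :=
            mul_le_mul_of_nonneg_right (by linarith) (by linarith)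
        _ = 2 * Y := by rw [hY]; ring
    calc (N * z) ^ η ≤ (2 * Y) ^ η := Real.rpow_le_rpow (by positivity) h1 hη0.le
      _ = 2 ^ η * Y ^ η := Real.mul_rpow (by norm_num) hY0.le
      _ ≤ 2 * Y ^ η := by
          refine mul_le_mul_of_nonneg_right ?_ (by positivity)
          calc (2 : ℝ) ^ η ≤ 2 ^ (1 : ℝ) :=
                Real.rpow_le_rpow_of_exponent_le (by norm_num) (by linarith)
            _ = 2 := Real.rpow_one 2
  have hUη : U ^ (2 * η) ≤ Y ^ η := by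
    have h1 : U ^ (2 * η) = (R * T) ^ η := by
      rw [Real.rpow_mul hU0.le, ← hUsq]
      norm_num
    rw [h1]
    refine Real.rpow_le_rpow (by linarith) ?_ hη0.le
    rw [hY]
    exact le_mul_of_one_le_right (by linarith) hz1
  set E : ℝ := R ^ 2 * T + z * U with hE
  have hE0 : 0 ≤ E := by positivity
  have hm1 : R ^ 2 * T + N * z ≤ 2 * E := by
    have h1 : N * z ≤ 2 * (z * U) := by nlinarith
    have h2 : 0 ≤ R ^ 2 * T := by positivity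
    rw [hE]
    linarith
  have hm2 : U ^ 2 * (R ^ 2 * T * N⁻¹ ^ 2 + z * N⁻¹) ≤ E := by
    have h1 : U * N⁻¹ ≤ 1 := by
      rw [← div_eq_mul_inv, div_le_one hN0]
      exact hNU
    have h1' : 0 ≤ U * N⁻¹ := by positivity
    have h2 : U ^ 2 * (R ^ 2 * T * N⁻¹ ^ 2 + z * N⁻¹) =
        R ^ 2 * T * (U * N⁻¹) ^ 2 + z * U * (U * N⁻¹) := by ring
    rw [h2, hE]
    refine add_le_add ?_ ?_
    · exact mul_le_of_le_one_right (by positivity) (pow_le_one₀ h1' h1)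
    · exact mul_le_of_le_one_right (by positivity) h1
  have hYη : 0 < Y ^ η := Real.rpow_pos_of_pos hY0 _
  have hYη1 : 1 ≤ Y ^ η := Real.one_le_rpow hY1 hη0.le
  have hYε : Y ^ η * Y ^ η ≤ Y ^ ε := by
    rw [← Real.rpow_add hY0]
    exact Real.rpow_le_rpow_of_exponent_le hY1 (by linarith)
  have h1 : (5 * U ^ (2 * η)) * (C₂ * (N * z) ^ η * (R ^ 2 * T + N * z)) ≤
      4 * (5 * C₂) * Y ^ ε * E := by
    calc (5 * U ^ (2 * η)) * (C₂ * (N * z) ^ η * (R ^ 2 * T + N * z)) ≤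
          (5 * Y ^ η) * (C₂ * (2 * Y ^ η) * (2 * E)) := by
          refine mul_le_mul ?_ ?_ (by positivity) (by positivity)
          · linarith
          · exact mul_le_mul (mul_le_mul_of_nonneg_left hNz (by linarith)) hm1 (by positivity)
              (by positivity)
      _ = 4 * (5 * C₂) * (Y ^ η * Y ^ η) * E := by ring
      _ ≤ 4 * (5 * C₂) * Y ^ ε * E := by
          refine mul_le_mul_of_nonneg_right ?_ hE0
          exact mul_le_mul_of_nonneg_left hYε (by linarith)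
  have h2 : (17 * U ^ 2) * (C₃ * (N * z) ^ η * (R ^ 2 * T * N⁻¹ ^ 2 + z * N⁻¹)) ≤
      2 * (17 * C₃) * Y ^ ε * E := by
    calc (17 * U ^ 2) * (C₃ * (N * z) ^ η * (R ^ 2 * T * N⁻¹ ^ 2 + z * N⁻¹)) =
          (17 * C₃) * (N * z) ^ η *
            (U ^ 2 * (R ^ 2 * T * N⁻¹ ^ 2 + z * N⁻¹)) := by
          ring
      _ ≤ (17 * C₃) * (2 * Y ^ η) * E := by
          refine mul_le_mul ?_ hm2 (by positivity) (by positivity)
          exact mul_le_mul_of_nonneg_left hNz (by linarith)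
      _ ≤ (17 * C₃) * (2 * Y ^ ε) * E := by
          refine mul_le_mul_of_nonneg_right ?_ hE0
          refine mul_le_mul_of_nonneg_left ?_ (by linarith)
          have : Y ^ η ≤ Y ^ ε := Real.rpow_le_rpow_of_exponent_le hY1 (by linarith)
          linarith
      _ = 2 * (17 * C₃) * Y ^ ε * E := by ring
  linarith

theorem cl_half_pr {ε : ℝ} (hε : 0 < ε) : ∃ C : ℝ, 1 ≤ C ∧ ∀ (R : ℕ) (T : ℝ), 1 ≤ R → 1 ≤ T →
    ∀ (z : ℕ) (b : ℕ → ℂ), 1 ≤ z → (∀ n, ‖b n‖ ≤ 1) →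
    SP R (fun _ χ => ∫ t in (-T)..T, ‖GA.LF χ ((1 / 2 : ℂ) + t * I) *
      MB b z χ ((1 / 2 : ℂ) + t * I)‖ ^ 2) ≤
      C * ((R : ℝ) * T * z) ^ ε * ((R : ℝ) ^ 2 * T + z * Real.sqrt (R * T)) := by
  set η : ℝ := min (ε / 2) (1 / 4) with hη
  have hη0 : 0 < η := lt_min (by linarith) (by norm_num)
  have hη1 : η ≤ 1 / 4 := min_le_right _ _
  have hηε : η ≤ ε / 2 := min_le_left _ _
  obtain ⟨C₁, hC₁, hafe⟩ := afe_chi hη0 hη1
  obtain ⟨C₂, hC₂, hmvp⟩ := mvp hη0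
  obtain ⟨C₃, hC₃, hmvt⟩ := mvp_tail hη0 hη1
  set KW : ℝ := ∫ v, c1W v with hKW
  have hKW0 : 0 ≤ KW := integral_nonneg c1W_nonneg
  refine ⟨C₁ * (KW + 1) * (4 * (5 * C₂) + 2 * (17 * C₃)), ?_, ?_⟩
  · nlinarith [mul_nonneg (by linarith : (0 : ℝ) ≤ C₁) hKW0,
      mul_le_mul hC₁ hC₂ (by norm_num) (by linarith : (0 : ℝ) ≤ C₁),
      mul_nonneg (mul_nonneg (by linarith : (0 : ℝ) ≤ C₁) hKW0) (by linarith : (0 : ℝ) ≤ C₂),
      mul_nonneg (mul_nonneg (by linarith : (0 : ℝ) ≤ C₁) hKW0) (by linarith : (0 : ℝ) ≤ C₃),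
      mul_nonneg (by linarith : (0 : ℝ) ≤ C₁) (by linarith : (0 : ℝ) ≤ C₃)]
  intro R T hR hT z b hz hb
  have hR1 : (1 : ℝ) ≤ R := by exact_mod_cast hR
  have hz1 : (1 : ℝ) ≤ z := by exact_mod_cast hz
  set U : ℝ := Real.sqrt (R * T) with hU
  have hRT : 1 ≤ (R : ℝ) * T := one_le_mul_of_one_le_of_one_le hR1 hT
  have hU1 : 1 ≤ U := by
    rw [hU, Real.one_le_sqrt]
    exact hRT
  have hU0 : 0 < U := by linarith
  have hUsq : U ^ 2 = R * T := Real.sq_sqrt (by linarith)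
  set N : ℕ := ⌈U⌉₊ with hN
  have hNU : U ≤ N := Nat.le_ceil U
  have hN2 : (N : ℝ) ≤ 2 * U := by
    have := (Nat.ceil_lt_add_one hU0.le).le
    linarith
  have hN1 : 1 ≤ N := by
    have : (1 : ℝ) ≤ N := by linarith
    exact_mod_cast this
  have hN0 : (0 : ℝ) < N := by linarith
  set α : ℝ := 5 * U ^ (2 * η) with hα
  set β : ℝ := 17 * U ^ 2 with hβ
  have hα0 : 0 ≤ α := by positivity
  have hβ0 : 0 ≤ β := by positivity
  -- one character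
  have hone : ∀ r ∈ Ico R (2 * R), ∀ χ ∈ Pr r,
      Integrable (fun v => c1W v * c1J α β N z b (1 / 2 + η) T χ v) ∧
      ∫ t in (-T)..T, ‖GA.LF χ ((1 / 2 : ℂ) + t * I) * MB b z χ ((1 / 2 : ℂ) + t * I)‖ ^ 2 ≤
        C₁ * ∫ v : ℝ, c1W v * c1J α β N z b (1 / 2 + η) T χ v := by
    intro r hr χ hχ
    have hr1 : R ≤ r := (Finset.mem_Ico.1 hr).1
    have hr2 : r < 2 * R := (Finset.mem_Ico.1 hr).2
    have hr1' : 1 ≤ r := hR.trans hr1
    have hr2' : (r : ℝ) ≤ 2 * R := by exact_mod_cast hr2.le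
    refine c1_one hα0 hβ0 N z b hb (by linarith) (by linarith) χ (by linarith)
      (fun t => GA.LF χ ((1 / 2 : ℂ) + t * I)) fun t ht => ?_
    refine (hafe r χ hr1' hχ U N t hU1 hN1).trans (mul_le_mul_of_nonneg_left ?_ (by linarith))
    have hAc : Continuous fun u : ℝ =>
        ‖MB (fun _ => 1) N χ ((((1 / 2 + η : ℝ)) : ℂ) + (u : ℂ) * I)‖ ^ 2 :=
      (c1_MB_cont _ N χ _).norm.pow 2
    have hBc : Continuous fun u : ℝ => ‖TB (fun _ => 1) N χ ((3 / 2 : ℂ) + (u : ℂ) * I)‖ ^ 2 :=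
      (c1_TB_cont N χ).norm.pow 2
    refine integral_mono_of_nonneg (Filter.Eventually.of_forall fun v => ?_) ?_
      (Filter.Eventually.of_forall fun v => ?_)
    · have := ZP.Gw_nonneg 1 v
      positivity
    · -- integrability
      set K : ℝ := ∑' n : ℕ, (n : ℝ) ^ (-(3 / 2) : ℝ) with hK
      refine (c1W_int.const_mul (α * (N : ℝ) ^ 2 + β * K ^ 2)).mono' ?_
        (Filter.Eventually.of_forall fun v => ?_)
      · refine Continuous.aestronglyMeasurable ?_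
        refine c1W_cont.mul ?_
        exact (continuous_const.mul (hAc.comp (continuous_const.add continuous_id))).add
          (continuous_const.mul (hBc.comp (continuous_const.add continuous_id)))
      · have hA := pow_le_pow_left₀ (norm_nonneg _) (c1_MB_bd (fun _ => 1) (fun _ => by simp) N χ
          (σ := (((1 / 2 + η : ℝ)) : ℂ)) (by
            rw [Complex.ofReal_re]
            linarith) (t + v)) 2
        have hB := pow_le_pow_left₀ (norm_nonneg _) (c1_TB_bd N χ (t + v)) 2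
        rw [Real.norm_eq_abs, abs_of_nonneg (mul_nonneg (c1W_nonneg v) (by positivity)), mul_comm]
        refine mul_le_mul_of_nonneg_right ?_ (c1W_nonneg v)
        exact add_le_add (mul_le_mul_of_nonneg_left hA hα0) (mul_le_mul_of_nonneg_left hB hβ0)
    · -- pointwise
      have hv0 := abs_nonneg v
      have ht0 := abs_nonneg t
      have hrb : (r : ℝ) * (1 + |t| + |v|) ≤ 4 * U ^ 2 * (1 + |v|) := by
        rw [hUsq]
        have h1 : 1 + |t| + |v| ≤ 2 * T * (1 + |v|) := by nlinarith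
        calc (r : ℝ) * (1 + |t| + |v|) ≤ (2 * R) * (2 * T * (1 + |v|)) :=
              mul_le_mul hr2' h1 (by positivity) (by positivity)
          _ = 4 * (R * T) * (1 + |v|) := by ring
      obtain ⟨h1, h2⟩ := c1_coef hη0 hη1 hU1 (by positivity) hrb
      have hG := ZP.Gw_nonneg 1 v
      have hW : c1W v * (α * ‖MB (fun _ => 1) N χ ((((1 / 2 + η : ℝ)) : ℂ) +
            ((t + v : ℝ) : ℂ) * I)‖ ^ 2 +
          β * ‖TB (fun _ => 1) N χ ((3 / 2 : ℂ) + ((t + v : ℝ) : ℂ) * I)‖ ^ 2) =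
          ZP.Gw 1 v * ((1 + |v|) ^ 2 * α * ‖MB (fun _ => 1) N χ ((((1 / 2 + η : ℝ)) : ℂ) +
            ((t + v : ℝ) : ℂ) * I)‖ ^ 2 +
          (1 + |v|) ^ 2 * β * ‖TB (fun _ => 1) N χ ((3 / 2 : ℂ) + ((t + v : ℝ) : ℂ) * I)‖ ^ 2) := by
        unfold c1W
        ring
      beta_reduce
      rw [hW]
      refine mul_le_mul_of_nonneg_left ?_ hG
      have h3 : 5 * U ^ (2 * η) * (1 + |v|) ≤ (1 + |v|) ^ 2 * α := by
        rw [hα]
        have h4 : (1 + |v|) ≤ (1 + |v|) ^ 2 := by nlinarith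
        have h5 : 0 ≤ 5 * U ^ (2 * η) := by positivity
        calc 5 * U ^ (2 * η) * (1 + |v|) ≤ 5 * U ^ (2 * η) * (1 + |v|) ^ 2 :=
              mul_le_mul_of_nonneg_left h4 h5
          _ = (1 + |v|) ^ 2 * (5 * U ^ (2 * η)) := by ring
      have h4 : 17 * U ^ 2 * (1 + |v|) ^ 2 ≤ (1 + |v|) ^ 2 * β := by
        rw [hβ]
        exact le_of_eq (by ring)
      refine add_le_add ?_ ?_
      · exact mul_le_mul_of_nonneg_right (h1.trans h3) (by positivity)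
      · exact mul_le_mul_of_nonneg_right (h2.trans h4) (by positivity)
  -- the sum over the characters
  set BB : ℝ := α * (C₂ * ((N : ℝ) * z) ^ η * ((R : ℝ) ^ 2 * T + N * z)) +
    β * (C₃ * ((N : ℝ) * z) ^ η * ((R : ℝ) ^ 2 * T * (N : ℝ)⁻¹ ^ 2 + z * (N : ℝ)⁻¹)) with hBB
  have hsum : ∀ v, SP R (fun _ χ => c1J α β N z b (1 / 2 + η) T χ v) ≤ BB := by
    intro v
    have h1 := hmvp R T hR hT N z (c1av v) b hN1 hz (c1_av_norm v) hb (1 / 2 + η) (1 / 2)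
      (by linarith) le_rfl
    have h2 := hmvt R T hR hT N z (c1av v) b hN1 hz (c1_av_norm v) hb
    have e0 : (((1 / 2 : ℝ)) : ℂ) = (1 / 2 : ℂ) := by push_cast; ring
    rw [e0] at h1
    have hsplit : SP R (fun _ χ => c1J α β N z b (1 / 2 + η) T χ v) =
        α * SP R (fun _ χ => ∫ t in (-T)..T, ‖MB (c1av v) N χ (((1 / 2 + η : ℝ) : ℂ) + t * I) *
          MB b z χ ((1 / 2 : ℂ) + t * I)‖ ^ 2) +
        β * SP R (fun _ χ => ∫ t in (-T)..T, ‖TB (c1av v) N χ ((3 / 2 : ℂ) + t * I) *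
          MB b z χ ((1 / 2 : ℂ) + t * I)‖ ^ 2) := by
      unfold SP
      rw [Finset.mul_sum, Finset.mul_sum, ← Finset.sum_add_distrib]
      refine Finset.sum_congr rfl fun r _ => ?_
      rw [Finset.mul_sum, Finset.mul_sum, ← Finset.sum_add_distrib]
      refine Finset.sum_congr rfl fun χ _ => ?_
      beta_reduce
      unfold c1J
      have hPc : Continuous fun t : ℝ => MB b z χ ((1 / 2 : ℂ) + (t : ℂ) * I) :=
        c1_MB_cont b z χ (1 / 2 : ℂ)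
      have hAc : Continuous fun t : ℝ => MB (c1av v) N χ ((((1 / 2 + η : ℝ)) : ℂ) + (t : ℂ) * I) :=
        c1_MB_cont _ N χ _
      have hBc : Continuous fun t : ℝ => TB (c1av v) N χ ((3 / 2 : ℂ) + (t : ℂ) * I) := by
        have h3 := (c1_TB_cont N χ).comp (continuous_id.add (continuous_const (y := v)))
        refine h3.congr fun t => ?_
        exact c1_TB N χ t v
      rw [intervalIntegral.integral_add, intervalIntegral.integral_const_mul,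
        intervalIntegral.integral_const_mul]
      · exact (continuous_const.mul ((hAc.mul hPc).norm.pow 2)).intervalIntegrable _ _
      · exact (continuous_const.mul ((hBc.mul hPc).norm.pow 2)).intervalIntegrable _ _
    rw [hsplit]
    exact add_le_add (mul_le_mul_of_nonneg_left h1 hα0) (mul_le_mul_of_nonneg_left h2 hβ0)
  have hBBint : Integrable fun v => c1W v * BB := c1W_int.mul_const BB
  have hmain : SP R (fun _ χ => ∫ t in (-T)..T, ‖GA.LF χ ((1 / 2 : ℂ) + t * I) *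
      MB b z χ ((1 / 2 : ℂ) + t * I)‖ ^ 2) ≤ C₁ * (KW * BB) := by
    have h1 : SP R (fun _ χ => ∫ t in (-T)..T, ‖GA.LF χ ((1 / 2 : ℂ) + t * I) *
        MB b z χ ((1 / 2 : ℂ) + t * I)‖ ^ 2) ≤
        ∑ r ∈ Ico R (2 * R), ∑ χ ∈ Pr r,
          C₁ * ∫ v : ℝ, c1W v * c1J α β N z b (1 / 2 + η) T χ v :=
      Finset.sum_le_sum fun r hr => Finset.sum_le_sum fun χ hχ => (hone r hr χ hχ).2
    have h2 : ∑ r ∈ Ico R (2 * R), ∑ χ ∈ Pr r,
          C₁ * ∫ v : ℝ, c1W v * c1J α β N z b (1 / 2 + η) T χ v =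
        C₁ * ∫ v : ℝ, c1W v * SP R (fun _ χ => c1J α β N z b (1 / 2 + η) T χ v) := by
      have h3 : ∀ r ∈ Ico R (2 * R), ∑ χ ∈ Pr r,
          C₁ * ∫ v : ℝ, c1W v * c1J α β N z b (1 / 2 + η) T χ v =
          C₁ * ∫ v : ℝ, ∑ χ ∈ Pr r, c1W v * c1J α β N z b (1 / 2 + η) T χ v := by
        intro r hr
        rw [integral_finsetSum _ fun χ hχ => (hone r hr χ hχ).1, Finset.mul_sum]
      rw [Finset.sum_congr rfl h3, ← Finset.mul_sum, ← integral_finsetSum _ fun r hr =>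
        integrable_finsetSum _ fun χ hχ => (hone r hr χ hχ).1]
      congr 1
      refine integral_congr_ae (Filter.Eventually.of_forall fun v => ?_)
      simp only [SP, Finset.mul_sum]
    rw [h2] at h1
    refine h1.trans (mul_le_mul_of_nonneg_left ?_ (by linarith))
    calc ∫ v : ℝ, c1W v * SP R (fun _ χ => c1J α β N z b (1 / 2 + η) T χ v) ≤
          ∫ v : ℝ, c1W v * BB := by
          refine integral_mono_of_nonneg (Filter.Eventually.of_forall fun v => ?_) hBBint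
            (Filter.Eventually.of_forall fun v =>
              mul_le_mul_of_nonneg_left (hsum v) (c1W_nonneg v))
          refine mul_nonneg (c1W_nonneg v) ?_
          refine Finset.sum_nonneg fun r _ => Finset.sum_nonneg fun χ _ => ?_
          unfold c1J
          exact intervalIntegral.integral_nonneg (by linarith) fun t _ => by positivity
      _ = KW * BB := by rw [integral_mul_const]
  refine hmain.trans ?_
  have hBBle : BB ≤ (4 * (5 * C₂) + 2 * (17 * C₃)) * ((R : ℝ) * T * z) ^ ε *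
      ((R : ℝ) ^ 2 * T + z * U) := by
    rw [hBB, hα, hβ]
    exact c1_num hR1 hT hz1 hU1 hUsq hNU hN2 hη0 hη1 hηε hC₂ hC₃
  set Y : ℝ := (R : ℝ) * T * z with hY
  have hY0 : 0 < Y := by positivity
  set E : ℝ := (R : ℝ) ^ 2 * T + z * U with hE
  have hE0 : 0 ≤ E := by positivity
  have hYε0 : 0 ≤ Y ^ ε := by positivity
  have hBB0 : 0 ≤ (4 * (5 * C₂) + 2 * (17 * C₃)) * Y ^ ε * E := by positivity
  calc C₁ * (KW * BB) ≤ C₁ * (KW * ((4 * (5 * C₂) + 2 * (17 * C₃)) * Y ^ ε * E)) :=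
        mul_le_mul_of_nonneg_left (mul_le_mul_of_nonneg_left hBBle hKW0) (by linarith)
    _ ≤ C₁ * ((KW + 1) * ((4 * (5 * C₂) + 2 * (17 * C₃)) * Y ^ ε * E)) :=
        mul_le_mul_of_nonneg_left (mul_le_mul_of_nonneg_right (by linarith) hBB0) (by linarith)
    _ = C₁ * (KW + 1) * (4 * (5 * C₂) + 2 * (17 * C₃)) * Y ^ ε * E := by ring

theorem cl_half : type_of% @cl_half_pr := @cl_half_pr

end Pool.Agent.XT
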