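import Pool.Agent.Lib_helper59.XT.Defs
import Pool.Agent.Lib_helper59.XTG.A
import Pool.Agent.Lib_helper50.ZP.Fourth
import Pool.Agent.Lib_helper61.FG.DivB
import Pool.Agent.Lib_helper39.LVZ.CA2

/-!
# XT, part B: mean values to the right of the critical line
-/

set_option autoImplicit false

/-! ### Block S0 -/

/-!
# XT, block S0: the smoothing inequality to the right of the critical line (helper20)
-/

namespace Pool.Agent.XT

open Finset Complex MeasureTheory Pool.Agent.Var35 Pool.Agent.Var73 Pool.Agent.HC Pool.Agent.MF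
  Pool.Agent.XS
open scoped ArithmeticFunction ArithmeticFunction.Moebius

/-! ## The pole -/

theorem s0_pole {σ c x : ℝ} (hσ : 1 / 2 < σ) (hσc : σ ≤ c) (hc : c < 1) (hx : |x| ≤ 1) (t v : ℝ) :
    ‖((σ - 1 + x : ℝ) : ℂ) + ((t + v : ℝ) : ℂ) * I‖ ≤
      ‖((σ - 1 : ℝ) : ℂ) + (t : ℂ) * I‖ * (2 / (1 - c) * (1 + |v|)) := by
  have hc1 : 0 < 1 - c := by linarith
  have e : ((σ - 1 + x : ℝ) : ℂ) + ((t + v : ℝ) : ℂ) * I =
      (((σ - 1 : ℝ) : ℂ) + (t : ℂ) * I) + ((x : ℂ) + v * I) := by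
    push_cast
    ring
  have h1 : ‖(x : ℂ) + v * I‖ ≤ 1 + |v| := by
    refine (norm_add_le _ _).trans ?_
    have h2 : ‖(x : ℂ)‖ = |x| := Complex.norm_real x
    have h3 : ‖(v : ℂ) * I‖ = |v| := by simp
    rw [h2, h3]
    linarith
  have h2 : 1 - c ≤ ‖((σ - 1 : ℝ) : ℂ) + (t : ℂ) * I‖ := by
    have h3 := Complex.abs_re_le_norm (((σ - 1 : ℝ) : ℂ) + (t : ℂ) * I)
    have e1 : (((σ - 1 : ℝ) : ℂ) + (t : ℂ) * I).re = σ - 1 := by simp
    rw [e1, abs_of_neg (by linarith)] at h3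
    linarith
  rw [e]
  refine (norm_add_le _ _).trans ?_
  set n := ‖((σ - 1 : ℝ) : ℂ) + (t : ℂ) * I‖ with hn
  have h3 := abs_nonneg v
  have h4 : 1 ≤ n / (1 - c) := by
    rw [le_div_iff₀ hc1]
    linarith
  have h5 : n ≤ n / (1 - c) := by
    rw [le_div_iff₀ hc1]
    nlinarith
  have h6 : n * (2 / (1 - c) * (1 + |v|)) = 2 * (n / (1 - c)) * (1 + |v|) := by
    field_simp
  rw [h6]
  nlinarith

theorem s0_piece {f : ℂ → ℂ} {σ c x d K t : ℝ} {s : ℝ → ℝ} (hσ : 1 / 2 < σ) (hσc : σ ≤ c)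
    (hc : c < 1) (hd : 0 < d) (hx : d ≤ |x|)
    (hx1 : |x| ≤ 1) (hs : Continuous s) (hs0 : ∀ v, 0 ≤ s v) {C : ℝ}
    (hsb : ∀ v, |s v| ≤ C * Real.exp (C * |v|)) (hK : 0 ≤ K)
    (hf : ∀ v : ℝ, ‖f (x + v * I)‖ ≤
      ‖((σ - 1 + x : ℝ) : ℂ) + ((t + v : ℝ) : ℂ) * I‖ * (K * s v)) :
    ‖∫ v : ℝ, f (x + v * I) * ZP.ker (x + v * I)‖ ≤
      ‖((σ - 1 : ℝ) : ℂ) + (t : ℂ) * I‖ * (2 / (1 - c) * Real.exp 1) *
        (K / d * ∫ v : ℝ, ZP.Gw 1 v * s v) := by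
  have hc1 : 0 < 1 - c := by linarith
  have hint := ZP.Gw_integrable_mul 1 hs hsb
  have hx2 : x ^ 2 ≤ 1 := by
    rw [← sq_abs]
    have := abs_nonneg x
    nlinarith
  have e : ‖((σ - 1 : ℝ) : ℂ) + (t : ℂ) * I‖ * (2 / (1 - c) * Real.exp 1) *
        (K / d * ∫ v : ℝ, ZP.Gw 1 v * s v) =
      ∫ v : ℝ, (‖((σ - 1 : ℝ) : ℂ) + (t : ℂ) * I‖ * (2 / (1 - c) * Real.exp 1) * (K / d)) *
        (ZP.Gw 1 v * s v) := by
    rw [integral_const_mul]
    ring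
  rw [e]
  refine norm_integral_le_of_norm_le (hint.const_mul _) (Filter.Eventually.of_forall fun v => ?_)
  rw [norm_mul]
  have h1 := ZP.norm_ker_le hd hx v
  have h2 := s0_pole hσ hσc hc hx1 t v
  have h3 : Real.exp (x ^ 2) ≤ Real.exp 1 := Real.exp_le_exp.2 hx2
  have hsv : 0 ≤ K * s v := mul_nonneg hK (hs0 v)
  have h4 : ‖ZP.ker (x + v * I)‖ ≤ Real.exp 1 * Real.exp (-v ^ 2) / d :=
    h1.trans (by gcongr)
  calc ‖f (x + v * I)‖ * ‖ZP.ker (x + v * I)‖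
      ≤ (‖((σ - 1 : ℝ) : ℂ) + (t : ℂ) * I‖ * (2 / (1 - c) * (1 + |v|)) * (K * s v)) *
        (Real.exp 1 * Real.exp (-v ^ 2) / d) := by
        refine mul_le_mul ((hf v).trans ?_) h4 (norm_nonneg _) (by positivity)
        exact mul_le_mul_of_nonneg_right h2 hsv
    _ = _ := by
        unfold ZP.Gw
        ring

/-- the smoothing inequality, abstract form -/
theorem s0_core {D : ℂ → ℂ} {E : ℝ → ℂ} {a : ℕ → ℂ} (hD : Differentiable ℂ D)
    (hG : ZP.Gr (1 / 2) (3 / 2) D) (h0 : a 0 = 0)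
    (ha : Summable fun n : ℕ => ‖a n‖ * (n : ℝ) ^ (-(3 / 2) : ℝ))
    (hright : ∀ u : ℝ, D (3 / 2 + u * I) = (1 / 2 + u * I) *
      ZP.Sm (fun n => a n * (((n : ℝ) ^ (-(3 / 2) : ℝ) : ℝ) : ℂ)) u)
    (hleft : ∀ u : ℝ, D (1 / 2 + u * I) = (-1 / 2 + u * I) * E u) (hE : Continuous E) {CE : ℝ}
    (hEb : ∀ u, ‖E u‖ ≤ CE * Real.exp (CE * |u|))
    {c σ η T : ℝ} (hσ : 1 / 2 < σ) (hσc : σ ≤ c) (hc : c < 1) (hη : 0 < η) (hη1 : η ≤ 1 / 4)
    (hT : 1 ≤ T) (N : ℕ) (t : ℝ) :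
    2 * Real.pi * ‖D (σ + t * I)‖ ≤ ‖((σ - 1 : ℝ) : ℂ) + (t : ℂ) * I‖ *
        (2 / (1 - c) * Real.exp 1) *
      (T ^ η / η * (∫ v, ZP.Gw 1 v * ‖ZP.Sm (ZP.headS a N (σ + η)) (t + v)‖) +
       2 * T ^ (3 / 2 - σ) * (∫ v, ZP.Gw 1 v * ‖ZP.Sm (ZP.tailS a N) (t + v)‖) +
       T ^ (1 / 2 - σ) / (σ - 1 / 2) * (∫ v, ZP.Gw 1 v * ‖E (t + v)‖)) := by
  have hT0 : 0 < T := by linarith
  have hTc : (T : ℂ) ≠ 0 := by exact_mod_cast hT0.ne'
  set z₀ : ℂ := σ + t * I with hz₀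
  have hz₀re : z₀.re = σ := by simp [hz₀]
  have hz₀im : z₀.im = t := by simp [hz₀]
  set A : ℝ := σ - 1 / 2 with hA
  set B : ℝ := 3 / 2 - σ with hB
  have hA0 : 0 < A := by rw [hA]; linarith
  have hAB : A ≤ B := by rw [hA, hB]; linarith
  have hB0 : 1 / 2 ≤ B := by rw [hB]; linarith
  have hB1 : B ≤ 1 := by rw [hB]; linarith
  set F : ℂ → ℂ := fun w => D (z₀ + w) * (T : ℂ) ^ w with hF
  have hFd : Differentiable ℂ F := by
    intro w
    refine DifferentiableAt.mul ?_ ?_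
    · exact (hD _).comp w (f := fun w => z₀ + w) (by fun_prop)
    · exact DifferentiableAt.const_cpow (by fun_prop) (Or.inl hTc)
  have hFg : ZP.Gr (-A) B F := by
    refine ZP.Gr.mul (ZP.Gr.comp_add z₀ ?_) (ZP.Gr.rpow hT0)
    rw [hz₀re]
    exact hG.mono (by rw [hA]; linarith) (by rw [hB]; linarith)
  have hlinec : ∀ (f : ℂ → ℂ) (x : ℝ), (∀ w : ℂ, w.re = x → DifferentiableAt ℂ f w) →
      Continuous fun v : ℝ => f (x + v * I) := by
    intro f x hf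
    rw [continuous_iff_continuousAt]
    intro v
    exact ContinuousAt.comp (f := fun v : ℝ => (x : ℂ) + v * I)
      (hf _ (by simp)).continuousAt (by fun_prop)
  have hres : 2 * Real.pi * F 0 = (∫ v : ℝ, F (A + v * I) * ZP.ker (A + v * I)) -
      ∫ v : ℝ, F (((-A : ℝ) : ℂ) + v * I) * ZP.ker (((-A : ℝ) : ℂ) + v * I) := by
    obtain ⟨C, hC, h⟩ := hFg
    exact ZP.residue_formula (a := A) (C := C) hA0 hFd (fun w hw =>
      h w (abs_le.1 hw).1 ((abs_le.1 hw).2.trans hAB))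
  have hshift : (∫ v : ℝ, F (A + v * I) * ZP.ker (A + v * I)) =
      ∫ v : ℝ, F (B + v * I) * ZP.ker (B + v * I) :=
    ZP.shift_ker hAB (Or.inl hA0) (fun z _ _ => hFd z) (hFg.mono (by linarith) le_rfl)
  have hF0 : F 0 = D z₀ := by simp [hF]
  rw [hF0, hshift] at hres
  have hpole : ∀ α β : ℝ, ZP.Gr α β fun w => (z₀ + w - 1) := by
    intro α β
    refine ((ZP.Gr.const (a := α) (b := β) (z₀ - 1)).add ZP.Gr.id).congr ?_
    intro w
    ring
  -- the right line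
  set HR : ℂ → ℂ := fun w => (z₀ + w - 1) *
    (∑ n ∈ Finset.Icc 1 N, a n * (n : ℂ) ^ (-(z₀ + w))) * (T : ℂ) ^ w with hHR
  set TR : ℂ → ℂ := fun w => (z₀ + w - 1) * ZP.Sm (ZP.tailS a N) (t + w.im) * (T : ℂ) ^ w with hTR
  have hHRd : ∀ w, DifferentiableAt ℂ HR w := by
    intro w
    refine (DifferentiableAt.mul (by fun_prop) ?_).mul ?_
    · refine DifferentiableAt.fun_sum fun n hn => ?_
      refine DifferentiableAt.const_mul ?_ _
      refine DifferentiableAt.const_cpow (by fun_prop) (Or.inl ?_)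
      have := (Finset.mem_Icc.1 hn).1
      exact_mod_cast (by omega : n ≠ 0)
    · exact DifferentiableAt.const_cpow (by fun_prop) (Or.inl hTc)
  have hHRg : ZP.Gr η B HR := by
    refine ((hpole _ _).mul ?_).mul (ZP.Gr.rpow hT0)
    have : ∀ w, ∑ n ∈ Finset.Icc 1 N, a n * (n : ℂ) ^ (-(z₀ + w)) =
        ∑ n ∈ Finset.Icc 1 N, (fun n w => if 1 ≤ n then a n * (n : ℂ) ^ (-(z₀ + w)) else 0) n w := by
      intro w
      refine Finset.sum_congr rfl fun n hn => ?_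
      simp only [if_pos (Finset.mem_Icc.1 hn).1]
    refine ZP.Gr.congr ?_ fun w => (this w).symm
    refine ZP.Gr.sum _ fun n => ?_
    by_cases hn : 1 ≤ n
    · simp only [if_pos hn]
      refine (ZP.Gr.const _).mul ?_
      have h1 : (0 : ℝ) < n := by exact_mod_cast hn
      refine ZP.Gr.congr (ZP.Gr.cpow_of (c := n) (K := σ + (|η| + |B|)) h1 (g := fun w => -(z₀ + w))
        fun w h2 h3 => ?_) fun w => by simp
      rw [neg_re, add_re, abs_neg, hz₀re]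
      refine (abs_add_le _ _).trans ?_
      rw [abs_of_pos (by linarith : (0 : ℝ) < σ)]
      exact add_le_add le_rfl (ZP.abs_re_le h2 h3)
    · simp only [if_neg hn]
      exact ZP.Gr.const 0
  have hHR1 : ∀ x v : ℝ, HR (x + v * I) =
      (((σ - 1 + x : ℝ) : ℂ) + ((t + v : ℝ) : ℂ) * I) *
        ZP.Sm (ZP.headS a N (σ + x)) (t + v) * (T : ℂ) ^ ((x : ℂ) + v * I) := by
    intro x v
    simp only [hHR, hz₀]
    rw [ZP.Sm_head]
    congr 2
    · push_cast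
      ring
    · refine Finset.sum_congr rfl fun n _ => ?_
      congr 2
      push_cast
      ring
  have hTR1 : ∀ x v : ℝ, TR (x + v * I) =
      (((σ - 1 + x : ℝ) : ℂ) + ((t + v : ℝ) : ℂ) * I) *
        ZP.Sm (ZP.tailS a N) (t + v) * (T : ℂ) ^ ((x : ℂ) + v * I) := by
    intro x v
    simp only [hTR, hz₀]
    congr 2
    · push_cast
      ring
    · simp
  have hF1 : ∀ v : ℝ, F (B + v * I) = HR (B + v * I) + TR (B + v * I) := by
    intro v
    rw [hHR1 B v, hTR1 B v]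
    have h3 := hright (t + v)
    rw [ZP.Sm_split h0 ha N] at h3
    simp only [hF]
    have e1 : z₀ + (B + v * I) = 3 / 2 + ((t + v : ℝ) : ℂ) * I := by
      rw [hz₀, hB]; push_cast; ring
    have e2 : ((σ - 1 + B : ℝ) : ℂ) + ((t + v : ℝ) : ℂ) * I =
        1 / 2 + ((t + v : ℝ) : ℂ) * I := by
      rw [hB]; push_cast; ring
    have e3 : (σ + B : ℝ) = 3 / 2 := by rw [hB]; ring
    rw [e1, h3, e2, e3]
    ring
  have hBne : B ≠ 0 := by linarith
  have iF1 : Integrable fun v : ℝ => F (B + v * I) * ZP.ker (B + v * I) :=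
    ZP.ker_integrable hFg (x := B) (by linarith) le_rfl hBne (hlinec F B fun w _ => hFd w)
  have iHR : ∀ x : ℝ, η ≤ x → x ≤ B → Integrable fun v : ℝ => HR (x + v * I) *
      ZP.ker (x + v * I) :=
    fun x h1 h2 => ZP.ker_integrable hHRg h1 h2 (by linarith) (hlinec HR x fun w _ => hHRd w)
  have iHR1 : Integrable fun v : ℝ => HR (B + v * I) * ZP.ker (B + v * I) :=
    iHR B (by linarith) le_rfl
  have iTR : Integrable fun v : ℝ => TR (B + v * I) * ZP.ker (B + v * I) := by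
    refine (iF1.sub iHR1).congr (Filter.Eventually.of_forall fun v => ?_)
    simp only [Pi.sub_apply]
    rw [hF1]
    ring
  have hR : ∫ v : ℝ, F (B + v * I) * ZP.ker (B + v * I) =
      (∫ v : ℝ, HR (η + v * I) * ZP.ker (η + v * I)) +
        ∫ v : ℝ, TR (B + v * I) * ZP.ker (B + v * I) := by
    have h1 := ZP.shift_ker (f := HR) (a := η) (b := B) (by linarith) (Or.inl hη)
      (fun z _ _ => hHRd z) hHRg
    rw [h1, ← integral_add iHR1 iTR]
    refine integral_congr_ae (Filter.Eventually.of_forall fun v => ?_)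
    simp only
    rw [hF1]
    ring
  rw [hR] at hres
  -- continuity and growth of the three functions
  have c1 : Continuous fun v : ℝ => ‖ZP.Sm (ZP.headS a N (σ + η)) (t + v)‖ :=
    ((ZP.Sm_continuous (ZP.headS_summable a N (σ + η))).comp (by fun_prop)).norm
  have c2 : Continuous fun v : ℝ => ‖ZP.Sm (ZP.tailS a N) (t + v)‖ :=
    ((ZP.Sm_continuous (ZP.tailS_summable ha N)).comp (by fun_prop)).norm
  have c3 : Continuous fun v : ℝ => ‖E (t + v)‖ := (hE.comp (by fun_prop)).norm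
  have bexp : ∀ (g : ℝ → ℝ) (M : ℝ), (∀ v, |g v| ≤ M) →
      ∀ v, |g v| ≤ M * Real.exp (M * |v|) := by
    intro g M h v
    have h1 := h v
    have hM : 0 ≤ M := (abs_nonneg _).trans h1
    have h2 : (1 : ℝ) ≤ Real.exp (M * |v|) := Real.one_le_exp (by positivity)
    nlinarith
  have b1 := bexp (fun v : ℝ => ‖ZP.Sm (ZP.headS a N (σ + η)) (t + v)‖)
    (∑' n, ‖ZP.headS a N (σ + η) n‖) (fun v => by
      rw [abs_norm]
      exact ZP.norm_Sm_le (ZP.headS_summable a N (σ + η)) _)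
  have b2 := bexp (fun v : ℝ => ‖ZP.Sm (ZP.tailS a N) (t + v)‖)
    (∑' n, ‖ZP.tailS a N n‖) (fun v => by
      rw [abs_norm]
      exact ZP.norm_Sm_le (ZP.tailS_summable ha N) _)
  have hCE : 0 ≤ CE := by
    have := (norm_nonneg _).trans (hEb 0)
    simpa using this
  have b3 : ∀ v : ℝ, |‖E (t + v)‖| ≤ (CE * Real.exp (CE * |t|)) *
      Real.exp ((CE * Real.exp (CE * |t|)) * |v|) := by
    intro v
    rw [abs_norm]
    refine (hEb _).trans ?_
    rw [mul_assoc]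
    refine mul_le_mul_of_nonneg_left ?_ hCE
    rw [← Real.exp_add]
    apply Real.exp_le_exp.2
    have h1 : |t + v| ≤ |t| + |v| := abs_add_le _ _
    have h2 : (1 : ℝ) ≤ Real.exp (CE * |t|) := Real.one_le_exp (by positivity)
    have h3 : CE * |v| ≤ CE * Real.exp (CE * |t|) * |v| := by
      refine mul_le_mul_of_nonneg_right ?_ (abs_nonneg v)
      nlinarith
    calc CE * |t + v| ≤ CE * (|t| + |v|) := mul_le_mul_of_nonneg_left h1 hCE
      _ = CE * |t| + CE * |v| := by ring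
      _ ≤ _ := by linarith
  -- the three pieces
  have p1 := s0_piece (f := HR) (σ := σ) (c := c) (x := η) (d := η) (K := T ^ η) (t := t)
    (s := fun v => ‖ZP.Sm (ZP.headS a N (σ + η)) (t + v)‖) hσ hσc hc hη (le_abs_self _)
    (by rw [abs_of_pos hη]; linarith) c1 (fun v => norm_nonneg _) b1 (by positivity)
    (fun v => by
      rw [hHR1, norm_mul, norm_mul, ZP.cpow_line hT0, mul_assoc]
      exact le_of_eq (by ring))
  have p2 := s0_piece (f := TR) (σ := σ) (c := c) (x := B) (d := 1 / 2) (K := T ^ B) (t := t)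
    (s := fun v => ‖ZP.Sm (ZP.tailS a N) (t + v)‖) hσ hσc hc (by norm_num)
    (by rw [abs_of_pos (by linarith)]; exact hB0)
    (by rw [abs_of_pos (by linarith)]; exact hB1) c2 (fun v => norm_nonneg _) b2 (by positivity)
    (fun v => by
      rw [hTR1, norm_mul, norm_mul, ZP.cpow_line hT0, mul_assoc]
      exact le_of_eq (by ring))
  have p3 := s0_piece (f := F) (σ := σ) (c := c) (x := -A) (d := A) (K := T ^ (-A)) (t := t)
    (s := fun v => ‖E (t + v)‖) hσ hσc hc hA0 (by rw [abs_neg, abs_of_pos hA0])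
    (by rw [abs_neg, abs_of_pos hA0, hA]; linarith) c3 (fun v => norm_nonneg _) b3 (by positivity)
    (fun v => by
      have e1 : z₀ + (((-A : ℝ) : ℂ) + v * I) = 1 / 2 + ((t + v : ℝ) : ℂ) * I := by
        rw [hz₀, hA]; push_cast; ring
      have e2 : ((σ - 1 + -A : ℝ) : ℂ) + ((t + v : ℝ) : ℂ) * I =
          -1 / 2 + ((t + v : ℝ) : ℂ) * I := by
        rw [hA]; push_cast; ring
      simp only [hF]
      rw [e1, hleft, e2, norm_mul, norm_mul, ZP.cpow_line hT0, mul_assoc]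
      exact le_of_eq (by ring))
  have hpi : 0 < Real.pi := Real.pi_pos
  have hn : 2 * Real.pi * ‖D z₀‖ = ‖2 * (Real.pi : ℂ) * D z₀‖ := by
    rw [norm_mul, norm_mul, Complex.norm_real, Real.norm_of_nonneg hpi.le]
    simp
  rw [hn, hres]
  refine (norm_sub_le _ _).trans ?_
  refine (add_le_add (norm_add_le _ _) le_rfl).trans ?_
  refine (add_le_add (add_le_add p1 p2) p3).trans (le_of_eq ?_)
  have e5 : T ^ (-A) = T ^ (1 / 2 - σ) := by
    congr 1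
    rw [hA]
    ring
  rw [e5]
  ring

/-! ## The L-functions -/

section char

variable {r : ℕ} [NeZero r]

theorem s0_LF (χ : DirichletCharacter ℂ r) (s : ℂ) : GA.LF χ s = χ.LFunction s := by
  unfold GA.LF
  rw [dif_neg (NeZero.ne r)]

omit [NeZero r] in
theorem s0_chi_le (χ : DirichletCharacter ℂ r) (n : ℕ) : ‖χ (n : ZMod r)‖ ≤ 1 :=
  DirichletCharacter.norm_le_one χ _

/-- the coefficients -/
noncomputable def s0_a (b : ℕ → ℂ) (z : ℕ) (k : ℂ) (χ : DirichletCharacter ℂ r) (n : ℕ) : ℂ :=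
  bz b z k n * χ (n : ZMod r)

theorem s0_bz_bound (b : ℕ → ℂ) (z : ℕ) (k : ℂ) (n : ℕ) :
    ‖bz b z k n‖ ≤ ∑ d ∈ Finset.Icc 1 z, ‖b d‖ + ‖k‖ := by
  unfold bz
  refine (norm_sub_le _ _).trans (add_le_add ?_ ?_)
  · refine (norm_sum_le _ _).trans ?_
    refine Finset.sum_le_sum_of_subset_of_nonneg ?_ (fun _ _ _ => norm_nonneg _)
    intro d hd
    rw [Finset.mem_filter] at hd
    rw [Finset.mem_Icc]
    exact ⟨Nat.pos_of_mem_divisors hd.1, hd.2⟩
  · split_ifs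
    · exact le_rfl
    · rw [norm_zero]; exact norm_nonneg _

omit [NeZero r] in
theorem s0_a_bound (b : ℕ → ℂ) (z : ℕ) (k : ℂ) (χ : DirichletCharacter ℂ r) (n : ℕ) :
    ‖s0_a b z k χ n‖ ≤ ∑ d ∈ Finset.Icc 1 z, ‖b d‖ + ‖k‖ := by
  unfold s0_a
  rw [norm_mul]
  have h1 := s0_bz_bound b z k n
  have h2 := s0_chi_le χ n
  calc ‖bz b z k n‖ * ‖χ (n : ZMod r)‖ ≤ ‖bz b z k n‖ * 1 :=
        mul_le_mul_of_nonneg_left h2 (norm_nonneg _)
    _ ≤ _ := by rw [mul_one]; exact h1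

omit [NeZero r] in
theorem s0_a_zero (b : ℕ → ℂ) (z : ℕ) (k : ℂ) (χ : DirichletCharacter ℂ r) :
    s0_a b z k χ 0 = 0 := by
  unfold s0_a bz
  simp

omit [NeZero r] in
theorem s0_a_summable (b : ℕ → ℂ) (z : ℕ) (k : ℂ) (χ : DirichletCharacter ℂ r) :
    Summable fun n : ℕ => ‖s0_a b z k χ n‖ * (n : ℝ) ^ (-(3 / 2) : ℝ) := by
  have h1 : Summable fun n : ℕ => (n : ℝ) ^ (-(3 / 2) : ℝ) :=
    Real.summable_nat_rpow.2 (by norm_num)
  refine (h1.mul_left (∑ d ∈ Finset.Icc 1 z, ‖b d‖ + ‖k‖)).of_nonneg_of_le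
    (fun n => by positivity) fun n => ?_
  exact mul_le_mul_of_nonneg_right (s0_a_bound b z k χ n) (by positivity)

omit [NeZero r] in
theorem s0_MB_diff (b : ℕ → ℂ) (z : ℕ) (χ : DirichletCharacter ℂ r) :
    Differentiable ℂ (MB b z χ) := by
  intro s
  unfold MB
  refine DifferentiableAt.fun_sum fun n hn => ?_
  refine DifferentiableAt.const_mul ?_ _
  refine DifferentiableAt.const_cpow (by fun_prop) (Or.inl ?_)
  have := (Finset.mem_Icc.1 hn).1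
  exact_mod_cast (by omega : n ≠ 0)

omit [NeZero r] in
theorem s0_MB_growth (b : ℕ → ℂ) (z : ℕ) (χ : DirichletCharacter ℂ r) :
    ZP.Gr (1 / 2) (3 / 2) (MB b z χ) := by
  refine ZP.Gr.of_le (C := ∑ d ∈ Finset.Icc 1 z, ‖b d‖) (K := 0) fun w h1 h2 => ?_
  rw [zero_mul, Real.exp_zero, mul_one]
  unfold MB
  refine (norm_sum_le _ _).trans (Finset.sum_le_sum fun n hn => ?_)
  have hn1 : (1 : ℝ) ≤ n := by exact_mod_cast (Finset.mem_Icc.1 hn).1
  rw [norm_mul, norm_mul]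
  have h3 : ‖(n : ℂ) ^ (-w)‖ ≤ 1 := by
    rw [Complex.norm_natCast_cpow_of_pos (by exact_mod_cast (Finset.mem_Icc.1 hn).1), neg_re]
    exact Real.rpow_le_one_of_one_le_of_nonpos hn1 (by linarith)
  have h4 := s0_chi_le χ n
  calc ‖b n‖ * ‖χ (n : ZMod r)‖ * ‖(n : ℂ) ^ (-w)‖ ≤ ‖b n‖ * 1 * 1 := by gcongr
    _ = ‖b n‖ := by ring

omit [NeZero r] in
theorem s0_par (χ : DirichletCharacter ℂ r) : ∃ κ : ℕ, ZP.Par κ (fun j => χ j) := by
  rcases χ.even_or_odd with h | h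
  · exact ⟨0, Or.inl ⟨rfl, h.to_fun⟩⟩
  · exact ⟨1, Or.inr ⟨rfl, h.to_fun⟩⟩

/-- the Dirichlet series of `L M - k` -/
theorem s0_series (b : ℕ → ℂ) (z : ℕ) (k : ℂ) (χ : DirichletCharacter ℂ r) {s : ℂ}
    (hs : 1 < s.re) : χ.LFunction s * MB b z χ s - k = LSeries (s0_a b z k χ) s := by
  set f : ℕ → ℂ := fun n => if n ∈ Finset.Icc 1 z then b n * χ (n : ZMod r) else 0 with hf
  set g : ℕ → ℂ := fun n => χ (n : ZMod r) with hg
  have hfs : LSeriesSummable f s := by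
    refine summable_of_ne_finset_zero (s := Finset.Icc 1 z) fun n hn => ?_
    have h1 : f n = 0 := by rw [hf]; simp only [if_neg hn]
    rw [LSeries.term_def]
    split_ifs
    · rfl
    · rw [h1, zero_div]
  have hgs : LSeriesSummable g s := DirichletCharacter.LSeriesSummable_of_one_lt_re χ hs
  have hfv : LSeries f s = MB b z χ s := by
    unfold LSeries MB
    rw [tsum_eq_sum (s := Finset.Icc 1 z)]
    · refine Finset.sum_congr rfl fun n hn => ?_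
      have hn0 : n ≠ 0 := by
        have := (Finset.mem_Icc.1 hn).1
        omega
      rw [LSeries.term_of_ne_zero hn0, hf]
      simp only [if_pos hn]
      rw [Complex.cpow_neg, div_eq_mul_inv]
    · intro n hn
      have h1 : f n = 0 := by rw [hf]; simp only [if_neg hn]
      rw [LSeries.term_def]
      split_ifs
      · rfl
      · rw [h1, zero_div]
  have hgv : LSeries g s = χ.LFunction s := (DirichletCharacter.LFunction_eq_LSeries χ hs).symm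
  have hc := LSeries_convolution' hfs hgs
  have hcs := LSeriesSummable.convolution hfs hgs
  have hd : LSeries LSeries.delta s = 1 := by rw [LSeries_delta]; rfl
  have hds : LSeriesSummable LSeries.delta s := by
    refine summable_of_ne_finset_zero (s := {1}) fun n hn => ?_
    rw [LSeries.term_def]
    split_ifs
    · rfl
    · rw [LSeries.delta, if_neg (by simpa using hn), zero_div]
  have hkds : LSeriesSummable (k • LSeries.delta) s := hds.smul k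
  have e1 : LSeries (LSeries.convolution f g - k • LSeries.delta) s =
      χ.LFunction s * MB b z χ s - k := by
    rw [LSeries_sub hcs hkds, LSeries_smul, hc, hd, hfv, hgv]
    ring
  rw [← e1]
  refine (LSeries_congr (fun {n} hn => ?_) s).symm
  show s0_a b z k χ n = LSeries.convolution f g n - k • LSeries.delta n
  rw [LSeries.convolution_def]
  simp only
  rw [Nat.sum_divisorsAntidiagonal (fun i j => f i * g j)]
  have e2 : ∑ i ∈ n.divisors, f i * g (n / i) =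
      (∑ i ∈ n.divisors.filter (fun d => d ≤ z), b i) * χ (n : ZMod r) := by
    rw [Finset.sum_filter, Finset.sum_mul]
    refine Finset.sum_congr rfl fun i hi => ?_
    have hi1 := Nat.pos_of_mem_divisors hi
    have hdvd := Nat.dvd_of_mem_divisors hi
    by_cases hiz : i ≤ z
    · rw [if_pos hiz, hf, hg]
      simp only [if_pos (Finset.mem_Icc.2 ⟨hi1, hiz⟩)]
      rw [mul_assoc, ← map_mul, ← Nat.cast_mul, Nat.mul_div_cancel' hdvd]
    · rw [if_neg hiz, hf]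
      simp only [if_neg (fun h => hiz (Finset.mem_Icc.1 h).2), zero_mul]
  rw [e2]
  unfold s0_a bz
  by_cases h1 : n = 1
  · subst h1
    simp [LSeries.delta]
  · simp [LSeries.delta, h1]

omit [NeZero r] in
theorem s0_MB_head (a : ℕ → ℂ) (N : ℕ) (χ : DirichletCharacter ℂ r) (σ u : ℝ) :
    MB a N χ ((σ : ℂ) + (u : ℂ) * I) = ZP.Sm (ZP.headS (fun n => a n * χ (n : ZMod r)) N σ) u := by
  rw [ZP.Sm_head]
  rfl

omit [NeZero r] in
theorem s0_TB_tail (a : ℕ → ℂ) (N : ℕ) (χ : DirichletCharacter ℂ r) (u : ℝ) :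
    TB a N χ ((3 / 2 : ℂ) + (u : ℂ) * I) =
      ZP.Sm (ZP.tailS (fun n => a n * χ (n : ZMod r)) N) u := by
  unfold TB ZP.Sm ZP.tailS
  refine tsum_congr fun n => ?_
  by_cases hn : n ≤ N
  · rw [if_pos hn, if_pos hn, zero_mul]
  · rw [if_neg hn, if_neg hn]
    have h1 := ZP.cpow_eq_en (n := n) (by omega) (3 / 2) u
    have e : (-((3 / 2 : ℂ) + (u : ℂ) * I)) = -(((3 / 2 : ℝ) : ℂ) + u * I) := by
      push_cast; ring
    rw [e, h1]
    ring

end char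

theorem s0_sq3 (a b c : ℝ) : (a + b + c) ^ 2 ≤ 3 * (a ^ 2 + b ^ 2 + c ^ 2) := by
  nlinarith [sq_nonneg (a - b), sq_nonneg (b - c), sq_nonneg (a - c)]

theorem smg_pr {c : ℝ} (hc : c < 1) : ∃ C : ℝ, 1 ≤ C ∧
    ∀ (r : ℕ) (χ : DirichletCharacter ℂ r), 1 ≤ r → χ ∈ Pr r →
    ∀ (z : ℕ) (b : ℕ → ℂ) (k : ℂ) (σ η : ℝ), 1 / 2 < σ → σ ≤ c → 0 < η → η ≤ 1 / 4 →
    ∀ (U : ℕ) (t : ℝ), 1 ≤ U →
    ‖GA.LF χ ((σ : ℂ) + t * I) * MB b z χ ((σ : ℂ) + t * I) - k‖ ^ 2 ≤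
      C * ∫ v : ℝ, ZP.Gw 1 v *
      (((U : ℝ) ^ η / η) ^ 2 *
          ‖MB (bz b z k) U χ (((σ + η : ℝ) : ℂ) + ((t + v : ℝ) : ℂ) * I)‖ ^ 2 +
        (U : ℝ) ^ (3 - 2 * σ) *
          ‖TB (bz b z k) U χ ((3 / 2 : ℂ) + ((t + v : ℝ) : ℂ) * I)‖ ^ 2 +
        ((U : ℝ) ^ (1 / 2 - σ) / (σ - 1 / 2)) ^ 2 *
          ‖GA.LF χ ((1 / 2 : ℂ) + ((t + v : ℝ) : ℂ) * I) *
            MB b z χ ((1 / 2 : ℂ) + ((t + v : ℝ) : ℂ) * I) - k‖ ^ 2) := by
  have hc1 : 0 < 1 - c := by linarith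
  have hW := ZP.Wt_pos 1
  have hpi := Real.pi_pos
  set K : ℝ := 2 / (1 - c) * Real.exp 1 / (2 * Real.pi) with hK
  have hK0 : 0 < K := by positivity
  refine ⟨max 1 (12 * K ^ 2 * ZP.Wt 1), le_max_left _ _, ?_⟩
  intro r χ hr _ z b k σ η hσ hσc hη hη1 U t hU
  have : NeZero r := ⟨by omega⟩
  have hU1 : (1 : ℝ) ≤ U := by exact_mod_cast hU
  have hU0 : (0 : ℝ) < U := by linarith
  set a : ℕ → ℂ := s0_a b z k χ with ha
  set D : ℂ → ℂ := fun s => ZP.Lp1 (fun j => χ j) s * MB b z χ s - k * (s - 1) with hD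
  set E : ℝ → ℂ := fun u => GA.LF χ ((1 / 2 : ℂ) + (u : ℂ) * I) *
    MB b z χ ((1 / 2 : ℂ) + (u : ℂ) * I) - k with hE
  have hDv : ∀ s : ℂ, s ≠ 1 → D s = (s - 1) * (GA.LF χ s * MB b z χ s - k) := by
    intro s hs
    simp only [hD]
    rw [ZP.Lp1_of_ne _ hs, s0_LF]
    show (s - 1) * χ.LFunction s * MB b z χ s - k * (s - 1) = _
    ring
  have hDd : Differentiable ℂ D :=
    ((ZP.Lp1_diff _).mul (s0_MB_diff b z χ)).sub (by fun_prop)
  obtain ⟨κ, hκ⟩ := s0_par χ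
  have hDg : ZP.Gr (1 / 2) (3 / 2) D := by
    have h1 : ZP.Gr (1 / 2) (3 / 2) (ZP.Lp1 (fun j => χ j)) :=
      (ZP.Lp1_growth hκ).mono (by norm_num) le_rfl
    have h2 := h1.mul (s0_MB_growth b z χ)
    have h3 : ZP.Gr (1 / 2) (3 / 2) fun w => (-k) * (w + (-1)) :=
      (ZP.Gr.const (-k)).mul (ZP.Gr.id.add (ZP.Gr.const (-1)))
    refine (h2.add h3).congr fun w => ?_
    simp only [hD]
    ring
  have hright : ∀ u : ℝ, D (3 / 2 + u * I) = (1 / 2 + u * I) *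
      ZP.Sm (fun n => a n * (((n : ℝ) ^ (-(3 / 2) : ℝ) : ℝ) : ℂ)) u := by
    intro u
    have hne : (3 / 2 + (u : ℂ) * I) ≠ 1 := by
      intro h1
      have := congrArg Complex.re h1
      simp at this
      norm_num at this
    rw [hDv _ hne, s0_LF, s0_series b z k χ (by simp; norm_num),
      ZP.LSeries_eq_Sm (s0_a_zero b z k χ)]
    congr 1
    ring
  have hleft : ∀ u : ℝ, D (1 / 2 + u * I) = (-1 / 2 + u * I) * E u := by
    intro u
    rw [hDv _ (ZP.half_ne u)]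
    simp only [hE]
    congr 1
    ring
  have hEc : Continuous E := by
    have h1 : Continuous fun u : ℝ => GA.LF χ ((1 / 2 : ℂ) + (u : ℂ) * I) := by
      have h2 := ZP.LFunction_half_cont (fun j => χ j)
      refine h2.congr fun u => ?_
      rw [s0_LF]
      rfl
    have h3 : Continuous fun u : ℝ => MB b z χ ((1 / 2 : ℂ) + (u : ℂ) * I) :=
      (s0_MB_diff b z χ).continuous.comp (by fun_prop)
    exact (h1.mul h3).sub continuous_const
  obtain ⟨CD, hCD, hDb⟩ := hDg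
  have hEb : ∀ u : ℝ, ‖E u‖ ≤ (2 * CD) * Real.exp ((2 * CD) * |u|) := by
    intro u
    have h1 := hDb (1 / 2 + u * I) (by simp) (by simp; norm_num)
    rw [hleft, norm_mul] at h1
    have h2 : (1 / 2 : ℝ) ≤ ‖(-1 / 2 + (u : ℂ) * I)‖ := by
      have h3 := Complex.abs_re_le_norm (-1 / 2 + (u : ℂ) * I)
      have e1 : (-1 / 2 + (u : ℂ) * I).re = -1 / 2 := by simp
      rw [e1, abs_of_neg (by norm_num)] at h3
      linarith
    have h4 : (1 / 2 + (u : ℂ) * I).im = u := by simp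
    rw [h4] at h1
    have h5 : Real.exp (CD * |u|) ≤ Real.exp (2 * CD * |u|) := by
      apply Real.exp_le_exp.2
      have := abs_nonneg u
      nlinarith
    have h6 : 1 / 2 * ‖E u‖ ≤ CD * Real.exp (CD * |u|) :=
      (mul_le_mul_of_nonneg_right h2 (norm_nonneg _)).trans h1
    have h7 : CD * Real.exp (CD * |u|) ≤ CD * Real.exp (2 * CD * |u|) :=
      mul_le_mul_of_nonneg_left h5 hCD
    linarith
  have hcore := s0_core (D := D) (E := E) (a := a) hDd ⟨CD, hCD, hDb⟩ (s0_a_zero b z k χ)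
    (s0_a_summable b z k χ) hright hleft hEc hEb hσ hσc hc hη hη1 hU1 U t
  -- the left side
  have hne : ((σ : ℂ) + (t : ℂ) * I) ≠ 1 := by
    intro h1
    have h2 := congrArg Complex.re h1
    simp at h2
    linarith
  have hpos : 0 < ‖((σ - 1 : ℝ) : ℂ) + (t : ℂ) * I‖ := by
    rw [norm_pos_iff]
    intro h1
    apply hne
    have h2 : ((σ - 1 : ℝ) : ℂ) + (t : ℂ) * I = ((σ : ℂ) + (t : ℂ) * I) - 1 := by
      push_cast
      ring
    rw [h2] at h1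
    exact sub_eq_zero.1 h1
  have hDs : ‖D (σ + t * I)‖ = ‖((σ - 1 : ℝ) : ℂ) + (t : ℂ) * I‖ *
      ‖GA.LF χ ((σ : ℂ) + t * I) * MB b z χ ((σ : ℂ) + t * I) - k‖ := by
    rw [hDv _ hne, norm_mul]
    congr 2
    push_cast
    ring
  rw [hDs] at hcore
  set V := ‖GA.LF χ ((σ : ℂ) + t * I) * MB b z χ ((σ : ℂ) + t * I) - k‖ with hV
  have hV0 : 0 ≤ V := norm_nonneg _
  -- the three functions
  set s1 : ℝ → ℝ := fun v => ‖ZP.Sm (ZP.headS a U (σ + η)) (t + v)‖ with hs1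
  set s2 : ℝ → ℝ := fun v => ‖ZP.Sm (ZP.tailS a U) (t + v)‖ with hs2
  set s3 : ℝ → ℝ := fun v => ‖E (t + v)‖ with hs3
  have c1 : Continuous s1 :=
    ((ZP.Sm_continuous (ZP.headS_summable a U (σ + η))).comp (by fun_prop)).norm
  have c2 : Continuous s2 :=
    ((ZP.Sm_continuous (ZP.tailS_summable (s0_a_summable b z k χ) U)).comp (by fun_prop)).norm
  have c3 : Continuous s3 := (hEc.comp (by fun_prop)).norm
  have bexp : ∀ (g : ℝ → ℝ) (M : ℝ), (∀ v, |g v| ≤ M) →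
      ∀ v, |g v| ≤ M * Real.exp (M * |v|) := by
    intro g M h v
    have h1 := h v
    have hM : 0 ≤ M := (abs_nonneg _).trans h1
    have h2 : (1 : ℝ) ≤ Real.exp (M * |v|) := Real.one_le_exp (by positivity)
    nlinarith
  have b1 : ∀ v, |s1 v| ≤ ∑' n, ‖ZP.headS a U (σ + η) n‖ := fun v => by
    rw [hs1]
    simp only [abs_norm]
    exact ZP.norm_Sm_le (ZP.headS_summable a U (σ + η)) _
  have b2 : ∀ v, |s2 v| ≤ ∑' n, ‖ZP.tailS a U n‖ := fun v => by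
    rw [hs2]
    simp only [abs_norm]
    exact ZP.norm_Sm_le (ZP.tailS_summable (s0_a_summable b z k χ) U) _
  have b3 : ∀ v : ℝ, |s3 v| ≤ (2 * CD * Real.exp (2 * CD * |t|)) * Real.exp (2 * CD * |v|) := by
    intro v
    rw [hs3]
    simp only [abs_norm]
    refine (hEb _).trans ?_
    have h1 : |t + v| ≤ |t| + |v| := abs_add_le _ _
    have h2 : 2 * CD * |t + v| ≤ 2 * CD * |t| + 2 * CD * |v| := by
      calc 2 * CD * |t + v| ≤ 2 * CD * (|t| + |v|) := mul_le_mul_of_nonneg_left h1 (by positivity)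
        _ = _ := by ring
    calc (2 * CD) * Real.exp (2 * CD * |t + v|)
        ≤ (2 * CD) * Real.exp (2 * CD * |t| + 2 * CD * |v|) :=
          mul_le_mul_of_nonneg_left (Real.exp_le_exp.2 h2) (by positivity)
      _ = _ := by rw [Real.exp_add]; ring
  have bsq : ∀ (g : ℝ → ℝ) (M L : ℝ), 0 ≤ M → 0 ≤ L → (∀ v, |g v| ≤ M * Real.exp (L * |v|)) →
      ∃ C, ∀ v, |g v ^ 2| ≤ C * Real.exp (C * |v|) := by
    intro g M L hM hL h
    refine ⟨M ^ 2 + 2 * L, fun v => ?_⟩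
    rw [abs_pow]
    have h1 : |g v| ^ 2 ≤ (M * Real.exp (L * |v|)) ^ 2 :=
      pow_le_pow_left₀ (abs_nonneg _) (h v) 2
    have h2 : (M * Real.exp (L * |v|)) ^ 2 = M ^ 2 * Real.exp (2 * L * |v|) := by
      rw [mul_pow, ← Real.exp_nat_mul]
      congr 2
      push_cast
      ring
    rw [h2] at h1
    refine h1.trans (mul_le_mul (by linarith) ?_ (Real.exp_pos _).le (by positivity))
    apply Real.exp_le_exp.2
    exact mul_le_mul_of_nonneg_right (by nlinarith [sq_nonneg M]) (abs_nonneg v)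
  have blin : ∀ (g : ℝ → ℝ) (M L : ℝ), 0 ≤ M → 0 ≤ L → (∀ v, |g v| ≤ M * Real.exp (L * |v|)) →
      ∃ C, ∀ v, |g v| ≤ C * Real.exp (C * |v|) := by
    intro g M L hM hL h
    refine ⟨M + L, fun v => ?_⟩
    refine (h v).trans (mul_le_mul (by linarith) ?_ (Real.exp_pos _).le (by positivity))
    apply Real.exp_le_exp.2
    exact mul_le_mul_of_nonneg_right (by linarith) (abs_nonneg v)
  have hM1 : 0 ≤ ∑' n, ‖ZP.headS a U (σ + η) n‖ := tsum_nonneg fun n => norm_nonneg _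
  have hM2 : 0 ≤ ∑' n, ‖ZP.tailS a U n‖ := tsum_nonneg fun n => norm_nonneg _
  have b1' := bexp s1 _ b1
  have b2' := bexp s2 _ b2
  have hM3 : 0 ≤ 2 * CD * Real.exp (2 * CD * |t|) := by positivity
  obtain ⟨L1, hL1⟩ := bsq s1 _ _ hM1 hM1 b1'
  obtain ⟨L2, hL2⟩ := bsq s2 _ _ hM2 hM2 b2'
  obtain ⟨L3, hL3⟩ := bsq s3 _ _ hM3 (by positivity) b3
  obtain ⟨L3', hL3'⟩ := blin s3 _ _ hM3 (by positivity) b3
  have i1 := ZP.Gw_integrable_mul 1 c1 b1'
  have i2 := ZP.Gw_integrable_mul 1 c2 b2'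
  have i3 := ZP.Gw_integrable_mul 1 c3 hL3'
  have j1 : Integrable fun v => ZP.Gw 1 v * s1 v ^ 2 := ZP.Gw_integrable_mul 1 (c1.pow 2) hL1
  have j2 : Integrable fun v => ZP.Gw 1 v * s2 v ^ 2 := ZP.Gw_integrable_mul 1 (c2.pow 2) hL2
  have j3 : Integrable fun v => ZP.Gw 1 v * s3 v ^ 2 := ZP.Gw_integrable_mul 1 (c3.pow 2) hL3
  have q1 := ZP.cs_weight 1 i1 j1
  have q2 := ZP.cs_weight 1 i2 j2
  have q3 := ZP.cs_weight 1 i3 j3
  set J1 := ∫ v, ZP.Gw 1 v * s1 v ^ 2 with hJ1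
  set J2 := ∫ v, ZP.Gw 1 v * s2 v ^ 2 with hJ2
  set J3 := ∫ v, ZP.Gw 1 v * s3 v ^ 2 with hJ3
  have hJ1' : 0 ≤ J1 := integral_nonneg fun v => mul_nonneg (ZP.Gw_nonneg 1 v) (sq_nonneg _)
  have hJ2' : 0 ≤ J2 := integral_nonneg fun v => mul_nonneg (ZP.Gw_nonneg 1 v) (sq_nonneg _)
  have hJ3' : 0 ≤ J3 := integral_nonneg fun v => mul_nonneg (ZP.Gw_nonneg 1 v) (sq_nonneg _)
  set A1 : ℝ := (U : ℝ) ^ η / η with hA1
  set A2 : ℝ := (U : ℝ) ^ (3 / 2 - σ) with hA2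
  set A3 : ℝ := (U : ℝ) ^ (1 / 2 - σ) / (σ - 1 / 2) with hA3
  have hA1' : 0 ≤ A1 := by positivity
  have hA2' : 0 ≤ A2 := by positivity
  have hA3' : 0 ≤ A3 := div_nonneg (by positivity) (by linarith)
  set I1 := ∫ v, ZP.Gw 1 v * s1 v with hI1
  set I2 := ∫ v, ZP.Gw 1 v * s2 v with hI2
  set I3 := ∫ v, ZP.Gw 1 v * s3 v with hI3
  have hVle : V ≤ K * (A1 * I1 + 2 * A2 * I2 + A3 * I3) := by
    have h1 : ‖((σ - 1 : ℝ) : ℂ) + (t : ℂ) * I‖ * (2 * Real.pi * V) ≤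
        ‖((σ - 1 : ℝ) : ℂ) + (t : ℂ) * I‖ * ((2 / (1 - c) * Real.exp 1) *
          (A1 * I1 + 2 * A2 * I2 + A3 * I3)) := by
      calc _ = 2 * Real.pi * (‖((σ - 1 : ℝ) : ℂ) + (t : ℂ) * I‖ * V) := by ring
        _ ≤ _ := hcore
        _ = _ := by ring
    have h2 := le_of_mul_le_mul_left h1 hpos
    have h3 : K * (A1 * I1 + 2 * A2 * I2 + A3 * I3) = ((2 / (1 - c) * Real.exp 1) *
          (A1 * I1 + 2 * A2 * I2 + A3 * I3)) / (2 * Real.pi) := by
      rw [hK]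
      ring
    rw [h3, le_div_iff₀ (by positivity)]
    linarith
  have hsq : V ^ 2 ≤ 12 * K ^ 2 * ZP.Wt 1 * (A1 ^ 2 * J1 + A2 ^ 2 * J2 + A3 ^ 2 * J3) := by
    have h1 : V ^ 2 ≤ (K * (A1 * I1 + 2 * A2 * I2 + A3 * I3)) ^ 2 :=
      pow_le_pow_left₀ hV0 hVle 2
    have h2 := s0_sq3 (A1 * I1) (2 * A2 * I2) (A3 * I3)
    have h3 : (K * (A1 * I1 + 2 * A2 * I2 + A3 * I3)) ^ 2 ≤
        K ^ 2 * (3 * ((A1 * I1) ^ 2 + (2 * A2 * I2) ^ 2 + (A3 * I3) ^ 2)) := by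
      rw [mul_pow]
      exact mul_le_mul_of_nonneg_left h2 (sq_nonneg _)
    have h4 : (A1 * I1) ^ 2 ≤ A1 ^ 2 * (ZP.Wt 1 * J1) := by
      rw [mul_pow]
      exact mul_le_mul_of_nonneg_left q1 (sq_nonneg _)
    have h5 : (2 * A2 * I2) ^ 2 ≤ 4 * (A2 ^ 2 * (ZP.Wt 1 * J2)) := by
      have e : (2 * A2 * I2) ^ 2 = 4 * (A2 ^ 2 * I2 ^ 2) := by ring
      rw [e]
      exact mul_le_mul_of_nonneg_left (mul_le_mul_of_nonneg_left q2 (sq_nonneg _)) (by norm_num)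
    have h6 : (A3 * I3) ^ 2 ≤ A3 ^ 2 * (ZP.Wt 1 * J3) := by
      rw [mul_pow]
      exact mul_le_mul_of_nonneg_left q3 (sq_nonneg _)
    have h7 : 0 ≤ A1 ^ 2 * (ZP.Wt 1 * J1) := by positivity
    have h8 : 0 ≤ A3 ^ 2 * (ZP.Wt 1 * J3) := by positivity
    calc V ^ 2 ≤ K ^ 2 * (3 * ((A1 * I1) ^ 2 + (2 * A2 * I2) ^ 2 + (A3 * I3) ^ 2)) := h1.trans h3
      _ ≤ K ^ 2 * (3 * (4 * (A1 ^ 2 * (ZP.Wt 1 * J1)) + 4 * (A2 ^ 2 * (ZP.Wt 1 * J2)) +
          4 * (A3 ^ 2 * (ZP.Wt 1 * J3)))) :=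
          mul_le_mul_of_nonneg_left (by linarith) (sq_nonneg _)
      _ = _ := by ring
  have hint : ∫ v : ℝ, ZP.Gw 1 v *
      (((U : ℝ) ^ η / η) ^ 2 *
          ‖MB (bz b z k) U χ (((σ + η : ℝ) : ℂ) + ((t + v : ℝ) : ℂ) * I)‖ ^ 2 +
        (U : ℝ) ^ (3 - 2 * σ) *
          ‖TB (bz b z k) U χ ((3 / 2 : ℂ) + ((t + v : ℝ) : ℂ) * I)‖ ^ 2 +
        ((U : ℝ) ^ (1 / 2 - σ) / (σ - 1 / 2)) ^ 2 *
          ‖GA.LF χ ((1 / 2 : ℂ) + ((t + v : ℝ) : ℂ) * I) *
            MB b z χ ((1 / 2 : ℂ) + ((t + v : ℝ) : ℂ) * I) - k‖ ^ 2) =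
      A1 ^ 2 * J1 + A2 ^ 2 * J2 + A3 ^ 2 * J3 := by
    have e1 : ∀ v : ℝ, ZP.Gw 1 v *
      (((U : ℝ) ^ η / η) ^ 2 *
          ‖MB (bz b z k) U χ (((σ + η : ℝ) : ℂ) + ((t + v : ℝ) : ℂ) * I)‖ ^ 2 +
        (U : ℝ) ^ (3 - 2 * σ) *
          ‖TB (bz b z k) U χ ((3 / 2 : ℂ) + ((t + v : ℝ) : ℂ) * I)‖ ^ 2 +
        ((U : ℝ) ^ (1 / 2 - σ) / (σ - 1 / 2)) ^ 2 *
          ‖GA.LF χ ((1 / 2 : ℂ) + ((t + v : ℝ) : ℂ) * I) *
            MB b z χ ((1 / 2 : ℂ) + ((t + v : ℝ) : ℂ) * I) - k‖ ^ 2) =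
        (A1 ^ 2 * (ZP.Gw 1 v * s1 v ^ 2) + A2 ^ 2 * (ZP.Gw 1 v * s2 v ^ 2)) +
          A3 ^ 2 * (ZP.Gw 1 v * s3 v ^ 2) := by
      intro v
      have e2 : (U : ℝ) ^ (3 - 2 * σ) = A2 ^ 2 := by
        rw [hA2, ← Real.rpow_natCast ((U : ℝ) ^ (3 / 2 - σ)) 2, ← Real.rpow_mul hU0.le]
        congr 1
        push_cast
        ring
      rw [s0_MB_head, s0_TB_tail, e2]
      show ZP.Gw 1 v * (A1 ^ 2 * s1 v ^ 2 + A2 ^ 2 * s2 v ^ 2 + A3 ^ 2 * s3 v ^ 2) = _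
      ring
    simp_rw [e1]
    have k12 : Integrable fun v => A1 ^ 2 * (ZP.Gw 1 v * s1 v ^ 2) +
        A2 ^ 2 * (ZP.Gw 1 v * s2 v ^ 2) := (j1.const_mul _).add (j2.const_mul _)
    rw [integral_add k12 (j3.const_mul _),
      integral_add (j1.const_mul _) (j2.const_mul _), integral_const_mul, integral_const_mul,
      integral_const_mul]
  rw [hint]
  have hS : 0 ≤ A1 ^ 2 * J1 + A2 ^ 2 * J2 + A3 ^ 2 * J3 := by positivity
  exact hsq.trans (mul_le_mul_of_nonneg_right (le_max_right _ _) hS)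

theorem smg : type_of% @smg_pr := @smg_pr

end Pool.Agent.XT

/-! ### Block S1 -/

/-! # XT (MP_5dd4bb_nt), block S1: the mean square of `L M` to the right of the critical line -/

namespace Pool.Agent.XT

open Finset Complex MeasureTheory Pool.Agent.Var35 Pool.Agent.Var73 Pool.Agent.HC Pool.Agent.MF
  Pool.Agent.XS
open scoped ArithmeticFunction ArithmeticFunction.Moebius

/-! ### averaging -/

theorem s1_ofReal {α : Type} [MeasurableSpace α] {m : Measure α} {g : α → ℝ} (hg : ∀ x, 0 ≤ g x) :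
    ENNReal.ofReal (∫ x, g x ∂m) ≤ ∫⁻ x, ENNReal.ofReal (g x) ∂m := by
  have h : ‖∫ x, g x ∂m‖ₑ ≤ ∫⁻ x, ‖g x‖ₑ ∂m := enorm_integral_le_lintegral_enorm g
  rw [Real.enorm_of_nonneg (integral_nonneg hg)] at h
  refine h.trans (le_of_eq (lintegral_congr (fun x => ?_)))
  exact Real.enorm_of_nonneg (hg x)

theorem s1_shift {F : ℝ → ℝ} (hF0 : ∀ u, 0 ≤ F u) (hFc : Continuous F) {T : ℝ} (hT : 0 ≤ T)
    (v : ℝ) : ∫⁻ t in Set.Ioc (-T) T, ENNReal.ofReal (F (t + v)) ≤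
      ENNReal.ofReal (∫ t in (-(T + |v|))..(T + |v|), F t) := by
  have hc : Continuous fun t => F (t + v) := hFc.comp (by fun_prop)
  have h1 : IntegrableOn (fun t => F (t + v)) (Set.Ioc (-T) T) volume :=
    (hc.intervalIntegrable (-T) T).1
  rw [← ofReal_integral_eq_lintegral_ofReal h1 (Filter.Eventually.of_forall fun t => hF0 _),
    ← intervalIntegral.integral_of_le (by linarith), intervalIntegral.integral_comp_add_right]
  apply ENNReal.ofReal_le_ofReal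
  refine intervalIntegral.integral_mono_interval ?_ (by linarith) ?_
    (Filter.Eventually.of_forall fun t => hF0 t) (hFc.intervalIntegrable _ _)
  · have := neg_abs_le v
    linarith
  · have := le_abs_self v
    linarith

theorem s1_avg {ι : Type} (S : Finset ι) (f F : ι → ℝ → ℝ) {C T B : ℝ} (k : ℕ) (hC : 0 ≤ C)
    (hT : 0 ≤ T) (hB : 0 ≤ B) (hf0 : ∀ i ∈ S, ∀ t, 0 ≤ f i t) (hF0 : ∀ i ∈ S, ∀ u, 0 ≤ F i u)
    (hFc : ∀ i ∈ S, Continuous (F i))
    (h : ∀ i ∈ S, ∀ t, f i t ≤ C * ∫ v, ZP.Gw 1 v * F i (t + v))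
    (hb : ∀ v : ℝ, ∑ i ∈ S, ∫ t in (-(T + |v|))..(T + |v|), F i t ≤ B * (1 + |v|) ^ k) :
    ∑ i ∈ S, ∫ t in (-T)..T, f i t ≤ C * (B * ZP.Wt (1 + k)) := by
  have hW : 0 ≤ ZP.Wt (1 + k) := integral_nonneg fun v => ZP.Gw_nonneg _ v
  have hTT : -T ≤ T := by linarith
  have hfi : ∀ i ∈ S, 0 ≤ ∫ t in (-T)..T, f i t := fun i hi =>
    intervalIntegral.integral_nonneg hTT fun t _ => hf0 i hi t
  rw [← ENNReal.ofReal_le_ofReal_iff (by positivity), ENNReal.ofReal_sum_of_nonneg hfi]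
  have h1 : ∀ i ∈ S, ENNReal.ofReal (∫ t in (-T)..T, f i t) ≤
      ENNReal.ofReal C * ∫⁻ v, ENNReal.ofReal (ZP.Gw 1 v) *
        ENNReal.ofReal (∫ t in (-(T + |v|))..(T + |v|), F i t) := by
    intro i hi
    have hmeas : AEMeasurable (Function.uncurry fun t v : ℝ =>
        ENNReal.ofReal (ZP.Gw 1 v) * ENNReal.ofReal (F i (t + v)))
        ((volume.restrict (Set.Ioc (-T) T)).prod volume) := by
      apply Measurable.aemeasurable
      exact ((ZP.Gw_continuous 1).measurable.comp measurable_snd).ennreal_ofReal.mul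
        ((hFc i hi).measurable.comp (measurable_fst.add measurable_snd)).ennreal_ofReal
    calc ENNReal.ofReal (∫ t in (-T)..T, f i t)
        = ENNReal.ofReal (∫ t in Set.Ioc (-T) T, f i t) := by
          rw [intervalIntegral.integral_of_le hTT]
      _ ≤ ∫⁻ t in Set.Ioc (-T) T, ENNReal.ofReal (f i t) := s1_ofReal (hf0 i hi)
      _ ≤ ∫⁻ t in Set.Ioc (-T) T, ENNReal.ofReal C *
          ∫⁻ v, ENNReal.ofReal (ZP.Gw 1 v) * ENNReal.ofReal (F i (t + v)) := by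
          refine lintegral_mono fun t => ?_
          refine (ENNReal.ofReal_le_ofReal (h i hi t)).trans ?_
          rw [ENNReal.ofReal_mul hC]
          refine mul_le_mul' le_rfl ?_
          refine (s1_ofReal fun v => mul_nonneg (ZP.Gw_nonneg 1 v) (hF0 i hi _)).trans
            (le_of_eq (lintegral_congr fun v => ?_))
          rw [ENNReal.ofReal_mul (ZP.Gw_nonneg 1 v)]
      _ = ENNReal.ofReal C * ∫⁻ t in Set.Ioc (-T) T,
          ∫⁻ v, ENNReal.ofReal (ZP.Gw 1 v) * ENNReal.ofReal (F i (t + v)) :=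
          lintegral_const_mul' _ _ ENNReal.ofReal_ne_top
      _ = ENNReal.ofReal C * ∫⁻ v, ∫⁻ t in Set.Ioc (-T) T,
          ENNReal.ofReal (ZP.Gw 1 v) * ENNReal.ofReal (F i (t + v)) := by
          rw [lintegral_lintegral_swap hmeas]
      _ ≤ _ := by
          refine mul_le_mul' le_rfl (lintegral_mono fun v => ?_)
          rw [lintegral_const_mul' _ _ ENNReal.ofReal_ne_top]
          exact mul_le_mul' le_rfl (s1_shift (hF0 i hi) (hFc i hi) hT v)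
  have hG0 : ∀ i ∈ S, ∀ v : ℝ, 0 ≤ ∫ t in (-(T + |v|))..(T + |v|), F i t := fun i hi v =>
    intervalIntegral.integral_nonneg (by linarith [abs_nonneg v]) fun t _ => hF0 i hi t
  have hGm : ∀ i ∈ S, Measurable fun v : ℝ => ∫ t in (-(T + |v|))..(T + |v|), F i t := by
    intro i hi
    apply Continuous.measurable
    have hp : Continuous fun x : ℝ => ∫ t in (0 : ℝ)..x, F i t :=
      intervalIntegral.continuous_primitive (fun a b => (hFc i hi).intervalIntegrable a b) 0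
    have he : (fun v : ℝ => ∫ t in (-(T + |v|))..(T + |v|), F i t) = fun v : ℝ =>
        (∫ t in (0 : ℝ)..(T + |v|), F i t) - ∫ t in (0 : ℝ)..(-(T + |v|)), F i t := by
      funext v
      rw [intervalIntegral.integral_interval_sub_left ((hFc i hi).intervalIntegrable _ _)
        ((hFc i hi).intervalIntegrable _ _)]
    rw [he]
    exact (hp.comp (by fun_prop)).sub (hp.comp (by fun_prop))
  calc ∑ i ∈ S, ENNReal.ofReal (∫ t in (-T)..T, f i t)
      ≤ ∑ i ∈ S, ENNReal.ofReal C * ∫⁻ v, ENNReal.ofReal (ZP.Gw 1 v) *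
        ENNReal.ofReal (∫ t in (-(T + |v|))..(T + |v|), F i t) := Finset.sum_le_sum h1
    _ = ENNReal.ofReal C * ∫⁻ v, ∑ i ∈ S, ENNReal.ofReal (ZP.Gw 1 v) *
        ENNReal.ofReal (∫ t in (-(T + |v|))..(T + |v|), F i t) := by
        rw [← Finset.mul_sum, lintegral_finsetSum' S fun i hi => ?_]
        exact ((ZP.Gw_continuous 1).measurable.ennreal_ofReal.mul
          (hGm i hi).ennreal_ofReal).aemeasurable
    _ ≤ ENNReal.ofReal C * ∫⁻ v, ENNReal.ofReal (B * ZP.Gw (1 + k) v) := by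
        refine mul_le_mul' le_rfl (lintegral_mono fun v => ?_)
        rw [← Finset.mul_sum, ← ENNReal.ofReal_sum_of_nonneg fun i hi => hG0 i hi v,
          ← ENNReal.ofReal_mul (ZP.Gw_nonneg 1 v)]
        apply ENNReal.ofReal_le_ofReal
        calc ZP.Gw 1 v * ∑ i ∈ S, ∫ t in (-(T + |v|))..(T + |v|), F i t
            ≤ ZP.Gw 1 v * (B * (1 + |v|) ^ k) :=
              mul_le_mul_of_nonneg_left (hb v) (ZP.Gw_nonneg 1 v)
          _ = B * (ZP.Gw 1 v * (1 + |v|) ^ k) := by ring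
          _ = B * ZP.Gw (1 + k) v := by rw [ZP.Gw_mul]
    _ = ENNReal.ofReal (C * (B * ZP.Wt (1 + k))) := by
        rw [ENNReal.ofReal_mul hC, ← ofReal_integral_eq_lintegral_ofReal
          ((ZP.Gw_integrable (1 + k)).const_mul B)
          (Filter.Eventually.of_forall fun v => mul_nonneg hB (ZP.Gw_nonneg _ v)),
          integral_const_mul]
        rfl

/-! ### continuity -/

theorem s1_MB_cont (a : ℕ → ℂ) (N : ℕ) {q : ℕ} (χ : DirichletCharacter ℂ q) (s₀ : ℂ) :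
    Continuous fun u : ℝ => MB a N χ (s₀ + (u : ℂ) * I) := by
  unfold MB
  refine continuous_finsetSum _ fun n hn => ?_
  have hn1 : (n : ℂ) ≠ 0 := by
    have := (Finset.mem_Icc.mp hn).1
    exact_mod_cast (by omega : n ≠ 0)
  have hs : Continuous fun u : ℝ => -(s₀ + (u : ℂ) * I) := by fun_prop
  exact continuous_const.mul (hs.const_cpow (Or.inl hn1))

theorem s1_TB_cont {a : ℕ → ℂ} {A δ : ℝ} (hA : 0 ≤ A) (hδ : δ ≤ 1 / 8)
    (ha : ∀ n : ℕ, 1 ≤ n → ‖a n‖ ≤ A * (n : ℝ) ^ δ) (N : ℕ) {q : ℕ}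
    (χ : DirichletCharacter ℂ q) :
    Continuous fun u : ℝ => TB a N χ ((3 / 2 : ℂ) + (u : ℂ) * I) := by
  unfold TB
  refine continuous_tsum (u := fun n : ℕ => A * (n : ℝ) ^ (-(5 / 4) : ℝ)) ?_ ?_ ?_
  · intro n
    by_cases hn : n ≤ N
    · simp only [if_pos hn]
      exact continuous_const
    · simp only [if_neg hn]
      have hn1 : (n : ℂ) ≠ 0 := by exact_mod_cast (by omega : n ≠ 0)
      have hs : Continuous fun u : ℝ => -((3 / 2 : ℂ) + (u : ℂ) * I) := by fun_prop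
      exact continuous_const.mul (hs.const_cpow (Or.inl hn1))
  · exact (Real.summable_nat_rpow.2 (by norm_num)).mul_left A
  · intro n u
    by_cases hn : n ≤ N
    · simp only [if_pos hn, norm_zero]
      positivity
    · simp only [if_neg hn]
      have hn1 : 1 ≤ n := by omega
      have hn0 : (0 : ℝ) < n := by exact_mod_cast hn1
      have hn1r : (1 : ℝ) ≤ n := by exact_mod_cast hn1
      rw [norm_mul, norm_mul, Complex.norm_natCast_cpow_of_pos hn1]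
      have hre : (-((3 / 2 : ℂ) + (u : ℂ) * I)).re = -(3 / 2) := by simp
      rw [hre]
      have hχ : ‖χ (n : ZMod q)‖ ≤ 1 := DirichletCharacter.norm_le_one χ _
      calc ‖a n‖ * ‖χ (n : ZMod q)‖ * (n : ℝ) ^ (-(3 / 2) : ℝ)
          ≤ (A * (n : ℝ) ^ δ) * 1 * (n : ℝ) ^ (-(3 / 2) : ℝ) := by
            refine mul_le_mul_of_nonneg_right ?_ (Real.rpow_nonneg hn0.le _)
            exact mul_le_mul (ha n hn1) hχ (norm_nonneg _)
              (mul_nonneg hA (Real.rpow_nonneg hn0.le _))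
        _ = A * (n : ℝ) ^ (δ + -(3 / 2)) := by
            rw [Real.rpow_add hn0]
            ring
        _ ≤ A * (n : ℝ) ^ (-(5 / 4) : ℝ) := by
            refine mul_le_mul_of_nonneg_left ?_ hA
            exact Real.rpow_le_rpow_of_exponent_le hn1r (by linarith)

theorem s1_LF_cont {r : ℕ} (hr : 1 ≤ r) (χ : DirichletCharacter ℂ r) :
    Continuous fun u : ℝ => GA.LF χ ((1 / 2 : ℂ) + (u : ℂ) * I) := by
  have : NeZero r := ⟨by omega⟩
  have hL : GA.LF χ = DirichletCharacter.LFunction χ := by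
    funext s
    simp [GA.LF, NeZero.ne r]
  rw [hL, continuous_iff_continuousAt]
  intro u
  have h1 : ((1 / 2 : ℂ) + (u : ℂ) * I) ≠ 1 := by
    intro h
    have := congrArg Complex.re h
    norm_num at this
  have h2 : ContinuousAt (DirichletCharacter.LFunction χ) ((1 / 2 : ℂ) + (u : ℂ) * I) :=
    (DirichletCharacter.differentiableAt_LFunction χ _ (Or.inl h1)).continuousAt
  exact ContinuousAt.comp (f := fun u : ℝ => (1 / 2 : ℂ) + (u : ℂ) * I) h2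
    (Continuous.continuousAt (by fun_prop))

/-- the divisor bound for the coefficients -/
theorem s1_bz {δ : ℝ} (hδ : 0 < δ) : ∃ A : ℝ, 0 < A ∧ ∀ (b : ℕ → ℂ) (z : ℕ), (∀ n, ‖b n‖ ≤ 1) →
    ∀ n : ℕ, 1 ≤ n → ‖bz b z 0 n‖ ≤ A * (n : ℝ) ^ δ := by
  obtain ⟨A, hA, h⟩ := FG61.divisor_bound hδ
  refine ⟨A, hA, fun b z hb n hn => le_trans ?_ (h n hn)⟩
  unfold bz
  rw [ite_self, sub_zero]
  refine (norm_sum_le _ _).trans ?_
  calc ∑ d ∈ n.divisors.filter (fun d => d ≤ z), ‖b d‖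
      ≤ ∑ _d ∈ n.divisors.filter (fun d => d ≤ z), (1 : ℝ) :=
        Finset.sum_le_sum fun d _ => hb d
    _ = ((n.divisors.filter (fun d => d ≤ z)).card : ℝ) := by
        rw [Finset.sum_const, nsmul_eq_mul, mul_one]
    _ ≤ (n.divisors.card : ℝ) := by exact_mod_cast Finset.card_le_card (Finset.filter_subset _ _)

/-! ### the bound -/

theorem s1_log {ε : ℝ} (hε : 0 < ε) {U : ℝ} (hU : 1 ≤ U) :
    1 + Real.log U ≤ (1 + 2 / ε) * U ^ (ε / 2) := by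
  have h1 : Real.log U ≤ U ^ (ε / 2) / (ε / 2) := Real.log_le_rpow_div (by linarith) (by positivity)
  have h2 : 1 ≤ U ^ (ε / 2) := Real.one_le_rpow hU (by positivity)
  have h3 : U ^ (ε / 2) / (ε / 2) = 2 / ε * U ^ (ε / 2) := by
    field_simp
  rw [h3] at h1
  linarith

theorem s1_U {R z : ℕ} {T : ℝ} (hR : 1 ≤ R) (hT : 1 ≤ T) (hz : 1 ≤ z) :
    1 ≤ z * ⌈Real.sqrt (R * T)⌉₊ ∧
      ((z * ⌈Real.sqrt (R * T)⌉₊ : ℕ) : ℝ) ≤ 2 * (z * Real.sqrt (R * T)) ∧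
      ((z * ⌈Real.sqrt (R * T)⌉₊ : ℕ) : ℝ) ≤ 2 * ((R : ℝ) * T * z) := by
  have hR1 : (1 : ℝ) ≤ R := by exact_mod_cast hR
  have hz1 : (1 : ℝ) ≤ z := by exact_mod_cast hz
  have hRT : 1 ≤ (R : ℝ) * T := one_le_mul_of_one_le_of_one_le hR1 hT
  have hs : 1 ≤ Real.sqrt (R * T) := by
    rw [← Real.sqrt_one]
    exact Real.sqrt_le_sqrt hRT
  have hc : 1 ≤ ⌈Real.sqrt (R * T)⌉₊ := Nat.one_le_ceil_iff.2 (by linarith)
  have hc2 : (⌈Real.sqrt (R * T)⌉₊ : ℝ) ≤ 2 * Real.sqrt (R * T) := by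
    have := Nat.ceil_lt_add_one (show (0 : ℝ) ≤ Real.sqrt (R * T) by positivity)
    linarith
  have hs2 : Real.sqrt (R * T) ≤ (R : ℝ) * T := by
    rw [Real.sqrt_le_left (by linarith)]
    nlinarith
  have h1 : ((z * ⌈Real.sqrt (R * T)⌉₊ : ℕ) : ℝ) ≤ 2 * (z * Real.sqrt (R * T)) := by
    push_cast
    calc (z : ℝ) * (⌈Real.sqrt (R * T)⌉₊ : ℝ) ≤ z * (2 * Real.sqrt (R * T)) :=
          mul_le_mul_of_nonneg_left hc2 (by linarith)
      _ = 2 * (z * Real.sqrt (R * T)) := by ring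
  refine ⟨Nat.one_le_iff_ne_zero.2 (Nat.mul_ne_zero (by omega) (by omega)), h1, h1.trans ?_⟩
  calc 2 * (z * Real.sqrt (R * T)) ≤ 2 * (z * ((R : ℝ) * T)) := by
        have := mul_le_mul_of_nonneg_left hs2 (by linarith : (0 : ℝ) ≤ z)
        linarith
    _ = 2 * ((R : ℝ) * T * z) := by ring

theorem cl_sig_pr {d ε : ℝ} (hd : 0 < d) (hd1 : d ≤ 1 / 4) (hε : 0 < ε) : ∃ C : ℝ, 1 ≤ C ∧
    ∀ (R : ℕ) (T : ℝ), 1 ≤ R → 1 ≤ T →
    ∀ (z : ℕ) (b : ℕ → ℂ) (σ : ℝ), 1 ≤ z → (∀ n, ‖b n‖ ≤ 1) → 1 / 2 + d ≤ σ → σ ≤ 3 / 4 →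
    SP R (fun _ χ => ∫ t in (-T)..T, ‖GA.LF χ ((σ : ℂ) + t * I) *
      MB b z χ ((σ : ℂ) + t * I)‖ ^ 2) ≤
      C * ((R : ℝ) * T * z) ^ ε * ((R : ℝ) ^ 2 * T + z * Real.sqrt (R * T)) := by
  have hδ : 0 < min (1 / 8) (ε / 8) := lt_min (by norm_num) (by positivity)
  have hδ1 : min (1 / 8) (ε / 8) ≤ 1 / 8 := min_le_left _ _
  have hδ2 : min (1 / 8) (ε / 8) ≤ ε / 8 := min_le_right _ _
  set δ : ℝ := min (1 / 8) (ε / 8) with hδdef
  have hε' : 0 < min ε 1 := lt_min hε one_pos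
  have hε'1 : min ε 1 ≤ 1 := min_le_right _ _
  have hε'2 : min ε 1 ≤ ε := min_le_left _ _
  set ε' : ℝ := min ε 1 with hε'def
  obtain ⟨A, hA, hbz⟩ := s1_bz hδ
  obtain ⟨C₀, hC₀, h0⟩ := smg (show (3 / 4 : ℝ) < 1 by norm_num)
  obtain ⟨C₁, hC₁, h1⟩ := mv_head
  obtain ⟨C₂, hC₂, h2⟩ := mv_tail
  obtain ⟨C₃, hC₃, h3⟩ := cl_half hε'
  set K₁ : ℝ := C₁ * A ^ 2 * (1 / δ ^ 2) * ((1 + 2 / ε) * 2 ^ ε) * 2 with hK₁
  set K₂ : ℝ := C₂ * A ^ 2 * ((1 + 2 / ε) * 2 ^ ε) * 2 with hK₂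
  set K₃ : ℝ := C₃ * (1 / d ^ 2) with hK₃
  have hW : 0 ≤ ZP.Wt (1 + 2) := integral_nonneg fun v => ZP.Gw_nonneg _ v
  have hK₁0 : 0 ≤ K₁ := by positivity
  have hK₂0 : 0 ≤ K₂ := by positivity
  have hK₃0 : 0 ≤ K₃ := by positivity
  refine ⟨max 1 (C₀ * ((K₁ + K₂ + K₃) * ZP.Wt (1 + 2))), le_max_left _ _, ?_⟩
  intro R T hR hT z b σ hz hb hσ hσ1
  have hR1 : (1 : ℝ) ≤ R := by exact_mod_cast hR
  have hz1 : (1 : ℝ) ≤ z := by exact_mod_cast hz
  have hRT : 1 ≤ (R : ℝ) * T := one_le_mul_of_one_le_of_one_le hR1 hT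
  have hRTz : 1 ≤ (R : ℝ) * T * z := one_le_mul_of_one_le_of_one_le hRT hz1
  have hT0 : 0 < T := by linarith
  have hR0 : (0 : ℝ) < R := by linarith
  have hz0 : (0 : ℝ) < z := by linarith
  obtain ⟨hU1, hU2, hU3⟩ := s1_U (R := R) hR hT hz
  set U : ℕ := z * ⌈Real.sqrt (R * T)⌉₊ with hU
  have hU1r : (1 : ℝ) ≤ (U : ℝ) := by exact_mod_cast hU1
  have hU0 : (0 : ℝ) < (U : ℝ) := by linarith
  set X : ℝ := (R : ℝ) ^ 2 * T + z * Real.sqrt (R * T) with hX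
  set E : ℝ := ((R : ℝ) * T * z) ^ ε with hE
  have hX0 : 0 ≤ X := by positivity
  have hE0 : 0 ≤ E := by positivity
  have hE1 : 1 ≤ E := Real.one_le_rpow hRTz hε.le
  -- the power of `U`
  have hUE : (U : ℝ) ^ (2 * δ) * (U : ℝ) ^ (2 * δ) * (1 + Real.log U) ≤
      ((1 + 2 / ε) * 2 ^ ε) * E := by
    have e1 : (U : ℝ) ^ (2 * δ) * (U : ℝ) ^ (2 * δ) ≤ (U : ℝ) ^ (ε / 2) := by
      rw [← Real.rpow_add hU0]
      exact Real.rpow_le_rpow_of_exponent_le hU1r (by linarith)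
    have e2 := s1_log hε hU1r
    have e3 : 0 ≤ 1 + Real.log U := by
      have := Real.log_nonneg hU1r
      linarith
    have e4 : (U : ℝ) ^ (ε / 2) * (U : ℝ) ^ (ε / 2) = (U : ℝ) ^ ε := by
      rw [← Real.rpow_add hU0]
      congr 1
      ring
    have e5 : (U : ℝ) ^ ε ≤ 2 ^ ε * E := by
      rw [hE, ← Real.mul_rpow (by norm_num) (by positivity)]
      exact Real.rpow_le_rpow hU0.le hU3 hε.le
    calc (U : ℝ) ^ (2 * δ) * (U : ℝ) ^ (2 * δ) * (1 + Real.log U)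
        ≤ (U : ℝ) ^ (ε / 2) * ((1 + 2 / ε) * (U : ℝ) ^ (ε / 2)) :=
          mul_le_mul e1 e2 e3 (by positivity)
      _ = (1 + 2 / ε) * (U : ℝ) ^ ε := by rw [← e4]; ring
      _ ≤ (1 + 2 / ε) * (2 ^ ε * E) := mul_le_mul_of_nonneg_left e5 (by positivity)
      _ = ((1 + 2 / ε) * 2 ^ ε) * E := by ring
  have hU2d : (U : ℝ) ^ (2 * δ) ≤ ((1 + 2 / ε) * 2 ^ ε) * E := by
    refine le_trans ?_ hUE
    have e1 : 1 ≤ (U : ℝ) ^ (2 * δ) := Real.one_le_rpow hU1r (by positivity)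
    have e3 : 1 ≤ 1 + Real.log U := by
      have := Real.log_nonneg hU1r
      linarith
    calc (U : ℝ) ^ (2 * δ) = (U : ℝ) ^ (2 * δ) * 1 * 1 := by ring
      _ ≤ _ := mul_le_mul (mul_le_mul_of_nonneg_left e1 (by positivity)) e3 zero_le_one
          (by positivity)
  -- the three mean squares
  set f₁ : (x : Σ r : ℕ, DirichletCharacter ℂ r) → ℝ → ℝ := fun x u =>
    ‖MB (bz b z 0) U x.2 (((σ + δ : ℝ) : ℂ) + (u : ℂ) * I)‖ ^ 2 with hf₁
  set f₂ : (x : Σ r : ℕ, DirichletCharacter ℂ r) → ℝ → ℝ := fun x u =>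
    ‖TB (bz b z 0) U x.2 ((3 / 2 : ℂ) + (u : ℂ) * I)‖ ^ 2 with hf₂
  set f₃ : (x : Σ r : ℕ, DirichletCharacter ℂ r) → ℝ → ℝ := fun x u =>
    ‖GA.LF x.2 ((1 / 2 : ℂ) + (u : ℂ) * I) * MB b z x.2 ((1 / 2 : ℂ) + (u : ℂ) * I) - 0‖ ^ 2
    with hf₃
  set w₁ : ℝ := ((U : ℝ) ^ δ / δ) ^ 2 with hw₁
  set w₂ : ℝ := (U : ℝ) ^ (3 - 2 * σ) with hw₂
  set w₃ : ℝ := ((U : ℝ) ^ (1 / 2 - σ) / (σ - 1 / 2)) ^ 2 with hw₃
  set F : (x : Σ r : ℕ, DirichletCharacter ℂ r) → ℝ → ℝ := fun x u =>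
    w₁ * f₁ x u + w₂ * f₂ x u + w₃ * f₃ x u with hF
  set S : Finset (Σ r : ℕ, DirichletCharacter ℂ r) := (Ico R (2 * R)).sigma (fun r => Pr r) with hS
  have hw₁0 : 0 ≤ w₁ := sq_nonneg _
  have hw₂0 : 0 ≤ w₂ := Real.rpow_nonneg hU0.le _
  have hw₃0 : 0 ≤ w₃ := sq_nonneg _
  have hSr : ∀ x ∈ S, 1 ≤ x.1 := by
    intro x hx
    rw [hS, Finset.mem_sigma, Finset.mem_Ico] at hx
    exact hR.trans hx.1.1
  have hc₁ : ∀ x ∈ S, Continuous (f₁ x) := fun x _ => (s1_MB_cont _ _ _ _).norm.pow 2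
  have hc₂ : ∀ x ∈ S, Continuous (f₂ x) := fun x _ =>
    (s1_TB_cont hA.le hδ1 (hbz b z hb) U x.2).norm.pow 2
  have hc₃ : ∀ x ∈ S, Continuous (f₃ x) := fun x hx =>
    (((s1_LF_cont (hSr x hx) x.2).mul (s1_MB_cont _ _ _ _)).sub continuous_const).norm.pow 2
  have hcF : ∀ x ∈ S, Continuous (F x) := fun x hx =>
    ((continuous_const.mul (hc₁ x hx)).add (continuous_const.mul (hc₂ x hx))).add
      (continuous_const.mul (hc₃ x hx))
  have hSP : ∀ g : (r : ℕ) → DirichletCharacter ℂ r → ℝ, SP R g = ∑ x ∈ S, g x.1 x.2 := by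
    intro g
    unfold SP
    rw [hS, Finset.sum_sigma]
  rw [hSP]
  have main := s1_avg S (fun x t => ‖GA.LF x.2 ((σ : ℂ) + t * I) * MB b z x.2 ((σ : ℂ) + t * I)‖ ^ 2)
    F (C := C₀) (T := T) (B := (K₁ + K₂ + K₃) * (E * X)) 2 (by linarith) hT0.le (by positivity)
    (fun x _ t => sq_nonneg _)
    (fun x _ u => add_nonneg (add_nonneg (mul_nonneg hw₁0 (sq_nonneg _))
      (mul_nonneg hw₂0 (sq_nonneg _))) (mul_nonneg hw₃0 (sq_nonneg _))) hcF ?_ ?_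
  · refine main.trans ?_
    calc C₀ * ((K₁ + K₂ + K₃) * (E * X) * ZP.Wt (1 + 2))
        = (C₀ * ((K₁ + K₂ + K₃) * ZP.Wt (1 + 2))) * (E * X) := by ring
      _ ≤ max 1 (C₀ * ((K₁ + K₂ + K₃) * ZP.Wt (1 + 2))) * (E * X) :=
          mul_le_mul_of_nonneg_right (le_max_right _ _) (by positivity)
      _ = _ := by ring
  · intro x hx t
    have hxP : x.2 ∈ Pr x.1 := by
      rw [hS, Finset.mem_sigma] at hx
      exact hx.2
    have := h0 x.1 x.2 (hSr x hx) hxP z b 0 σ δ (by linarith) hσ1 hδ (by linarith) U t hU1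
    rw [sub_zero] at this
    exact this
  · intro v
    set q : ℝ := 1 + |v| with hq
    have hq1 : 1 ≤ q := by
      have := abs_nonneg v
      linarith
    have hq0 : 0 < q := by linarith
    set Tv : ℝ := T + |v| with hTv
    have hTv1 : 1 ≤ Tv := by
      have := abs_nonneg v
      linarith
    have hTv2 : Tv ≤ T * q := by
      have := abs_nonneg v
      nlinarith
    have hTv0 : 0 < Tv := by linarith
    have hsplit : ∑ x ∈ S, ∫ t in (-Tv)..Tv, F x t = w₁ * (∑ x ∈ S, ∫ t in (-Tv)..Tv, f₁ x t) +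
        w₂ * (∑ x ∈ S, ∫ t in (-Tv)..Tv, f₂ x t) + w₃ * (∑ x ∈ S, ∫ t in (-Tv)..Tv, f₃ x t) := by
      rw [Finset.mul_sum, Finset.mul_sum, Finset.mul_sum, ← Finset.sum_add_distrib,
        ← Finset.sum_add_distrib]
      refine Finset.sum_congr rfl fun x hx => ?_
      have i1 : IntervalIntegrable (f₁ x) volume (-Tv) Tv :=
        (hc₁ x hx).intervalIntegrable _ _
      have i2 : IntervalIntegrable (f₂ x) volume (-Tv) Tv :=
        (hc₂ x hx).intervalIntegrable _ _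
      have i3 : IntervalIntegrable (f₃ x) volume (-Tv) Tv :=
        (hc₃ x hx).intervalIntegrable _ _
      simp only [hF]
      rw [intervalIntegral.integral_add ((i1.const_mul _).add (i2.const_mul _)) (i3.const_mul _),
        intervalIntegral.integral_add (i1.const_mul _) (i2.const_mul _),
        intervalIntegral.integral_const_mul, intervalIntegral.integral_const_mul,
        intervalIntegral.integral_const_mul]
    have b1 : ∑ x ∈ S, ∫ t in (-Tv)..Tv, f₁ x t ≤ C₁ * A ^ 2 * (U : ℝ) ^ (2 * δ) *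
        (1 + Real.log U) * ((R : ℝ) ^ 2 * Tv + U) := by
      have := h1 R Tv hR hTv1 1 U (bz b z 0) A δ (σ + δ) le_rfl hU1 hA.le hδ.le (by linarith)
        (by linarith) (fun n h h' => by omega) (hbz b z hb)
      rw [hSP] at this
      refine this.trans ?_
      have e1 : ((1 : ℕ) : ℝ) ^ (1 - 2 * (σ + δ)) = 1 := by
        rw [Nat.cast_one, Real.one_rpow]
      have e2 : (U : ℝ) ^ (2 - 2 * (σ + δ)) ≤ U := by
        calc (U : ℝ) ^ (2 - 2 * (σ + δ)) ≤ (U : ℝ) ^ (1 : ℝ) :=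
              Real.rpow_le_rpow_of_exponent_le hU1r (by linarith)
          _ = U := Real.rpow_one _
      have e3 : 0 ≤ 1 + Real.log U := by
        have := Real.log_nonneg hU1r
        linarith
      rw [e1, mul_one]
      refine mul_le_mul_of_nonneg_left (by linarith) (by positivity)
    have b2 : ∑ x ∈ S, ∫ t in (-Tv)..Tv, f₂ x t ≤ C₂ * A ^ 2 * (U : ℝ) ^ (2 * δ) *
        ((R : ℝ) ^ 2 * Tv * (U : ℝ) ^ (-2 : ℝ) + (U : ℝ) ^ (-1 : ℝ)) := by
      have := h2 R Tv hR hTv1 U (bz b z 0) A δ (3 / 2) hU1 hA.le hδ.le hδ1 (by norm_num)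
        (by norm_num) (hbz b z hb)
      rw [hSP] at this
      have e1 : (1 : ℝ) - 2 * (3 / 2) = -2 := by norm_num
      have e2 : (2 : ℝ) - 2 * (3 / 2) = -1 := by norm_num
      have e3 : (((3 / 2 : ℝ)) : ℂ) = (3 / 2 : ℂ) := by push_cast; ring
      rw [e1, e2, e3] at this
      exact this
    have b3 : ∑ x ∈ S, ∫ t in (-Tv)..Tv, f₃ x t ≤ C₃ * ((R : ℝ) * Tv * z) ^ ε' *
        ((R : ℝ) ^ 2 * Tv + z * Real.sqrt (R * Tv)) := by
      have := h3 R Tv hR hTv1 z b hz hb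
      rw [hSP] at this
      simp only [hf₃, sub_zero]
      exact this
    -- the weights
    have hRTv : (R : ℝ) ^ 2 * Tv + U ≤ 2 * (q * X) := by
      have e1 : (R : ℝ) ^ 2 * Tv ≤ q * ((R : ℝ) ^ 2 * T) := by
        have := mul_le_mul_of_nonneg_left hTv2 (sq_nonneg (R : ℝ))
        linarith
      have e2 : (z : ℝ) * Real.sqrt (R * T) ≤ q * (z * Real.sqrt (R * T)) :=
        le_mul_of_one_le_left (by positivity) hq1
      have e3 : 0 ≤ q * ((R : ℝ) ^ 2 * T) := by positivity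
      rw [hX]
      linarith
    have t1 : w₁ * (∑ x ∈ S, ∫ t in (-Tv)..Tv, f₁ x t) ≤ K₁ * (E * X) * q := by
      have e1 : w₁ = (U : ℝ) ^ (2 * δ) * (1 / δ ^ 2) := by
        rw [hw₁, div_pow, ← Real.rpow_natCast ((U : ℝ) ^ δ) 2, ← Real.rpow_mul hU0.le]
        rw [show δ * ((2 : ℕ) : ℝ) = 2 * δ by push_cast; ring]
        ring
      calc w₁ * (∑ x ∈ S, ∫ t in (-Tv)..Tv, f₁ x t)
          ≤ w₁ * (C₁ * A ^ 2 * (U : ℝ) ^ (2 * δ) * (1 + Real.log U) * ((R : ℝ) ^ 2 * Tv + U)) :=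
            mul_le_mul_of_nonneg_left b1 hw₁0
        _ = (C₁ * A ^ 2 * (1 / δ ^ 2)) * ((U : ℝ) ^ (2 * δ) * (U : ℝ) ^ (2 * δ) *
            (1 + Real.log U)) * ((R : ℝ) ^ 2 * Tv + U) := by rw [e1]; ring
        _ ≤ (C₁ * A ^ 2 * (1 / δ ^ 2)) * (((1 + 2 / ε) * 2 ^ ε) * E) * (2 * (q * X)) := by
            refine mul_le_mul (mul_le_mul_of_nonneg_left hUE (by positivity)) hRTv
              (by positivity) (by positivity)
        _ = K₁ * (E * X) * q := by rw [hK₁]; ring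
    have t2 : w₂ * (∑ x ∈ S, ∫ t in (-Tv)..Tv, f₂ x t) ≤ K₂ * (E * X) * q := by
      have e1 : w₂ ≤ (U : ℝ) ^ (2 : ℝ) := Real.rpow_le_rpow_of_exponent_le hU1r (by linarith)
      have e2 : (U : ℝ) ^ (2 : ℝ) * (U : ℝ) ^ (-2 : ℝ) = 1 := by
        rw [← Real.rpow_add hU0]
        norm_num
      have e3 : (U : ℝ) ^ (2 : ℝ) * (U : ℝ) ^ (-1 : ℝ) = U := by
        rw [← Real.rpow_add hU0]
        norm_num
      calc w₂ * (∑ x ∈ S, ∫ t in (-Tv)..Tv, f₂ x t)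
          ≤ (U : ℝ) ^ (2 : ℝ) * (C₂ * A ^ 2 * (U : ℝ) ^ (2 * δ) *
            ((R : ℝ) ^ 2 * Tv * (U : ℝ) ^ (-2 : ℝ) + (U : ℝ) ^ (-1 : ℝ))) := by
            refine mul_le_mul e1 b2 ?_ (by positivity)
            exact Finset.sum_nonneg fun x _ => intervalIntegral.integral_nonneg (by linarith)
              fun t _ => sq_nonneg _
        _ = C₂ * A ^ 2 * (U : ℝ) ^ (2 * δ) * ((R : ℝ) ^ 2 * Tv *
            ((U : ℝ) ^ (2 : ℝ) * (U : ℝ) ^ (-2 : ℝ)) +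
            (U : ℝ) ^ (2 : ℝ) * (U : ℝ) ^ (-1 : ℝ)) := by ring
        _ = C₂ * A ^ 2 * (U : ℝ) ^ (2 * δ) * ((R : ℝ) ^ 2 * Tv + U) := by
            rw [e2, e3, mul_one]
        _ ≤ C₂ * A ^ 2 * (((1 + 2 / ε) * 2 ^ ε) * E) * (2 * (q * X)) := by
            refine mul_le_mul (mul_le_mul_of_nonneg_left hU2d (by positivity)) hRTv
              (by positivity) (by positivity)
        _ = K₂ * (E * X) * q := by rw [hK₂]; ring
    have t3 : w₃ * (∑ x ∈ S, ∫ t in (-Tv)..Tv, f₃ x t) ≤ K₃ * (E * X) * q ^ 2 := by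
      have e1 : w₃ ≤ 1 / d ^ 2 := by
        have g1 : (U : ℝ) ^ (1 / 2 - σ) ≤ 1 :=
          Real.rpow_le_one_of_one_le_of_nonpos hU1r (by linarith)
        have g2 : (U : ℝ) ^ (1 / 2 - σ) / (σ - 1 / 2) ≤ 1 / d :=
          div_le_div₀ zero_le_one g1 hd (by linarith)
        calc w₃ ≤ (1 / d) ^ 2 := pow_le_pow_left₀
              (div_nonneg (Real.rpow_nonneg hU0.le _) (by linarith)) g2 2
          _ = 1 / d ^ 2 := by rw [div_pow, one_pow]
      have e2 : ((R : ℝ) * Tv * z) ^ ε' ≤ E * q := by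
        calc ((R : ℝ) * Tv * z) ^ ε' ≤ ((R : ℝ) * T * z * q) ^ ε' := by
              refine Real.rpow_le_rpow (by positivity) ?_ hε'.le
              have : (R : ℝ) * z * Tv ≤ (R : ℝ) * z * (T * q) :=
                mul_le_mul_of_nonneg_left hTv2 (by positivity)
              linarith
          _ = ((R : ℝ) * T * z) ^ ε' * q ^ ε' := Real.mul_rpow (by positivity) hq0.le
          _ ≤ E * q := by
              refine mul_le_mul (Real.rpow_le_rpow_of_exponent_le hRTz hε'2) ?_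
                (by positivity) hE0
              calc q ^ ε' ≤ q ^ (1 : ℝ) := Real.rpow_le_rpow_of_exponent_le hq1 hε'1
                _ = q := Real.rpow_one q
      have e3 : (R : ℝ) ^ 2 * Tv + z * Real.sqrt (R * Tv) ≤ X * q := by
        have g1 : (R : ℝ) ^ 2 * Tv ≤ (R : ℝ) ^ 2 * (T * q) :=
          mul_le_mul_of_nonneg_left hTv2 (by positivity)
        have g2 : Real.sqrt (R * Tv) ≤ Real.sqrt (R * T) * q := by
          calc Real.sqrt (R * Tv) ≤ Real.sqrt (R * T * (q * q)) := by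
                apply Real.sqrt_le_sqrt
                have g3 : (R : ℝ) * Tv ≤ (R : ℝ) * (T * q) :=
                  mul_le_mul_of_nonneg_left hTv2 hR0.le
                have g4 : (R : ℝ) * (T * q) ≤ (R : ℝ) * (T * q) * q :=
                  le_mul_of_one_le_right (by positivity) hq1
                linarith
            _ = Real.sqrt (R * T) * q := by
                rw [Real.sqrt_mul (by positivity), Real.sqrt_mul_self hq0.le]
        have g5 := mul_le_mul_of_nonneg_left g2 hz0.le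
        rw [hX]
        linarith
      calc w₃ * (∑ x ∈ S, ∫ t in (-Tv)..Tv, f₃ x t)
          ≤ (1 / d ^ 2) * (C₃ * ((R : ℝ) * Tv * z) ^ ε' *
            ((R : ℝ) ^ 2 * Tv + z * Real.sqrt (R * Tv))) := by
            refine mul_le_mul e1 b3 ?_ (by positivity)
            exact Finset.sum_nonneg fun x _ => intervalIntegral.integral_nonneg (by linarith)
              fun t _ => sq_nonneg _
        _ ≤ (1 / d ^ 2) * (C₃ * (E * q) * (X * q)) := by
            refine mul_le_mul_of_nonneg_left ?_ (by positivity)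
            refine mul_le_mul (mul_le_mul_of_nonneg_left e2 (by linarith)) e3 (by positivity)
              (by positivity)
        _ = K₃ * (E * X) * q ^ 2 := by rw [hK₃]; ring
    rw [hsplit]
    have hqq : q ≤ q ^ 2 := by nlinarith
    have s1 : K₁ * (E * X) * q ≤ K₁ * (E * X) * q ^ 2 :=
      mul_le_mul_of_nonneg_left hqq (by positivity)
    have s2 : K₂ * (E * X) * q ≤ K₂ * (E * X) * q ^ 2 :=
      mul_le_mul_of_nonneg_left hqq (by positivity)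
    calc w₁ * (∑ x ∈ S, ∫ t in (-Tv)..Tv, f₁ x t) +
        w₂ * (∑ x ∈ S, ∫ t in (-Tv)..Tv, f₂ x t) + w₃ * (∑ x ∈ S, ∫ t in (-Tv)..Tv, f₃ x t)
        ≤ K₁ * (E * X) * q ^ 2 + K₂ * (E * X) * q ^ 2 + K₃ * (E * X) * q ^ 2 := by
          linarith
      _ = (K₁ + K₂ + K₃) * (E * X) * q ^ 2 := by ring

theorem cl_sig : type_of% @cl_sig_pr := @cl_sig_pr

end Pool.Agent.XT

/-! ### Block S2 -/

namespace Pool.Agent.XT

open Finset Complex MeasureTheory Pool.Agent.Var35 Pool.Agent.Var73 Pool.Agent.HC Pool.Agent.MF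
  Pool.Agent.XS
open scoped ArithmeticFunction ArithmeticFunction.Moebius

/-! ## Integrals -/

theorem s2_shift {G : ℝ → ℝ} (hG : Continuous G) (h0 : ∀ t, 0 ≤ G t) {T : ℝ} (hT : 0 ≤ T) (v : ℝ) :
    ∫ t in (-T)..T, G (t + v) ≤ ∫ t in (-(T + |v|))..(T + |v|), G t := by
  rw [intervalIntegral.integral_comp_add_right]
  refine intervalIntegral.integral_mono_interval ?_ ?_ ?_ (Filter.Eventually.of_forall h0)
    (hG.intervalIntegrable _ _)
  · linarith [neg_abs_le v]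
  · linarith
  · linarith [le_abs_self v]

theorem s2_int {G w B : ℝ → ℝ} (hG : Continuous G) (h0 : ∀ t, 0 ≤ G t) (hw : Continuous w)
    (hw0 : ∀ v, 0 ≤ w v) (hB : Integrable fun v => w v * B v) {T : ℝ} (hT : 0 ≤ T)
    (h : ∀ v, ∫ t in (-T)..T, G (t + v) ≤ B v) :
    Integrable (Function.uncurry fun t v => w v * G (t + v))
      ((volume.restrict (Set.Ioc (-T) T)).prod volume) := by
  have hTT : -T ≤ T := by linarith
  have hc : Continuous (Function.uncurry fun t v : ℝ => w v * G (t + v)) :=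
    (hw.comp continuous_snd).mul (hG.comp (continuous_fst.add continuous_snd))
  rw [MeasureTheory.integrable_prod_iff' hc.aestronglyMeasurable]
  refine ⟨Filter.Eventually.of_forall fun v => ?_, ?_⟩
  · have : Continuous fun t => w v * G (t + v) := by fun_prop
    exact this.integrableOn_Ioc
  · have h1 : ∀ v, ∫ t in Set.Ioc (-T) T, ‖w v * G (t + v)‖ = w v * ∫ t in (-T)..T, G (t + v) := by
      intro v
      rw [intervalIntegral.integral_of_le hTT, ← integral_const_mul]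
      refine integral_congr_ae (Filter.Eventually.of_forall fun t => ?_)
      simp only
      rw [Real.norm_of_nonneg (mul_nonneg (hw0 v) (h0 _))]
    have h2 : Continuous fun v => w v * ∫ t in (-T)..T, G (t + v) := by
      refine hw.mul (intervalIntegral.continuous_parametric_intervalIntegral_of_continuous' ?_ _ _)
      exact hG.comp (continuous_snd.add continuous_fst)
    have h3 : (fun v => ∫ t in Set.Ioc (-T) T, ‖(Function.uncurry fun t v => w v * G (t + v)) (t, v)‖)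
        = fun v => w v * ∫ t in (-T)..T, G (t + v) := by
      funext v
      exact h1 v
    rw [h3]
    refine hB.mono' h2.aestronglyMeasurable (Filter.Eventually.of_forall fun v => ?_)
    have h4 : 0 ≤ ∫ t in (-T)..T, G (t + v) := intervalIntegral.integral_nonneg hTT fun t _ => h0 _
    rw [Real.norm_of_nonneg (mul_nonneg (hw0 v) h4)]
    exact mul_le_mul_of_nonneg_left (h v) (hw0 v)

theorem s2_fub {ι : Type*} (S : Finset ι) (G : ι → ℝ → ℝ) (w B : ℝ → ℝ)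
    (hG : ∀ i ∈ S, Continuous (G i)) (h0 : ∀ i ∈ S, ∀ t, 0 ≤ G i t) (hw : Continuous w)
    (hw0 : ∀ v, 0 ≤ w v) (hB : Integrable fun v => w v * B v) {T : ℝ} (hT : 0 ≤ T)
    (h : ∀ v, ∑ i ∈ S, ∫ t in (-T)..T, G i (t + v) ≤ B v) :
    (∀ i ∈ S, IntervalIntegrable (fun t => ∫ v, w v * G i (t + v)) volume (-T) T) ∧
    ∑ i ∈ S, ∫ t in (-T)..T, ∫ v, w v * G i (t + v) ≤ ∫ v, w v * B v := by
  have hTT : -T ≤ T := by linarith
  have hn : ∀ i ∈ S, ∀ v, 0 ≤ ∫ t in (-T)..T, G i (t + v) := fun i hi v =>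
    intervalIntegral.integral_nonneg hTT fun t _ => h0 i hi _
  have hone : ∀ i ∈ S, ∀ v, ∫ t in (-T)..T, G i (t + v) ≤ B v := fun i hi v =>
    (Finset.single_le_sum (f := fun i => ∫ t in (-T)..T, G i (t + v))
      (fun j hj => hn j hj v) hi).trans (h v)
  have hI : ∀ i ∈ S, Integrable (Function.uncurry fun t v => w v * G i (t + v))
      ((volume.restrict (Set.Ioc (-T) T)).prod volume) := fun i hi =>
    s2_int (hG i hi) (h0 i hi) hw hw0 hB hT (hone i hi)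
  refine ⟨fun i hi => ?_, ?_⟩
  · rw [intervalIntegrable_iff_integrableOn_Ioc_of_le hTT]
    exact (hI i hi).integral_prod_left
  · have h1 : ∀ i ∈ S, ∫ t in (-T)..T, ∫ v, w v * G i (t + v) =
        ∫ v, w v * ∫ t in (-T)..T, G i (t + v) := by
      intro i hi
      rw [intervalIntegral.integral_of_le hTT,
        MeasureTheory.integral_integral_swap (hI i hi)]
      refine integral_congr_ae (Filter.Eventually.of_forall fun v => ?_)
      simp only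
      rw [intervalIntegral.integral_of_le hTT, ← integral_const_mul]
    have hIv : ∀ i ∈ S, Integrable fun v => w v * ∫ t in (-T)..T, G i (t + v) := by
      intro i hi
      have h2 := (hI i hi).integral_prod_right
      refine h2.congr (Filter.Eventually.of_forall fun v => ?_)
      simp only [Function.uncurry]
      rw [intervalIntegral.integral_of_le hTT, ← integral_const_mul]
    rw [Finset.sum_congr rfl h1, ← integral_finsetSum _ hIv]
    refine integral_mono (integrable_finsetSum _ hIv) hB fun v => ?_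
    simp only
    rw [← Finset.mul_sum]
    exact mul_le_mul_of_nonneg_left (h v) (hw0 v)

/-! ## Continuity -/

theorem s2_MB_cont (a : ℕ → ℂ) (N : ℕ) {q : ℕ} (χ : DirichletCharacter ℂ q) (s : ℂ) :
    Continuous fun t : ℝ => MB a N χ (s + t * I) := by
  unfold MB
  refine continuous_finsetSum _ fun n hn => ?_
  have hn0 : (n : ℂ) ≠ 0 := by
    have := (Finset.mem_Icc.1 hn).1
    exact_mod_cast (by omega : n ≠ 0)
  exact continuous_const.mul (Continuous.const_cpow (by fun_prop) (Or.inl hn0))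

theorem s2_TB_cont (a : ℕ → ℂ) (N : ℕ) {A d : ℝ} (hd : d ≤ 1 / 4)
    (ha : ∀ n : ℕ, 1 ≤ n → ‖a n‖ ≤ A * (n : ℝ) ^ d) {q : ℕ} (χ : DirichletCharacter ℂ q) :
    Continuous fun t : ℝ => TB a N χ ((3 / 2 : ℂ) + t * I) := by
  unfold TB
  refine continuous_tsum (u := fun n : ℕ => |A| * (n : ℝ) ^ (-(5 / 4) : ℝ)) (fun n => ?_) ?_
    fun n t => ?_
  · by_cases h : n ≤ N
    · simp only [if_pos h]
      exact continuous_const
    · simp only [if_neg h]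
      have hn0 : (n : ℂ) ≠ 0 := by exact_mod_cast (by omega : n ≠ 0)
      exact continuous_const.mul (Continuous.const_cpow (by fun_prop) (Or.inl hn0))
  · refine Summable.mul_left _ ?_
    exact Real.summable_nat_rpow.2 (by norm_num)
  · by_cases h : n ≤ N
    · simp only [if_pos h, norm_zero]
      positivity
    · simp only [if_neg h]
      have hn1 : 1 ≤ n := by omega
      have hnp : (0 : ℝ) < n := by exact_mod_cast hn1
      have hn1' : (1 : ℝ) ≤ n := by exact_mod_cast hn1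
      rw [norm_mul, norm_mul, Complex.norm_natCast_cpow_of_pos hn1]
      have h1 : (-((3 / 2 : ℂ) + (t : ℂ) * I)).re = -(3 / 2 : ℝ) := by
        simp
      rw [h1]
      have h2 : ‖χ (n : ZMod q)‖ ≤ 1 := DirichletCharacter.norm_le_one χ _
      have h3 : A * (n : ℝ) ^ d ≤ |A| * (n : ℝ) ^ (1 / 4 : ℝ) :=
        mul_le_mul (le_abs_self A) (Real.rpow_le_rpow_of_exponent_le hn1' hd) (by positivity)
          (abs_nonneg A)
      calc ‖a n‖ * ‖χ (n : ZMod q)‖ * (n : ℝ) ^ (-(3 / 2) : ℝ)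
          ≤ (|A| * (n : ℝ) ^ (1 / 4 : ℝ)) * 1 * (n : ℝ) ^ (-(3 / 2) : ℝ) := by
            gcongr
            exact (ha n hn1).trans h3
        _ = |A| * (n : ℝ) ^ (-(5 / 4) : ℝ) := by
            rw [mul_one, mul_assoc, ← Real.rpow_add hnp]
            norm_num

theorem s2_LF_cont {r : ℕ} (χ : DirichletCharacter ℂ r) {c : ℝ} (hc : c < 1) :
    Continuous fun t : ℝ => GA.LF χ ((c : ℂ) + t * I) := by
  unfold GA.LF
  by_cases h : r = 0
  · simp only [dif_pos h]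
    exact continuous_const
  · simp only [dif_neg h]
    have : NeZero r := ⟨h⟩
    rw [continuous_iff_continuousAt]
    intro t
    have h1 : (c : ℂ) + t * I ≠ 1 := by
      intro h2
      have := congrArg Complex.re h2
      simp at this
      linarith
    have h3 := (DirichletCharacter.differentiableAt_LFunction χ _ (Or.inl h1)).continuousAt
    have h4 : ContinuousAt (fun t : ℝ => (c : ℂ) + (t : ℂ) * I) t := by fun_prop
    exact ContinuousAt.comp (f := fun t : ℝ => (c : ℂ) + (t : ℂ) * I) h3 h4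

/-! ## The coefficients -/

theorem s2_mu_le (n : ℕ) : ‖((μ n : ℤ) : ℂ)‖ ≤ 1 := by
  have h := ArithmeticFunction.abs_moebius_le_one (n := n)
  rw [Complex.norm_intCast]
  exact_mod_cast h

theorem s2_bz_zero {z n : ℕ} (h1 : 1 ≤ n) (hn : n ≤ z) : bz (fun n => (μ n : ℂ)) z 1 n = 0 := by
  unfold bz
  have h2 : n.divisors.filter (fun d => d ≤ z) = n.divisors := by
    refine Finset.filter_true_of_mem fun d hd => ?_
    exact (Nat.divisor_le hd).trans hn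
  rw [h2]
  have h3 : ∑ d ∈ n.divisors, (μ d : ℤ) = if n = 1 then 1 else 0 := by
    have := ArithmeticFunction.coe_mul_zeta_apply (f := μ) (x := n)
    rw [← this, ArithmeticFunction.moebius_mul_coe_zeta]
    rw [ArithmeticFunction.one_apply]
  have h4 : ∑ d ∈ n.divisors, ((μ d : ℤ) : ℂ) = ((∑ d ∈ n.divisors, (μ d : ℤ) : ℤ) : ℂ) := by
    push_cast
    rfl
  rw [h4, h3]
  split_ifs <;> simp

theorem s2_bz_le {z n : ℕ} (hz : 1 ≤ z) (h1 : 1 ≤ n) :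
    ‖bz (fun n => (μ n : ℂ)) z 1 n‖ ≤ (n.divisors.card : ℝ) := by
  by_cases hn : n ≤ z
  · rw [s2_bz_zero h1 hn, norm_zero]
    positivity
  · have hn1 : n ≠ 1 := by omega
    unfold bz
    rw [if_neg hn1, sub_zero]
    calc ‖∑ d ∈ n.divisors.filter (fun d => d ≤ z), ((μ d : ℤ) : ℂ)‖
        ≤ ∑ d ∈ n.divisors.filter (fun d => d ≤ z), ‖((μ d : ℤ) : ℂ)‖ := norm_sum_le _ _
      _ ≤ ∑ d ∈ n.divisors.filter (fun d => d ≤ z), (1 : ℝ) :=
          Finset.sum_le_sum fun d _ => s2_mu_le d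
      _ = ((n.divisors.filter (fun d => d ≤ z)).card : ℝ) := by simp
      _ ≤ (n.divisors.card : ℝ) := by
          exact_mod_cast Finset.card_le_card (Finset.filter_subset _ _)

/-! ## Sums over the family -/

theorem s2_SP (R : ℕ) (f : (r : ℕ) → DirichletCharacter ℂ r → ℝ) :
    SP R f = ∑ i ∈ (Ico R (2 * R)).sigma (fun r => Pr r), f i.1 i.2 := by
  unfold SP
  rw [Finset.sum_sigma]

theorem s2_SP_mono {R : ℕ} {f g : (r : ℕ) → DirichletCharacter ℂ r → ℝ}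
    (h : ∀ r, ∀ χ ∈ Pr r, f r χ ≤ g r χ) : SP R f ≤ SP R g := by
  unfold SP
  exact Finset.sum_le_sum fun r _ => Finset.sum_le_sum fun χ hχ => h r χ hχ

theorem s2_SP_add (R : ℕ) (f g : (r : ℕ) → DirichletCharacter ℂ r → ℝ) :
    SP R (fun r χ => f r χ + g r χ) = SP R f + SP R g := by
  unfold SP
  simp only [Finset.sum_add_distrib]

theorem s2_SP_mul (R : ℕ) (c : ℝ) (f : (r : ℕ) → DirichletCharacter ℂ r → ℝ) :
    SP R (fun r χ => c * f r χ) = c * SP R f := by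
  unfold SP
  simp only [Finset.mul_sum]

theorem s2_SP_const {R : ℕ} (hR : 1 ≤ R) {c : ℝ} (hc : 0 ≤ c) :
    SP R (fun _ _ => c) ≤ 2 * (R : ℝ) ^ 2 * c := by
  unfold SP
  calc ∑ r ∈ Ico R (2 * R), ∑ _χ ∈ Pr r, c
      = ∑ r ∈ Ico R (2 * R), ((Pr r).card : ℝ) * c := by
        refine Finset.sum_congr rfl fun r _ => ?_
        rw [Finset.sum_const, nsmul_eq_mul]
    _ ≤ ∑ _r ∈ Ico R (2 * R), (2 * (R : ℝ)) * c := by
        refine Finset.sum_le_sum fun r hr => ?_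
        rw [Finset.mem_Ico] at hr
        have h1 := ke1_card r (hR.trans hr.1)
        have h2 : (r : ℝ) ≤ 2 * R := by exact_mod_cast hr.2.le
        exact mul_le_mul_of_nonneg_right (h1.trans h2) hc
    _ = 2 * (R : ℝ) ^ 2 * c := by
        rw [Finset.sum_const, Nat.card_Ico, nsmul_eq_mul]
        have : 2 * R - R = R := by omega
        rw [this]
        ring

/-! ## Powers -/

theorem s2_e1 {c Y U : ℝ} (hc : 3 / 4 ≤ c) (hc1 : c < 1) (hY : 1 ≤ Y) (hU : 1 ≤ U)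
    (hU2 : U ≤ 2 * Y) : U ^ (2 - 2 * c) ≤ 2 * Y ^ (2 - 2 * c) := by
  have h1 : U ^ (2 - 2 * c) ≤ (2 * Y) ^ (2 - 2 * c) :=
    Real.rpow_le_rpow (by linarith) hU2 (by linarith)
  rw [Real.mul_rpow (by norm_num) (by linarith)] at h1
  have h2 : (2 : ℝ) ^ (2 - 2 * c) ≤ 2 ^ (1 : ℝ) :=
    Real.rpow_le_rpow_of_exponent_le (by norm_num) (by linarith)
  rw [Real.rpow_one] at h2
  exact h1.trans (mul_le_mul_of_nonneg_right h2 (by positivity))

theorem s2_e4 {ε e U Y Q : ℝ} (he : e ≤ ε) (hε : 0 ≤ ε) (hU : 1 ≤ U) (hU2 : U ≤ 2 * Y)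
    (hY : Y ≤ Q) : U ^ e ≤ 2 ^ ε * Q ^ ε := by
  have hQ : 0 ≤ Q := by linarith
  rw [← Real.mul_rpow (by norm_num) hQ]
  exact (Real.rpow_le_rpow_of_exponent_le hU he).trans
    (Real.rpow_le_rpow (by linarith) (by linarith) hε)

/-- head -/
theorem s2_n1 {c ε δ η κ A C R T z U Y V T' X : ℝ} (hc : 3 / 4 ≤ c) (hc1 : c < 1) (hη : 0 < η)
    (hκ : 0 < κ) (hδ : 0 ≤ δ) (he : 2 * η + 2 * δ + κ ≤ ε) (hC : 0 ≤ C)
    (hR : 1 ≤ R) (hT : 1 ≤ T) (hz : 1 ≤ z) (hY1 : 1 ≤ Y) (hYQ : Y ≤ R * T * z)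
    (hU : 1 ≤ U) (hU2 : U ≤ 2 * Y) (hV : 1 ≤ V) (hT1 : 0 ≤ T') (hT' : T' ≤ T * V)
    (hX : X ≤ C * A ^ 2 * U ^ (2 * δ) * (1 + Real.log U) *
        (R ^ 2 * T' * z ^ (1 - 2 * (c + η)) + U ^ (2 - 2 * (c + η)))) :
    (U ^ η / η) ^ 2 * X ≤ (C * (A / η) ^ 2 * (1 + 1 / κ) * 2 ^ ε * 2) *
      ((R * T * z) ^ ε * (R ^ 2 * T * z ^ (1 - 2 * c) + Y ^ (2 - 2 * c)) * V ^ 2) := by
  have hU0 : 0 < U := by linarith
  have hlog : 0 ≤ Real.log U := Real.log_nonneg hU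
  have hz1 : z ^ (1 - 2 * (c + η)) ≤ z ^ (1 - 2 * c) :=
    Real.rpow_le_rpow_of_exponent_le hz (by linarith)
  have hU1 : U ^ (2 - 2 * (c + η)) ≤ 2 * Y ^ (2 - 2 * c) :=
    (Real.rpow_le_rpow_of_exponent_le hU (by linarith)).trans (s2_e1 hc hc1 hY1 hU hU2)
  set m1 := z ^ (1 - 2 * c) with hm1
  set m2 := Y ^ (2 - 2 * c) with hm2
  have hm1p : 0 ≤ m1 := by positivity
  have hm2p : 0 ≤ m2 := by positivity
  have hz0 : 0 ≤ z ^ (1 - 2 * (c + η)) := by positivity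
  have hb : R ^ 2 * T' * z ^ (1 - 2 * (c + η)) + U ^ (2 - 2 * (c + η)) ≤
      2 * (R ^ 2 * T * m1 + m2) * V := by
    have h1 : R ^ 2 * T' * z ^ (1 - 2 * (c + η)) ≤ R ^ 2 * (T * V) * m1 := by
      calc R ^ 2 * T' * z ^ (1 - 2 * (c + η)) ≤ R ^ 2 * (T * V) * z ^ (1 - 2 * (c + η)) := by
            gcongr
        _ ≤ R ^ 2 * (T * V) * m1 := by gcongr
    have h2 : 0 ≤ R ^ 2 * (T * V) * m1 := by positivity
    have h3 : m2 ≤ m2 * V := le_mul_of_one_le_right hm2p hV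
    nlinarith
  have hlg : 1 + Real.log U ≤ (1 + 1 / κ) * U ^ κ := by
    have h1 := Real.log_le_rpow_div hU0.le hκ
    have h2 : 1 ≤ U ^ κ := Real.one_le_rpow hU hκ.le
    have h3 : (1 + 1 / κ) * U ^ κ = U ^ κ + U ^ κ / κ := by ring
    rw [h3]
    linarith
  have hpow : (U ^ η) ^ 2 * U ^ (2 * δ) * U ^ κ ≤ 2 ^ ε * (R * T * z) ^ ε := by
    have h1 : (U ^ η) ^ 2 * U ^ (2 * δ) * U ^ κ = U ^ (2 * η + 2 * δ + κ) := by
      rw [Real.rpow_add hU0, Real.rpow_add hU0]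
      congr 2
      rw [← Real.rpow_natCast, ← Real.rpow_mul hU0.le]
      congr 1
      push_cast
      ring
    rw [h1]
    exact s2_e4 he (by linarith) hU hU2 hYQ
  have hκ1 : 0 ≤ 1 + 1 / κ := by positivity
  calc (U ^ η / η) ^ 2 * X
      ≤ (U ^ η / η) ^ 2 * (C * A ^ 2 * U ^ (2 * δ) * (1 + Real.log U) *
        (R ^ 2 * T' * z ^ (1 - 2 * (c + η)) + U ^ (2 - 2 * (c + η)))) := by gcongr
    _ ≤ (U ^ η / η) ^ 2 * (C * A ^ 2 * U ^ (2 * δ) * ((1 + 1 / κ) * U ^ κ) *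
        (2 * (R ^ 2 * T * m1 + m2) * V)) := by gcongr
    _ = (C * (A / η) ^ 2 * (1 + 1 / κ) * 2) * ((U ^ η) ^ 2 * U ^ (2 * δ) * U ^ κ) *
        ((R ^ 2 * T * m1 + m2) * V) := by
        field_simp
    _ ≤ (C * (A / η) ^ 2 * (1 + 1 / κ) * 2) * (2 ^ ε * (R * T * z) ^ ε) *
        ((R ^ 2 * T * m1 + m2) * V ^ 2) := by
        have h1 : V ≤ V ^ 2 := by nlinarith
        gcongr
    _ = _ := by ring

/-- tail -/
theorem s2_n2 {c ε δ A C R T z U Y V T' X : ℝ} (hc : 3 / 4 ≤ c) (hc1 : c < 1)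
    (hδ : 0 ≤ δ) (he : 2 * δ ≤ ε) (hC : 0 ≤ C)
    (hR : 1 ≤ R) (hT : 1 ≤ T) (hz : 1 ≤ z) (hY1 : 1 ≤ Y) (hYQ : Y ≤ R * T * z)
    (hU : 1 ≤ U) (hU2 : U ≤ 2 * Y) (hzU : z ≤ U) (hV : 1 ≤ V) (hT1 : 0 ≤ T') (hT' : T' ≤ T * V)
    (hX : X ≤ C * A ^ 2 * U ^ (2 * δ) *
        (R ^ 2 * T' * U ^ (1 - 2 * (3 / 2 : ℝ)) + U ^ (2 - 2 * (3 / 2 : ℝ)))) :
    U ^ (3 - 2 * c) * X ≤ (C * A ^ 2 * 2 ^ ε * 2) *
      ((R * T * z) ^ ε * (R ^ 2 * T * z ^ (1 - 2 * c) + Y ^ (2 - 2 * c)) * V ^ 2) := by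
  have hU0 : 0 < U := by linarith
  have hz0 : 0 < z := by linarith
  have hUz : U ^ (1 - 2 * c) ≤ z ^ (1 - 2 * c) :=
    Real.rpow_le_rpow_of_nonpos hz0 hzU (by linarith)
  have hU1 : U ^ (2 - 2 * c) ≤ 2 * Y ^ (2 - 2 * c) := s2_e1 hc hc1 hY1 hU hU2
  have e1 : U ^ (3 - 2 * c) * U ^ (1 - 2 * (3 / 2 : ℝ)) = U ^ (1 - 2 * c) := by
    rw [← Real.rpow_add hU0]
    congr 1
    ring
  have e2 : U ^ (3 - 2 * c) * U ^ (2 - 2 * (3 / 2 : ℝ)) = U ^ (2 - 2 * c) := by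
    rw [← Real.rpow_add hU0]
    congr 1
    ring
  set m1 := z ^ (1 - 2 * c) with hm1
  set m2 := Y ^ (2 - 2 * c) with hm2
  have hm1p : 0 ≤ m1 := by positivity
  have hm2p : 0 ≤ m2 := by positivity
  have hpow : U ^ (2 * δ) ≤ 2 ^ ε * (R * T * z) ^ ε := s2_e4 he (by linarith) hU hU2 hYQ
  have hb : R ^ 2 * T' * U ^ (1 - 2 * c) + U ^ (2 - 2 * c) ≤ 2 * (R ^ 2 * T * m1 + m2) * V := by
    have hp : 0 ≤ U ^ (1 - 2 * c) := by positivity
    have h1 : R ^ 2 * T' * U ^ (1 - 2 * c) ≤ R ^ 2 * (T * V) * m1 := by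
      calc R ^ 2 * T' * U ^ (1 - 2 * c) ≤ R ^ 2 * (T * V) * U ^ (1 - 2 * c) := by
            gcongr
        _ ≤ R ^ 2 * (T * V) * m1 := by gcongr
    have h2 : 0 ≤ R ^ 2 * (T * V) * m1 := by positivity
    have h3 : m2 ≤ m2 * V := le_mul_of_one_le_right hm2p hV
    nlinarith
  calc U ^ (3 - 2 * c) * X
      ≤ U ^ (3 - 2 * c) * (C * A ^ 2 * U ^ (2 * δ) *
        (R ^ 2 * T' * U ^ (1 - 2 * (3 / 2 : ℝ)) + U ^ (2 - 2 * (3 / 2 : ℝ)))) := by gcongr
    _ = C * A ^ 2 * U ^ (2 * δ) * (R ^ 2 * T' * (U ^ (3 - 2 * c) * U ^ (1 - 2 * (3 / 2 : ℝ))) +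
          U ^ (3 - 2 * c) * U ^ (2 - 2 * (3 / 2 : ℝ))) := by ring
    _ = C * A ^ 2 * U ^ (2 * δ) * (R ^ 2 * T' * U ^ (1 - 2 * c) + U ^ (2 - 2 * c)) := by
        rw [e1, e2]
    _ ≤ C * A ^ 2 * (2 ^ ε * (R * T * z) ^ ε) * (2 * (R ^ 2 * T * m1 + m2) * V) := by gcongr
    _ ≤ C * A ^ 2 * (2 ^ ε * (R * T * z) ^ ε) * (2 * (R ^ 2 * T * m1 + m2) * V ^ 2) := by
        have h1 : V ≤ V ^ 2 := by nlinarith
        gcongr
    _ = _ := by ring

/-- the left line -/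
theorem s2_n3 {c ε ε' C R T z U V T' X : ℝ} (hc : 3 / 4 ≤ c) (hc1 : c < 1)
    (hε' : 0 ≤ ε') (hε1 : ε' ≤ 1) (hee : ε' ≤ ε) (hC : 0 ≤ C)
    (hR : 1 ≤ R) (hT : 1 ≤ T) (hz : 1 ≤ z)
    (hYU : z * Real.sqrt (R * T) ≤ U) (hzU : z ≤ U) (hV : 1 ≤ V)
    (hT1 : 0 ≤ T') (hT' : T' ≤ T * V)
    (hX : X ≤ C * (R * T' * z) ^ ε' * (R ^ 2 * T' + z * Real.sqrt (R * T'))) :
    (U ^ (1 / 2 - c) / (c - 1 / 2)) ^ 2 * (2 * X + 2 * (2 * R ^ 2 * (2 * T'))) ≤
      (16 * (2 * C + 8)) * ((R * T * z) ^ ε * (R ^ 2 * T * z ^ (1 - 2 * c) +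
        (z * Real.sqrt (R * T)) ^ (2 - 2 * c)) * V ^ 2) := by
  have hs1 : 1 ≤ Real.sqrt (R * T) := by
    rw [Real.one_le_sqrt]
    nlinarith
  set Y := z * Real.sqrt (R * T) with hY
  have hY1 : 1 ≤ Y := by nlinarith
  have hY0 : 0 < Y := by linarith
  have hU0 : 0 < U := by linarith
  have hz0 : 0 < z := by linarith
  have hQ1 : 1 ≤ R * T * z := by
    have : 1 ≤ R * T := by nlinarith
    nlinarith
  have hUz : U ^ (1 - 2 * c) ≤ z ^ (1 - 2 * c) :=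
    Real.rpow_le_rpow_of_nonpos hz0 hzU (by linarith)
  have hUY : U ^ (1 - 2 * c) ≤ Y ^ (1 - 2 * c) :=
    Real.rpow_le_rpow_of_nonpos hY0 hYU (by linarith)
  have hYY : Y ^ (1 - 2 * c) * Y = Y ^ (2 - 2 * c) := by
    nth_rewrite 2 [← Real.rpow_one Y]
    rw [← Real.rpow_add hY0]
    congr 1
    ring
  have ha : (U ^ (1 / 2 - c) / (c - 1 / 2)) ^ 2 ≤ 16 * U ^ (1 - 2 * c) := by
    have h1 : (U ^ (1 / 2 - c)) ^ 2 = U ^ (1 - 2 * c) := by
      rw [← Real.rpow_natCast, ← Real.rpow_mul hU0.le]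
      congr 1
      push_cast
      ring
    rw [div_pow, h1, div_le_iff₀ (by nlinarith)]
    have h2 : (1 : ℝ) / 16 ≤ (c - 1 / 2) ^ 2 := by nlinarith
    have h3 : 0 ≤ U ^ (1 - 2 * c) := by positivity
    nlinarith
  have hP : (R * T' * z) ^ ε' ≤ (R * T * z) ^ ε * V := by
    have h1 : (R * T' * z) ^ ε' ≤ (R * T * z * V) ^ ε' := by
      refine Real.rpow_le_rpow (by positivity) ?_ hε'
      calc R * T' * z ≤ R * (T * V) * z := by gcongr
        _ = R * T * z * V := by ring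
    have h1' : (R * T * z * V) ^ ε' = (R * T * z) ^ ε' * V ^ ε' :=
      Real.mul_rpow (by positivity) (by positivity)
    rw [h1'] at h1
    have h2 : (R * T * z) ^ ε' ≤ (R * T * z) ^ ε := Real.rpow_le_rpow_of_exponent_le hQ1 hee
    have h3 : V ^ ε' ≤ V ^ (1 : ℝ) := Real.rpow_le_rpow_of_exponent_le hV hε1
    rw [Real.rpow_one] at h3
    exact h1.trans (mul_le_mul h2 h3 (by positivity) (by positivity))
  have hS : Real.sqrt (R * T') ≤ Real.sqrt (R * T) * V := by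
    have h1 : R * T' ≤ (R * T) * V ^ 2 := by
      calc R * T' ≤ R * (T * V) := by gcongr
        _ = R * T * V := by ring
        _ ≤ R * T * V ^ 2 := by
          have h1 : V ≤ V ^ 2 := by nlinarith
          gcongr
    calc Real.sqrt (R * T') ≤ Real.sqrt ((R * T) * V ^ 2) := Real.sqrt_le_sqrt h1
      _ = Real.sqrt (R * T) * V := by
        rw [Real.sqrt_mul (by positivity), Real.sqrt_sq (by linarith)]
  have hP1 : 1 ≤ (R * T * z) ^ ε := Real.one_le_rpow hQ1 (by linarith)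
  have hX2 : 2 * X + 2 * (2 * R ^ 2 * (2 * T')) ≤
      (2 * C + 8) * ((R * T * z) ^ ε * V) * ((R ^ 2 * T + Y) * V) := by
    have h1 : R ^ 2 * T' + z * Real.sqrt (R * T') ≤ (R ^ 2 * T + Y) * V := by
      have h2 : R ^ 2 * T' ≤ R ^ 2 * (T * V) := by gcongr
      have h3 : z * Real.sqrt (R * T') ≤ z * (Real.sqrt (R * T) * V) := by gcongr
      calc _ ≤ R ^ 2 * (T * V) + z * (Real.sqrt (R * T) * V) := add_le_add h2 h3
        _ = _ := by rw [hY]; ring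
    have h4 : X ≤ C * ((R * T * z) ^ ε * V) * ((R ^ 2 * T + Y) * V) := by
      refine hX.trans ?_
      gcongr
    have h5 : 2 * (2 * R ^ 2 * (2 * T')) ≤ 8 * ((R * T * z) ^ ε * V) * ((R ^ 2 * T + Y) * V) := by
      have h6 : R ^ 2 * T' ≤ (R ^ 2 * T + Y) * V := by
        calc R ^ 2 * T' ≤ R ^ 2 * (T * V) := by gcongr
          _ = (R ^ 2 * T) * V := by ring
          _ ≤ (R ^ 2 * T + Y) * V := by gcongr; linarith
      have h7 : 1 ≤ (R * T * z) ^ ε * V := by nlinarith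
      have h8 : 0 ≤ (R ^ 2 * T + Y) * V := by positivity
      calc 2 * (2 * R ^ 2 * (2 * T')) = 8 * 1 * (R ^ 2 * T') := by ring
        _ ≤ 8 * ((R * T * z) ^ ε * V) * ((R ^ 2 * T + Y) * V) := by
          gcongr
    calc 2 * X + 2 * (2 * R ^ 2 * (2 * T'))
        ≤ 2 * (C * ((R * T * z) ^ ε * V) * ((R ^ 2 * T + Y) * V)) +
          8 * ((R * T * z) ^ ε * V) * ((R ^ 2 * T + Y) * V) := by linarith
      _ = _ := by ring
  have hM : U ^ (1 - 2 * c) * (R ^ 2 * T + Y) ≤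
      R ^ 2 * T * z ^ (1 - 2 * c) + Y ^ (2 - 2 * c) := by
    calc U ^ (1 - 2 * c) * (R ^ 2 * T + Y)
        = R ^ 2 * T * U ^ (1 - 2 * c) + U ^ (1 - 2 * c) * Y := by ring
      _ ≤ R ^ 2 * T * z ^ (1 - 2 * c) + Y ^ (1 - 2 * c) * Y := by gcongr
      _ = _ := by rw [hYY]
  have hpos : 0 ≤ (2 * C + 8) * ((R * T * z) ^ ε * V) * ((R ^ 2 * T + Y) * V) := by positivity
  have hU00 : 0 ≤ U ^ (1 - 2 * c) := by positivity
  calc (U ^ (1 / 2 - c) / (c - 1 / 2)) ^ 2 * (2 * X + 2 * (2 * R ^ 2 * (2 * T')))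
      ≤ (U ^ (1 / 2 - c) / (c - 1 / 2)) ^ 2 *
        ((2 * C + 8) * ((R * T * z) ^ ε * V) * ((R ^ 2 * T + Y) * V)) := by gcongr
    _ ≤ (16 * U ^ (1 - 2 * c)) * ((2 * C + 8) * ((R * T * z) ^ ε * V) * ((R ^ 2 * T + Y) * V)) := by
        gcongr
    _ = (16 * (2 * C + 8)) * ((R * T * z) ^ ε * (U ^ (1 - 2 * c) * (R ^ 2 * T + Y)) * V ^ 2) := by
        ring
    _ ≤ _ := by gcongr

/-! ## The integral over the left line -/

theorem s2_one {X : ℝ → ℂ} (hX : Continuous X) {T : ℝ} (hT : 0 ≤ T) :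
    ∫ t in (-T)..T, ‖X t - 1‖ ^ 2 ≤ 2 * (∫ t in (-T)..T, ‖X t‖ ^ 2) + 4 * T := by
  have h1 : ∫ t in (-T)..T, ‖X t - 1‖ ^ 2 ≤ ∫ t in (-T)..T, (2 * ‖X t‖ ^ 2 + 2) := by
    refine intervalIntegral.integral_mono_on (by linarith) ?_ ?_ fun t _ => ?_
    · exact (by fun_prop : Continuous fun t => ‖X t - 1‖ ^ 2).intervalIntegrable _ _
    · exact (by fun_prop : Continuous fun t => 2 * ‖X t‖ ^ 2 + 2).intervalIntegrable _ _
    · have h2 : ‖X t - 1‖ ≤ ‖X t‖ + 1 := by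
        calc ‖X t - 1‖ ≤ ‖X t‖ + ‖(1 : ℂ)‖ := norm_sub_le _ _
          _ = ‖X t‖ + 1 := by rw [norm_one]
      have h3 : 0 ≤ ‖X t - 1‖ := norm_nonneg _
      nlinarith [sq_nonneg (‖X t‖ - 1)]
  have h4 : ∫ t in (-T)..T, (2 * ‖X t‖ ^ 2 + 2) = 2 * (∫ t in (-T)..T, ‖X t‖ ^ 2) + 4 * T := by
    rw [intervalIntegral.integral_add, intervalIntegral.integral_const_mul,
      intervalIntegral.integral_const, smul_eq_mul]
    · ring
    · exact (by fun_prop : Continuous fun t => 2 * ‖X t‖ ^ 2).intervalIntegrable _ _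
    · exact continuous_const.intervalIntegrable _ _
  exact h1.trans h4.le

theorem s2_lin {f g h : ℝ → ℝ} (hf : Continuous f) (hg : Continuous g) (hh : Continuous h)
    (a b c T : ℝ) : ∫ t in (-T)..T, (a * f t + b * g t + c * h t) =
      a * (∫ t in (-T)..T, f t) + b * (∫ t in (-T)..T, g t) + c * (∫ t in (-T)..T, h t) := by
  rw [intervalIntegral.integral_add, intervalIntegral.integral_add,
    intervalIntegral.integral_const_mul, intervalIntegral.integral_const_mul,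
    intervalIntegral.integral_const_mul]
  · exact (by fun_prop : Continuous fun t => a * f t).intervalIntegrable _ _
  · exact (by fun_prop : Continuous fun t => b * g t).intervalIntegrable _ _
  · exact (by fun_prop : Continuous fun t => a * f t + b * g t).intervalIntegrable _ _
  · exact (by fun_prop : Continuous fun t => c * h t).intervalIntegrable _ _

theorem s2_W : Integrable fun v : ℝ => ZP.Gw 1 v * (1 + |v|) ^ 2 := by
  refine ZP.Gw_integrable_mul 1 (C := 2) (by fun_prop) fun v => ?_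
  have h1 := ZP.one_add_pow_le 2 v
  have h2 : |(1 + |v|) ^ 2| = (1 + |v|) ^ 2 := abs_of_nonneg (by positivity)
  rw [h2]
  push_cast at h1
  have h3 := Real.exp_pos (2 * |v|)
  linarith

theorem mv1_pr {c ε : ℝ} (hc : 3 / 4 ≤ c) (hc1 : c < 1) (hε : 0 < ε) : ∃ C : ℝ, 1 ≤ C ∧
    ∀ (R : ℕ) (T : ℝ), 1 ≤ R → 1 ≤ T → ∀ z : ℕ, 1 ≤ z →
    SP R (fun _ χ => ∫ t in (-T)..T, ‖1 - GA.LF χ ((c : ℂ) + t * I) *
      MM z χ ((c : ℂ) + t * I)‖ ^ 2) ≤
      C * ((R : ℝ) * T * z) ^ ε * ((R : ℝ) ^ 2 * T * (z : ℝ) ^ (1 - 2 * c) +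
        ((z : ℝ) * Real.sqrt (R * T)) ^ (2 - 2 * c)) := by
  obtain ⟨δ, hδ0, hδ1, hδ2⟩ : ∃ δ : ℝ, 0 < δ ∧ δ ≤ ε / 8 ∧ δ ≤ 1 / 8 :=
    ⟨min (ε / 8) (1 / 8), lt_min (by positivity) (by norm_num), min_le_left _ _, min_le_right _ _⟩
  obtain ⟨η, hη0, hη1, hη2⟩ : ∃ η : ℝ, 0 < η ∧ η ≤ ε / 8 ∧ η ≤ 1 - c :=
    ⟨min (ε / 8) (1 - c), lt_min (by positivity) (by linarith), min_le_left _ _, min_le_right _ _⟩
  obtain ⟨C0, hC0, h0⟩ := smg (c := c) hc1
  obtain ⟨C1, hC1, h1⟩ := mv_head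
  obtain ⟨C2, hC2, h2⟩ := mv_tail
  obtain ⟨C3, hC3, h3⟩ := cl_half (ε := min ε 1) (lt_min hε one_pos)
  obtain ⟨A, hA, hdiv⟩ := FG61.divisor_bound hδ0
  obtain ⟨K1, hK1⟩ : ∃ K1 : ℝ, K1 = C1 * (A / η) ^ 2 * (1 + 1 / (ε / 4)) * 2 ^ ε * 2 := ⟨_, rfl⟩
  obtain ⟨K2, hK2⟩ : ∃ K2 : ℝ, K2 = C2 * A ^ 2 * 2 ^ ε * 2 := ⟨_, rfl⟩
  obtain ⟨K3, hK3⟩ : ∃ K3 : ℝ, K3 = 16 * (2 * C3 + 8) := ⟨_, rfl⟩
  obtain ⟨W, hW⟩ : ∃ W : ℝ, W = ∫ v : ℝ, ZP.Gw 1 v * (1 + |v|) ^ 2 := ⟨_, rfl⟩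
  refine ⟨max 1 (C0 * (K1 + K2 + K3) * W), le_max_left _ _, fun R T hR hT z hz => ?_⟩
  have hR' : (1 : ℝ) ≤ R := by exact_mod_cast hR
  have hz' : (1 : ℝ) ≤ z := by exact_mod_cast hz
  have hRT : 1 ≤ (R : ℝ) * T := by nlinarith
  have hs1 : 1 ≤ Real.sqrt (R * T) := by rw [Real.one_le_sqrt]; exact hRT
  obtain ⟨U, hU⟩ : ∃ U : ℕ, U = z * ⌈Real.sqrt (R * T)⌉₊ := ⟨_, rfl⟩
  have hce1 : Real.sqrt (R * T) ≤ (⌈Real.sqrt (R * T)⌉₊ : ℝ) := Nat.le_ceil _
  have hce2 : (⌈Real.sqrt (R * T)⌉₊ : ℝ) ≤ 2 * Real.sqrt (R * T) := by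
    have := Nat.ceil_lt_add_one (Real.sqrt_nonneg (R * T))
    linarith
  have hce3 : (1 : ℝ) ≤ (⌈Real.sqrt (R * T)⌉₊ : ℝ) := hs1.trans hce1
  have hUr : (U : ℝ) = z * (⌈Real.sqrt (R * T)⌉₊ : ℝ) := by rw [hU]; push_cast; rfl
  have hYU : (z : ℝ) * Real.sqrt (R * T) ≤ U := by rw [hUr]; gcongr
  have hU2 : (U : ℝ) ≤ 2 * (z * Real.sqrt (R * T)) := by
    rw [hUr]
    calc (z : ℝ) * (⌈Real.sqrt (R * T)⌉₊ : ℝ) ≤ z * (2 * Real.sqrt (R * T)) := by gcongr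
      _ = _ := by ring
  have hzU : (z : ℝ) ≤ U := by rw [hUr]; nlinarith
  have hzU' : z ≤ U := by exact_mod_cast hzU
  have hU1 : 1 ≤ U := hz.trans hzU'
  have hU1' : (1 : ℝ) ≤ U := by exact_mod_cast hU1
  have hY1 : 1 ≤ (z : ℝ) * Real.sqrt (R * T) := by nlinarith
  have hYQ : (z : ℝ) * Real.sqrt (R * T) ≤ R * T * z := by
    have h4 : Real.sqrt (R * T) ≤ R * T := by
      rw [Real.sqrt_le_left (by linarith)]
      nlinarith
    calc (z : ℝ) * Real.sqrt (R * T) ≤ z * (R * T) := by gcongr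
      _ = _ := by ring
  -- the three functions
  have hb1 : ∀ n : ℕ, 1 ≤ n → ‖bz (fun n => (μ n : ℂ)) z 1 n‖ ≤ A * (n : ℝ) ^ δ := fun n hn =>
    (s2_bz_le hz hn).trans (hdiv n hn)
  obtain ⟨a1, ha1⟩ : ∃ a1 : ℝ, a1 = ((U : ℝ) ^ η / η) ^ 2 := ⟨_, rfl⟩
  obtain ⟨a2, ha2⟩ : ∃ a2 : ℝ, a2 = (U : ℝ) ^ (3 - 2 * c) := ⟨_, rfl⟩
  obtain ⟨a3, ha3⟩ : ∃ a3 : ℝ, a3 = ((U : ℝ) ^ (1 / 2 - c) / (c - 1 / 2)) ^ 2 := ⟨_, rfl⟩
  have ha1p : 0 ≤ a1 := by rw [ha1]; positivity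
  have ha2p : 0 ≤ a2 := by rw [ha2]; positivity
  have ha3p : 0 ≤ a3 := by rw [ha3]; positivity
  have hcf : ∀ (r : ℕ) (χ : DirichletCharacter ℂ r), Continuous fun t : ℝ =>
      ‖MB (bz (fun n => (μ n : ℂ)) z 1) U χ (((c + η : ℝ) : ℂ) + t * I)‖ ^ 2 := fun r χ =>
    (s2_MB_cont _ _ χ _).norm.pow 2
  have hcg : ∀ (r : ℕ) (χ : DirichletCharacter ℂ r), Continuous fun t : ℝ =>
      ‖TB (bz (fun n => (μ n : ℂ)) z 1) U χ ((3 / 2 : ℂ) + t * I)‖ ^ 2 := fun r χ =>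
    (s2_TB_cont _ _ (by linarith) hb1 χ).norm.pow 2
  have hcL : ∀ (r : ℕ) (χ : DirichletCharacter ℂ r), Continuous fun t : ℝ =>
      GA.LF χ ((1 / 2 : ℂ) + t * I) := fun r χ => by
    have h4 := s2_LF_cont χ (c := 1 / 2) (by norm_num)
    have h5 : (((1 / 2 : ℝ) : ℝ) : ℂ) = (1 / 2 : ℂ) := by push_cast; rfl
    rw [h5] at h4
    exact h4
  have hcX : ∀ (r : ℕ) (χ : DirichletCharacter ℂ r), Continuous fun t : ℝ =>
      GA.LF χ ((1 / 2 : ℂ) + t * I) * MB (fun n => (μ n : ℂ)) z χ ((1 / 2 : ℂ) + t * I) :=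
    fun r χ => (hcL r χ).mul (s2_MB_cont _ _ χ _)
  have hch : ∀ (r : ℕ) (χ : DirichletCharacter ℂ r), Continuous fun t : ℝ =>
      ‖GA.LF χ ((1 / 2 : ℂ) + t * I) * MB (fun n => (μ n : ℂ)) z χ ((1 / 2 : ℂ) + t * I) - 1‖ ^ 2 :=
    fun r χ => ((hcX r χ).sub continuous_const).norm.pow 2
  let G : (Σ r : ℕ, DirichletCharacter ℂ r) → ℝ → ℝ := fun i t =>
    a1 * ‖MB (bz (fun n => (μ n : ℂ)) z 1) U i.2 (((c + η : ℝ) : ℂ) + t * I)‖ ^ 2 +
    a2 * ‖TB (bz (fun n => (μ n : ℂ)) z 1) U i.2 ((3 / 2 : ℂ) + t * I)‖ ^ 2 +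
    a3 * ‖GA.LF i.2 ((1 / 2 : ℂ) + t * I) *
      MB (fun n => (μ n : ℂ)) z i.2 ((1 / 2 : ℂ) + t * I) - 1‖ ^ 2
  have hGc : ∀ i, Continuous (G i) := fun i =>
    ((continuous_const.mul (hcf i.1 i.2)).add (continuous_const.mul (hcg i.1 i.2))).add
      (continuous_const.mul (hch i.1 i.2))
  have hG0 : ∀ i t, 0 ≤ G i t := fun i t => by
    simp only [G]
    positivity
  obtain ⟨P, hP⟩ : ∃ P : ℝ, P = ((R : ℝ) * T * z) ^ ε * ((R : ℝ) ^ 2 * T * (z : ℝ) ^ (1 - 2 * c) +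
        ((z : ℝ) * Real.sqrt (R * T)) ^ (2 - 2 * c)) := ⟨_, rfl⟩
  have hP0 : 0 ≤ P := by rw [hP]; positivity
  have hbound : ∀ v : ℝ, ∑ i ∈ (Ico R (2 * R)).sigma (fun r => Pr r),
      ∫ t in (-T)..T, G i (t + v) ≤ (K1 + K2 + K3) * (P * (1 + |v|) ^ 2) := by
    intro v
    have hT0 : 0 ≤ T := by linarith
    have hv := abs_nonneg v
    have hT'1 : 1 ≤ T + |v| := by linarith
    have hT' : T + |v| ≤ T * (1 + |v|) := by nlinarith
    have hV : 1 ≤ 1 + |v| := by linarith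
    obtain ⟨X1, hX1⟩ : ∃ X : ℝ, X = SP R (fun _ χ => ∫ t in (-(T + |v|))..(T + |v|),
      ‖MB (bz (fun n => (μ n : ℂ)) z 1) U χ (((c + η : ℝ) : ℂ) + t * I)‖ ^ 2) := ⟨_, rfl⟩
    obtain ⟨X2, hX2⟩ : ∃ X : ℝ, X = SP R (fun _ χ => ∫ t in (-(T + |v|))..(T + |v|),
      ‖TB (bz (fun n => (μ n : ℂ)) z 1) U χ ((3 / 2 : ℂ) + t * I)‖ ^ 2) := ⟨_, rfl⟩
    obtain ⟨X3, hX3⟩ : ∃ X : ℝ, X = SP R (fun _ χ => ∫ t in (-(T + |v|))..(T + |v|),
      ‖GA.LF χ ((1 / 2 : ℂ) + t * I) *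
        MB (fun n => (μ n : ℂ)) z χ ((1 / 2 : ℂ) + t * I) - 1‖ ^ 2) := ⟨_, rfl⟩
    obtain ⟨X4, hX4⟩ : ∃ X : ℝ, X = SP R (fun _ χ => ∫ t in (-(T + |v|))..(T + |v|),
      ‖GA.LF χ ((1 / 2 : ℂ) + t * I) *
        MB (fun n => (μ n : ℂ)) z χ ((1 / 2 : ℂ) + t * I)‖ ^ 2) := ⟨_, rfl⟩
    have e1 : ∑ i ∈ (Ico R (2 * R)).sigma (fun r => Pr r), ∫ t in (-T)..T, G i (t + v) ≤
        a1 * X1 + a2 * X2 + a3 * X3 := by
      calc ∑ i ∈ (Ico R (2 * R)).sigma (fun r => Pr r), ∫ t in (-T)..T, G i (t + v)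
          ≤ ∑ i ∈ (Ico R (2 * R)).sigma (fun r => Pr r),
            ∫ t in (-(T + |v|))..(T + |v|), G i t :=
            Finset.sum_le_sum fun i _ => s2_shift (hGc i) (hG0 i) hT0 v
        _ = SP R (fun r χ => ∫ t in (-(T + |v|))..(T + |v|), G ⟨r, χ⟩ t) := by
            rw [s2_SP]
        _ = _ := by
            rw [hX1, hX2, hX3, ← s2_SP_mul, ← s2_SP_mul, ← s2_SP_mul, ← s2_SP_add, ← s2_SP_add]
            congr 1
            funext r χ
            exact s2_lin (hcf r χ) (hcg r χ) (hch r χ) a1 a2 a3 (T + |v|)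
    have e2 : a1 * X1 ≤ K1 * (P * (1 + |v|) ^ 2) := by
      have h4 := h1 R (T + |v|) hR hT'1 z U (bz (fun n => (μ n : ℂ)) z 1) A δ (c + η) hz hzU' hA.le
        hδ0.le (by linarith) (by linarith) (fun n hn hn' => s2_bz_zero hn hn'.le) hb1
      rw [← hX1] at h4
      rw [ha1, hK1, hP]
      exact s2_n1 (κ := ε / 4) (δ := δ) hc hc1 hη0 (by positivity) hδ0.le (by linarith)
        (by linarith) hR' hT hz' hY1 hYQ hU1' hU2 hV (by linarith) hT' h4
    have e3 : a2 * X2 ≤ K2 * (P * (1 + |v|) ^ 2) := by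
      have h4 := h2 R (T + |v|) hR hT'1 U (bz (fun n => (μ n : ℂ)) z 1) A δ (3 / 2) hU1 hA.le
        hδ0.le hδ2 (by norm_num) (by norm_num) hb1
      have h5 : (((3 / 2 : ℝ) : ℝ) : ℂ) = (3 / 2 : ℂ) := by push_cast; rfl
      rw [h5, ← hX2] at h4
      rw [ha2, hK2, hP]
      exact s2_n2 (δ := δ) hc hc1 hδ0.le (by linarith) (by linarith) hR' hT hz' hY1 hYQ hU1' hU2
        hzU hV (by linarith) hT' h4
    have e4 : a3 * X3 ≤ K3 * (P * (1 + |v|) ^ 2) := by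
      have h4 := h3 R (T + |v|) hR hT'1 z (fun n => (μ n : ℂ)) hz s2_mu_le
      rw [← hX4] at h4
      have h5 : X3 ≤ 2 * X4 + 2 * (2 * (R : ℝ) ^ 2 * (2 * (T + |v|))) := by
        calc X3 ≤ SP R (fun r χ => 2 * (∫ t in (-(T + |v|))..(T + |v|),
              ‖GA.LF χ ((1 / 2 : ℂ) + t * I) *
                MB (fun n => (μ n : ℂ)) z χ ((1 / 2 : ℂ) + t * I)‖ ^ 2) + 4 * (T + |v|)) := by
              rw [hX3]
              exact s2_SP_mono fun r χ _ => s2_one (hcX r χ) (by linarith)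
          _ = 2 * X4 + SP R (fun _ _ => 4 * (T + |v|)) := by
              rw [s2_SP_add, s2_SP_mul, hX4]
          _ ≤ 2 * X4 + 2 * (R : ℝ) ^ 2 * (4 * (T + |v|)) := by
              have := s2_SP_const hR (c := 4 * (T + |v|)) (by linarith)
              linarith
          _ = _ := by ring
      rw [ha3, hK3, hP]
      refine (mul_le_mul_of_nonneg_left h5 (by positivity)).trans ?_
      exact s2_n3 (ε' := min ε 1) hc hc1 (by positivity) (min_le_right _ _) (min_le_left _ _)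
        (by linarith) hR' hT hz' hYU hzU hV (by linarith) hT' h4
    calc _ ≤ a1 * X1 + a2 * X2 + a3 * X3 := e1
      _ ≤ K1 * (P * (1 + |v|) ^ 2) + K2 * (P * (1 + |v|) ^ 2) + K3 * (P * (1 + |v|) ^ 2) := by
          linarith
      _ = _ := by ring
  have hBi : Integrable fun v : ℝ => ZP.Gw 1 v * ((K1 + K2 + K3) * (P * (1 + |v|) ^ 2)) := by
    have := s2_W.const_mul ((K1 + K2 + K3) * P)
    refine this.congr (Filter.Eventually.of_forall fun v => ?_)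
    simp only
    ring
  obtain ⟨hint, hsum⟩ := s2_fub ((Ico R (2 * R)).sigma (fun r => Pr r)) G (ZP.Gw 1)
    (fun v => (K1 + K2 + K3) * (P * (1 + |v|) ^ 2)) (fun i _ => hGc i) (fun i _ => hG0 i)
    (ZP.Gw_continuous 1) (ZP.Gw_nonneg 1) hBi (by linarith : (0 : ℝ) ≤ T) hbound
  have hval : ∫ v : ℝ, ZP.Gw 1 v * ((K1 + K2 + K3) * (P * (1 + |v|) ^ 2)) =
      (K1 + K2 + K3) * P * W := by
    rw [hW, ← integral_const_mul]
    refine integral_congr_ae (Filter.Eventually.of_forall fun v => ?_)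
    simp only
    ring
  rw [hval] at hsum
  have hfin : SP R (fun _ χ => ∫ t in (-T)..T, ‖1 - GA.LF χ ((c : ℂ) + t * I) *
      MM z χ ((c : ℂ) + t * I)‖ ^ 2) ≤ C0 * ((K1 + K2 + K3) * P * W) := by
    rw [s2_SP]
    calc _ ≤ ∑ i ∈ (Ico R (2 * R)).sigma (fun r => Pr r),
          ∫ t in (-T)..T, C0 * ∫ v, ZP.Gw 1 v * G i (t + v) := by
          refine Finset.sum_le_sum fun i hi => ?_
          rw [Finset.mem_sigma, Finset.mem_Ico] at hi
          refine intervalIntegral.integral_mono_on (by linarith) ?_ ?_ fun t _ => ?_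
          · have h4 : Continuous fun t : ℝ => ‖1 - GA.LF i.2 ((c : ℂ) + t * I) *
                MM z i.2 ((c : ℂ) + t * I)‖ ^ 2 :=
              (continuous_const.sub ((s2_LF_cont i.2 hc1).mul
                (s2_MB_cont (fun n => (μ n : ℂ)) z i.2 (c : ℂ)))).norm.pow 2
            exact h4.intervalIntegrable _ _
          · exact (hint i (by rw [Finset.mem_sigma, Finset.mem_Ico]; exact hi)).const_mul C0
          · have h4 := h0 i.1 i.2 (hR.trans hi.1.1) hi.2 z (fun n => (μ n : ℂ)) 1 c η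
              (by linarith) le_rfl hη0 (by linarith) U t hU1
            have h5 : ‖1 - GA.LF i.2 ((c : ℂ) + t * I) * MM z i.2 ((c : ℂ) + t * I)‖ =
                ‖GA.LF i.2 ((c : ℂ) + t * I) * MB (fun n => (μ n : ℂ)) z i.2 ((c : ℂ) + t * I) -
                  1‖ := by
              rw [norm_sub_rev]
              rfl
            rw [h5]
            rw [← ha1, ← ha2, ← ha3] at h4
            exact h4
      _ = C0 * ∑ i ∈ (Ico R (2 * R)).sigma (fun r => Pr r),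
          ∫ t in (-T)..T, ∫ v, ZP.Gw 1 v * G i (t + v) := by
          rw [Finset.mul_sum]
          refine Finset.sum_congr rfl fun i _ => ?_
          rw [intervalIntegral.integral_const_mul]
      _ ≤ _ := mul_le_mul_of_nonneg_left hsum (by linarith)
  calc _ ≤ C0 * ((K1 + K2 + K3) * P * W) := hfin
    _ = C0 * (K1 + K2 + K3) * W * P := by ring
    _ ≤ max 1 (C0 * (K1 + K2 + K3) * W) * P := by
        gcongr
        exact le_max_right _ _
    _ = _ := by rw [hP]; ring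

theorem mv1 : type_of% @mv1_pr := @mv1_pr

end Pool.Agent.XT

/-! ### Block K1 -/

/-! # XT (MP_5dd4bb_nt), block K1: the mean square of `K` -/

namespace Pool.Agent.XT

open Finset Complex MeasureTheory Pool.Agent.Var35 Pool.Agent.Var73 Pool.Agent.HC Pool.Agent.MF
  Pool.Agent.XS
open scoped ArithmeticFunction ArithmeticFunction.Moebius

theorem k1_int {c : ℝ} {C1 : ℝ} (hC1 : 1 ≤ C1) (hc1 : c < 1)
    (hL : ∀ (q : ℕ) [NeZero q] (χ : DirichletCharacter ℂ q), χ ≠ 1 → ∀ s : ℂ,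
      c ≤ s.re → s.re ≤ 2 → ‖logDeriv (GA.LF χ) s‖ ≤ C1 * Real.log (q * (|s.im| + 2)))
    {R : ℕ} (hR : 2 ≤ R) {T : ℝ} (hT : 1 ≤ T) {r : ℕ} (hr : r ∈ Ico R (2 * R))
    {χ : DirichletCharacter ℂ r} (hχ : χ ∈ Pr r) (z : ℕ) :
    ∫ t in (-T)..T, nH (KK z χ) c t ^ 2 ≤ C1 ^ 2 * Real.log (6 * ((R : ℝ) * T)) ^ 2 *
      ∫ t in (-T)..T, ‖1 - GA.LF χ ((c : ℂ) + t * I) * MM z χ ((c : ℂ) + t * I)‖ ^ 2 := by
  obtain ⟨hr1, hr2⟩ := Finset.mem_Ico.mp hr
  have hχ1 : χ ≠ 1 := kmc_ne_one (by omega) hχ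
  have : NeZero r := ⟨by omega⟩
  have hTT : -T ≤ T := by linarith
  have hRT : (2 : ℝ) ≤ R := by exact_mod_cast hR
  rw [← intervalIntegral.integral_const_mul, intervalIntegral.integral_of_le hTT,
    intervalIntegral.integral_of_le hTT]
  apply MeasureTheory.integral_mono_of_nonneg
  · exact Filter.Eventually.of_forall fun t => sq_nonneg _
  · exact ((continuous_const.mul (kmc_cont (by omega) hχ1 z c)).intervalIntegrable
      (-T) T).1
  · refine (ae_restrict_iff' measurableSet_Ioc).mpr (Filter.Eventually.of_forall fun t ht => ?_)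
    have ht' : |t| ≤ T := abs_le.mpr ⟨ht.1.le, ht.2⟩
    have hre : ((c : ℂ) + t * I).re = c := by simp
    have him : ((c : ℂ) + t * I).im = t := by simp
    have hb := hL r χ hχ1 ((c : ℂ) + t * I) (by rw [hre]) (by rw [hre]; linarith)
    rw [him] at hb
    have hr0 : (1 : ℝ) ≤ r := by exact_mod_cast (by omega : 1 ≤ r)
    have hrR : (r : ℝ) ≤ 2 * R := by exact_mod_cast hr2.le
    have hlog : Real.log (r * (|t| + 2)) ≤ Real.log (6 * ((R : ℝ) * T)) := by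
      apply Real.log_le_log (by positivity)
      nlinarith [abs_nonneg t, mul_nonneg (by linarith : (0 : ℝ) ≤ R) (by linarith : (0:ℝ) ≤ T - 1),
        mul_le_mul hrR (by linarith : |t| + 2 ≤ T + 2) (by positivity) (by positivity)]
    have hlog0 : 0 ≤ Real.log (r * (|t| + 2)) := by
      apply Real.log_nonneg
      nlinarith [abs_nonneg t]
    have hb2 : ‖logDeriv (GA.LF χ) ((c : ℂ) + t * I)‖ ^ 2 ≤
        C1 ^ 2 * Real.log (6 * ((R : ℝ) * T)) ^ 2 := by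
      rw [← mul_pow]
      exact pow_le_pow_left₀ (norm_nonneg _)
        (hb.trans (mul_le_mul_of_nonneg_left hlog (by linarith))) 2
    simp only [nH, KK, if_neg hχ1]
    rw [norm_mul, norm_neg, mul_pow]
    exact mul_le_mul_of_nonneg_right hb2 (sq_nonneg _)

theorem km1_pr {θ c ε : ℝ} (hθ : 1 / 2 ≤ θ) (h : ZF θ) (hc : θ < c) (hc3 : 3 / 4 ≤ c) (hc1 : c < 1)
    (hε : 0 < ε) : ∃ C : ℝ, 1 ≤ C ∧ ∀ (R : ℕ) (T : ℝ), 2 ≤ R → 1 ≤ T → ∀ z : ℕ, 1 ≤ z →
    SP R (fun _ χ => ∫ t in (-T)..T, nH (KK z χ) c t ^ 2) ≤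
      C * ((R : ℝ) * T * z) ^ ε * ((R : ℝ) ^ 2 * T * (z : ℝ) ^ (1 - 2 * c) +
        ((z : ℝ) * Real.sqrt (R * T)) ^ (2 - 2 * c)) := by
  obtain ⟨C1, hC1, hL⟩ := ldlog hθ h hc
  obtain ⟨C3, hC3, hK⟩ := mv1 hc3 hc1 (half_pos hε)
  obtain ⟨C4, hC4, hlog⟩ := kmc_log hε
  refine ⟨C1 ^ 2 * C4 * C3,
    one_le_mul_of_one_le_of_one_le (one_le_mul_of_one_le_of_one_le (one_le_pow₀ hC1) hC4) hC3, ?_⟩
  intro R T hR hT z hz
  have hR1 : (1 : ℝ) ≤ R := by exact_mod_cast (by omega : 1 ≤ R)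
  have hz1 : (1 : ℝ) ≤ z := by exact_mod_cast hz
  have hRT : 1 ≤ (R : ℝ) * T := one_le_mul_of_one_le_of_one_le hR1 hT
  have hRTz : 1 ≤ (R : ℝ) * T * z := one_le_mul_of_one_le_of_one_le hRT hz1
  have hRT0 : 0 < (R : ℝ) * T := by linarith
  have hRTz0 : 0 < (R : ℝ) * T * z := by linarith
  have hl := hlog _ hRT
  have h1 : SP R (fun _ χ => ∫ t in (-T)..T, nH (KK z χ) c t ^ 2) ≤
      C1 ^ 2 * Real.log (6 * ((R : ℝ) * T)) ^ 2 *
      SP R (fun _ χ => ∫ t in (-T)..T,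
        ‖1 - GA.LF χ ((c : ℂ) + t * I) * MM z χ ((c : ℂ) + t * I)‖ ^ 2) := by
    unfold SP
    rw [Finset.mul_sum]
    refine Finset.sum_le_sum fun r hr => ?_
    rw [Finset.mul_sum]
    exact Finset.sum_le_sum fun χ hχ => k1_int hC1 hc1 hL hR hT hr hχ z
  have h2 := hK R T (by omega) hT z hz
  set B : ℝ := (R : ℝ) ^ 2 * T * (z : ℝ) ^ (1 - 2 * c) +
        ((z : ℝ) * Real.sqrt (R * T)) ^ (2 - 2 * c) with hB
  have hB0 : 0 ≤ B := by
    rw [hB]
    have hT0 : 0 ≤ T := by linarith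
    positivity
  have h3 : ((R : ℝ) * T * z) ^ ε =
      ((R : ℝ) * T * z) ^ (ε / 2) * ((R : ℝ) * T * z) ^ (ε / 2) := by
    rw [← Real.rpow_add hRTz0]
    congr 1; ring
  have h4 : ((R : ℝ) * T) ^ (ε / 2) ≤ ((R : ℝ) * T * z) ^ (ε / 2) :=
    Real.rpow_le_rpow hRT0.le (le_mul_of_one_le_right hRT0.le hz1) (by positivity)
  have h5 : C1 ^ 2 * Real.log (6 * ((R : ℝ) * T)) ^ 2 ≤
      C1 ^ 2 * (C4 * ((R : ℝ) * T * z) ^ (ε / 2)) :=
    mul_le_mul_of_nonneg_left (hl.trans (mul_le_mul_of_nonneg_left h4 (by linarith)))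
      (by positivity)
  have h6 : 0 ≤ C3 * ((R : ℝ) * T * z) ^ (ε / 2) * B := by positivity
  calc SP R (fun _ χ => ∫ t in (-T)..T, nH (KK z χ) c t ^ 2)
      ≤ _ := h1
    _ ≤ C1 ^ 2 * Real.log (6 * ((R : ℝ) * T)) ^ 2 *
        (C3 * ((R : ℝ) * T * z) ^ (ε / 2) * B) := mul_le_mul_of_nonneg_left h2 (by positivity)
    _ ≤ C1 ^ 2 * (C4 * ((R : ℝ) * T * z) ^ (ε / 2)) *
        (C3 * ((R : ℝ) * T * z) ^ (ε / 2) * B) := mul_le_mul_of_nonneg_right h5 h6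
    _ = C1 ^ 2 * C4 * C3 * ((R : ℝ) * T * z) ^ ε * B := by rw [h3]; ring

theorem km1 : type_of% @km1_pr := @km1_pr

end Pool.Agent.XT

/-! ### Block K9 -/

/-! XT, block K9: mean square of `K` with `z = R^(16/9)` -/

namespace Pool.Agent.XT

open Finset Complex MeasureTheory Pool.Agent.Var35 Pool.Agent.Var73 Pool.Agent.HC Pool.Agent.MF
  Pool.Agent.XS
open scoped ArithmeticFunction ArithmeticFunction.Moebius

theorem k9_z {R : ℕ} (hR : 1 ≤ R) : 1 ≤ z9 R ∧ (z9 R : ℝ) ≤ (R : ℝ) ^ (16 / 9 : ℝ) ∧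
    (R : ℝ) ^ (16 / 9 : ℝ) / 2 ≤ (z9 R : ℝ) := by
  have hR1 : (1 : ℝ) ≤ R := by exact_mod_cast hR
  have h1 : 1 ≤ (R : ℝ) ^ (16 / 9 : ℝ) := Real.one_le_rpow hR1 (by norm_num)
  have h2 : 1 ≤ z9 R := Nat.le_floor (by rw [Nat.cast_one]; exact h1)
  have h3 : (z9 R : ℝ) ≤ (R : ℝ) ^ (16 / 9 : ℝ) := Nat.floor_le (by linarith)
  have h4 : (R : ℝ) ^ (16 / 9 : ℝ) < (z9 R : ℝ) + 1 := Nat.lt_floor_add_one _
  have h5 : (1 : ℝ) ≤ z9 R := by exact_mod_cast h2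
  exact ⟨h2, h3, by linarith⟩

theorem k9_a {R : ℕ} (hR : 1 ≤ R) {T : ℝ} (hT : 1 ≤ T) {c : ℝ} (hc : 25 / 32 ≤ c) :
    (R : ℝ) ^ 2 * T * (z9 R : ℝ) ^ (1 - 2 * c) ≤ 2 * ((R : ℝ) * T) := by
  have hR1 : (1 : ℝ) ≤ R := by exact_mod_cast hR
  have hR0 : (0 : ℝ) < R := by linarith
  obtain ⟨h1, h2, h3⟩ := k9_z hR
  have h1' : (1 : ℝ) ≤ z9 R := by exact_mod_cast h1
  have h4 : (z9 R : ℝ) ^ (1 - 2 * c) ≤ (z9 R : ℝ) ^ (-(9 / 16) : ℝ) :=
    Real.rpow_le_rpow_of_exponent_le h1' (by linarith)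
  have h5 : (z9 R : ℝ) ^ (-(9 / 16) : ℝ) ≤ ((R : ℝ) ^ (16 / 9 : ℝ) / 2) ^ (-(9 / 16) : ℝ) :=
    Real.rpow_le_rpow_of_nonpos (by positivity) h3 (by norm_num)
  have h6 : ((R : ℝ) ^ (16 / 9 : ℝ) / 2) ^ (-(9 / 16) : ℝ) = (2 : ℝ) ^ (9 / 16 : ℝ) * (R : ℝ)⁻¹ := by
    rw [Real.div_rpow (by positivity) (by norm_num), ← Real.rpow_mul hR0.le,
      Real.rpow_neg (by norm_num : (0 : ℝ) ≤ 2)]
    have : (16 / 9 : ℝ) * -(9 / 16) = -1 := by norm_num
    rw [this, Real.rpow_neg_one]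
    field_simp
  have h7 : (2 : ℝ) ^ (9 / 16 : ℝ) ≤ 2 := by
    calc (2 : ℝ) ^ (9 / 16 : ℝ) ≤ (2 : ℝ) ^ (1 : ℝ) :=
          Real.rpow_le_rpow_of_exponent_le (by norm_num) (by norm_num)
      _ = 2 := Real.rpow_one 2
  have h8 : (z9 R : ℝ) ^ (1 - 2 * c) ≤ 2 * (R : ℝ)⁻¹ := by
    refine h4.trans (h5.trans ?_)
    rw [h6]
    exact mul_le_mul_of_nonneg_right h7 (by positivity)
  calc (R : ℝ) ^ 2 * T * (z9 R : ℝ) ^ (1 - 2 * c) ≤ (R : ℝ) ^ 2 * T * (2 * (R : ℝ)⁻¹) :=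
        mul_le_mul_of_nonneg_left h8 (by positivity)
    _ = 2 * ((R : ℝ) * T) := by
        field_simp

theorem k9_b {R : ℕ} (hR : 1 ≤ R) {T : ℝ} (hT : 1 ≤ T) {c : ℝ} (hc : 25 / 32 ≤ c) (hc1 : c < 1) :
    ((z9 R : ℝ) * Real.sqrt (R * T)) ^ (2 - 2 * c) ≤ (R : ℝ) * T := by
  have hR1 : (1 : ℝ) ≤ R := by exact_mod_cast hR
  have hR0 : (0 : ℝ) < R := by linarith
  have hT0 : (0 : ℝ) < T := by linarith
  obtain ⟨h1, h2, h3⟩ := k9_z hR
  have h1' : (1 : ℝ) ≤ z9 R := by exact_mod_cast h1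
  have hRT : 1 ≤ (R : ℝ) * T := one_le_mul_of_one_le_of_one_le hR1 hT
  have hs : 1 ≤ Real.sqrt (R * T) := Real.one_le_sqrt.2 hRT
  have h4 : 1 ≤ (z9 R : ℝ) * Real.sqrt (R * T) := one_le_mul_of_one_le_of_one_le h1' hs
  have h5 : ((z9 R : ℝ) * Real.sqrt (R * T)) ^ (2 - 2 * c) ≤
      ((z9 R : ℝ) * Real.sqrt (R * T)) ^ (7 / 16 : ℝ) :=
    Real.rpow_le_rpow_of_exponent_le h4 (by linarith)
  have h6 : ((z9 R : ℝ) * Real.sqrt (R * T)) ^ (7 / 16 : ℝ) ≤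
      ((R : ℝ) ^ (16 / 9 : ℝ) * Real.sqrt (R * T)) ^ (7 / 16 : ℝ) :=
    Real.rpow_le_rpow (by positivity) (mul_le_mul_of_nonneg_right h2 (by positivity))
      (by norm_num)
  have h7 : ((R : ℝ) ^ (16 / 9 : ℝ) * Real.sqrt (R * T)) ^ (7 / 16 : ℝ) =
      (R : ℝ) ^ (287 / 288 : ℝ) * T ^ (7 / 32 : ℝ) := by
    rw [Real.sqrt_eq_rpow, Real.mul_rpow hR0.le hT0.le, Real.mul_rpow (by positivity)
      (by positivity), Real.mul_rpow (by positivity) (by positivity), ← Real.rpow_mul hR0.le,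
      ← Real.rpow_mul hR0.le, ← Real.rpow_mul hT0.le, ← mul_assoc, ← Real.rpow_add hR0]
    norm_num
  rw [h7] at h6
  refine h5.trans (h6.trans ?_)
  have h8 : (R : ℝ) ^ (287 / 288 : ℝ) ≤ R := by
    calc (R : ℝ) ^ (287 / 288 : ℝ) ≤ (R : ℝ) ^ (1 : ℝ) :=
          Real.rpow_le_rpow_of_exponent_le hR1 (by norm_num)
      _ = R := Real.rpow_one _
  have h9 : T ^ (7 / 32 : ℝ) ≤ T := by
    calc T ^ (7 / 32 : ℝ) ≤ T ^ (1 : ℝ) :=
          Real.rpow_le_rpow_of_exponent_le hT (by norm_num)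
      _ = T := Real.rpow_one _
  exact mul_le_mul h8 h9 (by positivity) hR0.le

theorem k9_eps {R : ℕ} (hR : 1 ≤ R) {T ε : ℝ} (hT : 1 ≤ T) (hε : 0 < ε) :
    ((R : ℝ) * T * z9 R) ^ (ε / 3) ≤ ((R : ℝ) * T) ^ ε := by
  have hR1 : (1 : ℝ) ≤ R := by exact_mod_cast hR
  have hR0 : (0 : ℝ) < R := by linarith
  obtain ⟨h1, h2, h3⟩ := k9_z hR
  have hRT : 1 ≤ (R : ℝ) * T := one_le_mul_of_one_le_of_one_le hR1 hT
  have h4 : (z9 R : ℝ) ≤ ((R : ℝ) * T) ^ 2 := by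
    refine h2.trans ?_
    calc (R : ℝ) ^ (16 / 9 : ℝ) ≤ (R : ℝ) ^ (2 : ℝ) :=
          Real.rpow_le_rpow_of_exponent_le hR1 (by norm_num)
      _ = (R : ℝ) ^ 2 := Real.rpow_two _
      _ ≤ ((R : ℝ) * T) ^ 2 := by
        apply pow_le_pow_left₀ hR0.le
        exact le_mul_of_one_le_right hR0.le hT
  have h5 : (R : ℝ) * T * z9 R ≤ ((R : ℝ) * T) ^ 3 := by
    calc (R : ℝ) * T * z9 R ≤ (R : ℝ) * T * ((R : ℝ) * T) ^ 2 :=
          mul_le_mul_of_nonneg_left h4 (by positivity)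
      _ = ((R : ℝ) * T) ^ 3 := by ring
  calc ((R : ℝ) * T * z9 R) ^ (ε / 3) ≤ (((R : ℝ) * T) ^ 3) ^ (ε / 3) :=
        Real.rpow_le_rpow (by positivity) h5 (by positivity)
    _ = ((R : ℝ) * T) ^ ε := by
        rw [← Real.rpow_natCast, ← Real.rpow_mul (by positivity)]
        congr 1
        push_cast
        ring

/-- K9 -/
theorem km9_pr {θ c ε : ℝ} (hθ : 25 / 32 ≤ θ) (h : ZF θ) (hc : θ < c) (hc1 : c < 1) (hε : 0 < ε) :
    ∃ C : ℝ, 1 ≤ C ∧ ∀ (R : ℕ) (T : ℝ), 1 ≤ R → 1 ≤ T →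
    SP R (fun _ χ => ∫ t in (-T)..T, nH (KK (z9 R) χ) c t ^ 2) ≤
      C * ((R : ℝ) * T) ^ (1 + ε) := by
  obtain ⟨C1, hC1, hK⟩ := km1 (by linarith : 1 / 2 ≤ θ) h hc (by linarith) hc1
    (by positivity : 0 < ε / 3)
  obtain ⟨C2, hC2, hZ⟩ := ldlog_zeta (by linarith : 1 / 2 ≤ θ) h hc
  obtain ⟨C4, hC4, hlog⟩ := kmc_log hε
  refine ⟨3 * C1 + 8 * C2 ^ 2 * C4, ?_, ?_⟩
  · have h2 : 0 ≤ 8 * C2 ^ 2 * C4 := by positivity
    linarith
  · intro R T hR hT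
    have hR1 : (1 : ℝ) ≤ R := by exact_mod_cast hR
    have hRT : 1 ≤ (R : ℝ) * T := one_le_mul_of_one_le_of_one_le hR1 hT
    have hRT0 : 0 < (R : ℝ) * T := by linarith
    have hl := hlog _ hRT
    rcases Nat.lt_or_ge R 2 with hR2 | hR2
    · have hRe : R = 1 := by omega
      subst hRe
      have hsub : Subsingleton (DirichletCharacter ℂ 1) :=
        ⟨fun a b => by rw [DirichletCharacter.level_one a, DirichletCharacter.level_one b]⟩
      have hcard : (Pr 1).card ≤ 1 := Finset.card_le_one_of_subsingleton _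
      have hB0 : 0 ≤ 4 * C2 ^ 2 * Real.log (6 * T) ^ 2 * (2 * T) := by positivity
      have hIco : Ico 1 (2 * 1) = {1} := by decide
      have h1 : SP 1 (fun r χ => ∫ t in (-T)..T, nH (KK (z9 1) χ) c t ^ 2) ≤
          4 * C2 ^ 2 * Real.log (6 * T) ^ 2 * (2 * T) := by
        unfold SP
        rw [hIco, Finset.sum_singleton]
        calc ∑ χ ∈ Pr 1, ∫ t in (-T)..T, nH (KK (z9 1) χ) c t ^ 2
            ≤ (Pr 1).card • (4 * C2 ^ 2 * Real.log (6 * T) ^ 2 * (2 * T)) :=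
              Finset.sum_le_card_nsmul _ _ _ fun χ _ => kmc_one hC2 hc1 hZ hT χ _
          _ ≤ 1 * (4 * C2 ^ 2 * Real.log (6 * T) ^ 2 * (2 * T)) := by
              rw [nsmul_eq_mul]
              exact mul_le_mul_of_nonneg_right (by exact_mod_cast hcard) hB0
          _ = _ := one_mul _
      refine h1.trans ?_
      simp only [Nat.cast_one, one_mul] at hl hRT0 ⊢
      have h3 : T ^ (1 + ε) = T * T ^ (ε / 2) * T ^ (ε / 2) := by
        rw [mul_assoc, ← Real.rpow_add hRT0, ← Real.rpow_one_add' hRT0.le (by positivity)]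
        congr 1; ring
      have h4 : 1 ≤ T ^ (ε / 2) := Real.one_le_rpow hT (by positivity)
      have h5 : 4 * C2 ^ 2 * Real.log (6 * T) ^ 2 * (2 * T) ≤
          8 * C2 ^ 2 * C4 * (T * T ^ (ε / 2)) := by
        nlinarith [mul_le_mul_of_nonneg_left hl (by positivity : 0 ≤ 8 * C2 ^ 2 * T)]
      have h6 : T * T ^ (ε / 2) ≤ T ^ (1 + ε) := by
        rw [h3]
        exact le_mul_of_one_le_right (by positivity) h4
      have h7 : 0 ≤ 3 * C1 * T ^ (1 + ε) := by positivity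
      have h8 : 8 * C2 ^ 2 * C4 * (T * T ^ (ε / 2)) ≤ 8 * C2 ^ 2 * C4 * T ^ (1 + ε) :=
        mul_le_mul_of_nonneg_left h6 (by positivity)
      linarith [add_mul (3 * C1) (8 * C2 ^ 2 * C4) (T ^ (1 + ε))]
    · have h1 := hK R T hR2 hT (z9 R) (k9_z hR).1
      have ha := k9_a hR hT (by linarith : 25 / 32 ≤ c)
      have hb := k9_b hR hT (by linarith : 25 / 32 ≤ c) hc1
      have he := k9_eps hR hT hε
      have h6 : 0 ≤ 8 * C2 ^ 2 * C4 * ((R : ℝ) * T) ^ (1 + ε) := by positivity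
      have h7 : ((R : ℝ) * T) ^ (1 + ε) = ((R : ℝ) * T) ^ ε * ((R : ℝ) * T) := by
        rw [add_comm, Real.rpow_add hRT0, Real.rpow_one]
      refine h1.trans ?_
      calc C1 * ((R : ℝ) * T * z9 R) ^ (ε / 3) * ((R : ℝ) ^ 2 * T * (z9 R : ℝ) ^ (1 - 2 * c) +
            ((z9 R : ℝ) * Real.sqrt (R * T)) ^ (2 - 2 * c))
          ≤ C1 * ((R : ℝ) * T) ^ ε * (3 * ((R : ℝ) * T)) := by
            apply mul_le_mul _ (by linarith) (by positivity) (by positivity)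
            exact mul_le_mul_of_nonneg_left he (by linarith)
        _ = 3 * C1 * ((R : ℝ) * T) ^ (1 + ε) := by rw [h7]; ring
        _ ≤ (3 * C1 + 8 * C2 ^ 2 * C4) * ((R : ℝ) * T) ^ (1 + ε) := by
            rw [add_mul]; linarith

theorem km9 : type_of% @km9_pr := @km9_pr

end Pool.Agent.XT

/-! ### Block KZ -/

namespace Pool.Agent.XT

open Finset Complex MeasureTheory Pool.Agent.Var35 Pool.Agent.Var73 Pool.Agent.HC Pool.Agent.MF
  Pool.Agent.XS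
open scoped ArithmeticFunction ArithmeticFunction.Moebius

theorem kz_hasDeriv (z : ℕ) (s : ℂ) : HasDerivAt (Mz z)
    (∑ n ∈ Icc 1 z, (μ n : ℂ) * ((n : ℂ) ^ (-s) * Complex.log n * (-1))) s := by
  unfold Mz
  apply HasDerivAt.fun_sum
  intro n hn
  have hn1 : (n : ℂ) ≠ 0 := by
    have := (Finset.mem_Icc.mp hn).1
    exact_mod_cast (by omega : n ≠ 0)
  exact ((hasDerivAt_neg s).const_cpow (Or.inl hn1)).const_mul _

theorem kz_one (z : ℕ) : Mz z 1 = (m0 z : ℂ) := by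
  unfold Mz m0
  push_cast
  apply Finset.sum_congr rfl
  intro n _
  rw [Complex.cpow_neg_one, div_eq_mul_inv]

theorem kz_deriv_one (z : ℕ) : deriv (Mz z) 1 = (m1 z : ℂ) := by
  rw [(kz_hasDeriv z 1).deriv]
  unfold m1
  push_cast
  rw [← Finset.sum_neg_distrib]
  apply Finset.sum_congr rfl
  intro n _
  rw [Complex.cpow_neg_one]
  ring

theorem kz_formula (z : ℕ) {s : ℂ} (hs : s ≠ 1) (h0 : riemannZeta₁ s ≠ 0) :
    H3 z s = (1 - riemannZeta s * Mz z s) * (1 / (s - 1) - logDeriv riemannZeta₁ s) -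
      (1 - m1 z - m0 z / (s - 1)) / (s - 1) := by
  have hs1 : s - 1 ≠ 0 := sub_ne_zero.2 hs
  have hd : deriv (fun v => riemannZeta₁ v * Mz z v) s =
      deriv riemannZeta₁ s * Mz z s + riemannZeta₁ s * deriv (Mz z) s :=
    deriv_fun_mul differentiable_riemannZeta₁.differentiableAt
      (kz_hasDeriv z s).differentiableAt
  unfold H3
  rw [dslope_of_ne _ hs, dslope_of_ne _ hs, slope_def_module, slope_def_module, dslope_same,
    dslope_of_ne _ hs, slope_def_module, hd, riemannZeta₁_one, kz_one, kz_deriv_one,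
    logDeriv_apply, sub_self, sub_zero, one_mul, one_mul,
    show riemannZeta s = riemannZeta₁ s / (s - 1) by rw [GA.Z1_eq hs]; field_simp]
  simp only [smul_eq_mul]
  field_simp
  ring

theorem kz_norm {z : ℕ} {c : ℝ} (hc1 : c < 1) (t : ℝ)
    (h0 : riemannZeta₁ ((c : ℂ) + t * I) ≠ 0) {L : ℝ}
    (hL : ‖logDeriv riemannZeta₁ ((c : ℂ) + t * I)‖ + 1 / (1 - c) ≤ L) (hc0 : 0 < c) :
    ‖H3 z ((c : ℂ) + t * I)‖ ^ 2 ≤
      2 * L ^ 2 * ‖1 - riemannZeta ((c : ℂ) + t * I) * Mz z ((c : ℂ) + t * I)‖ ^ 2 +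
      2 * (1 + |m1 z| + |m0 z| / (1 - c)) ^ 2 / (1 - c) ^ 2 * (1 + t ^ 2)⁻¹ := by
  set s : ℂ := (c : ℂ) + t * I with hs
  have hd : 0 < 1 - c := by linarith
  have hs1 : s ≠ 1 := by
    intro h
    have := congrArg Complex.re h
    simp [hs] at this
    linarith
  have hre : (s - 1).re = c - 1 := by simp [hs]
  have him : (s - 1).im = t := by simp [hs]
  have hn2 : ‖s - 1‖ ^ 2 = (1 - c) ^ 2 + t ^ 2 := by
    rw [← Complex.normSq_eq_norm_sq, Complex.normSq_apply, hre, him]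
    ring
  have hn1 : 1 - c ≤ ‖s - 1‖ := by
    apply le_of_sq_le_sq _ (norm_nonneg _)
    rw [hn2]
    nlinarith [sq_nonneg t]
  have hn0 : 0 < ‖s - 1‖ := lt_of_lt_of_le hd hn1
  have hn3 : (1 - c) ^ 2 * (1 + t ^ 2) ≤ ‖s - 1‖ ^ 2 := by
    rw [hn2]
    have : (1 - c) ^ 2 ≤ 1 := by nlinarith
    nlinarith [sq_nonneg t]
  rw [kz_formula z hs1 h0]
  have hL0 : 0 ≤ L := le_trans (by positivity) hL
  set A : ℝ := ‖1 - riemannZeta s * Mz z s‖ with hA
  set B : ℝ := 1 + |m1 z| + |m0 z| / (1 - c) with hB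
  have hB0 : 0 ≤ B := by positivity
  have h1 : ‖(1 - riemannZeta s * Mz z s) * (1 / (s - 1) - logDeriv riemannZeta₁ s)‖ ≤ A * L := by
    rw [norm_mul]
    apply mul_le_mul_of_nonneg_left _ (norm_nonneg _)
    refine (norm_sub_le _ _).trans ?_
    rw [norm_div, norm_one]
    have : 1 / ‖s - 1‖ ≤ 1 / (1 - c) := one_div_le_one_div_of_le hd hn1
    linarith
  have h2 : ‖(1 - (m1 z : ℂ) - m0 z / (s - 1)) / (s - 1)‖ ≤ B / ‖s - 1‖ := by
    rw [norm_div]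
    apply div_le_div_of_nonneg_right _ hn0.le
    refine (norm_sub_le _ _).trans ?_
    have h3 : ‖1 - (m1 z : ℂ)‖ ≤ 1 + |m1 z| := by
      refine (norm_sub_le _ _).trans ?_
      rw [norm_one, Complex.norm_real, Real.norm_eq_abs]
    have h4 : ‖(m0 z : ℂ) / (s - 1)‖ ≤ |m0 z| / (1 - c) := by
      rw [norm_div, Complex.norm_real, Real.norm_eq_abs]
      exact div_le_div_of_nonneg_left (abs_nonneg _) hd hn1
    linarith
  have h5 : (B / ‖s - 1‖) ^ 2 ≤ B ^ 2 / (1 - c) ^ 2 * (1 + t ^ 2)⁻¹ := by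
    rw [div_pow, ← div_eq_mul_inv, div_div]
    exact div_le_div_of_nonneg_left (by positivity) (by positivity) hn3
  have h6 : ‖(1 - riemannZeta s * Mz z s) * (1 / (s - 1) - logDeriv riemannZeta₁ s) -
      (1 - (m1 z : ℂ) - m0 z / (s - 1)) / (s - 1)‖ ≤ A * L + B / ‖s - 1‖ :=
    (norm_sub_le _ _).trans (add_le_add h1 h2)
  have h7 : 0 ≤ A * L := by positivity
  have h8 : 0 ≤ B / ‖s - 1‖ := by positivity
  calc _ ≤ (A * L + B / ‖s - 1‖) ^ 2 := pow_le_pow_left₀ (norm_nonneg _) h6 2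
    _ ≤ 2 * (A * L) ^ 2 + 2 * (B / ‖s - 1‖) ^ 2 := by
        nlinarith [sq_nonneg (A * L - B / ‖s - 1‖)]
    _ ≤ 2 * L ^ 2 * A ^ 2 + 2 * B ^ 2 / (1 - c) ^ 2 * (1 + t ^ 2)⁻¹ := by
        have : 2 * B ^ 2 / (1 - c) ^ 2 * (1 + t ^ 2)⁻¹ =
          2 * (B ^ 2 / (1 - c) ^ 2 * (1 + t ^ 2)⁻¹) := by ring
        rw [this]
        nlinarith

theorem kz_harm (z : ℕ) : ∑ d ∈ Icc 1 z, (1 : ℝ) / d ≤ 1 + Real.log z := by
  have h := harmonic_le_one_add_log z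
  rw [harmonic_eq_sum_Icc] at h
  push_cast at h
  simpa [one_div] using h

theorem kz_mu (n : ℕ) : |(μ n : ℝ)| ≤ 1 := by
  exact_mod_cast ArithmeticFunction.abs_moebius_le_one

theorem kz_m0 (z : ℕ) : |m0 z| ≤ 1 + Real.log z := by
  refine le_trans ?_ (kz_harm z)
  unfold m0
  refine (Finset.abs_sum_le_sum_abs _ _).trans (Finset.sum_le_sum fun n hn => ?_)
  rw [abs_div, Nat.abs_cast]
  exact div_le_div_of_nonneg_right (kz_mu n) (by positivity)

theorem kz_m1 {z : ℕ} (hz : 1 ≤ z) : |m1 z| ≤ (1 + Real.log z) ^ 2 := by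
  have hz1 : (1 : ℝ) ≤ z := by exact_mod_cast hz
  have hl : 0 ≤ Real.log z := Real.log_nonneg hz1
  have h1 : |m1 z| ≤ Real.log z * ∑ d ∈ Icc 1 z, (1 : ℝ) / d := by
    unfold m1
    rw [abs_neg, Finset.mul_sum]
    refine (Finset.abs_sum_le_sum_abs _ _).trans (Finset.sum_le_sum fun n hn => ?_)
    obtain ⟨hn1, hn2⟩ := Finset.mem_Icc.mp hn
    have hn1' : (1 : ℝ) ≤ n := by exact_mod_cast hn1
    have hn2' : (n : ℝ) ≤ z := by exact_mod_cast hn2
    have hln : 0 ≤ Real.log n := Real.log_nonneg hn1'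
    rw [abs_div, abs_mul, Nat.abs_cast, abs_of_nonneg hln, mul_one_div]
    apply div_le_div_of_nonneg_right _ (by positivity)
    calc |(μ n : ℝ)| * Real.log n ≤ 1 * Real.log z :=
          mul_le_mul (kz_mu n) (Real.log_le_log (by linarith) hn2') hln zero_le_one
      _ = Real.log z := one_mul _
  have h2 := kz_harm z
  nlinarith

theorem kz_log {ε : ℝ} (hε : 0 < ε) : ∃ C : ℝ, 1 ≤ C ∧ ∀ z : ℕ, 1 ≤ z →
    (1 + Real.log z) ^ 4 ≤ C * (z : ℝ) ^ ε := by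
  refine ⟨max 1 ((4 / ε) ^ 4 * Real.exp ε), le_max_left _ _, fun z hz => ?_⟩
  have hz1 : (1 : ℝ) ≤ z := by exact_mod_cast hz
  have hl : 0 ≤ Real.log z := Real.log_nonneg hz1
  have h1 : 1 + Real.log z = Real.log (Real.exp 1 * z) := by
    rw [Real.log_mul (Real.exp_ne_zero _) (by positivity), Real.log_exp]
  have h2 : 1 + Real.log z ≤ (Real.exp 1 * z) ^ (ε / 4) / (ε / 4) := by
    rw [h1]
    exact Real.log_le_rpow_div (by positivity) (by positivity)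
  have h3 : (1 + Real.log z) ^ 4 ≤ ((Real.exp 1 * z) ^ (ε / 4) / (ε / 4)) ^ 4 :=
    pow_le_pow_left₀ (by linarith) h2 4
  have h4 : ((Real.exp 1 * z) ^ (ε / 4) / (ε / 4)) ^ 4 =
      (4 / ε) ^ 4 * Real.exp ε * (z : ℝ) ^ ε := by
    rw [div_pow, ← Real.rpow_natCast ((Real.exp 1 * (z : ℝ)) ^ (ε / 4)) 4,
      ← Real.rpow_mul (by positivity), Real.mul_rpow (by positivity) (by positivity),
      Real.exp_one_rpow]
    have : ε / 4 * ((4 : ℕ) : ℝ) = ε := by push_cast; ring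
    rw [this]
    field_simp
  rw [h4] at h3
  exact h3.trans (mul_le_mul_of_nonneg_right (le_max_right _ _) (by positivity))

theorem kz_cont {c : ℝ} (hc1 : c < 1) (z : ℕ) : Continuous fun t : ℝ =>
    ‖1 - riemannZeta ((c : ℂ) + t * I) * Mz z ((c : ℂ) + t * I)‖ ^ 2 := by
  have hs : Continuous fun t : ℝ => (c : ℂ) + t * I := by fun_prop
  have hne : ∀ t : ℝ, (c : ℂ) + t * I ≠ 1 := by
    intro t h
    have := congrArg Complex.re h
    simp at this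
    linarith
  have hz : Continuous fun t : ℝ => riemannZeta ((c : ℂ) + t * I) := by
    rw [continuous_iff_continuousAt]
    intro t
    exact ContinuousAt.comp (f := fun t : ℝ => (c : ℂ) + t * I)
      (differentiableAt_riemannZeta (hne t)).continuousAt hs.continuousAt
  have hM : Continuous (Mz z) := continuous_iff_continuousAt.2 fun s =>
    (kz_hasDeriv z s).continuousAt
  exact ((continuous_const.sub (hz.mul (hM.comp hs))).norm).pow 2

theorem kmz_pr {θ c ε : ℝ} (hθ : 1 / 2 ≤ θ) (h : ZF θ) (hc : θ < c) (hc3 : 3 / 4 ≤ c) (hc1 : c < 1)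
    (hε : 0 < ε) : ∃ C : ℝ, 1 ≤ C ∧ ∀ T : ℝ, 1 ≤ T → ∀ z : ℕ, 1 ≤ z →
    ∫ t in (-T)..T, nH (H3 z) c t ^ 2 ≤
      C * (T * z) ^ ε * (T * (z : ℝ) ^ (1 - 2 * c) + ((z : ℝ) * Real.sqrt T) ^ (2 - 2 * c)) := by
  obtain ⟨C2, hC2, hZ⟩ := ldlog_zeta hθ h hc
  obtain ⟨C3, hC3, hK⟩ := mv1 hc3 hc1 (half_pos hε)
  obtain ⟨C4, hC4, hlog⟩ := kmc_log hε
  obtain ⟨C5, hC5, hlz⟩ := kz_log hε
  have hd : 0 < 1 - c := by linarith
  set A : ℝ := C2 + 1 / (1 - c) with hA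
  have hA1 : 1 ≤ A := by
    have : 0 ≤ 1 / (1 - c) := by positivity
    linarith
  set K : ℝ := (3 / (1 - c)) ^ 2 * C5 with hKdef
  refine ⟨2 * A ^ 2 * C4 * C3 + 2 * K / (1 - c) ^ 2 * Real.pi, ?_, ?_⟩
  · have h1 : 1 ≤ A ^ 2 * C4 * C3 :=
      one_le_mul_of_one_le_of_one_le (one_le_mul_of_one_le_of_one_le (one_le_pow₀ hA1) hC4) hC3
    have h2 : 0 ≤ 2 * K / (1 - c) ^ 2 * Real.pi := by positivity
    nlinarith
  intro T hT z hz
  have hz1 : (1 : ℝ) ≤ z := by exact_mod_cast hz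
  have hz0 : (0 : ℝ) < z := by linarith
  have hT0 : 0 < T := by linarith
  have hTT : -T ≤ T := by linarith
  have hl : 0 ≤ Real.log z := Real.log_nonneg hz1
  have h6 : 1 ≤ Real.log (6 * T) := by
    rw [Real.le_log_iff_exp_le (by linarith)]
    have := Real.exp_one_lt_d9
    linarith
  -- the bound for the second term
  have hBz : (1 + |m1 z| + |m0 z| / (1 - c)) ^ 2 ≤ K * (z : ℝ) ^ ε := by
    have h1 := kz_m0 z
    have h2 := kz_m1 hz
    have h3 := hlz z hz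
    have h4 : 1 + |m1 z| + |m0 z| / (1 - c) ≤ 3 / (1 - c) * (1 + Real.log z) ^ 2 := by
      have h5 : |m0 z| / (1 - c) ≤ 1 / (1 - c) * (1 + Real.log z) ^ 2 := by
        rw [div_mul_eq_mul_div, one_mul]
        apply div_le_div_of_nonneg_right _ hd.le
        nlinarith
      have h7 : 1 ≤ 1 / (1 - c) := by
        rw [le_div_iff₀ hd]
        linarith
      have h8 : 1 ≤ (1 + Real.log z) ^ 2 := by nlinarith
      have h9 : 3 / (1 - c) * (1 + Real.log z) ^ 2 = 1 / (1 - c) * (1 + Real.log z) ^ 2 +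
        2 * (1 / (1 - c) * (1 + Real.log z) ^ 2) := by ring
      rw [h9]
      nlinarith [mul_le_mul h7 (le_refl ((1 + Real.log z) ^ 2)) (by positivity) (by positivity)]
    have h10 : 0 ≤ 1 + |m1 z| + |m0 z| / (1 - c) := by positivity
    calc (1 + |m1 z| + |m0 z| / (1 - c)) ^ 2 ≤ (3 / (1 - c) * (1 + Real.log z) ^ 2) ^ 2 :=
          pow_le_pow_left₀ h10 h4 2
      _ = (3 / (1 - c)) ^ 2 * (1 + Real.log z) ^ 4 := by ring
      _ ≤ (3 / (1 - c)) ^ 2 * (C5 * (z : ℝ) ^ ε) :=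
          mul_le_mul_of_nonneg_left h3 (by positivity)
      _ = K * (z : ℝ) ^ ε := by rw [hKdef]; ring
  -- the mean value from `mv1`
  have hchar : ∀ s : ℂ, XS.MM z (1 : DirichletCharacter ℂ 1) s = Mz z s := by
    intro s
    unfold XS.MM Mz
    apply Finset.sum_congr rfl
    intro n _
    have : (1 : DirichletCharacter ℂ 1) ((n : ℕ) : ZMod 1) = 1 := by
      apply MulChar.one_apply
      exact isUnit_of_subsingleton _
    rw [this, mul_one]
  have hmv : ∫ t in (-T)..T, ‖1 - riemannZeta ((c : ℂ) + t * I) * Mz z ((c : ℂ) + t * I)‖ ^ 2 ≤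
      C3 * (T * z) ^ (ε / 2) * (T * (z : ℝ) ^ (1 - 2 * c) +
        ((z : ℝ) * Real.sqrt T) ^ (2 - 2 * c)) := by
    have h1 := hK 1 T (le_refl _) hT z hz
    simp only [Nat.cast_one, one_mul, one_pow] at h1
    refine le_trans ?_ h1
    unfold SP
    have hIco : Ico 1 (2 * 1) = {1} := by decide
    rw [hIco, Finset.sum_singleton]
    have hmem : (1 : DirichletCharacter ℂ 1) ∈ Pr 1 := by
      rw [mem_Pr]
      exact DirichletCharacter.isPrimitive_one_level_one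
    refine le_trans (le_of_eq ?_) (Finset.single_le_sum (f := fun χ : DirichletCharacter ℂ 1 =>
      ∫ t in (-T)..T, ‖1 - GA.LF χ ((c : ℂ) + t * I) * XS.MM z χ ((c : ℂ) + t * I)‖ ^ 2)
      (fun χ _ => intervalIntegral.integral_nonneg hTT fun t _ => sq_nonneg _) hmem)
    simp only [GA.LF_one, hchar]
  -- the pointwise bound
  have hpt : ∫ t in (-T)..T, nH (H3 z) c t ^ 2 ≤ ∫ t in (-T)..T,
      (2 * (A * Real.log (6 * T)) ^ 2 *
        ‖1 - riemannZeta ((c : ℂ) + t * I) * Mz z ((c : ℂ) + t * I)‖ ^ 2 +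
      2 * (1 + |m1 z| + |m0 z| / (1 - c)) ^ 2 / (1 - c) ^ 2 * (1 + t ^ 2)⁻¹) := by
    rw [intervalIntegral.integral_of_le hTT, intervalIntegral.integral_of_le hTT]
    apply MeasureTheory.integral_mono_of_nonneg
    · exact Filter.Eventually.of_forall fun t => sq_nonneg _
    · have h1 : Continuous fun t : ℝ => (2 * (A * Real.log (6 * T)) ^ 2 *
          ‖1 - riemannZeta ((c : ℂ) + t * I) * Mz z ((c : ℂ) + t * I)‖ ^ 2 +
          2 * (1 + |m1 z| + |m0 z| / (1 - c)) ^ 2 / (1 - c) ^ 2 * (1 + t ^ 2)⁻¹) := by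
        refine (continuous_const.mul (kz_cont hc1 z)).add (continuous_const.mul ?_)
        exact (by fun_prop : Continuous fun t : ℝ => 1 + t ^ 2).inv₀ fun t => by positivity
      exact (h1.intervalIntegrable (-T) T).1
    · refine (ae_restrict_iff' measurableSet_Ioc).mpr (Filter.Eventually.of_forall fun t ht => ?_)
      have ht' : |t| ≤ T := abs_le.mpr ⟨ht.1.le, ht.2⟩
      have hre : ((c : ℂ) + t * I).re = c := by simp
      have him : ((c : ℂ) + t * I).im = t := by simp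
      have hb := hZ ((c : ℂ) + t * I) (by rw [hre]) (by rw [hre]; linarith)
      rw [him] at hb
      have hlog2 : Real.log (|t| + 2) ≤ Real.log (6 * T) := by
        apply Real.log_le_log (by positivity)
        linarith
      have hb2 : ‖logDeriv riemannZeta₁ ((c : ℂ) + t * I)‖ ≤ C2 * Real.log (6 * T) :=
        hb.trans (mul_le_mul_of_nonneg_left hlog2 (by linarith))
      have hb3 : ‖logDeriv riemannZeta₁ ((c : ℂ) + t * I)‖ + 1 / (1 - c) ≤
          A * Real.log (6 * T) := by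
        have : 1 / (1 - c) ≤ 1 / (1 - c) * Real.log (6 * T) :=
          le_mul_of_one_le_right (by positivity) h6
        rw [hA, add_mul]
        linarith
      exact kz_norm hc1 t (zlb_ne h (by rw [hre]; exact hc)) hb3 (by linarith)
  have hsplit : ∫ t in (-T)..T,
      (2 * (A * Real.log (6 * T)) ^ 2 *
        ‖1 - riemannZeta ((c : ℂ) + t * I) * Mz z ((c : ℂ) + t * I)‖ ^ 2 +
      2 * (1 + |m1 z| + |m0 z| / (1 - c)) ^ 2 / (1 - c) ^ 2 * (1 + t ^ 2)⁻¹) =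
      2 * (A * Real.log (6 * T)) ^ 2 *
        (∫ t in (-T)..T, ‖1 - riemannZeta ((c : ℂ) + t * I) * Mz z ((c : ℂ) + t * I)‖ ^ 2) +
      2 * (1 + |m1 z| + |m0 z| / (1 - c)) ^ 2 / (1 - c) ^ 2 *
        ∫ t in (-T)..T, (1 + t ^ 2)⁻¹ := by
    rw [intervalIntegral.integral_add, intervalIntegral.integral_const_mul,
      intervalIntegral.integral_const_mul]
    · exact (continuous_const.mul (kz_cont hc1 z)).intervalIntegrable _ _
    · refine (continuous_const.mul ?_).intervalIntegrable _ _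
      exact (by fun_prop : Continuous fun t : ℝ => 1 + t ^ 2).inv₀ fun t => by positivity
  have hpi : ∫ t in (-T)..T, (1 + t ^ 2)⁻¹ ≤ Real.pi := by
    rw [integral_inv_one_add_sq, Real.arctan_neg]
    have := Real.arctan_lt_pi_div_two T
    linarith
  have hpi0 : 0 ≤ ∫ t in (-T)..T, (1 + t ^ 2)⁻¹ :=
    intervalIntegral.integral_nonneg hTT fun t _ => by positivity
  have hl6 : Real.log (6 * T) ^ 2 ≤ C4 * T ^ (ε / 2) := hlog T hT
  set P : ℝ := T * (z : ℝ) ^ (1 - 2 * c) + ((z : ℝ) * Real.sqrt T) ^ (2 - 2 * c) with hP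
  have hsq : 1 ≤ Real.sqrt T := Real.one_le_sqrt.2 hT
  have hP1 : 1 ≤ P := by
    have h1 : 1 ≤ ((z : ℝ) * Real.sqrt T) ^ (2 - 2 * c) :=
      Real.one_le_rpow (one_le_mul_of_one_le_of_one_le hz1 hsq) (by linarith)
    have h2 : 0 ≤ T * (z : ℝ) ^ (1 - 2 * c) := by positivity
    linarith
  have hzT : (z : ℝ) ^ ε ≤ (T * z) ^ ε :=
    Real.rpow_le_rpow hz0.le (le_mul_of_one_le_left hz0.le hT) hε.le
  have hTz : T ^ (ε / 2) ≤ (T * z) ^ (ε / 2) :=
    Real.rpow_le_rpow hT0.le (le_mul_of_one_le_right hT0.le hz1) (by positivity)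
  have hTz2 : (T * z) ^ (ε / 2) * (T * z) ^ (ε / 2) = (T * z) ^ ε := by
    rw [← Real.rpow_add (by positivity)]
    congr 1
    ring
  have hE0 : 0 ≤ (T * (z : ℝ)) ^ ε := by positivity
  have t1 : 2 * (A * Real.log (6 * T)) ^ 2 *
        (∫ t in (-T)..T, ‖1 - riemannZeta ((c : ℂ) + t * I) * Mz z ((c : ℂ) + t * I)‖ ^ 2) ≤
      2 * A ^ 2 * C4 * C3 * (T * z) ^ ε * P := by
    calc 2 * (A * Real.log (6 * T)) ^ 2 *
        (∫ t in (-T)..T, ‖1 - riemannZeta ((c : ℂ) + t * I) * Mz z ((c : ℂ) + t * I)‖ ^ 2)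
        ≤ 2 * (A ^ 2 * (C4 * (T * z) ^ (ε / 2))) * (C3 * (T * z) ^ (ε / 2) * P) := by
          apply mul_le_mul _ hmv
            (intervalIntegral.integral_nonneg hTT fun t _ => sq_nonneg _) (by positivity)
          apply mul_le_mul_of_nonneg_left _ (by norm_num)
          rw [mul_pow]
          apply mul_le_mul_of_nonneg_left _ (by positivity)
          exact hl6.trans (mul_le_mul_of_nonneg_left hTz (by linarith))
      _ = 2 * A ^ 2 * C4 * C3 * ((T * z) ^ (ε / 2) * (T * z) ^ (ε / 2)) * P := by ring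
      _ = _ := by rw [hTz2]
  have t2 : 2 * (1 + |m1 z| + |m0 z| / (1 - c)) ^ 2 / (1 - c) ^ 2 *
        (∫ t in (-T)..T, (1 + t ^ 2)⁻¹) ≤
      2 * K / (1 - c) ^ 2 * Real.pi * (T * z) ^ ε * P := by
    calc 2 * (1 + |m1 z| + |m0 z| / (1 - c)) ^ 2 / (1 - c) ^ 2 *
        (∫ t in (-T)..T, (1 + t ^ 2)⁻¹)
        ≤ 2 * (K * (T * z) ^ ε) / (1 - c) ^ 2 * Real.pi := by
          apply mul_le_mul _ hpi hpi0 (by positivity)
          apply div_le_div_of_nonneg_right _ (by positivity)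
          apply mul_le_mul_of_nonneg_left _ (by norm_num)
          exact hBz.trans (mul_le_mul_of_nonneg_left hzT (by positivity))
      _ = 2 * K / (1 - c) ^ 2 * Real.pi * (T * z) ^ ε * 1 := by ring
      _ ≤ _ := mul_le_mul_of_nonneg_left hP1 (by positivity)
  refine hpt.trans ?_
  rw [hsplit]
  calc _ ≤ 2 * A ^ 2 * C4 * C3 * (T * z) ^ ε * P +
        2 * K / (1 - c) ^ 2 * Real.pi * (T * z) ^ ε * P := add_le_add t1 t2
    _ = _ := by ring

theorem kmz : type_of% @kmz_pr := @kmz_pr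

end Pool.Agent.XT

/-! ### Block LD -/

/-!
# XT, block LD: the mean square of `L' M` (helper30)
-/

namespace Pool.Agent.XT

open Finset Complex MeasureTheory Pool.Agent.Var35 Pool.Agent.Var73 Pool.Agent.HC Pool.Agent.MF
  Pool.Agent.XS
open scoped ArithmeticFunction ArithmeticFunction.Moebius

theorem ld_ne_one {r : ℕ} (hr : 2 ≤ r) {χ : DirichletCharacter ℂ r} (hχ : χ ∈ Pr r) : χ ≠ 1 := by
  intro h
  have h1 : χ.IsPrimitive := by
    have := hχ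
    simp only [Pr, Finset.mem_filter] at this
    exact this.2
  rw [DirichletCharacter.isPrimitive_def, h] at h1
  have : NeZero r := ⟨by omega⟩
  rw [DirichletCharacter.conductor_one] at h1
  omega

theorem ld_LF {r : ℕ} (hr : 2 ≤ r) {χ : DirichletCharacter ℂ r} (hχ : χ ∈ Pr r) :
    Differentiable ℂ (GA.LF χ) := by
  have : NeZero r := ⟨by omega⟩
  have e : GA.LF χ = DirichletCharacter.LFunction χ := by
    funext s
    simp [GA.LF, NeZero.ne r]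
  rw [e]
  exact DirichletCharacter.differentiable_LFunction (ld_ne_one hr hχ)

/-- the derivative of a Dirichlet polynomial -/
theorem ld_MB (a : ℕ → ℂ) (N : ℕ) {q : ℕ} (χ : DirichletCharacter ℂ q) (s : ℂ) :
    HasDerivAt (MB a N χ) (-MB (fun n => a n * (Real.log n : ℂ)) N χ s) s := by
  unfold MB
  rw [← Finset.sum_neg_distrib]
  apply HasDerivAt.fun_sum
  intro n hn
  have hn1 : (n : ℂ) ≠ 0 := by
    have := (Finset.mem_Icc.mp hn).1
    exact_mod_cast (by omega : n ≠ 0)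
  have h1 : HasDerivAt (fun w : ℂ => (n : ℂ) ^ (-w)) ((n : ℂ) ^ (-s) * Complex.log n * (-1)) s :=
    (hasDerivAt_neg s).const_cpow (Or.inl hn1)
  have h2 := h1.const_mul (a n * χ (n : ZMod q))
  have e : Complex.log (n : ℂ) = ((Real.log n : ℝ) : ℂ) := by
    rw [Complex.ofReal_log (Nat.cast_nonneg n)]
    simp
  rw [e] at h2
  refine h2.congr_deriv ?_
  ring

theorem ld_sum (R : ℕ) (f : (r : ℕ) → DirichletCharacter ℂ r → ℝ) :
    SP R f = ∑ i : {x : (Σ r : ℕ, DirichletCharacter ℂ r) // x ∈ (Ico R (2 * R)).sigma Pr},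
      f i.1.1 i.1.2 := by
  unfold SP
  rw [Finset.sum_sigma', ← Finset.sum_coe_sort]

/-- the derivative of `L M_b` in the mean -/
theorem ld_A {d ε : ℝ} (hd : 0 < d) (hd1 : d ≤ 1 / 16) (hε : 0 < ε) : ∃ C : ℝ, 1 ≤ C ∧
    ∀ (R : ℕ) (T : ℝ), 2 ≤ R → 1 ≤ T → ∀ (z : ℕ) (b : ℕ → ℂ), 1 ≤ z → (∀ n, ‖b n‖ ≤ 1) →
    SP R (fun _ χ => ∫ t in (-T)..T, ‖deriv (fun s => GA.LF χ s * MB b z χ s)
      (((1 / 2 + 2 * d : ℝ) : ℂ) + t * I)‖ ^ 2) ≤
      C * ((R : ℝ) * T * z) ^ ε * ((R : ℝ) ^ 2 * T + z * Real.sqrt (R * T)) := by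
  obtain ⟨C, hC, H⟩ := cl_sig hd (by linarith) hε
  refine ⟨C * 2 ^ ε * 2 / d ^ 2, ?_, ?_⟩
  · have h1 : (1 : ℝ) ≤ 2 ^ ε := Real.one_le_rpow (by norm_num) hε.le
    rw [le_div_iff₀ (by positivity)]
    have h2 : d ^ 2 ≤ 1 := by nlinarith
    nlinarith [mul_le_mul hC h1 (by norm_num) (by linarith)]
  intro R T hR hT z b hz hb
  rw [ld_sum]
  set W : ℝ := (R : ℝ) ^ 2 * T + z * Real.sqrt (R * T) with hW
  have hR0 : (0 : ℝ) < R := by exact_mod_cast (by omega : 0 < R)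
  have hz0 : (0 : ℝ) < z := by exact_mod_cast (by omega : 0 < z)
  have hW0 : 0 ≤ W := by positivity
  set K : ℝ := C * 2 ^ ε * 2 * ((R : ℝ) * T * z) ^ ε * W with hK
  have hr : ∀ i : {x : (Σ r : ℕ, DirichletCharacter ℂ r) // x ∈ (Ico R (2 * R)).sigma Pr},
      2 ≤ i.1.1 ∧ i.1.2 ∈ Pr i.1.1 := by
    rintro ⟨x, hx⟩
    rw [Finset.mem_sigma, Finset.mem_Ico] at hx
    exact ⟨hR.trans hx.1.1, hx.2⟩
  have key := LVK.z_cau2_pr
    (ι := {x : (Σ r : ℕ, DirichletCharacter ℂ r) // x ∈ (Ico R (2 * R)).sigma Pr})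
    (f := fun i s => GA.LF i.1.2 s * MB b z i.1.2 s) (σ := 1 / 2 + 2 * d) (A := -T) (B := T)
    (r := d) (K := K) hd (by linarith) (fun i => ?_) ?_
  · refine (le_of_eq ?_).trans (key.trans (le_of_eq ?_))
    · rfl
    · rw [hK]; ring
  · have h1 : Differentiable ℂ (fun s => GA.LF i.1.2 s * MB b z i.1.2 s) :=
      (ld_LF (hr i).1 (hr i).2).mul fun s => (ld_MB b z i.1.2 s).differentiableAt
    exact fun s _ => h1.analyticAt s
  · intro σ' hσ
    have h2 := H R (2 * T) (by omega) (by linarith) z b σ' hz hb (by linarith [hσ.1])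
      (by linarith [hσ.2])
    rw [ld_sum] at h2
    have h3 : ∀ i : {x : (Σ r : ℕ, DirichletCharacter ℂ r) // x ∈ (Ico R (2 * R)).sigma Pr},
        ∫ t in (-T - d)..(T + d), ‖GA.LF i.1.2 (LVK.pt σ' t) * MB b z i.1.2 (LVK.pt σ' t)‖ ^ 2 ≤
        ∫ t in (-(2 * T))..(2 * T), ‖GA.LF i.1.2 ((σ' : ℂ) + t * I) *
          MB b z i.1.2 ((σ' : ℂ) + t * I)‖ ^ 2 := by
      intro i
      apply intervalIntegral.integral_mono_interval (by linarith) (by linarith) (by linarith)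
      · filter_upwards with t
        positivity
      · apply Continuous.intervalIntegrable
        have h4 : Continuous fun s => GA.LF i.1.2 s * MB b z i.1.2 s :=
          (ld_LF (hr i).1 (hr i).2).continuous.mul (Differentiable.continuous
            fun s => (ld_MB b z i.1.2 s).differentiableAt)
        have h5 : Continuous fun t : ℝ => (σ' : ℂ) + t * I := by fun_prop
        exact ((h4.comp h5).norm).pow 2
    refine (Finset.sum_le_sum fun i _ => h3 i).trans (h2.trans ?_)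
    have h6 : ((R : ℝ) * (2 * T) * z) ^ ε = 2 ^ ε * ((R : ℝ) * T * z) ^ ε := by
      rw [← Real.mul_rpow (by norm_num) (by positivity)]
      congr 1
      ring
    have h7 : (R : ℝ) ^ 2 * (2 * T) + z * Real.sqrt (R * (2 * T)) ≤ 2 * W := by
      have h8 : Real.sqrt (R * (2 * T)) ≤ 2 * Real.sqrt (R * T) := by
        rw [show (R : ℝ) * (2 * T) = 2 * (R * T) by ring, Real.sqrt_mul (by norm_num)]
        have : Real.sqrt 2 ≤ 2 := by
          rw [Real.sqrt_le_left (by norm_num)]; norm_num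
        gcongr
      rw [hW]
      nlinarith [mul_le_mul_of_nonneg_left h8 hz0.le]
    rw [h6, hK]
    calc C * (2 ^ ε * ((R : ℝ) * T * z) ^ ε) *
          ((R : ℝ) ^ 2 * (2 * T) + z * Real.sqrt (R * (2 * T)))
        ≤ C * (2 ^ ε * ((R : ℝ) * T * z) ^ ε) * (2 * W) := by gcongr
      _ = C * 2 ^ ε * 2 * ((R : ℝ) * T * z) ^ ε * W := by ring

/-- LD: `L' M` on the line `1/2 + 2d`: with `F = L M`, `M_b = MB μ z`,
`L' M = F' - L M'`, `M' = MB (-μ log) z`; `F'` by Cauchy's formula on the circle of radius `d`,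
`cl_sig` on the lines `[1/2 + d, 1/2 + 3d]` (and `T + 1 ≤ 2 T`). -/
theorem ldm_pr {d ε : ℝ} (hd : 0 < d) (hd1 : d ≤ 1 / 16) (hε : 0 < ε) : ∃ C : ℝ, 1 ≤ C ∧
    ∀ (R : ℕ) (T : ℝ), 2 ≤ R → 1 ≤ T → ∀ z : ℕ, 1 ≤ z →
    SP R (fun _ χ => ∫ t in (-T)..T, nH (KL z χ) (1 / 2 + 2 * d) t ^ 2) ≤
      C * ((R : ℝ) * T * z) ^ ε * ((R : ℝ) ^ 2 * T + z * Real.sqrt (R * T)) := by
  obtain ⟨C1, hC1, H1⟩ := ld_A hd hd1 hε
  obtain ⟨C2, hC2, H2⟩ := cl_sig (d := 2 * d) (by linarith) (by linarith) (half_pos hε)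
  refine ⟨2 * C1 + 2 * ((1 + 4 / ε) ^ 2 * C2), ?_, ?_⟩
  · have : 0 ≤ 2 * ((1 + 4 / ε) ^ 2 * C2) := by positivity
    linarith
  intro R T hR hT z hz
  set W : ℝ := (R : ℝ) ^ 2 * T + z * Real.sqrt (R * T) with hW
  have hR1 : (1 : ℝ) ≤ R := by exact_mod_cast (by omega : 1 ≤ R)
  have hz1 : (1 : ℝ) ≤ z := by exact_mod_cast hz
  have hW0 : 0 ≤ W := by positivity
  set x : ℝ := (R : ℝ) * T * z with hx
  have hRT : 1 ≤ (R : ℝ) * T := by nlinarith
  have hx1 : (z : ℝ) ≤ x := by rw [hx]; nlinarith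
  have hlog0 : 0 ≤ Real.log z := Real.log_nonneg hz1
  set l : ℝ := 1 + Real.log z with hl
  have hl1 : 1 ≤ l := by rw [hl]; linarith
  set b : ℕ → ℂ := fun n => if n ≤ z then (μ n : ℂ) * ((Real.log n / l : ℝ) : ℂ) else 0 with hb
  have hb1 : ∀ n, ‖b n‖ ≤ 1 := by
    intro n
    rw [hb]
    simp only
    split_ifs with h
    · rw [norm_mul]
      have h1 : ‖((μ n : ℤ) : ℂ)‖ ≤ 1 := by
        rw [Complex.norm_intCast]
        exact_mod_cast ArithmeticFunction.abs_moebius_le_one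
      have h2 : ‖((Real.log n / l : ℝ) : ℂ)‖ ≤ 1 := by
        rw [Complex.norm_real, Real.norm_eq_abs, abs_of_nonneg
          (div_nonneg (Real.log_natCast_nonneg n) (by linarith)), div_le_one (by linarith)]
        rcases Nat.eq_zero_or_pos n with h0 | h0
        · rw [h0]; simp; linarith
        · have : Real.log n ≤ Real.log z := Real.log_le_log (by exact_mod_cast h0)
            (by exact_mod_cast h)
          linarith
      exact mul_le_one₀ h1 (norm_nonneg _) h2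
    · simp
  have hμ : ∀ n : ℕ, ‖((μ n : ℤ) : ℂ)‖ ≤ 1 := by
    intro n
    rw [Complex.norm_intCast]
    exact_mod_cast ArithmeticFunction.abs_moebius_le_one
  have h1 := H1 R T hR hT z (fun n => (μ n : ℂ)) hz hμ
  have h2 := H2 R T (by omega) hT z b (1 / 2 + 2 * d) hz hb1 (by linarith) (by linarith)
  -- pointwise
  have hpt : ∀ (r : ℕ) (χ : DirichletCharacter ℂ r), 2 ≤ r → χ ∈ Pr r →
      ∫ t in (-T)..T, nH (KL z χ) (1 / 2 + 2 * d) t ^ 2 ≤
        2 * (∫ t in (-T)..T, ‖deriv (fun s => GA.LF χ s * MB (fun n => (μ n : ℂ)) z χ s)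
          (((1 / 2 + 2 * d : ℝ) : ℂ) + t * I)‖ ^ 2) +
        2 * (l ^ 2 * ∫ t in (-T)..T, ‖GA.LF χ (((1 / 2 + 2 * d : ℝ) : ℂ) + t * I) *
          MB b z χ (((1 / 2 + 2 * d : ℝ) : ℂ) + t * I)‖ ^ 2) := by
    intro r χ hr hχ
    have hLd := ld_LF hr hχ
    have hMd : ∀ a : ℕ → ℂ, Differentiable ℂ (MB a z χ) := fun a s =>
      (ld_MB a z χ s).differentiableAt
    have hline : Continuous fun t : ℝ => (((1 / 2 + 2 * d : ℝ) : ℂ) + t * I) := by fun_prop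
    have c1 : Continuous fun t : ℝ => ‖deriv (fun s => GA.LF χ s * MB (fun n => (μ n : ℂ)) z χ s)
          (((1 / 2 + 2 * d : ℝ) : ℂ) + t * I)‖ ^ 2 := by
      have h3 : Differentiable ℂ (fun s => GA.LF χ s * MB (fun n => (μ n : ℂ)) z χ s) :=
        hLd.mul (hMd _)
      have h4 : Continuous (deriv (fun s => GA.LF χ s * MB (fun n => (μ n : ℂ)) z χ s)) :=
        (h3.contDiff (n := 1)).continuous_deriv le_rfl
      exact ((h4.comp hline).norm).pow 2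
    have c2 : Continuous fun t : ℝ => ‖GA.LF χ (((1 / 2 + 2 * d : ℝ) : ℂ) + t * I) *
          MB b z χ (((1 / 2 + 2 * d : ℝ) : ℂ) + t * I)‖ ^ 2 :=
      (((hLd.continuous.mul (hMd b).continuous).comp hline).norm).pow 2
    have c3 : Continuous fun t : ℝ => nH (KL z χ) (1 / 2 + 2 * d) t ^ 2 := by
      have h4 : Continuous (deriv (GA.LF χ)) := (hLd.contDiff (n := 1)).continuous_deriv le_rfl
      have h5 : Continuous (MM z χ) := (hMd (fun n => (μ n : ℂ))).continuous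
      exact (((h4.neg.mul h5).comp hline).norm).pow 2
    have hval : ∀ s : ℂ, ‖KL z χ s‖ ^ 2 ≤
        2 * ‖deriv (fun s => GA.LF χ s * MB (fun n => (μ n : ℂ)) z χ s) s‖ ^ 2 +
        2 * (l ^ 2 * ‖GA.LF χ s * MB b z χ s‖ ^ 2) := by
      intro s
      have h3 : HasDerivAt (fun s => GA.LF χ s * MB (fun n => (μ n : ℂ)) z χ s)
          (deriv (GA.LF χ) s * MB (fun n => (μ n : ℂ)) z χ s +
            GA.LF χ s * (-MB (fun n => (μ n : ℂ) * (Real.log n : ℂ)) z χ s)) s :=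
        (hLd s).hasDerivAt.mul (ld_MB _ z χ s)
      have h4 : MB (fun n => (μ n : ℂ) * (Real.log n : ℂ)) z χ s = (l : ℂ) * MB b z χ s := by
        unfold MB
        rw [Finset.mul_sum]
        refine Finset.sum_congr rfl fun n hn => ?_
        have hl0 : (l : ℂ) ≠ 0 := by exact_mod_cast (by linarith : l ≠ 0)
        rw [hb]
        simp only
        rw [if_pos (Finset.mem_Icc.mp hn).2]
        push_cast
        field_simp
      have h5 : KL z χ s = -deriv (fun s => GA.LF χ s * MB (fun n => (μ n : ℂ)) z χ s) s -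
          (l : ℂ) * (GA.LF χ s * MB b z χ s) := by
        rw [h3.deriv, h4]
        unfold KL
        have : MM z χ s = MB (fun n => (μ n : ℂ)) z χ s := rfl
        rw [this]
        ring
      have h6 : ‖KL z χ s‖ ≤ ‖deriv (fun s => GA.LF χ s * MB (fun n => (μ n : ℂ)) z χ s) s‖ +
          l * ‖GA.LF χ s * MB b z χ s‖ := by
        rw [h5]
        refine (norm_sub_le _ _).trans ?_
        rw [norm_neg, norm_mul (l : ℂ), Complex.norm_real, Real.norm_of_nonneg (by linarith)]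
      have h7 := norm_nonneg (KL z χ s)
      have h8 : ‖KL z χ s‖ ^ 2 ≤ (‖deriv (fun s => GA.LF χ s * MB (fun n => (μ n : ℂ)) z χ s) s‖ +
          l * ‖GA.LF χ s * MB b z χ s‖) ^ 2 := pow_le_pow_left₀ h7 h6 2
      nlinarith [sq_nonneg (‖deriv (fun s => GA.LF χ s * MB (fun n => (μ n : ℂ)) z χ s) s‖ -
          l * ‖GA.LF χ s * MB b z χ s‖)]
    calc ∫ t in (-T)..T, nH (KL z χ) (1 / 2 + 2 * d) t ^ 2
        ≤ ∫ t in (-T)..T, (2 * ‖deriv (fun s => GA.LF χ s * MB (fun n => (μ n : ℂ)) z χ s)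
          (((1 / 2 + 2 * d : ℝ) : ℂ) + t * I)‖ ^ 2 +
          2 * (l ^ 2 * ‖GA.LF χ (((1 / 2 + 2 * d : ℝ) : ℂ) + t * I) *
          MB b z χ (((1 / 2 + 2 * d : ℝ) : ℂ) + t * I)‖ ^ 2)) := by
          apply intervalIntegral.integral_mono_on (by linarith)
          · exact c3.intervalIntegrable _ _
          · exact ((c1.const_mul 2).add ((c2.const_mul (l ^ 2)).const_mul 2)).intervalIntegrable _ _
          · intro t _
            exact hval _
      _ = _ := by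
          rw [intervalIntegral.integral_add ((c1.const_mul 2).intervalIntegrable _ _)
            (((c2.const_mul (l ^ 2)).const_mul 2).intervalIntegrable _ _),
            intervalIntegral.integral_const_mul, intervalIntegral.integral_const_mul,
            intervalIntegral.integral_const_mul]
  have hsum : SP R (fun _ χ => ∫ t in (-T)..T, nH (KL z χ) (1 / 2 + 2 * d) t ^ 2) ≤
      2 * SP R (fun _ χ => ∫ t in (-T)..T, ‖deriv (fun s => GA.LF χ s *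
          MB (fun n => (μ n : ℂ)) z χ s) (((1 / 2 + 2 * d : ℝ) : ℂ) + t * I)‖ ^ 2) +
      2 * (l ^ 2 * SP R (fun _ χ => ∫ t in (-T)..T, ‖GA.LF χ (((1 / 2 + 2 * d : ℝ) : ℂ) + t * I) *
          MB b z χ (((1 / 2 + 2 * d : ℝ) : ℂ) + t * I)‖ ^ 2)) := by
    unfold SP
    simp only [Finset.mul_sum]
    rw [← Finset.sum_add_distrib]
    refine Finset.sum_le_sum fun r hr => ?_
    rw [← Finset.sum_add_distrib]
    refine Finset.sum_le_sum fun χ hχ => ?_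
    exact hpt r χ (hR.trans (Finset.mem_Ico.1 hr).1) hχ
  have hl2 : l ^ 2 ≤ (1 + 4 / ε) ^ 2 * x ^ (ε / 2) := by
    have e1 : Real.log z ≤ (z : ℝ) ^ (ε / 4) / (ε / 4) :=
      Real.log_le_rpow_div (by linarith) (by linarith)
    have e2 : (1 : ℝ) ≤ (z : ℝ) ^ (ε / 4) := Real.one_le_rpow hz1 (by linarith)
    have e3 : l ≤ (1 + 4 / ε) * (z : ℝ) ^ (ε / 4) := by
      have : (z : ℝ) ^ (ε / 4) / (ε / 4) = 4 / ε * (z : ℝ) ^ (ε / 4) := by field_simp
      rw [hl]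
      nlinarith
    have e4 : ((z : ℝ) ^ (ε / 4)) ^ 2 = (z : ℝ) ^ (ε / 2) := by
      rw [← Real.rpow_natCast, ← Real.rpow_mul (by linarith)]
      congr 1
      push_cast; ring
    calc l ^ 2 ≤ ((1 + 4 / ε) * (z : ℝ) ^ (ε / 4)) ^ 2 := pow_le_pow_left₀ (by linarith) e3 2
      _ = (1 + 4 / ε) ^ 2 * (z : ℝ) ^ (ε / 2) := by rw [mul_pow, e4]
      _ ≤ (1 + 4 / ε) ^ 2 * x ^ (ε / 2) := by
          have := Real.rpow_le_rpow (by linarith) hx1 (by linarith : 0 ≤ ε / 2)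
          gcongr
  have hxx : x ^ (ε / 2) * x ^ (ε / 2) = x ^ ε := by
    rw [← Real.rpow_add (by linarith)]
    congr 1
    ring
  have hx0 : 0 ≤ x ^ (ε / 2) := Real.rpow_nonneg (by linarith) _
  have hS0 : 0 ≤ SP R (fun _ χ => ∫ t in (-T)..T,
      ‖GA.LF χ (((1 / 2 + 2 * d : ℝ) : ℂ) + t * I) *
        MB b z χ (((1 / 2 + 2 * d : ℝ) : ℂ) + t * I)‖ ^ 2) := by
    unfold SP
    refine Finset.sum_nonneg fun r _ => Finset.sum_nonneg fun χ _ => ?_
    exact intervalIntegral.integral_nonneg (by linarith) fun t _ => by positivity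
  calc SP R (fun _ χ => ∫ t in (-T)..T, nH (KL z χ) (1 / 2 + 2 * d) t ^ 2)
      ≤ 2 * (C1 * x ^ ε * W) + 2 * (((1 + 4 / ε) ^ 2 * x ^ (ε / 2)) * (C2 * x ^ (ε / 2) * W)) := by
        refine hsum.trans (add_le_add (mul_le_mul_of_nonneg_left h1 (by norm_num))
          (mul_le_mul_of_nonneg_left (mul_le_mul hl2 h2 hS0 (by positivity)) (by norm_num)))
    _ = 2 * (C1 * x ^ ε * W) + 2 * ((1 + 4 / ε) ^ 2 * C2 * (x ^ (ε / 2) * x ^ (ε / 2)) * W) := by
        ring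
    _ = (2 * C1 + 2 * ((1 + 4 / ε) ^ 2 * C2)) * x ^ ε * W := by rw [hxx]; ring

theorem ldm : type_of% @ldm_pr := @ldm_pr

end Pool.Agent.XT
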