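import Pool.Agent.Lib_helper59.XT.Defs

/-!
# XT, part C: Mellin transforms, smoothing, exponential sums, families
-/

set_option autoImplicit false

/-! ### Block RE1 -/

/-! # XT, block RE1: Mellin representation of the type I part -/

namespace Pool.Agent.XT

open Finset Complex MeasureTheory Pool.Agent.Var35 Pool.Agent.Var73 Pool.Agent.HC Pool.Agent.MF
  Pool.Agent.XS
open scoped ArithmeticFunction ArithmeticFunction.Moebius

/-- the coefficients -/
noncomputable def re1_b (z : ℕ) {q : ℕ} (χ : DirichletCharacter ℂ q) (n : ℕ) : ℂ :=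
  (cI z n : ℂ) * χ (n : ZMod q)

theorem re1_EI (z : ℕ) {q : ℕ} {χ : DirichletCharacter ℂ q} (hχ : χ ≠ 1) (x : ℝ) :
    EI z χ x = ∑ n ∈ Icc 1 ⌊x⌋₊, re1_b z χ n := by
  unfold EI re1_b
  rw [if_neg hχ]

theorem re1_series (z : ℕ) {q : ℕ} [NeZero q] {χ : DirichletCharacter ℂ q} {s : ℂ}
    (hs : 1 < s.re) : LSeriesSummable (re1_b z χ) s ∧ LSeries (re1_b z χ) s = KL z χ s := by
  obtain ⟨b1, b2⟩ := rpa_deriv χ hs
  obtain ⟨c1, c2⟩ := rpa_moll z χ s
  have d1 := c1.convolution b1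
  have d2 := LSeries_convolution' c1 b1
  rw [rpa_conv] at d1 d2
  refine ⟨d1, ?_⟩
  have e : re1_b z χ = fun n => (cI z n : ℂ) * χ (n : ZMod q) := rfl
  rw [e, d2, b2, c2]
  unfold KL
  ring

theorem re1_norm (z : ℕ) {q : ℕ} (χ : DirichletCharacter ℂ q) (n : ℕ) (hn : 1 ≤ n) :
    ‖re1_b z χ n‖ ≤ z * Real.log n := by
  unfold re1_b
  have h1 : ‖χ (n : ZMod q)‖ ≤ 1 := DirichletCharacter.norm_le_one χ _
  have h3 : ‖(cI z n : ℂ)‖ ≤ z * Real.log n := by
    rw [Complex.norm_real, Real.norm_eq_abs]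
    exact rpa_cI z n hn
  rw [norm_mul]
  exact (mul_le_of_le_one_right (norm_nonneg _) h1).trans h3

theorem re1_sum (z : ℕ) {q : ℕ} (χ : DirichletCharacter ℂ q) (x : ℝ) (hx : 1 ≤ x) :
    ‖∑ n ∈ Icc 1 ⌊x⌋₊, re1_b z χ n‖ ≤ (2 * z) * x ^ (3 / 2 : ℝ) := by
  have hx0 : 0 < x := by linarith
  refine (norm_sum_le _ _).trans ?_
  have h1 : ∀ n ∈ Icc 1 ⌊x⌋₊, ‖re1_b z χ n‖ ≤ z * (2 * x ^ (1 / 2 : ℝ)) := by
    intro n hn
    obtain ⟨hn1, hn2⟩ := mem_Icc.mp hn
    refine (re1_norm z χ n hn1).trans (mul_le_mul_of_nonneg_left ?_ (by positivity))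
    have h2 : (n : ℝ) ≤ x := (Nat.cast_le.mpr hn2).trans (Nat.floor_le hx0.le)
    have h3 : (0 : ℝ) < n := by exact_mod_cast hn1
    refine (Real.log_le_log h3 h2).trans ?_
    have h4 := Real.log_le_rpow_div hx0.le (show (0 : ℝ) < 1 / 2 by norm_num)
    linarith
  refine (sum_le_card_nsmul _ _ _ h1).trans ?_
  rw [nsmul_eq_mul, Nat.card_Icc, Nat.add_sub_cancel]
  have h5 : ((⌊x⌋₊ : ℕ) : ℝ) ≤ x := Nat.floor_le hx0.le
  have h6 : x ^ (3 / 2 : ℝ) = x * x ^ (1 / 2 : ℝ) := by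
    rw [show (3 / 2 : ℝ) = 1 + 1 / 2 by norm_num, Real.rpow_add hx0, Real.rpow_one]
  rw [h6]
  have h7 : 0 ≤ x ^ (1 / 2 : ℝ) := by positivity
  calc ((⌊x⌋₊ : ℕ) : ℝ) * (z * (2 * x ^ (1 / 2 : ℝ)))
      ≤ x * (z * (2 * x ^ (1 / 2 : ℝ))) := mul_le_mul_of_nonneg_right h5 (by positivity)
    _ = (2 * z) * (x * x ^ (1 / 2 : ℝ)) := by ring

/-- RE1: type I, nontrivial characters -/
theorem rep_ei_pr {c : ℝ} (hc : 1 / 2 < c) (hc1 : c ≤ 1) (r z : ℕ) (hr : 2 ≤ r)
    (χ : DirichletCharacter ℂ r) (hχ : χ ∈ Pr r) : Rep (EI z χ) (KL z χ) c := by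
  have hr0 : NeZero r := ⟨by omega⟩
  have hne : χ ≠ 1 := by
    rintro rfl
    classical
    have h1 : (1 : DirichletCharacter ℂ r).IsPrimitive := by
      unfold Pr at hχ
      exact (mem_filter.mp hχ).2
    rw [DirichletCharacter.isPrimitive_def, DirichletCharacter.conductor_one] at h1
    omega
  have hE : EI z χ = fun x => ∑ n ∈ Icc 1 ⌊x⌋₊, re1_b z χ n := funext (re1_EI z hne)
  have hd : Differentiable ℂ (GA.LF χ) := GA.LF_diff hne
  refine ⟨?_, ?_, ?_, ?_, ?_, ?_, ?_⟩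
  · rw [hE]
    exact (measurable_from_nat (f := fun N : ℕ => ∑ n ∈ Icc 1 N, re1_b z χ n)).comp
      Nat.measurable_floor
  · intro x hx
    rw [hE]
    refine ContinuousAt.congr (f := fun _ => ∑ n ∈ Icc 1 ⌊x⌋₊, re1_b z χ n) continuousAt_const ?_
    filter_upwards [rpa_loc hx] with y hy
    rw [hy]
  · intro x hx
    rw [re1_EI z hne, Nat.floor_eq_zero.mpr hx]
    simp
  · refine ⟨2 * z, fun x hx => ?_⟩
    rw [re1_EI z hne]
    exact re1_sum z χ x hx
  · intro t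
    have hs : (1 : ℝ) < (2 + t * I : ℂ).re := by simp
    obtain ⟨h1, h2⟩ := re1_series z (χ := χ) hs
    have h3 := LSeries_eq_mul_integral (re1_b z χ) (r := 3 / 2) (by norm_num)
      (s := 2 + t * I) (by simp; norm_num) h1 ?_
    · rw [h2] at h3
      have h4 : (2 + t * I : ℂ) ≠ 0 := by
        intro h0
        have := congrArg Complex.re h0
        simp at this
      rw [h3, mul_div_cancel_left₀ _ h4]
      refine integral_congr_ae (Filter.Eventually.of_forall fun x => ?_)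
      simp only
      rw [re1_EI z hne]
      congr 2
      ring
    · refine Asymptotics.IsBigO.of_bound (2 * z) ?_
      filter_upwards [Filter.eventually_ge_atTop 1] with n hn
      have h5 := re1_sum z χ n (by exact_mod_cast hn)
      rw [Nat.floor_natCast] at h5
      refine h5.trans (le_of_eq ?_)
      rw [Real.norm_eq_abs, abs_of_nonneg (by positivity)]
  · refine ⟨c - 1, by linarith, ?_⟩
    intro s hs
    have h2 : DifferentiableAt ℂ (deriv (GA.LF χ)) s :=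
      ((hd.analyticAt s).deriv).differentiableAt
    unfold KL
    exact (h2.neg.mul (rpa_molldiff z χ s)).differentiableWithinAt
  · obtain ⟨C2, hC2, h2⟩ := GA.LF_growth
    refine ⟨24 * C2 * r * z, 1, fun s hs1 hs2 => ?_⟩
    have a3 := rpa_mollbound z χ (s := s) (by linarith)
    have hT0 : 0 ≤ |s.im| := abs_nonneg _
    have hr1 : (2 : ℝ) ≤ r := by exact_mod_cast hr
    have a1 : ‖deriv (GA.LF χ) s‖ ≤ (C2 * r * (|s.im| + 3)) / (1 / 8) := by
      refine Complex.norm_deriv_le_of_forall_mem_sphere_norm_le (by norm_num)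
        hd.diffContOnCl fun w hw => ?_
      have hw1 : ‖w - s‖ = 1 / 8 := by simpa [dist_eq_norm] using hw
      have hre : |(w - s).re| ≤ 1 / 8 := hw1 ▸ Complex.abs_re_le_norm _
      have him : |(w - s).im| ≤ 1 / 8 := hw1 ▸ Complex.abs_im_le_norm _
      rw [Complex.sub_re] at hre
      rw [Complex.sub_im] at him
      have hwre : 1 / 4 ≤ w.re := by
        have := (abs_le.mp hre).1
        linarith
      have hwim : |w.im| ≤ |s.im| + 1 := by
        have h5 : |w.im| ≤ |w.im - s.im| + |s.im| := by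
          have := abs_add_le (w.im - s.im) s.im
          simpa using this
        linarith
      refine (h2 r χ hne w hwre).trans ?_
      refine mul_le_mul_of_nonneg_left (by linarith) (by positivity)
    unfold KL
    rw [norm_mul, norm_neg, pow_one]
    have b1 : (C2 * r * (|s.im| + 3)) / (1 / 8) ≤ 24 * C2 * r * (1 + |s.im|) := by
      have h6 : 0 ≤ C2 * r * |s.im| := by positivity
      have h7 : (C2 * r * (|s.im| + 3)) / (1 / 8) = 8 * (C2 * r * |s.im|) + 24 * (C2 * r) := by ring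
      rw [h7]
      nlinarith
    calc ‖deriv (GA.LF χ) s‖ * ‖MM z χ s‖ ≤ (24 * C2 * r * (1 + |s.im|)) * z :=
          mul_le_mul (a1.trans b1) a3 (norm_nonneg _) (by positivity)
      _ = 24 * C2 * r * z * (1 + |s.im|) := by ring

theorem rep_ei : type_of% @rep_ei_pr := @rep_ei_pr

end Pool.Agent.XT

/-! ### Block RE3 -/

/-! # XT, block RE3: the Mellin transform of type II, trivial character -/

set_option linter.unusedVariables false

namespace Pool.Agent.XT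

open Finset Complex MeasureTheory Pool.Agent.Var35 Pool.Agent.Var73 Pool.Agent.HC Pool.Agent.MF
  Pool.Agent.XS
open scoped ArithmeticFunction ArithmeticFunction.Moebius

/-- the summatory function of type I -/
noncomputable def re3_S (z : ℕ) (x : ℝ) : ℂ := ∑ n ∈ Icc 1 ⌊x⌋₊, (cI z n : ℂ)

theorem re3_eq (z : ℕ) (x : ℝ) : E3 z x = if x < 1 then 0 else (RPZ_psi x - x) + 1 -
    (re3_S z x - m0 z * (x * Real.log x : ℝ) + (m0 z - m1 z) * (x - 1)) := by
  have h1 : ∀ n : ℕ, (1 : DirichletCharacter ℂ 1) (n : ZMod 1) = 1 := fun n =>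
    MulChar.one_apply (isUnit_of_subsingleton _)
  unfold E3 Pool.Agent.XS.E0 Pool.Agent.XS.EE EJ RPZ_psi re3_S
  by_cases h : x < 1
  · simp only [if_pos h]
    simp
  · simp only [if_neg h, if_true, h1, mul_one]
    push_cast
    ring

theorem re3_S_meas (z : ℕ) : Measurable (re3_S z) := by
  have h : Measurable (fun m : ℕ => ∑ n ∈ Icc 1 m, (cI z n : ℂ)) := measurable_from_top
  exact h.comp Nat.measurable_floor

theorem re3_S_bound (z : ℕ) (x : ℝ) (hx : 1 ≤ x) :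
    ‖re3_S z x‖ ≤ 2 * z * x ^ (3 / 2 : ℝ) := by
  have hx0 : 0 < x := by linarith
  unfold re3_S
  refine (norm_sum_le _ _).trans ?_
  have h1 : ∀ n ∈ Icc 1 ⌊x⌋₊, ‖(cI z n : ℂ)‖ ≤ z * (2 * x ^ (1 / 2 : ℝ)) := by
    intro n hn
    obtain ⟨hn1, hn2⟩ := mem_Icc.mp hn
    rw [Complex.norm_real, Real.norm_eq_abs]
    refine (rpa_cI z n hn1).trans (mul_le_mul_of_nonneg_left ?_ (by positivity))
    have h2 : (n : ℝ) ≤ x := (Nat.cast_le.mpr hn2).trans (Nat.floor_le hx0.le)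
    have h3 : (0 : ℝ) < n := by exact_mod_cast hn1
    refine (Real.log_le_log h3 h2).trans ?_
    have h4 := Real.log_le_rpow_div hx0.le (show (0 : ℝ) < 1 / 2 by norm_num)
    linarith
  refine (sum_le_card_nsmul _ _ _ h1).trans ?_
  rw [nsmul_eq_mul, Nat.card_Icc, Nat.add_sub_cancel]
  have h5 : ((⌊x⌋₊ : ℕ) : ℝ) ≤ x := Nat.floor_le hx0.le
  have h6 : x ^ (3 / 2 : ℝ) = x * x ^ (1 / 2 : ℝ) := by
    rw [show (3 / 2 : ℝ) = 1 + 1 / 2 by norm_num, Real.rpow_add hx0, Real.rpow_one]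
  rw [h6]
  calc ((⌊x⌋₊ : ℕ) : ℝ) * (z * (2 * x ^ (1 / 2 : ℝ)))
      ≤ x * (z * (2 * x ^ (1 / 2 : ℝ))) := mul_le_mul_of_nonneg_right h5 (by positivity)
    _ = 2 * z * (x * x ^ (1 / 2 : ℝ)) := by ring

/-- `x ≤ x^(3/2)` and `x log x ≤ 2 x^(3/2)` -/
theorem re3_pow {x : ℝ} (hx : 1 ≤ x) : 1 ≤ x ^ (3 / 2 : ℝ) ∧ x ≤ x ^ (3 / 2 : ℝ) ∧
    |x * Real.log x| ≤ 2 * x ^ (3 / 2 : ℝ) := by
  have hx0 : 0 < x := by linarith
  refine ⟨Real.one_le_rpow hx (by norm_num), ?_, ?_⟩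
  · nth_rewrite 1 [← Real.rpow_one x]
    exact Real.rpow_le_rpow_of_exponent_le hx (by norm_num)
  · rw [abs_of_nonneg (mul_nonneg hx0.le (Real.log_nonneg hx))]
    have h4 := Real.log_le_rpow_div hx0.le (show (0 : ℝ) < 1 / 2 by norm_num)
    have h6 : x ^ (3 / 2 : ℝ) = x * x ^ (1 / 2 : ℝ) := by
      rw [show (3 / 2 : ℝ) = 1 + 1 / 2 by norm_num, Real.rpow_add hx0, Real.rpow_one]
    rw [h6]
    calc x * Real.log x ≤ x * (x ^ (1 / 2 : ℝ) / (1 / 2)) := mul_le_mul_of_nonneg_left h4 hx0.le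
      _ = 2 * (x * x ^ (1 / 2 : ℝ)) := by ring

theorem re3_psi_bound {x : ℝ} (hx : 1 ≤ x) :
    ‖RPZ_psi x - x‖ ≤ (Real.log 4 + 5) * x ^ (3 / 2 : ℝ) := by
  have hx0 : 0 < x := by linarith
  have h4 : 0 ≤ Real.log 4 := Real.log_nonneg (by norm_num)
  calc ‖RPZ_psi x - x‖ ≤ ‖RPZ_psi x‖ + ‖(x : ℂ)‖ := norm_sub_le _ _
    _ ≤ (Real.log 4 + 4) * x + x := by
        have := RPZ_norm hx0.le
        rw [Complex.norm_real, Real.norm_of_nonneg hx0.le]
        linarith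
    _ = (Real.log 4 + 5) * x := by ring
    _ ≤ (Real.log 4 + 5) * x ^ (3 / 2 : ℝ) :=
        mul_le_mul_of_nonneg_left (re3_pow hx).2.1 (by linarith)

/-- integrability -/
theorem re3_int {f : ℝ → ℂ} (hf : Measurable f) {C : ℝ}
    (hb : ∀ x : ℝ, 1 ≤ x → ‖f x‖ ≤ C * x ^ (3 / 2 : ℝ)) (t : ℝ) :
    IntegrableOn (fun x : ℝ => f x * (x : ℂ) ^ (-(3 + t * I) : ℂ)) (Set.Ioi 1) volume := by
  have hint : IntegrableOn (fun x : ℝ => x ^ (-(3 / 2) : ℝ)) (Set.Ioi 1) volume :=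
    integrableOn_Ioi_rpow_of_lt (by norm_num) one_pos
  have hmeasp : AEStronglyMeasurable (fun x : ℝ => (x : ℂ) ^ (-(3 + t * I) : ℂ))
      (volume.restrict (Set.Ioi 1)) := by
    refine ContinuousOn.aestronglyMeasurable ?_ measurableSet_Ioi
    intro x hx
    have hx0 : (0 : ℝ) < x := lt_trans one_pos hx
    exact (continuousAt_ofReal_cpow_const x _ (Or.inr hx0.ne')).continuousWithinAt
  refine Integrable.mono' (hint.const_mul C) (hf.aestronglyMeasurable.mul hmeasp) ?_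
  refine (ae_restrict_iff' measurableSet_Ioi).2 (Filter.Eventually.of_forall fun x hx => ?_)
  have hx1 : (1 : ℝ) < x := hx
  have hx0 : (0 : ℝ) < x := lt_trans one_pos hx1
  rw [norm_mul, Complex.norm_cpow_eq_rpow_re_of_pos hx0]
  have e1 : (-(3 + t * I) : ℂ).re = -3 := by simp
  rw [e1]
  have e : x ^ (-(3 / 2) : ℝ) = x ^ (3 / 2 : ℝ) * x ^ (-3 : ℝ) := by
    rw [← Real.rpow_add hx0]
    norm_num
  rw [e, ← mul_assoc]
  exact mul_le_mul_of_nonneg_right (hb x hx1.le) (Real.rpow_nonneg hx0.le _)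

theorem re3_split {f1 f2 f3 f4 f5 : ℝ → ℂ} (a b : ℂ)
    (i1 : IntegrableOn f1 (Set.Ioi 1) volume) (i2 : IntegrableOn f2 (Set.Ioi 1) volume)
    (i3 : IntegrableOn f3 (Set.Ioi 1) volume) (i4 : IntegrableOn f4 (Set.Ioi 1) volume)
    (i5 : IntegrableOn f5 (Set.Ioi 1) volume) :
    ∫ x in Set.Ioi (1 : ℝ), (((f1 x + f2 x) - f3 x) + a * f4 x) - b * (f5 x - f2 x) =
      (((∫ x in Set.Ioi (1 : ℝ), f1 x) + (∫ x in Set.Ioi (1 : ℝ), f2 x)) -
        (∫ x in Set.Ioi (1 : ℝ), f3 x)) + a * (∫ x in Set.Ioi (1 : ℝ), f4 x) -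
        b * ((∫ x in Set.Ioi (1 : ℝ), f5 x) - ∫ x in Set.Ioi (1 : ℝ), f2 x) := by
  have j1 : IntegrableOn (fun x => f1 x + f2 x) (Set.Ioi 1) volume := i1.add i2
  have j2 : IntegrableOn (fun x => (f1 x + f2 x) - f3 x) (Set.Ioi 1) volume := j1.sub i3
  have j3 : IntegrableOn (fun x => a * f4 x) (Set.Ioi 1) volume := i4.const_mul a
  have j4 : IntegrableOn (fun x => ((f1 x + f2 x) - f3 x) + a * f4 x) (Set.Ioi 1) volume :=
    j2.add j3
  have j5 : IntegrableOn (fun x => f5 x - f2 x) (Set.Ioi 1) volume := i5.sub i2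
  have j6 : IntegrableOn (fun x => b * (f5 x - f2 x)) (Set.Ioi 1) volume := j5.const_mul b
  rw [integral_sub j4 j6, integral_add j2 j3, integral_sub j1 i3, integral_add i1 i2,
    integral_const_mul, integral_const_mul, integral_sub i5 i2]

/-! ### the Mellin transforms -/

theorem re3_one (t : ℝ) : ∫ x in Set.Ioi (1 : ℝ), (1 : ℂ) * (x : ℂ) ^ (-(3 + t * I) : ℂ) =
    1 / (2 + t * I) := by
  simp_rw [one_mul]
  rw [integral_Ioi_cpow_of_lt (by simp) one_pos]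
  rw [ofReal_one, one_cpow]
  have e : (-(3 + t * I) + 1 : ℂ) = -(2 + t * I) := by ring
  rw [e, neg_div_neg_eq]

theorem re3_lin (t : ℝ) : ∫ x in Set.Ioi (1 : ℝ), (x : ℂ) * (x : ℂ) ^ (-(3 + t * I) : ℂ) =
    1 / (1 + t * I) := by
  have hpow : ∀ x ∈ Set.Ioi (1 : ℝ), (x : ℂ) * (x : ℂ) ^ (-(3 + t * I) : ℂ) =
      (x : ℂ) ^ (-(2 + t * I) : ℂ) := by
    intro x hx
    have hx0 : (x : ℂ) ≠ 0 := by
      have : (0 : ℝ) < x := lt_trans one_pos hx
      exact_mod_cast this.ne'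
    nth_rewrite 1 [← Complex.cpow_one (x : ℂ)]
    rw [← Complex.cpow_add _ _ hx0]
    congr 1
    ring
  rw [setIntegral_congr_fun measurableSet_Ioi hpow,
    integral_Ioi_cpow_of_lt (by simp) one_pos]
  rw [ofReal_one, one_cpow]
  have e : (-(2 + t * I) + 1 : ℂ) = -(1 + t * I) := by ring
  rw [e, neg_div_neg_eq]

theorem re3_log (t : ℝ) :
    ∫ x in Set.Ioi (1 : ℝ), ((x * Real.log x : ℝ) : ℂ) * (x : ℂ) ^ (-(3 + t * I) : ℂ) =
    1 / (1 + t * I) ^ 2 := by
  set a : ℂ := 1 + t * I with ha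
  have ha0 : a ≠ 0 := by
    intro h0
    have := congrArg Complex.re h0
    simp [ha] at this
  have hint : IntegrableOn (fun x : ℝ => ((x * Real.log x : ℝ) : ℂ) *
      (x : ℂ) ^ (-(3 + t * I) : ℂ)) (Set.Ioi 1) volume := by
    refine re3_int (f := fun x : ℝ => ((x * Real.log x : ℝ) : ℂ)) (C := 2)
      (Complex.measurable_ofReal.comp (measurable_id.mul Real.measurable_log)) ?_ t
    intro x hx
    rw [Complex.norm_real, Real.norm_eq_abs]
    exact (re3_pow hx).2.2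
  have hder : ∀ x ∈ Set.Ici (1 : ℝ), HasDerivAt
      (fun x : ℝ => -((x : ℂ) ^ (-a) * (((Real.log x : ℝ) : ℂ) / a + 1 / a ^ 2)))
      (((x * Real.log x : ℝ) : ℂ) * (x : ℂ) ^ (-(3 + t * I) : ℂ)) x := by
    intro x hx
    have hx1 : (1 : ℝ) ≤ x := hx
    have hx0 : (0 : ℝ) < x := by linarith
    have hxc : (x : ℂ) ≠ 0 := by exact_mod_cast hx0.ne'
    have h1 : HasDerivAt (fun y : ℝ => (y : ℂ) ^ (-a)) (-a * (x : ℂ) ^ (-a - 1)) x := by
      have h := (hasDerivAt_id (x : ℂ)).cpow_const (c := -a) (Or.inl (by simpa using hx0))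
      have h2 := h.comp_ofReal
      simpa using h2
    have h2 : HasDerivAt (fun y : ℝ => ((Real.log y : ℝ) : ℂ) / a + 1 / a ^ 2)
        (((x⁻¹ : ℝ) : ℂ) / a) x :=
      ((Real.hasDerivAt_log hx0.ne').ofReal_comp.div_const a).add_const _
    have h3 := (h1.mul h2).neg
    refine h3.congr_deriv ?_
    have e1 : (x : ℂ) ^ (-a) = x * (x : ℂ) ^ (-a - 1) := by
      nth_rewrite 2 [← Complex.cpow_one (x : ℂ)]
      rw [← Complex.cpow_add _ _ hxc]
      congr 1
      ring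
    have e2 : (x : ℂ) * (x : ℂ) ^ (-(3 + t * I) : ℂ) = (x : ℂ) ^ (-a - 1) := by
      nth_rewrite 1 [← Complex.cpow_one (x : ℂ)]
      rw [← Complex.cpow_add _ _ hxc]
      congr 1
      rw [ha]
      ring
    have e3 : ((x * Real.log x : ℝ) : ℂ) * (x : ℂ) ^ (-(3 + t * I) : ℂ) =
        ((Real.log x : ℝ) : ℂ) * (x : ℂ) ^ (-a - 1) := by
      rw [← e2]
      push_cast
      ring
    rw [e3, e1]
    push_cast
    field_simp
    ring
  have hlim : Filter.Tendsto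
      (fun x : ℝ => -((x : ℂ) ^ (-a) * (((Real.log x : ℝ) : ℂ) / a + 1 / a ^ 2)))
      Filter.atTop (nhds 0) := by
    rw [← neg_zero]
    refine Filter.Tendsto.neg ?_
    rw [tendsto_zero_iff_norm_tendsto_zero]
    have h1 : Filter.Tendsto (fun x : ℝ => (2 * ‖a‖⁻¹ + ‖a ^ 2‖⁻¹) * x ^ (-(1 / 2) : ℝ))
        Filter.atTop (nhds 0) := by
      have h := (tendsto_rpow_neg_atTop (y := 1 / 2) (by norm_num)).const_mul
        (2 * ‖a‖⁻¹ + ‖a ^ 2‖⁻¹)
      rwa [mul_zero] at h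
    refine squeeze_zero' (Filter.Eventually.of_forall fun x => norm_nonneg _) ?_ h1
    filter_upwards [Filter.eventually_ge_atTop (1 : ℝ)] with x hx
    have hx0 : (0 : ℝ) < x := by linarith
    rw [norm_mul, Complex.norm_cpow_eq_rpow_re_of_pos hx0]
    have e1 : (-a).re = -1 := by simp [ha]
    rw [e1]
    have h2 : ‖((Real.log x : ℝ) : ℂ) / a + 1 / a ^ 2‖ ≤
        (2 * ‖a‖⁻¹ + ‖a ^ 2‖⁻¹) * x ^ (1 / 2 : ℝ) := by
      refine (norm_add_le _ _).trans ?_
      rw [norm_div, norm_div, norm_one, Complex.norm_real, Real.norm_eq_abs,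
        abs_of_nonneg (Real.log_nonneg hx), div_eq_mul_inv, one_div]
      have h4 := Real.log_le_rpow_div hx0.le (show (0 : ℝ) < 1 / 2 by norm_num)
      have h5 : 1 ≤ x ^ (1 / 2 : ℝ) := Real.one_le_rpow hx (by norm_num)
      have h6 : Real.log x * ‖a‖⁻¹ ≤ (2 * x ^ (1 / 2 : ℝ)) * ‖a‖⁻¹ :=
        mul_le_mul_of_nonneg_right (by linarith) (by positivity)
      have h7 : ‖a ^ 2‖⁻¹ ≤ ‖a ^ 2‖⁻¹ * x ^ (1 / 2 : ℝ) :=
        le_mul_of_one_le_right (by positivity) h5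
      calc Real.log x * ‖a‖⁻¹ + ‖a ^ 2‖⁻¹ ≤ (2 * x ^ (1 / 2 : ℝ)) * ‖a‖⁻¹ +
            ‖a ^ 2‖⁻¹ * x ^ (1 / 2 : ℝ) := add_le_add h6 h7
        _ = (2 * ‖a‖⁻¹ + ‖a ^ 2‖⁻¹) * x ^ (1 / 2 : ℝ) := by ring
    calc x ^ (-1 : ℝ) * ‖((Real.log x : ℝ) : ℂ) / a + 1 / a ^ 2‖
        ≤ x ^ (-1 : ℝ) * ((2 * ‖a‖⁻¹ + ‖a ^ 2‖⁻¹) * x ^ (1 / 2 : ℝ)) :=
          mul_le_mul_of_nonneg_left h2 (by positivity)
      _ = (2 * ‖a‖⁻¹ + ‖a ^ 2‖⁻¹) * (x ^ (-1 : ℝ) * x ^ (1 / 2 : ℝ)) := by ring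
      _ = (2 * ‖a‖⁻¹ + ‖a ^ 2‖⁻¹) * x ^ (-(1 / 2) : ℝ) := by
          rw [← Real.rpow_add hx0]
          norm_num
  rw [integral_Ioi_of_hasDerivAt_of_tendsto' hder hint hlim]
  rw [Real.log_one, ofReal_one, one_cpow]
  simp

theorem re3_Mz (z : ℕ) (s : ℂ) : Pool.Agent.XS.MM z (1 : DirichletCharacter ℂ 1) s = Mz z s := by
  have h1 : ∀ n : ℕ, (1 : DirichletCharacter ℂ 1) (n : ZMod 1) = 1 := fun n =>
    MulChar.one_apply (isUnit_of_subsingleton _)
  unfold Pool.Agent.XS.MM Mz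
  simp only [h1, mul_one]

theorem re3_S_mellin (z : ℕ) (t : ℝ) :
    ∫ x in Set.Ioi (1 : ℝ), re3_S z x * (x : ℂ) ^ (-(3 + t * I) : ℂ) =
    (-deriv riemannZeta (2 + t * I) * Mz z (2 + t * I)) / (2 + t * I) := by
  have h1 : ∀ n : ℕ, (1 : DirichletCharacter ℂ 1) (n : ZMod 1) = 1 := fun n =>
    MulChar.one_apply (isUnit_of_subsingleton _)
  have hs : (1 : ℝ) < (2 + t * I : ℂ).re := by simp
  obtain ⟨b1, b2⟩ := rpa_deriv (1 : DirichletCharacter ℂ 1) hs
  obtain ⟨c1, c2⟩ := rpa_moll z (1 : DirichletCharacter ℂ 1) (2 + t * I)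
  have d1 := c1.convolution b1
  have d2 := LSeries_convolution' c1 b1
  rw [rpa_conv, b2, c2, re3_Mz] at d2
  rw [rpa_conv] at d1
  have e1 : (fun n : ℕ => (cI z n : ℂ) * (1 : DirichletCharacter ℂ 1) (n : ZMod 1)) =
      fun n => (cI z n : ℂ) := by
    funext n
    rw [h1, mul_one]
  rw [e1] at d1 d2
  have e2 : GA.LF (1 : DirichletCharacter ℂ 1) = riemannZeta := funext GA.LF_one
  rw [e2] at d2
  have h3 := LSeries_eq_mul_integral (fun n => (cI z n : ℂ)) (r := 3 / 2) (by norm_num)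
    (s := 2 + t * I) (by simp; norm_num) d1 ?_
  · have h4 : (2 + t * I : ℂ) ≠ 0 := by
      intro h0
      have := congrArg Complex.re h0
      simp at this
    rw [d2] at h3
    have e3 : ∫ x in Set.Ioi (1 : ℝ), re3_S z x * (x : ℂ) ^ (-(3 + t * I) : ℂ) =
        ∫ t_1 in Set.Ioi (1 : ℝ), (∑ k ∈ Icc 1 ⌊t_1⌋₊, (cI z k : ℂ)) *
          (t_1 : ℂ) ^ (-((2 + t * I : ℂ) + 1)) := by
      refine integral_congr_ae (Filter.Eventually.of_forall fun x => ?_)
      unfold re3_S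
      simp only
      congr 2
      ring
    rw [e3, eq_div_iff h4, mul_comm _ (2 + t * I : ℂ), ← h3]
    ring
  · refine Asymptotics.IsBigO.of_bound (2 * z) ?_
    filter_upwards [Filter.eventually_ge_atTop 1] with n hn
    have h5 := re3_S_bound z n (by exact_mod_cast hn)
    unfold re3_S at h5
    rw [Nat.floor_natCast] at h5
    refine h5.trans (le_of_eq ?_)
    rw [Real.norm_eq_abs, abs_of_nonneg (by positivity)]

/-! ### the function `H3` -/

theorem re3_Mz_diff (z : ℕ) : Differentiable ℂ (Mz z) := by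
  have h := rpa_molldiff z (1 : DirichletCharacter ℂ 1)
  have e : Pool.Agent.XS.MM z (1 : DirichletCharacter ℂ 1) = Mz z := funext (re3_Mz z)
  rwa [e] at h

theorem re3_Mz_bound (z : ℕ) {s : ℂ} (hs : 0 ≤ s.re) : ‖Mz z s‖ ≤ z := by
  rw [← re3_Mz]
  exact rpa_mollbound z _ hs

theorem re3_Mz_one (z : ℕ) : Mz z 1 = m0 z := by
  unfold Mz m0
  push_cast
  refine sum_congr rfl fun n hn => ?_
  rw [Complex.cpow_neg, Complex.cpow_one, div_eq_mul_inv]

theorem re3_Mz_deriv (z : ℕ) : deriv (Mz z) 1 = m1 z := by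
  have h1 : HasDerivAt (Mz z)
      (∑ n ∈ Icc 1 z, (μ n : ℂ) * ((n : ℂ) ^ (-1 : ℂ) * Complex.log n * (-1))) 1 := by
    unfold Mz
    refine HasDerivAt.fun_sum fun n hn => ?_
    obtain ⟨hn1, -⟩ := mem_Icc.mp hn
    have h0 : (n : ℂ) ≠ 0 := by exact_mod_cast (by omega : n ≠ 0)
    exact ((hasDerivAt_neg (1 : ℂ)).const_cpow (Or.inl h0)).const_mul _
  rw [h1.deriv]
  unfold m1
  push_cast
  rw [← sum_neg_distrib]
  refine sum_congr rfl fun n hn => ?_
  rw [Complex.cpow_neg, Complex.cpow_one]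
  ring

/-- the formula for `s ≠ 1` -/
theorem re3_H3 (z : ℕ) {s : ℂ} (hs : s ≠ 1) : H3 z s = -logDeriv riemannZeta₁ s +
    deriv riemannZeta₁ s * Mz z s / (s - 1) - riemannZeta₁ s * Mz z s / (s - 1) ^ 2 +
    m0 z / (s - 1) ^ 2 + m1 z / (s - 1) := by
  have hs1 : s - 1 ≠ 0 := sub_ne_zero.2 hs
  unfold H3
  rw [dslope_of_ne _ hs, dslope_of_ne _ hs, slope_def_field, slope_def_field]
  rw [dslope_same, dslope_of_ne _ hs, slope_def_field, sub_self, sub_zero,
    deriv_fun_mul (differentiable_riemannZeta₁ s) (re3_Mz_diff z s), riemannZeta₁_one,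
    re3_Mz_one, re3_Mz_deriv]
  field_simp
  ring

theorem re3_diff {θ : ℝ} (h : ZF θ) (z : ℕ) : DifferentiableOn ℂ (H3 z) {s : ℂ | θ < s.re} := by
  intro s hs
  have hne : riemannZeta₁ s ≠ 0 := RPZ_ne h hs
  have hd : DifferentiableAt ℂ (logDeriv riemannZeta₁) s :=
    (differentiable_riemannZeta₁.deriv s).div (differentiable_riemannZeta₁ s) hne
  have h1 : Differentiable ℂ (fun v => riemannZeta₁ v * Mz z v) :=
    differentiable_riemannZeta₁.mul (re3_Mz_diff z)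
  have hds : ∀ f : ℂ → ℂ, Differentiable ℂ f → Differentiable ℂ (dslope f 1) := fun f hf =>
    differentiableOn_univ.1 ((Complex.differentiableOn_dslope Filter.univ_mem).2
      hf.differentiableOn)
  have h2 : Differentiable ℂ (fun w => deriv (fun v => riemannZeta₁ v * Mz z v) w -
      dslope (fun v => riemannZeta₁ v * Mz z v) 1 w) := h1.deriv.sub (hds _ h1)
  have h3 : Differentiable ℂ (fun w => riemannZeta₁ w * deriv (Mz z) w) :=
    differentiable_riemannZeta₁.mul (re3_Mz_diff z).deriv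
  exact ((hd.neg.add (hds _ h2 s)).sub (hds _ h3 s)).differentiableWithinAt

theorem re3_growth {θ c : ℝ} (hθ : 1 / 2 ≤ θ) (h : ZF θ) (hc : θ < c) (hc1 : c < 1) (z : ℕ) :
    ∃ A : ℝ, ∃ m : ℕ, ∀ s : ℂ, c ≤ s.re → s.re ≤ 2 → ‖H3 z s‖ ≤ A * (1 + |s.im|) ^ m := by
  -- the compact part
  have hK : IsCompact ((Set.Icc c 2 : Set ℝ) ×ℂ (Set.Icc (-1) 1 : Set ℝ)) :=
    isCompact_Icc.reProdIm isCompact_Icc
  have hKc : ContinuousOn (H3 z) ((Set.Icc c 2 : Set ℝ) ×ℂ (Set.Icc (-1) 1 : Set ℝ)) := by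
    refine (re3_diff h z).continuousOn.mono ?_
    intro s hs
    obtain ⟨h1, -⟩ := Complex.mem_reProdIm.1 hs
    show θ < s.re
    linarith [h1.1]
  obtain ⟨A1, hA1⟩ := hK.exists_bound_of_continuousOn hKc
  obtain ⟨C1, hC1, h1⟩ := ldlog_zeta hθ h hc
  obtain ⟨C2, hC2, h2⟩ := GA.Z1_growth
  have hA1' : 0 ≤ max A1 0 := le_max_right _ _
  refine ⟨max A1 0 + (2 * C1 + 2 * C1 * (4 * C2) * z + (4 * C2) * z + |m0 z| + |m1 z|), 3,
    fun s hs1 hs2 => ?_⟩
  have hT0 : 0 ≤ |s.im| := abs_nonneg _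
  have hB : 0 ≤ 2 * C1 + 2 * C1 * (4 * C2) * z + (4 * C2) * z + |m0 z| + |m1 z| := by positivity
  have hp1 : (1 : ℝ) ≤ (1 + |s.im|) ^ 3 := one_le_pow₀ (by linarith)
  rcases le_or_gt |s.im| 1 with him | him
  · have h3 := hA1 s (Complex.mem_reProdIm.2 ⟨⟨hs1, hs2⟩, abs_le.1 him⟩)
    have h4 : A1 ≤ max A1 0 := le_max_left _ _
    nlinarith
  · have hsn : s ≠ 1 := by
      rintro rfl
      simp at him
      linarith
    have hs1n : 1 ≤ ‖s - 1‖ := by
      have h5 := Complex.abs_im_le_norm (s - 1)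
      rw [sub_im, one_im, sub_zero] at h5
      linarith
    have hinv : ‖s - 1‖⁻¹ ≤ 1 := inv_le_one_of_one_le₀ hs1n
    have hinv0 : 0 ≤ ‖s - 1‖⁻¹ := inv_nonneg.2 (norm_nonneg _)
    rw [re3_H3 z hsn]
    set T := |s.im| with hT
    have a1 : ‖logDeriv riemannZeta₁ s‖ ≤ 2 * C1 * (1 + T) := by
      refine (h1 s hs1 hs2).trans ?_
      have h3 : Real.log (T + 2) ≤ T + 1 := by
        have := Real.log_le_sub_one_of_pos (x := T + 2) (by positivity)
        linarith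
      calc C1 * Real.log (T + 2) ≤ C1 * (T + 1) := mul_le_mul_of_nonneg_left h3 (by linarith)
        _ ≤ 2 * C1 * (1 + T) := by nlinarith
    have a2 : ‖riemannZeta₁ s‖ ≤ 4 * C2 * (1 + T) ^ 2 := by
      refine (h2 s (by linarith) (by linarith)).trans ?_
      have h3 : (T + 2) ^ 2 ≤ 4 * (1 + T) ^ 2 := by nlinarith
      calc C2 * (T + 2) ^ 2 ≤ C2 * (4 * (1 + T) ^ 2) :=
            mul_le_mul_of_nonneg_left h3 (by linarith)
        _ = 4 * C2 * (1 + T) ^ 2 := by ring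
    have a3 : ‖Mz z s‖ ≤ z := re3_Mz_bound z (by linarith)
    have hne : riemannZeta₁ s ≠ 0 := RPZ_ne h (by linarith)
    have e4 : deriv riemannZeta₁ s = logDeriv riemannZeta₁ s * riemannZeta₁ s := by
      rw [logDeriv_apply, div_mul_cancel₀ _ hne]
    have a4 : ‖deriv riemannZeta₁ s‖ ≤ (2 * C1 * (1 + T)) * (4 * C2 * (1 + T) ^ 2) := by
      rw [e4, norm_mul]
      exact mul_le_mul a1 a2 (norm_nonneg _) (by positivity)
    have hz0 : (0 : ℝ) ≤ z := Nat.cast_nonneg z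
    have b1 : ‖-logDeriv riemannZeta₁ s‖ ≤ 2 * C1 * (1 + T) ^ 3 := by
      rw [norm_neg]
      refine a1.trans ?_
      have : (1 + T) ≤ (1 + T) ^ 3 := le_self_pow₀ (by linarith) (by norm_num)
      exact mul_le_mul_of_nonneg_left this (by positivity)
    have b2 : ‖deriv riemannZeta₁ s * Mz z s / (s - 1)‖ ≤
        2 * C1 * (4 * C2) * z * (1 + T) ^ 3 := by
      rw [norm_div, norm_mul, div_eq_mul_inv]
      calc ‖deriv riemannZeta₁ s‖ * ‖Mz z s‖ * ‖s - 1‖⁻¹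
          ≤ ((2 * C1 * (1 + T)) * (4 * C2 * (1 + T) ^ 2)) * z * 1 := by
            refine mul_le_mul (mul_le_mul a4 a3 (norm_nonneg _) (by positivity)) hinv hinv0 ?_
            positivity
        _ = 2 * C1 * (4 * C2) * z * (1 + T) ^ 3 := by ring
    have b3 : ‖riemannZeta₁ s * Mz z s / (s - 1) ^ 2‖ ≤ (4 * C2) * z * (1 + T) ^ 3 := by
      rw [norm_div, norm_mul, norm_pow, div_eq_mul_inv, ← inv_pow]
      have h6 : ‖s - 1‖⁻¹ ^ 2 ≤ 1 := pow_le_one₀ hinv0 hinv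
      have h7 : (1 + T) ^ 2 ≤ (1 + T) ^ 3 := pow_le_pow_right₀ (by linarith) (by norm_num)
      calc ‖riemannZeta₁ s‖ * ‖Mz z s‖ * ‖s - 1‖⁻¹ ^ 2
          ≤ (4 * C2 * (1 + T) ^ 2) * z * 1 := by
            refine mul_le_mul (mul_le_mul a2 a3 (norm_nonneg _) (by positivity)) h6
              (by positivity) ?_
            positivity
        _ = (4 * C2) * z * (1 + T) ^ 2 := by ring
        _ ≤ (4 * C2) * z * (1 + T) ^ 3 := mul_le_mul_of_nonneg_left h7 (by positivity)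
    have b4 : ‖(m0 z : ℂ) / (s - 1) ^ 2‖ ≤ |m0 z| * (1 + T) ^ 3 := by
      rw [norm_div, norm_pow, div_eq_mul_inv, ← inv_pow, Complex.norm_real, Real.norm_eq_abs]
      have h6 : ‖s - 1‖⁻¹ ^ 2 ≤ 1 := pow_le_one₀ hinv0 hinv
      exact mul_le_mul_of_nonneg_left (h6.trans hp1) (abs_nonneg _)
    have b5 : ‖(m1 z : ℂ) / (s - 1)‖ ≤ |m1 z| * (1 + T) ^ 3 := by
      rw [norm_div, div_eq_mul_inv, Complex.norm_real, Real.norm_eq_abs]
      exact mul_le_mul_of_nonneg_left (hinv.trans hp1) (abs_nonneg _)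
    have hfin : ‖-logDeriv riemannZeta₁ s +
        deriv riemannZeta₁ s * Mz z s / (s - 1) - riemannZeta₁ s * Mz z s / (s - 1) ^ 2 +
        m0 z / (s - 1) ^ 2 + m1 z / (s - 1)‖ ≤ 2 * C1 * (1 + T) ^ 3 +
        2 * C1 * (4 * C2) * z * (1 + T) ^ 3 + (4 * C2) * z * (1 + T) ^ 3 +
        |m0 z| * (1 + T) ^ 3 + |m1 z| * (1 + T) ^ 3 := by
      refine (norm_add_le _ _).trans (add_le_add ?_ b5)
      refine (norm_add_le _ _).trans (add_le_add ?_ b4)
      refine (norm_sub_le _ _).trans (add_le_add ?_ b3)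
      exact (norm_add_le _ _).trans (add_le_add b1 b2)
    refine hfin.trans ?_
    have h8 : 0 ≤ max A1 0 * (1 + T) ^ 3 := by positivity
    calc _ = (2 * C1 + 2 * C1 * (4 * C2) * z + (4 * C2) * z + |m0 z| + |m1 z|) * (1 + T) ^ 3 := by
          ring
      _ ≤ (max A1 0 + (2 * C1 + 2 * C1 * (4 * C2) * z + (4 * C2) * z + |m0 z| + |m1 z|)) *
          (1 + T) ^ 3 := by linarith

/-- RE3: type II, the trivial character -/
theorem rep_e3_pr {θ c : ℝ} (hθ : 1 / 2 ≤ θ) (h : ZF θ) (hc : θ < c) (hc1 : c < 1) (z : ℕ)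
    (hz : 1 ≤ z) : Rep (E3 z) (H3 z) c := by
  have hE : E3 z = fun x => if x < 1 then 0 else (RPZ_psi x - x) + 1 -
      (re3_S z x - m0 z * (x * Real.log x : ℝ) + (m0 z - m1 z) * (x - 1)) := funext (re3_eq z)
  have hxl : Measurable (fun x : ℝ => ((x * Real.log x : ℝ) : ℂ)) :=
    Complex.measurable_ofReal.comp (measurable_id.mul Real.measurable_log)
  refine ⟨?_, ?_, ?_, ?_, ?_, ?_, ?_⟩
  · rw [hE]
    refine Measurable.ite measurableSet_Iio measurable_const ?_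
    exact ((RPZ_meas.sub Complex.measurable_ofReal).add_const 1).sub
      (((re3_S_meas z).sub (hxl.const_mul _)).add
        ((Complex.measurable_ofReal.sub_const 1).const_mul _))
  · intro x hx
    rw [hE]
    rcases lt_or_ge x 1 with h1 | h1
    · refine ContinuousAt.congr (f := fun _ => (0 : ℂ)) continuousAt_const ?_
      filter_upwards [isOpen_Iio.mem_nhds h1] with y hy
      exact (if_pos hy).symm
    · have h1' : 1 < x := lt_of_le_of_ne h1 (fun e => hx 1 (by rw [← e]; norm_num))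
      have hx0 : x ≠ 0 := by linarith
      refine ContinuousAt.congr (f := fun y : ℝ => (∑ n ∈ Icc 1 ⌊x⌋₊, (Lam n : ℂ) - y) + 1 -
        (∑ n ∈ Icc 1 ⌊x⌋₊, (cI z n : ℂ) - m0 z * (y * Real.log y : ℝ) +
          (m0 z - m1 z) * (y - 1))) ?_ ?_
      · have hlog : ContinuousAt (fun y : ℝ => ((y * Real.log y : ℝ) : ℂ)) x :=
          Complex.continuous_ofReal.continuousAt.comp
            (continuousAt_id.mul (Real.continuousAt_log hx0))
        have hid : ContinuousAt (fun y : ℝ => (y : ℂ)) x := Complex.continuous_ofReal.continuousAt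
        exact ((continuousAt_const.sub hid).add continuousAt_const).sub
          ((continuousAt_const.sub (continuousAt_const.mul hlog)).add
            (continuousAt_const.mul (hid.sub continuousAt_const)))
      · filter_upwards [isOpen_Ioi.mem_nhds h1', rpa_loc hx] with y hy1 hy2
        have hy1' : (1 : ℝ) < y := hy1
        rw [if_neg (not_lt.2 hy1'.le)]
        unfold RPZ_psi re3_S
        rw [hy2]
  · intro x hx
    rw [hE]
    exact if_pos hx
  · refine ⟨(Real.log 4 + 5) + 1 + (2 * z + |m0 z| * 2 + |m0 z - m1 z| * 1), fun x hx => ?_⟩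
    rw [re3_eq, if_neg (not_lt.2 hx)]
    obtain ⟨p1, p2, p3⟩ := re3_pow hx
    have q1 := re3_psi_bound hx
    have q2 := re3_S_bound z x hx
    have q3 : ‖(m0 z : ℂ) * (x * Real.log x : ℝ)‖ ≤ |m0 z| * (2 * x ^ (3 / 2 : ℝ)) := by
      rw [norm_mul, Complex.norm_real, Complex.norm_real, Real.norm_eq_abs, Real.norm_eq_abs]
      exact mul_le_mul_of_nonneg_left p3 (abs_nonneg _)
    have q4 : ‖((m0 z : ℂ) - m1 z) * (x - 1)‖ ≤ |m0 z - m1 z| * x ^ (3 / 2 : ℝ) := by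
      have e1 : ((m0 z : ℂ) - m1 z) * (x - 1) = (((m0 z - m1 z) * (x - 1) : ℝ) : ℂ) := by
        push_cast
        ring
      rw [e1, Complex.norm_real, Real.norm_eq_abs, abs_mul, abs_of_nonneg (by linarith : 0 ≤ x - 1)]
      exact mul_le_mul_of_nonneg_left (by linarith) (abs_nonneg _)
    have q5 : ‖(1 : ℂ)‖ ≤ x ^ (3 / 2 : ℝ) := by rw [norm_one]; exact p1
    calc ‖(RPZ_psi x - x) + 1 -
        (re3_S z x - m0 z * (x * Real.log x : ℝ) + (m0 z - m1 z) * (x - 1))‖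
        ≤ (‖RPZ_psi x - x‖ + ‖(1 : ℂ)‖) + ((‖re3_S z x‖ + ‖(m0 z : ℂ) * (x * Real.log x : ℝ)‖) +
          ‖((m0 z : ℂ) - m1 z) * (x - 1)‖) := by
          refine (norm_sub_le _ _).trans (add_le_add (norm_add_le _ _) ?_)
          exact (norm_add_le _ _).trans (add_le_add (norm_sub_le _ _) le_rfl)
      _ ≤ ((Real.log 4 + 5) * x ^ (3 / 2 : ℝ) + x ^ (3 / 2 : ℝ)) +
          ((2 * z * x ^ (3 / 2 : ℝ) + |m0 z| * (2 * x ^ (3 / 2 : ℝ))) +
            |m0 z - m1 z| * x ^ (3 / 2 : ℝ)) := by gcongr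
      _ = _ := by ring
  · intro t
    have i1 : IntegrableOn (fun x : ℝ => (RPZ_psi x - x) * (x : ℂ) ^ (-(3 + t * I) : ℂ))
        (Set.Ioi 1) volume :=
      re3_int (RPZ_meas.sub Complex.measurable_ofReal) (fun x hx => re3_psi_bound hx) t
    have i2 : IntegrableOn (fun x : ℝ => (1 : ℂ) * (x : ℂ) ^ (-(3 + t * I) : ℂ))
        (Set.Ioi 1) volume :=
      re3_int (f := fun _ => (1 : ℂ)) (C := 1) measurable_const
        (fun x hx => by rw [norm_one, one_mul]; exact (re3_pow hx).1) t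
    have i3 : IntegrableOn (fun x : ℝ => re3_S z x * (x : ℂ) ^ (-(3 + t * I) : ℂ))
        (Set.Ioi 1) volume :=
      re3_int (re3_S_meas z) (fun x hx => re3_S_bound z x hx) t
    have i4 : IntegrableOn (fun x : ℝ => ((x * Real.log x : ℝ) : ℂ) *
        (x : ℂ) ^ (-(3 + t * I) : ℂ)) (Set.Ioi 1) volume :=
      re3_int hxl (C := 2) (fun x hx => by
        rw [Complex.norm_real, Real.norm_eq_abs]
        exact (re3_pow hx).2.2) t
    have i5 : IntegrableOn (fun x : ℝ => (x : ℂ) * (x : ℂ) ^ (-(3 + t * I) : ℂ))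
        (Set.Ioi 1) volume :=
      re3_int Complex.measurable_ofReal (C := 1) (fun x hx => by
        rw [Complex.norm_real, Real.norm_eq_abs, abs_of_nonneg (by linarith), one_mul]
        exact (re3_pow hx).2.1) t
    have e0 : ∫ x in Set.Ioi (1 : ℝ), E3 z x * (x : ℂ) ^ (-(3 + t * I) : ℂ) =
        ∫ x in Set.Ioi (1 : ℝ), ((((RPZ_psi x - x) * (x : ℂ) ^ (-(3 + t * I) : ℂ) +
          (1 : ℂ) * (x : ℂ) ^ (-(3 + t * I) : ℂ)) - re3_S z x * (x : ℂ) ^ (-(3 + t * I) : ℂ)) +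
          m0 z * (((x * Real.log x : ℝ) : ℂ) * (x : ℂ) ^ (-(3 + t * I) : ℂ))) -
          (m0 z - m1 z) * ((x : ℂ) * (x : ℂ) ^ (-(3 + t * I) : ℂ) -
            (1 : ℂ) * (x : ℂ) ^ (-(3 + t * I) : ℂ)) := by
      refine setIntegral_congr_fun measurableSet_Ioi fun x hx => ?_
      have hx1 : (1 : ℝ) < x := hx
      show E3 z x * _ = _
      rw [re3_eq, if_neg (not_lt.2 hx1.le)]
      ring
    have hs1 : (2 + t * I : ℂ) ≠ 1 := by
      intro h0
      have := congrArg Complex.re h0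
      norm_num at this
    have hs2 : (2 + t * I : ℂ) ≠ 0 := by
      intro h0
      have := congrArg Complex.re h0
      simp at this
    have hs3 : (1 + t * I : ℂ) ≠ 0 := by
      intro h0
      have := congrArg Complex.re h0
      simp at this
    rw [e0, re3_split _ _ i1 i2 i3 i4 i5,
      RPZ_mellin, re3_one, re3_S_mellin, re3_log, re3_lin, re3_H3 z hs1,
      deriv_riemannZeta_eq_neg_inv_sub_sq_mul_add hs1]
    have e1 : (2 + t * I - 1 : ℂ) = 1 + t * I := by ring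
    rw [e1]
    field_simp
    ring
  · exact ⟨θ, hc, (re3_diff h z).mono fun s hs => hs.1⟩
  · exact re3_growth hθ h hc hc1 z

theorem rep_e3 : type_of% @rep_e3_pr := @rep_e3_pr

end Pool.Agent.XT

/-! ### Block EJ -/

/-! XT, block EJ: type I remainder of the trivial character -/

namespace Pool.Agent.XT

open Finset Complex MeasureTheory Pool.Agent.Var35 Pool.Agent.Var73 Pool.Agent.HC Pool.Agent.MF
  Pool.Agent.XS
open scoped ArithmeticFunction ArithmeticFunction.Moebius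

theorem ej_st (M : ℕ) (hM : 1 ≤ M) :
    (M : ℝ) * Real.log M - M + 1 ≤ ∑ m ∈ Icc 1 M, Real.log (m : ℝ) ∧
    ∑ m ∈ Icc 1 M, Real.log (m : ℝ) ≤ (M : ℝ) * Real.log M - M + 1 + Real.log M := by
  induction M, hM using Nat.le_induction with
  | base => simp
  | succ M hM ih =>
    obtain ⟨h1, h2⟩ := ih
    have hM0 : (0 : ℝ) < M := by exact_mod_cast hM
    rw [Finset.sum_Icc_succ_top (by omega)]
    have h3 : Real.log ((M : ℝ) + 1) - Real.log M ≤ 1 / M := by
      rw [← Real.log_div (by positivity) hM0.ne']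
      have := Real.log_le_sub_one_of_pos (by positivity : 0 < ((M : ℝ) + 1) / M)
      refine this.trans (le_of_eq ?_)
      field_simp
      ring
    have h4 : 1 / ((M : ℝ) + 1) ≤ Real.log ((M : ℝ) + 1) - Real.log M := by
      rw [← Real.log_div (by positivity) hM0.ne']
      have := Real.one_sub_inv_le_log_of_pos (by positivity : 0 < ((M : ℝ) + 1) / M)
      refine le_trans (le_of_eq ?_) this
      rw [inv_div]
      field_simp
      ring
    have h5 : (M : ℝ) * (Real.log ((M : ℝ) + 1) - Real.log M) ≤ 1 := by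
      calc (M : ℝ) * (Real.log ((M : ℝ) + 1) - Real.log M) ≤ M * (1 / M) :=
            mul_le_mul_of_nonneg_left h3 hM0.le
        _ = 1 := by field_simp
    have h6 : 1 ≤ ((M : ℝ) + 1) * (Real.log ((M : ℝ) + 1) - Real.log M) := by
      calc (1 : ℝ) = ((M : ℝ) + 1) * (1 / ((M : ℝ) + 1)) := by field_simp
        _ ≤ _ := mul_le_mul_of_nonneg_left h4 (by positivity)
    push_cast
    constructor
    · nlinarith
    · nlinarith

theorem ej_L {y : ℝ} (hy : 0 < y) :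
    |∑ m ∈ Icc 1 ⌊y⌋₊, Real.log (m : ℝ) - (y * Real.log y - y)| ≤ 3 * Real.log (y + 2) := by
  have hl2 : (0.69 : ℝ) ≤ Real.log 2 := by
    have := Real.log_two_gt_d9
    linarith
  have hly : Real.log 2 ≤ Real.log (y + 2) := Real.log_le_log (by norm_num) (by linarith)
  rcases lt_or_ge y 1 with h1 | h1
  · have h0 : ⌊y⌋₊ = 0 := Nat.floor_eq_zero.2 h1
    rw [h0]
    simp only [Finset.Icc_eq_empty_of_lt (by norm_num : (0 : ℕ) < 1), Finset.sum_empty, zero_sub]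
    have h2 : -(y * Real.log y) ≤ 1 - y := by
      have := Real.one_sub_inv_le_log_of_pos hy
      have h3 : y * (1 - y⁻¹) ≤ y * Real.log y := mul_le_mul_of_nonneg_left this hy.le
      have h4 : y * (1 - y⁻¹) = y - 1 := by field_simp
      linarith
    have h3 : Real.log y ≤ 0 := Real.log_nonpos hy.le h1.le
    have h4 : y * Real.log y ≤ 0 := mul_nonpos_of_nonneg_of_nonpos hy.le h3
    rw [abs_le]
    constructor <;> linarith
  · set M := ⌊y⌋₊ with hM
    have hM1 : 1 ≤ M := Nat.le_floor (by exact_mod_cast h1)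
    have hM1' : (1 : ℝ) ≤ M := by exact_mod_cast hM1
    have hMy : (M : ℝ) ≤ y := Nat.floor_le hy.le
    have hyM : y < M + 1 := Nat.lt_floor_add_one y
    have hM0 : (0 : ℝ) < M := by linarith
    obtain ⟨s1, s2⟩ := ej_st M hM1
    have hlM : 0 ≤ Real.log M := Real.log_nonneg hM1'
    have hlMy : Real.log M ≤ Real.log y := Real.log_le_log hM0 hMy
    have hly0 : 0 ≤ Real.log y := hlM.trans hlMy
    have e1 : (M : ℝ) * (Real.log y - Real.log M) ≤ y - M := by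
      rw [← Real.log_div hy.ne' hM0.ne']
      have := Real.log_le_sub_one_of_pos (by positivity : 0 < y / M)
      calc (M : ℝ) * Real.log (y / M) ≤ M * (y / M - 1) := mul_le_mul_of_nonneg_left this hM0.le
        _ = y - M := by field_simp
    have e2 : M * (y - M) / y ≤ (M : ℝ) * (Real.log y - Real.log M) := by
      rw [← Real.log_div hy.ne' hM0.ne']
      have := Real.one_sub_inv_le_log_of_pos (by positivity : 0 < y / M)
      calc M * (y - M) / y = (M : ℝ) * (1 - (y / M)⁻¹) := by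
            rw [inv_div]
            field_simp
        _ ≤ _ := mul_le_mul_of_nonneg_left this hM0.le
    have e3 : 1 - M / y ≤ Real.log y := by
      have h2 := Real.one_sub_inv_le_log_of_pos hy
      have h3 : y⁻¹ ≤ M / y := by
        rw [inv_eq_one_div]
        exact div_le_div_of_nonneg_right hM1' hy.le
      linarith
    have e4 : 0 ≤ y - M := by linarith
    have g1 : y * Real.log y - y - ((M : ℝ) * Real.log M - M) ≤ Real.log y := by
      have : (y - M) * Real.log y ≤ 1 * Real.log y :=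
        mul_le_mul_of_nonneg_right (by linarith) hly0
      nlinarith
    have g2 : 0 ≤ y * Real.log y - y - ((M : ℝ) * Real.log M - M) := by
      have h2 : (y - M) * (1 - M / y) ≤ (y - M) * Real.log y := mul_le_mul_of_nonneg_left e3 e4
      have h3 : (y - M) * (1 - M / y) + M * (y - M) / y = y - M := by
        field_simp
        ring
      nlinarith
    have h3 : (1 : ℝ) ≤ Real.log (y + 2) := by
      rw [Real.le_log_iff_exp_le (by linarith)]
      have := Real.exp_one_lt_d9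
      linarith
    have h4 : Real.log y ≤ Real.log (y + 2) := Real.log_le_log hy (by linarith)
    rw [abs_le]
    constructor
    · linarith
    · linarith

theorem ej_swap (z N : ℕ) :
    ∑ n ∈ Icc 1 N, cI z n = ∑ d ∈ Icc 1 z, (μ d : ℝ) * ∑ m ∈ Icc 1 (N / d), Real.log (m : ℝ) := by
  have h := eib_swap z N (1 : DirichletCharacter ℂ 1)
  have h1 : ∀ n : ℕ, (1 : DirichletCharacter ℂ 1) (n : ZMod 1) = 1 := by
    intro n
    rw [Subsingleton.elim (n : ZMod 1) 1]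
    exact map_one _
  simp only [h1, mul_one, one_mul] at h
  have h2 : ((∑ n ∈ Icc 1 N, cI z n : ℝ) : ℂ) =
      ((∑ d ∈ Icc 1 z, (μ d : ℝ) * ∑ m ∈ Icc 1 (N / d), Real.log (m : ℝ) : ℝ) : ℂ) := by
    push_cast
    push_cast at h
    exact h
  exact_mod_cast h2

/-- EJB -/
theorem ej_bound_pr : ∃ C : ℝ, 1 ≤ C ∧ ∀ (z : ℕ) (x : ℝ), 1 ≤ z → 0 ≤ x →
    |EJ z x| ≤ C * z * Real.log (x + 2) := by
  refine ⟨5, by norm_num, fun z x hz hx => ?_⟩
  have hz1 : (1 : ℝ) ≤ z := by exact_mod_cast hz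
  have hlx : 0 ≤ Real.log (x + 2) := Real.log_nonneg (by linarith)
  unfold EJ
  split_ifs with h1
  · rw [abs_zero]
    positivity
  · have hx1 : 1 ≤ x := not_lt.1 h1
    have hx0 : 0 < x := by linarith
    have hl1 : (1 : ℝ) ≤ Real.log (x + 2) := by
      rw [Real.le_log_iff_exp_le (by linarith)]
      have := Real.exp_one_lt_d9
      linarith
    have hm0 : |m0 z| ≤ z := by
      unfold m0
      refine (Finset.abs_sum_le_sum_abs _ _).trans ?_
      calc ∑ d ∈ Icc 1 z, |(μ d : ℝ) / d| ≤ ∑ d ∈ Icc 1 z, (1 : ℝ) := by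
            refine Finset.sum_le_sum fun d hd => ?_
            have hd1 : (1 : ℝ) ≤ d := by exact_mod_cast (Finset.mem_Icc.1 hd).1
            have h3 : |(μ d : ℝ)| ≤ 1 := by
              have := ArithmeticFunction.abs_moebius_le_one (n := d)
              exact_mod_cast this
            rw [abs_div, abs_of_pos (by linarith : (0 : ℝ) < d), div_le_one (by linarith)]
            linarith
        _ = z := by simp
    have hm1 : |m1 z| ≤ z := by
      unfold m1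
      rw [abs_neg]
      refine (Finset.abs_sum_le_sum_abs _ _).trans ?_
      calc ∑ d ∈ Icc 1 z, |(μ d : ℝ) * Real.log d / d| ≤ ∑ d ∈ Icc 1 z, (1 : ℝ) := by
            refine Finset.sum_le_sum fun d hd => ?_
            have hd1 : (1 : ℝ) ≤ d := by exact_mod_cast (Finset.mem_Icc.1 hd).1
            have h3 : |(μ d : ℝ)| ≤ 1 := by
              have := ArithmeticFunction.abs_moebius_le_one (n := d)
              exact_mod_cast this
            have h4 : 0 ≤ Real.log d := Real.log_nonneg hd1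
            have h5 : Real.log d ≤ d := (Real.log_le_sub_one_of_pos (by linarith)).trans (by linarith)
            rw [abs_div, abs_mul, abs_of_nonneg h4, abs_of_pos (by linarith : (0 : ℝ) < d),
              div_le_one (by linarith)]
            nlinarith [abs_nonneg (μ d : ℝ)]
        _ = z := by simp
    have hmain : ∑ d ∈ Icc 1 z, (μ d : ℝ) * (x / d * Real.log (x / d) - x / d) =
        m0 z * x * Real.log x + m1 z * x - m0 z * x := by
      unfold m0 m1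
      rw [neg_mul, Finset.sum_mul, Finset.sum_mul, Finset.sum_mul, ← sub_eq_add_neg,
        ← Finset.sum_sub_distrib, ← Finset.sum_sub_distrib]
      refine Finset.sum_congr rfl fun d hd => ?_
      have hd0 : (d : ℝ) ≠ 0 := by
        have : 1 ≤ d := (Finset.mem_Icc.1 hd).1
        exact_mod_cast (by omega : d ≠ 0)
      rw [Real.log_div hx0.ne' hd0]
      ring
    have herr : |∑ n ∈ Icc 1 ⌊x⌋₊, cI z n -
        ∑ d ∈ Icc 1 z, (μ d : ℝ) * (x / d * Real.log (x / d) - x / d)| ≤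
        3 * z * Real.log (x + 2) := by
      rw [ej_swap, ← Finset.sum_sub_distrib]
      refine (Finset.abs_sum_le_sum_abs _ _).trans ?_
      calc ∑ d ∈ Icc 1 z, |(μ d : ℝ) * ∑ m ∈ Icc 1 (⌊x⌋₊ / d), Real.log (m : ℝ) -
            (μ d : ℝ) * (x / d * Real.log (x / d) - x / d)|
          ≤ ∑ d ∈ Icc 1 z, 3 * Real.log (x + 2) := by
            refine Finset.sum_le_sum fun d hd => ?_
            have hd1 : (1 : ℝ) ≤ d := by exact_mod_cast (Finset.mem_Icc.1 hd).1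
            have hd0 : (0 : ℝ) < d := by linarith
            have h3 : |(μ d : ℝ)| ≤ 1 := by
              have := ArithmeticFunction.abs_moebius_le_one (n := d)
              exact_mod_cast this
            have h4 : ⌊x⌋₊ / d = ⌊x / d⌋₊ := (Nat.floor_div_natCast x d).symm
            rw [← mul_sub, abs_mul, h4]
            have h5 := ej_L (div_pos hx0 hd0)
            have h6 : Real.log (x / d + 2) ≤ Real.log (x + 2) := by
              apply Real.log_le_log (by positivity)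
              have : x / d ≤ x := div_le_self hx0.le hd1
              linarith
            calc |(μ d : ℝ)| * _ ≤ 1 * (3 * Real.log (x / d + 2)) :=
                  mul_le_mul h3 h5 (abs_nonneg _) zero_le_one
              _ ≤ _ := by linarith
        _ = 3 * z * Real.log (x + 2) := by
            rw [Finset.sum_const, Nat.card_Icc, nsmul_eq_mul]
            simp
            ring
    have hfin : ∑ n ∈ Icc 1 ⌊x⌋₊, cI z n - m0 z * x * Real.log x + (m0 z - m1 z) * (x - 1) =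
        (∑ n ∈ Icc 1 ⌊x⌋₊, cI z n -
          ∑ d ∈ Icc 1 z, (μ d : ℝ) * (x / d * Real.log (x / d) - x / d)) - (m0 z - m1 z) := by
      rw [hmain]
      ring
    rw [hfin]
    refine (abs_sub _ _).trans ?_
    have h7 : |m0 z - m1 z| ≤ 2 * z := (abs_sub _ _).trans (by linarith)
    have h8 : (2 : ℝ) * z ≤ 2 * z * Real.log (x + 2) := le_mul_of_one_le_right (by positivity) hl1
    calc _ ≤ 3 * z * Real.log (x + 2) + 2 * z := add_le_add herr h7
      _ ≤ 3 * z * Real.log (x + 2) + 2 * z * Real.log (x + 2) := by linarith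
      _ = 5 * z * Real.log (x + 2) := by ring

/-- EJM -/
theorem ej_meas_pr (z : ℕ) : Measurable (EJ z) := by
  unfold EJ
  apply Measurable.ite (measurableSet_lt measurable_id measurable_const) measurable_const
  have h1 : Measurable (fun x : ℝ => ∑ n ∈ Icc 1 ⌊x⌋₊, cI z n) :=
    (measurable_from_nat (f := fun N : ℕ => ∑ n ∈ Icc 1 N, cI z n)).comp Nat.measurable_floor
  have h2 : Measurable (fun x : ℝ => m0 z * x * Real.log x) :=
    (measurable_const.mul measurable_id).mul Real.measurable_log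
  have h3 : Measurable (fun x : ℝ => (m0 z - m1 z) * (x - 1)) :=
    measurable_const.mul (measurable_id.sub measurable_const)
  exact (h1.sub h2).add h3

theorem ej_bound : type_of% @ej_bound_pr := @ej_bound_pr

theorem ej_meas : type_of% @ej_meas_pr := @ej_meas_pr

end Pool.Agent.XT

/-! ### Block P1 -/

/-!
# XT, block P1: inversion on the line `Re s = c`, `1/2 ≤ c ≤ 1` (port of `XSF.SHF`)
-/

namespace Pool.Agent.XT

open Finset Complex MeasureTheory Pool.Agent.Var35 Pool.Agent.Var73 Pool.Agent.HC Pool.Agent.MF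
  Pool.Agent.XS
open scoped ArithmeticFunction ArithmeticFunction.Moebius

theorem p1_bound {E : ℝ → ℂ} {H : ℂ → ℂ} {c : ℝ} (h : Rep E H c) (hc : 1 / 2 ≤ c)
    {lam x : ℝ} (hl : 0 < lam) (hx : 0 < x) :
    ∃ B : ℝ, ∀ s : ℂ, c ≤ s.re → s.re ≤ 2 →
      ‖shf_f H lam x s‖ ≤ B * Real.exp (-(lam / 2) * |s.im| ^ 2) := by
  obtain ⟨A, m, hA⟩ := h.growth
  refine ⟨|A| * ((m.factorial : ℝ) * Real.exp (1 + 1 / (2 * lam))) * 2 * Real.exp (4 * lam) *
    (1 + x) ^ 2, ?_⟩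
  intro s h1 h2
  have hre : 1 / 2 ≤ s.re := le_trans hc h1
  have e1 : ‖H s‖ ≤ |A| * (((m.factorial : ℝ) * Real.exp (1 + 1 / (2 * lam))) *
      Real.exp (lam / 2 * |s.im| ^ 2)) := by
    refine (hA s h1 h2).trans ?_
    have h3 := shf_pow hl m |s.im| (abs_nonneg _)
    calc A * (1 + |s.im|) ^ m ≤ |A| * (1 + |s.im|) ^ m := by
          gcongr
          exact le_abs_self A
      _ ≤ _ := by gcongr
  have e2 : ‖s‖⁻¹ ≤ 2 := by
    have h3 : (1 / 2 : ℝ) ≤ ‖s‖ := by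
      have := Complex.re_le_norm s
      linarith
    calc ‖s‖⁻¹ ≤ (1 / 2 : ℝ)⁻¹ := inv_anti₀ (by norm_num) h3
      _ = 2 := by norm_num
  have e3 : ‖cexp (lam * s ^ 2)‖ ≤ Real.exp (4 * lam) * Real.exp (-(lam * |s.im| ^ 2)) := by
    rw [Complex.norm_exp, ← Real.exp_add]
    apply Real.exp_le_exp.mpr
    have h3 : ((lam : ℂ) * s ^ 2).re = lam * (s.re ^ 2 - s.im ^ 2) := by
      rw [Complex.re_ofReal_mul, pow_two, Complex.mul_re]
      ring
    rw [h3, sq_abs]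
    have h4 : s.re ^ 2 ≤ 4 := by nlinarith
    nlinarith
  have e4 : ‖(x : ℂ) ^ s‖ ≤ (1 + x) ^ 2 := by
    rw [Complex.norm_cpow_eq_rpow_re_of_pos hx]
    calc x ^ s.re ≤ (1 + x) ^ s.re := Real.rpow_le_rpow hx.le (by linarith) (by linarith)
      _ ≤ (1 + x) ^ (2 : ℝ) := Real.rpow_le_rpow_of_exponent_le (by linarith) h2
      _ = (1 + x) ^ 2 := by norm_cast
  rw [shf_f, norm_mul, norm_mul, norm_div, div_eq_mul_inv]
  calc ‖H s‖ * ‖s‖⁻¹ * ‖cexp (lam * s ^ 2)‖ * ‖(x : ℂ) ^ s‖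
      ≤ (|A| * (((m.factorial : ℝ) * Real.exp (1 + 1 / (2 * lam))) *
        Real.exp (lam / 2 * |s.im| ^ 2))) * 2 *
        (Real.exp (4 * lam) * Real.exp (-(lam * |s.im| ^ 2))) * (1 + x) ^ 2 := by
        gcongr
    _ = |A| * ((m.factorial : ℝ) * Real.exp (1 + 1 / (2 * lam))) * 2 * Real.exp (4 * lam) *
        (1 + x) ^ 2 * (Real.exp (lam / 2 * |s.im| ^ 2) * Real.exp (-(lam * |s.im| ^ 2))) := by
        ring
    _ = _ := by
        rw [← Real.exp_add]
        congr 2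
        ring

theorem p1_diff {E : ℝ → ℂ} {H : ℂ → ℂ} {c : ℝ} (h : Rep E H c) (hc : 1 / 2 ≤ c)
    {lam x : ℝ} (hx : 0 < x) (s : ℂ) (h1 : c ≤ s.re) (h2 : s.re ≤ 2) :
    DifferentiableAt ℂ (shf_f H lam x) s := by
  obtain ⟨c', hc', hd⟩ := h.diff
  have hop : IsOpen {s : ℂ | c' < s.re ∧ s.re < 3} :=
    (isOpen_lt continuous_const Complex.continuous_re).inter
      (isOpen_lt Complex.continuous_re continuous_const)
  have hH : DifferentiableAt ℂ H s :=
    hd.differentiableAt (hop.mem_nhds ⟨lt_of_lt_of_le hc' h1, by linarith⟩)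
  have hs0 : s ≠ 0 := by
    intro h0
    rw [h0, Complex.zero_re] at h1
    linarith
  have hx0 : (x : ℂ) ≠ 0 := by exact_mod_cast hx.ne'
  unfold shf_f
  refine ((hH.div differentiableAt_id hs0).mul ?_).mul ?_
  · exact ((differentiableAt_id.pow 2).const_mul _).cexp
  · exact differentiableAt_id.const_cpow (Or.inl hx0)

theorem p1_int {E : ℝ → ℂ} {H : ℂ → ℂ} {c : ℝ} (h : Rep E H c) (hc : 1 / 2 ≤ c)
    {lam x : ℝ} (hl : 0 < lam) (hx : 0 < x) (a : ℝ) (h1 : c ≤ a) (h2 : a ≤ 2) :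
    Integrable (fun t : ℝ => shf_f H lam x (a + t * I)) := by
  obtain ⟨B, hB⟩ := p1_bound h hc hl hx
  have hi : Integrable (fun t : ℝ => B * Real.exp (-(lam / 2) * t ^ 2)) :=
    (integrable_exp_neg_mul_sq (by linarith : 0 < lam / 2)).const_mul B
  have hcont : Continuous (fun t : ℝ => shf_f H lam x (a + t * I)) := by
    rw [continuous_iff_continuousAt]
    intro t
    have h3 : ContinuousAt (shf_f H lam x) (a + t * I) :=
      (p1_diff h hc hx _ (by simpa using h1) (by simpa using h2)).continuousAt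
    exact ContinuousAt.comp (f := fun t : ℝ => ((a : ℂ) + t * I)) h3 (by fun_prop)
  refine hi.mono' hcont.aestronglyMeasurable (Filter.Eventually.of_forall ?_)
  intro t
  have h3 := hB (a + t * I) (by simpa using h1) (by simpa using h2)
  simpa using h3

/-- P1: inversion on the line `Re s = c`, `c ≥ 1/2` -/
theorem sm_line2_pr {E : ℝ → ℂ} {H : ℂ → ℂ} {c : ℝ} (h : Rep E H c) (hc : 1 / 2 ≤ c) (hc1 : c ≤ 1)
    {lam x : ℝ} (hl : 0 < lam) (hx : 0 < x) :
    sm lam E x = ((1 / (2 * Real.pi) : ℝ) : ℂ) *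
      ∫ t : ℝ, H (c + t * I) / (c + t * I) * gs lam c t * (x : ℂ) ^ ((c : ℂ) + t * I) := by
  obtain ⟨B, hB⟩ := p1_bound h hc hl hx
  have hlim : Filter.Tendsto (fun T : ℝ => B * Real.exp (-(lam / 2) * T ^ 2)) Filter.atTop
      (nhds 0) := by
    have h3 : Filter.Tendsto (fun T : ℝ => Real.exp (-(lam / 2) * T ^ 2)) Filter.atTop
        (nhds 0) := by
      refine Real.tendsto_exp_atBot.comp ?_
      have h4 : Filter.Tendsto (fun T : ℝ => T ^ 2) Filter.atTop Filter.atTop :=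
        Filter.tendsto_pow_atTop (by norm_num)
      exact h4.const_mul_atTop_of_neg (by linarith)
    simpa using h3.const_mul B
  have key := ZP.shift_line (f := shf_f H lam x) (a := c) (b := 2) (by linarith)
    (fun z h1 h2 => p1_diff h hc hx z h1 h2) (fun T => B * Real.exp (-(lam / 2) * T ^ 2)) hlim
    (fun z h1 h2 _ => hB z h1 h2) (p1_int h hc hl hx c le_rfl (by linarith))
    (p1_int h hc hl hx 2 (by linarith) le_rfl)
  rw [sm_two h hl hx]
  congr 1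
  have e1 : (fun t : ℝ => H (2 + t * I) / (2 + t * I) * gs lam 2 t * (x : ℂ) ^ ((2 : ℂ) + t * I)) =
      fun t : ℝ => shf_f H lam x ((2 : ℝ) + t * I) := by
    funext t
    simp only [shf_f, gs, Complex.ofReal_ofNat]
  have e2 : (fun t : ℝ => H (c + t * I) / (c + t * I) * gs lam c t *
      (x : ℂ) ^ ((c : ℂ) + t * I)) = fun t : ℝ => shf_f H lam x (c + t * I) := by
    funext t
    simp only [shf_f, gs]
  rw [e1, e2]
  exact key.symm

theorem sm_line2 : type_of% @sm_line2_pr := @sm_line2_pr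

end Pool.Agent.XT

/-! ### Block P2 -/

/-! # XT, block P2: pointwise bound for the smoothing, lines 1/2 <= c -/

namespace Pool.Agent.XT

open Finset Complex MeasureTheory Pool.Agent.Var35 Pool.Agent.Var73 Pool.Agent.HC Pool.Agent.MF
  Pool.Agent.XS
open scoped ArithmeticFunction ArithmeticFunction.Moebius

/-- P2: pointwise bound -/
theorem sm_ptw2_pr {E : ℝ → ℂ} {H : ℂ → ℂ} {c : ℝ} (h : Rep E H c) (hc : 1 / 2 ≤ c) (hc1 : c ≤ 1)
    {lam x : ℝ} (hl : 0 < lam) (hl1 : lam ≤ 1) (hx : 0 < x) :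
    ‖sm lam E x‖ ^ 2 ≤ 16 * x ^ (2 * c) * Q2 lam (nH H c) := by
  have hint := ptw_int h hc1 hl
  set J : ℝ := ∫ t : ℝ, nH H c t / (1 + |t|) * Real.exp (-(lam * t ^ 2)) with hJ
  have hJ0 : 0 ≤ J := integral_nonneg fun t => by
    have h0 : 0 ≤ nH H c t := norm_nonneg _
    positivity
  have hxc : 0 < x ^ c := Real.rpow_pos_of_pos hx c
  have key : ‖∫ t : ℝ, H (c + t * I) / (c + t * I) * gs lam c t * (x : ℂ) ^ ((c : ℂ) + t * I)‖ ≤
      4 * Real.exp 1 * x ^ c * J := by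
    rw [hJ, ← integral_const_mul]
    refine norm_integral_le_of_norm_le (hint.const_mul _) (Filter.Eventually.of_forall fun t => ?_)
    rw [norm_mul, norm_mul, norm_div]
    have e1 : ‖gs lam c t‖ = Real.exp (lam * (c ^ 2 - t ^ 2)) := by
      unfold gs
      rw [Complex.norm_exp]
      congr 1
      simp only [mul_re, sq, add_re, ofReal_re, I_re, mul_zero, ofReal_im, I_im, mul_one,
        sub_self, add_zero, add_im, mul_im, zero_add, zero_mul, sub_zero]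
    have e2 : ‖(x : ℂ) ^ ((c : ℂ) + t * I)‖ = x ^ c := by
      rw [Complex.norm_cpow_eq_rpow_re_of_pos hx]
      congr 1
      simp
    have e3 : (1 + |t|) / 4 ≤ ‖(c : ℂ) + t * I‖ := by
      have a1 : |c| ≤ ‖(c : ℂ) + t * I‖ := by
        have := Complex.abs_re_le_norm ((c : ℂ) + t * I)
        simpa using this
      have a2 : |t| ≤ ‖(c : ℂ) + t * I‖ := by
        have := Complex.abs_im_le_norm ((c : ℂ) + t * I)
        simpa using this
      have a3 : c ≤ |c| := le_abs_self c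
      have a4 := abs_nonneg t
      linarith
    have e4 : Real.exp (lam * (c ^ 2 - t ^ 2)) ≤ Real.exp 1 * Real.exp (-(lam * t ^ 2)) := by
      rw [← Real.exp_add]
      apply Real.exp_le_exp.2
      have : lam * c ^ 2 ≤ 1 * 1 := by
        refine mul_le_mul hl1 ?_ (by positivity) (by norm_num)
        nlinarith
      nlinarith
    rw [e1, e2]
    have h0 : 0 ≤ nH H c t := norm_nonneg _
    have h4 := abs_nonneg t
    have e5 : ‖H (c + t * I)‖ / ‖(c : ℂ) + t * I‖ ≤ nH H c t / ((1 + |t|) / 4) := by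
      show nH H c t / _ ≤ _
      exact div_le_div_of_nonneg_left h0 (by positivity) e3
    calc ‖H (c + t * I)‖ / ‖(c : ℂ) + t * I‖ * Real.exp (lam * (c ^ 2 - t ^ 2)) * x ^ c
        ≤ nH H c t / ((1 + |t|) / 4) * (Real.exp 1 * Real.exp (-(lam * t ^ 2))) * x ^ c := by
          gcongr
      _ = 4 * Real.exp 1 * x ^ c * (nH H c t / (1 + |t|) * Real.exp (-(lam * t ^ 2))) := by
          field_simp
  have h1 : ‖sm lam E x‖ ≤ 2 * x ^ c * J := by
    rw [sm_line2 h hc hc1 hl hx, norm_mul, Complex.norm_real,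
      Real.norm_of_nonneg (by positivity)]
    have hpi := Real.pi_gt_three
    have he := Real.exp_one_lt_d9
    calc 1 / (2 * Real.pi) * _ ≤ 1 / (2 * Real.pi) * (4 * Real.exp 1 * x ^ c * J) := by gcongr
      _ = (4 * Real.exp 1 / (2 * Real.pi)) * (x ^ c * J) := by ring
      _ ≤ 2 * (x ^ c * J) := by
          gcongr
          rw [div_le_iff₀ (by positivity)]
          nlinarith
      _ = _ := by ring
  have h2 : Q2 lam (nH H c) = J ^ 2 := rfl
  have h3 : x ^ (2 * c) = (x ^ c) ^ 2 := by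
    rw [mul_comm, Real.rpow_mul hx.le]
    norm_num
  rw [h2, h3]
  calc ‖sm lam E x‖ ^ 2 ≤ (2 * x ^ c * J) ^ 2 := by
        gcongr
    _ = 4 * (x ^ c * J) ^ 2 := by ring
    _ ≤ 16 * (x ^ c * J) ^ 2 := by
        have := sq_nonneg (x ^ c * J)
        linarith
    _ = _ := by ring

end Pool.Agent.XT

namespace Pool.Agent.XT

theorem sm_ptw2 : type_of% @sm_ptw2_pr := @sm_ptw2_pr

end Pool.Agent.XT

/-! ### Block P3 -/

namespace Pool.Agent.XT

open Finset Complex MeasureTheory Pool.Agent.Var35 Pool.Agent.Var73 Pool.Agent.HC Pool.Agent.MF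
  Pool.Agent.XS
open scoped ArithmeticFunction ArithmeticFunction.Moebius Topology

theorem p3_gs_norm (lam c t : ℝ) :
    ‖gs lam c t‖ = Real.exp (lam * c ^ 2) * Real.exp (-lam * t ^ 2) := by
  unfold gs
  rw [Complex.norm_exp, ← Real.exp_add]
  congr 1
  have : ((lam : ℂ) * ((c : ℂ) + t * I) ^ 2) =
      ((lam * (c ^ 2 - t ^ 2) : ℝ) : ℂ) + ((2 * lam * c * t : ℝ) : ℂ) * I := by
    push_cast
    ring_nf
    rw [Complex.I_sq]; ring
  rw [this, Complex.add_re, Complex.ofReal_re, Complex.re_ofReal_mul, Complex.I_re]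
  ring

theorem p3_gs_cont (lam c : ℝ) : Continuous (gs lam c) := by
  unfold gs; fun_prop

/-- a polynomial times a Gaussian is integrable -/
theorem p3_int (m : ℕ) {lam : ℝ} (hl : 0 < lam) :
    Integrable (fun t : ℝ => (1 + |t|) ^ m * Real.exp (-lam * t ^ 2)) := by
  have h1 : Integrable (fun t : ℝ => Real.exp (-lam * t ^ 2)) := integrable_exp_neg_mul_sq hl
  have h2 : Integrable (fun t : ℝ => |t| ^ m * Real.exp (-lam * t ^ 2)) := by
    have := (integrable_rpow_mul_exp_neg_mul_sq hl (s := (m : ℝ))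
      (by have : (0 : ℝ) ≤ m := Nat.cast_nonneg m; linarith)).norm
    refine this.congr (Filter.Eventually.of_forall (fun t => ?_))
    simp only [Real.rpow_natCast, norm_mul, norm_pow, Real.norm_eq_abs, Real.abs_exp]
  have h3 := ((h1.add h2).const_mul ((2 : ℝ) ^ m))
  refine h3.mono' ?_ (Filter.Eventually.of_forall (fun t => ?_))
  · apply Continuous.aestronglyMeasurable; fun_prop
  · rw [Real.norm_of_nonneg (by positivity)]
    have h4 : (1 + |t|) ^ m ≤ 2 ^ m * (1 + |t| ^ m) := by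
      rcases le_total |t| 1 with ht | ht
      · calc (1 + |t|) ^ m ≤ 2 ^ m := pow_le_pow_left₀ (by positivity) (by linarith) m
          _ ≤ 2 ^ m * (1 + |t| ^ m) := by
            have : 0 ≤ |t| ^ m := by positivity
            have h2m : (0 : ℝ) ≤ 2 ^ m := by positivity
            nlinarith
      · calc (1 + |t|) ^ m ≤ (2 * |t|) ^ m := pow_le_pow_left₀ (by positivity) (by linarith) m
          _ = 2 ^ m * |t| ^ m := by rw [mul_pow]
          _ ≤ 2 ^ m * (1 + |t| ^ m) := by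
            have h2m : (0 : ℝ) ≤ 2 ^ m := by positivity
            nlinarith
    have h5 : 0 < Real.exp (-lam * t ^ 2) := Real.exp_pos _
    calc (1 + |t|) ^ m * Real.exp (-lam * t ^ 2) ≤
        2 ^ m * (1 + |t| ^ m) * Real.exp (-lam * t ^ 2) := by gcongr
      _ = _ := by simp only [Pi.add_apply]; ring

theorem p3_H_cont {E : ℝ → ℂ} {H : ℂ → ℂ} {c : ℝ} (h : Rep E H c) (hc1 : c ≤ 1) :
    Continuous (fun t : ℝ => H (c + t * I)) := by
  obtain ⟨c', hc', hd⟩ := h.diff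
  have h1 : ContinuousOn H {s : ℂ | c' < s.re ∧ s.re < 3} := hd.continuousOn
  apply h1.comp_continuous (by fun_prop)
  intro t
  simp only [Set.mem_setOf_eq, add_re, ofReal_re, mul_re, I_re, mul_zero, ofReal_im, I_im,
    mul_one, sub_self, add_zero]
  exact ⟨hc', by linarith⟩

theorem p3_H_bound {E : ℝ → ℂ} {H : ℂ → ℂ} {c : ℝ} (h : Rep E H c) (hc1 : c ≤ 1) :
    ∃ A : ℝ, 0 ≤ A ∧ ∃ m : ℕ, ∀ t : ℝ, ‖H (c + t * I)‖ ≤ A * (1 + |t|) ^ m := by
  obtain ⟨A, m, hb⟩ := h.growth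
  refine ⟨A, ?_, m, ?_⟩
  · have := (norm_nonneg _).trans (hb (c : ℂ) (by simp) (by simp; linarith))
    simpa using this
  · intro t
    have := hb (c + t * I) (by simp) (by simp; linarith)
    simpa using this

theorem p3_cpow_norm {y c : ℝ} (hy : 0 < y) (t : ℝ) :
    ‖(y : ℂ) ^ ((c : ℂ) - 1 + t * I)‖ = y ^ (c - 1) := by
  rw [Complex.norm_cpow_eq_rpow_re_of_pos hy]
  simp

/-- the majorant of the derivative on `(x/2, 2x)` -/
theorem p3_bound {E : ℝ → ℂ} {H : ℂ → ℂ} {c : ℝ} (h : Rep E H c) (hc1 : c ≤ 1)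
    {lam x : ℝ} (hl : 0 < lam) (hx : 0 < x) :
    ∃ b : ℝ → ℝ, Integrable b ∧ ∀ t : ℝ, ∀ y : ℝ, x / 2 < y →
      ‖H (c + t * I) * gs lam c t * (y : ℂ) ^ ((c : ℂ) - 1 + t * I)‖ ≤ b t := by
  obtain ⟨A, hA, m, hb⟩ := p3_H_bound h hc1
  refine ⟨fun t => (A * Real.exp (lam * c ^ 2) * (x / 2) ^ (c - 1)) *
    ((1 + |t|) ^ m * Real.exp (-lam * t ^ 2)), (p3_int m hl).const_mul _, ?_⟩
  intro t y hy
  have hy0 : 0 < y := by linarith
  rw [norm_mul, norm_mul, p3_gs_norm, p3_cpow_norm hy0]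
  have h1 : y ^ (c - 1) ≤ (x / 2) ^ (c - 1) :=
    Real.rpow_le_rpow_of_nonpos (by linarith) hy.le (by linarith)
  have h2 := hb t
  calc ‖H (c + t * I)‖ * (Real.exp (lam * c ^ 2) * Real.exp (-lam * t ^ 2)) * y ^ (c - 1) ≤
      (A * (1 + |t|) ^ m) * (Real.exp (lam * c ^ 2) * Real.exp (-lam * t ^ 2)) *
        (x / 2) ^ (c - 1) := by gcongr
    _ = _ := by ring

theorem sm_deriv2_pr {E : ℝ → ℂ} {H : ℂ → ℂ} {c : ℝ} (h : Rep E H c) (hc : 1 / 2 ≤ c) (hc1 : c ≤ 1)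
    {lam x : ℝ} (hl : 0 < lam) (hx : 0 < x) : HasDerivAt (sm lam E) (gd lam H c x) x := by
  obtain ⟨b, hbi, hb⟩ := p3_bound h hc1 hl hx
  have hHc := p3_H_cont h hc1
  obtain ⟨A, hA, m, hAb⟩ := p3_H_bound h hc1
  have hne : ∀ t : ℝ, (c : ℂ) + t * I ≠ 0 := by
    intro t ht
    have := congrArg Complex.re ht
    simp at this
    linarith
  -- the function on a neighbourhood
  set F : ℝ → ℝ → ℂ := fun y t =>
    H (c + t * I) / (c + t * I) * gs lam c t * (y : ℂ) ^ ((c : ℂ) + t * I) with hF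
  set F' : ℝ → ℝ → ℂ := fun y t =>
    H (c + t * I) * gs lam c t * (y : ℂ) ^ ((c : ℂ) - 1 + t * I) with hF'
  have hcpow : ∀ y : ℝ, 0 < y → ∀ w : ℂ, Continuous (fun t : ℝ => (y : ℂ) ^ (w + t * I)) := by
    intro y hy w
    refine continuous_iff_continuousAt.mpr (fun t => ?_)
    refine ContinuousAt.const_cpow (by fun_prop) (Or.inl ?_)
    exact_mod_cast hy.ne'
  have hFc : ∀ y : ℝ, 0 < y → Continuous (F y) := by
    intro y hy
    exact ((hHc.div (by fun_prop) hne).mul (p3_gs_cont lam c)).mul (hcpow y hy c)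
  have hF'c : ∀ y : ℝ, 0 < y → Continuous (F' y) := by
    intro y hy
    exact (hHc.mul (p3_gs_cont lam c)).mul (hcpow y hy (c - 1))
  have key := hasDerivAt_integral_of_dominated_loc_of_deriv_le (F := F) (F' := F')
    (x₀ := x) (s := Set.Ioo (x / 2) (2 * x)) (bound := b)
    (Ioo_mem_nhds (by linarith) (by linarith))
    (by
      filter_upwards [Ioo_mem_nhds (show x / 2 < x by linarith) (show x < 2 * x by linarith)]
        with y hy
      exact (hFc y (by linarith [hy.1])).aestronglyMeasurable)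
    (by
      refine ((p3_int m hl).const_mul
        (2 * A * Real.exp (lam * c ^ 2) * x ^ c)).mono' (hFc x hx).aestronglyMeasurable ?_
      refine Filter.Eventually.of_forall (fun t => ?_)
      simp only [hF]
      rw [norm_mul, norm_mul, norm_div, p3_gs_norm, Complex.norm_cpow_eq_rpow_re_of_pos hx]
      have e1 : ((c : ℂ) + t * I).re = c := by simp
      rw [e1]
      have h1 : 1 / 2 ≤ ‖(c : ℂ) + t * I‖ := by
        have := Complex.abs_re_le_norm ((c : ℂ) + t * I)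
        rw [e1, abs_of_nonneg (by linarith)] at this
        linarith
      have h2 : ‖H (c + t * I)‖ / ‖(c : ℂ) + t * I‖ ≤ 2 * (A * (1 + |t|) ^ m) := by
        rw [div_le_iff₀ (by linarith)]
        have h3 := hAb t
        have h4 : 0 ≤ A * (1 + |t|) ^ m := by positivity
        nlinarith
      calc ‖H (c + t * I)‖ / ‖(c : ℂ) + t * I‖ *
            (Real.exp (lam * c ^ 2) * Real.exp (-lam * t ^ 2)) * x ^ c ≤
          2 * (A * (1 + |t|) ^ m) * (Real.exp (lam * c ^ 2) * Real.exp (-lam * t ^ 2)) * x ^ c := by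
            gcongr
        _ = _ := by ring)
    (hF'c x hx).aestronglyMeasurable
    (Filter.Eventually.of_forall (fun t y hy => hb t y hy.1))
    hbi
    (by
      refine Filter.Eventually.of_forall (fun t y hy => ?_)
      have hy0 : 0 < y := by linarith [hy.1]
      have h1 : HasDerivAt (fun y : ℝ => (y : ℂ) ^ ((c : ℂ) + t * I))
          (((c : ℂ) + t * I) * (y : ℂ) ^ ((c : ℂ) + t * I - 1)) y :=
        hasDerivAt_ofReal_cpow_const hy0.ne' (hne t)
      have h2 := h1.const_mul (H (c + t * I) / (c + t * I) * gs lam c t)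
      have e2 : F' y t = H (c + t * I) / (c + t * I) * gs lam c t *
          (((c : ℂ) + t * I) * (y : ℂ) ^ ((c : ℂ) + t * I - 1)) := by
        simp only [hF']
        have e3 : (c : ℂ) - 1 + t * I = (c : ℂ) + t * I - 1 := by ring
        rw [e3]
        have := hne t
        field_simp
      rw [e2]
      exact h2)
  have key2 := key.2.const_mul (((1 / (2 * Real.pi) : ℝ) : ℂ))
  have e1 : gd lam H c x = ((1 / (2 * Real.pi) : ℝ) : ℂ) * ∫ t : ℝ, F' x t := rfl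
  rw [e1]
  refine key2.congr_of_eventuallyEq ?_
  filter_upwards [Ioi_mem_nhds hx] with y hy
  exact sm_line2 h hc hc1 hl hy

theorem gd_cont2_pr {E : ℝ → ℂ} {H : ℂ → ℂ} {c : ℝ} (h : Rep E H c) (hc : 1 / 2 ≤ c) (hc1 : c ≤ 1)
    {lam : ℝ} (hl : 0 < lam) : ContinuousOn (gd lam H c) (Set.Ioi 0) := by
  intro x hx
  have hx0 : 0 < x := hx
  apply ContinuousAt.continuousWithinAt
  obtain ⟨b, hbi, hb⟩ := p3_bound h hc1 hl hx0
  have hHc := p3_H_cont h hc1
  unfold gd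
  refine continuousAt_const.mul ?_
  apply continuousAt_of_dominated (bound := b) _ _ hbi _
  · filter_upwards [Ioi_mem_nhds hx0] with y hy
    apply Continuous.aestronglyMeasurable
    refine (hHc.mul (p3_gs_cont lam c)).mul ?_
    refine continuous_iff_continuousAt.mpr (fun t => ?_)
    refine ContinuousAt.const_cpow (by fun_prop) (Or.inl ?_)
    exact_mod_cast (ne_of_gt hy : y ≠ 0)
  · filter_upwards [Ioi_mem_nhds (show x / 2 < x by linarith)] with y hy
    exact Filter.Eventually.of_forall (fun t => hb t y hy)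
  · refine Filter.Eventually.of_forall (fun t => ?_)
    refine continuousAt_const.mul ?_
    exact Complex.continuousAt_ofReal_cpow_const x _ (Or.inr hx0.ne')

theorem sm_deriv2 : type_of% @sm_deriv2_pr := @sm_deriv2_pr

theorem gd_cont2 : type_of% @gd_cont2_pr := @gd_cont2_pr

end Pool.Agent.XT

/-! ### Block P4 -/

/-! XT, block P4: mean square of the derivative, `1/2 ≤ c` (port of `XSF.DL2`) (helper16) -/

namespace Pool.Agent.XT

open Finset Complex MeasureTheory Pool.Agent.Var35 Pool.Agent.Var73 Pool.Agent.HC Pool.Agent.MF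
  Pool.Agent.XS
open scoped ArithmeticFunction ArithmeticFunction.Moebius

/-- P4: mean square of the derivative (port of `XSF.DL2`) -/
theorem gd_l2_2_pr {E : ℝ → ℂ} {H : ℂ → ℂ} {c : ℝ} (h : Rep E H c) (hc : 1 / 2 ≤ c) (hc1 : c ≤ 1)
    {lam X : ℝ} (hl : 0 < lam) (hl1 : lam ≤ 1) (hX : 0 < X) :
    IntervalIntegrable (fun x => ‖gd lam H c x‖ ^ 2) volume 0 X ∧
      ∫ x in (0 : ℝ)..X, ‖gd lam H c x‖ ^ 2 ≤ 2 * X ^ (2 * c - 1) * Q1 lam (nH H c) := by
  obtain ⟨hI, hv⟩ := dl2_all h hc1 hl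
  have hsub : Set.Ioc 0 X ⊆ Set.Ioi (0 : ℝ) := fun x hx => hx.1
  have hQ : 0 ≤ Q1 lam (nH H c) := by
    unfold Q1
    exact integral_nonneg fun t => by positivity
  have hpt : ∀ x ∈ Set.Ioc 0 X, ‖gd lam H c x‖ ^ 2 ≤
      X ^ (2 * c - 1) * (‖gd lam H c x‖ ^ 2 * x ^ (1 - 2 * c)) := by
    intro x hx
    have h1 : 1 ≤ X ^ (2 * c - 1) * x ^ (1 - 2 * c) := by
      have h2 : x ^ (2 * c - 1) ≤ X ^ (2 * c - 1) := Real.rpow_le_rpow hx.1.le hx.2 (by linarith)
      calc (1 : ℝ) = x ^ (2 * c - 1) * x ^ (1 - 2 * c) := by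
            rw [← Real.rpow_add hx.1]; norm_num
        _ ≤ _ := mul_le_mul_of_nonneg_right h2 (Real.rpow_nonneg hx.1.le _)
    calc ‖gd lam H c x‖ ^ 2 = ‖gd lam H c x‖ ^ 2 * 1 := by ring
      _ ≤ ‖gd lam H c x‖ ^ 2 * (X ^ (2 * c - 1) * x ^ (1 - 2 * c)) :=
          mul_le_mul_of_nonneg_left h1 (by positivity)
      _ = _ := by ring
  have hIoc : IntegrableOn (fun x : ℝ => X ^ (2 * c - 1) *
      (‖gd lam H c x‖ ^ 2 * x ^ (1 - 2 * c))) (Set.Ioc 0 X) :=
    (hI.mono_set hsub).const_mul _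
  have hm : AEStronglyMeasurable (fun x => ‖gd lam H c x‖ ^ 2)
      (volume.restrict (Set.Ioc 0 X)) :=
    (((gd_cont2 h hc hc1 hl).mono hsub).norm.pow 2).aestronglyMeasurable measurableSet_Ioc
  have hInt : IntegrableOn (fun x => ‖gd lam H c x‖ ^ 2) (Set.Ioc 0 X) := by
    refine hIoc.mono' hm ?_
    rw [ae_restrict_iff' measurableSet_Ioc]
    refine Filter.Eventually.of_forall fun x hx => ?_
    rw [Real.norm_of_nonneg (by positivity)]
    exact hpt x hx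
  refine ⟨(intervalIntegrable_iff_integrableOn_Ioc_of_le hX.le).2 hInt, ?_⟩
  rw [intervalIntegral.integral_of_le hX.le]
  have hXp : 0 ≤ X ^ (2 * c - 1) := Real.rpow_nonneg hX.le _
  have hexp : 1 / (2 * Real.pi) * Real.exp (2 * lam * c ^ 2) ≤ 2 := by
    have h1 : Real.exp (2 * lam * c ^ 2) ≤ Real.exp 2 := by
      apply Real.exp_le_exp.2
      have : lam * c ^ 2 ≤ 1 := by
        have hc2 : c ^ 2 ≤ 1 := by nlinarith
        nlinarith [sq_nonneg c]
      linarith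
    have h2 : Real.exp 2 ≤ 8 := by
      have h3 : Real.exp 2 = Real.exp 1 * Real.exp 1 := by
        rw [← Real.exp_add]; norm_num
      rw [h3]
      have h4 := Real.exp_one_lt_d9
      have h5 := Real.exp_pos 1
      nlinarith
    have h3 : 3 < Real.pi := Real.pi_gt_three
    rw [one_div_mul_eq_div, div_le_iff₀ (by positivity)]
    linarith
  calc ∫ x in Set.Ioc 0 X, ‖gd lam H c x‖ ^ 2
      ≤ ∫ x in Set.Ioc 0 X, X ^ (2 * c - 1) * (‖gd lam H c x‖ ^ 2 * x ^ (1 - 2 * c)) :=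
        setIntegral_mono_on hInt hIoc measurableSet_Ioc hpt
    _ = X ^ (2 * c - 1) * ∫ x in Set.Ioc 0 X, (‖gd lam H c x‖ ^ 2 * x ^ (1 - 2 * c)) :=
        integral_const_mul _ _
    _ ≤ X ^ (2 * c - 1) * ∫ x in Set.Ioi 0, (‖gd lam H c x‖ ^ 2 * x ^ (1 - 2 * c)) := by
        apply mul_le_mul_of_nonneg_left _ hXp
        refine setIntegral_mono_set hI ?_ hsub.eventuallyLE
        rw [Filter.EventuallyLE, ae_restrict_iff' measurableSet_Ioi]
        refine Filter.Eventually.of_forall fun x hx => ?_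
        exact mul_nonneg (by positivity) (Real.rpow_nonneg (le_of_lt hx) _)
    _ = X ^ (2 * c - 1) * ((1 / (2 * Real.pi) * Real.exp (2 * lam * c ^ 2)) *
          Q1 lam (nH H c)) := by rw [hv]; ring
    _ ≤ X ^ (2 * c - 1) * (2 * Q1 lam (nH H c)) := by
        gcongr
    _ = _ := by ring

theorem gd_l2_2 : type_of% @gd_l2_2_pr := @gd_l2_2_pr

end Pool.Agent.XT

/-! ### Block P5 -/

/-!
# XT, block P5: two smoothings (port of `XSF.FTA`)
-/

namespace Pool.Agent.XT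

open Finset Complex MeasureTheory Pool.Agent.Var35 Pool.Agent.Var73 Pool.Agent.HC Pool.Agent.MF
  Pool.Agent.XS
open scoped ArithmeticFunction ArithmeticFunction.Moebius FourierTransform

theorem p5_ne {c : ℝ} (hc : 1 / 2 ≤ c) (t : ℝ) : (c : ℂ) + t * I ≠ 0 := by
  intro h0
  have h1 := congrArg Complex.re h0
  simp only [Complex.add_re, Complex.ofReal_re, Complex.re_ofReal_mul, Complex.I_re, mul_zero,
    add_zero, Complex.zero_re] at h1
  linarith

theorem p5_norm_ge {c : ℝ} (hc : 1 / 2 ≤ c) (t : ℝ) : 1 / 2 ≤ ‖(c : ℂ) + t * I‖ := by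
  have h1 := fta_normsq c t
  have h2 : (1 / 2 : ℝ) ^ 2 ≤ ‖(c : ℂ) + t * I‖ ^ 2 := by
    rw [h1]
    nlinarith [sq_nonneg t]
  exact le_of_sq_le_sq h2 (norm_nonneg _)
where
  le_of_sq_le_sq {a b : ℝ} (h : a ^ 2 ≤ b ^ 2) (hb : 0 ≤ b) : a ≤ b := by
    exact (abs_le_of_sq_le_sq' h hb).2

theorem p5_cont {E : ℝ → ℂ} {H : ℂ → ℂ} {c : ℝ} (h : Rep E H c) (hc : 1 / 2 ≤ c) (hc1 : c ≤ 1)
    (nu : ℝ) : Continuous (fta_u H c nu) := by
  unfold fta_u gs
  refine Continuous.mul (Continuous.div (fta_contH h hc1) (by fun_prop) (p5_ne hc)) ?_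
  fun_prop

theorem p5_bd {E : ℝ → ℂ} {H : ℂ → ℂ} {c : ℝ} (h : Rep E H c) (hc : 1 / 2 ≤ c) (hc1 : c ≤ 1)
    {nu : ℝ} (hn : 0 < nu) :
    ∃ K : ℝ, ∀ t : ℝ, ‖fta_u H c nu t‖ ≤ K * Real.exp (-(nu / 2) * t ^ 2) := by
  obtain ⟨A, m, hA⟩ := h.growth
  have hA0 : 0 ≤ A := by
    have h1 := hA (c : ℂ) (by simp) (by simpa using by linarith)
    have h2 := (norm_nonneg _).trans h1
    simpa using h2
  refine ⟨A * (m.factorial * Real.exp (1 + 1 / (2 * nu))) * (2) * Real.exp (nu * c ^ 2),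
    fun t => ?_⟩
  have h1 : ‖H (c + t * I)‖ ≤ A * (1 + |t|) ^ m := by
    have h2 := hA ((c : ℂ) + t * I) (by simp) (by simpa using by linarith)
    simpa using h2
  have h3 : (1 + |t|) ^ m ≤ m.factorial * Real.exp (1 + |t|) := by
    have h4 := Real.pow_div_factorial_le_exp (1 + |t|) (by positivity) m
    rw [div_le_iff₀ (by positivity)] at h4
    linarith
  have h5 : 1 + |t| ≤ (1 + 1 / (2 * nu)) + nu / 2 * t ^ 2 := by
    have h6 : 0 ≤ (nu * |t| - 1) ^ 2 := sq_nonneg _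
    have h7 : |t| ^ 2 = t ^ 2 := sq_abs t
    have h8 : |t| = ((2 * nu * |t|) / (2 * nu)) := by field_simp
    have h9 : nu / 2 * t ^ 2 = (nu ^ 2 * t ^ 2) / (2 * nu) := by field_simp
    rw [h9, h8, add_assoc, ← add_div]
    gcongr
    nlinarith
  have h10 : Real.exp (1 + |t|) ≤ Real.exp (1 + 1 / (2 * nu)) * Real.exp (nu / 2 * t ^ 2) := by
    rw [← Real.exp_add]
    exact Real.exp_le_exp.2 h5
  have h11 : ‖fta_u H c nu t‖ ≤ A * (m.factorial * (Real.exp (1 + 1 / (2 * nu)) *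
      Real.exp (nu / 2 * t ^ 2))) * (2) * Real.exp (nu * (c ^ 2 - t ^ 2)) := by
    unfold fta_u
    rw [norm_mul, norm_div, fta_norm_gs]
    have h12 : ‖H (c + t * I)‖ / ‖(c : ℂ) + t * I‖ ≤ A * (m.factorial *
        (Real.exp (1 + 1 / (2 * nu)) * Real.exp (nu / 2 * t ^ 2))) * (2) := by
      rw [div_eq_mul_inv]
      have h13 : ‖(c : ℂ) + t * I‖⁻¹ ≤ 2 := by
        rw [show (2 : ℝ) = (1 / 2)⁻¹ by norm_num]
        exact inv_anti₀ (by norm_num) (p5_norm_ge hc t)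
      have h14 : ‖H (c + t * I)‖ ≤ A * (m.factorial *
        (Real.exp (1 + 1 / (2 * nu)) * Real.exp (nu / 2 * t ^ 2))) := by
        refine h1.trans (mul_le_mul_of_nonneg_left (h3.trans ?_) hA0)
        exact mul_le_mul_of_nonneg_left h10 (by positivity)
      exact mul_le_mul h14 h13 (by positivity) (by positivity)
    exact mul_le_mul_of_nonneg_right h12 (Real.exp_pos _).le
  refine h11.trans (le_of_eq ?_)
  have h15 : Real.exp (nu * (c ^ 2 - t ^ 2)) = Real.exp (nu * c ^ 2) * Real.exp (-(nu / 2) * t ^ 2) *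
      Real.exp (-(nu / 2) * t ^ 2) := by
    rw [← Real.exp_add, ← Real.exp_add]
    congr 1
    ring
  have h16 : Real.exp (nu / 2 * t ^ 2) * Real.exp (-(nu / 2) * t ^ 2) = 1 := by
    rw [← Real.exp_add]
    have : nu / 2 * t ^ 2 + -(nu / 2) * t ^ 2 = 0 := by ring
    rw [this, Real.exp_zero]
  rw [h15]
  linear_combination (A * (m.factorial * Real.exp (1 + 1 / (2 * nu))) * (2) *
    Real.exp (nu * c ^ 2) * Real.exp (-(nu / 2) * t ^ 2)) * h16

theorem p5_int {E : ℝ → ℂ} {H : ℂ → ℂ} {c : ℝ} (h : Rep E H c) (hc : 1 / 2 ≤ c) (hc1 : c ≤ 1)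
    {nu : ℝ} (hn : 0 < nu) : Integrable (fta_u H c nu) := by
  obtain ⟨K, hK⟩ := p5_bd h hc hc1 hn
  refine ((integrable_exp_neg_mul_sq (half_pos hn)).const_mul K).mono'
    (p5_cont h hc hc1 nu).aestronglyMeasurable (Filter.Eventually.of_forall hK)

theorem p5_memLp {E : ℝ → ℂ} {H : ℂ → ℂ} {c : ℝ} (h : Rep E H c) (hc : 1 / 2 ≤ c) (hc1 : c ≤ 1)
    {nu : ℝ} (hn : 0 < nu) : MemLp (fta_u H c nu) 2 := by
  obtain ⟨K, hK⟩ := p5_bd h hc hc1 hn
  refine (memLp_two_iff_integrable_sq_norm (p5_cont h hc hc1 nu).aestronglyMeasurable).2 ?_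
  refine ((integrable_exp_neg_mul_sq hn).const_mul (K ^ 2)).mono'
    ((p5_cont h hc hc1 nu).norm.pow 2).aestronglyMeasurable
    (Filter.Eventually.of_forall fun t => ?_)
  rw [Real.norm_eq_abs, abs_of_nonneg (by positivity)]
  have h1 := pow_le_pow_left₀ (norm_nonneg _) (hK t) 2
  refine h1.trans (le_of_eq ?_)
  rw [mul_pow, ← Real.exp_nat_mul]
  congr 2
  push_cast
  ring

/-- the two exponentials -/
theorem p5_diff {c : ℝ} (hc : 1 / 2 ≤ c) (hc1 : c ≤ 1) {mu lam : ℝ} (hm : 0 < mu)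
    (hml : mu ≤ lam) (hl1 : lam ≤ 1) (t : ℝ) :
    ‖gs mu c t - gs lam c t‖ ≤ 12 * min 1 (lam * (1 + t ^ 2)) := by
  have he : Real.exp 1 ≤ 3 := by
    have := Real.exp_one_lt_d9
    linarith
  have hc2 : c ^ 2 ≤ 1 := by nlinarith
  set w : ℂ := ((lam - mu : ℝ) : ℂ) * ((c : ℂ) + t * I) ^ 2 with hw
  have e1 : gs mu c t - gs lam c t = gs mu c t * (1 - cexp w) := by
    unfold gs
    rw [mul_sub, mul_one, ← Complex.exp_add, hw]
    congr 3
    push_cast
    ring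
  have hre : w.re = (lam - mu) * (c ^ 2 - t ^ 2) := fta_re (lam - mu) c t
  have hre1 : w.re ≤ 1 := by
    rw [hre]
    nlinarith [sq_nonneg t]
  have hgs : ‖gs mu c t‖ ≤ 3 := by
    rw [fta_norm_gs]
    refine (Real.exp_le_exp.2 ?_).trans he
    nlinarith [sq_nonneg t]
  have hb1 : ‖1 - cexp w‖ ≤ 4 := by
    refine (norm_sub_le _ _).trans ?_
    rw [norm_one, Complex.norm_exp]
    have : Real.exp w.re ≤ 3 := (Real.exp_le_exp.2 hre1).trans he
    linarith
  have hb2 : ‖1 - cexp w‖ ≤ 4 * (lam * (1 + t ^ 2)) := by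
    have h1 : ‖1 - cexp w‖ ≤ 3 * ‖w‖ := by
      have hd : ∀ s ∈ Set.Icc (0 : ℝ) 1, HasDerivWithinAt (fun s : ℝ => cexp (s * w))
          (cexp (s * w) * w) (Set.Icc 0 1) s := by
        intro s _
        apply HasDerivAt.hasDerivWithinAt
        have h2 : HasDerivAt (fun s : ℝ => (s : ℂ) * w) w s := by
          simpa using (Complex.ofRealCLM.hasDerivAt (x := s)).mul_const w
        exact h2.cexp
      have hbd : ∀ s ∈ Set.Ico (0 : ℝ) 1, ‖cexp (s * w) * w‖ ≤ 3 * ‖w‖ := by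
        intro s hs
        rw [norm_mul]
        refine mul_le_mul_of_nonneg_right ?_ (norm_nonneg _)
        rw [Complex.norm_exp, Complex.re_ofReal_mul]
        refine (Real.exp_le_exp.2 ?_).trans he
        rcases le_total 0 w.re with h0 | h0
        · nlinarith [hs.1, hs.2]
        · nlinarith [hs.1, hs.2]
      have h3 := norm_image_sub_le_of_norm_deriv_le_segment' hd hbd 1 (by simp)
      rw [norm_sub_rev]
      simpa using h3
    have h4 : ‖w‖ ≤ lam * (1 + t ^ 2) := by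
      rw [hw, norm_mul, norm_pow, fta_normsq, Complex.norm_real, Real.norm_eq_abs,
        abs_of_nonneg (by linarith)]
      have : (lam - mu) * (c ^ 2 + t ^ 2) ≤ lam * (1 + t ^ 2) := by
        nlinarith [sq_nonneg t, mul_nonneg hm.le (add_nonneg (sq_nonneg c) (sq_nonneg t))]
      exact this
    nlinarith [norm_nonneg w, sq_nonneg t]
  rw [e1, norm_mul]
  have hmin : ‖1 - cexp w‖ ≤ 4 * min 1 (lam * (1 + t ^ 2)) := by
    rcases le_total 1 (lam * (1 + t ^ 2)) with h0 | h0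
    · rw [min_eq_left h0]; linarith
    · rw [min_eq_right h0]; exact hb2
  calc ‖gs mu c t‖ * ‖1 - cexp w‖ ≤ 3 * (4 * min 1 (lam * (1 + t ^ 2))) :=
        mul_le_mul hgs hmin (norm_nonneg _) (by norm_num)
    _ = _ := by ring

theorem p5_pt {H : ℂ → ℂ} {c : ℝ} (hc : 1 / 2 ≤ c) (hc1 : c ≤ 1) {mu lam : ℝ} (hm : 0 < mu)
    (hml : mu ≤ lam) (hl1 : lam ≤ 1) (t : ℝ) :
    ‖fta_u H c mu t - fta_u H c lam t‖ ^ 2 ≤
      576 * (nH H c t ^ 2 / (1 + t ^ 2) * (min 1 (lam * (1 + t ^ 2))) ^ 2) := by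
  have e1 : fta_u H c mu t - fta_u H c lam t =
      H (c + t * I) / (c + t * I) * (gs mu c t - gs lam c t) := by
    unfold fta_u
    ring
  rw [e1, norm_mul, norm_div, mul_pow, div_pow, fta_normsq]
  have h1 := pow_le_pow_left₀ (norm_nonneg _) (p5_diff hc hc1 hm hml hl1 t) 2
  have h2 : ‖H (c + t * I)‖ ^ 2 / (c ^ 2 + t ^ 2) ≤ (4) * (nH H c t ^ 2 / (1 + t ^ 2)) := by
    unfold nH
    rw [← mul_div_assoc, div_le_div_iff₀ (by nlinarith [sq_nonneg t]) (by positivity)]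
    have h3 : 1 + t ^ 2 ≤ (4) * (c ^ 2 + t ^ 2) := by nlinarith [sq_nonneg t]
    have h4 : 0 ≤ ‖H (c + t * I)‖ ^ 2 := by positivity
    nlinarith
  calc ‖H (c + t * I)‖ ^ 2 / (c ^ 2 + t ^ 2) * ‖gs mu c t - gs lam c t‖ ^ 2
      ≤ (4) * (nH H c t ^ 2 / (1 + t ^ 2)) * (12 * min 1 (lam * (1 + t ^ 2))) ^ 2 :=
        mul_le_mul h2 h1 (by positivity) (by positivity)
    _ = _ := by ring

/-- P5: two smoothings -/
theorem fat_two2_pr {E : ℝ → ℂ} {H : ℂ → ℂ} {c : ℝ} (h : Rep E H c) (hc : 1 / 2 ≤ c) (hc1 : c ≤ 1)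
    {mu lam : ℝ} (hm : 0 < mu) (hml : mu ≤ lam) (hl1 : lam ≤ 1)
    (hint : Integrable (fun t => nH H c t ^ 2 / (1 + t ^ 2))) {X : ℝ} (hX : 0 < X) :
    ∫ x in (0 : ℝ)..X, ‖sm mu E x - sm lam E x‖ ^ 2 ≤
      1000 * X ^ (2 * c + 1) * Q3 lam (nH H c) := by
  have hl : 0 < lam := hm.trans_le hml
  have hpi := Real.pi_pos
  set f : ℝ → ℂ := fun t => fta_u H c mu t - fta_u H c lam t with hf
  have hf1 : Integrable f := (p5_int h hc hc1 hm).sub (p5_int h hc hc1 hl)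
  have hf2 : MemLp f 2 := (p5_memLp h hc hc1 hm).sub (p5_memLp h hc hc1 hl)
  have hcf : Continuous f := (p5_cont h hc hc1 mu).sub (p5_cont h hc hc1 lam)
  have hsq : Integrable (fun t => ‖f t‖ ^ 2) :=
    (memLp_two_iff_integrable_sq_norm hcf.aestronglyMeasurable).1 hf2
  -- Plancherel
  have hpl := H58.plancherel f hf1 hf2
  have hcont : Continuous (𝓕 f) :=
    (VectorFourier.fourierIntegral_continuous Real.continuous_fourierChar
      (by exact (innerSL ℝ (E := ℝ)).continuous₂) hf1)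
  have hconv : ∀ g : ℝ → ℂ, ∀ x, ENNReal.ofReal (‖g x‖ ^ 2) = ‖g x‖ₑ ^ 2 := fun g x => by
    rw [ENNReal.ofReal_pow (norm_nonneg _), ofReal_norm]
  have hF : Integrable (fun ξ => ‖𝓕 f ξ‖ ^ 2) := by
    refine ⟨(hcont.norm.pow 2).aestronglyMeasurable, ?_⟩
    rw [hasFiniteIntegral_iff_ofReal (Filter.Eventually.of_forall fun x => by positivity)]
    simp_rw [hconv]
    rw [hpl]
    have h3 := hsq.2
    rw [hasFiniteIntegral_iff_ofReal (Filter.Eventually.of_forall fun x => by positivity)] at h3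
    simp_rw [hconv] at h3
    exact h3
  have heq : ∫ ξ, ‖𝓕 f ξ‖ ^ 2 = ∫ u, ‖f u‖ ^ 2 := by
    rw [integral_eq_lintegral_of_nonneg_ae (Filter.Eventually.of_forall fun x => by positivity)
      hF.1, integral_eq_lintegral_of_nonneg_ae
      (Filter.Eventually.of_forall fun x => by positivity) hsq.1]
    simp_rw [hconv]
    rw [hpl]
  -- the difference as a Fourier transform
  have hD : ∀ x : ℝ, 0 < x → ‖sm mu E x - sm lam E x‖ ^ 2 =
      x ^ (2 * c) / (4 * Real.pi ^ 2) * ‖𝓕 f (-(Real.log x / (2 * Real.pi)))‖ ^ 2 := by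
    intro x hx
    have hx' : (x : ℂ) ≠ 0 := by exact_mod_cast hx.ne'
    have e0 : ∀ nu : ℝ, 0 < nu → sm nu E x = ((1 / (2 * Real.pi) : ℝ) : ℂ) *
        ∫ t : ℝ, fta_u H c nu t * (x : ℂ) ^ ((c : ℂ) + t * I) := fun nu hn => by
      rw [sm_line2 h hc hc1 hn hx]
      rfl
    have hi : ∀ nu : ℝ, 0 < nu → Integrable (fun t : ℝ => fta_u H c nu t *
        (x : ℂ) ^ ((c : ℂ) + t * I)) := fun nu hn => by
      refine (p5_int h hc hc1 hn).mul_bdd (c := x ^ c) ?_ ?_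
      · apply Continuous.aestronglyMeasurable
        exact Continuous.const_cpow (by fun_prop) (Or.inl hx')
      · refine Filter.Eventually.of_forall fun t => ?_
        rw [Complex.norm_cpow_eq_rpow_re_of_pos hx]
        simp
    have e1 : sm mu E x - sm lam E x = ((1 / (2 * Real.pi) : ℝ) : ℂ) *
        ((x ^ c : ℝ) : ℂ) * 𝓕 f (-(Real.log x / (2 * Real.pi))) := by
      rw [e0 mu hm, e0 lam hl, ← mul_sub, ← integral_sub (hi mu hm) (hi lam hl), mul_assoc]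
      refine congrArg (fun z : ℂ => ((1 / (2 * Real.pi) : ℝ) : ℂ) * z) ?_
      rw [Real.fourier_real_eq_integral_exp_smul, ← integral_const_mul]
      refine integral_congr_ae (Filter.Eventually.of_forall fun t => ?_)
      show fta_u H c mu t * (x : ℂ) ^ ((c : ℂ) + t * I) -
        fta_u H c lam t * (x : ℂ) ^ ((c : ℂ) + t * I) =
        ((x ^ c : ℝ) : ℂ) * (cexp (((-2 * Real.pi * t * (-(Real.log x / (2 * Real.pi))) : ℝ) : ℂ) * I) •
          (fta_u H c mu t - fta_u H c lam t))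
      have e2 : (-2 * Real.pi * t * (-(Real.log x / (2 * Real.pi))) : ℝ) = t * Real.log x := by
        field_simp
      rw [e2, smul_eq_mul, Complex.cpow_add _ _ hx', Complex.ofReal_cpow hx.le]
      have e3 : (x : ℂ) ^ ((t : ℂ) * I) = cexp (((t * Real.log x : ℝ) : ℂ) * I) := by
        rw [Complex.cpow_def_of_ne_zero hx', ← Complex.ofReal_log hx.le]
        congr 1
        push_cast
        ring
      rw [e3]
      ring
    rw [e1, norm_mul, norm_mul, mul_pow, mul_pow, Complex.norm_real, Complex.norm_real,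
      Real.norm_eq_abs, Real.norm_eq_abs, sq_abs, sq_abs]
    have e4 : (x ^ c) ^ 2 = x ^ (2 * c) := by
      rw [← Real.rpow_natCast, ← Real.rpow_mul hx.le]
      congr 1
      push_cast
      ring
    rw [e4]
    have e5 : (1 / (2 * Real.pi)) ^ 2 = 1 / (4 * Real.pi ^ 2) := by
      rw [div_pow, one_pow]
      ring
    rw [e5]
    ring
  obtain ⟨hci, hce⟩ := fta_change (fun ξ => ‖𝓕 f ξ‖ ^ 2) hF
  -- the bound
  rw [intervalIntegral.integral_of_le hX.le]
  have hb1 : ∫ x in Set.Ioc 0 X, ‖sm mu E x - sm lam E x‖ ^ 2 ≤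
      ∫ x in Set.Ioc 0 X, X ^ (2 * c + 1) / (4 * Real.pi ^ 2) *
        (‖𝓕 f (-(Real.log x / (2 * Real.pi)))‖ ^ 2 * x⁻¹) := by
    refine integral_mono_of_nonneg (Filter.Eventually.of_forall fun x => by positivity)
      ((hci.mono_set Set.Ioc_subset_Ioi_self).const_mul _) ?_
    filter_upwards [ae_restrict_mem measurableSet_Ioc] with x hx
    rw [hD x hx.1]
    have h1 : x ^ (2 * c) ≤ X ^ (2 * c + 1) * x⁻¹ := by
      have h2 : x ^ (2 * c) = x ^ (2 * c + 1) * x⁻¹ := by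
        rw [Real.rpow_add hx.1, Real.rpow_one, mul_assoc, mul_inv_cancel₀ hx.1.ne', mul_one]
      rw [h2]
      exact mul_le_mul_of_nonneg_right
        (Real.rpow_le_rpow hx.1.le hx.2 (by linarith)) (by have := hx.1; positivity)
    have h3 : 0 ≤ ‖𝓕 f (-(Real.log x / (2 * Real.pi)))‖ ^ 2 / (4 * Real.pi ^ 2) := by positivity
    have h4 := mul_le_mul_of_nonneg_right h1 h3
    calc x ^ (2 * c) / (4 * Real.pi ^ 2) * ‖𝓕 f (-(Real.log x / (2 * Real.pi)))‖ ^ 2
        = x ^ (2 * c) * (‖𝓕 f (-(Real.log x / (2 * Real.pi)))‖ ^ 2 / (4 * Real.pi ^ 2)) := by ring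
      _ ≤ X ^ (2 * c + 1) * x⁻¹ *
          (‖𝓕 f (-(Real.log x / (2 * Real.pi)))‖ ^ 2 / (4 * Real.pi ^ 2)) := h4
      _ = _ := by ring
  have hb2 : ∫ x in Set.Ioc 0 X, X ^ (2 * c + 1) / (4 * Real.pi ^ 2) *
        (‖𝓕 f (-(Real.log x / (2 * Real.pi)))‖ ^ 2 * x⁻¹) ≤
      X ^ (2 * c + 1) / (4 * Real.pi ^ 2) * (2 * Real.pi * ∫ u, ‖f u‖ ^ 2) := by
    rw [integral_const_mul, ← heq, ← hce]
    refine mul_le_mul_of_nonneg_left ?_ (by positivity)
    refine setIntegral_mono_set hci ?_ (Set.Ioc_subset_Ioi_self.eventuallyLE)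
    filter_upwards [ae_restrict_mem measurableSet_Ioi] with x hx
    have : 0 < x := hx
    show 0 ≤ ‖𝓕 f (-(Real.log x / (2 * Real.pi)))‖ ^ 2 * x⁻¹
    positivity
  have hnH : Continuous (nH H c) := (fta_contH h hc1).norm
  have hb3 : ∫ u, ‖f u‖ ^ 2 ≤ 576 * Q3 lam (nH H c) := by
    unfold Q3
    rw [← integral_const_mul]
    refine integral_mono_of_nonneg (Filter.Eventually.of_forall fun x => by positivity) ?_
      (Filter.Eventually.of_forall fun t => p5_pt hc hc1 hm hml hl1 t)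
    apply Integrable.const_mul
    refine hint.mono' ?_ (Filter.Eventually.of_forall fun t => ?_)
    · apply Continuous.aestronglyMeasurable
      refine Continuous.mul (Continuous.div (hnH.pow 2) (by fun_prop) fun t => by positivity) ?_
      fun_prop
    · have h1 : 0 ≤ min 1 (lam * (1 + t ^ 2)) := le_min zero_le_one (by positivity)
      have h2 : min 1 (lam * (1 + t ^ 2)) ≤ 1 := min_le_left _ _
      have h3 : (min 1 (lam * (1 + t ^ 2))) ^ 2 ≤ 1 := pow_le_one₀ h1 h2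
      have h4 : 0 ≤ nH H c t ^ 2 / (1 + t ^ 2) := by positivity
      rw [Real.norm_eq_abs, abs_of_nonneg (by positivity)]
      nlinarith
  have hQ : 0 ≤ Q3 lam (nH H c) := by
    unfold Q3
    exact integral_nonneg fun t => by positivity
  refine (hb1.trans hb2).trans ?_
  have hXp : 0 < X ^ (2 * c + 1) := Real.rpow_pos_of_pos hX _
  have h5 : X ^ (2 * c + 1) / (4 * Real.pi ^ 2) * (2 * Real.pi * ∫ u, ‖f u‖ ^ 2) =
      X ^ (2 * c + 1) * ((∫ u, ‖f u‖ ^ 2) / (2 * Real.pi)) := by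
    field_simp
    ring
  rw [h5]
  have h6 : (∫ u, ‖f u‖ ^ 2) / (2 * Real.pi) ≤ 1000 * Q3 lam (nH H c) := by
    rw [div_le_iff₀ (by positivity)]
    have h7 : 3 < Real.pi := Real.pi_gt_three
    nlinarith
  calc X ^ (2 * c + 1) * ((∫ u, ‖f u‖ ^ 2) / (2 * Real.pi))
      ≤ X ^ (2 * c + 1) * (1000 * Q3 lam (nH H c)) := mul_le_mul_of_nonneg_left h6 hXp.le
    _ = _ := by ring

theorem fat_two2 : type_of% @fat_two2_pr := @fat_two2_pr

end Pool.Agent.XT

/-! ### Block P6 -/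

/-! # XT, block P6: mean square of the rest (Fatou), lines 1/2 <= c -/

namespace Pool.Agent.XT

open Finset Complex MeasureTheory Pool.Agent.Var35 Pool.Agent.Var73 Pool.Agent.HC Pool.Agent.MF
  Pool.Agent.XS
open scoped ArithmeticFunction ArithmeticFunction.Moebius

theorem p6_meas {E : ℝ → ℂ} {H : ℂ → ℂ} {c : ℝ} (h : Rep E H c) (hc : 1 / 2 ≤ c) (hc1 : c ≤ 1)
    {lam : ℝ} (hl : 0 < lam) (X : ℝ) :
    AEStronglyMeasurable (sm lam E) (volume.restrict (Set.Ioc 0 X)) := by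
  have h1 : ContinuousOn (sm lam E) (Set.Ioc 0 X) := fun x hx =>
    (sm_deriv2 h hc hc1 hl hx.1).continuousAt.continuousWithinAt
  exact h1.aestronglyMeasurable measurableSet_Ioc

theorem p6_sq (a b : ℂ) : ‖a - b‖ ^ 2 ≤ 2 * ‖a‖ ^ 2 + 2 * ‖b‖ ^ 2 := by
  have h1 := norm_sub_le a b
  have h2 := norm_nonneg (a - b)
  nlinarith [sq_nonneg (‖a‖ - ‖b‖)]

theorem p6_int {E : ℝ → ℂ} {H : ℂ → ℂ} {c : ℝ} (h : Rep E H c) (hc : 1 / 2 ≤ c) (hc1 : c ≤ 1)
    {mu lam : ℝ} (hm : 0 < mu) (hm1 : mu ≤ 1) (hl : 0 < lam) (hl1 : lam ≤ 1) (X : ℝ) :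
    IntegrableOn (fun x => ‖sm mu E x - sm lam E x‖ ^ 2) (Set.Ioc 0 X) := by
  refine Integrable.of_bound (((p6_meas h hc hc1 hm X).sub (p6_meas h hc hc1 hl X)).norm.pow 2)
    (32 * X ^ (2 * c) * (Q2 mu (nH H c) + Q2 lam (nH H c))) ?_
  filter_upwards [ae_restrict_mem measurableSet_Ioc] with x hx
  show ‖‖sm mu E x - sm lam E x‖ ^ 2‖ ≤ _
  rw [Real.norm_of_nonneg (sq_nonneg _)]
  have h1 := sm_ptw2 h hc hc1 hm hm1 hx.1
  have h2 := sm_ptw2 h hc hc1 hl hl1 hx.1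
  have h3 : x ^ (2 * c) ≤ X ^ (2 * c) := Real.rpow_le_rpow hx.1.le hx.2 (by linarith)
  have h4 : 0 ≤ Q2 mu (nH H c) := sq_nonneg _
  have h5 : 0 ≤ Q2 lam (nH H c) := sq_nonneg _
  have h6 := p6_sq (sm mu E x) (sm lam E x)
  have h7 := mul_le_mul_of_nonneg_right h3 h4
  have h8 := mul_le_mul_of_nonneg_right h3 h5
  nlinarith

theorem p6_ae (X : ℝ) :
    ∀ᵐ x : ℝ ∂(volume.restrict (Set.Ioc (0 : ℝ) X)), 0 < x ∧ ∀ n : ℕ, x ≠ (n : ℝ) := by
  have h1 : ∀ᵐ x ∂(volume : Measure ℝ), x ∉ Set.range (fun n : ℕ => (n : ℝ)) :=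
    (Set.countable_range (fun n : ℕ => (n : ℝ))).ae_notMem volume
  filter_upwards [ae_restrict_mem measurableSet_Ioc, ae_restrict_of_ae h1] with x hx hx1
  exact ⟨hx.1, fun n hn => hx1 ⟨n, hn.symm⟩⟩

theorem fat2_pr {E : ℝ → ℂ} {H : ℂ → ℂ} {c : ℝ} (h : Rep E H c) (hc : 1 / 2 ≤ c) (hc1 : c ≤ 1)
    {lam : ℝ} (hl : 0 < lam) (hl1 : lam ≤ 1)
    (hint : Integrable (fun t => nH H c t ^ 2 / (1 + t ^ 2))) {X : ℝ} (hX : 0 < X) :
    IntervalIntegrable (fun x => ‖E x - sm lam E x‖ ^ 2) volume 0 X ∧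
    ∫ x in (0 : ℝ)..X, ‖E x - sm lam E x‖ ^ 2 ≤ 1000 * X ^ (2 * c + 1) * Q3 lam (nH H c) := by
  set B : ℝ := 1000 * X ^ (2 * c + 1) * Q3 lam (nH H c) with hB
  set ν : Measure ℝ := volume.restrict (Set.Ioc 0 X) with hν
  let mu : ℕ → ℝ := fun k => lam / (k + 1)
  have hk1 : ∀ k : ℕ, (1 : ℝ) ≤ k + 1 := fun k => by
    have : (0 : ℝ) ≤ k := Nat.cast_nonneg k
    linarith
  have hmu : ∀ k, 0 < mu k := fun k => div_pos hl (by linarith [hk1 k])
  have hml : ∀ k, mu k ≤ lam := fun k => div_le_self hl.le (hk1 k)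
  have hm1 : ∀ k, mu k ≤ 1 := fun k => (hml k).trans hl1
  -- the bound for the approximations
  have hF : ∀ k, ∫⁻ x, ENNReal.ofReal (‖sm (mu k) E x - sm lam E x‖ ^ 2) ∂ν ≤ ENNReal.ofReal B := by
    intro k
    have h1 := fat_two2 h hc hc1 (hmu k) (hml k) hl1 hint hX
    rw [intervalIntegral.integral_of_le hX.le] at h1
    have h2 := p6_int h hc hc1 (hmu k) (hm1 k) hl hl1 X
    rw [← ofReal_integral_eq_lintegral_ofReal h2 (Filter.Eventually.of_forall fun x => sq_nonneg _)]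
    exact ENNReal.ofReal_le_ofReal h1
  have hB0 : 0 ≤ B := by
    have h1 := fat_two2 h hc hc1 hl le_rfl hl1 hint hX
    refine le_trans ?_ h1
    exact intervalIntegral.integral_nonneg hX.le fun x _ => sq_nonneg _
  have hmE : AEStronglyMeasurable (fun x => ‖E x - sm lam E x‖ ^ 2) ν :=
    (h.meas.aestronglyMeasurable.sub (p6_meas h hc hc1 hl X)).norm.pow 2
  have hmF : ∀ k, AEMeasurable (fun x => ENNReal.ofReal (‖sm (mu k) E x - sm lam E x‖ ^ 2)) ν :=
    fun k => ((((p6_meas h hc hc1 (hmu k) X).sub (p6_meas h hc hc1 hl X)).norm.pow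
      2).aemeasurable).ennreal_ofReal
  have hlim : Filter.Tendsto mu Filter.atTop (nhdsWithin 0 (Set.Ioi 0)) := by
    rw [tendsto_nhdsWithin_iff]
    refine ⟨?_, Filter.Eventually.of_forall hmu⟩
    have h1 := (tendsto_one_div_add_atTop_nhds_zero_nat (𝕜 := ℝ)).const_mul lam
    rw [mul_zero] at h1
    refine h1.congr fun k => ?_
    show lam * (1 / ((k : ℝ) + 1)) = lam / (k + 1)
    rw [mul_one_div]
  have hle : ∫⁻ x, ENNReal.ofReal (‖E x - sm lam E x‖ ^ 2) ∂ν ≤ ENNReal.ofReal B := by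
    have h1 : ∫⁻ x, ENNReal.ofReal (‖E x - sm lam E x‖ ^ 2) ∂ν =
        ∫⁻ x, Filter.liminf (fun k => ENNReal.ofReal (‖sm (mu k) E x - sm lam E x‖ ^ 2))
          Filter.atTop ∂ν := by
      refine lintegral_congr_ae ?_
      filter_upwards [p6_ae X] with x hx
      have h2 := (fat_lim h hx.1 hx.2).comp hlim
      have h3 : Filter.Tendsto (fun k => ENNReal.ofReal (‖sm (mu k) E x - sm lam E x‖ ^ 2))
          Filter.atTop (nhds (ENNReal.ofReal (‖E x - sm lam E x‖ ^ 2))) :=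
        ENNReal.tendsto_ofReal (((h2.sub_const _).norm).pow 2)
      exact h3.liminf_eq.symm
    rw [h1]
    refine (lintegral_liminf_le' hmF).trans ?_
    refine Filter.liminf_le_of_frequently_le' (Filter.Frequently.of_forall hF)
  have hI : Integrable (fun x => ‖E x - sm lam E x‖ ^ 2) ν := by
    refine ⟨hmE, ?_⟩
    rw [hasFiniteIntegral_iff_ofReal (Filter.Eventually.of_forall fun x => sq_nonneg _)]
    exact hle.trans_lt ENNReal.ofReal_lt_top
  refine ⟨(intervalIntegrable_iff_integrableOn_Ioc_of_le hX.le).2 hI, ?_⟩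
  rw [intervalIntegral.integral_of_le hX.le,
    integral_eq_lintegral_of_nonneg_ae (Filter.Eventually.of_forall fun x => sq_nonneg _) hmE]
  exact ENNReal.toReal_le_of_le_ofReal hB0 hle

end Pool.Agent.XT

namespace Pool.Agent.XT

theorem fat2 : type_of% @fat2_pr := @fat2_pr

end Pool.Agent.XT

/-! ### Block O2 -/

/-! XT, block O2: the exponential sum of a sum of two functions. -/

namespace Pool.Agent.XT

open Finset Complex MeasureTheory Pool.Agent.Var35 Pool.Agent.Var73 Pool.Agent.HC Pool.Agent.MF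
  Pool.Agent.XS
open scoped ArithmeticFunction ArithmeticFunction.Moebius

theorem rep_zero_pr (c : ℝ) : Rep (fun _ => 0) (fun _ => 0) c where
  meas := measurable_const
  cont := fun _ _ => continuousAt_const
  zero := fun _ _ => rfl
  bound := ⟨0, fun x _ => by simp⟩
  mellin := fun t => by simp
  diff := ⟨c - 1, by linarith, differentiableOn_const 0⟩
  growth := ⟨0, 0, fun s _ _ => by simp⟩

theorem o2_sm_cont {E : ℝ → ℂ} {H : ℂ → ℂ} {c : ℝ} (h : Rep E H c) (hc : 1 / 2 ≤ c)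
    (hc1 : c ≤ 1) {lam : ℝ} (hl : 0 < lam) (hl1 : lam ≤ 1) (X : ℝ) :
    ContinuousOn (sm lam E) (Set.Icc 0 X) := by
  intro x hx
  rcases eq_or_lt_of_le hx.1 with h0 | h0
  · subst h0
    rw [ContinuousWithinAt, one_sm_zero h]
    rw [tendsto_zero_iff_norm_tendsto_zero]
    have hlim : Filter.Tendsto (fun x : ℝ => Real.sqrt (16 * x ^ (2 * c) * Q2 lam (nH H c)))
        (nhdsWithin 0 (Set.Icc 0 X)) (nhds 0) := by
      have h1 : Continuous (fun x : ℝ => Real.sqrt (16 * x ^ (2 * c) * Q2 lam (nH H c))) := by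
        have h2 : Continuous (fun x : ℝ => x ^ (2 * c)) :=
          Real.continuous_rpow_const (by linarith)
        fun_prop
      have h3 := (h1.tendsto 0).mono_left (nhdsWithin_le_nhds (s := Set.Icc 0 X))
      rw [Real.zero_rpow (by linarith)] at h3
      simpa using h3
    refine squeeze_zero' (Filter.Eventually.of_forall fun x => norm_nonneg _) ?_ hlim
    refine Filter.eventually_of_mem self_mem_nhdsWithin fun x hx => ?_
    rcases eq_or_lt_of_le hx.1 with h0 | h0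
    · rw [← h0, one_sm_zero h, norm_zero]
      exact Real.sqrt_nonneg _
    · apply Real.le_sqrt_of_sq_le
      exact sm_ptw2 h hc hc1 hl hl1 h0
  · exact (sm_deriv2 h hc hc1 hl h0).continuousAt.continuousWithinAt

theorem o2_gd {E : ℝ → ℂ} {H : ℂ → ℂ} {c : ℝ} (h : Rep E H c) (hc : 1 / 2 ≤ c)
    (hc1 : c ≤ 1) {lam : ℝ} (hl : 0 < lam) (hl1 : lam ≤ 1) {X : ℝ} (hX : 0 < X) :
    AEStronglyMeasurable (gd lam H c) (volume.restrict (Set.Ioc 0 X)) ∧
      IntervalIntegrable (gd lam H c) volume 0 X := by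
  have hgm : AEStronglyMeasurable (gd lam H c) (volume.restrict (Set.Ioc 0 X)) :=
    ((gd_cont2 h hc hc1 hl).mono (fun x hx => hx.1)).aestronglyMeasurable measurableSet_Ioc
  exact ⟨hgm, one_l2 hX.le hgm (gd_l2_2 h hc hc1 hl hl1 hX).1⟩

/-- integration by parts for the smoothing -/
theorem o2_parts {E : ℝ → ℂ} {H : ℂ → ℂ} {c : ℝ} (h : Rep E H c) (hc : 1 / 2 ≤ c)
    (hc1 : c ≤ 1) {lam : ℝ} (hl : 0 < lam) (hl1 : lam ≤ 1) {X : ℝ} (hX : 1 ≤ X) (β : ℝ) :
    Bf (sm lam E) X β = ∫ x in (0 : ℝ)..X, gd lam H c x * e (x * β) := by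
  have hX0 : 0 < X := by linarith
  have hG : ContinuousOn (sm lam E) (Set.Icc 0 X) := o2_sm_cont h hc hc1 hl hl1 X
  have hGi : IntervalIntegrable (sm lam E) volume 0 X :=
    (hG.mono (by rw [Set.uIcc_of_le hX0.le])).intervalIntegrable
  have hgi : IntervalIntegrable (gd lam H c) volume 0 X := (o2_gd h hc hc1 hl hl1 hX0).2
  have h1 := intervalIntegral.integral_eq_sub_of_hasDerivAt_of_le hX0.le
    (f := fun x => sm lam E x * e (x * β))
    (f' := fun x => gd lam H c x * e (x * β) +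
      sm lam E x * (((2 * Real.pi * β : ℝ) : ℂ) * I * e (x * β)))
    (hG.mul (one_e_cont.comp (by fun_prop)).continuousOn)
    (fun x hx => (sm_deriv2 h hc hc1 hl hx.1).mul (one_e_deriv β x))
    ((one_ii hgi β).add (by
      have := (one_ii hGi β).const_mul (((2 * Real.pi * β : ℝ) : ℂ) * I)
      refine this.congr fun x _ => ?_
      ring))
  rw [intervalIntegral.integral_add (one_ii hgi β) (by
      have := (one_ii hGi β).const_mul (((2 * Real.pi * β : ℝ) : ℂ) * I)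
      refine this.congr fun x _ => ?_
      ring)] at h1
  have h2 : ∫ x in (0 : ℝ)..X, sm lam E x * (((2 * Real.pi * β : ℝ) : ℂ) * I * e (x * β)) =
      ((2 * Real.pi * β : ℝ) : ℂ) * I * ∫ x in (0 : ℝ)..X, sm lam E x * e (x * β) := by
    rw [← intervalIntegral.integral_const_mul]
    refine intervalIntegral.integral_congr fun x _ => ?_
    ring
  rw [h2, one_sm_zero h, zero_mul, sub_zero] at h1
  unfold Bf
  rw [mul_comm (e (X * β)), ← h1]
  ring

theorem o2_gauss {E : ℝ → ℂ} {H : ℂ → ℂ} {c : ℝ} (h : Rep E H c) {lam X : ℝ} (hl : 0 < lam)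
    (hX : 0 ≤ X) :
    Integrable (fun v : ℝ => E (X * Real.exp (-v)) * (Real.exp (-(v ^ 2 / (4 * lam))) : ℂ)) := by
  obtain ⟨A, hA⟩ := h.bound
  have hb : ∀ y : ℝ, 0 ≤ y → ‖(((2 / (|A| + 1) : ℝ) : ℂ)) * E y‖ ≤ 2 * y ^ 3 := by
    intro y hy
    rw [norm_mul, Complex.norm_real, Real.norm_eq_abs, abs_of_pos (by positivity)]
    rcases lt_or_ge y 1 with h1 | h1
    · rw [h.zero y h1, norm_zero, mul_zero]
      positivity
    · have h2 : ‖E y‖ ≤ (|A| + 1) * y ^ 3 := by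
        calc ‖E y‖ ≤ A * y ^ (3 / 2 : ℝ) := hA y h1
          _ ≤ (|A| + 1) * y ^ (3 : ℝ) := by
              apply mul_le_mul (by linarith [le_abs_self A])
                (Real.rpow_le_rpow_of_exponent_le h1 (by norm_num))
                (Real.rpow_nonneg hy _) (by positivity)
          _ = (|A| + 1) * y ^ 3 := by norm_cast
      calc 2 / (|A| + 1) * ‖E y‖ ≤ 2 / (|A| + 1) * ((|A| + 1) * y ^ 3) := by gcongr
        _ = 2 * y ^ 3 := by field_simp
  have h3 := ke2_gauss (E := fun y => (((2 / (|A| + 1) : ℝ) : ℂ)) * E y)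
    (h.meas.const_mul _) hb hl hX
  have h4 := h3.const_mul (((|A| + 1) / 2 : ℝ) : ℂ)
  refine h4.congr (Filter.Eventually.of_forall fun v => ?_)
  have h5 : (((|A| + 1) / 2 : ℝ) : ℂ) * (((2 / (|A| + 1) : ℝ) : ℂ)) = 1 := by
    rw [← Complex.ofReal_mul, ← Complex.ofReal_one]
    congr 1
    have : |A| + 1 ≠ 0 := by positivity
    field_simp
  calc (((|A| + 1) / 2 : ℝ) : ℂ) * ((((2 / (|A| + 1) : ℝ) : ℂ)) * E (X * Real.exp (-v)) *
        (Real.exp (-(v ^ 2 / (4 * lam))) : ℂ))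
      = ((((|A| + 1) / 2 : ℝ) : ℂ) * (((2 / (|A| + 1) : ℝ) : ℂ))) * (E (X * Real.exp (-v)) *
        (Real.exp (-(v ^ 2 / (4 * lam))) : ℂ)) := by ring
    _ = _ := by rw [h5, one_mul]

theorem o2_sm_add {E₁ E₂ : ℝ → ℂ} {H₁ H₂ : ℂ → ℂ} {c₁ c₂ : ℝ}
    (h₁ : Rep E₁ H₁ c₁) (h₂ : Rep E₂ H₂ c₂) {lam x : ℝ} (hl : 0 < lam) (hx : 0 ≤ x) :
    sm lam (fun y => E₁ y + E₂ y) x = sm lam E₁ x + sm lam E₂ x := by
  unfold sm
  rw [← mul_add, ← integral_add (o2_gauss h₁ hl hx) (o2_gauss h₂ hl hx)]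
  congr 1
  refine integral_congr_ae (Filter.Eventually.of_forall fun v => ?_)
  ring

theorem o2_four (a b c : ℂ) : ‖a + b + c‖ ^ 2 ≤ 3 * ‖a‖ ^ 2 + 3 * ‖b‖ ^ 2 + 3 * ‖c‖ ^ 2 := by
  have h1 : ‖a + b + c‖ ≤ ‖a‖ + ‖b‖ + ‖c‖ :=
    (norm_add_le _ _).trans (by linarith [norm_add_le a b])
  calc ‖a + b + c‖ ^ 2 ≤ (‖a‖ + ‖b‖ + ‖c‖) ^ 2 := pow_le_pow_left₀ (norm_nonneg _) h1 2
    _ ≤ _ := by
      nlinarith [sq_nonneg (‖a‖ - ‖b‖), sq_nonneg (‖b‖ - ‖c‖), sq_nonneg (‖a‖ - ‖c‖)]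

theorem one2_pr {E E₁ E₂ : ℝ → ℂ} {H₁ H₂ : ℂ → ℂ} {c₁ c₂ : ℝ} (hE : ∀ x, E x = E₁ x + E₂ x)
    (h₁ : Rep E₁ H₁ c₁) (h₂ : Rep E₂ H₂ c₂) (hc₁ : 1 / 2 ≤ c₁) (hc₁' : c₁ ≤ 1)
    (hc₂ : 1 / 2 ≤ c₂) (hc₂' : c₂ ≤ 1) {lam : ℝ} (hl : 0 < lam) (hl1 : lam ≤ 1)
    (hint₁ : Integrable (fun t => nH H₁ c₁ t ^ 2 / (1 + t ^ 2)))
    (hint₂ : Integrable (fun t => nH H₂ c₂ t ^ 2 / (1 + t ^ 2))) {X Δ : ℝ} (hX : 1 ≤ X)
    (hΔ : 0 ≤ Δ) :
    ∫ β in (-Δ)..Δ, ‖Bf E X β‖ ^ 2 ≤ 1000000 * (X ^ (2 * c₁ - 1) * Q1 lam (nH H₁ c₁) +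
      X ^ (2 * c₂ - 1) * Q1 lam (nH H₂ c₂) + Δ * ‖E X - sm lam E X‖ ^ 2 +
      Δ ^ 2 * (X ^ (2 * c₁ + 1) * Q3 lam (nH H₁ c₁) +
        X ^ (2 * c₂ + 1) * Q3 lam (nH H₂ c₂))) := by
  have hX0 : 0 < X := by linarith
  obtain rfl : E = fun x => E₁ x + E₂ x := funext hE
  have hG₁ : ContinuousOn (sm lam E₁) (Set.Icc 0 X) := o2_sm_cont h₁ hc₁ hc₁' hl hl1 X
  have hG₂ : ContinuousOn (sm lam E₂) (Set.Icc 0 X) := o2_sm_cont h₂ hc₂ hc₂' hl hl1 X
  have hGi₁ : IntervalIntegrable (sm lam E₁) volume 0 X :=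
    (hG₁.mono (by rw [Set.uIcc_of_le hX0.le])).intervalIntegrable
  have hGi₂ : IntervalIntegrable (sm lam E₂) volume 0 X :=
    (hG₂.mono (by rw [Set.uIcc_of_le hX0.le])).intervalIntegrable
  obtain ⟨hgm₁, hgi₁⟩ := o2_gd h₁ hc₁ hc₁' hl hl1 hX0
  obtain ⟨hgm₂, hgi₂⟩ := o2_gd h₂ hc₂ hc₂' hl hl1 hX0
  have hg₁ := gd_l2_2 h₁ hc₁ hc₁' hl hl1 hX0
  have hg₂ := gd_l2_2 h₂ hc₂ hc₂' hl hl1 hX0
  have hE₁i := one_E_ii h₁ hX
  have hE₂i := one_E_ii h₂ hX
  set D : ℝ → ℂ := fun x => (E₁ x - sm lam E₁ x) + (E₂ x - sm lam E₂ x) with hD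
  have hD₁i : IntervalIntegrable (fun x => E₁ x - sm lam E₁ x) volume 0 X := hE₁i.sub hGi₁
  have hD₂i : IntervalIntegrable (fun x => E₂ x - sm lam E₂ x) volume 0 X := hE₂i.sub hGi₂
  have hDi : IntervalIntegrable D volume 0 X := hD₁i.add hD₂i
  have hDm : AEStronglyMeasurable D (volume.restrict (Set.Ioc 0 X)) := by
    rw [intervalIntegrable_iff_integrableOn_Ioc_of_le hX0.le] at hDi
    exact hDi.aestronglyMeasurable
  have hfat₁ := fat2 h₁ hc₁ hc₁' hl hl1 hint₁ hX0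
  have hfat₂ := fat2 h₂ hc₂ hc₂' hl hl1 hint₂ hX0
  have hle : -Δ ≤ Δ := by linarith
  -- mean square of D
  have hDpt : ∀ x, ‖D x‖ ^ 2 ≤ 2 * ‖E₁ x - sm lam E₁ x‖ ^ 2 + 2 * ‖E₂ x - sm lam E₂ x‖ ^ 2 := by
    intro x
    have h1 := norm_add_le (E₁ x - sm lam E₁ x) (E₂ x - sm lam E₂ x)
    calc ‖D x‖ ^ 2 ≤ (‖E₁ x - sm lam E₁ x‖ + ‖E₂ x - sm lam E₂ x‖) ^ 2 :=
          pow_le_pow_left₀ (norm_nonneg _) h1 2
      _ ≤ _ := by nlinarith [sq_nonneg (‖E₁ x - sm lam E₁ x‖ - ‖E₂ x - sm lam E₂ x‖)]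
  have hsum : IntervalIntegrable (fun x => 2 * ‖E₁ x - sm lam E₁ x‖ ^ 2 +
      2 * ‖E₂ x - sm lam E₂ x‖ ^ 2) volume 0 X :=
    (hfat₁.1.const_mul 2).add (hfat₂.1.const_mul 2)
  have hD2 : IntervalIntegrable (fun x => ‖D x‖ ^ 2) volume 0 X := by
    rw [intervalIntegrable_iff_integrableOn_Ioc_of_le hX0.le] at hsum ⊢
    refine hsum.mono' (hDm.norm.pow 2) (Filter.Eventually.of_forall fun x => ?_)
    rw [Real.norm_of_nonneg (sq_nonneg _)]
    exact hDpt x
  have hDI : ∫ x in (0 : ℝ)..X, ‖D x‖ ^ 2 ≤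
      2 * (1000 * X ^ (2 * c₁ + 1) * Q3 lam (nH H₁ c₁)) +
      2 * (1000 * X ^ (2 * c₂ + 1) * Q3 lam (nH H₂ c₂)) := by
    calc ∫ x in (0 : ℝ)..X, ‖D x‖ ^ 2
        ≤ ∫ x in (0 : ℝ)..X, (2 * ‖E₁ x - sm lam E₁ x‖ ^ 2 +
            2 * ‖E₂ x - sm lam E₂ x‖ ^ 2) :=
          intervalIntegral.integral_mono_on hX0.le hD2 hsum (fun x _ => hDpt x)
      _ = 2 * (∫ x in (0 : ℝ)..X, ‖E₁ x - sm lam E₁ x‖ ^ 2) +
          2 * ∫ x in (0 : ℝ)..X, ‖E₂ x - sm lam E₂ x‖ ^ 2 := by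
          rw [intervalIntegral.integral_add (hfat₁.1.const_mul 2) (hfat₂.1.const_mul 2),
            intervalIntegral.integral_const_mul, intervalIntegral.integral_const_mul]
      _ ≤ _ := by
          have h3 := hfat₁.2
          have h4 := hfat₂.2
          linarith
  set J₁ := fun β : ℝ => ∫ x in (0 : ℝ)..X, gd lam H₁ c₁ x * e (x * β) with hJ₁
  set J₂ := fun β : ℝ => ∫ x in (0 : ℝ)..X, gd lam H₂ c₂ x * e (x * β) with hJ₂
  have hdec : ∀ β, Bf (fun x => E₁ x + E₂ x) X β = J₁ β + J₂ β + Bf D X β := by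
    intro β
    simp only [hJ₁, hJ₂]
    rw [← o2_parts h₁ hc₁ hc₁' hl hl1 hX β, ← o2_parts h₂ hc₂ hc₂' hl hl1 hX β,
      ← one_Bf_add hGi₁ hGi₂ β, ← one_Bf_add (hGi₁.add hGi₂) hDi β]
    congr 1
    funext x
    simp only [hD]
    ring
  have hcJ₁ : Continuous J₁ := one_cont_int hgi₁
  have hcJ₂ : Continuous J₂ := one_cont_int hgi₂
  have hcD : Continuous (Bf D X) := one_Bf_cont hDi
  have hcE : Continuous (Bf (fun x => E₁ x + E₂ x) X) := one_Bf_cont (hE₁i.add hE₂i)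
  have hpt : ∀ β ∈ Set.Icc (-Δ) Δ, ‖Bf (fun x => E₁ x + E₂ x) X β‖ ^ 2 ≤
      3 * ‖J₁ β‖ ^ 2 + 3 * ‖J₂ β‖ ^ 2 + 3 * ‖Bf D X β‖ ^ 2 := by
    intro β _
    rw [hdec β]
    exact o2_four _ _ _
  have hk1 : Continuous (fun β => 3 * ‖J₁ β‖ ^ 2) := continuous_const.mul (hcJ₁.norm.pow 2)
  have hk2 : Continuous (fun β => 3 * ‖J₂ β‖ ^ 2) := continuous_const.mul (hcJ₂.norm.pow 2)
  have hk3 : Continuous (fun β => 3 * ‖Bf D X β‖ ^ 2) := continuous_const.mul (hcD.norm.pow 2)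
  have hk12 : Continuous (fun β => 3 * ‖J₁ β‖ ^ 2 + 3 * ‖J₂ β‖ ^ 2) := hk1.add hk2
  have hk4 : Continuous (fun β => 3 * ‖J₁ β‖ ^ 2 + 3 * ‖J₂ β‖ ^ 2 + 3 * ‖Bf D X β‖ ^ 2) :=
    hk12.add hk3
  have hI1 : ∫ β in (-Δ)..Δ, ‖Bf (fun x => E₁ x + E₂ x) X β‖ ^ 2 ≤
      3 * (∫ β in (-Δ)..Δ, ‖J₁ β‖ ^ 2) + 3 * (∫ β in (-Δ)..Δ, ‖J₂ β‖ ^ 2) +
      3 * ∫ β in (-Δ)..Δ, ‖Bf D X β‖ ^ 2 := by
    rw [← intervalIntegral.integral_const_mul, ← intervalIntegral.integral_const_mul,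
      ← intervalIntegral.integral_const_mul,
      ← intervalIntegral.integral_add (hk1.intervalIntegrable _ _) (hk2.intervalIntegrable _ _),
      ← intervalIntegral.integral_add (hk12.intervalIntegrable _ _)
        (hk3.intervalIntegrable _ _)]
    exact intervalIntegral.integral_mono_on hle ((hcE.norm.pow 2).intervalIntegrable _ _)
      (hk4.intervalIntegrable _ _) hpt
  have hI2 : ∫ β in (-Δ)..Δ, ‖J₁ β‖ ^ 2 ≤ 2 * X ^ (2 * c₁ - 1) * Q1 lam (nH H₁ c₁) :=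
    (bes (gd lam H₁ c₁) hX0.le hΔ hgm₁ hg₁.1).trans hg₁.2
  have hI3 : ∫ β in (-Δ)..Δ, ‖J₂ β‖ ^ 2 ≤ 2 * X ^ (2 * c₂ - 1) * Q1 lam (nH H₂ c₂) :=
    (bes (gd lam H₂ c₂) hX0.le hΔ hgm₂ hg₂.1).trans hg₂.2
  have hI4 := one_Bf_bound hX0.le hΔ hDm hD2
  have hDX : D X = (E₁ X + E₂ X) - sm lam (fun y => E₁ y + E₂ y) X := by
    rw [o2_sm_add h₁ h₂ hl hX0.le]
    simp only [hD]
    ring
  rw [hDX] at hI4
  have hq1 := one_Q1 lam (nH H₁ c₁)
  have hq2 := one_Q1 lam (nH H₂ c₂)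
  have hq3 := one_Q3 lam (nH H₁ c₁)
  have hq4 := one_Q3 lam (nH H₂ c₂)
  have hx1 : 0 ≤ X ^ (2 * c₁ - 1) := Real.rpow_nonneg hX0.le _
  have hx2 : 0 ≤ X ^ (2 * c₂ - 1) := Real.rpow_nonneg hX0.le _
  have hx3 : 0 ≤ X ^ (2 * c₁ + 1) := Real.rpow_nonneg hX0.le _
  have hx4 : 0 ≤ X ^ (2 * c₂ + 1) := Real.rpow_nonneg hX0.le _
  have ha : 0 ≤ X ^ (2 * c₁ - 1) * Q1 lam (nH H₁ c₁) := by positivity
  have hb : 0 ≤ X ^ (2 * c₂ - 1) * Q1 lam (nH H₂ c₂) := by positivity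
  have hc : 0 ≤ Δ * ‖(E₁ X + E₂ X) - sm lam (fun y => E₁ y + E₂ y) X‖ ^ 2 := by positivity
  have hd : 0 ≤ Δ ^ 2 * (X ^ (2 * c₁ + 1) * Q3 lam (nH H₁ c₁)) := by positivity
  have he : 0 ≤ Δ ^ 2 * (X ^ (2 * c₂ + 1) * Q3 lam (nH H₂ c₂)) := by positivity
  have hI5 : 80 * Δ ^ 2 * ∫ x in (0 : ℝ)..X, ‖D x‖ ^ 2 ≤
      160000 * (Δ ^ 2 * (X ^ (2 * c₁ + 1) * Q3 lam (nH H₁ c₁))) +
      160000 * (Δ ^ 2 * (X ^ (2 * c₂ + 1) * Q3 lam (nH H₂ c₂))) := by
    calc 80 * Δ ^ 2 * ∫ x in (0 : ℝ)..X, ‖D x‖ ^ 2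
        ≤ 80 * Δ ^ 2 * (2 * (1000 * X ^ (2 * c₁ + 1) * Q3 lam (nH H₁ c₁)) +
          2 * (1000 * X ^ (2 * c₂ + 1) * Q3 lam (nH H₂ c₂))) := by gcongr
      _ = _ := by ring
  nlinarith

theorem rep_zero : type_of% @rep_zero_pr := @rep_zero_pr

theorem one2 : type_of% @one2_pr := @one2_pr

end Pool.Agent.XT

/-! ### Block FA -/

/-!
# Block FA (helper76): low frequencies, two powers
-/

namespace Pool.Agent.XT

open Finset Complex MeasureTheory Pool.Agent.Var35 Pool.Agent.Var73 Pool.Agent.HC Pool.Agent.MF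
  Pool.Agent.XS
open scoped ArithmeticFunction ArithmeticFunction.Moebius

/-- the bound for all `t ≥ 0` -/
theorem fa_all {p q A B : ℝ} (hp : 0 ≤ p) (hq : 0 ≤ q) (hA : 0 ≤ A) (hB : 0 ≤ B) {ι : Type}
    {S : Finset ι} {h : ι → ℝ → ℝ} (hc : ∀ i ∈ S, Continuous (h i))
    (hM : ∀ T : ℝ, 1 ≤ T → ∑ i ∈ S, ∫ t in (-T)..T, h i t ^ 2 ≤ A * T ^ p + B * T ^ q) {t : ℝ}
    (ht : 0 ≤ t) : ∑ i ∈ S, ∫ u in (-t)..t, h i u ^ 2 ≤
      A * (max 1 (t ^ 2)) ^ (p / 2) + B * (max 1 (t ^ 2)) ^ (q / 2) := by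
  rcases le_total t 1 with h1 | h1
  · refine (fm1_mono hc ht h1).trans ((hM 1 le_rfl).trans ?_)
    rw [Real.one_rpow, Real.one_rpow]
    refine add_le_add (mul_le_mul_of_nonneg_left ?_ hA) (mul_le_mul_of_nonneg_left ?_ hB)
    · exact Real.one_le_rpow (le_max_left _ _) (by positivity)
    · exact Real.one_le_rpow (le_max_left _ _) (by positivity)
  · have h2 : ∀ r : ℝ, t ^ r = (t ^ 2) ^ (r / 2) := by
      intro r
      rw [← Real.rpow_natCast t 2, ← Real.rpow_mul ht]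
      congr 1
      push_cast
      ring
    refine (hM t h1).trans (add_le_add (mul_le_mul_of_nonneg_left ?_ hA)
      (mul_le_mul_of_nonneg_left ?_ hB))
    · rw [h2 p]
      exact Real.rpow_le_rpow (by positivity) (le_max_right _ _) (by positivity)
    · rw [h2 q]
      exact Real.rpow_le_rpow (by positivity) (le_max_right _ _) (by positivity)

theorem fa_pow {lam : ℝ} (hl : 0 < lam) (hl1 : lam ≤ 1) {p : ℝ} (hp : 0 ≤ p) (hp1 : p ≤ 3 / 2)
    (t : ℝ) : (max 1 (t ^ 2)) ^ (p / 2) ≤ lam ^ (-(p / 2)) * (1 + lam * t ^ 2) := by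
  have h1 : max 1 (t ^ 2) ≤ lam⁻¹ * (1 + lam * t ^ 2) := by
    rw [mul_add, ← mul_assoc, inv_mul_cancel₀ hl.ne', one_mul, mul_one]
    have h2 : 1 ≤ lam⁻¹ := (one_le_inv₀ hl).2 hl1
    exact max_le (by nlinarith [sq_nonneg t]) (by linarith)
  refine (Real.rpow_le_rpow (by positivity) h1 (by positivity)).trans ?_
  rw [Real.mul_rpow (by positivity) (by positivity), Real.rpow_neg hl.le,
    Real.inv_rpow hl.le]
  refine mul_le_mul_of_nonneg_left ?_ (by positivity)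
  conv_rhs => rw [← Real.rpow_one (1 + lam * t ^ 2)]
  refine Real.rpow_le_rpow_of_exponent_le ?_ (by linarith)
  have : 0 ≤ lam * t ^ 2 := by positivity
  linarith

/-- FA: low frequencies, two powers -/
theorem fam_q1_pr {p q : ℝ} (hp : 0 ≤ p) (hp1 : p ≤ 3 / 2) (hq : 0 ≤ q) (hq1 : q ≤ 3 / 2) :
    ∃ C : ℝ, 1 ≤ C ∧ ∀ (ι : Type) (S : Finset ι) (h : ι → ℝ → ℝ), (∀ i ∈ S, Continuous (h i)) →
    ∀ A B : ℝ, 0 ≤ A → 0 ≤ B →
    (∀ T : ℝ, 1 ≤ T → ∑ i ∈ S, ∫ t in (-T)..T, h i t ^ 2 ≤ A * T ^ p + B * T ^ q) →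
    ∀ lam : ℝ, 0 < lam → lam ≤ 1 →
    ∑ i ∈ S, Q1 lam (h i) ≤ C * (A * lam ^ (-(p / 2)) + B * lam ^ (-(q / 2))) := by
  refine ⟨3 / 2, by norm_num, ?_⟩
  intro ι S h hc A B hA hB0 hM lam hl hl1
  set K : ℝ := A * lam ^ (-(p / 2)) + B * lam ^ (-(q / 2)) with hK
  have hK0 : 0 ≤ K := by positivity
  have hder : ∀ t : ℝ, HasDerivAt (fun t : ℝ => Real.exp (-(2 * lam * t ^ 2)))
      (-(4 * lam * t) * Real.exp (-(2 * lam * t ^ 2))) t := by
    intro t
    have h1 : HasDerivAt (fun t : ℝ => -(2 * lam * t ^ 2)) (-(4 * lam * t)) t := by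
      have := ((hasDerivAt_pow 2 t).const_mul (2 * lam)).neg
      refine this.congr_deriv ?_
      push_cast
      ring
    refine (h1.exp).congr_deriv ?_
    ring
  have hwc : Continuous fun t : ℝ => Real.exp (-(2 * lam * t ^ 2)) := by fun_prop
  have hB : ∀ t : ℝ, 0 ≤ t → ∑ i ∈ S, ∫ u in (-t)..t, h i u ^ 2 ≤ K * (1 + lam * t ^ 2) := by
    intro t ht
    refine (fa_all hp hq hA hB0 hc hM ht).trans ?_
    rw [hK, add_mul, mul_assoc, mul_assoc]
    exact add_le_add (mul_le_mul_of_nonneg_left (fa_pow hl hl1 hp hp1 t) hA)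
      (mul_le_mul_of_nonneg_left (fa_pow hl hl1 hq hq1 t) hB0)
  have key : ∀ T : ℝ, 0 ≤ T →
      ∑ i ∈ S, ∫ t in (-T)..T, h i t ^ 2 * Real.exp (-(2 * lam * t ^ 2)) ≤ 3 / 2 * K := by
    intro T hT
    have h1 := fm1_parts S h hc
      (w := fun t => Real.exp (-(2 * lam * t ^ 2)))
      (w' := fun t => -(4 * lam * t) * Real.exp (-(2 * lam * t ^ 2)))
      (B := fun t => K * (1 + lam * t ^ 2))
      (P := fun t => -K * ((3 / 2 + lam * t ^ 2) * Real.exp (-(2 * lam * t ^ 2))))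
      (P' := fun t => -K * ((2 * lam * t) * Real.exp (-(2 * lam * t ^ 2)) +
        (3 / 2 + lam * t ^ 2) * (-(4 * lam * t) * Real.exp (-(2 * lam * t ^ 2)))))
      hder (by fun_prop) (fun t => by simp only [neg_sq]) (fun t => (Real.exp_pos _).le)
      (fun t ht => by
        rw [neg_mul, neg_nonpos]
        positivity)
      hB
      (fun t => by
        have h2 : HasDerivAt (fun t : ℝ => 3 / 2 + lam * t ^ 2) (2 * lam * t) t := by
          have := ((hasDerivAt_pow 2 t).const_mul lam).const_add (3 / 2)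
          refine this.congr_deriv ?_
          push_cast
          ring
        exact (h2.mul (hder t)).const_mul _)
      (by fun_prop)
      (fun t ht => by
        apply le_of_eq
        ring)
      hT
    refine h1.trans ?_
    have h3 : 0 < Real.exp (-(2 * lam * T ^ 2)) := Real.exp_pos _
    have h4 : Real.exp (-(2 * lam * (0 : ℝ) ^ 2)) = 1 := by norm_num
    simp only [h4]
    nlinarith [mul_nonneg hK0 h3.le]
  have hint : ∀ i ∈ S, Integrable (fun t => h i t ^ 2 * Real.exp (-(2 * lam * t ^ 2))) := by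
    intro i hi
    refine fm1_integrable (((hc i hi).pow 2).mul hwc) (fun t => by positivity) (K := 3 / 2 * K) ?_
    intro T hT
    refine le_trans ?_ (key T hT)
    refine Finset.single_le_sum (f := fun i => ∫ t in (-T)..T, h i t ^ 2 *
      Real.exp (-(2 * lam * t ^ 2))) (fun j _ => ?_) hi
    exact intervalIntegral.integral_nonneg (by linarith) fun u _ => by positivity
  have hlim : Filter.Tendsto (fun n : ℕ => ∑ i ∈ S, ∫ t in (-(n : ℝ))..(n : ℝ), h i t ^ 2 *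
      Real.exp (-(2 * lam * t ^ 2))) Filter.atTop (nhds (∑ i ∈ S, Q1 lam (h i))) := by
    refine tendsto_finsetSum _ fun i hi => ?_
    exact intervalIntegral_tendsto_integral (hint i hi)
      (Filter.tendsto_neg_atTop_atBot.comp tendsto_natCast_atTop_atTop)
      tendsto_natCast_atTop_atTop
  exact le_of_tendsto' hlim fun n => key n (Nat.cast_nonneg n)

theorem fam_q1 : type_of% @fam_q1_pr := @fam_q1_pr

end Pool.Agent.XT

/-! ### Block FC -/

/-! # XT: block FC (high frequencies, two powers) -/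

namespace Pool.Agent.XT

open Finset Complex MeasureTheory Pool.Agent.Var35 Pool.Agent.Var73 Pool.Agent.HC Pool.Agent.MF
  Pool.Agent.XS
open scoped ArithmeticFunction ArithmeticFunction.Moebius

/-- the weight -/
noncomputable def fc_w (lam t : ℝ) : ℝ := (min 1 (lam * (1 + t ^ 2))) ^ 2 / (1 + t ^ 2)

/-- the constant of the geometric series -/
noncomputable def fc_D (p : ℝ) : ℝ := 2 ^ p / (1 - 2 ^ (p - 2))

theorem fc_w_cont (lam : ℝ) : Continuous (fc_w lam) := by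
  unfold fc_w
  refine Continuous.div (by fun_prop) (by fun_prop) (fun t => ?_)
  positivity

theorem fc_w_nonneg (lam t : ℝ) : 0 ≤ fc_w lam t := by
  unfold fc_w; positivity

theorem fc_w_low {lam t T : ℝ} (hl : 0 < lam) (ht : |t| ≤ T) :
    fc_w lam t ≤ lam ^ 2 * (1 + T ^ 2) := by
  unfold fc_w
  have h1 : (0 : ℝ) < 1 + t ^ 2 := by positivity
  have h2 : min 1 (lam * (1 + t ^ 2)) ≤ lam * (1 + t ^ 2) := min_le_right _ _
  have h3 : 0 ≤ min 1 (lam * (1 + t ^ 2)) := le_min zero_le_one (by positivity)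
  have h4 : t ^ 2 ≤ T ^ 2 := by
    rw [← sq_abs t]; exact pow_le_pow_left₀ (abs_nonneg t) ht 2
  rw [div_le_iff₀ h1]
  calc (min 1 (lam * (1 + t ^ 2))) ^ 2 ≤ (lam * (1 + t ^ 2)) ^ 2 := pow_le_pow_left₀ h3 h2 2
    _ = lam ^ 2 * (1 + t ^ 2) * (1 + t ^ 2) := by ring
    _ ≤ lam ^ 2 * (1 + T ^ 2) * (1 + t ^ 2) := by gcongr

theorem fc_w_high {lam t T : ℝ} (hl : 0 < lam) (hT : 0 < T) (ht : T ≤ |t|) :
    fc_w lam t ≤ 1 / T ^ 2 := by
  unfold fc_w
  have h2 : min 1 (lam * (1 + t ^ 2)) ≤ 1 := min_le_left _ _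
  have h3 : 0 ≤ min 1 (lam * (1 + t ^ 2)) := le_min zero_le_one (by positivity)
  have h4 : T ^ 2 ≤ t ^ 2 := by
    rw [← sq_abs t]; exact pow_le_pow_left₀ hT.le ht 2
  apply div_le_div₀ zero_le_one _ (by positivity) (by linarith)
  exact pow_le_one₀ h3 h2

/-- one doubling step -/
theorem fc_step {F : ℝ → ℝ} (hF : Continuous F) (hF0 : ∀ t, 0 ≤ F t) {lam T : ℝ}
    (hl : 0 < lam) (hT : 0 < T) :
    ∫ t in (-(2 * T))..(2 * T), F t * fc_w lam t ≤ (∫ t in (-T)..T, F t * fc_w lam t) +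
      1 / T ^ 2 * ∫ t in (-(2 * T))..(2 * T), F t := by
  have hc : Continuous (fun t => F t * fc_w lam t) := hF.mul (fc_w_cont lam)
  have hi : ∀ a b : ℝ, IntervalIntegrable (fun t => F t * fc_w lam t) volume a b :=
    fun a b => hc.intervalIntegrable a b
  have hj : ∀ a b : ℝ, IntervalIntegrable F volume a b := fun a b => hF.intervalIntegrable a b
  have e1 : ∫ t in (-(2 * T))..(2 * T), F t * fc_w lam t =
      (∫ t in (-(2 * T))..(-T), F t * fc_w lam t) + (∫ t in (-T)..T, F t * fc_w lam t) +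
        ∫ t in T..(2 * T), F t * fc_w lam t := by
    rw [intervalIntegral.integral_add_adjacent_intervals (hi _ _) (hi _ _),
      intervalIntegral.integral_add_adjacent_intervals (hi _ _) (hi _ _)]
  have e2 : ∫ t in (-(2 * T))..(2 * T), F t =
      (∫ t in (-(2 * T))..(-T), F t) + (∫ t in (-T)..T, F t) + ∫ t in T..(2 * T), F t := by
    rw [intervalIntegral.integral_add_adjacent_intervals (hj _ _) (hj _ _),
      intervalIntegral.integral_add_adjacent_intervals (hj _ _) (hj _ _)]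
  have b1 : ∫ t in (-(2 * T))..(-T), F t * fc_w lam t ≤
      ∫ t in (-(2 * T))..(-T), F t * (1 / T ^ 2) := by
    apply intervalIntegral.integral_mono_on (by linarith) (hi _ _)
      ((hF.mul continuous_const).intervalIntegrable _ _)
    intro t ht
    refine mul_le_mul_of_nonneg_left (fc_w_high hl hT ?_) (hF0 t)
    rw [abs_of_nonpos (by linarith [ht.2])]
    linarith [ht.2]
  have b3 : ∫ t in T..(2 * T), F t * fc_w lam t ≤ ∫ t in T..(2 * T), F t * (1 / T ^ 2) := by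
    apply intervalIntegral.integral_mono_on (by linarith) (hi _ _)
      ((hF.mul continuous_const).intervalIntegrable _ _)
    intro t ht
    refine mul_le_mul_of_nonneg_left (fc_w_high hl hT ?_) (hF0 t)
    rw [abs_of_nonneg (by linarith [ht.1])]
    linarith [ht.1]
  rw [intervalIntegral.integral_mul_const] at b1 b3
  have b2 : 0 ≤ ∫ t in (-T)..T, F t :=
    intervalIntegral.integral_nonneg (by linarith) (fun t _ => hF0 t)
  have hT2 : 0 ≤ 1 / T ^ 2 := by positivity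
  rw [e1, e2]
  nlinarith [mul_nonneg hT2 b2]

theorem fc_den {p : ℝ} (hp1 : p ≤ 3 / 2) : 0 < 1 - (2 : ℝ) ^ (p - 2) := by
  have h : (2 : ℝ) ^ (p - 2) < 1 :=
    Real.rpow_lt_one_of_one_lt_of_neg (by norm_num) (by linarith)
  linarith

theorem fc_D_nonneg {p : ℝ} (hp1 : p ≤ 3 / 2) : 0 ≤ fc_D p := by
  have := fc_den hp1
  unfold fc_D
  positivity

theorem fc_e1 {p lam : ℝ} (hl : 0 < lam) :
    (lam ^ (-(1 / 2) : ℝ)) ^ (p - 2) = lam ^ (1 - p / 2) := by
  rw [← Real.rpow_mul hl.le]; congr 1; ring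

theorem fc_e3 {p lam : ℝ} (hl : 0 < lam) :
    lam * (lam ^ (-(1 / 2) : ℝ)) ^ p = lam ^ (1 - p / 2) := by
  rw [← Real.rpow_mul hl.le]
  nth_rewrite 1 [← Real.rpow_one lam]
  rw [← Real.rpow_add hl]; congr 1; ring

theorem fc_e6 {p T : ℝ} (hp1 : p ≤ 3 / 2) (hT : 0 < T) :
    1 / T ^ 2 * (2 * T) ^ p = fc_D p * T ^ (p - 2) - fc_D p * (2 * T) ^ (p - 2) := by
  have hD := fc_den hp1
  have hDe : fc_D p * (1 - 2 ^ (p - 2)) = 2 ^ p := by
    unfold fc_D
    field_simp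
  rw [Real.mul_rpow (by norm_num) hT.le, Real.mul_rpow (by norm_num) hT.le]
  have h1 : T ^ (p - 2) = T ^ p / T ^ 2 := by
    rw [← Real.rpow_natCast T 2, ← Real.rpow_sub hT]; norm_num
  rw [← hDe, h1]
  ring

/-- all doublings -/
theorem fc_all {p q : ℝ} (hp1 : p ≤ 3 / 2) (hq1 : q ≤ 3 / 2)
    {F : ℝ → ℝ} (hF : Continuous F) (hF0 : ∀ t, 0 ≤ F t) {A B : ℝ}
    (hb : ∀ T : ℝ, 1 ≤ T → ∫ t in (-T)..T, F t ≤ A * T ^ p + B * T ^ q) {lam : ℝ}
    (hl : 0 < lam) (hl1 : lam ≤ 1) (n : ℕ) :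
    ∫ t in (-(2 ^ n * lam ^ (-(1 / 2) : ℝ)))..(2 ^ n * lam ^ (-(1 / 2) : ℝ)), F t * fc_w lam t ≤
      ((2 + fc_D p) * A * lam ^ (1 - p / 2) -
        fc_D p * A * (2 ^ n * lam ^ (-(1 / 2) : ℝ)) ^ (p - 2)) +
      ((2 + fc_D q) * B * lam ^ (1 - q / 2) -
        fc_D q * B * (2 ^ n * lam ^ (-(1 / 2) : ℝ)) ^ (q - 2)) := by
  set T0 : ℝ := lam ^ (-(1 / 2) : ℝ) with hT0
  have hT0p : 0 < T0 := Real.rpow_pos_of_pos hl _
  have hT01 : 1 ≤ T0 := Real.one_le_rpow_of_pos_of_le_one_of_nonpos hl hl1 (by norm_num)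
  induction n with
  | zero =>
    simp only [pow_zero, one_mul]
    have e1 : T0 ^ (p - 2) = lam ^ (1 - p / 2) := fc_e1 hl
    have e1' : T0 ^ (q - 2) = lam ^ (1 - q / 2) := fc_e1 hl
    have e2 : lam ^ 2 * (1 + T0 ^ 2) ≤ 2 * lam := by
      have : T0 ^ 2 = lam⁻¹ := by
        rw [hT0, ← Real.rpow_natCast, ← Real.rpow_mul hl.le, ← Real.rpow_neg_one]
        congr 1; norm_num
      rw [this]
      have : lam ^ 2 * (1 + lam⁻¹) = lam ^ 2 + lam := by field_simp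
      rw [this]; nlinarith
    have hc : Continuous (fun t => F t * fc_w lam t) := hF.mul (fc_w_cont lam)
    have b1 : ∫ t in (-T0)..T0, F t * fc_w lam t ≤ ∫ t in (-T0)..T0, F t * (2 * lam) := by
      apply intervalIntegral.integral_mono_on (by linarith) (hc.intervalIntegrable _ _)
        ((hF.mul continuous_const).intervalIntegrable _ _)
      intro t ht
      refine mul_le_mul_of_nonneg_left ((fc_w_low hl (abs_le.mpr ⟨ht.1, ht.2⟩)).trans e2) (hF0 t)
    rw [intervalIntegral.integral_mul_const] at b1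
    have b2 := hb T0 hT01
    have e3 : lam * T0 ^ p = lam ^ (1 - p / 2) := fc_e3 hl
    have e3' : lam * T0 ^ q = lam ^ (1 - q / 2) := fc_e3 hl
    rw [e1, e1']
    calc ∫ t in (-T0)..T0, F t * fc_w lam t ≤ (∫ t in (-T0)..T0, F t) * (2 * lam) := b1
      _ ≤ (A * T0 ^ p + B * T0 ^ q) * (2 * lam) := by gcongr
      _ = 2 * A * (lam * T0 ^ p) + 2 * B * (lam * T0 ^ q) := by ring
      _ = 2 * A * lam ^ (1 - p / 2) + 2 * B * lam ^ (1 - q / 2) := by rw [e3, e3']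
      _ ≤ _ := le_of_eq (by ring)
  | succ n ih =>
    set T : ℝ := 2 ^ n * T0 with hTdef
    have hT1 : 1 ≤ T := by
      rw [hTdef]; exact one_le_mul_of_one_le_of_one_le (one_le_pow₀ (by norm_num)) hT01
    have hTp : 0 < T := by linarith
    have e0 : 2 ^ (n + 1) * T0 = 2 * T := by rw [hTdef, pow_succ]; ring
    rw [e0]
    have s1 := fc_step hF hF0 hl hTp
    have s2 := hb (2 * T) (by linarith)
    have e4 := fc_e6 hp1 hTp
    have e5 := fc_e6 hq1 hTp
    have s3 : 1 / T ^ 2 * ∫ t in (-(2 * T))..(2 * T), F t ≤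
        A * (1 / T ^ 2 * (2 * T) ^ p) + B * (1 / T ^ 2 * (2 * T) ^ q) := by
      refine (mul_le_mul_of_nonneg_left s2 (by positivity)).trans (le_of_eq ?_)
      ring
    rw [e4, e5] at s3
    linarith [s1, s3, ih]

theorem fc_T {p q : ℝ} (hp1 : p ≤ 3 / 2) (hq1 : q ≤ 3 / 2)
    {F : ℝ → ℝ} (hF : Continuous F) (hF0 : ∀ t, 0 ≤ F t) {A B : ℝ} (hA : 0 ≤ A) (hB : 0 ≤ B)
    (hb : ∀ T : ℝ, 1 ≤ T → ∫ t in (-T)..T, F t ≤ A * T ^ p + B * T ^ q) {lam : ℝ}
    (hl : 0 < lam) (hl1 : lam ≤ 1) {T : ℝ} (hT : 0 ≤ T) :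
    ∫ t in (-T)..T, F t * fc_w lam t ≤
      (2 + fc_D p) * A * lam ^ (1 - p / 2) + (2 + fc_D q) * B * lam ^ (1 - q / 2) := by
  have hT0p : 0 < lam ^ (-(1 / 2) : ℝ) := Real.rpow_pos_of_pos hl _
  have hT01 : 1 ≤ lam ^ (-(1 / 2) : ℝ) :=
    Real.one_le_rpow_of_pos_of_le_one_of_nonpos hl hl1 (by norm_num)
  obtain ⟨n, hn⟩ := pow_unbounded_of_one_lt T (one_lt_two (α := ℝ))
  have hn2 : T ≤ 2 ^ n * lam ^ (-(1 / 2) : ℝ) := by
    have : (2 : ℝ) ^ n * 1 ≤ 2 ^ n * lam ^ (-(1 / 2) : ℝ) := by gcongr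
    linarith
  have h1 := fc_all hp1 hq1 hF hF0 hb hl hl1 n
  have h2 : ∫ t in (-T)..T, F t * fc_w lam t ≤
      ∫ t in (-(2 ^ n * lam ^ (-(1 / 2) : ℝ)))..(2 ^ n * lam ^ (-(1 / 2) : ℝ)),
        F t * fc_w lam t := by
    refine intervalIntegral.integral_mono_interval (by linarith) (by linarith) hn2 ?_
      ((hF.mul (fc_w_cont lam)).intervalIntegrable _ _)
    exact Filter.Eventually.of_forall fun t => mul_nonneg (hF0 t) (fc_w_nonneg lam t)
  have h3 : 0 ≤ fc_D p * A * (2 ^ n * lam ^ (-(1 / 2) : ℝ)) ^ (p - 2) := by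
    have := fc_D_nonneg hp1
    positivity
  have h4 : 0 ≤ fc_D q * B * (2 ^ n * lam ^ (-(1 / 2) : ℝ)) ^ (q - 2) := by
    have := fc_D_nonneg hq1
    positivity
  linarith

/-- FC: high frequencies, two powers -/
theorem fam_q3_pr {p q : ℝ} (hp : 0 ≤ p) (hp1 : p ≤ 3 / 2) (hq : 0 ≤ q) (hq1 : q ≤ 3 / 2) :
    ∃ C : ℝ, 1 ≤ C ∧ ∀ (ι : Type) (S : Finset ι) (h : ι → ℝ → ℝ), (∀ i ∈ S, Continuous (h i)) →
    ∀ A B : ℝ, 0 ≤ A → 0 ≤ B →
    (∀ T : ℝ, 1 ≤ T → ∑ i ∈ S, ∫ t in (-T)..T, h i t ^ 2 ≤ A * T ^ p + B * T ^ q) →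
    (∀ i ∈ S, Integrable (fun t => h i t ^ 2 / (1 + t ^ 2))) ∧
    ∀ lam : ℝ, 0 < lam → lam ≤ 1 →
    ∑ i ∈ S, Q3 lam (h i) ≤ C * (A * lam ^ (1 - p / 2) + B * lam ^ (1 - q / 2)) := by
  have hDp := fc_D_nonneg hp1
  have hDq := fc_D_nonneg hq1
  refine ⟨2 + fc_D p + fc_D q, by linarith, ?_⟩
  intro ι S h hc A B hA hB hM
  set F : ℝ → ℝ := fun t => ∑ i ∈ S, h i t ^ 2 with hF
  have hFc : Continuous F := continuous_finsetSum S (fun i hi => (hc i hi).pow 2)
  have hF0 : ∀ t, 0 ≤ F t := fun t => Finset.sum_nonneg (fun i _ => sq_nonneg _)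
  have hFb : ∀ T : ℝ, 1 ≤ T → ∫ t in (-T)..T, F t ≤ A * T ^ p + B * T ^ q := by
    intro T hT
    have e : ∫ t in (-T)..T, F t = ∑ i ∈ S, ∫ t in (-T)..T, h i t ^ 2 :=
      intervalIntegral.integral_finsetSum (f := fun i t => h i t ^ 2)
        (fun i hi => ((hc i hi).pow 2).intervalIntegrable _ _)
    rw [e]
    exact hM T hT
  have hint : ∀ lam : ℝ, 0 < lam → lam ≤ 1 → ∀ i ∈ S,
      Integrable (fun t => h i t ^ 2 * fc_w lam t) := by
    intro lam hl hl1 i hi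
    refine fm1_integrable (((hc i hi).pow 2).mul (fc_w_cont lam))
      (fun t => mul_nonneg (sq_nonneg _) (fc_w_nonneg lam t))
      (K := (2 + fc_D p) * A * lam ^ (1 - p / 2) + (2 + fc_D q) * B * lam ^ (1 - q / 2)) ?_
    intro T hT
    refine le_trans ?_ (fc_T hp1 hq1 hFc hF0 hA hB hFb hl hl1 hT)
    refine intervalIntegral.integral_mono_on (by linarith)
      ((((hc i hi).pow 2).mul (fc_w_cont lam)).intervalIntegrable _ _)
      ((hFc.mul (fc_w_cont lam)).intervalIntegrable _ _) ?_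
    intro t _
    refine mul_le_mul_of_nonneg_right ?_ (fc_w_nonneg lam t)
    exact Finset.single_le_sum (f := fun i => h i t ^ 2) (fun j _ => sq_nonneg _) hi
  constructor
  · intro i hi
    have h1 := hint 1 one_pos le_rfl i hi
    refine h1.congr (Filter.Eventually.of_forall fun t => ?_)
    have h2 : min 1 (1 * (1 + t ^ 2)) = (1 : ℝ) := min_eq_left (by nlinarith [sq_nonneg t])
    simp only [fc_w, h2]
    ring
  · intro lam hl hl1
    have hint' := hint lam hl hl1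
    have hQ : ∀ i ∈ S, Q3 lam (h i) = ∫ t : ℝ, h i t ^ 2 * fc_w lam t := by
      intro i _
      unfold Q3 fc_w
      congr 1; ext t; ring
    rw [Finset.sum_congr rfl hQ, ← integral_finsetSum S hint']
    have eF : (fun t : ℝ => ∑ i ∈ S, h i t ^ 2 * fc_w lam t) = fun t => F t * fc_w lam t := by
      ext t; rw [hF, Finset.sum_mul]
    have hFi : Integrable (fun t => F t * fc_w lam t) := by
      rw [← eF]; exact integrable_finsetSum S hint'
    rw [eF]
    have htend : Filter.Tendsto (fun n : ℕ =>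
        ∫ t in (-(n : ℝ))..(n : ℝ), F t * fc_w lam t) Filter.atTop
        (nhds (∫ t, F t * fc_w lam t)) :=
      intervalIntegral_tendsto_integral hFi
        (Filter.tendsto_neg_atTop_atBot.comp tendsto_natCast_atTop_atTop)
        tendsto_natCast_atTop_atTop
    refine le_of_tendsto htend (Filter.Eventually.of_forall (fun n => ?_))
    refine (fc_T hp1 hq1 hFc hF0 hA hB hFb hl hl1 (Nat.cast_nonneg n)).trans ?_
    have h5 : 0 ≤ A * lam ^ (1 - p / 2) := by positivity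
    have h6 : 0 ≤ B * lam ^ (1 - q / 2) := by positivity
    nlinarith [mul_nonneg hDp h5, mul_nonneg hDq h5, mul_nonneg hDp h6, mul_nonneg hDq h6]

theorem fam_q3 : type_of% @fam_q3_pr := @fam_q3_pr

end Pool.Agent.XT
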