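import Pool.Agent.Lib_helper59.XT.Defs
import Pool.Agent.Lib_helper59.XTG.B
import Pool.Agent.Lib_helper59.XTG.C
import Pool.Agent.Lib_helper26.XSF.LFI
import Pool.Agent.Lib_helper26.XSF.DFI
import Pool.Agent.Lib_helper26.XSF.UPP

/-!
# XT, part D: the signed mean for kappa >= 9/16
-/

set_option autoImplicit false

/-! ### Block KL9 -/

/-! XT, block KL9 (helper26): mean square of `EE χ X`, `κ ≥ 9/16` -/

namespace Pool.Agent.XT

open Finset Complex MeasureTheory Pool.Agent.Var35 Pool.Agent.Var73 Pool.Agent.HC Pool.Agent.MF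
  Pool.Agent.XS
open scoped ArithmeticFunction ArithmeticFunction.Moebius

theorem kl9_sp_le {R : ℕ} {f g : (r : ℕ) → DirichletCharacter ℂ r → ℝ}
    (h : ∀ r ∈ Ico R (2 * R), ∀ χ ∈ Pr r, f r χ ≤ g r χ) : SP R f ≤ SP R g :=
  sum_le_sum fun r hr => sum_le_sum fun χ hχ => h r hr χ hχ

theorem kl9_sp_three {R : ℕ} (f g k : (r : ℕ) → DirichletCharacter ℂ r → ℝ) :
    SP R (fun r χ => 3 * (f r χ + g r χ + k r χ)) = 3 * (SP R f + SP R g + SP R k) := by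
  unfold SP
  simp only [← mul_sum, sum_add_distrib]

theorem kl9_three {u a b d : ℂ} (h : u = a + b + d) :
    ‖u‖ ^ 2 ≤ 3 * (‖a‖ ^ 2 + ‖b‖ ^ 2 + ‖d‖ ^ 2) := by
  have e3 : ‖u‖ ≤ ‖a‖ + ‖b‖ + ‖d‖ := by
    rw [h]
    exact norm_add₃_le
  have e4 : ‖u‖ ^ 2 ≤ (‖a‖ + ‖b‖ + ‖d‖) ^ 2 := pow_le_pow_left₀ (norm_nonneg _) e3 2
  nlinarith [sq_nonneg (‖a‖ - ‖b‖), sq_nonneg (‖a‖ - ‖d‖), sq_nonneg (‖b‖ - ‖d‖)]

theorem kl9_rep {θ c : ℝ} (hθ : 1 / 2 ≤ θ) (h : ZF θ) (hc : θ < c) (hc1 : c < 1) (r z : ℕ)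
    (hr : 1 ≤ r) (χ : DirichletCharacter ℂ r) (hχ : χ ∈ Pr r) : Rep (E2 z χ) (KK z χ) c := by
  rcases Nat.lt_or_eq_of_le hr with h1 | h1
  · exact rep_chi hθ h hc hc1 r z h1 χ hχ
  · subst h1
    exact rep_one hθ h hc hc1 z χ

theorem kl9_cont {E : ℝ → ℂ} {H : ℂ → ℂ} {c : ℝ} (h : Rep E H c) (hc1 : c < 3) :
    Continuous (nH H c) := kdf_nh_cont h hc1

/-- type II, the smoothed value -/
theorem kl9_two {θ c : ℝ} (hθ : 25 / 32 ≤ θ) (h : ZF θ) (hc : θ < c) (hc1 : c < 1) {ε : ℝ}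
    (hε : 0 < ε) (hε1 : ε ≤ 1 / 4) : ∃ C : ℝ, 1 ≤ C ∧ ∀ (R : ℕ) (X lam : ℝ), 1 ≤ R → 1 ≤ X →
    0 < lam → lam ≤ 1 → SP R (fun r χ => ‖sm lam (E2 (z9 R) χ) X‖ ^ 2) ≤
      C * X ^ (2 * c) * (R : ℝ) ^ (1 + ε) * lam ^ (-ε) := by
  obtain ⟨C1, hC1, hkm⟩ := km9 hθ h hc hc1 hε
  obtain ⟨C2, hC2, hf⟩ := fam_two hε hε1
  refine ⟨4 * C2 * C1, by nlinarith, ?_⟩
  intro R X lam hR hX hl hl1
  have hr1 : ∀ r ∈ Ico R (2 * R), 1 ≤ r := fun r hr => hR.trans (mem_Ico.1 hr).1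
  have hrep : ∀ r ∈ Ico R (2 * R), ∀ χ ∈ Pr r, Rep (E2 (z9 R) χ) (KK (z9 R) χ) c :=
    fun r hr χ hχ => kl9_rep (by linarith) h hc hc1 r (z9 R) (hr1 r hr) χ hχ
  have key := hf (Σ r : ℕ, DirichletCharacter ℂ r) ((Ico R (2 * R)).sigma (fun r => Pr r))
    (fun i => nH (KK (z9 R) i.2) c)
    (fun i hi => kl9_cont (hrep i.1 (mem_sigma.1 hi).1 i.2 (mem_sigma.1 hi).2) (by linarith))
    (fun i _ t => norm_nonneg _) (C1 * (R : ℝ) ^ (1 + ε)) (by positivity)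
    (by
      intro T hT
      have h1 := hkm R T hR hT
      rw [Real.mul_rpow (by positivity) (by linarith)] at h1
      unfold SP at h1
      rw [sum_sigma'] at h1
      rw [mul_assoc]
      exact h1) lam hl hl1
  have h2 : SP R (fun r χ => ‖sm lam (E2 (z9 R) χ) X‖ ^ 2) ≤
      SP R (fun r χ => 4 * X ^ (2 * c) * Q2 lam (nH (KK (z9 R) χ) c)) :=
    kl9_sp_le fun r hr χ hχ => sm_ptw (hrep r hr χ hχ) (by linarith) hc1.le hl hl1 (by linarith)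
  have h3 : SP R (fun r χ => 4 * X ^ (2 * c) * Q2 lam (nH (KK (z9 R) χ) c)) =
      4 * X ^ (2 * c) * ∑ i ∈ (Ico R (2 * R)).sigma (fun r => Pr r),
        Q2 lam (nH (KK (z9 R) i.2) c) := by
    unfold SP
    simp only [← mul_sum]
    rw [sum_sigma']
  rw [h3] at h2
  refine h2.trans ?_
  calc 4 * X ^ (2 * c) * ∑ i ∈ (Ico R (2 * R)).sigma (fun r => Pr r),
        Q2 lam (nH (KK (z9 R) i.2) c)
      ≤ 4 * X ^ (2 * c) * (C2 * (C1 * (R : ℝ) ^ (1 + ε)) * lam ^ (-ε)) :=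
        mul_le_mul_of_nonneg_left key (by positivity)
    _ = 4 * C2 * C1 * X ^ (2 * c) * (R : ℝ) ^ (1 + ε) * lam ^ (-ε) := by ring

/-! ### Type I -/

theorem kl9_z1 {R : ℕ} (hR : 1 ≤ R) : 1 ≤ z9 R := by
  unfold z9
  rw [Nat.one_le_floor_iff]
  exact Real.one_le_rpow (by exact_mod_cast hR) (by norm_num)

theorem kl9_z2 (R : ℕ) : (z9 R : ℝ) ≤ (R : ℝ) ^ (16 / 9 : ℝ) := Nat.floor_le (by positivity)

/-- the size of the mean square of `L' M`, `z = ⌊R^(16/9)⌋` -/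
theorem kl9_size {δ : ℝ} (hδ : 0 < δ) {R : ℕ} {X : ℝ} (hR : 1 ≤ R)
    (hRX : (R : ℝ) ^ (16 / 7 : ℝ) ≤ X) :
    X ^ (1 + 1 / 500 : ℝ) * (((R : ℝ) * z9 R) ^ δ * ((R : ℝ) ^ 2 + z9 R * Real.sqrt R)) ≤
      2 * R * X ^ (25 / 16 + 2 * δ) := by
  have hR1 : (1 : ℝ) ≤ R := by exact_mod_cast hR
  have hR0 : (0 : ℝ) < R := by linarith
  have hz1 : (1 : ℝ) ≤ z9 R := by exact_mod_cast kl9_z1 hR
  have hz2 := kl9_z2 R
  have hX : 1 ≤ X := (Real.one_le_rpow hR1 (by norm_num)).trans hRX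
  have hX0 : 0 < X := by linarith
  have hRp : ∀ s : ℝ, 0 ≤ s → (R : ℝ) ^ s ≤ X ^ (7 / 16 * s) := by
    intro s hs
    calc (R : ℝ) ^ s = ((R : ℝ) ^ (16 / 7 : ℝ)) ^ (7 / 16 * s) := by
          rw [← Real.rpow_mul hR0.le]
          congr 1
          ring
      _ ≤ X ^ (7 / 16 * s) := Real.rpow_le_rpow (by positivity) hRX (by positivity)
  -- first factor
  have a1 : ((R : ℝ) * z9 R) ^ δ ≤ X ^ (2 * δ) := by
    have h1 : (R : ℝ) * z9 R ≤ (R : ℝ) ^ (25 / 9 : ℝ) := by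
      calc (R : ℝ) * z9 R ≤ R * (R : ℝ) ^ (16 / 9 : ℝ) := by gcongr
        _ = (R : ℝ) ^ (25 / 9 : ℝ) := by
            nth_rewrite 1 [← Real.rpow_one (R : ℝ)]
            rw [← Real.rpow_add hR0]
            norm_num
    have h2 : (R : ℝ) * z9 R ≤ X ^ (2 : ℝ) := by
      refine h1.trans ((hRp _ (by norm_num)).trans ?_)
      exact Real.rpow_le_rpow_of_exponent_le hX (by norm_num)
    calc ((R : ℝ) * z9 R) ^ δ ≤ (X ^ (2 : ℝ)) ^ δ := Real.rpow_le_rpow (by positivity) h2 hδ.le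
      _ = X ^ (2 * δ) := by rw [← Real.rpow_mul hX0.le]
  -- second factor
  have a2 : (R : ℝ) ^ 2 + z9 R * Real.sqrt R ≤ 2 * (R * X ^ (161 / 288 : ℝ)) := by
    have h1 : (R : ℝ) ^ 2 ≤ R * X ^ (161 / 288 : ℝ) := by
      rw [sq]
      have h2 : (R : ℝ) ≤ X ^ (161 / 288 : ℝ) := by
        calc (R : ℝ) = (R : ℝ) ^ (1 : ℝ) := (Real.rpow_one _).symm
          _ ≤ X ^ (7 / 16 * 1 : ℝ) := hRp 1 (by norm_num)
          _ ≤ X ^ (161 / 288 : ℝ) := Real.rpow_le_rpow_of_exponent_le hX (by norm_num)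
      gcongr
    have h3 : (z9 R : ℝ) * Real.sqrt R ≤ R * X ^ (161 / 288 : ℝ) := by
      calc (z9 R : ℝ) * Real.sqrt R ≤ (R : ℝ) ^ (16 / 9 : ℝ) * (R : ℝ) ^ (1 / 2 : ℝ) := by
            rw [Real.sqrt_eq_rpow]
            gcongr
        _ = R * (R : ℝ) ^ (23 / 18 : ℝ) := by
            nth_rewrite 3 [← Real.rpow_one (R : ℝ)]
            rw [← Real.rpow_add hR0, ← Real.rpow_add hR0]
            norm_num
        _ ≤ R * X ^ (7 / 16 * (23 / 18) : ℝ) := by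
            have := hRp (23 / 18) (by norm_num)
            gcongr
        _ = R * X ^ (161 / 288 : ℝ) := by norm_num
    linarith
  have a3 : X ^ (1 + 1 / 500 : ℝ) * X ^ (161 / 288 : ℝ) ≤ X ^ (25 / 16 : ℝ) := by
    rw [← Real.rpow_add hX0]
    exact Real.rpow_le_rpow_of_exponent_le hX (by norm_num)
  calc X ^ (1 + 1 / 500 : ℝ) * (((R : ℝ) * z9 R) ^ δ * ((R : ℝ) ^ 2 + z9 R * Real.sqrt R))
      ≤ X ^ (1 + 1 / 500 : ℝ) * (X ^ (2 * δ) * (2 * (R * X ^ (161 / 288 : ℝ)))) := by gcongr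
    _ = 2 * R * X ^ (2 * δ) * (X ^ (1 + 1 / 500 : ℝ) * X ^ (161 / 288 : ℝ)) := by ring
    _ ≤ 2 * R * X ^ (2 * δ) * X ^ (25 / 16 : ℝ) := by gcongr
    _ = 2 * R * X ^ (25 / 16 + 2 * δ) := by
        rw [Real.rpow_add hX0]
        ring

/-- the mean square of `L' M`, one power of `T` -/
theorem kl9_ld {δ : ℝ} (hδ : 0 < δ) : ∃ C : ℝ, 1 ≤ C ∧ ∀ R : ℕ, 2 ≤ R → ∀ T : ℝ, 1 ≤ T →
    ∑ i ∈ (Ico R (2 * R)).sigma (fun r => Pr r),
      ∫ t in (-T)..T, nH (KL (z9 R) i.2) (1 / 2 + 1 / 1000) t ^ 2 ≤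
      C * (((R : ℝ) * z9 R) ^ δ * ((R : ℝ) ^ 2 + z9 R * Real.sqrt R)) * T ^ (1 + δ) := by
  obtain ⟨C, hC, h⟩ := ldm (d := 1 / 2000) (by norm_num) (by norm_num) hδ
  refine ⟨C, hC, fun R hR T hT => ?_⟩
  have h1 := h R T hR hT (z9 R) (kl9_z1 (by omega))
  have e1 : (1 / 2 + 2 * (1 / 2000) : ℝ) = 1 / 2 + 1 / 1000 := by norm_num
  rw [e1] at h1
  unfold SP at h1
  rw [sum_sigma'] at h1
  refine h1.trans ?_
  have hT0 : 0 < T := by linarith
  have hR0 : (0 : ℝ) ≤ R := Nat.cast_nonneg _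
  have hz0 : (0 : ℝ) ≤ z9 R := Nat.cast_nonneg _
  have a1 : ((R : ℝ) * T * z9 R) ^ δ = ((R : ℝ) * z9 R) ^ δ * T ^ δ := by
    rw [← Real.mul_rpow (by positivity) hT0.le]
    congr 1
    ring
  have a2 : (R : ℝ) ^ 2 * T + z9 R * Real.sqrt (R * T) ≤
      ((R : ℝ) ^ 2 + z9 R * Real.sqrt R) * T := by
    have h2 : Real.sqrt (R * T) ≤ Real.sqrt R * T := by
      rw [Real.sqrt_mul hR0]
      have : Real.sqrt T ≤ T := by
        rw [Real.sqrt_le_iff]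
        exact ⟨hT0.le, by nlinarith⟩
      gcongr
    have h3 : (z9 R : ℝ) * Real.sqrt (R * T) ≤ z9 R * (Real.sqrt R * T) := by gcongr
    linarith
  rw [a1, Real.rpow_add hT0, Real.rpow_one]
  calc C * (((R : ℝ) * z9 R) ^ δ * T ^ δ) * ((R : ℝ) ^ 2 * T + z9 R * Real.sqrt (R * T))
      ≤ C * (((R : ℝ) * z9 R) ^ δ * T ^ δ) * (((R : ℝ) ^ 2 + z9 R * Real.sqrt R) * T) := by gcongr
    _ = _ := by ring

theorem kl9_rep_ei {R : ℕ} (hR : 2 ≤ R) :
    ∀ i ∈ (Ico R (2 * R)).sigma (fun r => Pr r),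
      Rep (EI (z9 R) i.2) (KL (z9 R) i.2) (1 / 2 + 1 / 1000) := by
  intro i hi
  rw [mem_sigma, mem_Ico] at hi
  exact rep_ei (by norm_num) (by norm_num) i.1 (z9 R) (hR.trans hi.1.1) i.2 hi.2

theorem kl9_ei_one (z : ℕ) {r : ℕ} (χ : DirichletCharacter ℂ r) (h : χ = 1) (x : ℝ) :
    EI z χ x = 0 := by
  unfold EI
  rw [if_pos h]

theorem kl9_pr_one {r : ℕ} (hr : r = 1) (χ : DirichletCharacter ℂ r) : χ = 1 := by
  subst hr
  exact Subsingleton.elim _ _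

theorem kl9_sm_zero {lam X : ℝ} {E : ℝ → ℂ} (h : ∀ x, E x = 0) : sm lam E X = 0 := by
  unfold sm
  simp [h]

/-- type I, the smoothed value -/
theorem kl9_ei {δ : ℝ} (hδ : 0 < δ) (hδ1 : δ ≤ 1 / 4) : ∃ C : ℝ, 1 ≤ C ∧
    ∀ (R : ℕ) (X lam : ℝ), 1 ≤ R → (R : ℝ) ^ (16 / 7 : ℝ) ≤ X → 0 < lam → lam ≤ 1 →
    SP R (fun r χ => ‖sm lam (EI (z9 R) χ) X‖ ^ 2) ≤
      C * R * X ^ (25 / 16 + 2 * δ) * lam ^ (-δ) := by
  obtain ⟨C1, hC1, hld⟩ := kl9_ld hδ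
  obtain ⟨C2, hC2, hf⟩ := fam_two hδ hδ1
  refine ⟨32 * C2 * C1, by nlinarith, ?_⟩
  intro R X lam hR hRX hl hl1
  have hR1 : (1 : ℝ) ≤ R := by exact_mod_cast hR
  have hX : 1 ≤ X := (Real.one_le_rpow hR1 (by norm_num)).trans hRX
  have hX0 : 0 < X := by linarith
  rcases Nat.lt_or_ge 1 R with h1 | h1
  · have hrep := kl9_rep_ei (R := R) h1
    set M : ℝ := ((R : ℝ) * z9 R) ^ δ * ((R : ℝ) ^ 2 + z9 R * Real.sqrt R) with hM
    have hM0 : 0 ≤ M := by positivity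
    have key := hf (Σ r : ℕ, DirichletCharacter ℂ r) ((Ico R (2 * R)).sigma (fun r => Pr r))
      (fun i => nH (KL (z9 R) i.2) (1 / 2 + 1 / 1000))
      (fun i hi => kl9_cont (hrep i hi) (by norm_num))
      (fun i _ t => norm_nonneg _) (C1 * M) (by positivity)
      (fun T hT => hld R h1 T hT) lam hl hl1
    have h2 : SP R (fun r χ => ‖sm lam (EI (z9 R) χ) X‖ ^ 2) ≤
        SP R (fun r χ => 16 * X ^ (2 * (1 / 2 + 1 / 1000) : ℝ) *
          Q2 lam (nH (KL (z9 R) χ) (1 / 2 + 1 / 1000))) :=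
      kl9_sp_le fun r hr χ hχ => sm_ptw2 (hrep ⟨r, χ⟩ (mem_sigma.2 ⟨hr, hχ⟩)) (by norm_num)
        (by norm_num) hl hl1 (by linarith)
    have h3 : SP R (fun r χ => 16 * X ^ (2 * (1 / 2 + 1 / 1000) : ℝ) *
          Q2 lam (nH (KL (z9 R) χ) (1 / 2 + 1 / 1000))) =
        16 * X ^ (2 * (1 / 2 + 1 / 1000) : ℝ) * ∑ i ∈ (Ico R (2 * R)).sigma (fun r => Pr r),
          Q2 lam (nH (KL (z9 R) i.2) (1 / 2 + 1 / 1000)) := by
      unfold SP
      simp only [← mul_sum]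
      rw [sum_sigma']
    rw [h3] at h2
    refine h2.trans ?_
    have e1 : (2 * (1 / 2 + 1 / 1000) : ℝ) = 1 + 1 / 500 := by norm_num
    rw [e1]
    have hs := kl9_size hδ hR hRX
    have hlp : 0 < lam ^ (-δ) := Real.rpow_pos_of_pos hl _
    calc 16 * X ^ (1 + 1 / 500 : ℝ) * ∑ i ∈ (Ico R (2 * R)).sigma (fun r => Pr r),
          Q2 lam (nH (KL (z9 R) i.2) (1 / 2 + 1 / 1000))
        ≤ 16 * X ^ (1 + 1 / 500 : ℝ) * (C2 * (C1 * M) * lam ^ (-δ)) := by gcongr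
      _ = 16 * C2 * C1 * (X ^ (1 + 1 / 500 : ℝ) * M) * lam ^ (-δ) := by ring
      _ ≤ 16 * C2 * C1 * (2 * R * X ^ (25 / 16 + 2 * δ)) * lam ^ (-δ) := by gcongr
      _ = 32 * C2 * C1 * R * X ^ (25 / 16 + 2 * δ) * lam ^ (-δ) := by ring
  · have hR2 : R = 1 := le_antisymm h1 hR
    have h2 : SP R (fun r χ => ‖sm lam (EI (z9 R) χ) X‖ ^ 2) ≤ SP R (fun _ _ => 0) := by
      apply kl9_sp_le
      intro r hr χ _
      rw [mem_Ico] at hr
      have h3 : χ = 1 := kl9_pr_one (by omega) χ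
      rw [kl9_sm_zero (fun x => kl9_ei_one _ χ h3 x)]
      simp
    have h4 : SP R (fun _ _ => (0 : ℝ)) = 0 := by
      unfold SP
      simp
    rw [h4] at h2
    refine h2.trans ?_
    positivity

theorem kl9_log {ε : ℝ} (hε : 0 < ε) : ∃ A : ℝ, 1 ≤ A ∧ ∀ X : ℝ, 1 ≤ X →
    1 ≤ Real.log (X + 2) ∧ Real.log (X + 2) ^ 2 ≤ A * X ^ ε := by
  obtain ⟨K, hK, h⟩ := kdf_log hε
  refine ⟨K, hK, fun X hX => ?_⟩
  have hl : 1 ≤ Real.log (X + 2) := by
    rw [Real.le_log_iff_exp_le (by linarith)]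
    have := Real.exp_one_lt_d9
    linarith
  exact ⟨hl, (pow_le_pow_right₀ hl (by norm_num)).trans (h X hX)⟩

theorem kl9_pr {θ c ε : ℝ} (hθ : 25 / 32 ≤ θ) (h : ZF θ) (hc : θ < c) (hc1 : c < 1)
    (hε : 0 < ε) :
    ∃ C : ℝ, 1 ≤ C ∧ ∀ (R : ℕ) (X : ℝ), 1 ≤ R → (R : ℝ) ^ (16 / 7 : ℝ) ≤ X →
    SP R (fun _ χ => ‖EE χ X‖ ^ 2) ≤ C * R * X ^ (2 * c + ε) := by
  obtain ⟨A, hA, hlog⟩ := kl9_log hε
  obtain ⟨C1, hC1, h1⟩ := short
  set δ := min (ε / 5) (1 / 4) with hδ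
  have hδ0 : 0 < δ := lt_min (by positivity) (by norm_num)
  have hδε : 5 * δ ≤ ε := by
    have := min_le_left (ε / 5) (1 / 4 : ℝ)
    rw [← hδ] at this
    linarith
  obtain ⟨C2, hC2, h2⟩ := kl9_two hθ h hc hc1 hδ0 (min_le_right _ _)
  obtain ⟨C3, hC3, h3⟩ := kl9_ei hδ0 (min_le_right _ _)
  refine ⟨3 * (6 * C1 * A + C2 + C3), by nlinarith, ?_⟩
  intro R X hR hRX
  have hR1 : (1 : ℝ) ≤ R := by exact_mod_cast hR
  have hR0 : (0 : ℝ) < R := by linarith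
  have hX : 1 ≤ X := (Real.one_le_rpow hR1 (by norm_num)).trans hRX
  have hX0 : 0 < X := by linarith
  have hRX1 : (R : ℝ) ≤ X := by
    refine le_trans ?_ hRX
    calc (R : ℝ) = (R : ℝ) ^ (1 : ℝ) := (Real.rpow_one _).symm
      _ ≤ (R : ℝ) ^ (16 / 7 : ℝ) := Real.rpow_le_rpow_of_exponent_le hR1 (by norm_num)
  obtain ⟨hL1, hL⟩ := hlog X hX
  set L := Real.log (X + 2) with hLdef
  have hL0 : 0 ≤ L := by linarith
  -- the parameter
  set T := max 1 (X ^ (1 - c) * (R : ℝ) ^ (-(1 / 2) : ℝ)) with hT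
  have hT1 : 1 ≤ T := le_max_left _ _
  have hT0 : 0 < T := by linarith
  set lam := (T ^ 2)⁻¹ with hlam
  have hl : 0 < lam := by positivity
  have hl1 : lam ≤ 1 := inv_le_one_of_one_le₀ (one_le_pow₀ hT1)
  have hsq : Real.sqrt lam = T⁻¹ := by
    rw [hlam, Real.sqrt_inv, Real.sqrt_sq hT0.le]
  set W := X ^ c * (R : ℝ) ^ (1 / 2 : ℝ) with hW
  have hXc : 1 ≤ X ^ c := Real.one_le_rpow hX (by linarith)
  have hRh : 1 ≤ (R : ℝ) ^ (1 / 2 : ℝ) := Real.one_le_rpow hR1 (by norm_num)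
  have hW1 : 1 ≤ W := by nlinarith
  have hWW : W * W = X ^ (2 * c) * R := by
    rw [hW]
    have e1 : X ^ (2 * c) = X ^ c * X ^ c := by
      rw [← Real.rpow_add hX0]; congr 1; ring
    have e2 : (R : ℝ) = (R : ℝ) ^ (1 / 2 : ℝ) * (R : ℝ) ^ (1 / 2 : ℝ) := by
      rw [← Real.rpow_add hR0]; norm_num
    calc X ^ c * (R : ℝ) ^ (1 / 2 : ℝ) * (X ^ c * (R : ℝ) ^ (1 / 2 : ℝ)) =
        (X ^ c * X ^ c) * ((R : ℝ) ^ (1 / 2 : ℝ) * (R : ℝ) ^ (1 / 2 : ℝ)) := by ring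
      _ = X ^ (2 * c) * R := by rw [← e1, ← e2]
  have hXT : X * Real.sqrt lam ≤ W := by
    rw [hsq, ← div_eq_mul_inv, div_le_iff₀ hT0]
    have e1 : W * (X ^ (1 - c) * (R : ℝ) ^ (-(1 / 2) : ℝ)) = X := by
      have e2 : X ^ c * X ^ (1 - c) = X := by
        rw [← Real.rpow_add hX0, add_sub_cancel, Real.rpow_one]
      have e3 : (R : ℝ) ^ (1 / 2 : ℝ) * (R : ℝ) ^ (-(1 / 2) : ℝ) = 1 := by
        rw [← Real.rpow_add hR0, add_neg_cancel, Real.rpow_zero]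
      calc W * (X ^ (1 - c) * (R : ℝ) ^ (-(1 / 2) : ℝ)) =
          (X ^ c * X ^ (1 - c)) * ((R : ℝ) ^ (1 / 2 : ℝ) * (R : ℝ) ^ (-(1 / 2) : ℝ)) := by
            rw [hW]; ring
        _ = X := by rw [e2, e3, mul_one]
    calc X = W * (X ^ (1 - c) * (R : ℝ) ^ (-(1 / 2) : ℝ)) := e1.symm
      _ ≤ W * T := mul_le_mul_of_nonneg_left (le_max_right _ _) (by linarith)
  have hR2 : (R : ℝ) ^ 2 ≤ W := by
    have e1 : (R : ℝ) ^ 2 = (R : ℝ) ^ (3 / 2 : ℝ) * (R : ℝ) ^ (1 / 2 : ℝ) := by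
      rw [← Real.rpow_add hR0, ← Real.rpow_natCast]; norm_num
    have e2 : (R : ℝ) ^ (3 / 2 : ℝ) ≤ X ^ c := by
      calc (R : ℝ) ^ (3 / 2 : ℝ) = ((R : ℝ) ^ (16 / 7 : ℝ)) ^ (21 / 32 : ℝ) := by
            rw [← Real.rpow_mul hR0.le]; norm_num
        _ ≤ X ^ (21 / 32 : ℝ) := Real.rpow_le_rpow (by positivity) hRX (by norm_num)
        _ ≤ X ^ c := Real.rpow_le_rpow_of_exponent_le hX (by linarith)
    rw [e1, hW]
    exact mul_le_mul_of_nonneg_right e2 (by linarith)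
  have hTX : T ≤ X := by
    apply max_le hX
    calc X ^ (1 - c) * (R : ℝ) ^ (-(1 / 2) : ℝ) ≤ X ^ (1 : ℝ) * 1 := by
          apply mul_le_mul (Real.rpow_le_rpow_of_exponent_le hX (by linarith))
            (Real.rpow_le_one_of_one_le_of_nonpos hR1 (by norm_num)) (by positivity)
            (by positivity)
      _ = X := by rw [Real.rpow_one, mul_one]
  have hlamT : lam ^ (-δ) ≤ X ^ (2 * δ) := by
    have e1 : lam ^ (-δ) = T ^ (2 * δ) := by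
      rw [hlam, ← Real.rpow_natCast, ← Real.rpow_neg hT0.le, ← Real.rpow_mul hT0.le]
      congr 1
      push_cast
      ring
    rw [e1]
    exact Real.rpow_le_rpow hT0.le hTX (by positivity)
  have hXsum : X ^ (2 * c + ε) = X ^ (2 * c) * X ^ ε := Real.rpow_add hX0 _ _
  have hXc2 : 0 < X ^ (2 * c) := by positivity
  have hXe : 1 ≤ X ^ ε := Real.one_le_rpow hX hε.le
  -- the three parts
  have k1 : SP R (fun r χ => ‖EE χ X - sm lam (E0 χ) X‖ ^ 2) ≤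
      6 * C1 * A * R * X ^ (2 * c + ε) := by
    have ha : 0 ≤ X * Real.sqrt lam := by positivity
    have m1 : (R : ℝ) ^ 2 + X * Real.sqrt lam + 1 ≤ 3 * W := by linarith
    have m2 : X * Real.sqrt lam + 1 ≤ 2 * W := by linarith
    calc SP R (fun r χ => ‖EE χ X - sm lam (E0 χ) X‖ ^ 2)
        ≤ C1 * L ^ 2 * ((R : ℝ) ^ 2 + X * Real.sqrt lam + 1) * (X * Real.sqrt lam + 1) :=
          h1 R X lam hR hX hl hl1
      _ ≤ C1 * (A * X ^ ε) * (3 * W) * (2 * W) := by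
          apply mul_le_mul _ m2 (by positivity) (by positivity)
          apply mul_le_mul _ m1 (by positivity) (by positivity)
          exact mul_le_mul_of_nonneg_left hL (by linarith)
      _ = 6 * C1 * A * X ^ ε * (W * W) := by ring
      _ = 6 * C1 * A * R * X ^ (2 * c + ε) := by rw [hWW, hXsum]; ring
  have k2 : SP R (fun r χ => ‖sm lam (E2 (z9 R) χ) X‖ ^ 2) ≤ C2 * R * X ^ (2 * c + ε) := by
    have m1 : (R : ℝ) ^ (1 + δ) ≤ R * X ^ δ := by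
      rw [Real.rpow_add hR0, Real.rpow_one]
      exact mul_le_mul_of_nonneg_left (Real.rpow_le_rpow hR0.le hRX1 hδ0.le) hR0.le
    have m2 : X ^ δ * X ^ (2 * δ) ≤ X ^ ε := by
      rw [← Real.rpow_add hX0]
      exact Real.rpow_le_rpow_of_exponent_le hX (by linarith)
    calc SP R (fun r χ => ‖sm lam (E2 (z9 R) χ) X‖ ^ 2)
        ≤ C2 * X ^ (2 * c) * (R : ℝ) ^ (1 + δ) * lam ^ (-δ) := h2 R X lam hR hX hl hl1
      _ ≤ C2 * X ^ (2 * c) * (R * X ^ δ) * X ^ (2 * δ) := by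
          apply mul_le_mul _ hlamT (by positivity) (by positivity)
          exact mul_le_mul_of_nonneg_left m1 (by positivity)
      _ = C2 * R * (X ^ (2 * c) * (X ^ δ * X ^ (2 * δ))) := by ring
      _ ≤ C2 * R * (X ^ (2 * c) * X ^ ε) := by
          apply mul_le_mul_of_nonneg_left _ (by positivity)
          exact mul_le_mul_of_nonneg_left m2 hXc2.le
      _ = C2 * R * X ^ (2 * c + ε) := by rw [hXsum]
  have k3 : SP R (fun r χ => ‖sm lam (EI (z9 R) χ) X‖ ^ 2) ≤ C3 * R * X ^ (2 * c + ε) := by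
    have m2 : X ^ (25 / 16 + 2 * δ) * X ^ (2 * δ) ≤ X ^ (2 * c + ε) := by
      rw [← Real.rpow_add hX0]
      exact Real.rpow_le_rpow_of_exponent_le hX (by linarith)
    calc SP R (fun r χ => ‖sm lam (EI (z9 R) χ) X‖ ^ 2)
        ≤ C3 * R * X ^ (25 / 16 + 2 * δ) * lam ^ (-δ) := h3 R X lam hR hRX hl hl1
      _ ≤ C3 * R * X ^ (25 / 16 + 2 * δ) * X ^ (2 * δ) := by gcongr
      _ = C3 * R * (X ^ (25 / 16 + 2 * δ) * X ^ (2 * δ)) := by ring
      _ ≤ C3 * R * X ^ (2 * c + ε) := by gcongr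
  have k4 : SP R (fun r χ => ‖EE χ X‖ ^ 2) ≤ SP R (fun r χ =>
      3 * (‖EE χ X - sm lam (E0 χ) X‖ ^ 2 + ‖sm lam (E2 (z9 R) χ) X‖ ^ 2 +
        ‖sm lam (EI (z9 R) χ) X‖ ^ 2)) := by
    apply kl9_sp_le
    intro r hr χ hχ
    have e1 := sm_split (z9 R) r χ hl hX
    have e2 : EE χ X = (EE χ X - sm lam (E0 χ) X) + sm lam (E2 (z9 R) χ) X +
        sm lam (EI (z9 R) χ) X := by
      rw [e1]; ring
    exact kl9_three e2
  rw [kl9_sp_three] at k4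
  refine k4.trans ?_
  calc 3 * (SP R (fun r χ => ‖EE χ X - sm lam (E0 χ) X‖ ^ 2) +
        SP R (fun r χ => ‖sm lam (E2 (z9 R) χ) X‖ ^ 2) +
        SP R (fun r χ => ‖sm lam (EI (z9 R) χ) X‖ ^ 2))
      ≤ 3 * (6 * C1 * A * R * X ^ (2 * c + ε) + C2 * R * X ^ (2 * c + ε) +
        C3 * R * X ^ (2 * c + ε)) := by linarith
    _ = 3 * (6 * C1 * A + C2 + C3) * R * X ^ (2 * c + ε) := by ring

theorem kl9 : type_of% @kl9_pr := @kl9_pr

end Pool.Agent.XT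

/-! ### Block KD9 -/

/-! XT, block KD9 (helper26): mean square of `EB χ X β` on the arcs, `κ ≥ 9/16` -/

namespace Pool.Agent.XT

open Finset Complex MeasureTheory Pool.Agent.Var35 Pool.Agent.Var73 Pool.Agent.HC Pool.Agent.MF
  Pool.Agent.XS
open scoped ArithmeticFunction ArithmeticFunction.Moebius

/-- families of functions `E = E₁ + E₂` -/
theorem kd9_core {δ c₁ c₂ : ℝ} (hδ : 0 < δ) (hδ1 : δ ≤ 1 / 4) (hc₁ : 1 / 2 ≤ c₁) (hc₁' : c₁ ≤ 1)
    (hc₂ : 1 / 2 ≤ c₂) (hc₂' : c₂ ≤ 1) : ∃ C : ℝ, 1 ≤ C ∧ ∀ (ι : Type) (S : Finset ι)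
    (E E₁ E₂ : ι → ℝ → ℂ) (H₁ H₂ : ι → ℂ → ℂ), (∀ i ∈ S, ∀ x, E i x = E₁ i x + E₂ i x) →
    (∀ i ∈ S, Rep (E₁ i) (H₁ i) c₁) → (∀ i ∈ S, Rep (E₂ i) (H₂ i) c₂) →
    ∀ M₁ M₂ : ℝ, 0 ≤ M₁ → 0 ≤ M₂ →
    (∀ T : ℝ, 1 ≤ T → ∑ i ∈ S, ∫ t in (-T)..T, nH (H₁ i) c₁ t ^ 2 ≤ M₁ * T ^ (1 + δ)) →
    (∀ T : ℝ, 1 ≤ T → ∑ i ∈ S, ∫ t in (-T)..T, nH (H₂ i) c₂ t ^ 2 ≤ M₂ * T ^ (1 + δ)) →
    ∀ X Δ : ℝ, 1 ≤ X → 1 / X ≤ Δ → Δ ≤ 1 →
    ∑ i ∈ S, ∫ β in (-Δ)..Δ, ‖Bf (E i) X β‖ ^ 2 ≤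
      C * (Δ * X ^ δ * (X ^ (2 * c₁) * M₁ + X ^ (2 * c₂) * M₂) +
        Δ * ∑ i ∈ S, ‖E i X - sm ((X * Δ) ^ (-2 : ℝ)) (E i) X‖ ^ 2) := by
  obtain ⟨C1, hC1, f1⟩ := fam_one hδ hδ1
  obtain ⟨C3, hC3, f3⟩ := fam_three hδ hδ1
  refine ⟨1000000 * (C1 + C3), by linarith, ?_⟩
  intro ι S E E₁ E₂ H₁ H₂ hE h₁ h₂ M₁ M₂ hM₁ hM₂ hT₁ hT₂ X Δ hX hXΔ hΔ1
  have hX0 : 0 < X := by linarith
  have hΔ0 : 0 < Δ := lt_of_lt_of_le (by positivity) hXΔ
  obtain ⟨U, hU⟩ : ∃ U : ℝ, U = X * Δ := ⟨_, rfl⟩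
  have hU1 : 1 ≤ U := by
    rw [hU]
    rw [div_le_iff₀ hX0] at hXΔ
    linarith
  have hU0 : 0 < U := by linarith
  have hUX : U ≤ X := by
    rw [hU]
    nlinarith
  rw [← hU]
  obtain ⟨lam, hlam⟩ : ∃ lam : ℝ, lam = U ^ (-2 : ℝ) := ⟨_, rfl⟩
  have hl0 : 0 < lam := by
    rw [hlam]
    positivity
  have hl1 : lam ≤ 1 := by
    rw [hlam]
    exact Real.rpow_le_one_of_one_le_of_nonpos hU1 (by norm_num)
  have hP : ∀ s : ℝ, lam ^ s = U ^ (-2 * s) := fun s => by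
    rw [hlam, ← Real.rpow_mul hU0.le]
  rw [← hlam]
  -- one family
  have fam : ∀ (E' : ι → ℝ → ℂ) (H : ι → ℂ → ℂ) (c M : ℝ), c ≤ 1 → 0 ≤ M →
      (∀ i ∈ S, Rep (E' i) (H i) c) →
      (∀ T : ℝ, 1 ≤ T → ∑ i ∈ S, ∫ t in (-T)..T, nH (H i) c t ^ 2 ≤ M * T ^ (1 + δ)) →
      (∀ i ∈ S, Integrable (fun t => nH (H i) c t ^ 2 / (1 + t ^ 2))) ∧
      X ^ (2 * c - 1) * ∑ i ∈ S, Q1 lam (nH (H i) c) ≤ C1 * (Δ * X ^ δ * (X ^ (2 * c) * M)) ∧
      Δ ^ 2 * (X ^ (2 * c + 1) * ∑ i ∈ S, Q3 lam (nH (H i) c)) ≤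
        C3 * (Δ * X ^ δ * (X ^ (2 * c) * M)) := by
    intro E' H c M hc hM hr hT
    have hcont : ∀ i ∈ S, Continuous (nH (H i) c) := fun i hi =>
      kdf_nh_cont (hr i hi) (by linarith)
    have q1 := f1 _ S (fun i => nH (H i) c) hcont M hM hT lam hl0 hl1
    have q3 := f3 _ S (fun i => nH (H i) c) hcont M hM hT lam hl0 hl1
    rw [hP] at q1 q3
    have e3 : U ^ δ ≤ X ^ δ := Real.rpow_le_rpow hU0.le hUX hδ.le
    have u1 : U ^ (-2 * -((1 + δ) / 2)) = U * U ^ δ := by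
      rw [show -2 * -((1 + δ) / 2) = 1 + δ by ring, Real.rpow_add hU0, Real.rpow_one]
    have u3 : U ^ (-2 * ((1 - δ) / 2)) * U = U ^ δ := by
      rw [show -2 * ((1 - δ) / 2) = δ - 1 by ring, Real.rpow_sub hU0, Real.rpow_one]
      field_simp
    rw [u1] at q1
    have e1 : X ^ (2 * c - 1) * X = X ^ (2 * c) := by
      rw [Real.rpow_sub hX0, Real.rpow_one]
      field_simp
    have e2 : X ^ (2 * c + 1) = X ^ (2 * c) * X := by
      rw [Real.rpow_add hX0, Real.rpow_one]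
    have p1 : 0 < X ^ (2 * c - 1) := Real.rpow_pos_of_pos hX0 _
    have p2 : 0 < X ^ (2 * c) := Real.rpow_pos_of_pos hX0 _
    refine ⟨?_, ?_, ?_⟩
    · intro i hi
      refine fam_int hδ hδ1 _ (hcont i hi) (M := M) fun T hT' => ?_
      refine le_trans ?_ (hT T hT')
      exact Finset.single_le_sum (f := fun i : ι => ∫ t in (-T)..T, nH (H i) c t ^ 2)
        (fun j _ => intervalIntegral.integral_nonneg (by linarith) fun _ _ => sq_nonneg _) hi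
    · calc X ^ (2 * c - 1) * ∑ i ∈ S, Q1 lam (nH (H i) c)
          ≤ X ^ (2 * c - 1) * (C1 * M * (U * U ^ δ)) := mul_le_mul_of_nonneg_left q1 p1.le
        _ ≤ X ^ (2 * c - 1) * (C1 * M * (U * X ^ δ)) := by gcongr
        _ = C1 * (Δ * X ^ δ * ((X ^ (2 * c - 1) * X) * M)) := by
            rw [hU]
            ring
        _ = _ := by rw [e1]
    · rw [e2]
      calc Δ ^ 2 * (X ^ (2 * c) * X * ∑ i ∈ S, Q3 lam (nH (H i) c))
          ≤ Δ ^ 2 * (X ^ (2 * c) * X * (C3 * M * U ^ (-2 * ((1 - δ) / 2)))) := by gcongr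
        _ = Δ * X ^ (2 * c) * (C3 * M * (U ^ (-2 * ((1 - δ) / 2)) * U)) := by
            rw [hU]
            ring
        _ = Δ * X ^ (2 * c) * (C3 * M * U ^ δ) := by rw [u3]
        _ ≤ Δ * X ^ (2 * c) * (C3 * M * X ^ δ) := by gcongr
        _ = _ := by ring
  obtain ⟨i1, a1, b1⟩ := fam E₁ H₁ c₁ M₁ hc₁' hM₁ h₁ hT₁
  obtain ⟨i2, a2, b2⟩ := fam E₂ H₂ c₂ M₂ hc₂' hM₂ h₂ hT₂
  have key : ∑ i ∈ S, ∫ β in (-Δ)..Δ, ‖Bf (E i) X β‖ ^ 2 ≤
      1000000 * (X ^ (2 * c₁ - 1) * ∑ i ∈ S, Q1 lam (nH (H₁ i) c₁) +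
        X ^ (2 * c₂ - 1) * ∑ i ∈ S, Q1 lam (nH (H₂ i) c₂) +
        Δ * ∑ i ∈ S, ‖E i X - sm lam (E i) X‖ ^ 2 +
        (Δ ^ 2 * (X ^ (2 * c₁ + 1) * ∑ i ∈ S, Q3 lam (nH (H₁ i) c₁)) +
          Δ ^ 2 * (X ^ (2 * c₂ + 1) * ∑ i ∈ S, Q3 lam (nH (H₂ i) c₂)))) := by
    have h1 : ∀ i ∈ S, ∫ β in (-Δ)..Δ, ‖Bf (E i) X β‖ ^ 2 ≤
        1000000 * (X ^ (2 * c₁ - 1) * Q1 lam (nH (H₁ i) c₁) +
          X ^ (2 * c₂ - 1) * Q1 lam (nH (H₂ i) c₂) + Δ * ‖E i X - sm lam (E i) X‖ ^ 2 +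
          Δ ^ 2 * (X ^ (2 * c₁ + 1) * Q3 lam (nH (H₁ i) c₁) +
            X ^ (2 * c₂ + 1) * Q3 lam (nH (H₂ i) c₂))) := fun i hi =>
      one2 (hE i hi) (h₁ i hi) (h₂ i hi) hc₁ hc₁' hc₂ hc₂' hl0 hl1 (i1 i hi) (i2 i hi) hX hΔ0.le
    refine (Finset.sum_le_sum h1).trans (le_of_eq ?_)
    simp only [← Finset.mul_sum, Finset.sum_add_distrib]
    ring
  have hB : 0 ≤ Δ * ∑ i ∈ S, ‖E i X - sm lam (E i) X‖ ^ 2 := by positivity
  have hA1 : 0 ≤ Δ * X ^ δ * (X ^ (2 * c₁) * M₁) := by positivity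
  have hA2 : 0 ≤ Δ * X ^ δ * (X ^ (2 * c₂) * M₂) := by positivity
  refine key.trans ?_
  calc _ ≤ 1000000 * (C1 * (Δ * X ^ δ * (X ^ (2 * c₁) * M₁)) +
        C1 * (Δ * X ^ δ * (X ^ (2 * c₂) * M₂)) + Δ * ∑ i ∈ S, ‖E i X - sm lam (E i) X‖ ^ 2 +
        (C3 * (Δ * X ^ δ * (X ^ (2 * c₁) * M₁)) + C3 * (Δ * X ^ δ * (X ^ (2 * c₂) * M₂)))) := by
        linarith
    _ ≤ 1000000 * (C1 + C3) * (Δ * X ^ δ * (X ^ (2 * c₁) * M₁ + X ^ (2 * c₂) * M₂) +
        Δ * ∑ i ∈ S, ‖E i X - sm lam (E i) X‖ ^ 2) := by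
        nlinarith

/-! ### From `EB` to `Bf (E0 χ)` -/

theorem kd9_ee {q : ℕ} (χ : DirichletCharacter ℂ q) (h : χ ≠ 1) (x : ℝ) : EE χ x = E0 χ x := by
  unfold XS.E0
  split_ifs with hx
  · unfold XS.EE
    have h1 : ⌊x⌋₊ = 0 := Nat.floor_eq_zero.2 hx
    rw [h1, if_neg h]
    simp
  · rfl

open scoped Classical in
theorem kd9_eb (z : ℕ) {r : ℕ} (χ : DirichletCharacter ℂ r) {X : ℝ} (hX : 1 ≤ X) (β : ℝ) :
    ‖EB χ X β‖ ^ 2 ≤ 3 * ‖Bf (E0 χ) X β‖ ^ 2 + (if χ = 1 then 100 * β ^ 2 else 0) := by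
  by_cases h : χ = 1
  · have h1 := eb_split z χ hX β
    have h2 : EI z χ = fun _ => 0 := funext fun x => kl9_ei_one z χ h x
    have h3 : E2 z χ = E0 χ := funext fun x => by
      unfold E2
      rw [kl9_ei_one z χ h x, sub_zero]
    have h4 : Bf (EI z χ) X β = 0 := by
      rw [h2]
      unfold Bf
      simp
    rw [h3, h4] at h1
    simpa using h1
  · rw [if_neg h, add_zero, eb_bf χ hX β]
    have h1 : EE χ = E0 χ := funext fun x => kd9_ee χ h x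
    rw [h1]
    nlinarith [sq_nonneg ‖Bf (E0 χ) X β‖]

theorem kd9_e0_int {z r : ℕ} {χ : DirichletCharacter ℂ r} {c : ℝ}
    (hR : Rep (E2 z χ) (KK z χ) c) {X : ℝ} (hX : 0 ≤ X) :
    IntervalIntegrable (E0 χ) volume 0 X := by
  have h1 := (kdf_rep_int hR hX).add (kdf_ei_int z χ hX)
  refine h1.congr fun x _ => ?_
  show E2 z χ x + EI z χ x = E0 χ x
  unfold E2
  ring

open scoped Classical in
theorem kd9_char {z r : ℕ} {χ : DirichletCharacter ℂ r} {c : ℝ}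
    (hR : Rep (E2 z χ) (KK z χ) c) {X Δ : ℝ} (hX : 1 ≤ X) (h0 : 0 ≤ Δ) (h1 : Δ ≤ 1) :
    ∫ β in (-Δ)..Δ, ‖EB χ X β‖ ^ 2 ≤ 3 * (∫ β in (-Δ)..Δ, ‖Bf (E0 χ) X β‖ ^ 2) +
      (if χ = 1 then 200 * Δ else 0) := by
  have hX0 : 0 ≤ X := by linarith
  have cA : Continuous fun β => ‖Bf (E0 χ) X β‖ ^ 2 :=
    (kdf_bf_cont (kd9_e0_int hR hX0)).norm.pow 2
  have cE : Continuous fun β => ‖EB χ X β‖ ^ 2 := (kdf_eb_cont χ X).norm.pow 2
  have e1 : ∫ β in (-Δ)..Δ, ‖EB χ X β‖ ^ 2 ≤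
      ∫ β in (-Δ)..Δ, (3 * ‖Bf (E0 χ) X β‖ ^ 2 + (if χ = 1 then 100 else 0)) := by
    refine intervalIntegral.integral_mono_on (by linarith) (cE.intervalIntegrable _ _)
      (Continuous.intervalIntegrable ((continuous_const.mul cA).add continuous_const) _ _) ?_
    intro β hβ
    refine (kd9_eb z χ hX β).trans ?_
    have h2 : β ^ 2 ≤ 1 := by
      have := hβ.1
      have := hβ.2
      nlinarith
    have h3 : (if χ = 1 then 100 * β ^ 2 else 0) ≤ (if χ = 1 then (100 : ℝ) else 0) := by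
      split_ifs
      · linarith
      · exact le_refl _
    linarith
  refine e1.trans (le_of_eq ?_)
  have i1 : IntervalIntegrable (fun β => 3 * ‖Bf (E0 χ) X β‖ ^ 2) volume (-Δ) Δ :=
    (continuous_const.mul cA).intervalIntegrable _ _
  have i4 : IntervalIntegrable (fun _ : ℝ => if χ = 1 then (100 : ℝ) else 0) volume (-Δ) Δ :=
    intervalIntegrable_const
  rw [intervalIntegral.integral_add i1 i4,
    intervalIntegral.integral_const_mul, intervalIntegral.integral_const]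
  congr 1
  split_ifs
  · rw [smul_eq_mul]
    ring
  · rw [smul_zero]

/-! ### The boundary term -/

theorem kd9_bd {θ c : ℝ} (hθ : 25 / 32 ≤ θ) (h : ZF θ) (hc : θ < c) (hc1 : c < 1) {δ : ℝ}
    (hδ : 0 < δ) (hδ1 : δ ≤ 1 / 4) : ∃ C : ℝ, 1 ≤ C ∧ ∀ (R : ℕ) (X lam : ℝ), 1 ≤ R →
    (R : ℝ) ^ (16 / 7 : ℝ) ≤ X → 0 < lam → lam ≤ 1 →
    SP R (fun _ χ => ‖E0 χ X - sm lam (E0 χ) X‖ ^ 2) ≤
      C * R * X ^ (2 * c + 2 * δ) * lam ^ (-δ) := by
  obtain ⟨C1, hC1, h1⟩ := kl9_pr hθ h hc hc1 hδ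
  obtain ⟨C2, hC2, h2⟩ := kl9_two hθ h hc hc1 hδ hδ1
  obtain ⟨C3, hC3, h3⟩ := kl9_ei hδ hδ1
  refine ⟨3 * (C1 + C2 + C3), by linarith, ?_⟩
  intro R X lam hR hRX hl hl1
  have hR1 : (1 : ℝ) ≤ R := by exact_mod_cast hR
  have hR0 : (0 : ℝ) < R := by linarith
  have hX : 1 ≤ X := (Real.one_le_rpow hR1 (by norm_num)).trans hRX
  have hX0 : 0 < X := by linarith
  have hRX1 : (R : ℝ) ≤ X := by
    refine le_trans ?_ hRX
    calc (R : ℝ) = (R : ℝ) ^ (1 : ℝ) := (Real.rpow_one _).symm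
      _ ≤ (R : ℝ) ^ (16 / 7 : ℝ) := Real.rpow_le_rpow_of_exponent_le hR1 (by norm_num)
  have hlp : 1 ≤ lam ^ (-δ) := Real.one_le_rpow_of_pos_of_le_one_of_nonpos hl hl1 (by linarith)
  have hXd : 1 ≤ X ^ δ := Real.one_le_rpow hX hδ.le
  have p2 : 0 < X ^ (2 * c) := Real.rpow_pos_of_pos hX0 _
  have hlp0 : 0 < lam ^ (-δ) := by linarith
  have b1 : SP R (fun _ χ => ‖EE χ X‖ ^ 2) ≤ C1 * R * X ^ (2 * c + 2 * δ) * lam ^ (-δ) := by
    refine (h1 R X hR hRX).trans ?_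
    calc C1 * R * X ^ (2 * c + δ) = C1 * R * X ^ (2 * c + δ) * 1 := by ring
      _ ≤ C1 * R * X ^ (2 * c + 2 * δ) * lam ^ (-δ) := by
          have : X ^ (2 * c + δ) ≤ X ^ (2 * c + 2 * δ) :=
            Real.rpow_le_rpow_of_exponent_le hX (by linarith)
          gcongr
  have b2 : SP R (fun r χ => ‖sm lam (E2 (z9 R) χ) X‖ ^ 2) ≤
      C2 * R * X ^ (2 * c + 2 * δ) * lam ^ (-δ) := by
    refine (h2 R X lam hR hX hl hl1).trans ?_
    have m1 : (R : ℝ) ^ (1 + δ) ≤ R * X ^ δ := by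
      rw [Real.rpow_add hR0, Real.rpow_one]
      exact mul_le_mul_of_nonneg_left (Real.rpow_le_rpow hR0.le hRX1 hδ.le) hR0.le
    have m2 : X ^ (2 * c) * X ^ δ ≤ X ^ (2 * c + 2 * δ) := by
      rw [← Real.rpow_add hX0]
      exact Real.rpow_le_rpow_of_exponent_le hX (by linarith)
    calc C2 * X ^ (2 * c) * (R : ℝ) ^ (1 + δ) * lam ^ (-δ)
        ≤ C2 * X ^ (2 * c) * (R * X ^ δ) * lam ^ (-δ) := by gcongr
      _ = C2 * R * (X ^ (2 * c) * X ^ δ) * lam ^ (-δ) := by ring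
      _ ≤ _ := by gcongr
  have b3 : SP R (fun r χ => ‖sm lam (EI (z9 R) χ) X‖ ^ 2) ≤
      C3 * R * X ^ (2 * c + 2 * δ) * lam ^ (-δ) := by
    refine (h3 R X lam hR hRX hl hl1).trans ?_
    have : X ^ (25 / 16 + 2 * δ) ≤ X ^ (2 * c + 2 * δ) :=
      Real.rpow_le_rpow_of_exponent_le hX (by linarith)
    gcongr
  have k4 : SP R (fun r χ => ‖E0 χ X - sm lam (E0 χ) X‖ ^ 2) ≤ SP R (fun r χ =>
      3 * (‖EE χ X‖ ^ 2 + ‖sm lam (E2 (z9 R) χ) X‖ ^ 2 + ‖sm lam (EI (z9 R) χ) X‖ ^ 2)) := by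
    apply kl9_sp_le
    intro r hr χ hχ
    have e1 := sm_split (z9 R) r χ hl hX
    have e3 : E0 χ X = EE χ X := by
      unfold XS.E0
      rw [if_neg (not_lt.2 hX)]
    have e2 : E0 χ X - sm lam (E0 χ) X = EE χ X + -(sm lam (E2 (z9 R) χ) X) +
        -(sm lam (EI (z9 R) χ) X) := by
      rw [e1, e3]; ring
    have e4 := kl9_three e2
    rwa [norm_neg, norm_neg] at e4
  rw [kl9_sp_three] at k4
  refine k4.trans ?_
  calc _ ≤ 3 * (C1 * R * X ^ (2 * c + 2 * δ) * lam ^ (-δ) +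
        C2 * R * X ^ (2 * c + 2 * δ) * lam ^ (-δ) +
        C3 * R * X ^ (2 * c + 2 * δ) * lam ^ (-δ)) := by linarith
    _ = _ := by ring

theorem kd9_pr {θ c ε : ℝ} (hθ : 25 / 32 ≤ θ) (h : ZF θ) (hc : θ < c) (hc1 : c < 1)
    (hε : 0 < ε) :
    ∃ C : ℝ, 1 ≤ C ∧ ∀ (R : ℕ) (X Δ : ℝ), 1 ≤ R → (R : ℝ) ^ (16 / 7 : ℝ) ≤ X → 1 / X ≤ Δ →
    Δ ≤ 1 → SP R (fun _ χ => ∫ β in (-Δ)..Δ, ‖EB χ X β‖ ^ 2) ≤ C * R * Δ * X ^ (2 * c + ε) := by
  classical
  obtain ⟨δ, hδ0, hδ1, hδ2⟩ : ∃ δ : ℝ, 0 < δ ∧ δ ≤ 1 / 4 ∧ 4 * δ ≤ ε := by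
    refine ⟨min (ε / 4) (1 / 4), lt_min (by linarith) (by norm_num), min_le_right _ _, ?_⟩
    have := min_le_left (ε / 4) (1 / 4)
    linarith
  obtain ⟨Ck, hCk, hk⟩ := km9 hθ h hc hc1 hδ0
  obtain ⟨Cd, hCd, hld⟩ := kl9_ld hδ0
  obtain ⟨Cb, hCb, hb⟩ := kd9_bd hθ h hc hc1 hδ0 hδ1
  obtain ⟨Cc, hCc, hcore⟩ := kd9_core (c₁ := c) (c₂ := 1 / 2 + 1 / 1000) hδ0 hδ1 (by linarith)
    hc1.le (by norm_num) (by norm_num)
  refine ⟨3 * (Cc * (Ck + 2 * Cd + Cb)) + 200, by nlinarith, ?_⟩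
  intro R X Δ hR hRX hXΔ hΔ1
  have hR1 : (1 : ℝ) ≤ R := by exact_mod_cast hR
  have hR0 : (0 : ℝ) < R := by linarith
  have hX : 1 ≤ X := (Real.one_le_rpow hR1 (by norm_num)).trans hRX
  have hX0 : 0 < X := by linarith
  have hRX1 : (R : ℝ) ≤ X := by
    refine le_trans ?_ hRX
    calc (R : ℝ) = (R : ℝ) ^ (1 : ℝ) := (Real.rpow_one _).symm
      _ ≤ (R : ℝ) ^ (16 / 7 : ℝ) := Real.rpow_le_rpow_of_exponent_le hR1 (by norm_num)
  have hΔ0 : 0 < Δ := lt_of_lt_of_le (by positivity) hXΔ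
  have hU1 : 1 ≤ X * Δ := by
    rw [div_le_iff₀ hX0] at hXΔ
    linarith
  have hU0 : 0 < X * Δ := by linarith
  have hUX : X * Δ ≤ X := by nlinarith
  obtain ⟨lam, hlam⟩ : ∃ lam : ℝ, lam = (X * Δ) ^ (-2 : ℝ) := ⟨_, rfl⟩
  have hl0 : 0 < lam := by
    rw [hlam]
    positivity
  have hl1 : lam ≤ 1 := by
    rw [hlam]
    exact Real.rpow_le_one_of_one_le_of_nonpos hU1 (by norm_num)
  have hlp : lam ^ (-δ) ≤ X ^ (2 * δ) := by
    rw [hlam, ← Real.rpow_mul hU0.le, show -2 * -δ = 2 * δ by ring]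
    exact Real.rpow_le_rpow hU0.le hUX (by positivity)
  obtain ⟨S, hS⟩ : ∃ S : Finset (Σ r : ℕ, DirichletCharacter ℂ r),
    S = (Ico R (2 * R)).sigma (fun r => Pr r) := ⟨_, rfl⟩
  have hsp : ∀ f : (r : ℕ) → DirichletCharacter ℂ r → ℝ, SP R f = ∑ i ∈ S, f i.1 i.2 := fun f => by
    rw [kdf_sp, hS]
  have hrep : ∀ i ∈ S, Rep (E2 (z9 R) i.2) (KK (z9 R) i.2) c := by
    intro i hi
    rw [hS, Finset.mem_sigma, Finset.mem_Ico] at hi
    exact kl9_rep (by linarith) h hc hc1 i.1 (z9 R) (hR.trans hi.1.1) i.2 hi.2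
  obtain ⟨M, hM⟩ : ∃ M : ℝ, M = Ck * (R : ℝ) ^ (1 + δ) := ⟨_, rfl⟩
  have hM0 : 0 ≤ M := by
    rw [hM]
    positivity
  have hMT : ∀ T : ℝ, 1 ≤ T → ∑ i ∈ S, ∫ t in (-T)..T, nH (KK (z9 R) i.2) c t ^ 2 ≤
      M * T ^ (1 + δ) := by
    intro T hT
    have h1 := hk R T hR hT
    rw [hsp, Real.mul_rpow (by linarith) (by linarith)] at h1
    rw [hM, mul_assoc]
    exact h1
  -- the boundary
  have hbd : ∑ i ∈ S, ‖E0 i.2 X - sm ((X * Δ) ^ (-2 : ℝ)) (E0 i.2) X‖ ^ 2 ≤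
      Cb * R * X ^ (2 * c + ε) := by
    have h1 := hb R X lam hR hRX hl0 hl1
    rw [hsp, hlam] at h1
    refine h1.trans ?_
    rw [← hlam]
    calc Cb * R * X ^ (2 * c + 2 * δ) * lam ^ (-δ) ≤
        Cb * R * X ^ (2 * c + 2 * δ) * X ^ (2 * δ) := by gcongr
      _ = Cb * R * X ^ (2 * c + 4 * δ) := by
          rw [mul_assoc, ← Real.rpow_add hX0]
          congr 2
          ring
      _ ≤ Cb * R * X ^ (2 * c + ε) := by
          have : X ^ (2 * c + 4 * δ) ≤ X ^ (2 * c + ε) :=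
            Real.rpow_le_rpow_of_exponent_le hX (by linarith)
          gcongr
  have hM1 : Δ * X ^ δ * (X ^ (2 * c) * M) ≤ Ck * (R * Δ * X ^ (2 * c + ε)) := by
    have m1 : (R : ℝ) ^ (1 + δ) ≤ R * X ^ δ := by
      rw [Real.rpow_add hR0, Real.rpow_one]
      exact mul_le_mul_of_nonneg_left (Real.rpow_le_rpow hR0.le hRX1 hδ0.le) hR0.le
    calc Δ * X ^ δ * (X ^ (2 * c) * M) ≤ Δ * X ^ δ * (X ^ (2 * c) * (Ck * (R * X ^ δ))) := by
          rw [hM]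
          gcongr
      _ = Ck * (R * Δ * (X ^ (2 * c) * X ^ δ * X ^ δ)) := by ring
      _ = Ck * (R * Δ * X ^ (2 * c + δ + δ)) := by rw [Real.rpow_add hX0, Real.rpow_add hX0]
      _ ≤ Ck * (R * Δ * X ^ (2 * c + ε)) := by
          have : X ^ (2 * c + δ + δ) ≤ X ^ (2 * c + ε) :=
            Real.rpow_le_rpow_of_exponent_le hX (by linarith)
          gcongr
  -- the core estimate
  have hcore2 : ∑ i ∈ S, ∫ β in (-Δ)..Δ, ‖Bf (E0 i.2) X β‖ ^ 2 ≤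
      Cc * (Ck + 2 * Cd + Cb) * (R * Δ * X ^ (2 * c + ε)) := by
    have hP0 : 0 ≤ R * Δ * X ^ (2 * c + ε) := by positivity
    rcases Nat.lt_or_ge 1 R with h1 | h1
    · have hrep2 : ∀ i ∈ S, Rep (EI (z9 R) i.2) (KL (z9 R) i.2) (1 / 2 + 1 / 1000) := by
        rw [hS]
        exact kl9_rep_ei h1
      obtain ⟨M2, hM2⟩ : ∃ M2 : ℝ, M2 = Cd * (((R : ℝ) * z9 R) ^ δ *
        ((R : ℝ) ^ 2 + z9 R * Real.sqrt R)) := ⟨_, rfl⟩
      have hM20 : 0 ≤ M2 := by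
        rw [hM2]
        positivity
      have h2 := hcore _ S (fun i => E0 i.2) (fun i => E2 (z9 R) i.2) (fun i => EI (z9 R) i.2)
        (fun i => KK (z9 R) i.2) (fun i => KL (z9 R) i.2)
        (fun i _ x => by
          show E0 i.2 x = E2 (z9 R) i.2 x + EI (z9 R) i.2 x
          unfold E2
          ring)
        hrep hrep2 M M2 hM0 hM20 hMT
        (fun T hT => by
          rw [hS, hM2]
          exact hld R h1 T hT) X Δ hX hXΔ hΔ1
      refine h2.trans ?_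
      have hM3 : Δ * X ^ δ * (X ^ (2 * (1 / 2 + 1 / 1000) : ℝ) * M2) ≤
          2 * Cd * (R * Δ * X ^ (2 * c + ε)) := by
        have e1 : (2 * (1 / 2 + 1 / 1000) : ℝ) = 1 + 1 / 500 := by norm_num
        have hs := kl9_size hδ0 hR hRX
        rw [e1, hM2]
        calc Δ * X ^ δ * (X ^ (1 + 1 / 500 : ℝ) * (Cd * (((R : ℝ) * z9 R) ^ δ *
              ((R : ℝ) ^ 2 + z9 R * Real.sqrt R))))
            = Cd * (Δ * X ^ δ * (X ^ (1 + 1 / 500 : ℝ) * (((R : ℝ) * z9 R) ^ δ *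
              ((R : ℝ) ^ 2 + z9 R * Real.sqrt R)))) := by ring
          _ ≤ Cd * (Δ * X ^ δ * (2 * R * X ^ (25 / 16 + 2 * δ))) := by gcongr
          _ = 2 * Cd * (R * Δ * (X ^ (25 / 16 + 2 * δ) * X ^ δ)) := by ring
          _ = 2 * Cd * (R * Δ * X ^ (25 / 16 + 2 * δ + δ)) := by rw [← Real.rpow_add hX0]
          _ ≤ 2 * Cd * (R * Δ * X ^ (2 * c + ε)) := by
              have : X ^ (25 / 16 + 2 * δ + δ) ≤ X ^ (2 * c + ε) :=
                Real.rpow_le_rpow_of_exponent_le hX (by linarith)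
              gcongr
      have hB2 : Δ * ∑ i ∈ S, ‖E0 i.2 X - sm ((X * Δ) ^ (-2 : ℝ)) (E0 i.2) X‖ ^ 2 ≤
          Cb * (R * Δ * X ^ (2 * c + ε)) := by
        calc _ ≤ Δ * (Cb * R * X ^ (2 * c + ε)) := mul_le_mul_of_nonneg_left hbd hΔ0.le
          _ = _ := by ring
      calc _ ≤ Cc * (Ck * (R * Δ * X ^ (2 * c + ε)) + 2 * Cd * (R * Δ * X ^ (2 * c + ε)) +
            Cb * (R * Δ * X ^ (2 * c + ε))) := by
            apply mul_le_mul_of_nonneg_left _ (by linarith)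
            rw [mul_add]
            linarith
        _ = _ := by ring
    · have hR2 : R = 1 := le_antisymm h1 hR
      have h2 := hcore _ S (fun i => E0 i.2) (fun i => E2 (z9 R) i.2) (fun _ _ => 0)
        (fun i => KK (z9 R) i.2) (fun _ _ => 0)
        (fun i hi x => by
          show E0 i.2 x = E2 (z9 R) i.2 x + 0
          rw [hS, Finset.mem_sigma, Finset.mem_Ico] at hi
          have h3 : i.2 = 1 := kl9_pr_one (by omega) i.2
          unfold E2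
          rw [kl9_ei_one _ _ h3]
          ring)
        hrep (fun _ _ => rep_zero _) M 0 hM0 le_rfl hMT
        (fun T hT => by simp [nH]) X Δ hX hXΔ hΔ1
      refine h2.trans ?_
      have hB2 : Δ * ∑ i ∈ S, ‖E0 i.2 X - sm ((X * Δ) ^ (-2 : ℝ)) (E0 i.2) X‖ ^ 2 ≤
          Cb * (R * Δ * X ^ (2 * c + ε)) := by
        calc _ ≤ Δ * (Cb * R * X ^ (2 * c + ε)) := mul_le_mul_of_nonneg_left hbd hΔ0.le
          _ = _ := by ring
      calc _ ≤ Cc * (Ck * (R * Δ * X ^ (2 * c + ε)) + 2 * Cd * (R * Δ * X ^ (2 * c + ε)) +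
            Cb * (R * Δ * X ^ (2 * c + ε))) := by
            apply mul_le_mul_of_nonneg_left _ (by linarith)
            rw [mul_zero, add_zero]
            have : 0 ≤ 2 * Cd * (R * Δ * X ^ (2 * c + ε)) := by positivity
            linarith
        _ = _ := by ring
  -- the trivial character
  have t3 := kdf_one R (a := 200 * Δ) (by positivity)
  have hX2 : 1 ≤ X ^ (2 * c + ε) := Real.one_le_rpow hX (by linarith)
  have t4 : (R : ℝ) * (200 * Δ) ≤ 200 * (R * Δ * X ^ (2 * c + ε)) := by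
    calc (R : ℝ) * (200 * Δ) = 200 * (R * Δ * 1) := by ring
      _ ≤ _ := by gcongr
  have key : SP R (fun r χ => ∫ β in (-Δ)..Δ, ‖EB χ X β‖ ^ 2) ≤
      3 * SP R (fun r χ => ∫ β in (-Δ)..Δ, ‖Bf (E0 χ) X β‖ ^ 2) +
      SP R (fun _ χ => if χ = 1 then 200 * Δ else 0) := by
    rw [kdf_sp, kdf_sp, kdf_sp, Finset.mul_sum, ← Finset.sum_add_distrib]
    refine Finset.sum_le_sum fun i hi => ?_
    rw [Finset.mem_sigma, Finset.mem_Ico] at hi
    have := kd9_char (kl9_rep (by linarith) h hc hc1 i.1 (z9 R) (hR.trans hi.1.1) i.2 hi.2)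
      hX hΔ0.le hΔ1
    convert this
  have t3' : SP R (fun _ χ => if χ = 1 then 200 * Δ else 0) ≤ R * (200 * Δ) := by
    convert t3
  refine key.trans ?_
  rw [hsp (fun r χ => ∫ β in (-Δ)..Δ, ‖Bf (E0 χ) X β‖ ^ 2)]
  calc _ ≤ 3 * (Cc * (Ck + 2 * Cd + Cb) * (R * Δ * X ^ (2 * c + ε))) +
        200 * (R * Δ * X ^ (2 * c + ε)) := by linarith
    _ = _ := by ring

theorem kd9 : type_of% @kd9_pr := @kd9_pr

end Pool.Agent.XT

/-! ### Block LF9 -/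

/-! XT, block LF9 (helper26): the sum of `LX`, `κ ≥ 9/16` -/

namespace Pool.Agent.XT

open Finset Complex MeasureTheory Pool.Agent.Var35 Pool.Agent.Var73 Pool.Agent.HC Pool.Agent.MF
  Pool.Agent.XS
open scoped ArithmeticFunction ArithmeticFunction.Moebius

theorem lfin9_pr {θ ε η : ℝ} (hθ : 25 / 32 ≤ θ) (hθ1 : θ < 1) (h : ZF θ) (hε : 0 < ε)
    (hη : 0 < η) : ∃ C : ℝ, ∀ (X : ℝ) (Y : ℕ), C ≤ X → X ^ (2 * θ - 1 + ε) ≤ (Y : ℝ) →
    (Y : ℝ) ≤ X → ∑ Q ∈ Icc 1 Y, LX X Q (X / Q * Real.log X ^ 8) ≤ η * X * Y := by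
  set c : ℝ := min (θ + ε / 8) ((1 + θ) / 2) with hc
  have hc1 : θ < c := lt_min (by linarith) (by linarith)
  have hc2 : c < 1 := lt_of_le_of_lt (min_le_right _ _) (by linarith)
  have hc3 : c ≤ θ + ε / 8 := min_le_left _ _
  obtain ⟨C₁, hC₁1, hC₁⟩ := lsum
  obtain ⟨C₂, hC₂1, hC₂⟩ := kl9_pr hθ h hc1 hc2 (show 0 < ε / 4 by linarith)
  have hA : 0 < η / (2 * (C₁ * (9 * C₂ + 396))) := by positivity
  obtain ⟨C₃, hC₃3, hC₃⟩ := lfi_log 4 (show 0 < ε / 2 by linarith) hA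
  obtain ⟨C₄, hC₄3, hC₄⟩ := lfi_log 4 (show (0 : ℝ) < 1 by norm_num) (show 0 < η / 16 by positivity)
  obtain ⟨C₅, hC₅3, hC₅⟩ := lfi_log 4 (show (0 : ℝ) < 1 / 16 by norm_num)
    (show (0 : ℝ) < 1 by norm_num)
  refine ⟨max (max C₃ C₄) C₅, fun X Y hX hY hYX => ?_⟩
  have hXC₃ : C₃ ≤ X := (le_max_left _ _).trans ((le_max_left _ _).trans hX)
  have hXC₄ : C₄ ≤ X := (le_max_right _ _).trans ((le_max_left _ _).trans hX)
  have hXC₅ : C₅ ≤ X := (le_max_right _ _).trans hX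
  have hX3 : 3 ≤ X := hC₃3.trans hXC₃
  have hX1 : 1 ≤ X := by linarith
  have hX0 : 0 < X := by linarith
  have hl1 : 1 ≤ Real.log X := by
    rw [Real.le_log_iff_exp_le hX0]
    exact Real.exp_one_lt_three.le.trans hX3
  have hY1 : 1 ≤ Y := by
    have : (0 : ℝ) < Y := lt_of_lt_of_le (Real.rpow_pos_of_pos hX0 _) hY
    exact_mod_cast this
  have hYp : (0 : ℝ) < Y := by exact_mod_cast hY1
  refine (hC₁ X Y hX3 hY1 hYX).trans ?_
  set M : ℕ := ⌊Real.sqrt X * Real.log X ^ 4⌋₊ with hM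
  set F : ℕ → ℝ := fun r => (1 / (Nat.totient r : ℝ)) * ∑ χ ∈ Pr r, ‖EE χ X‖ ^ 2 with hF
  have hF0 : ∀ r, 0 ≤ F r := fun r => by
    simp only [hF]
    positivity
  set u : ℝ := X ^ (7 / 16 : ℝ) with hu
  set v : ℝ := X ^ (9 / 16 : ℝ) with hv
  have hu0 : 0 < u := Real.rpow_pos_of_pos hX0 _
  have hv0 : 0 < v := Real.rpow_pos_of_pos hX0 _
  have huv : u * v = X := by
    rw [hu, hv, ← Real.rpow_add hX0]
    norm_num
  have hu1 : 1 ≤ u := Real.one_le_rpow hX1 (by norm_num)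
  have hu16 : ∀ r : ℕ, ¬ (r : ℝ) ^ (16 / 7 : ℝ) ≤ X → u < r := by
    intro r hr
    rw [not_le] at hr
    have h1 : X ^ (7 / 16 : ℝ) < ((r : ℝ) ^ (16 / 7 : ℝ)) ^ (7 / 16 : ℝ) :=
      Real.rpow_lt_rpow hX0.le hr (by norm_num)
    rw [← Real.rpow_mul (Nat.cast_nonneg _)] at h1
    norm_num at h1
    exact h1
  have hMu : ∀ r ∈ Icc 1 M, (r : ℝ) ≤ v := by
    intro r hr
    rw [Finset.mem_Icc] at hr
    have h1 : (r : ℝ) ≤ Real.sqrt X * Real.log X ^ 4 :=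
      (Nat.le_floor_iff (by positivity)).1 hr.2
    have h2 := hC₅ X hXC₅
    rw [one_mul] at h2
    refine h1.trans ((mul_le_mul_of_nonneg_left h2 (Real.sqrt_nonneg _)).trans (le_of_eq ?_))
    rw [Real.sqrt_eq_rpow, ← Real.rpow_add hX0, hv]
    norm_num
  have huX : v ≤ X := by
    rw [← huv]
    nlinarith
  set J : ℕ := Nat.log 2 ⌊X⌋₊ + 1 with hJ
  -- number of blocks
  have hfl0 : ⌊X⌋₊ ≠ 0 := by
    have : 0 < ⌊X⌋₊ := Nat.floor_pos.2 hX1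
    omega
  have hJle : (J : ℝ) ≤ 3 * Real.log X := by
    have h1 : ((2 ^ Nat.log 2 ⌊X⌋₊ : ℕ) : ℝ) ≤ X := by
      have := Nat.pow_log_le_self 2 hfl0
      exact (Nat.cast_le.2 this).trans (Nat.floor_le hX0.le)
    have h2 : (Nat.log 2 ⌊X⌋₊ : ℝ) * Real.log 2 ≤ Real.log X := by
      have := Real.log_le_log (by positivity) h1
      rw [Nat.cast_pow, Real.log_pow] at this
      exact_mod_cast this
    have h3 := Real.log_two_gt_d9
    have h4 : (Nat.log 2 ⌊X⌋₊ : ℝ) * (1 / 2) ≤ Real.log X := by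
      refine le_trans ?_ h2
      apply mul_le_mul_of_nonneg_left _ (by positivity)
      linarith
    rw [hJ]
    push_cast
    linarith
  have hlogM : ∀ r ∈ Icc 1 M, Nat.log 2 r ∈ range J := by
    intro r hr
    rw [Finset.mem_range, hJ, Nat.lt_succ_iff]
    apply Nat.log_mono_right
    apply Nat.le_floor
    exact (hMu r hr).trans huX
  -- membership in the block
  have hblk : ∀ r ∈ Icc 1 M, 2 ^ Nat.log 2 r ≤ r ∧ r < 2 * 2 ^ Nat.log 2 r := by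
    intro r hr
    rw [Finset.mem_Icc] at hr
    refine ⟨Nat.pow_log_le_self 2 (by omega), ?_⟩
    have := Nat.lt_pow_succ_log_self (by norm_num : 1 < 2) r
    rw [pow_succ] at this
    omega
  -- small and large moduli
  set Ss : Finset ℕ := (Icc 1 M).filter (fun r => (r : ℝ) ^ (16 / 7 : ℝ) ≤ X) with hSs
  set Sl : Finset ℕ := (Icc 1 M).filter (fun r => ¬ (r : ℝ) ^ (16 / 7 : ℝ) ≤ X) with hSl
  have hsplit : ∑ r ∈ Icc 1 M, F r = ∑ r ∈ Ss, F r + ∑ r ∈ Sl, F r :=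
    (Finset.sum_filter_add_sum_filter_not _ _ _).symm
  have hXe : 0 < X ^ (2 * θ + ε / 2) := Real.rpow_pos_of_pos hX0 _
  have hsmall : ∑ r ∈ Ss, F r ≤ 9 * C₂ * Real.log X ^ 2 * X ^ (2 * θ + ε / 2) := by
    have hmaps : ∀ r ∈ Ss, Nat.log 2 r ∈ range J := fun r hr =>
      hlogM r (Finset.mem_filter.1 hr).1
    rw [← Finset.sum_fiberwise_of_maps_to hmaps]
    have hone : ∀ j ∈ range J, ∑ r ∈ Ss.filter (fun r => Nat.log 2 r = j), F r ≤
        3 * Real.log X * (C₂ * X ^ (2 * θ + ε / 2)) := by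
      intro j hj
      rcases (Ss.filter (fun r => Nat.log 2 r = j)).eq_empty_or_nonempty with he | ⟨r₀, hr₀⟩
      · rw [he, Finset.sum_empty]; positivity
      · have hr₀' := Finset.mem_filter.1 hr₀
        have hr₀'' := Finset.mem_filter.1 hr₀'.1
        have hb0 := hblk r₀ hr₀''.1
        rw [hr₀'.2] at hb0
        have hcube : (((2 ^ j : ℕ) : ℕ) : ℝ) ^ (16 / 7 : ℝ) ≤ X := by
          refine le_trans ?_ hr₀''.2
          exact Real.rpow_le_rpow (by positivity) (by exact_mod_cast hb0.1) (by norm_num)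
        have hk := hC₂ (2 ^ j) X (Nat.one_le_two_pow) hcube
        unfold SP at hk
        have h2j : (0 : ℝ) < 2 ^ j := by positivity
        have hsub : ∑ r ∈ Ss.filter (fun r => Nat.log 2 r = j), F r ≤
            ∑ r ∈ Ss.filter (fun r => Nat.log 2 r = j),
              (3 * Real.log X / 2 ^ j) * ∑ χ ∈ Pr r, ‖EE χ X‖ ^ 2 := by
          refine Finset.sum_le_sum fun r hr => ?_
          have hr' := Finset.mem_filter.1 hr
          have hr'' := Finset.mem_filter.1 hr'.1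
          have hb := hblk r hr''.1
          rw [hr'.2] at hb
          have hr1 := (Finset.mem_Icc.1 hr''.1).1
          simp only [hF]
          apply mul_le_mul_of_nonneg_right _ (by positivity)
          have ht := totient_ge r hr1
          have hφ : (0 : ℝ) < Nat.totient r := by exact_mod_cast Nat.totient_pos.mpr hr1
          have hrp : (0 : ℝ) < r := by exact_mod_cast hr1
          have hlr : Real.log r ≤ Real.log X :=
            Real.log_le_log hrp ((hMu r hr''.1).trans huX)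
          rw [div_le_div_iff₀ hφ h2j, one_mul]
          calc (2 : ℝ) ^ j ≤ r := by exact_mod_cast hb.1
            _ ≤ (2 * Real.log r + 1) * (Nat.totient r : ℝ) := ht
            _ ≤ 3 * Real.log X * Nat.totient r := by
              apply mul_le_mul_of_nonneg_right _ hφ.le
              linarith
        have hsub2 : ∑ r ∈ Ss.filter (fun r => Nat.log 2 r = j),
              (3 * Real.log X / 2 ^ j) * ∑ χ ∈ Pr r, ‖EE χ X‖ ^ 2 ≤
            ∑ r ∈ Ico (2 ^ j) (2 * 2 ^ j),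
              (3 * Real.log X / 2 ^ j) * ∑ χ ∈ Pr r, ‖EE χ X‖ ^ 2 := by
          apply Finset.sum_le_sum_of_subset_of_nonneg
          · intro r hr
            have hr' := Finset.mem_filter.1 hr
            have hr'' := Finset.mem_filter.1 hr'.1
            have hb := hblk r hr''.1
            rw [hr'.2] at hb
            exact Finset.mem_Ico.2 hb
          · intro r _ _
            positivity
        refine hsub.trans (hsub2.trans ?_)
        rw [← Finset.mul_sum]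
        refine (mul_le_mul_of_nonneg_left hk (by positivity)).trans ?_
        have hexp : X ^ (2 * c + ε / 4) ≤ X ^ (2 * θ + ε / 2) :=
          Real.rpow_le_rpow_of_exponent_le hX1 (by linarith)
        have e1 : 3 * Real.log X / 2 ^ j * (C₂ * ((2 ^ j : ℕ) : ℝ) * X ^ (2 * c + ε / 4)) =
            3 * Real.log X * (C₂ * X ^ (2 * c + ε / 4)) := by
          push_cast
          field_simp
        rw [e1]
        apply mul_le_mul_of_nonneg_left _ (by positivity)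
        exact mul_le_mul_of_nonneg_left hexp (by positivity)
    refine (Finset.sum_le_sum hone).trans ?_
    rw [Finset.sum_const, Finset.card_range, nsmul_eq_mul]
    calc (J : ℝ) * (3 * Real.log X * (C₂ * X ^ (2 * θ + ε / 2))) ≤
          (3 * Real.log X) * (3 * Real.log X * (C₂ * X ^ (2 * θ + ε / 2))) :=
        mul_le_mul_of_nonneg_right hJle (by positivity)
      _ = _ := by ring
  have hlarge : ∑ r ∈ Sl, F r ≤ 396 * Real.log X ^ 3 * X ^ (2 * θ + ε / 2) := by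
    have hmaps : ∀ r ∈ Sl, Nat.log 2 r ∈ range J := fun r hr =>
      hlogM r (Finset.mem_filter.1 hr).1
    rw [← Finset.sum_fiberwise_of_maps_to hmaps]
    have hone : ∀ j ∈ range J, ∑ r ∈ Sl.filter (fun r => Nat.log 2 r = j), F r ≤
        22 * X * Real.log X ^ 2 * (6 * v) := by
      intro j hj
      rcases (Sl.filter (fun r => Nat.log 2 r = j)).eq_empty_or_nonempty with he | ⟨r₀, hr₀⟩
      · rw [he, Finset.sum_empty]; positivity
      · have hr₀' := Finset.mem_filter.1 hr₀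
        have hr₀'' := Finset.mem_filter.1 hr₀'.1
        have hb0 := hblk r₀ hr₀''.1
        rw [hr₀'.2] at hb0
        have h2j : (0 : ℝ) < 2 ^ j := by positivity
        have hur : u < r₀ := hu16 r₀ hr₀''.2
        have hu2j : u ≤ 2 * 2 ^ j := by
          refine hur.le.trans ?_
          exact_mod_cast hb0.2.le
        have hju : (2 : ℝ) ^ j ≤ v := by
          refine le_trans ?_ (hMu r₀ hr₀''.1)
          exact_mod_cast hb0.1
        refine (lfi_large hX1 j _ ?_).trans ?_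
        · intro r hr
          have hr' := Finset.mem_filter.1 hr
          have hr'' := Finset.mem_filter.1 hr'.1
          have hb := hblk r hr''.1
          rw [hr'.2] at hb
          refine ⟨?_, hb⟩
          have h1 := hu16 r hr''.2
          have h3 : (1 : ℝ) < r := lt_of_le_of_lt hu1 h1
          have h4 : 1 < r := by exact_mod_cast h3
          omega
        · apply mul_le_mul_of_nonneg_left _ (by positivity)
          have h5 : X / 2 ^ j ≤ 2 * v := by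
            rw [div_le_iff₀ h2j, ← huv]
            nlinarith [mul_le_mul_of_nonneg_left hu2j hv0.le]
          linarith
    refine (Finset.sum_le_sum hone).trans ?_
    rw [Finset.sum_const, Finset.card_range, nsmul_eq_mul]
    have h6 : X * v ≤ X ^ (2 * θ + ε / 2) := by
      have : X * v = X ^ (25 / 16 : ℝ) := by
        rw [hv]
        nth_rewrite 1 [← Real.rpow_one X]
        rw [← Real.rpow_add hX0]
        norm_num
      rw [this]
      exact Real.rpow_le_rpow_of_exponent_le hX1 (by linarith)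
    calc (J : ℝ) * (22 * X * Real.log X ^ 2 * (6 * v)) ≤
          (3 * Real.log X) * (22 * X * Real.log X ^ 2 * (6 * v)) :=
        mul_le_mul_of_nonneg_right hJle (by positivity)
      _ = 396 * Real.log X ^ 3 * (X * v) := by ring
      _ ≤ _ := mul_le_mul_of_nonneg_left h6 (by positivity)
  have hsum : ∑ r ∈ Icc 1 M, F r ≤ (9 * C₂ + 396) * Real.log X ^ 3 * X ^ (2 * θ + ε / 2) := by
    rw [hsplit]
    have h7 : 9 * C₂ * Real.log X ^ 2 * X ^ (2 * θ + ε / 2) ≤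
        9 * C₂ * Real.log X ^ 3 * X ^ (2 * θ + ε / 2) := by
      apply mul_le_mul_of_nonneg_right _ hXe.le
      apply mul_le_mul_of_nonneg_left _ (by positivity)
      exact pow_le_pow_right₀ hl1 (by norm_num)
    nlinarith [hsmall, hlarge, h7]
  have hfin1 : C₁ * Real.log X * ∑ r ∈ Icc 1 M, F r ≤ η / 2 * X * Y := by
    calc C₁ * Real.log X * ∑ r ∈ Icc 1 M, F r ≤
          C₁ * Real.log X * ((9 * C₂ + 396) * Real.log X ^ 3 * X ^ (2 * θ + ε / 2)) :=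
        mul_le_mul_of_nonneg_left hsum (by positivity)
      _ = (C₁ * (9 * C₂ + 396)) * Real.log X ^ 4 * X ^ (2 * θ + ε / 2) := by ring
      _ ≤ (C₁ * (9 * C₂ + 396)) * (η / (2 * (C₁ * (9 * C₂ + 396))) * X ^ (ε / 2)) *
          X ^ (2 * θ + ε / 2) := by
        apply mul_le_mul_of_nonneg_right _ hXe.le
        exact mul_le_mul_of_nonneg_left (hC₃ X hXC₃) (by positivity)
      _ = η / 2 * (X ^ (ε / 2) * X ^ (2 * θ + ε / 2)) := by
        field_simp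
      _ = η / 2 * (X * X ^ (2 * θ - 1 + ε)) := by
        rw [← Real.rpow_add hX0]
        nth_rewrite 2 [← Real.rpow_one X]
        rw [← Real.rpow_add hX0]
        congr 2
        ring
      _ ≤ η / 2 * (X * Y) := by
        apply mul_le_mul_of_nonneg_left _ (by positivity)
        exact mul_le_mul_of_nonneg_left hY hX0.le
      _ = _ := by ring
  have hfin2 : 8 * Y * Real.log X ^ 4 ≤ η / 2 * X * Y := by
    have h8 := hC₄ X hXC₄
    rw [Real.rpow_one] at h8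
    calc 8 * Y * Real.log X ^ 4 ≤ 8 * Y * (η / 16 * X) :=
        mul_le_mul_of_nonneg_left h8 (by positivity)
      _ = _ := by ring
  calc C₁ * Real.log X * ∑ r ∈ Icc 1 M, F r + 8 * Y * Real.log X ^ 4 ≤
        η / 2 * X * Y + η / 2 * X * Y := add_le_add hfin1 hfin2
    _ = _ := by ring

theorem lfin9 : type_of% @lfin9_pr := @lfin9_pr

end Pool.Agent.XT

/-! ### Block DF9 -/

/-! XT, block DF9 (helper26): the defect, `κ ≥ 9/16` -/

namespace Pool.Agent.XT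

open Finset Complex MeasureTheory Pool.Agent.Var35 Pool.Agent.Var73 Pool.Agent.HC Pool.Agent.MF
  Pool.Agent.XS
open scoped ArithmeticFunction ArithmeticFunction.Moebius

theorem dfin9_pr {θ ε η : ℝ} (hθ : 25 / 32 ≤ θ) (hθ1 : θ < 1) (h : ZF θ) (hε : 0 < ε)
    (hη : 0 < η) : ∃ C : ℝ, ∀ (X : ℝ) (Y : ℕ), C ≤ X → X ^ (2 * θ - 1 + ε) ≤ (Y : ℝ) →
    (Y : ℝ) ≤ X → MF.DD X Y ≤ η * X * Y := by
  obtain ⟨C₁, hC₁, H₁⟩ := dfar
  obtain ⟨C₂, hC₂, H₂⟩ := dnear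
  set c : ℝ := θ + min (ε / 8) ((1 - θ) / 2) with hc
  have hm0 : 0 < min (ε / 8) ((1 - θ) / 2) := lt_min (by linarith) (by linarith)
  have hcθ : θ < c := by linarith
  have hc1 : c < 1 := by
    have := min_le_right (ε / 8) ((1 - θ) / 2)
    linarith
  have hcε : c ≤ θ + ε / 8 := by
    have := min_le_left (ε / 8) ((1 - θ) / 2)
    linarith
  obtain ⟨C₃, hC₃, H₃⟩ := kd9_pr hθ h hcθ hc1 (ε := ε / 4) (by linarith)
  have hev : ∀ᶠ X : ℝ in Filter.atTop, 3 ≤ X ∧ 1 * Real.log X ^ 12 ≤ X ^ (1 / 16 : ℝ) ∧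
      1 * Real.log X ^ 24 ≤ X ^ (3 * ε) ∧ 1 * Real.log X ^ 8 ≤ X ^ (ε / 4) ∧
      1 * Real.log X ^ 32 ≤ X ^ ε ∧ (3 * C₁ / η) * Real.log X ^ 2 ≤ X ^ (ε / 4) ∧
      (3 * C₂ / η) * Real.log X ^ 12 ≤ X ^ (1 / 6 : ℝ) ∧
      (27 * C₂ * C₃ / η) * Real.log X ^ 3 ≤ X ^ (ε / 4) := by
    refine (Filter.eventually_ge_atTop 3).and ((DFI_ev _ _ _ (by norm_num)).and
      ((DFI_ev _ _ _ (by positivity)).and ((DFI_ev _ _ _ (by positivity)).and
      ((DFI_ev _ _ _ hε).and ((DFI_ev _ _ _ (by positivity)).and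
      ((DFI_ev _ _ _ (by norm_num)).and (DFI_ev _ _ _ (by positivity))))))))
  obtain ⟨C, hC⟩ := Filter.eventually_atTop.1 hev
  refine ⟨C, fun X Y hCX hY hYX => ?_⟩
  obtain ⟨hX3, e1, e2, e3, e4, e5, e6, e7⟩ := hC X hCX
  rw [one_mul] at e1 e2 e3 e4
  set L := Real.log X with hL
  have hX0 : 0 < X := by linarith
  have hX1 : 1 ≤ X := by linarith
  have hL1 : 1 ≤ L := by
    rw [hL, ← Real.log_exp 1]
    apply Real.log_le_log (Real.exp_pos 1)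
    have := Real.exp_one_lt_d9
    linarith
  have hL0 : 0 < L := by linarith
  set V : ℝ := X ^ (ε / 4) with hV
  have hV1 : 1 ≤ V := Real.one_le_rpow hX1 (by positivity)
  have hV0 : 0 < V := by linarith
  have hXY1 : (1 : ℝ) ≤ X ^ (2 * θ - 1 + ε) := Real.one_le_rpow hX1 (by linarith)
  have hY1 : (1 : ℝ) ≤ Y := hXY1.trans hY
  have hY0 : (0 : ℝ) < Y := by linarith
  have hYs : Real.sqrt X * Real.log X ^ 12 ≤ (Y : ℝ) := by
    refine le_trans ?_ hY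
    rw [Real.sqrt_eq_rpow]
    calc X ^ (1 / 2 : ℝ) * L ^ 12 ≤ X ^ (1 / 2 : ℝ) * X ^ (1 / 16 : ℝ) := by gcongr
      _ = X ^ (9 / 16 : ℝ) := by rw [← Real.rpow_add hX0]; norm_num
      _ ≤ X ^ (2 * θ - 1 + ε) := Real.rpow_le_rpow_of_exponent_le hX1 (by linarith)
  have h1 := H₁ X Y V hX3 hYs hYX hV1
  have h2 := H₂ X Y V hX3 hYs hYX hV1
  -- the order of the dissection
  have hRR : (RR X Y : ℝ) ≤ X / Y * L ^ 8 := Nat.floor_le (by positivity)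
  have hRR1 : 1 ≤ RR X Y := by
    unfold RR
    rw [Nat.one_le_floor_iff]
    have h3 : 1 ≤ X / Y := (one_le_div hY0).2 hYX
    have h4 : 1 ≤ L ^ 8 := one_le_pow₀ hL1
    nlinarith
  have hRY : (RR X Y : ℝ) * Y ≤ X * L ^ 8 := by
    calc (RR X Y : ℝ) * Y ≤ X / Y * L ^ 8 * Y := by gcongr
      _ = X * L ^ 8 := by field_simp
  have hRX : (RR X Y : ℝ) ≤ X ^ (2 - 2 * θ - ε) * L ^ 8 := by
    refine hRR.trans ?_
    apply mul_le_mul_of_nonneg_right _ (by positivity)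
    rw [div_le_iff₀ hY0]
    calc X = X ^ (2 - 2 * θ - ε) * X ^ (2 * θ - 1 + ε) := by
          rw [← Real.rpow_add hX0]
          ring_nf
          rw [Real.rpow_one]
      _ ≤ X ^ (2 - 2 * θ - ε) * Y := by gcongr
  have hRX7 : (RR X Y : ℝ) ≤ X ^ (7 / 16 : ℝ) := by
    calc (RR X Y : ℝ) ≤ X ^ (2 - 2 * θ - ε) * L ^ 8 := hRX
      _ ≤ X ^ (2 - 2 * θ - ε) * X ^ (ε / 4) := by gcongr
      _ = X ^ (2 - 2 * θ - ε + ε / 4) := by rw [← Real.rpow_add hX0]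
      _ ≤ X ^ (7 / 16 : ℝ) := Real.rpow_le_rpow_of_exponent_le hX1 (by linarith)
  -- one dyadic block
  have hblock : ∀ R : ℕ, 1 ≤ R → R ≤ RR X Y →
      ∑ r ∈ Ico R (2 * R), ((r : ℝ) / Nat.totient r) *
        ∑ χ ∈ Pr r, ∫ β in (-(V / (r * Y)))..(V / (r * Y)), ‖EB χ X β‖ ^ 2 ≤
      3 * L * (C₃ * (V / Y) * X ^ (2 * c + ε / 4)) := by
    intro R hR1 hRR'
    have hR1' : (1 : ℝ) ≤ R := by exact_mod_cast hR1
    have hR0 : (0 : ℝ) < R := by linarith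
    have hRle : (R : ℝ) ≤ RR X Y := by exact_mod_cast hRR'
    have hR2 : (R : ℝ) ≤ X ^ (2 - 2 * θ - ε) * L ^ 8 := hRle.trans hRX
    have hR3 : (R : ℝ) ^ (16 / 7 : ℝ) ≤ X := by
      calc (R : ℝ) ^ (16 / 7 : ℝ) ≤ (X ^ (7 / 16 : ℝ)) ^ (16 / 7 : ℝ) :=
            Real.rpow_le_rpow hR0.le (hRle.trans hRX7) (by norm_num)
        _ = X := by
            rw [← Real.rpow_mul hX0.le]
            norm_num
    set Δ : ℝ := V / (R * Y) with hΔ
    have hΔ1 : 1 / X ≤ Δ := by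
      rw [hΔ, div_le_div_iff₀ hX0 (by positivity), one_mul]
      calc (R : ℝ) * Y ≤ RR X Y * Y := by gcongr
        _ ≤ X * L ^ 8 := hRY
        _ ≤ X * V := by gcongr
        _ = V * X := mul_comm _ _
    have hΔ2 : Δ ≤ 1 := by
      rw [hΔ, div_le_one (by positivity)]
      calc V ≤ X ^ (2 * θ - 1 + ε) := Real.rpow_le_rpow_of_exponent_le hX1 (by linarith)
        _ ≤ Y := hY
        _ = 1 * Y := (one_mul _).symm
        _ ≤ R * Y := by gcongr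
    have hΔ0 : 0 < Δ := by positivity
    have h6 := H₃ R X Δ hR1 hR3 hΔ1 hΔ2
    have h2RX : (2 : ℝ) * R ≤ X := by
      rcases Nat.lt_or_ge R 2 with h7 | h7
      · have : R = 1 := by omega
        rw [this]; push_cast; linarith
      · have h8 : (2 : ℝ) ≤ R := by exact_mod_cast h7
        have h9 : (R : ℝ) ^ (2 : ℝ) ≤ (R : ℝ) ^ (16 / 7 : ℝ) :=
          Real.rpow_le_rpow_of_exponent_le hR1' (by norm_num)
        rw [Real.rpow_two] at h9
        nlinarith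
    calc ∑ r ∈ Ico R (2 * R), ((r : ℝ) / Nat.totient r) *
          ∑ χ ∈ Pr r, ∫ β in (-(V / (r * Y)))..(V / (r * Y)), ‖EB χ X β‖ ^ 2
        ≤ ∑ r ∈ Ico R (2 * R), 3 * L * ∑ χ ∈ Pr r, ∫ β in (-Δ)..Δ, ‖EB χ X β‖ ^ 2 := by
          apply sum_le_sum
          intro r hr
          rw [mem_Ico] at hr
          have hr1 : 1 ≤ r := hR1.trans hr.1
          have hr0 : (0 : ℝ) < r := by exact_mod_cast hr1
          have hrR : (R : ℝ) ≤ r := by exact_mod_cast hr.1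
          have hr2 : (r : ℝ) ≤ 2 * R := by exact_mod_cast hr.2.le
          apply mul_le_mul
          · have h9 : Real.log r ≤ L := Real.log_le_log hr0 (hr2.trans h2RX)
            have h10 := inv_totient_le r hr1 (3 * L) (by linarith)
            have h11 : (0 : ℝ) < Nat.totient r := by exact_mod_cast Nat.totient_pos.2 hr1
            rw [div_le_div_iff₀ h11 hr0, one_mul] at h10
            rw [div_le_iff₀ h11]
            exact h10
          · apply sum_le_sum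
            intro χ _
            apply DFI_mono χ X (by positivity)
            rw [hΔ]
            gcongr
          · exact sum_nonneg fun χ _ => DFI_nonneg χ X (by positivity)
          · positivity
      _ = 3 * L * SP R (fun r χ => ∫ β in (-Δ)..Δ, ‖EB χ X β‖ ^ 2) := by
          rw [SP, mul_sum]
      _ ≤ 3 * L * (C₃ * R * Δ * X ^ (2 * c + ε / 4)) := by gcongr
      _ = 3 * L * (C₃ * (V / Y) * X ^ (2 * c + ε / 4)) := by
          rw [hΔ]; field_simp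
  -- all blocks
  have hall : ∑ r ∈ Icc 1 (RR X Y), ((r : ℝ) / Nat.totient r) *
        ∑ χ ∈ Pr r, ∫ β in (-(V / (r * Y)))..(V / (r * Y)), ‖EB χ X β‖ ^ 2 ≤
      3 * L * (3 * L * (C₃ * (V / Y) * X ^ (2 * c + ε / 4))) := by
    refine (DFI_dyadic _ (fun r => ?_) _).trans ?_
    · exact mul_nonneg (by positivity) (sum_nonneg fun χ _ => DFI_nonneg χ X (by positivity))
    · calc _ ≤ ∑ j ∈ range (Nat.log 2 (RR X Y) + 1),
            3 * L * (C₃ * (V / Y) * X ^ (2 * c + ε / 4)) := by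
            apply sum_le_sum
            intro j hj
            rw [mem_range] at hj
            apply hblock _ Nat.one_le_two_pow
            exact Nat.pow_le_of_le_log (by omega) (by omega)
        _ = ((Nat.log 2 (RR X Y) : ℝ) + 1) *
            (3 * L * (C₃ * (V / Y) * X ^ (2 * c + ε / 4))) := by
            rw [sum_const, card_range, nsmul_eq_mul]; push_cast; ring
        _ ≤ 3 * L * (3 * L * (C₃ * (V / Y) * X ^ (2 * c + ε / 4))) := by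
            apply mul_le_mul_of_nonneg_right _ (by positivity)
            have h12 : (2 : ℝ) ^ Nat.log 2 (RR X Y) ≤ RR X Y := by
              exact_mod_cast Nat.pow_log_le_self 2 (by omega)
            have h13 : (RR X Y : ℝ) ≤ X := by
              refine hRX7.trans ?_
              calc X ^ (7 / 16 : ℝ) ≤ X ^ (1 : ℝ) :=
                    Real.rpow_le_rpow_of_exponent_le hX1 (by norm_num)
                _ = X := Real.rpow_one X
            have h14 : (Nat.log 2 (RR X Y) : ℝ) * Real.log 2 ≤ L := by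
              rw [← Real.log_pow]
              exact Real.log_le_log (by positivity) (h12.trans h13)
            have h15 : (1 / 2 : ℝ) ≤ Real.log 2 := by
              have := Real.log_two_gt_d9
              linarith
            have h16 : (0 : ℝ) ≤ Nat.log 2 (RR X Y) := by positivity
            nlinarith
  -- the three terms
  have hA : C₁ * X * Y * Real.log X ^ 2 / V ≤ η / 3 * (X * Y) := by
    rw [div_le_iff₀ hV0]
    have h17 : C₁ * L ^ 2 ≤ η / 3 * V := by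
      have h18 : η / 3 * (3 * C₁ / η * L ^ 2) ≤ η / 3 * V := by gcongr
      calc C₁ * L ^ 2 = η / 3 * (3 * C₁ / η * L ^ 2) := by field_simp
        _ ≤ _ := h18
    calc C₁ * X * Y * Real.log X ^ 2 = X * Y * (C₁ * L ^ 2) := by ring
      _ ≤ X * Y * (η / 3 * V) := by gcongr
      _ = η / 3 * (X * Y) * V := by ring
  have hB : C₂ * V * (X / Y) * Real.log X ^ 12 ≤ η / 3 * (X * Y) := by
    have h17 : C₂ * L ^ 12 ≤ η / 3 * X ^ (1 / 6 : ℝ) := by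
      have h18 : η / 3 * (3 * C₂ / η * L ^ 12) ≤ η / 3 * X ^ (1 / 6 : ℝ) := by gcongr
      calc C₂ * L ^ 12 = η / 3 * (3 * C₂ / η * L ^ 12) := by field_simp
        _ ≤ _ := h18
    have h19 : V * X ^ (1 / 6 : ℝ) ≤ Y := by
      refine le_trans ?_ hY
      rw [hV, ← Real.rpow_add hX0]
      exact Real.rpow_le_rpow_of_exponent_le hX1 (by linarith)
    calc C₂ * V * (X / Y) * Real.log X ^ 12 = (X / Y) * V * (C₂ * L ^ 12) := by ring
      _ ≤ (X / Y) * V * (η / 3 * X ^ (1 / 6 : ℝ)) := by gcongr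
      _ = η / 3 * (X / Y) * (V * X ^ (1 / 6 : ℝ)) := by ring
      _ ≤ η / 3 * (X / Y) * Y := by gcongr
      _ = η / 3 * (X * 1) := by field_simp
      _ ≤ η / 3 * (X * Y) := by gcongr
  have hCC : C₂ * Real.log X * (Y * ∑ r ∈ Icc 1 (RR X Y), ((r : ℝ) / Nat.totient r) *
        ∑ χ ∈ Pr r, ∫ β in (-(V / (r * Y)))..(V / (r * Y)), ‖EB χ X β‖ ^ 2) ≤
      η / 3 * (X * Y) := by
    calc C₂ * Real.log X * (Y * ∑ r ∈ Icc 1 (RR X Y), ((r : ℝ) / Nat.totient r) *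
        ∑ χ ∈ Pr r, ∫ β in (-(V / (r * Y)))..(V / (r * Y)), ‖EB χ X β‖ ^ 2)
        ≤ C₂ * L * (Y * (3 * L * (3 * L * (C₃ * (V / Y) * X ^ (2 * c + ε / 4))))) := by
          gcongr
      _ = η / 3 * ((27 * C₂ * C₃ / η) * L ^ 3 * (V * X ^ (2 * c + ε / 4))) := by
          field_simp; ring
      _ ≤ η / 3 * (X ^ (ε / 4) * (X ^ (ε / 4) * X ^ (2 * c + ε / 4))) := by gcongr
      _ = η / 3 * X ^ (ε / 4 + (ε / 4 + (2 * c + ε / 4))) := by
          rw [← Real.rpow_add hX0, ← Real.rpow_add hX0]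
      _ ≤ η / 3 * X ^ (1 + (2 * θ - 1 + ε)) := by
          have : X ^ (ε / 4 + (ε / 4 + (2 * c + ε / 4))) ≤ X ^ (1 + (2 * θ - 1 + ε)) :=
            Real.rpow_le_rpow_of_exponent_le hX1 (by linarith)
          gcongr
      _ = η / 3 * (X * X ^ (2 * θ - 1 + ε)) := by
          rw [Real.rpow_add hX0, Real.rpow_one]
      _ ≤ η / 3 * (X * Y) := by gcongr
  calc MF.DD X Y ≤ _ := h1
    _ ≤ (C₂ * Real.log X * (Y * ∑ r ∈ Icc 1 (RR X Y), ((r : ℝ) / Nat.totient r) *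
        ∑ χ ∈ Pr r, ∫ β in (-(V / (r * Y)))..(V / (r * Y)), ‖EB χ X β‖ ^ 2) +
        C₂ * V * (X / Y) * Real.log X ^ 12) + C₁ * X * Y * Real.log X ^ 2 / V := by
        linarith
    _ ≤ (η / 3 * (X * Y) + η / 3 * (X * Y)) + η / 3 * (X * Y) := by linarith
    _ = η * X * Y := by ring

theorem dfin9 : type_of% @dfin9_pr := @dfin9_pr

end Pool.Agent.XT

/-! ### Block UP9 -/

/-! XT, block UP9 (helper26): from the zero-free half-plane to the mean, `κ ≥ 9/16` -/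

namespace Pool.Agent.XT

open Finset Complex MeasureTheory Pool.Agent.Var35 Pool.Agent.Var73 Pool.Agent.HC Pool.Agent.MF
  Pool.Agent.XS
open scoped ArithmeticFunction ArithmeticFunction.Moebius

theorem zf_to_mean9_pr {κ : ℝ} (h0 : 9 / 16 ≤ κ) (h1 : κ < 1) (h : ZF ((1 + κ) / 2)) :
    MeanAsym κ := by
  intro ε hε η hη
  have hθ : 25 / 32 ≤ (1 + κ) / 2 := by linarith
  have hθ1 : (1 + κ) / 2 < 1 := by linarith
  obtain ⟨C1, hC1⟩ := mean_formula (η / 3) (by positivity)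
  obtain ⟨C2, hC2⟩ := lfin9_pr hθ hθ1 h hε (η := η / 3) (by positivity)
  obtain ⟨C3, hC3⟩ := dfin9_pr hθ hθ1 h hε (η := η / 3) (by positivity)
  obtain ⟨C4, hC4⟩ := upp_log_le (ε := 1 / 16) (by norm_num) 12
  refine ⟨max (max (max C1 C2) (max C3 C4)) 1, fun X Y hX hY hCY => ?_⟩
  have a1 : C1 ≤ X := (((le_max_left _ _).trans (le_max_left _ _)).trans (le_max_left _ _)).trans hX
  have a2 : C2 ≤ X := (((le_max_right _ _).trans (le_max_left _ _)).trans (le_max_left _ _)).trans hX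
  have a3 : C3 ≤ X := (((le_max_left _ _).trans (le_max_right _ _)).trans (le_max_left _ _)).trans hX
  have a4 : C4 ≤ X := (((le_max_right _ _).trans (le_max_right _ _)).trans (le_max_left _ _)).trans hX
  have a5 : 1 ≤ X := (le_max_right _ _).trans hX
  have hYn : (0 : ℝ) ≤ Y := Nat.cast_nonneg _
  have b1 : C1 * Y ≤ X :=
    (mul_le_mul_of_nonneg_right (((le_max_left _ _).trans (le_max_left _ _)).trans
      (le_max_left _ _)) hYn).trans hCY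
  have b5 : (Y : ℝ) ≤ X := by
    have := (mul_le_mul_of_nonneg_right (le_max_right (max (max C1 C2) (max C3 C4)) 1) hYn).trans hCY
    linarith
  have hX0 : (0 : ℝ) < X := by linarith
  have hs : Real.sqrt X * Real.log X ^ 12 ≤ (Y : ℝ) := by
    refine le_trans ?_ hY
    rw [Real.sqrt_eq_rpow]
    calc X ^ (1 / 2 : ℝ) * Real.log X ^ 12 ≤ X ^ (1 / 2 : ℝ) * X ^ (1 / 16 : ℝ) := by
          gcongr
          exact hC4 X a4
      _ = X ^ (9 / 16 : ℝ) := by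
          rw [← Real.rpow_add hX0]; norm_num
      _ ≤ X ^ (κ + ε) := Real.rpow_le_rpow_of_exponent_le a5 (by linarith)
  have e1 := hC1 X Y a1 hs b1
  have hκ : 2 * ((1 + κ) / 2) - 1 + ε = κ + ε := by ring
  have e2 := hC2 X Y a2 (by rw [hκ]; exact hY) b5
  have e3 := hC3 X Y a3 (by rw [hκ]; exact hY) b5
  have e4 : 0 ≤ ∑ Q ∈ Icc 1 Y, LX X Q (X / Q * Real.log X ^ 8) :=
    Finset.sum_nonneg fun Q _ => upp_LX_nonneg _ _ _
  have e5 := upp_DD_nonneg a5 Y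
  have e6 : ∑ Q ∈ Icc 1 Y, (GX X Q - X * (Real.log Q - CQ Q)) =
      (∑ Q ∈ Icc 1 Y, (GX X Q - LX X Q (X / Q * Real.log X ^ 8) - X * (Real.log Q - CQ Q)) +
        MF.DD X Y) + ∑ Q ∈ Icc 1 Y, LX X Q (X / Q * Real.log X ^ 8) - MF.DD X Y := by
    rw [show ∀ a b c : ℝ, a + b + c - b = a + c by intros; ring, ← Finset.sum_add_distrib]
    exact Finset.sum_congr rfl fun Q _ => by ring
  rw [e6, abs_le]
  rw [abs_le] at e1
  constructor <;> nlinarith [e1.1, e1.2]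

theorem zf_to_mean9 : type_of% @zf_to_mean9_pr := @zf_to_mean9_pr

end Pool.Agent.XT
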