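import Pool.Agent.Lib_helper59.XT.Defs
import Pool.Agent.Lib_helper59.XTG.B
import Pool.Agent.Lib_helper59.XTG.C

/-!
# XT, part E: the mass on the arcs for kappa >= 4/5
-/

set_option autoImplicit false

/-! ### Block MA1 -/

/-! # XT: block MA1 (the mass on the arcs, trivial character) -/

namespace Pool.Agent.XT

open Finset Complex MeasureTheory Pool.Agent.Var35 Pool.Agent.Var73 Pool.Agent.HC Pool.Agent.MF
  Pool.Agent.XS
open scoped ArithmeticFunction ArithmeticFunction.Moebius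

/-! ## the trivial bound -/

theorem ma1_Ic_l2 {X : ℝ} (hX : 0 ≤ X) : ∫ β in (-1 : ℝ)..1, ‖Ic X β‖ ^ 2 ≤ X := by
  have h := bes (fun _ => (1 : ℂ)) hX (zero_le_one (α := ℝ)) aestronglyMeasurable_const
    (by simp)
  simpa [Ic] using h

theorem ma1_S_l2 (N : ℕ) : ∫ β in (-1 : ℝ)..1, ‖S Lam N β‖ ^ 2 = 2 * A2 Lam N := by
  have h1 : Function.Periodic (Sq Lam N) 1 := (sq_basic_pr Lam N).1
  have hc : Continuous (Sq Lam N) := by
    unfold Sq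
    exact (par_contS Lam N).norm.pow 2
  have h2 := (sq_basic_pr Lam N).2
  have h3 : ∫ t in (-1 : ℝ)..0, Sq Lam N t = A2 Lam N := by
    rw [← h2]
    have h4 := h1.intervalIntegral_add_eq (-1) 0
    rw [show (-1 : ℝ) + 1 = 0 by norm_num, zero_add] at h4
    exact h4
  have h5 : (∫ t in (-1 : ℝ)..0, Sq Lam N t) + ∫ t in (0 : ℝ)..1, Sq Lam N t =
      ∫ t in (-1 : ℝ)..1, Sq Lam N t :=
    intervalIntegral.integral_add_adjacent_intervals (hc.intervalIntegrable _ _)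
      (hc.intervalIntegrable _ _)
  rw [h3, h2] at h5
  have h6 : ∫ β in (-1 : ℝ)..1, ‖S Lam N β‖ ^ 2 = ∫ β in (-1 : ℝ)..1, Sq Lam N β := rfl
  rw [h6, ← h5]
  ring

theorem ma1_EB (X β : ℝ) : EB (1 : DirichletCharacter ℂ 1) X β = S Lam ⌊X⌋₊ β - Ic X β := by
  unfold EB S
  simp only [if_true]
  congr 1
  refine Finset.sum_congr rfl fun n _ => ?_
  have : (1 : DirichletCharacter ℂ 1) (n : ZMod 1) = 1 := by
    have h : IsUnit ((n : ℕ) : ZMod 1) := isUnit_of_subsingleton _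
    exact MulChar.one_apply h
  rw [this, mul_one]

theorem ma1_big {X D : ℝ} (hX : 3 ≤ X) (hD : 0 ≤ D) (hD1 : D ≤ 1) :
    ∫ β in (-D)..D, ‖EB (1 : DirichletCharacter ℂ 1) X β‖ ^ 2 ≤ 26 * X * Real.log X := by
  have cE : Continuous (fun β => ‖EB (1 : DirichletCharacter ℂ 1) X β‖ ^ 2) :=
    (dnr_EB_cont _ X).norm.pow 2
  have cS : Continuous (fun β => 2 * ‖S Lam ⌊X⌋₊ β‖ ^ 2) :=
    continuous_const.mul ((par_contS Lam ⌊X⌋₊).norm.pow 2)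
  have cI : Continuous (fun β => 2 * ‖Ic X β‖ ^ 2) :=
    continuous_const.mul ((MJR_Ic_cont X).norm.pow 2)
  have h1 : ∫ β in (-D)..D, ‖EB (1 : DirichletCharacter ℂ 1) X β‖ ^ 2 ≤
      ∫ β in (-1 : ℝ)..1, ‖EB (1 : DirichletCharacter ℂ 1) X β‖ ^ 2 := by
    refine intervalIntegral.integral_mono_interval (by linarith) (by linarith) hD1 ?_
      (cE.intervalIntegrable _ _)
    exact Filter.Eventually.of_forall fun β => by positivity
  have h2 : ∫ β in (-1 : ℝ)..1, ‖EB (1 : DirichletCharacter ℂ 1) X β‖ ^ 2 ≤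
      ∫ β in (-1 : ℝ)..1, (2 * ‖S Lam ⌊X⌋₊ β‖ ^ 2 + 2 * ‖Ic X β‖ ^ 2) := by
    refine intervalIntegral.integral_mono_on (by norm_num) (cE.intervalIntegrable _ _)
      ((cS.add cI).intervalIntegrable _ _) fun β _ => ?_
    rw [ma1_EB]
    have h3 := norm_sub_le (S Lam ⌊X⌋₊ β) (Ic X β)
    have h4 : ‖S Lam ⌊X⌋₊ β - Ic X β‖ ^ 2 ≤ (‖S Lam ⌊X⌋₊ β‖ + ‖Ic X β‖) ^ 2 :=
      pow_le_pow_left₀ (norm_nonneg _) h3 2
    nlinarith [sq_nonneg (‖S Lam ⌊X⌋₊ β‖ - ‖Ic X β‖)]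
  rw [intervalIntegral.integral_add (cS.intervalIntegrable _ _) (cI.intervalIntegrable _ _),
    intervalIntegral.integral_const_mul, intervalIntegral.integral_const_mul, ma1_S_l2] at h2
  have h5 := ma1_Ic_l2 (X := X) (by linarith)
  have h6 := dfa_A2 hX
  have h7 := dfa_log hX
  nlinarith

/-! ## the smooth part -/

/-- `E0 - E3` -/
noncomputable def ma1_W (z : ℕ) (x : ℝ) : ℂ := (EJ z x : ℂ) - (if x < 1 then 0 else 1)

theorem ma1_E0 (z : ℕ) (x : ℝ) : E0 (1 : DirichletCharacter ℂ 1) x = E3 z x + ma1_W z x := by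
  unfold E3 ma1_W; ring

theorem ma1_W_meas (z : ℕ) : Measurable (ma1_W z) :=
  (Complex.measurable_ofReal.comp (ej_meas z)).sub
    (Measurable.ite measurableSet_Iio measurable_const measurable_const)

theorem ma1_W_zero (z : ℕ) {x : ℝ} (hx : x < 1) : ma1_W z x = 0 := by
  unfold ma1_W EJ
  simp [hx]

theorem ma1_log {x : ℝ} (hx : 1 ≤ x) : 1 ≤ Real.log (x + 2) := by
  rw [Real.le_log_iff_exp_le (by linarith)]
  linarith [Real.exp_one_lt_d9]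

theorem ma1_W_le {CJ : ℝ} (hC : 1 ≤ CJ)
    (h : ∀ (z : ℕ) (x : ℝ), 1 ≤ z → 0 ≤ x → |EJ z x| ≤ CJ * z * Real.log (x + 2)) {z : ℕ}
    (hz : 1 ≤ z) (x : ℝ) : ‖ma1_W z x‖ ≤ (CJ + 1) * z * Real.log (|x| + 2) := by
  have hz1 : (1 : ℝ) ≤ z := by exact_mod_cast hz
  rcases lt_or_ge x 1 with hx | hx
  · rw [ma1_W_zero z hx, norm_zero]
    have := Real.log_nonneg (show (1 : ℝ) ≤ |x| + 2 by linarith [abs_nonneg x])
    positivity
  · have h0 : |x| = x := abs_of_nonneg (by linarith)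
    have h1 := h z x hz (by linarith)
    have h2 := ma1_log hx
    unfold ma1_W
    rw [if_neg (not_lt.mpr hx), h0]
    refine (norm_sub_le _ _).trans ?_
    rw [Complex.norm_real, Real.norm_eq_abs, norm_one]
    have h3 : 1 ≤ z * Real.log (x + 2) := one_le_mul_of_one_le_of_one_le hz1 h2
    nlinarith

theorem ma1_ii {E : ℝ → ℂ} (hm : Measurable E) {X B : ℝ} (hX : 0 ≤ X)
    (hB : ∀ x : ℝ, 0 ≤ x → x ≤ X → ‖E x‖ ≤ B) : IntervalIntegrable E volume 0 X := by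
  have h := ke2_ii hm hX hB 0
  have h1 : (fun x : ℝ => E x * e (x * 0)) = E := by
    funext x
    simp [e]
  rwa [h1] at h

theorem ma1_Bf_cont {E : ℝ → ℂ} {X : ℝ} (hE : IntervalIntegrable E volume 0 X) :
    Continuous (fun β => Bf E X β) := by
  unfold Bf
  refine ((one_e_cont.comp (by fun_prop)).mul continuous_const).sub ?_
  refine Continuous.mul (by fun_prop) (one_cont_int hE)

theorem ma1_Bf_W {W : ℝ → ℂ} {K : ℝ} (hK : 0 ≤ K) (hW : ∀ x, ‖W x‖ ≤ K * Real.log (|x| + 2))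
    {X : ℝ} (hX : 1 ≤ X) (β : ℝ) :
    ‖Bf W X β‖ ≤ K * Real.log (X + 2) * (1 + 2 * Real.pi * |β| * X) := by
  have hX0 : 0 ≤ X := by linarith
  have hl : ∀ x : ℝ, 0 ≤ x → x ≤ X → ‖W x‖ ≤ K * Real.log (X + 2) := by
    intro x hx hx'
    refine (hW x).trans (mul_le_mul_of_nonneg_left ?_ hK)
    rw [abs_of_nonneg hx]
    exact Real.log_le_log (by linarith) (by linarith)
  unfold Bf
  refine (norm_sub_le _ _).trans ?_
  have h1 : ‖e (X * β) * W X‖ ≤ K * Real.log (X + 2) := by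
    rw [norm_mul, one_e_norm, one_mul]
    exact hl X hX0 le_rfl
  have h2 : ‖∫ x in (0 : ℝ)..X, W x * e (x * β)‖ ≤ K * Real.log (X + 2) * |X - 0| := by
    refine intervalIntegral.norm_integral_le_of_norm_le_const fun x hx => ?_
    rw [Set.uIoc_of_le hX0] at hx
    rw [norm_mul, one_e_norm, mul_one]
    exact hl x hx.1.le hx.2
  rw [sub_zero, abs_of_nonneg hX0] at h2
  have h3 : ‖((2 * Real.pi * β : ℝ) : ℂ) * I * ∫ x in (0 : ℝ)..X, W x * e (x * β)‖ ≤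
      2 * Real.pi * |β| * (K * Real.log (X + 2) * X) := by
    rw [norm_mul, norm_mul, Complex.norm_I, mul_one, Complex.norm_real, Real.norm_eq_abs,
      abs_mul, abs_of_pos (by positivity : (0 : ℝ) < 2 * Real.pi)]
    exact mul_le_mul_of_nonneg_left h2 (by positivity)
  calc _ ≤ K * Real.log (X + 2) + 2 * Real.pi * |β| * (K * Real.log (X + 2) * X) :=
        add_le_add h1 h3
    _ = _ := by ring

/-- the contribution of `W` on the arc -/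
theorem ma1_W_arc {W : ℝ → ℂ} (hm : Measurable W) {K : ℝ} (hK : 0 ≤ K)
    (hW : ∀ x, ‖W x‖ ≤ K * Real.log (|x| + 2)) {X D : ℝ} (hX : 1 ≤ X) (hD : 0 ≤ D)
    (hDX : 1 ≤ D * X) :
    ∫ β in (-D)..D, ‖Bf W X β‖ ^ 2 ≤
      128 * K ^ 2 * Real.log (X + 2) ^ 2 * ((D * X) ^ 3 / X) := by
  have hX0 : 0 ≤ X := by linarith
  have hXp : 0 < X := by linarith
  have hl0 : 0 ≤ Real.log (X + 2) := by linarith [ma1_log hX]
  have hii : IntervalIntegrable W volume 0 X := by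
    refine ma1_ii hm hX0 (B := K * Real.log (X + 2)) fun x hx hx' => ?_
    refine (hW x).trans (mul_le_mul_of_nonneg_left ?_ hK)
    rw [abs_of_nonneg hx]
    exact Real.log_le_log (by linarith) (by linarith)
  have hpt : ∀ β ∈ Set.Icc (-D) D, ‖Bf W X β‖ ^ 2 ≤
      (K * Real.log (X + 2) * (8 * (D * X))) ^ 2 := by
    intro β hβ
    have h1 : |β| ≤ D := abs_le.mpr ⟨hβ.1, hβ.2⟩
    refine pow_le_pow_left₀ (norm_nonneg _) ((ma1_Bf_W hK hW hX β).trans ?_) 2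
    refine mul_le_mul_of_nonneg_left ?_ (by positivity)
    have h2 : 2 * Real.pi * |β| * X ≤ 7 * (D * X) := by
      have h3 : 2 * Real.pi ≤ 7 := by linarith [Real.pi_lt_d2]
      have h4 : |β| * X ≤ D * X := mul_le_mul_of_nonneg_right h1 hX0
      calc 2 * Real.pi * |β| * X = 2 * Real.pi * (|β| * X) := by ring
        _ ≤ 7 * (D * X) := mul_le_mul h3 h4 (by positivity) (by norm_num)
    linarith
  calc ∫ β in (-D)..D, ‖Bf W X β‖ ^ 2
      ≤ ∫ _β in (-D)..D, (K * Real.log (X + 2) * (8 * (D * X))) ^ 2 :=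
        intervalIntegral.integral_mono_on (by linarith)
          (((ma1_Bf_cont hii).norm.pow 2).intervalIntegrable _ _)
          (continuous_const.intervalIntegrable _ _) hpt
    _ = 2 * D * (K * Real.log (X + 2) * (8 * (D * X))) ^ 2 := by
        rw [intervalIntegral.integral_const, smul_eq_mul]; ring
    _ = _ := by field_simp; ring

/-- the smoothing of `W` -/
theorem ma1_W_gauss {W : ℝ → ℂ} (hm : Measurable W) {K : ℝ} (hK : 0 < K)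
    (hW : ∀ x, ‖W x‖ ≤ K * Real.log (|x| + 2)) (hW0 : ∀ x < 1, W x = 0) {lam X : ℝ}
    (hl : 0 < lam) (hX : 1 ≤ X) :
    Integrable (fun v : ℝ => W (X * Real.exp (-v)) * (Real.exp (-(v ^ 2 / (4 * lam))) : ℂ)) := by
  have h1 := ke2_gauss (E := fun x => (K : ℂ)⁻¹ * W x) (hm.const_mul _) (fun y hy => ?_) hl
    (by linarith : (0 : ℝ) ≤ X)
  · have h2 := h1.const_mul (K : ℂ)
    refine h2.congr (Filter.Eventually.of_forall fun v => ?_)
    have hK' : (K : ℂ) ≠ 0 := by exact_mod_cast hK.ne'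
    show (K : ℂ) * ((K : ℂ)⁻¹ * W _ * _) = _
    field_simp
  · rcases lt_or_ge y 1 with hy1 | hy1
    · rw [hW0 y hy1, mul_zero, norm_zero]
      positivity
    · rw [norm_mul, norm_inv, Complex.norm_real, Real.norm_eq_abs, abs_of_pos hK,
        inv_mul_le_iff₀ hK]
      refine (hW y).trans (mul_le_mul_of_nonneg_left ?_ hK.le)
      rw [abs_of_nonneg hy]
      have h3 := Real.log_le_sub_one_of_pos (show (0 : ℝ) < y + 2 by linarith)
      have h4 : y ≤ y ^ 3 := by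
        have : 1 ≤ y ^ 2 := one_le_pow₀ hy1
        nlinarith
      linarith

/-- the boundary term -/
theorem ma1_bd {z : ℕ} {K : ℝ} (hK : 0 < K) (hW : ∀ x, ‖ma1_W z x‖ ≤ K * Real.log (|x| + 2))
    {lam X : ℝ} (hl : 0 < lam) (hl1 : lam ≤ 1) (hX : 1 ≤ X) :
    ‖E3 z X - sm lam (E3 z) X‖ ^ 2 ≤
      2 * ‖EE (1 : DirichletCharacter ℂ 1) X - sm lam (E0 (1 : DirichletCharacter ℂ 1)) X‖ ^ 2 +
        50 * K ^ 2 * Real.log (X + 2) ^ 2 := by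
  have hX0 : 0 ≤ X := by linarith
  have hl0 : 0 ≤ Real.log (X + 2) := by linarith [ma1_log hX]
  have hg0 := ke2_gauss (ke2_meas_E0 (1 : DirichletCharacter ℂ 1)) (fun y hy => ke2_E0_le _ hy)
    hl hX0
  have hgW := ma1_W_gauss (ma1_W_meas z) hK hW (fun x hx => ma1_W_zero z hx) hl hX
  have hs : sm lam (E3 z) X = sm lam (E0 (1 : DirichletCharacter ℂ 1)) X - sm lam (ma1_W z) X := by
    unfold sm
    rw [← mul_sub]
    congr 1
    rw [← integral_sub hg0 hgW]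
    refine integral_congr_ae (Filter.Eventually.of_forall fun v => ?_)
    show E3 z _ * _ = XS.E0 _ _ * _ - ma1_W z _ * _
    rw [ma1_E0 z]
    ring
  have hE : E3 z X = EE (1 : DirichletCharacter ℂ 1) X - ma1_W z X := by
    have h1 := ma1_E0 z X
    unfold XS.E0 at h1
    rw [if_neg (not_lt.mpr hX)] at h1
    rw [h1]
    ring
  have h1 : ‖ma1_W z X‖ ≤ K * Real.log (X + 2) := by
    have := hW X
    rwa [abs_of_nonneg hX0] at this
  have h2 := ke1_sm (ma1_W z) K hK.le hW X lam hX hl hl1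
  set a := EE (1 : DirichletCharacter ℂ 1) X - sm lam (E0 (1 : DirichletCharacter ℂ 1)) X with ha
  have h3 : E3 z X - sm lam (E3 z) X = a - (ma1_W z X - sm lam (ma1_W z) X) := by
    rw [hs, hE, ha]; ring
  have h4 : ‖ma1_W z X - sm lam (ma1_W z) X‖ ≤ 5 * (K * Real.log (X + 2)) := by
    refine (norm_sub_le _ _).trans ?_
    linarith
  have h5 : ‖a - (ma1_W z X - sm lam (ma1_W z) X)‖ ≤ ‖a‖ + 5 * (K * Real.log (X + 2)) :=
    (norm_sub_le _ _).trans (by linarith)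
  rw [h3]
  have h6 : 0 ≤ 5 * (K * Real.log (X + 2)) := by positivity
  calc ‖a - (ma1_W z X - sm lam (ma1_W z) X)‖ ^ 2 ≤ (‖a‖ + 5 * (K * Real.log (X + 2))) ^ 2 :=
        pow_le_pow_left₀ (norm_nonneg _) h5 2
    _ ≤ 2 * ‖a‖ ^ 2 + 2 * (5 * (K * Real.log (X + 2))) ^ 2 := by
        nlinarith [sq_nonneg (‖a‖ - 5 * (K * Real.log (X + 2)))]
    _ = _ := by ring

/-! ## the trivial character -/

theorem ma1_mem : (1 : DirichletCharacter ℂ 1) ∈ Pr 1 := by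
  rw [mem_Pr]
  exact DirichletCharacter.isPrimitive_one_level_one

theorem ma1_SP (f : (r : ℕ) → DirichletCharacter ℂ r → ℝ) : SP 1 f = f 1 1 := by
  unfold SP
  have hIco : Ico 1 (2 * 1) = {1} := by decide
  have hsub : Subsingleton (DirichletCharacter ℂ 1) :=
    ⟨fun a b => by rw [DirichletCharacter.level_one a, DirichletCharacter.level_one b]⟩
  have hP : Pr 1 = {1} := by
    ext χ
    rw [Finset.mem_singleton]
    constructor
    · intro _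
      exact Subsingleton.elim _ _
    · rintro rfl
      exact ma1_mem
  rw [hIco, Finset.sum_singleton, hP, Finset.sum_singleton]

/-- the splitting of the exponential sum -/
theorem ma1_split {z : ℕ} {K : ℝ} (hK : 0 < K)
    (hW : ∀ x, ‖ma1_W z x‖ ≤ K * Real.log (|x| + 2)) {H : ℂ → ℂ} {c : ℝ} (hR : Rep (E3 z) H c)
    {X D : ℝ} (hX : 1 ≤ X) (hD : 0 ≤ D) (hD1 : D ≤ 1) (hDX : 1 ≤ D * X) :
    ∫ β in (-D)..D, ‖EB (1 : DirichletCharacter ℂ 1) X β‖ ^ 2 ≤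
      3 * (∫ β in (-D)..D, ‖Bf (E3 z) X β‖ ^ 2) +
        384 * K ^ 2 * Real.log (X + 2) ^ 2 * ((D * X) ^ 3 / X) + 200 := by
  have hX0 : (0 : ℝ) ≤ X := by linarith
  have hii3 : IntervalIntegrable (E3 z) volume 0 X := one_E_ii hR hX
  have hiiW : IntervalIntegrable (ma1_W z) volume 0 X := by
    refine ma1_ii (ma1_W_meas z) hX0 (B := K * Real.log (X + 2)) fun x hx hx' => ?_
    refine (hW x).trans (mul_le_mul_of_nonneg_left ?_ hK.le)
    rw [abs_of_nonneg hx]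
    exact Real.log_le_log (by linarith) (by linarith)
  have hpt : ∀ β : ℝ, ‖EB (1 : DirichletCharacter ℂ 1) X β‖ ^ 2 ≤
      3 * ‖Bf (E3 z) X β‖ ^ 2 + 3 * ‖Bf (ma1_W z) X β‖ ^ 2 + 100 * β ^ 2 := by
    intro β
    have hc := ke2_Bf_cut (1 : DirichletCharacter ℂ 1) hX β
    rw [if_pos rfl] at hc
    have hi3 := one_ii hii3 β
    have hiW := one_ii hiiW β
    have hic : IntervalIntegrable (fun x => ke2_cut (1 : DirichletCharacter ℂ 1) x * e (x * β))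
        volume 0 X :=
      ke2_ii (ke2_meas_cut _) (B := 1) hX0 (fun x hx _ => ke2_cut_le _ hx) β
    have h1 : Bf (EE (1 : DirichletCharacter ℂ 1)) X β =
        Bf (fun x => E3 z x + ma1_W z x) X β + Bf (ke2_cut (1 : DirichletCharacter ℂ 1)) X β := by
      refine ke2_Bf_add hX0 (fun x _ _ => ?_) ?_ hic
      · unfold ke2_cut
        rw [ma1_E0 z]
        ring
      · refine (hi3.add hiW).congr (fun x _ => ?_)
        exact (add_mul _ _ _).symm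
    have h2 : Bf (fun x => E3 z x + ma1_W z x) X β = Bf (E3 z) X β + Bf (ma1_W z) X β :=
      ke2_Bf_add hX0 (fun x _ _ => rfl) hi3 hiW
    rw [eb_bf _ hX β, h1, h2]
    have h3 := ke2_sq (Bf (E3 z) X β) (Bf (ma1_W z) X β)
      (Bf (ke2_cut (1 : DirichletCharacter ℂ 1)) X β)
    linarith
  have c1 : Continuous (fun β => 3 * ‖Bf (E3 z) X β‖ ^ 2) :=
    continuous_const.mul ((ma1_Bf_cont hii3).norm.pow 2)
  have c2 : Continuous (fun β => 3 * ‖Bf (ma1_W z) X β‖ ^ 2) :=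
    continuous_const.mul ((ma1_Bf_cont hiiW).norm.pow 2)
  have c3 : Continuous (fun β : ℝ => 100 * β ^ 2) := by fun_prop
  have c12 : Continuous (fun β => 3 * ‖Bf (E3 z) X β‖ ^ 2 + 3 * ‖Bf (ma1_W z) X β‖ ^ 2) :=
    c1.add c2
  have h1 : ∫ β in (-D)..D, ‖EB (1 : DirichletCharacter ℂ 1) X β‖ ^ 2 ≤
      ∫ β in (-D)..D, (3 * ‖Bf (E3 z) X β‖ ^ 2 + 3 * ‖Bf (ma1_W z) X β‖ ^ 2 + 100 * β ^ 2) :=
    intervalIntegral.integral_mono_on (by linarith)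
      (((dnr_EB_cont _ X).norm.pow 2).intervalIntegrable _ _)
      ((c12.add c3).intervalIntegrable _ _) fun β _ => hpt β
  rw [intervalIntegral.integral_add (c12.intervalIntegrable _ _)
    (c3.intervalIntegrable _ _), intervalIntegral.integral_add (c1.intervalIntegrable _ _)
    (c2.intervalIntegrable _ _), intervalIntegral.integral_const_mul,
    intervalIntegral.integral_const_mul, intervalIntegral.integral_const_mul] at h1
  have h2 := ma1_W_arc (ma1_W_meas z) hK.le hW hX hD hDX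
  have h3 : ∫ β in (-D)..D, β ^ 2 ≤ 2 := by
    have h4 : ∫ β in (-D)..D, β ^ 2 ≤ ∫ _β in (-D)..D, (1 : ℝ) := by
      refine intervalIntegral.integral_mono_on (by linarith)
        ((continuous_pow 2).intervalIntegrable _ _) (continuous_const.intervalIntegrable _ _)
        fun β hβ => ?_
      have h5 : |β| ≤ 1 := (abs_le.mpr ⟨hβ.1, hβ.2⟩).trans hD1
      rw [← sq_abs]
      exact pow_le_one₀ (abs_nonneg β) h5
    rw [intervalIntegral.integral_const, smul_eq_mul] at h4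
    linarith
  linarith

/-! ## the family bounds -/

theorem ma1_nH_cont {E : ℝ → ℂ} {H : ℂ → ℂ} {c : ℝ} (hR : Rep E H c) (hc2 : c < 3) :
    Continuous (nH H c) := by
  obtain ⟨c', hc', hd⟩ := hR.diff
  unfold nH
  refine Continuous.norm ?_
  rw [continuous_iff_continuousAt]
  intro t
  have h1 : ContinuousOn H {s : ℂ | c' < s.re ∧ s.re < 3} := hd.continuousOn
  have ho : IsOpen {s : ℂ | c' < s.re ∧ s.re < 3} :=
    (isOpen_lt continuous_const Complex.continuous_re).inter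
      (isOpen_lt Complex.continuous_re continuous_const)
  have hm : ((c : ℂ) + t * I) ∈ {s : ℂ | c' < s.re ∧ s.re < 3} := by
    simp only [Set.mem_ofPred_eq, add_re, ofReal_re, mul_re, I_re, mul_zero, ofReal_im, I_im,
      mul_one, sub_self, add_zero]
    exact ⟨hc', hc2⟩
  have h2 : ContinuousAt H ((c : ℂ) + t * I) := h1.continuousAt (ho.mem_nhds hm)
  exact ContinuousAt.comp (f := fun t : ℝ => (c : ℂ) + t * I) h2 (by fun_prop)

theorem ma1_lam {T' : ℝ} (hT : 0 < T') : T'⁻¹ ^ 2 = T' ^ (-2 : ℝ) := by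
  rw [Real.rpow_neg hT.le, inv_pow]
  norm_num

theorem ma1_lam1 {T' p : ℝ} (hT : 0 < T') : (T'⁻¹ ^ 2) ^ (-(p / 2)) = T' ^ p := by
  rw [ma1_lam hT, ← Real.rpow_mul hT.le]
  congr 1; ring

theorem ma1_lam2 {T' p : ℝ} (hT : 0 < T') : (T'⁻¹ ^ 2) ^ (1 - p / 2) = T' ^ (p - 2) := by
  rw [ma1_lam hT, ← Real.rpow_mul hT.le]
  congr 1; ring

theorem ma1_T2 {T T' p : ℝ} (hT : 1 ≤ T) (hTT : T ≤ T') : T ^ 2 * T' ^ (p - 2) ≤ T' ^ p := by
  have hT' : 0 < T' := by linarith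
  have h1 : T' ^ p = T' ^ 2 * T' ^ (p - 2) := by
    rw [← Real.rpow_natCast T' 2, ← Real.rpow_add hT']
    congr 1; push_cast; ring
  rw [h1]
  exact mul_le_mul_of_nonneg_right (pow_le_pow_left₀ (by linarith) hTT 2)
    (Real.rpow_nonneg hT'.le _)

theorem ma1_fam {θ c e' : ℝ} (hθ : 1 / 2 ≤ θ) (h : ZF θ) (hc : θ < c) (hc3 : 3 / 4 ≤ c)
    (hc1 : c < 1) (he : 0 < e') (he1 : e' ≤ 1 / 4) : ∃ C : ℝ, 1 ≤ C ∧ ∀ z : ℕ, 1 ≤ z →
    Integrable (fun t => nH (H3 z) c t ^ 2 / (1 + t ^ 2)) ∧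
    ∀ T T' X : ℝ, 1 ≤ T → T ≤ T' → 0 < X →
    X ^ (2 * c - 1) * Q1 (T'⁻¹ ^ 2) (nH (H3 z) c) +
      (T / X) ^ 2 * (X ^ (2 * c + 1) * Q3 (T'⁻¹ ^ 2) (nH (H3 z) c)) ≤
      C * (X ^ (2 * c - 1) * ((z : ℝ) ^ (1 - 2 * c + e') * T' ^ (1 + e') +
        (z : ℝ) ^ (2 - 2 * c + e') * T' ^ (1 - c + e'))) := by
  obtain ⟨C0, hC0, h0⟩ := kmz hθ h hc hc3 hc1 he
  obtain ⟨C1, hC1, h1⟩ := fam_q1 (p := 1 + e') (q := 1 - c + e') (by linarith) (by linarith)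
    (by linarith) (by linarith)
  obtain ⟨C3, hC3, h3⟩ := fam_q3 (p := 1 + e') (q := 1 - c + e') (by linarith) (by linarith)
    (by linarith) (by linarith)
  refine ⟨(C1 + C3) * C0, one_le_mul_of_one_le_of_one_le (by linarith) hC0, fun z hz => ?_⟩
  have hz0 : (0 : ℝ) < z := by exact_mod_cast hz
  have hcont : Continuous (nH (H3 z) c) :=
    ma1_nH_cont (rep_e3 hθ h hc hc1 z hz) (by linarith)
  set A : ℝ := C0 * (z : ℝ) ^ (1 - 2 * c + e') with hA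
  set B : ℝ := C0 * (z : ℝ) ^ (2 - 2 * c + e') with hB
  have hA0 : 0 ≤ A := by positivity
  have hB0 : 0 ≤ B := by positivity
  have hM : ∀ T : ℝ, 1 ≤ T → ∑ _i ∈ ({()} : Finset Unit), ∫ t in (-T)..T, nH (H3 z) c t ^ 2 ≤
      A * T ^ (1 + e') + B * T ^ (1 - c + e') := by
    intro T hT
    have hT0 : 0 < T := by linarith
    rw [Finset.sum_singleton]
    refine (h0 T hT z hz).trans (le_of_eq ?_)
    have e1 : (T * z) ^ e' = T ^ e' * (z : ℝ) ^ e' := Real.mul_rpow hT0.le hz0.le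
    have e2 : ((z : ℝ) * Real.sqrt T) ^ (2 - 2 * c) = (z : ℝ) ^ (2 - 2 * c) * T ^ (1 - c) := by
      rw [Real.mul_rpow hz0.le (Real.sqrt_nonneg _), Real.sqrt_eq_rpow, ← Real.rpow_mul hT0.le]
      congr 2; ring
    have e3 : (z : ℝ) ^ (1 - 2 * c + e') = (z : ℝ) ^ (1 - 2 * c) * (z : ℝ) ^ e' :=
      Real.rpow_add hz0 _ _
    have e4 : (z : ℝ) ^ (2 - 2 * c + e') = (z : ℝ) ^ (2 - 2 * c) * (z : ℝ) ^ e' :=
      Real.rpow_add hz0 _ _
    have e5 : T ^ (1 + e') = T * T ^ e' := by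
      rw [Real.rpow_add hT0, Real.rpow_one]
    have e6 : T ^ (1 - c + e') = T ^ (1 - c) * T ^ e' := Real.rpow_add hT0 _ _
    rw [hA, hB, e1, e2, e3, e4, e5, e6]
    ring
  have hc' : ∀ i ∈ ({()} : Finset Unit), Continuous ((fun _ : Unit => nH (H3 z) c) i) :=
    fun _ _ => hcont
  have g1 := h1 Unit {()} (fun _ => nH (H3 z) c) hc' A B hA0 hB0 hM
  obtain ⟨g2, g3⟩ := h3 Unit {()} (fun _ => nH (H3 z) c) hc' A B hA0 hB0 hM
  refine ⟨g2 () (Finset.mem_singleton_self _), fun T T' X hT hTT hX => ?_⟩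
  have hT' : 1 ≤ T' := hT.trans hTT
  have hT'0 : 0 < T' := by linarith
  have hl0 : 0 < T'⁻¹ ^ 2 := by positivity
  have hl1 : T'⁻¹ ^ 2 ≤ 1 := pow_le_one₀ (by positivity) (inv_le_one_of_one_le₀ hT')
  have k1 := g1 _ hl0 hl1
  have k3 := g3 _ hl0 hl1
  rw [Finset.sum_singleton, ma1_lam1 hT'0, ma1_lam1 hT'0] at k1
  rw [Finset.sum_singleton, ma1_lam2 hT'0, ma1_lam2 hT'0] at k3
  have e7 : (T / X) ^ 2 * (X ^ (2 * c + 1) * Q3 (T'⁻¹ ^ 2) (nH (H3 z) c)) =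
      X ^ (2 * c - 1) * (T ^ 2 * Q3 (T'⁻¹ ^ 2) (nH (H3 z) c)) := by
    have : X ^ (2 * c + 1) = X ^ (2 * c - 1) * X ^ 2 := by
      rw [← Real.rpow_natCast X 2, ← Real.rpow_add hX]
      congr 1; push_cast; ring
    rw [this]
    field_simp
  have k4 : T ^ 2 * Q3 (T'⁻¹ ^ 2) (nH (H3 z) c) ≤
      C3 * (A * T' ^ (1 + e') + B * T' ^ (1 - c + e')) := by
    calc T ^ 2 * Q3 (T'⁻¹ ^ 2) (nH (H3 z) c)
        ≤ T ^ 2 * (C3 * (A * T' ^ (1 + e' - 2) + B * T' ^ (1 - c + e' - 2))) :=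
          mul_le_mul_of_nonneg_left k3 (by positivity)
      _ = C3 * (A * (T ^ 2 * T' ^ (1 + e' - 2)) + B * (T ^ 2 * T' ^ (1 - c + e' - 2))) := by ring
      _ ≤ _ := by
          have t1 := ma1_T2 (p := 1 + e') hT hTT
          have t2 := ma1_T2 (p := 1 - c + e') hT hTT
          gcongr
  rw [e7, ← mul_add]
  calc X ^ (2 * c - 1) * (Q1 (T'⁻¹ ^ 2) (nH (H3 z) c) + T ^ 2 * Q3 (T'⁻¹ ^ 2) (nH (H3 z) c))
      ≤ X ^ (2 * c - 1) * (C1 * (A * T' ^ (1 + e') + B * T' ^ (1 - c + e')) +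
        C3 * (A * T' ^ (1 + e') + B * T' ^ (1 - c + e'))) := by gcongr
    _ = _ := by rw [hA, hB]; ring

/-! ## the exponents -/

theorem ma1_u1 (x : ℝ) : x ≤ 1 + x ^ 2 := by nlinarith [sq_nonneg (x - 1)]

theorem ma1_u2 {x : ℝ} (hx : 0 ≤ x) : x ^ (1 / 10 : ℝ) ≤ 1 + x ^ 2 := by
  rcases le_total x 1 with h | h
  · have : x ^ (1 / 10 : ℝ) ≤ 1 := Real.rpow_le_one hx h (by norm_num)
    nlinarith [sq_nonneg x]
  · have : x ^ (1 / 10 : ℝ) ≤ x ^ (1 : ℝ) := Real.rpow_le_rpow_of_exponent_le h (by norm_num)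
    rw [Real.rpow_one] at this
    exact this.trans (ma1_u1 x)

theorem ma1_num {θ e : ℝ} (hθ : 9 / 10 ≤ θ) (he : 0 < e) (he1 : e ≤ 1 / 10)
    (hec : θ + e / 100 < 1) {X K z T : ℝ} (hX : 1 ≤ X) (hK : 1 ≤ K)
    (hKX : K ≤ X ^ (4 * (1 - θ) - e)) (hz1 : 1 ≤ z) (hz : K ^ (5 / 8 : ℝ) ≤ z)
    (hz' : z ≤ 2 * K ^ (5 / 8 : ℝ)) (hT : 1 ≤ T) (hTX : T ≤ X) :
    z ≤ 2 * X ^ (1 / 4 : ℝ) ∧
    X ^ (2 * (θ + e / 100) - 1) * (z ^ (1 - 2 * (θ + e / 100) + e / 1000) *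
        (T * X ^ (e / 8)) ^ (1 + e / 1000) +
      z ^ (2 - 2 * (θ + e / 100) + e / 1000) *
        (T * X ^ (e / 8)) ^ (1 - (θ + e / 100) + e / 1000)) ≤
      6 * (X ^ (1 - e / 3) * (1 + (T / K) ^ 2)) := by
  set c : ℝ := θ + e / 100 with hc
  set e' : ℝ := e / 1000 with he'
  have hX0 : 0 < X := by linarith
  have hK0 : 0 < K := by linarith
  have hz0 : 0 < z := by linarith
  have hT0 : 0 < T := by linarith
  have he'0 : 0 < e' := by positivity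
  set T' : ℝ := T * X ^ (e / 8) with hT'
  have hXe : 1 ≤ X ^ (e / 8) := Real.one_le_rpow hX (by positivity)
  have hT'1 : 1 ≤ T' := one_le_mul_of_one_le_of_one_le hT hXe
  have hT'0 : 0 < T' := by linarith
  set u : ℝ := 1 + (T / K) ^ 2 with hu
  have hu0 : 0 ≤ u := by positivity
  -- `K^(5/8) ≤ X^(1/4)`
  have hK58 : K ^ (5 / 8 : ℝ) ≤ X ^ (1 / 4 : ℝ) := by
    have h1 : K ≤ X ^ (2 / 5 : ℝ) :=
      hKX.trans (Real.rpow_le_rpow_of_exponent_le hX (by linarith))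
    calc K ^ (5 / 8 : ℝ) ≤ (X ^ (2 / 5 : ℝ)) ^ (5 / 8 : ℝ) :=
          Real.rpow_le_rpow hK0.le h1 (by norm_num)
      _ = X ^ (1 / 4 : ℝ) := by
          rw [← Real.rpow_mul hX0.le]; congr 1; norm_num
  have hzX : z ≤ 2 * X ^ (1 / 4 : ℝ) := by linarith
  refine ⟨hzX, ?_⟩
  -- the small power
  have hsm : (z * T') ^ e' ≤ 2 * X ^ (e / 500) := by
    have h1 : z * T' ≤ 2 * X ^ (2 : ℝ) := by
      calc z * T' ≤ (2 * X ^ (1 / 4 : ℝ)) * (X * X ^ (e / 8)) := by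
            rw [hT']; gcongr
        _ = 2 * X ^ (1 / 4 + 1 + e / 8 : ℝ) := by
            rw [Real.rpow_add hX0, Real.rpow_add hX0, Real.rpow_one]; ring
        _ ≤ 2 * X ^ (2 : ℝ) := by
            have := Real.rpow_le_rpow_of_exponent_le hX
              (show (1 / 4 + 1 + e / 8 : ℝ) ≤ 2 by linarith)
            linarith
    calc (z * T') ^ e' ≤ (2 * X ^ (2 : ℝ)) ^ e' :=
          Real.rpow_le_rpow (by positivity) h1 he'0.le
      _ = 2 ^ e' * X ^ (e / 500) := by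
          rw [Real.mul_rpow (by norm_num) (by positivity), ← Real.rpow_mul hX0.le]
          congr 2; rw [he']; ring
      _ ≤ 2 * X ^ (e / 500) := by
          have h2 : (2 : ℝ) ^ e' ≤ 2 ^ (1 : ℝ) :=
            Real.rpow_le_rpow_of_exponent_le (by norm_num) (by rw [he']; linarith)
          rw [Real.rpow_one] at h2
          gcongr
  -- first term
  have hA : z ^ (1 - 2 * c) * T' ≤ X ^ (e / 8) * K ^ (1 / 2 : ℝ) * u := by
    have h1 : z ^ (1 - 2 * c) ≤ K ^ (-(1 / 2) : ℝ) := by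
      calc z ^ (1 - 2 * c) ≤ z ^ (-(4 / 5) : ℝ) :=
            Real.rpow_le_rpow_of_exponent_le hz1 (by rw [hc]; linarith)
        _ ≤ (K ^ (5 / 8 : ℝ)) ^ (-(4 / 5) : ℝ) :=
            Real.rpow_le_rpow_of_nonpos (by positivity) hz (by norm_num)
        _ = K ^ (-(1 / 2) : ℝ) := by
            rw [← Real.rpow_mul hK0.le]; congr 1; norm_num
    have h2 : K ^ (-(1 / 2) : ℝ) * T = K ^ (1 / 2 : ℝ) * (T / K) := by
      have : K ^ (1 / 2 : ℝ) = K ^ (-(1 / 2) : ℝ) * K := by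
        nth_rewrite 3 [← Real.rpow_one K]
        rw [← Real.rpow_add hK0]; congr 1; norm_num
      rw [this]; field_simp
    calc z ^ (1 - 2 * c) * T' ≤ K ^ (-(1 / 2) : ℝ) * T' :=
          mul_le_mul_of_nonneg_right h1 hT'0.le
      _ = X ^ (e / 8) * (K ^ (-(1 / 2) : ℝ) * T) := by rw [hT']; ring
      _ = X ^ (e / 8) * K ^ (1 / 2 : ℝ) * (T / K) := by rw [h2]; ring
      _ ≤ X ^ (e / 8) * K ^ (1 / 2 : ℝ) * u :=
          mul_le_mul_of_nonneg_left (ma1_u1 _) (by positivity)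
  -- second term
  have hB : z ^ (2 - 2 * c) * T' ^ (1 - c) ≤ 2 * (X ^ (e / 8) * K ^ (1 / 2 : ℝ) * u) := by
    have h1 : z ^ (2 - 2 * c) ≤ 2 * K ^ (1 / 8 : ℝ) := by
      calc z ^ (2 - 2 * c) ≤ z ^ (1 / 5 : ℝ) :=
            Real.rpow_le_rpow_of_exponent_le hz1 (by rw [hc]; linarith)
        _ ≤ (2 * K ^ (5 / 8 : ℝ)) ^ (1 / 5 : ℝ) :=
            Real.rpow_le_rpow hz0.le hz' (by norm_num)
        _ = 2 ^ (1 / 5 : ℝ) * K ^ (1 / 8 : ℝ) := by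
            rw [Real.mul_rpow (by norm_num) (by positivity), ← Real.rpow_mul hK0.le]
            congr 2; norm_num
        _ ≤ 2 * K ^ (1 / 8 : ℝ) := by
            have h2 : (2 : ℝ) ^ (1 / 5 : ℝ) ≤ 2 ^ (1 : ℝ) :=
              Real.rpow_le_rpow_of_exponent_le (by norm_num) (by norm_num)
            rw [Real.rpow_one] at h2
            gcongr
    have h2 : T' ^ (1 - c) ≤ u * K ^ (1 / 10 : ℝ) * X ^ (e / 80) := by
      have h3 : T ^ (1 / 10 : ℝ) = (T / K) ^ (1 / 10 : ℝ) * K ^ (1 / 10 : ℝ) := by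
        rw [← Real.mul_rpow (by positivity) hK0.le]
        congr 1; field_simp
      calc T' ^ (1 - c) ≤ T' ^ (1 / 10 : ℝ) :=
            Real.rpow_le_rpow_of_exponent_le hT'1 (by rw [hc]; linarith)
        _ = T ^ (1 / 10 : ℝ) * X ^ (e / 80) := by
            rw [hT', Real.mul_rpow hT0.le (by positivity), ← Real.rpow_mul hX0.le]
            congr 2; ring
        _ = (T / K) ^ (1 / 10 : ℝ) * K ^ (1 / 10 : ℝ) * X ^ (e / 80) := by rw [h3]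
        _ ≤ u * K ^ (1 / 10 : ℝ) * X ^ (e / 80) := by
            have := ma1_u2 (x := T / K) (by positivity)
            gcongr
    have h4 : K ^ (1 / 8 : ℝ) * K ^ (1 / 10 : ℝ) ≤ K ^ (1 / 2 : ℝ) := by
      rw [← Real.rpow_add hK0]
      exact Real.rpow_le_rpow_of_exponent_le hK (by norm_num)
    have h5 : X ^ (e / 80) ≤ X ^ (e / 8) :=
      Real.rpow_le_rpow_of_exponent_le hX (by linarith)
    calc z ^ (2 - 2 * c) * T' ^ (1 - c)
        ≤ (2 * K ^ (1 / 8 : ℝ)) * (u * K ^ (1 / 10 : ℝ) * X ^ (e / 80)) := by gcongr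
      _ = 2 * (K ^ (1 / 8 : ℝ) * K ^ (1 / 10 : ℝ)) * X ^ (e / 80) * u := by ring
      _ ≤ 2 * K ^ (1 / 2 : ℝ) * X ^ (e / 8) * u := by gcongr
      _ = _ := by ring
  have e1 : z ^ (1 - 2 * c + e') * T' ^ (1 + e') = (z * T') ^ e' * (z ^ (1 - 2 * c) * T') := by
    rw [Real.rpow_add hz0, Real.rpow_add hT'0, Real.rpow_one, Real.mul_rpow hz0.le hT'0.le]
    ring
  have e2 : z ^ (2 - 2 * c + e') * T' ^ (1 - c + e') =
      (z * T') ^ e' * (z ^ (2 - 2 * c) * T' ^ (1 - c)) := by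
    rw [Real.rpow_add hz0, Real.rpow_add hT'0, Real.mul_rpow hz0.le hT'0.le]
    ring
  have hK12 : K ^ (1 / 2 : ℝ) ≤ X ^ (2 * (1 - θ) - e / 2) := by
    calc K ^ (1 / 2 : ℝ) ≤ (X ^ (4 * (1 - θ) - e)) ^ (1 / 2 : ℝ) :=
          Real.rpow_le_rpow hK0.le hKX (by norm_num)
      _ = _ := by rw [← Real.rpow_mul hX0.le]; congr 1; ring
  have hfin : X ^ (2 * c - 1) * (X ^ (e / 500) * (X ^ (e / 8) * K ^ (1 / 2 : ℝ))) ≤
      X ^ (1 - e / 3) := by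
    calc X ^ (2 * c - 1) * (X ^ (e / 500) * (X ^ (e / 8) * K ^ (1 / 2 : ℝ)))
        ≤ X ^ (2 * c - 1) * (X ^ (e / 500) * (X ^ (e / 8) * X ^ (2 * (1 - θ) - e / 2))) := by
          gcongr
      _ = X ^ (2 * c - 1 + (e / 500 + (e / 8 + (2 * (1 - θ) - e / 2)))) := by
          rw [← Real.rpow_add hX0, ← Real.rpow_add hX0, ← Real.rpow_add hX0]
      _ ≤ X ^ (1 - e / 3) :=
          Real.rpow_le_rpow_of_exponent_le hX (by rw [hc]; linarith)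
  rw [e1, e2, ← mul_add]
  calc X ^ (2 * c - 1) * ((z * T') ^ e' * (z ^ (1 - 2 * c) * T' +
        z ^ (2 - 2 * c) * T' ^ (1 - c)))
      ≤ X ^ (2 * c - 1) * ((2 * X ^ (e / 500)) * (X ^ (e / 8) * K ^ (1 / 2 : ℝ) * u +
        2 * (X ^ (e / 8) * K ^ (1 / 2 : ℝ) * u))) := by gcongr
    _ = 6 * (X ^ (2 * c - 1) * (X ^ (e / 500) * (X ^ (e / 8) * K ^ (1 / 2 : ℝ)))) * u := by ring
    _ ≤ 6 * X ^ (1 - e / 3) * u := by gcongr
    _ = _ := by ring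

theorem ma1_logsq {e X : ℝ} (he : 0 < e) (he1 : e ≤ 1 / 10) (hX : 1 ≤ X) :
    Real.log (X + 2) ^ 2 ≤ 14400 / e ^ 2 * X ^ (e / 20) := by
  have hX0 : 0 < X := by linarith
  have hd : 0 < e / 40 := by positivity
  have h1 := Real.log_le_rpow_div (show (0 : ℝ) ≤ X + 2 by linarith) hd
  have h2 : (X + 2) ^ (e / 40) ≤ 3 * X ^ (e / 40) := by
    calc (X + 2) ^ (e / 40) ≤ (3 * X) ^ (e / 40) :=
          Real.rpow_le_rpow (by linarith) (by linarith) hd.le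
      _ = 3 ^ (e / 40) * X ^ (e / 40) := Real.mul_rpow (by norm_num) hX0.le
      _ ≤ 3 * X ^ (e / 40) := by
          have h3 : (3 : ℝ) ^ (e / 40) ≤ 3 ^ (1 : ℝ) :=
            Real.rpow_le_rpow_of_exponent_le (by norm_num) (by linarith)
          rw [Real.rpow_one] at h3
          gcongr
  have h3 : Real.log (X + 2) ≤ 120 / e * X ^ (e / 40) := by
    calc Real.log (X + 2) ≤ (X + 2) ^ (e / 40) / (e / 40) := h1
      _ ≤ (3 * X ^ (e / 40)) / (e / 40) := by gcongr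
      _ = _ := by field_simp; norm_num
  have h4 : 0 ≤ Real.log (X + 2) := Real.log_nonneg (by linarith)
  calc Real.log (X + 2) ^ 2 ≤ (120 / e * X ^ (e / 40)) ^ 2 := pow_le_pow_left₀ h4 h3 2
    _ = 14400 / e ^ 2 * (X ^ (e / 40)) ^ 2 := by ring
    _ = _ := by
        rw [← Real.rpow_natCast (X ^ (e / 40)) 2, ← Real.rpow_mul hX0.le]
        congr 2; push_cast; ring

/-- the small arcs -/
theorem ma1_small {θ e : ℝ} (hθ : 9 / 10 ≤ θ) (h : ZF θ) (he : 0 < e)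
    (he1 : e ≤ 1 / 10) (hec : θ + e / 100 < 1) {CJ Cs Cf : ℝ} (hCJ : 1 ≤ CJ) (hCs : 1 ≤ Cs)
    (hEJ : ∀ (z : ℕ) (x : ℝ), 1 ≤ z → 0 ≤ x → |EJ z x| ≤ CJ * z * Real.log (x + 2))
    (hshort : ∀ (R : ℕ) (X lam : ℝ), 1 ≤ R → 1 ≤ X → 0 < lam → lam ≤ 1 →
      SP R (fun r χ => ‖EE χ X - sm lam (XS.E0 χ) X‖ ^ 2) ≤
        Cs * Real.log (X + 2) ^ 2 * ((R : ℝ) ^ 2 + X * Real.sqrt lam + 1) *
          (X * Real.sqrt lam + 1))
    (hCf : 1 ≤ Cf) (hfam : ∀ z : ℕ, 1 ≤ z →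
      Integrable (fun t => nH (H3 z) (θ + e / 100) t ^ 2 / (1 + t ^ 2)) ∧
      ∀ T T' X : ℝ, 1 ≤ T → T ≤ T' → 0 < X →
      X ^ (2 * (θ + e / 100) - 1) * Q1 (T'⁻¹ ^ 2) (nH (H3 z) (θ + e / 100)) +
        (T / X) ^ 2 * (X ^ (2 * (θ + e / 100) + 1) * Q3 (T'⁻¹ ^ 2) (nH (H3 z) (θ + e / 100))) ≤
        Cf * (X ^ (2 * (θ + e / 100) - 1) * ((z : ℝ) ^ (1 - 2 * (θ + e / 100) + e / 1000) *
          T' ^ (1 + e / 1000) + (z : ℝ) ^ (2 - 2 * (θ + e / 100) + e / 1000) *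
          T' ^ (1 - (θ + e / 100) + e / 1000))))
    {X : ℝ} {K : ℕ} (hX : 3 ≤ X) (hK1 : (1 : ℝ) ≤ K) (hKX : (K : ℝ) ≤ X ^ (4 * (1 - θ) - e))
    {D : ℝ} (hD : 0 ≤ D) (hD1 : D ≤ 1) (hT : 1 ≤ D * X) (hTK : D * X ≤ K * X ^ e) :
    ∫ β in (-D)..D, ‖EB (1 : DirichletCharacter ℂ 1) X β‖ ^ 2 ≤
      (3000000 * (6 * Cf + 16 * Cs * (14400 / e ^ 2) + 200 * (CJ + 1) ^ 2 * (14400 / e ^ 2)) +
        1536 * (CJ + 1) ^ 2 * (14400 / e ^ 2) + 200) *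
        (X ^ (1 - e / 5) * (1 + (D * X / K) ^ 2)) := by
  have hX1 : 1 ≤ X := by linarith
  have hX0 : 0 < X := by linarith
  have hK0 : (0 : ℝ) < K := by linarith
  set T : ℝ := D * X with hTd
  have hT0 : 0 < T := by linarith
  have hTX : T ≤ X := by rw [hTd]; nlinarith
  have hDT : D = T / X := by rw [hTd]; field_simp
  -- the length of the mollifier
  set z : ℕ := ⌈(K : ℝ) ^ (5 / 8 : ℝ)⌉₊ with hzd
  have hK58 : 1 ≤ (K : ℝ) ^ (5 / 8 : ℝ) := Real.one_le_rpow hK1 (by norm_num)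
  have hz : (K : ℝ) ^ (5 / 8 : ℝ) ≤ z := Nat.le_ceil _
  have hz' : (z : ℝ) ≤ 2 * (K : ℝ) ^ (5 / 8 : ℝ) := by
    have := Nat.ceil_lt_add_one (show 0 ≤ (K : ℝ) ^ (5 / 8 : ℝ) by positivity)
    rw [← hzd] at this
    linarith
  have hz1 : (1 : ℝ) ≤ z := hK58.trans hz
  have hzn : 1 ≤ z := by exact_mod_cast hz1
  obtain ⟨hzX, hnum⟩ := ma1_num hθ he he1 hec hX1 hK1 hKX hz1 hz hz' hT hTX
  obtain ⟨hint, hcore⟩ := hfam z hzn
  set u : ℝ := 1 + (T / K) ^ 2 with hu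
  have hu1 : 1 ≤ u := by rw [hu]; nlinarith [sq_nonneg (T / K)]
  set T' : ℝ := T * X ^ (e / 8) with hT'
  have hXe : 1 ≤ X ^ (e / 8) := Real.one_le_rpow hX1 (by positivity)
  have hTT : T ≤ T' := le_mul_of_one_le_right hT0.le hXe
  have hT'1 : 1 ≤ T' := hT.trans hTT
  have hT'0 : 0 < T' := by linarith
  have hcore' := hcore T T' X hT hTT hX0
  rw [← hDT] at hcore'
  have hl0 : 0 < T'⁻¹ ^ 2 := by positivity
  have hl1 : T'⁻¹ ^ 2 ≤ 1 := pow_le_one₀ (by positivity) (inv_le_one_of_one_le₀ hT'1)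
  set P : ℝ := X ^ (1 - e / 5) with hP
  have hP0 : 0 < P := by positivity
  have hP1 : 1 ≤ P := Real.one_le_rpow hX1 (by linarith)
  have hPu : P ≤ P * u := le_mul_of_one_le_right hP0.le hu1
  set L2 : ℝ := 14400 / e ^ 2 with hL2
  have hL20 : 0 < L2 := by positivity
  have hlog := ma1_logsq he he1 hX1
  rw [← hL2] at hlog
  -- the main part
  have hR : Rep (E3 z) (H3 z) (θ + e / 100) :=
    rep_e3 (by linarith) h (by linarith) hec z hzn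
  have hone := one2 (E := E3 z) (E₁ := E3 z) (E₂ := fun _ => 0) (H₁ := H3 z) (H₂ := fun _ => 0)
    (c₁ := θ + e / 100) (c₂ := 1 / 2) (fun x => (add_zero _).symm) hR (rep_zero _)
    (by linarith) hec.le le_rfl (by norm_num) hl0 hl1 hint (by simp [nH]) hX1 hD
  have hq1 : Q1 (T'⁻¹ ^ 2) (nH (fun _ => (0 : ℂ)) (1 / 2)) = 0 := by simp [Q1, nH]
  have hq3 : Q3 (T'⁻¹ ^ 2) (nH (fun _ => (0 : ℂ)) (1 / 2)) = 0 := by simp [Q3, nH]
  rw [hq1, hq3, mul_zero, mul_zero, add_zero, add_zero] at hone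
  -- the boundary term
  have hKW : 0 < (CJ + 1) * z := by positivity
  have hW := ma1_W_le hCJ hEJ hzn
  have hbd := ma1_bd (z := z) hKW hW hl0 hl1 hX1
  have hsh := hshort 1 X _ le_rfl hX1 hl0 hl1
  rw [ma1_SP, Real.sqrt_sq (by positivity)] at hsh
  have hz2 : (z : ℝ) ^ 2 ≤ 4 * X ^ (1 / 2 : ℝ) := by
    calc (z : ℝ) ^ 2 ≤ (2 * X ^ (1 / 4 : ℝ)) ^ 2 := pow_le_pow_left₀ (by positivity) hzX 2
      _ = 4 * (X ^ (1 / 4 : ℝ)) ^ 2 := by ring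
      _ = 4 * X ^ (1 / 2 : ℝ) := by
          rw [← Real.rpow_natCast (X ^ (1 / 4 : ℝ)) 2, ← Real.rpow_mul hX0.le]
          congr 2; norm_num
  have hb1 : D * ‖EE (1 : DirichletCharacter ℂ 1) X -
      sm (T'⁻¹ ^ 2) (XS.E0 (1 : DirichletCharacter ℂ 1)) X‖ ^ 2 ≤ 8 * Cs * L2 * P := by
    have h1 : ((1 : ℕ) : ℝ) ^ 2 + X * T'⁻¹ + 1 ≤ 2 * (1 + X * T'⁻¹) := by
      have : 0 ≤ X * T'⁻¹ := by positivity
      push_cast
      linarith
    have h2 : Cs * Real.log (X + 2) ^ 2 * (((1 : ℕ) : ℝ) ^ 2 + X * T'⁻¹ + 1) * (X * T'⁻¹ + 1) ≤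
        Cs * Real.log (X + 2) ^ 2 * (4 * (1 + (X * T'⁻¹) ^ 2)) := by
      have h3 : (((1 : ℕ) : ℝ) ^ 2 + X * T'⁻¹ + 1) * (X * T'⁻¹ + 1) ≤
          4 * (1 + (X * T'⁻¹) ^ 2) := by
        have : 0 ≤ X * T'⁻¹ := by positivity
        calc (((1 : ℕ) : ℝ) ^ 2 + X * T'⁻¹ + 1) * (X * T'⁻¹ + 1)
            ≤ (2 * (1 + X * T'⁻¹)) * (X * T'⁻¹ + 1) := by gcongr
          _ ≤ _ := by nlinarith [sq_nonneg (X * T'⁻¹ - 1)]
      calc _ = Cs * Real.log (X + 2) ^ 2 *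
            ((((1 : ℕ) : ℝ) ^ 2 + X * T'⁻¹ + 1) * (X * T'⁻¹ + 1)) := by ring
        _ ≤ _ := mul_le_mul_of_nonneg_left h3 (by positivity)
    have h4 : D * (1 + (X * T'⁻¹) ^ 2) ≤ 2 * X ^ (1 - e / 4) := by
      have h5 : D * (X * T'⁻¹) ^ 2 ≤ X ^ (1 - e / 4) := by
        have h6 : D * (X * T'⁻¹) ^ 2 = X * (T⁻¹ * (X ^ (e / 8) ^ 1)⁻¹ ^ 2) := by
          rw [hDT, hT', mul_inv, pow_one]
          field_simp
        rw [h6, pow_one]
        have h7 : T⁻¹ ≤ 1 := inv_le_one_of_one_le₀ hT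
        have h8 : (X ^ (e / 8))⁻¹ ^ 2 = X ^ (-(e / 4)) := by
          rw [← Real.rpow_neg hX0.le, ← Real.rpow_natCast (X ^ (-(e / 8))) 2,
            ← Real.rpow_mul hX0.le]
          congr 1; push_cast; ring
        rw [h8]
        have h9 : X ^ (1 - e / 4) = X * X ^ (-(e / 4)) := by
          nth_rewrite 2 [← Real.rpow_one X]
          rw [← Real.rpow_add hX0]; congr 1
        rw [h9]
        have h10 : 0 < X ^ (-(e / 4)) := by positivity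
        exact mul_le_mul_of_nonneg_left (mul_le_of_le_one_left h10.le h7) hX0.le
      have h6 : 1 ≤ X ^ (1 - e / 4) := Real.one_le_rpow hX1 (by linarith)
      nlinarith
    have h5 : X ^ (e / 20) * X ^ (1 - e / 4) = P := by
      rw [hP, ← Real.rpow_add hX0]; congr 1; ring
    calc D * ‖EE (1 : DirichletCharacter ℂ 1) X -
        sm (T'⁻¹ ^ 2) (XS.E0 (1 : DirichletCharacter ℂ 1)) X‖ ^ 2
        ≤ D * (Cs * Real.log (X + 2) ^ 2 * (4 * (1 + (X * T'⁻¹) ^ 2))) :=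
          mul_le_mul_of_nonneg_left (hsh.trans h2) hD
      _ = 4 * Cs * Real.log (X + 2) ^ 2 * (D * (1 + (X * T'⁻¹) ^ 2)) := by ring
      _ ≤ 4 * Cs * (L2 * X ^ (e / 20)) * (2 * X ^ (1 - e / 4)) := by gcongr
      _ = 8 * Cs * L2 * (X ^ (e / 20) * X ^ (1 - e / 4)) := by ring
      _ = _ := by rw [h5]
  have hb2 : ((CJ + 1) * z) ^ 2 * Real.log (X + 2) ^ 2 ≤ 4 * (CJ + 1) ^ 2 * L2 * P := by
    have h1 : X ^ (1 / 2 : ℝ) * X ^ (e / 20) ≤ P := by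
      rw [hP, ← Real.rpow_add hX0]
      exact Real.rpow_le_rpow_of_exponent_le hX1 (by linarith)
    calc ((CJ + 1) * z) ^ 2 * Real.log (X + 2) ^ 2
        = (CJ + 1) ^ 2 * (z : ℝ) ^ 2 * Real.log (X + 2) ^ 2 := by ring
      _ ≤ (CJ + 1) ^ 2 * (4 * X ^ (1 / 2 : ℝ)) * (L2 * X ^ (e / 20)) := by gcongr
      _ = 4 * (CJ + 1) ^ 2 * L2 * (X ^ (1 / 2 : ℝ) * X ^ (e / 20)) := by ring
      _ ≤ _ := by gcongr
  have hb3 : D * ‖E3 z X - sm (T'⁻¹ ^ 2) (E3 z) X‖ ^ 2 ≤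
      (16 * Cs * L2 + 200 * (CJ + 1) ^ 2 * L2) * P := by
    have h1 : 0 ≤ ((CJ + 1) * z) ^ 2 * Real.log (X + 2) ^ 2 := by positivity
    calc D * ‖E3 z X - sm (T'⁻¹ ^ 2) (E3 z) X‖ ^ 2
        ≤ D * (2 * ‖EE (1 : DirichletCharacter ℂ 1) X -
            sm (T'⁻¹ ^ 2) (XS.E0 (1 : DirichletCharacter ℂ 1)) X‖ ^ 2 +
          50 * ((CJ + 1) * z) ^ 2 * Real.log (X + 2) ^ 2) := mul_le_mul_of_nonneg_left hbd hD
      _ = 2 * (D * ‖EE (1 : DirichletCharacter ℂ 1) X -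
            sm (T'⁻¹ ^ 2) (XS.E0 (1 : DirichletCharacter ℂ 1)) X‖ ^ 2) +
          50 * (D * (((CJ + 1) * z) ^ 2 * Real.log (X + 2) ^ 2)) := by ring
      _ ≤ 2 * (8 * Cs * L2 * P) + 50 * (1 * (4 * (CJ + 1) ^ 2 * L2 * P)) := by gcongr
      _ = _ := by ring
  -- the arcs
  have hw : 384 * ((CJ + 1) * z) ^ 2 * Real.log (X + 2) ^ 2 * (T ^ 3 / X) ≤
      1536 * (CJ + 1) ^ 2 * L2 * P := by
    have h1 : T ≤ X ^ (2 / 5 : ℝ) := by
      calc T ≤ K * X ^ e := hTK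
        _ ≤ X ^ (4 * (1 - θ) - e) * X ^ e := by gcongr
        _ = X ^ (4 * (1 - θ)) := by rw [← Real.rpow_add hX0]; congr 1; ring
        _ ≤ X ^ (2 / 5 : ℝ) := Real.rpow_le_rpow_of_exponent_le hX1 (by linarith)
    have h2 : T ^ 3 / X ≤ X ^ (1 / 5 : ℝ) := by
      rw [div_le_iff₀ hX0]
      calc T ^ 3 ≤ (X ^ (2 / 5 : ℝ)) ^ 3 := pow_le_pow_left₀ hT0.le h1 3
        _ = X ^ (1 / 5 : ℝ) * X := by
            rw [← Real.rpow_natCast (X ^ (2 / 5 : ℝ)) 3, ← Real.rpow_mul hX0.le]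
            nth_rewrite 3 [← Real.rpow_one X]
            rw [← Real.rpow_add hX0]; congr 1; norm_num
    have h3 : X ^ (1 / 2 : ℝ) * X ^ (e / 20) * X ^ (1 / 5 : ℝ) ≤ P := by
      rw [hP, ← Real.rpow_add hX0, ← Real.rpow_add hX0]
      exact Real.rpow_le_rpow_of_exponent_le hX1 (by linarith)
    calc 384 * ((CJ + 1) * z) ^ 2 * Real.log (X + 2) ^ 2 * (T ^ 3 / X)
        = 384 * (CJ + 1) ^ 2 * (z : ℝ) ^ 2 * Real.log (X + 2) ^ 2 * (T ^ 3 / X) := by ring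
      _ ≤ 384 * (CJ + 1) ^ 2 * (4 * X ^ (1 / 2 : ℝ)) * (L2 * X ^ (e / 20)) *
          X ^ (1 / 5 : ℝ) := by gcongr
      _ = 1536 * (CJ + 1) ^ 2 * L2 * (X ^ (1 / 2 : ℝ) * X ^ (e / 20) * X ^ (1 / 5 : ℝ)) := by ring
      _ ≤ _ := by gcongr
  have hsplit := ma1_split hKW hW hR hX1 hD hD1 hT
  have hmain : X ^ (2 * (θ + e / 100) - 1) * Q1 (T'⁻¹ ^ 2) (nH (H3 z) (θ + e / 100)) +
      D ^ 2 * (X ^ (2 * (θ + e / 100) + 1) * Q3 (T'⁻¹ ^ 2) (nH (H3 z) (θ + e / 100))) ≤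
      6 * Cf * (P * u) := by
    have h1 : X ^ (1 - e / 3) ≤ P :=
      Real.rpow_le_rpow_of_exponent_le hX1 (by linarith)
    calc _ ≤ _ := hcore'
      _ ≤ Cf * (6 * (X ^ (1 - e / 3) * u)) := mul_le_mul_of_nonneg_left hnum (by linarith)
      _ ≤ Cf * (6 * (P * u)) := by gcongr
      _ = _ := by ring
  have hE3 : ∫ β in (-D)..D, ‖Bf (E3 z) X β‖ ^ 2 ≤ 1000000 * (6 * Cf * (P * u) +
      (16 * Cs * L2 + 200 * (CJ + 1) ^ 2 * L2) * P) := by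
    refine hone.trans ?_
    refine mul_le_mul_of_nonneg_left ?_ (by norm_num)
    linarith
  have k1 : (16 * Cs * L2 + 200 * (CJ + 1) ^ 2 * L2) * P ≤
      (16 * Cs * L2 + 200 * (CJ + 1) ^ 2 * L2) * (P * u) :=
    mul_le_mul_of_nonneg_left hPu (by positivity)
  have k2 : 1536 * (CJ + 1) ^ 2 * L2 * P ≤ 1536 * (CJ + 1) ^ 2 * L2 * (P * u) :=
    mul_le_mul_of_nonneg_left hPu (by positivity)
  have k3 : (200 : ℝ) ≤ 200 * (P * u) := by nlinarith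
  calc ∫ β in (-D)..D, ‖EB (1 : DirichletCharacter ℂ 1) X β‖ ^ 2 ≤ _ := hsplit
    _ ≤ 3 * (1000000 * (6 * Cf * (P * u) +
          (16 * Cs * L2 + 200 * (CJ + 1) ^ 2 * L2) * (P * u))) +
        1536 * (CJ + 1) ^ 2 * L2 * (P * u) + 200 * (P * u) := by linarith
    _ = _ := by ring

/-- MA1 -/
theorem mass_one_pr {θ e : ℝ} (hθ : 9 / 10 ≤ θ) (hθ1 : θ < 1) (h : ZF θ) (he : 0 < e)
    (he1 : e ≤ 1 / 10) : ∃ C : ℝ, ∀ (X : ℝ) (K : ℕ), C ≤ X → X ^ e ≤ (K : ℝ) →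
    (K : ℝ) ≤ X ^ (4 * (1 - θ) - e) → ∀ D : ℝ, 1 / X ≤ D → D ≤ 1 →
    SP 1 (fun _ χ => ∫ β in (-D)..D, ‖EB χ X β‖ ^ 2) ≤
      X ^ (1 - e / 10) * (1 + (D * X / K) ^ 2) := by
  by_cases hee : e ≤ 2 * (1 - θ)
  swap
  · refine ⟨2, fun X K hX hK1 hK2 => ?_⟩
    exfalso
    push Not at hee
    have h1 : X ^ e ≤ X ^ (4 * (1 - θ) - e) := hK1.trans hK2
    have h2 : X ^ (4 * (1 - θ) - e) < X ^ e :=
      Real.rpow_lt_rpow_of_exponent_lt (by linarith) (by linarith)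
    linarith
  have hec : θ + e / 100 < 1 := by linarith
  obtain ⟨CJ, hCJ, hEJ⟩ := ej_bound
  obtain ⟨Cf, hCf, hfam⟩ := ma1_fam (θ := θ) (c := θ + e / 100) (e' := e / 1000) (by linarith) h
    (by linarith) (by linarith) hec (by positivity) (by linarith)
  obtain ⟨Cs, hCs, hshort⟩ := short
  set C1 : ℝ := 3000000 * (6 * Cf + 16 * Cs * (14400 / e ^ 2) +
    200 * (CJ + 1) ^ 2 * (14400 / e ^ 2)) + 1536 * (CJ + 1) ^ 2 * (14400 / e ^ 2) + 200 with hC1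
  set Ct : ℝ := C1 + 26 * (40 / e) with hCt
  have hC10 : 0 < C1 := by positivity
  have hCt0 : 0 < Ct := by positivity
  refine ⟨max 3 (Ct ^ (10 / e)), fun X K hCX hK1 hKX D hD hD1 => ?_⟩
  have hX : 3 ≤ X := (le_max_left _ _).trans hCX
  have hX1 : 1 ≤ X := by linarith
  have hX0 : 0 < X := by linarith
  have hCX2 : Ct ≤ X ^ (e / 10) := by
    have h1 : Ct ^ (10 / e) ≤ X := (le_max_right _ _).trans hCX
    calc Ct = (Ct ^ (10 / e)) ^ (e / 10) := by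
          rw [← Real.rpow_mul hCt0.le]
          have : 10 / e * (e / 10) = 1 := by field_simp
          rw [this, Real.rpow_one]
      _ ≤ X ^ (e / 10) := Real.rpow_le_rpow (by positivity) h1 (by positivity)
  have hK : (1 : ℝ) ≤ K := (Real.one_le_rpow hX1 he.le).trans hK1
  have hK0 : (0 : ℝ) < K := by linarith
  have hD0 : 0 ≤ D := le_trans (by positivity) hD
  have hT : 1 ≤ D * X := by rwa [div_le_iff₀ hX0] at hD
  rw [ma1_SP]
  have hu0 : 0 ≤ 1 + (D * X / K) ^ 2 := by positivity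
  have key : ∫ β in (-D)..D, ‖EB (1 : DirichletCharacter ℂ 1) X β‖ ^ 2 ≤
      Ct * (X ^ (1 - e / 5) * (1 + (D * X / K) ^ 2)) := by
    rcases le_total (D * X) (K * X ^ e) with hc | hc
    · refine (ma1_small hθ h he he1 hec hCJ hCs hEJ hshort hCf hfam hX hK hKX hD0 hD1 hT
        hc).trans ?_
      refine mul_le_mul_of_nonneg_right ?_ (by positivity)
      rw [← hC1, hCt]
      have : 0 ≤ 26 * (40 / e) := by positivity
      linarith
    · have h1 := ma1_big hX hD0 hD1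
      have h2 := Real.log_le_rpow_div hX0.le (show 0 < e / 40 by positivity)
      have h3 : X ^ (2 * e) ≤ 1 + (D * X / K) ^ 2 := by
        have h4 : X ^ e ≤ D * X / K := by
          rw [le_div_iff₀ hK0]; linarith
        have h5 : X ^ (2 * e) = (X ^ e) ^ 2 := by
          rw [← Real.rpow_natCast (X ^ e) 2, ← Real.rpow_mul hX0.le]
          congr 1; push_cast; ring
        rw [h5]
        have := pow_le_pow_left₀ (by positivity) h4 2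
        linarith
      have h4 : X * X ^ (e / 40) ≤ X ^ (1 - e / 5) * (1 + (D * X / K) ^ 2) := by
        calc X * X ^ (e / 40) = X ^ (1 + e / 40) := by
              rw [Real.rpow_add hX0, Real.rpow_one]
          _ ≤ X ^ (1 - e / 5 + 2 * e) := Real.rpow_le_rpow_of_exponent_le hX1 (by linarith)
          _ = X ^ (1 - e / 5) * X ^ (2 * e) := Real.rpow_add hX0 _ _
          _ ≤ _ := by gcongr
      calc ∫ β in (-D)..D, ‖EB (1 : DirichletCharacter ℂ 1) X β‖ ^ 2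
          ≤ 26 * X * Real.log X := h1
        _ ≤ 26 * X * (X ^ (e / 40) / (e / 40)) := by gcongr
        _ = 26 * (40 / e) * (X * X ^ (e / 40)) := by field_simp
        _ ≤ 26 * (40 / e) * (X ^ (1 - e / 5) * (1 + (D * X / K) ^ 2)) := by gcongr
        _ ≤ Ct * (X ^ (1 - e / 5) * (1 + (D * X / K) ^ 2)) := by
            refine mul_le_mul_of_nonneg_right ?_ (by positivity)
            rw [hCt]
            linarith
  calc ∫ β in (-D)..D, ‖EB (1 : DirichletCharacter ℂ 1) X β‖ ^ 2 ≤ _ := key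
    _ ≤ X ^ (e / 10) * (X ^ (1 - e / 5) * (1 + (D * X / K) ^ 2)) := by gcongr
    _ = X ^ (1 - e / 10) * (1 + (D * X / K) ^ 2) := by
        rw [← mul_assoc, ← Real.rpow_add hX0]
        congr 2; ring

theorem mass_one : type_of% @mass_one_pr := @mass_one_pr

end Pool.Agent.XT

/-! ### Block MA2 -/

/-!
# XT, block MA2 (helper20): the mass on the arcs, `R ≥ 2`
-/

namespace Pool.Agent.XT

open Finset Complex MeasureTheory Pool.Agent.Var35 Pool.Agent.Var73 Pool.Agent.HC Pool.Agent.MF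
  Pool.Agent.XS
open scoped ArithmeticFunction ArithmeticFunction.Moebius

/-! ### numbers -/

theorem ma2_u {w a : ℝ} (hw : 0 ≤ w) (ha : 0 ≤ a) (ha2 : a ≤ 2) : w ^ a ≤ 1 + w ^ 2 := by
  rcases le_total w 1 with h | h
  · have := Real.rpow_le_one hw h ha
    nlinarith [sq_nonneg w]
  · have : w ^ a ≤ w ^ (2 : ℝ) := Real.rpow_le_rpow_of_exponent_le h ha2
    rw [Real.rpow_two] at this
    linarith

theorem ma2_split1 {R T z c ε : ℝ} (hR : 0 ≤ R) (hT : 0 < T) (hz : 0 ≤ z) (C : ℝ) :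
    C * (R * T * z) ^ ε * (R ^ 2 * T * z ^ (1 - 2 * c) +
      (z * Real.sqrt (R * T)) ^ (2 - 2 * c)) =
    C * (R * z) ^ ε * (R ^ 2 * z ^ (1 - 2 * c)) * T ^ (1 + ε) +
      C * (R * z) ^ ε * (z * Real.sqrt R) ^ (2 - 2 * c) * T ^ (1 - c + ε) := by
  have h1 : (R * T * z) ^ ε = (R * z) ^ ε * T ^ ε := by
    rw [← Real.mul_rpow (by positivity) hT.le]
    congr 1
    ring
  have h2 : T ^ (1 + ε) = T * T ^ ε := by rw [Real.rpow_add hT, Real.rpow_one]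
  have h3 : (z * Real.sqrt (R * T)) ^ (2 - 2 * c) =
      (z * Real.sqrt R) ^ (2 - 2 * c) * T ^ (1 - c) := by
    rw [Real.sqrt_mul hR, ← mul_assoc, Real.mul_rpow (by positivity) (by positivity)]
    congr 1
    rw [Real.sqrt_eq_rpow, ← Real.rpow_mul hT.le]
    congr 1
    ring
  have h4 : T ^ (1 - c + ε) = T ^ (1 - c) * T ^ ε := Real.rpow_add hT _ _
  rw [h1, h2, h3, h4]
  ring

theorem ma2_split2 {R T z ε : ℝ} (hR : 0 ≤ R) (hT : 0 < T) (hz : 0 ≤ z) (C : ℝ) :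
    C * (R * T * z) ^ ε * (R ^ 2 * T + z * Real.sqrt (R * T)) =
    C * (R * z) ^ ε * R ^ 2 * T ^ (1 + ε) +
      C * (R * z) ^ ε * (z * Real.sqrt R) * T ^ (1 / 2 + ε) := by
  have h1 : (R * T * z) ^ ε = (R * z) ^ ε * T ^ ε := by
    rw [← Real.mul_rpow (by positivity) hT.le]
    congr 1
    ring
  have h2 : T ^ (1 + ε) = T * T ^ ε := by rw [Real.rpow_add hT, Real.rpow_one]
  have h4 : T ^ (1 / 2 + ε) = Real.sqrt T * T ^ ε := by
    rw [Real.rpow_add hT, Real.sqrt_eq_rpow]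
  rw [h1, h2, h4, Real.sqrt_mul hR]
  ring

/-- the first line -/
theorem ma2_num1 {θ e c X K R T z : ℝ} (hθ : 9 / 10 ≤ θ) (hc : c = θ + e / 100) (hc1 : c < 1)
    (he : 0 < e) (hX : 1 ≤ X) (hR : 1 ≤ R) (hRK : R ≤ K) (hK : K ≤ X ^ (4 * (1 - θ) - e))
    (hT : 1 ≤ T) (hz : (R * Real.sqrt K) ^ (5 / 4 : ℝ) ≤ z)
    (hz2 : z ≤ 2 * (R * Real.sqrt K) ^ (5 / 4 : ℝ)) :
    X ^ (2 * c - 1) * (R ^ 2 * z ^ (1 - 2 * c) * (T * X ^ (e / 8)) +
      (z * Real.sqrt R) ^ (2 - 2 * c) * (T * X ^ (e / 8)) ^ (1 - c)) ≤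
      3 * X ^ (1 - 7 / 20 * e) * (1 + (R * T / K) ^ 2) := by
  have hX0 : 0 < X := by linarith
  have hR0 : 0 < R := by linarith
  have hK1 : 1 ≤ K := hR.trans hRK
  have hK0 : 0 < K := by linarith
  have hT0 : 0 < T := by linarith
  have hs1 : 1 ≤ Real.sqrt K := Real.one_le_sqrt.2 hK1
  have hs0 : 0 < Real.sqrt K := by linarith
  have hss : Real.sqrt K * Real.sqrt K = K := Real.mul_self_sqrt hK0.le
  have hRs : 1 ≤ R * Real.sqrt K := by nlinarith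
  have hRs0 : 0 < R * Real.sqrt K := by linarith
  have hz1 : 1 ≤ z := (Real.one_le_rpow hRs (by norm_num)).trans hz
  have hz0 : 0 < z := by linarith
  set Y := X ^ (e / 8) with hY
  have hY1 : 1 ≤ Y := Real.one_le_rpow hX (by positivity)
  have hY0 : 0 < Y := by linarith
  set w := R * T / K with hw
  have hw0 : 0 < w := by positivity
  set u := 1 + w ^ 2 with hu
  have hu0 : 0 < u := by positivity
  have hc9 : 9 / 10 ≤ c := by rw [hc]; linarith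
  -- first part
  have a1 : z ^ (1 - 2 * c) ≤ (R * Real.sqrt K)⁻¹ := by
    calc z ^ (1 - 2 * c) ≤ z ^ (-(4 / 5) : ℝ) :=
          Real.rpow_le_rpow_of_exponent_le hz1 (by linarith)
      _ ≤ ((R * Real.sqrt K) ^ (5 / 4 : ℝ)) ^ (-(4 / 5) : ℝ) :=
          Real.rpow_le_rpow_of_nonpos (by positivity) hz (by norm_num)
      _ = (R * Real.sqrt K)⁻¹ := by
          rw [← Real.rpow_mul hRs0.le, ← Real.rpow_neg_one]
          norm_num
  have a2 : R ^ 2 * z ^ (1 - 2 * c) * (T * Y) ≤ Real.sqrt K * Y * u := by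
    calc R ^ 2 * z ^ (1 - 2 * c) * (T * Y) ≤ R ^ 2 * (R * Real.sqrt K)⁻¹ * (T * Y) := by
          gcongr
      _ = Real.sqrt K * Y * w := by
          rw [hw]
          rw [← hss]
          have : Real.sqrt (Real.sqrt K * Real.sqrt K) = Real.sqrt K := by rw [hss]
          rw [this]
          field_simp
      _ ≤ Real.sqrt K * Y * u := by
          have : w ≤ u := by
            have := ma2_u hw0.le (a := 1) (by norm_num) (by norm_num)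
            rwa [Real.rpow_one] at this
          gcongr
  -- second part
  have hzR : 1 ≤ z * Real.sqrt R := by
    have := Real.one_le_sqrt.2 hR
    nlinarith
  have hTY : 1 ≤ T * Y := by nlinarith
  have b1 : (z * Real.sqrt R) ^ (2 - 2 * c) * (T * Y) ^ (1 - c) ≤
      z ^ (1 / 5 : ℝ) * (R * (T * Y)) ^ (1 / 10 : ℝ) := by
    calc (z * Real.sqrt R) ^ (2 - 2 * c) * (T * Y) ^ (1 - c)
        ≤ (z * Real.sqrt R) ^ (1 / 5 : ℝ) * (T * Y) ^ (1 / 10 : ℝ) := by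
          have h1 : (z * Real.sqrt R) ^ (2 - 2 * c) ≤ (z * Real.sqrt R) ^ (1 / 5 : ℝ) :=
            Real.rpow_le_rpow_of_exponent_le hzR (by linarith)
          have h2 : (T * Y) ^ (1 - c) ≤ (T * Y) ^ (1 / 10 : ℝ) :=
            Real.rpow_le_rpow_of_exponent_le hTY (by linarith)
          exact mul_le_mul h1 h2 (by positivity) (by positivity)
      _ = z ^ (1 / 5 : ℝ) * (R * (T * Y)) ^ (1 / 10 : ℝ) := by
          rw [Real.mul_rpow hz0.le (by positivity), Real.mul_rpow hR0.le (by positivity)]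
          have : Real.sqrt R ^ (1 / 5 : ℝ) = R ^ (1 / 10 : ℝ) := by
            rw [Real.sqrt_eq_rpow, ← Real.rpow_mul hR0.le]
            norm_num
          rw [this]
          ring
  have b2 : z ^ (1 / 5 : ℝ) ≤ 2 * K ^ (3 / 8 : ℝ) := by
    calc z ^ (1 / 5 : ℝ) ≤ (2 * (R * Real.sqrt K) ^ (5 / 4 : ℝ)) ^ (1 / 5 : ℝ) :=
          Real.rpow_le_rpow hz0.le hz2 (by norm_num)
      _ = 2 ^ (1 / 5 : ℝ) * (R * Real.sqrt K) ^ (1 / 4 : ℝ) := by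
          rw [Real.mul_rpow (by norm_num) (by positivity), ← Real.rpow_mul hRs0.le]
          norm_num
      _ ≤ 2 * (K * Real.sqrt K) ^ (1 / 4 : ℝ) := by
          have h1 : (2 : ℝ) ^ (1 / 5 : ℝ) ≤ 2 := by
            calc (2 : ℝ) ^ (1 / 5 : ℝ) ≤ 2 ^ (1 : ℝ) :=
                  Real.rpow_le_rpow_of_exponent_le (by norm_num) (by norm_num)
              _ = 2 := Real.rpow_one 2
          have h2 : (R * Real.sqrt K) ^ (1 / 4 : ℝ) ≤ (K * Real.sqrt K) ^ (1 / 4 : ℝ) :=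
            Real.rpow_le_rpow hRs0.le (by gcongr) (by norm_num)
          exact mul_le_mul h1 h2 (by positivity) (by norm_num)
      _ = 2 * K ^ (3 / 8 : ℝ) := by
          congr 1
          rw [Real.mul_rpow hK0.le hs0.le, Real.sqrt_eq_rpow, ← Real.rpow_mul hK0.le,
            ← Real.rpow_add hK0]
          norm_num
  have b3 : (R * (T * Y)) ^ (1 / 10 : ℝ) ≤ u * K ^ (1 / 10 : ℝ) * Y := by
    have h1 : R * (T * Y) = w * K * Y := by
      rw [hw]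
      field_simp
    rw [h1, Real.mul_rpow (by positivity) hY0.le, Real.mul_rpow hw0.le hK0.le]
    have h2 : w ^ (1 / 10 : ℝ) ≤ u := ma2_u hw0.le (by norm_num) (by norm_num)
    have h3 : Y ^ (1 / 10 : ℝ) ≤ Y := by
      calc Y ^ (1 / 10 : ℝ) ≤ Y ^ (1 : ℝ) :=
            Real.rpow_le_rpow_of_exponent_le hY1 (by norm_num)
        _ = Y := Real.rpow_one Y
    gcongr
  have b4 : K ^ (3 / 8 : ℝ) * K ^ (1 / 10 : ℝ) ≤ Real.sqrt K := by
    rw [← Real.rpow_add hK0, Real.sqrt_eq_rpow]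
    exact Real.rpow_le_rpow_of_exponent_le hK1 (by norm_num)
  have b5 : (z * Real.sqrt R) ^ (2 - 2 * c) * (T * Y) ^ (1 - c) ≤ 2 * (Real.sqrt K * Y * u) := by
    refine b1.trans ?_
    calc z ^ (1 / 5 : ℝ) * (R * (T * Y)) ^ (1 / 10 : ℝ)
        ≤ (2 * K ^ (3 / 8 : ℝ)) * (u * K ^ (1 / 10 : ℝ) * Y) :=
          mul_le_mul b2 b3 (by positivity) (by positivity)
      _ = 2 * (K ^ (3 / 8 : ℝ) * K ^ (1 / 10 : ℝ)) * Y * u := by ring
      _ ≤ 2 * Real.sqrt K * Y * u := by gcongr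
      _ = 2 * (Real.sqrt K * Y * u) := by ring
  have d1 : Real.sqrt K ≤ X ^ (2 * (1 - θ) - e / 2) := by
    rw [Real.sqrt_eq_rpow]
    calc K ^ (1 / 2 : ℝ) ≤ (X ^ (4 * (1 - θ) - e)) ^ (1 / 2 : ℝ) :=
          Real.rpow_le_rpow hK0.le hK (by norm_num)
      _ = X ^ (2 * (1 - θ) - e / 2) := by
          rw [← Real.rpow_mul hX0.le]
          congr 1
          ring
  calc X ^ (2 * c - 1) * (R ^ 2 * z ^ (1 - 2 * c) * (T * Y) +
      (z * Real.sqrt R) ^ (2 - 2 * c) * (T * Y) ^ (1 - c))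
      ≤ X ^ (2 * c - 1) * (Real.sqrt K * Y * u + 2 * (Real.sqrt K * Y * u)) := by
        gcongr
    _ = 3 * (X ^ (2 * c - 1) * Real.sqrt K * Y) * u := by ring
    _ ≤ 3 * (X ^ (2 * c - 1) * X ^ (2 * (1 - θ) - e / 2) * Y) * u := by gcongr
    _ = 3 * X ^ (2 * c - 1 + (2 * (1 - θ) - e / 2) + e / 8) * u := by
        rw [hY, ← Real.rpow_add hX0, ← Real.rpow_add hX0]
    _ ≤ 3 * X ^ (1 - 7 / 20 * e) * u := by
        have : X ^ (2 * c - 1 + (2 * (1 - θ) - e / 2) + e / 8) ≤ X ^ (1 - 7 / 20 * e) := by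
          apply Real.rpow_le_rpow_of_exponent_le hX
          rw [hc]
          linarith
        gcongr

/-- the second line -/
theorem ma2_num2 {e X K R T z : ℝ} (he : 0 < e) (hX : 1 ≤ X) (hR : 1 ≤ R) (hRK : R ≤ K)
    (hK : K ≤ X ^ (2 / 5 : ℝ)) (hT : 1 ≤ T) (hz0 : 0 ≤ z)
    (hz2 : z ≤ 2 * (R * Real.sqrt K) ^ (5 / 4 : ℝ)) :
    X ^ (1 / 500 : ℝ) * (R ^ 2 * (T * X ^ (e / 8)) +
      z * Real.sqrt R * (T * X ^ (e / 8)) ^ (1 / 2 : ℝ)) ≤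
      3 * X ^ (19 / 20 + 1 / 500 + e / 8) * (1 + (R * T / K) ^ 2) := by
  have hX0 : 0 < X := by linarith
  have hR0 : 0 < R := by linarith
  have hK1 : 1 ≤ K := hR.trans hRK
  have hK0 : 0 < K := by linarith
  have hT0 : 0 < T := by linarith
  have hs1 : 1 ≤ Real.sqrt K := Real.one_le_sqrt.2 hK1
  have hs0 : 0 < Real.sqrt K := by linarith
  set Y := X ^ (e / 8) with hY
  have hY1 : 1 ≤ Y := Real.one_le_rpow hX (by positivity)
  have hY0 : 0 < Y := by linarith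
  set w := R * T / K with hw
  have hw0 : 0 < w := by positivity
  set u := 1 + w ^ 2 with hu
  have hu0 : 0 < u := by positivity
  have hRT : R * T = w * K := by
    rw [hw]
    field_simp
  have hwu : w ≤ u := by
    have := ma2_u hw0.le (a := 1) (by norm_num) (by norm_num)
    rwa [Real.rpow_one] at this
  have hwu2 : Real.sqrt w ≤ u := by
    rw [Real.sqrt_eq_rpow]
    exact ma2_u hw0.le (by norm_num) (by norm_num)
  have a1 : R ^ 2 * (T * Y) ≤ K ^ (19 / 8 : ℝ) * Y * u := by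
    have h1 : K * K ≤ K ^ (19 / 8 : ℝ) := by
      calc K * K = K ^ (2 : ℝ) := by rw [Real.rpow_two]; ring
        _ ≤ K ^ (19 / 8 : ℝ) := Real.rpow_le_rpow_of_exponent_le hK1 (by norm_num)
    calc R ^ 2 * (T * Y) = R * (R * T) * Y := by ring
      _ = R * (w * K) * Y := by rw [hRT]
      _ ≤ K * (u * K) * Y := by gcongr
      _ = (K * K) * Y * u := by ring
      _ ≤ K ^ (19 / 8 : ℝ) * Y * u := by gcongr
  have a2 : z * Real.sqrt R * (T * Y) ^ (1 / 2 : ℝ) ≤ 2 * (K ^ (19 / 8 : ℝ) * Y * u) := by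
    have h1 : Real.sqrt R * (T * Y) ^ (1 / 2 : ℝ) = Real.sqrt w * Real.sqrt K * Real.sqrt Y := by
      rw [← Real.sqrt_eq_rpow, ← Real.sqrt_mul hR0.le, ← mul_assoc, hRT,
        Real.sqrt_mul (by positivity), Real.sqrt_mul hw0.le]
    have h2 : Real.sqrt Y ≤ Y := by
      calc Real.sqrt Y ≤ Real.sqrt (Y * Y) := Real.sqrt_le_sqrt (by nlinarith)
        _ = Y := Real.sqrt_mul_self hY0.le
    have h3 : (R * Real.sqrt K) ^ (5 / 4 : ℝ) * Real.sqrt K ≤ K ^ (19 / 8 : ℝ) := by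
      calc (R * Real.sqrt K) ^ (5 / 4 : ℝ) * Real.sqrt K
          ≤ (K * Real.sqrt K) ^ (5 / 4 : ℝ) * Real.sqrt K := by
            have : (R * Real.sqrt K) ^ (5 / 4 : ℝ) ≤ (K * Real.sqrt K) ^ (5 / 4 : ℝ) :=
              Real.rpow_le_rpow (by positivity) (by gcongr) (by norm_num)
            gcongr
        _ = K ^ (19 / 8 : ℝ) := by
            rw [Real.mul_rpow hK0.le hs0.le, Real.sqrt_eq_rpow, ← Real.rpow_mul hK0.le,
              ← Real.rpow_add hK0, ← Real.rpow_add hK0]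
            norm_num
    calc z * Real.sqrt R * (T * Y) ^ (1 / 2 : ℝ)
        = z * (Real.sqrt R * (T * Y) ^ (1 / 2 : ℝ)) := by ring
      _ = z * (Real.sqrt w * Real.sqrt K * Real.sqrt Y) := by rw [h1]
      _ ≤ (2 * (R * Real.sqrt K) ^ (5 / 4 : ℝ)) * (u * Real.sqrt K * Y) := by gcongr
      _ = 2 * ((R * Real.sqrt K) ^ (5 / 4 : ℝ) * Real.sqrt K) * Y * u := by ring
      _ ≤ 2 * K ^ (19 / 8 : ℝ) * Y * u := by gcongr
      _ = 2 * (K ^ (19 / 8 : ℝ) * Y * u) := by ring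
  have d1 : K ^ (19 / 8 : ℝ) ≤ X ^ (19 / 20 : ℝ) := by
    calc K ^ (19 / 8 : ℝ) ≤ (X ^ (2 / 5 : ℝ)) ^ (19 / 8 : ℝ) :=
          Real.rpow_le_rpow hK0.le hK (by norm_num)
      _ = X ^ (19 / 20 : ℝ) := by
          rw [← Real.rpow_mul hX0.le]
          norm_num
  calc X ^ (1 / 500 : ℝ) * (R ^ 2 * (T * Y) + z * Real.sqrt R * (T * Y) ^ (1 / 2 : ℝ))
      ≤ X ^ (1 / 500 : ℝ) * (K ^ (19 / 8 : ℝ) * Y * u + 2 * (K ^ (19 / 8 : ℝ) * Y * u)) := by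
        gcongr
    _ = 3 * (K ^ (19 / 8 : ℝ) * X ^ (1 / 500 : ℝ) * Y) * u := by ring
    _ ≤ 3 * (X ^ (19 / 20 : ℝ) * X ^ (1 / 500 : ℝ) * Y) * u := by gcongr
    _ = 3 * X ^ (19 / 20 + 1 / 500 + e / 8) * u := by
        rw [hY, ← Real.rpow_add hX0, ← Real.rpow_add hX0]

/-- the boundary term -/
theorem ma2_num3 {e X K R T : ℝ} (he : 0 < e) (he1 : e ≤ 1 / 10) (hX : 1 ≤ X) (hR : 1 ≤ R)
    (hRK : R ≤ K) (hK : K ≤ X ^ (2 / 5 : ℝ)) (hT : 1 ≤ T) (hTX : T ≤ X) :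
    T / X * ((R ^ 2 + X / (T * X ^ (e / 8)) + 1) * (X / (T * X ^ (e / 8)) + 1)) ≤
      6 * X ^ (1 - e / 4) := by
  have hX0 : 0 < X := by linarith
  have hR0 : 0 < R := by linarith
  have hK1 : 1 ≤ K := hR.trans hRK
  have hK0 : 0 < K := by linarith
  have hT0 : 0 < T := by linarith
  set Y := X ^ (e / 8) with hY
  have hY1 : 1 ≤ Y := Real.one_le_rpow hX (by positivity)
  have hY0 : 0 < Y := by linarith
  set W := X ^ (1 - e / 4) with hW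
  have hYY : Y * Y * W = X := by
    rw [hY, hW, ← Real.rpow_add hX0, ← Real.rpow_add hX0]
    conv_rhs => rw [← Real.rpow_one X]
    congr 1
    ring
  have hW1 : 1 ≤ W := Real.one_le_rpow hX (by linarith)
  have hKW : K ^ 2 ≤ W := by
    calc K ^ 2 ≤ (X ^ (2 / 5 : ℝ)) ^ 2 := pow_le_pow_left₀ hK0.le hK 2
      _ = X ^ (4 / 5 : ℝ) := by
          rw [← Real.rpow_natCast, ← Real.rpow_mul hX0.le]
          norm_num
      _ ≤ W := Real.rpow_le_rpow_of_exponent_le hX (by linarith)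
  have hRW : R ^ 2 ≤ W := (pow_le_pow_left₀ hR0.le hRK 2).trans hKW
  have e1 : T / X * ((R ^ 2 + X / (T * Y) + 1) * (X / (T * Y) + 1)) =
      (R ^ 2 + 1) * (1 / Y) + (R ^ 2 + 1) * (T / X) + X / (Y * Y) * (1 / T) + 1 / Y := by
    field_simp
    ring
  rw [e1]
  have i1 : 1 / Y ≤ 1 := by
    rw [div_le_one hY0]
    exact hY1
  have i2 : T / X ≤ 1 := by
    rw [div_le_one hX0]
    exact hTX
  have i3 : 1 / T ≤ 1 := by
    rw [div_le_one hT0]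
    exact hT
  have i4 : X / (Y * Y) = W := by
    rw [← hYY]
    field_simp
  rw [i4]
  calc (R ^ 2 + 1) * (1 / Y) + (R ^ 2 + 1) * (T / X) + W * (1 / T) + 1 / Y
      ≤ (W + W) * 1 + (W + W) * 1 + W * 1 + 1 := by gcongr
    _ ≤ 6 * W := by linarith

theorem ma2_log {ε : ℝ} (hε : 0 < ε) : ∃ K : ℝ, 1 ≤ K ∧ ∀ X : ℝ, 1 ≤ X →
    Real.log (X + 2) ^ 2 ≤ K * X ^ ε := by
  refine ⟨max 1 (3 ^ ε / (ε / 2) ^ 2), le_max_left _ _, fun X hX => ?_⟩
  have h1 : Real.log (X + 2) ≤ (3 * X) ^ (ε / 2) / (ε / 2) := by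
    refine (Real.log_le_rpow_div (by linarith) (by linarith : 0 < ε / 2)).trans ?_
    refine div_le_div_of_nonneg_right ?_ (by linarith)
    exact Real.rpow_le_rpow (by linarith) (by linarith) (by linarith)
  have h0 : 0 ≤ Real.log (X + 2) := Real.log_nonneg (by linarith)
  calc Real.log (X + 2) ^ 2 ≤ ((3 * X) ^ (ε / 2) / (ε / 2)) ^ 2 := pow_le_pow_left₀ h0 h1 2
    _ = 3 ^ ε / (ε / 2) ^ 2 * X ^ ε := by
        rw [div_pow, ← Real.rpow_natCast ((3 * X) ^ (ε / 2)) 2, ← Real.rpow_mul (by linarith),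
          Real.mul_rpow (by norm_num) (by linarith)]
        have h2 : ε / 2 * ((2 : ℕ) : ℝ) = ε := by push_cast; ring
        rw [h2]
        ring
    _ ≤ max 1 (3 ^ ε / (ε / 2) ^ 2) * X ^ ε :=
        mul_le_mul_of_nonneg_right (le_max_right _ _) (Real.rpow_nonneg (by linarith) _)

/-- the small factors -/
theorem ma2_small {ε X K R T z : ℝ} (hε : 0 < ε) (hε1 : ε ≤ 1) (hX : 1 ≤ X) (hR : 1 ≤ R)
    (hRK : R ≤ K) (hK : K ≤ X ^ (2 / 5 : ℝ)) (hT : 1 ≤ T) (hTX : T ≤ X ^ (2 : ℝ)) (hz0 : 0 ≤ z)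
    (hz2 : z ≤ 2 * (R * Real.sqrt K) ^ (5 / 4 : ℝ)) :
    (R * z) ^ ε * T ^ ε ≤ 2 * X ^ (4 * ε) := by
  have hX0 : 0 < X := by linarith
  have hR0 : 0 < R := by linarith
  have hK1 : 1 ≤ K := hR.trans hRK
  have hK0 : 0 < K := by linarith
  have hT0 : 0 < T := by linarith
  have hs0 : 0 ≤ Real.sqrt K := Real.sqrt_nonneg _
  have h1 : (R * Real.sqrt K) ^ (5 / 4 : ℝ) ≤ X ^ (3 / 4 : ℝ) := by
    calc (R * Real.sqrt K) ^ (5 / 4 : ℝ) ≤ (K * Real.sqrt K) ^ (5 / 4 : ℝ) :=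
          Real.rpow_le_rpow (by positivity) (by gcongr) (by norm_num)
      _ = K ^ (15 / 8 : ℝ) := by
          rw [Real.mul_rpow hK0.le hs0, Real.sqrt_eq_rpow, ← Real.rpow_mul hK0.le,
            ← Real.rpow_add hK0]
          norm_num
      _ ≤ (X ^ (2 / 5 : ℝ)) ^ (15 / 8 : ℝ) := Real.rpow_le_rpow hK0.le hK (by norm_num)
      _ = X ^ (3 / 4 : ℝ) := by
          rw [← Real.rpow_mul hX0.le]
          norm_num
  have h2 : R * z ≤ 2 * X ^ (2 : ℝ) := by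
    calc R * z ≤ X ^ (2 / 5 : ℝ) * (2 * X ^ (3 / 4 : ℝ)) :=
          mul_le_mul (hRK.trans hK) (hz2.trans (by linarith)) hz0 (by positivity)
      _ = 2 * X ^ (2 / 5 + 3 / 4 : ℝ) := by
          rw [Real.rpow_add hX0]
          ring
      _ ≤ 2 * X ^ (2 : ℝ) := by
          have := Real.rpow_le_rpow_of_exponent_le hX (show (2 / 5 + 3 / 4 : ℝ) ≤ 2 by norm_num)
          linarith
  calc (R * z) ^ ε * T ^ ε ≤ (2 * X ^ (2 : ℝ)) ^ ε * (X ^ (2 : ℝ)) ^ ε := by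
        have h3 : (R * z) ^ ε ≤ (2 * X ^ (2 : ℝ)) ^ ε :=
          Real.rpow_le_rpow (by positivity) h2 hε.le
        have h4 : T ^ ε ≤ (X ^ (2 : ℝ)) ^ ε := Real.rpow_le_rpow hT0.le hTX hε.le
        exact mul_le_mul h3 h4 (by positivity) (by positivity)
    _ = 2 ^ ε * X ^ (4 * ε) := by
        rw [Real.mul_rpow (by norm_num) (by positivity), ← Real.rpow_mul hX0.le, mul_assoc,
          ← Real.rpow_add hX0]
        congr 2
        ring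
    _ ≤ 2 * X ^ (4 * ε) := by
        have : (2 : ℝ) ^ ε ≤ 2 := by
          calc (2 : ℝ) ^ ε ≤ 2 ^ (1 : ℝ) := Real.rpow_le_rpow_of_exponent_le (by norm_num) hε1
            _ = 2 := Real.rpow_one 2
        gcongr

/-! ### one line -/

/-- low and high frequencies -/
theorem ma2_fam {p q : ℝ} (hp : 0 ≤ p) (hp1 : p ≤ 3 / 2) (hq : 0 ≤ q) (hq1 : q ≤ 3 / 2) :
    ∃ C : ℝ, 1 ≤ C ∧ ∀ (ι : Type) (S : Finset ι) (h : ι → ℝ → ℝ), (∀ i ∈ S, Continuous (h i)) →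
    ∀ A B : ℝ, 0 ≤ A → 0 ≤ B →
    (∀ T : ℝ, 1 ≤ T → ∑ i ∈ S, ∫ t in (-T)..T, h i t ^ 2 ≤ A * T ^ p + B * T ^ q) →
    (∀ i ∈ S, Integrable (fun t => h i t ^ 2 / (1 + t ^ 2))) ∧
    ∀ U : ℝ, 1 ≤ U → ∑ i ∈ S, Q1 (U ^ (-2 : ℝ)) (h i) ≤ C * (A * U ^ p + B * U ^ q) ∧
      U ^ 2 * ∑ i ∈ S, Q3 (U ^ (-2 : ℝ)) (h i) ≤ C * (A * U ^ p + B * U ^ q) := by
  obtain ⟨C1, hC1, f1⟩ := fam_q1 hp hp1 hq hq1
  obtain ⟨C3, hC3, f3⟩ := fam_q3 hp hp1 hq hq1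
  refine ⟨max C1 C3, hC1.trans (le_max_left _ _), ?_⟩
  intro ι S h hc A B hA hB hT
  have g1 := f1 ι S h hc A B hA hB hT
  obtain ⟨g2, g3⟩ := f3 ι S h hc A B hA hB hT
  refine ⟨g2, fun U hU => ?_⟩
  have hU0 : 0 < U := by linarith
  have hl0 : 0 < U ^ (-2 : ℝ) := Real.rpow_pos_of_pos hU0 _
  have hl1 : U ^ (-2 : ℝ) ≤ 1 := Real.rpow_le_one_of_one_le_of_nonpos hU (by norm_num)
  have e1 : ∀ a : ℝ, (U ^ (-2 : ℝ)) ^ (-(a / 2)) = U ^ a := by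
    intro a
    rw [← Real.rpow_mul hU0.le]
    congr 1
    ring
  have e3 : ∀ a : ℝ, U ^ 2 * (U ^ (-2 : ℝ)) ^ (1 - a / 2) = U ^ a := by
    intro a
    rw [← Real.rpow_mul hU0.le, ← Real.rpow_two, ← Real.rpow_add hU0]
    congr 1
    ring
  have hAB : 0 ≤ A * U ^ p + B * U ^ q := by positivity
  constructor
  · have := g1 _ hl0 hl1
    rw [e1, e1] at this
    exact this.trans (mul_le_mul_of_nonneg_right (le_max_left _ _) hAB)
  · have := g3 _ hl0 hl1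
    calc U ^ 2 * ∑ i ∈ S, Q3 (U ^ (-2 : ℝ)) (h i)
        ≤ U ^ 2 * (C3 * (A * (U ^ (-2 : ℝ)) ^ (1 - p / 2) + B * (U ^ (-2 : ℝ)) ^ (1 - q / 2))) :=
          mul_le_mul_of_nonneg_left this (by positivity)
      _ = C3 * (A * (U ^ 2 * (U ^ (-2 : ℝ)) ^ (1 - p / 2)) +
            B * (U ^ 2 * (U ^ (-2 : ℝ)) ^ (1 - q / 2))) := by ring
      _ = C3 * (A * U ^ p + B * U ^ q) := by rw [e3, e3]
      _ ≤ max C1 C3 * (A * U ^ p + B * U ^ q) :=
          mul_le_mul_of_nonneg_right (le_max_right _ _) hAB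

theorem ma2_ne {r : ℕ} (hr : 2 ≤ r) {χ : DirichletCharacter ℂ r} (hχ : χ ∈ Pr r) : χ ≠ 1 := by
  have hr0 : NeZero r := ⟨by omega⟩
  rintro rfl
  classical
  have h1 : (1 : DirichletCharacter ℂ r).IsPrimitive := by
    unfold Pr at hχ
    exact (mem_filter.mp hχ).2
  rw [DirichletCharacter.isPrimitive_def, DirichletCharacter.conductor_one] at h1
  omega

theorem ma2_E0 {r : ℕ} (hr : 2 ≤ r) {χ : DirichletCharacter ℂ r} (hχ : χ ∈ Pr r) :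
    EE χ = E0 χ := by
  funext x
  unfold XS.E0
  split_ifs with h
  · have h1 : ⌊x⌋₊ = 0 := Nat.floor_eq_zero.2 h
    unfold XS.EE
    rw [h1, if_neg (ma2_ne hr hχ)]
    simp
  · rfl

/-- the zeta-free line -/
theorem ma2_line1 {θ e c : ℝ} (hθ : 9 / 10 ≤ θ) (h : ZF θ) (he : 0 < e) (he1 : e ≤ 1 / 10)
    (hc : c = θ + e / 100) (hc1 : c < 1) : ∃ C : ℝ, 1 ≤ C ∧ ∀ (X : ℝ) (K : ℕ), 1 ≤ X →
    (K : ℝ) ≤ X ^ (4 * (1 - θ) - e) → ∀ (R : ℕ) (D : ℝ), 2 ≤ R → R ≤ K → 1 / X ≤ D → D ≤ 1 →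
    (∀ i ∈ (Ico R (2 * R)).sigma (fun r => Pr r),
      Integrable (fun t => nH (KK (zA R K) i.2) c t ^ 2 / (1 + t ^ 2))) ∧
    X ^ (2 * c - 1) * ∑ i ∈ (Ico R (2 * R)).sigma (fun r => Pr r),
        Q1 ((D * X * X ^ (e / 8)) ^ (-2 : ℝ)) (nH (KK (zA R K) i.2) c) ≤
      C * (X ^ (1 - e / 5) * (1 + (R * (D * X) / K) ^ 2)) ∧
    D ^ 2 * (X ^ (2 * c + 1) * ∑ i ∈ (Ico R (2 * R)).sigma (fun r => Pr r),
        Q3 ((D * X * X ^ (e / 8)) ^ (-2 : ℝ)) (nH (KK (zA R K) i.2) c)) ≤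
      C * (X ^ (1 - e / 5) * (1 + (R * (D * X) / K) ^ 2)) := by
  set ε := e / 1000 with hε
  have hε0 : 0 < ε := by positivity
  have hc9 : 9 / 10 ≤ c := by rw [hc]; linarith
  obtain ⟨Ck, hCk, hk⟩ := km1 (θ := θ) (c := c) (ε := ε) (by linarith) h (by rw [hc]; linarith)
    (by linarith) hc1 hε0
  obtain ⟨C1, hC1, f1⟩ := ma2_fam (p := 1 + ε) (q := 1 - c + ε) (by linarith) (by linarith)
    (by linarith) (by linarith)
  refine ⟨C1 * (Ck * 6), by nlinarith, ?_⟩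
  intro X K hX hK R D hR hRK hXD hD1
  have hX0 : 0 < X := by linarith
  have hR2 : (2 : ℝ) ≤ R := by exact_mod_cast hR
  have hR1 : (1 : ℝ) ≤ R := by linarith
  have hRK' : (R : ℝ) ≤ K := by exact_mod_cast hRK
  have hK1 : (1 : ℝ) ≤ K := hR1.trans hRK'
  have hK0 : (0 : ℝ) < K := by linarith
  have hT : 1 ≤ D * X := by
    rw [div_le_iff₀ hX0] at hXD
    exact hXD
  have hTX : D * X ≤ X := by nlinarith
  set T := D * X with hTd
  set U := T * X ^ (e / 8) with hUd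
  have hY1 : 1 ≤ X ^ (e / 8) := Real.one_le_rpow hX (by positivity)
  have hTU : T ≤ U := by
    rw [hUd]
    nlinarith
  have hU1 : 1 ≤ U := hT.trans hTU
  have hU0 : 0 < U := by linarith
  have hUX : U ≤ X ^ (2 : ℝ) := by
    calc U ≤ X * X ^ (e / 8) := by
          rw [hUd]
          gcongr
      _ = X ^ (1 + e / 8) := by rw [Real.rpow_add hX0, Real.rpow_one]
      _ ≤ X ^ (2 : ℝ) := Real.rpow_le_rpow_of_exponent_le hX (by linarith)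
  have hK25 : (K : ℝ) ≤ X ^ (2 / 5 : ℝ) :=
    hK.trans (Real.rpow_le_rpow_of_exponent_le hX (by linarith))
  -- the length
  have hs1 : 1 ≤ Real.sqrt K := Real.one_le_sqrt.2 hK1
  have hRs : 1 ≤ (R : ℝ) * Real.sqrt K := by nlinarith
  have hP1 : 1 ≤ ((R : ℝ) * Real.sqrt K) ^ (5 / 4 : ℝ) := Real.one_le_rpow hRs (by norm_num)
  have hz : ((R : ℝ) * Real.sqrt K) ^ (5 / 4 : ℝ) ≤ (zA R K : ℝ) := Nat.le_ceil _
  have hz2 : (zA R K : ℝ) ≤ 2 * ((R : ℝ) * Real.sqrt K) ^ (5 / 4 : ℝ) := by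
    have := (Nat.ceil_lt_add_one (show 0 ≤ ((R : ℝ) * Real.sqrt K) ^ (5 / 4 : ℝ) by linarith)).le
    unfold zA
    linarith
  have hz1r : (1 : ℝ) ≤ (zA R K : ℝ) := hP1.trans hz
  have hz1 : 1 ≤ zA R K := by exact_mod_cast hz1r
  have hz0 : (0 : ℝ) ≤ (zA R K : ℝ) := by linarith
  set S := (Ico R (2 * R)).sigma (fun r => Pr r) with hS
  have hmem : ∀ i ∈ S, 2 ≤ i.1 ∧ i.2 ∈ Pr i.1 := by
    intro i hi
    rw [hS, Finset.mem_sigma, Finset.mem_Ico] at hi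
    exact ⟨hR.trans hi.1.1, hi.2⟩
  have hrep : ∀ i ∈ S, Rep (E2 (zA R K) i.2) (KK (zA R K) i.2) c := fun i hi =>
    rep_chi (by linarith) h (by rw [hc]; linarith) hc1 i.1 _ (hmem i hi).1 _ (hmem i hi).2
  have hcont : ∀ i ∈ S, Continuous (nH (KK (zA R K) i.2) c) := fun i hi =>
    kdf_nh_cont (hrep i hi) (by linarith)
  have hA : 0 ≤ Ck * ((R : ℝ) * zA R K) ^ ε * ((R : ℝ) ^ 2 * (zA R K : ℝ) ^ (1 - 2 * c)) := by
    positivity
  have hB : 0 ≤ Ck * ((R : ℝ) * zA R K) ^ ε *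
      ((zA R K : ℝ) * Real.sqrt R) ^ (2 - 2 * c) := by
    positivity
  obtain ⟨g1, g2⟩ := f1 _ S (fun i => nH (KK (zA R K) i.2) c) hcont _ _ hA hB (by
    intro T0 hT0
    have h1 := hk R T0 hR hT0 (zA R K) hz1
    rw [kdf_sp, ma2_split1 (by positivity) (by linarith) hz0] at h1
    exact h1)
  obtain ⟨g3, g4⟩ := g2 U hU1
  have hsm := ma2_small hε0 (by linarith) hX hR1 hRK' hK25 hU1 hUX hz0 hz2
  have hn1 := ma2_num1 hθ hc hc1 he hX hR1 hRK' hK hT hz hz2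
  have hmain : X ^ (2 * c - 1) *
      (Ck * ((R : ℝ) * zA R K) ^ ε * ((R : ℝ) ^ 2 * (zA R K : ℝ) ^ (1 - 2 * c)) * U ^ (1 + ε) +
        Ck * ((R : ℝ) * zA R K) ^ ε * ((zA R K : ℝ) * Real.sqrt R) ^ (2 - 2 * c) *
          U ^ (1 - c + ε)) ≤
      Ck * 6 * (X ^ (1 - e / 5) * (1 + (R * T / K) ^ 2)) := by
    have e1 : U ^ (1 + ε) = U * U ^ ε := by rw [Real.rpow_add hU0, Real.rpow_one]
    have e2 : U ^ (1 - c + ε) = U ^ (1 - c) * U ^ ε := Real.rpow_add hU0 _ _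
    rw [e1, e2]
    calc X ^ (2 * c - 1) *
        (Ck * ((R : ℝ) * zA R K) ^ ε * ((R : ℝ) ^ 2 * (zA R K : ℝ) ^ (1 - 2 * c)) *
          (U * U ^ ε) +
        Ck * ((R : ℝ) * zA R K) ^ ε * ((zA R K : ℝ) * Real.sqrt R) ^ (2 - 2 * c) *
          (U ^ (1 - c) * U ^ ε))
        = Ck * ((((R : ℝ) * zA R K) ^ ε * U ^ ε) * (X ^ (2 * c - 1) *
          ((R : ℝ) ^ 2 * (zA R K : ℝ) ^ (1 - 2 * c) * U +
            ((zA R K : ℝ) * Real.sqrt R) ^ (2 - 2 * c) * U ^ (1 - c)))) := by ring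
      _ ≤ Ck * ((2 * X ^ (4 * ε)) * (3 * X ^ (1 - 7 / 20 * e) * (1 + (R * T / K) ^ 2))) := by
          have hl : 0 ≤ X ^ (2 * c - 1) *
              ((R : ℝ) ^ 2 * (zA R K : ℝ) ^ (1 - 2 * c) * U +
                ((zA R K : ℝ) * Real.sqrt R) ^ (2 - 2 * c) * U ^ (1 - c)) := by positivity
          exact mul_le_mul_of_nonneg_left (mul_le_mul hsm hn1 hl (by positivity))
            (by linarith)
      _ = Ck * 6 * (X ^ (4 * ε + (1 - 7 / 20 * e)) * (1 + (R * T / K) ^ 2)) := by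
          rw [Real.rpow_add hX0]
          ring
      _ ≤ Ck * 6 * (X ^ (1 - e / 5) * (1 + (R * T / K) ^ 2)) := by
          have : X ^ (4 * ε + (1 - 7 / 20 * e)) ≤ X ^ (1 - e / 5) :=
            Real.rpow_le_rpow_of_exponent_le hX (by rw [hε]; linarith)
          gcongr
  refine ⟨g1, ?_, ?_⟩
  · calc X ^ (2 * c - 1) * ∑ i ∈ S, Q1 (U ^ (-2 : ℝ)) (nH (KK (zA R K) i.2) c)
        ≤ X ^ (2 * c - 1) * (C1 * (Ck * ((R : ℝ) * zA R K) ^ ε *
          ((R : ℝ) ^ 2 * (zA R K : ℝ) ^ (1 - 2 * c)) * U ^ (1 + ε) +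
          Ck * ((R : ℝ) * zA R K) ^ ε * ((zA R K : ℝ) * Real.sqrt R) ^ (2 - 2 * c) *
          U ^ (1 - c + ε))) := mul_le_mul_of_nonneg_left g3 (by positivity)
      _ = C1 * (X ^ (2 * c - 1) * (Ck * ((R : ℝ) * zA R K) ^ ε *
          ((R : ℝ) ^ 2 * (zA R K : ℝ) ^ (1 - 2 * c)) * U ^ (1 + ε) +
          Ck * ((R : ℝ) * zA R K) ^ ε * ((zA R K : ℝ) * Real.sqrt R) ^ (2 - 2 * c) *
          U ^ (1 - c + ε))) := by ring
      _ ≤ C1 * (Ck * 6 * (X ^ (1 - e / 5) * (1 + (R * T / K) ^ 2))) :=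
          mul_le_mul_of_nonneg_left hmain (by linarith)
      _ = C1 * (Ck * 6) * (X ^ (1 - e / 5) * (1 + (R * T / K) ^ 2)) := by ring
  · have hQ0 : 0 ≤ ∑ i ∈ S, Q3 (U ^ (-2 : ℝ)) (nH (KK (zA R K) i.2) c) := by
      refine Finset.sum_nonneg fun i _ => ?_
      unfold Q3
      exact integral_nonneg fun t => by positivity
    have e5 : D ^ 2 * X ^ (2 * c + 1) = T ^ 2 * X ^ (2 * c - 1) := by
      have : X ^ (2 * c + 1) = X ^ 2 * X ^ (2 * c - 1) := by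
        rw [← Real.rpow_two, ← Real.rpow_add hX0]
        congr 1
        ring
      rw [this, hTd]
      ring
    calc D ^ 2 * (X ^ (2 * c + 1) * ∑ i ∈ S, Q3 (U ^ (-2 : ℝ)) (nH (KK (zA R K) i.2) c))
        = X ^ (2 * c - 1) * (T ^ 2 * ∑ i ∈ S, Q3 (U ^ (-2 : ℝ)) (nH (KK (zA R K) i.2) c)) := by
          rw [← mul_assoc, e5]
          ring
      _ ≤ X ^ (2 * c - 1) *
          (U ^ 2 * ∑ i ∈ S, Q3 (U ^ (-2 : ℝ)) (nH (KK (zA R K) i.2) c)) := by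
          have : T ^ 2 ≤ U ^ 2 := pow_le_pow_left₀ (by linarith) hTU 2
          gcongr
      _ ≤ X ^ (2 * c - 1) * (C1 * (Ck * ((R : ℝ) * zA R K) ^ ε *
          ((R : ℝ) ^ 2 * (zA R K : ℝ) ^ (1 - 2 * c)) * U ^ (1 + ε) +
          Ck * ((R : ℝ) * zA R K) ^ ε * ((zA R K : ℝ) * Real.sqrt R) ^ (2 - 2 * c) *
          U ^ (1 - c + ε))) := mul_le_mul_of_nonneg_left g4 (by positivity)
      _ = C1 * (X ^ (2 * c - 1) * (Ck * ((R : ℝ) * zA R K) ^ ε *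
          ((R : ℝ) ^ 2 * (zA R K : ℝ) ^ (1 - 2 * c)) * U ^ (1 + ε) +
          Ck * ((R : ℝ) * zA R K) ^ ε * ((zA R K : ℝ) * Real.sqrt R) ^ (2 - 2 * c) *
          U ^ (1 - c + ε))) := by ring
      _ ≤ C1 * (Ck * 6 * (X ^ (1 - e / 5) * (1 + (R * T / K) ^ 2))) :=
          mul_le_mul_of_nonneg_left hmain (by linarith)
      _ = C1 * (Ck * 6) * (X ^ (1 - e / 5) * (1 + (R * T / K) ^ 2)) := by ring

/-- the line `1/2 + 1/1000` -/
theorem ma2_line2 {θ e : ℝ} (hθ : 9 / 10 ≤ θ) (he : 0 < e) (he1 : e ≤ 1 / 10) :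
    ∃ C : ℝ, 1 ≤ C ∧ ∀ (X : ℝ) (K : ℕ), 1 ≤ X →
    (K : ℝ) ≤ X ^ (4 * (1 - θ) - e) → ∀ (R : ℕ) (D : ℝ), 2 ≤ R → R ≤ K → 1 / X ≤ D → D ≤ 1 →
    (∀ i ∈ (Ico R (2 * R)).sigma (fun r => Pr r), Integrable (fun t =>
      nH (KL (zA R K) i.2) (1 / 2 + 2 * (1 / 2000)) t ^ 2 / (1 + t ^ 2))) ∧
    X ^ (2 * (1 / 2 + 2 * (1 / 2000)) - 1 : ℝ) * ∑ i ∈ (Ico R (2 * R)).sigma (fun r => Pr r),
        Q1 ((D * X * X ^ (e / 8)) ^ (-2 : ℝ)) (nH (KL (zA R K) i.2) (1 / 2 + 2 * (1 / 2000))) ≤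
      C * (X ^ (1 - e / 5) * (1 + (R * (D * X) / K) ^ 2)) ∧
    D ^ 2 * (X ^ (2 * (1 / 2 + 2 * (1 / 2000)) + 1 : ℝ) *
        ∑ i ∈ (Ico R (2 * R)).sigma (fun r => Pr r),
        Q3 ((D * X * X ^ (e / 8)) ^ (-2 : ℝ)) (nH (KL (zA R K) i.2) (1 / 2 + 2 * (1 / 2000)))) ≤
      C * (X ^ (1 - e / 5) * (1 + (R * (D * X) / K) ^ 2)) := by
  set ε := e / 1000 with hε
  have hε0 : 0 < ε := by positivity
  obtain ⟨Ck, hCk, hk⟩ := ldm (d := 1 / 2000) (ε := ε) (by norm_num) (by norm_num) hε0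
  obtain ⟨C1, hC1, f1⟩ := ma2_fam (p := 1 + ε) (q := 1 / 2 + ε) (by linarith) (by linarith)
    (by linarith) (by linarith)
  refine ⟨C1 * (Ck * 6), by nlinarith, ?_⟩
  intro X K hX hK R D hR hRK hXD hD1
  have hX0 : 0 < X := by linarith
  have hR2 : (2 : ℝ) ≤ R := by exact_mod_cast hR
  have hR1 : (1 : ℝ) ≤ R := by linarith
  have hRK' : (R : ℝ) ≤ K := by exact_mod_cast hRK
  have hK1 : (1 : ℝ) ≤ K := hR1.trans hRK'
  have hK0 : (0 : ℝ) < K := by linarith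
  have hT : 1 ≤ D * X := by
    rw [div_le_iff₀ hX0] at hXD
    exact hXD
  have hTX : D * X ≤ X := by nlinarith
  have hcc : (2 * (1 / 2 + 2 * (1 / 2000)) - 1 : ℝ) = 1 / 500 := by norm_num
  have hcc' : (2 * (1 / 2 + 2 * (1 / 2000)) + 1 : ℝ) = 2 + 1 / 500 := by norm_num
  rw [hcc, hcc']
  set c : ℝ := 1 / 2 + 2 * (1 / 2000) with hcd
  set T := D * X with hTd
  set U := T * X ^ (e / 8) with hUd
  have hY1 : 1 ≤ X ^ (e / 8) := Real.one_le_rpow hX (by positivity)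
  have hTU : T ≤ U := by
    rw [hUd]
    nlinarith
  have hU1 : 1 ≤ U := hT.trans hTU
  have hU0 : 0 < U := by linarith
  have hUX : U ≤ X ^ (2 : ℝ) := by
    calc U ≤ X * X ^ (e / 8) := by
          rw [hUd]
          gcongr
      _ = X ^ (1 + e / 8) := by rw [Real.rpow_add hX0, Real.rpow_one]
      _ ≤ X ^ (2 : ℝ) := Real.rpow_le_rpow_of_exponent_le hX (by linarith)
  have hK25 : (K : ℝ) ≤ X ^ (2 / 5 : ℝ) :=
    hK.trans (Real.rpow_le_rpow_of_exponent_le hX (by linarith))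
  -- the length
  have hs1 : 1 ≤ Real.sqrt K := Real.one_le_sqrt.2 hK1
  have hRs : 1 ≤ (R : ℝ) * Real.sqrt K := by nlinarith
  have hP1 : 1 ≤ ((R : ℝ) * Real.sqrt K) ^ (5 / 4 : ℝ) := Real.one_le_rpow hRs (by norm_num)
  have hz : ((R : ℝ) * Real.sqrt K) ^ (5 / 4 : ℝ) ≤ (zA R K : ℝ) := Nat.le_ceil _
  have hz2 : (zA R K : ℝ) ≤ 2 * ((R : ℝ) * Real.sqrt K) ^ (5 / 4 : ℝ) := by
    have := (Nat.ceil_lt_add_one (show 0 ≤ ((R : ℝ) * Real.sqrt K) ^ (5 / 4 : ℝ) by linarith)).le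
    unfold zA
    linarith
  have hz1r : (1 : ℝ) ≤ (zA R K : ℝ) := hP1.trans hz
  have hz1 : 1 ≤ zA R K := by exact_mod_cast hz1r
  have hz0 : (0 : ℝ) ≤ (zA R K : ℝ) := by linarith
  set S := (Ico R (2 * R)).sigma (fun r => Pr r) with hS
  have hmem : ∀ i ∈ S, 2 ≤ i.1 ∧ i.2 ∈ Pr i.1 := by
    intro i hi
    rw [hS, Finset.mem_sigma, Finset.mem_Ico] at hi
    exact ⟨hR.trans hi.1.1, hi.2⟩
  have hrep : ∀ i ∈ S, Rep (EI (zA R K) i.2) (KL (zA R K) i.2) c := fun i hi =>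
    rep_ei (by rw [hcd]; norm_num) (by rw [hcd]; norm_num) i.1 _ (hmem i hi).1 _ (hmem i hi).2
  have hcont : ∀ i ∈ S, Continuous (nH (KL (zA R K) i.2) c) := fun i hi =>
    kdf_nh_cont (hrep i hi) (by rw [hcd]; norm_num)
  have hA : 0 ≤ Ck * ((R : ℝ) * zA R K) ^ ε * (R : ℝ) ^ 2 := by
    positivity
  have hB : 0 ≤ Ck * ((R : ℝ) * zA R K) ^ ε * ((zA R K : ℝ) * Real.sqrt R) := by
    positivity
  obtain ⟨g1, g2⟩ := f1 _ S (fun i => nH (KL (zA R K) i.2) c) hcont _ _ hA hB (by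
    intro T0 hT0
    have h1 := hk R T0 hR hT0 (zA R K) hz1
    rw [kdf_sp, ma2_split2 (by positivity) (by linarith) hz0] at h1
    exact h1)
  obtain ⟨g3, g4⟩ := g2 U hU1
  have hsm := ma2_small hε0 (by linarith) hX hR1 hRK' hK25 hU1 hUX hz0 hz2
  have hn1 := ma2_num2 he hX hR1 hRK' hK25 hT hz0 hz2
  have hmain : X ^ (1 / 500 : ℝ) *
      (Ck * ((R : ℝ) * zA R K) ^ ε * (R : ℝ) ^ 2 * U ^ (1 + ε) +
        Ck * ((R : ℝ) * zA R K) ^ ε * ((zA R K : ℝ) * Real.sqrt R) * U ^ (1 / 2 + ε)) ≤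
      Ck * 6 * (X ^ (1 - e / 5) * (1 + (R * T / K) ^ 2)) := by
    have e1 : U ^ (1 + ε) = U * U ^ ε := by rw [Real.rpow_add hU0, Real.rpow_one]
    have e2 : U ^ (1 / 2 + ε) = U ^ (1 / 2 : ℝ) * U ^ ε := Real.rpow_add hU0 _ _
    rw [e1, e2]
    calc X ^ (1 / 500 : ℝ) *
        (Ck * ((R : ℝ) * zA R K) ^ ε * (R : ℝ) ^ 2 * (U * U ^ ε) +
        Ck * ((R : ℝ) * zA R K) ^ ε * ((zA R K : ℝ) * Real.sqrt R) *
          (U ^ (1 / 2 : ℝ) * U ^ ε))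
        = Ck * ((((R : ℝ) * zA R K) ^ ε * U ^ ε) * (X ^ (1 / 500 : ℝ) *
          ((R : ℝ) ^ 2 * U + (zA R K : ℝ) * Real.sqrt R * U ^ (1 / 2 : ℝ)))) := by ring
      _ ≤ Ck * ((2 * X ^ (4 * ε)) * (3 * X ^ (19 / 20 + 1 / 500 + e / 8) *
            (1 + (R * T / K) ^ 2))) := by
          have hl : 0 ≤ X ^ (1 / 500 : ℝ) *
              ((R : ℝ) ^ 2 * U + (zA R K : ℝ) * Real.sqrt R * U ^ (1 / 2 : ℝ)) := by positivity
          exact mul_le_mul_of_nonneg_left (mul_le_mul hsm hn1 hl (by positivity))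
            (by linarith)
      _ = Ck * 6 * (X ^ (4 * ε + (19 / 20 + 1 / 500 + e / 8)) * (1 + (R * T / K) ^ 2)) := by
          rw [Real.rpow_add hX0 (4 * ε)]
          ring
      _ ≤ Ck * 6 * (X ^ (1 - e / 5) * (1 + (R * T / K) ^ 2)) := by
          have : X ^ (4 * ε + (19 / 20 + 1 / 500 + e / 8)) ≤ X ^ (1 - e / 5) :=
            Real.rpow_le_rpow_of_exponent_le hX (by rw [hε]; linarith)
          gcongr
  refine ⟨g1, ?_, ?_⟩
  · calc X ^ (1 / 500 : ℝ) * ∑ i ∈ S, Q1 (U ^ (-2 : ℝ)) (nH (KL (zA R K) i.2) c)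
        ≤ X ^ (1 / 500 : ℝ) * (C1 * (Ck * ((R : ℝ) * zA R K) ^ ε * (R : ℝ) ^ 2 * U ^ (1 + ε) +
          Ck * ((R : ℝ) * zA R K) ^ ε * ((zA R K : ℝ) * Real.sqrt R) * U ^ (1 / 2 + ε))) :=
          mul_le_mul_of_nonneg_left g3 (by positivity)
      _ = C1 * (X ^ (1 / 500 : ℝ) * (Ck * ((R : ℝ) * zA R K) ^ ε * (R : ℝ) ^ 2 * U ^ (1 + ε) +
          Ck * ((R : ℝ) * zA R K) ^ ε * ((zA R K : ℝ) * Real.sqrt R) * U ^ (1 / 2 + ε))) := by
          ring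
      _ ≤ C1 * (Ck * 6 * (X ^ (1 - e / 5) * (1 + (R * T / K) ^ 2))) :=
          mul_le_mul_of_nonneg_left hmain (by linarith)
      _ = C1 * (Ck * 6) * (X ^ (1 - e / 5) * (1 + (R * T / K) ^ 2)) := by ring
  · have hQ0 : 0 ≤ ∑ i ∈ S, Q3 (U ^ (-2 : ℝ)) (nH (KL (zA R K) i.2) c) := by
      refine Finset.sum_nonneg fun i _ => ?_
      unfold Q3
      exact integral_nonneg fun t => by positivity
    have e5 : D ^ 2 * X ^ (2 + 1 / 500 : ℝ) = T ^ 2 * X ^ (1 / 500 : ℝ) := by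
      have : X ^ (2 + 1 / 500 : ℝ) = X ^ 2 * X ^ (1 / 500 : ℝ) := by
        rw [← Real.rpow_two, ← Real.rpow_add hX0]
      rw [this, hTd]
      ring
    calc D ^ 2 * (X ^ (2 + 1 / 500 : ℝ) * ∑ i ∈ S, Q3 (U ^ (-2 : ℝ)) (nH (KL (zA R K) i.2) c))
        = X ^ (1 / 500 : ℝ) * (T ^ 2 * ∑ i ∈ S, Q3 (U ^ (-2 : ℝ)) (nH (KL (zA R K) i.2) c)) := by
          rw [← mul_assoc, e5]
          ring
      _ ≤ X ^ (1 / 500 : ℝ) *
          (U ^ 2 * ∑ i ∈ S, Q3 (U ^ (-2 : ℝ)) (nH (KL (zA R K) i.2) c)) := by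
          have : T ^ 2 ≤ U ^ 2 := pow_le_pow_left₀ (by linarith) hTU 2
          gcongr
      _ ≤ X ^ (1 / 500 : ℝ) * (C1 * (Ck * ((R : ℝ) * zA R K) ^ ε * (R : ℝ) ^ 2 * U ^ (1 + ε) +
          Ck * ((R : ℝ) * zA R K) ^ ε * ((zA R K : ℝ) * Real.sqrt R) * U ^ (1 / 2 + ε))) :=
          mul_le_mul_of_nonneg_left g4 (by positivity)
      _ = C1 * (X ^ (1 / 500 : ℝ) * (Ck * ((R : ℝ) * zA R K) ^ ε * (R : ℝ) ^ 2 * U ^ (1 + ε) +
          Ck * ((R : ℝ) * zA R K) ^ ε * ((zA R K : ℝ) * Real.sqrt R) * U ^ (1 / 2 + ε))) := by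
          ring
      _ ≤ C1 * (Ck * 6 * (X ^ (1 - e / 5) * (1 + (R * T / K) ^ 2))) :=
          mul_le_mul_of_nonneg_left hmain (by linarith)
      _ = C1 * (Ck * 6) * (X ^ (1 - e / 5) * (1 + (R * T / K) ^ 2)) := by ring

/-- the boundary -/
theorem ma2_bd {θ e : ℝ} (hθ : 9 / 10 ≤ θ) (he : 0 < e) (he1 : e ≤ 1 / 10) :
    ∃ C : ℝ, 1 ≤ C ∧ ∀ (X : ℝ) (K : ℕ), 1 ≤ X →
    (K : ℝ) ≤ X ^ (4 * (1 - θ) - e) → ∀ (R : ℕ) (D : ℝ), 2 ≤ R → R ≤ K → 1 / X ≤ D → D ≤ 1 →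
    D * ∑ i ∈ (Ico R (2 * R)).sigma (fun r => Pr r),
      ‖EE i.2 X - sm ((D * X * X ^ (e / 8)) ^ (-2 : ℝ)) (EE i.2) X‖ ^ 2 ≤
      C * (X ^ (1 - e / 5) * (1 + (R * (D * X) / K) ^ 2)) := by
  obtain ⟨Cs, hCs, hs⟩ := short
  obtain ⟨L, hL, hlog⟩ := ma2_log (ε := e / 20) (by positivity)
  refine ⟨Cs * L * 6, by nlinarith, ?_⟩
  intro X K hX hK R D hR hRK hXD hD1
  have hX0 : 0 < X := by linarith
  have hR2 : (2 : ℝ) ≤ R := by exact_mod_cast hR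
  have hR1 : (1 : ℝ) ≤ R := by linarith
  have hRK' : (R : ℝ) ≤ K := by exact_mod_cast hRK
  have hK1 : (1 : ℝ) ≤ K := hR1.trans hRK'
  have hD0 : 0 < D := lt_of_lt_of_le (by positivity) hXD
  have hT : 1 ≤ D * X := by
    rw [div_le_iff₀ hX0] at hXD
    exact hXD
  have hTX : D * X ≤ X := by nlinarith
  have hK25 : (K : ℝ) ≤ X ^ (2 / 5 : ℝ) :=
    hK.trans (Real.rpow_le_rpow_of_exponent_le hX (by linarith))
  have hD : D = D * X / X := by field_simp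
  set T := D * X with hTd
  set U := T * X ^ (e / 8) with hUd
  have hY1 : 1 ≤ X ^ (e / 8) := Real.one_le_rpow hX (by positivity)
  have hU1 : 1 ≤ U := by
    rw [hUd]
    nlinarith
  have hU0 : 0 < U := by linarith
  have hl0 : 0 < U ^ (-2 : ℝ) := Real.rpow_pos_of_pos hU0 _
  have hl1 : U ^ (-2 : ℝ) ≤ 1 := Real.rpow_le_one_of_one_le_of_nonpos hU1 (by norm_num)
  have hsq : X * Real.sqrt (U ^ (-2 : ℝ)) = X / U := by
    have : Real.sqrt (U ^ (-2 : ℝ)) = U⁻¹ := by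
      rw [Real.sqrt_eq_rpow, ← Real.rpow_mul hU0.le, ← Real.rpow_neg_one]
      norm_num
    rw [this]
    rfl
  have h1 := hs R X _ (by omega) hX hl0 hl1
  rw [kdf_sp, hsq] at h1
  have h2 : ∑ i ∈ (Ico R (2 * R)).sigma (fun r => Pr r),
      ‖EE i.2 X - sm (U ^ (-2 : ℝ)) (EE i.2) X‖ ^ 2 =
      ∑ i ∈ (Ico R (2 * R)).sigma (fun r => Pr r),
      ‖EE i.2 X - sm (U ^ (-2 : ℝ)) (E0 i.2) X‖ ^ 2 := by
    refine Finset.sum_congr rfl fun i hi => ?_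
    rw [Finset.mem_sigma, Finset.mem_Ico] at hi
    have h3 : E0 i.2 = EE i.2 := (ma2_E0 (hR.trans hi.1.1) hi.2).symm
    rw [h3]
  rw [h2]
  have hn := ma2_num3 he he1 hX hR1 hRK' hK25 hT hTX
  rw [← hUd] at hn
  calc D * ∑ i ∈ (Ico R (2 * R)).sigma (fun r => Pr r),
      ‖EE i.2 X - sm (U ^ (-2 : ℝ)) (E0 i.2) X‖ ^ 2
      ≤ D * (Cs * Real.log (X + 2) ^ 2 * ((R : ℝ) ^ 2 + X / U + 1) * (X / U + 1)) :=
        mul_le_mul_of_nonneg_left h1 hD0.le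
    _ = Cs * Real.log (X + 2) ^ 2 * (D * (((R : ℝ) ^ 2 + X / U + 1) * (X / U + 1))) := by ring
    _ = Cs * Real.log (X + 2) ^ 2 * (T / X * (((R : ℝ) ^ 2 + X / U + 1) * (X / U + 1))) := by
        rw [← hD]
    _ ≤ Cs * (L * X ^ (e / 20)) * (6 * X ^ (1 - e / 4)) := by
        have := hlog X hX
        gcongr
    _ = Cs * L * 6 * (X ^ (1 - e / 5) * (1 + 0)) := by
        have : X ^ (1 - e / 5) = X ^ (e / 20) * X ^ (1 - e / 4) := by
          rw [← Real.rpow_add hX0]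
          congr 1
          ring
        rw [this]
        ring
    _ ≤ Cs * L * 6 * (X ^ (1 - e / 5) * (1 + (R * T / K) ^ 2)) := by
        gcongr
        positivity

/-- MA2: with `T = D X`, `T' = T X^(e/8)`, `lam = T'^(-2)`, `c = θ + e/100` (and `< 1`),
`z = zA R K`, type I on the line `1/2 + 1/1000`. See the paper. -/
theorem mass_ge2_pr {θ e : ℝ} (hθ : 9 / 10 ≤ θ) (hθ1 : θ < 1) (h : ZF θ) (he : 0 < e)
    (he1 : e ≤ 1 / 10) : ∃ C : ℝ, ∀ (X : ℝ) (K : ℕ), C ≤ X → X ^ e ≤ (K : ℝ) →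
    (K : ℝ) ≤ X ^ (4 * (1 - θ) - e) → ∀ (R : ℕ) (D : ℝ), 2 ≤ R → R ≤ K → 1 / X ≤ D → D ≤ 1 →
    SP R (fun _ χ => ∫ β in (-D)..D, ‖EB χ X β‖ ^ 2) ≤
      X ^ (1 - e / 10) * (1 + (R * (D * X) / K) ^ 2) := by
  rcases lt_or_ge (2 * (1 - θ)) e with hv | hv
  · refine ⟨2, ?_⟩
    intro X K hX hK1 hK2
    exfalso
    have h1 : X ^ (4 * (1 - θ) - e) < X ^ e :=
      Real.rpow_lt_rpow_of_exponent_lt (by linarith) (by linarith)
    linarith
  obtain ⟨c, hc⟩ : ∃ c : ℝ, c = θ + e / 100 := ⟨_, rfl⟩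
  have hc1 : c < 1 := by rw [hc]; linarith
  have hc9 : 9 / 10 ≤ c := by rw [hc]; linarith
  obtain ⟨C1, hC1, l1⟩ := ma2_line1 hθ h he he1 hc hc1
  obtain ⟨C2, hC2, l2⟩ := ma2_line2 hθ he he1
  obtain ⟨C3, hC3, l3⟩ := ma2_bd hθ he he1
  set M : ℝ := 1000000 * (2 * C1 + 2 * C2 + C3) with hM
  have hM0 : 0 < M := by positivity
  refine ⟨max 1 (M ^ (10 / e)), ?_⟩
  intro X K hX _ hK2 R D hR hRK hXD hD1
  have hX1 : 1 ≤ X := (le_max_left _ _).trans hX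
  have hX0 : 0 < X := by linarith
  have hXM : M ≤ X ^ (e / 10) := by
    calc M = (M ^ (10 / e)) ^ (e / 10) := by
          rw [← Real.rpow_mul hM0.le]
          have : 10 / e * (e / 10) = 1 := by field_simp
          rw [this, Real.rpow_one]
      _ ≤ X ^ (e / 10) := Real.rpow_le_rpow (by positivity) ((le_max_right _ _).trans hX)
          (by positivity)
  obtain ⟨i1, q1, q2⟩ := l1 X K hX1 hK2 R D hR hRK hXD hD1
  obtain ⟨i2, q3, q4⟩ := l2 X K hX1 hK2 R D hR hRK hXD hD1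
  have q5 := l3 X K hX1 hK2 R D hR hRK hXD hD1
  have hD0 : 0 < D := lt_of_lt_of_le (by positivity) hXD
  have hT : 1 ≤ D * X := by
    rw [div_le_iff₀ hX0] at hXD
    exact hXD
  have hU1 : 1 ≤ D * X * X ^ (e / 8) := by
    have hY1 : 1 ≤ X ^ (e / 8) := Real.one_le_rpow hX1 (by positivity)
    nlinarith
  set U := D * X * X ^ (e / 8) with hUd
  have hU0 : 0 < U := by linarith
  have hl0 : 0 < U ^ (-2 : ℝ) := Real.rpow_pos_of_pos hU0 _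
  have hl1 : U ^ (-2 : ℝ) ≤ 1 := Real.rpow_le_one_of_one_le_of_nonpos hU1 (by norm_num)
  set G := X ^ (1 - e / 5) * (1 + (R * (D * X) / K) ^ 2) with hG
  set c₂ : ℝ := 1 / 2 + 2 * (1 / 2000) with hc₂
  set S := (Ico R (2 * R)).sigma (fun r => Pr r) with hS
  have hmem : ∀ i ∈ S, 2 ≤ i.1 ∧ i.2 ∈ Pr i.1 := by
    intro i hi
    rw [hS, Finset.mem_sigma, Finset.mem_Ico] at hi
    exact ⟨hR.trans hi.1.1, hi.2⟩
  rw [kdf_sp, ← hS]
  have key : ∀ i ∈ S, ∫ β in (-D)..D, ‖EB i.2 X β‖ ^ 2 ≤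
      1000000 * (X ^ (2 * c - 1) * Q1 (U ^ (-2 : ℝ)) (nH (KK (zA R K) i.2) c) +
      X ^ (2 * c₂ - 1) * Q1 (U ^ (-2 : ℝ)) (nH (KL (zA R K) i.2) c₂) +
      D * ‖EE i.2 X - sm (U ^ (-2 : ℝ)) (EE i.2) X‖ ^ 2 +
      D ^ 2 * (X ^ (2 * c + 1) * Q3 (U ^ (-2 : ℝ)) (nH (KK (zA R K) i.2) c) +
        X ^ (2 * c₂ + 1) * Q3 (U ^ (-2 : ℝ)) (nH (KL (zA R K) i.2) c₂))) := by
    intro i hi
    have hne := ma2_E0 (hmem i hi).1 (hmem i hi).2
    have hE : ∀ x, EE i.2 x = E2 (zA R K) i.2 x + EI (zA R K) i.2 x := by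
      intro x
      rw [hne]
      unfold XS.E2
      ring
    have r1 := rep_chi (by linarith) h (by rw [hc]; linarith : θ < c) hc1 i.1 (zA R K)
      (hmem i hi).1 _ (hmem i hi).2
    have r2 := rep_ei (c := c₂) (by rw [hc₂]; norm_num) (by rw [hc₂]; norm_num) i.1 (zA R K)
      (hmem i hi).1 _ (hmem i hi).2
    have h1 := one2 hE r1 r2 (by linarith) hc1.le (by rw [hc₂]; norm_num)
      (by rw [hc₂]; norm_num) hl0 hl1 (i1 i hi) (i2 i hi) hX1 hD0.le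
    have h2 : (fun β => ‖EB i.2 X β‖ ^ 2) = fun β => ‖Bf (EE i.2) X β‖ ^ 2 := by
      funext β
      rw [eb_bf i.2 hX1 β]
    rw [h2]
    exact h1
  calc ∑ i ∈ S, ∫ β in (-D)..D, ‖EB i.2 X β‖ ^ 2
      ≤ ∑ i ∈ S, 1000000 * (X ^ (2 * c - 1) * Q1 (U ^ (-2 : ℝ)) (nH (KK (zA R K) i.2) c) +
      X ^ (2 * c₂ - 1) * Q1 (U ^ (-2 : ℝ)) (nH (KL (zA R K) i.2) c₂) +
      D * ‖EE i.2 X - sm (U ^ (-2 : ℝ)) (EE i.2) X‖ ^ 2 +
      D ^ 2 * (X ^ (2 * c + 1) * Q3 (U ^ (-2 : ℝ)) (nH (KK (zA R K) i.2) c) +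
        X ^ (2 * c₂ + 1) * Q3 (U ^ (-2 : ℝ)) (nH (KL (zA R K) i.2) c₂))) :=
        Finset.sum_le_sum key
    _ = 1000000 * (X ^ (2 * c - 1) * ∑ i ∈ S, Q1 (U ^ (-2 : ℝ)) (nH (KK (zA R K) i.2) c) +
      X ^ (2 * c₂ - 1) * ∑ i ∈ S, Q1 (U ^ (-2 : ℝ)) (nH (KL (zA R K) i.2) c₂) +
      D * ∑ i ∈ S, ‖EE i.2 X - sm (U ^ (-2 : ℝ)) (EE i.2) X‖ ^ 2 +
      (D ^ 2 * (X ^ (2 * c + 1) * ∑ i ∈ S, Q3 (U ^ (-2 : ℝ)) (nH (KK (zA R K) i.2) c)) +
      D ^ 2 * (X ^ (2 * c₂ + 1) *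
        ∑ i ∈ S, Q3 (U ^ (-2 : ℝ)) (nH (KL (zA R K) i.2) c₂)))) := by
        simp only [Finset.mul_sum, ← Finset.sum_add_distrib]
        refine Finset.sum_congr rfl fun i _ => ?_
        ring
    _ ≤ 1000000 * (C1 * G + C2 * G + C3 * G + (C1 * G + C2 * G)) := by
        gcongr
    _ = M * G := by
        rw [hM]
        ring
    _ ≤ X ^ (e / 10) * G := mul_le_mul_of_nonneg_right hXM (by positivity)
    _ = X ^ (1 - e / 10) * (1 + (R * (D * X) / K) ^ 2) := by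
        rw [hG, ← mul_assoc, ← Real.rpow_add hX0]
        congr 2
        ring

theorem mass_ge2 : type_of% @mass_ge2_pr := @mass_ge2_pr

end Pool.Agent.XT
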